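import Pool.Agent.Helper3.JG.Lab

/-!
# Jigsaw tiles on a lattice: the hexagonal lattice as a grid

Put `α = x + 2y`, `β = x - y`, `γ = α + β = 2x + y`. Lattice points are the integral pairs `(α, β)`
with `α ≡ β mod 3`. The six closed cells around `0` are (direction `0, 1, 2` and their negatives)
`{0≤α≤1, 0≤β≤1}`, `{0≤γ≤1, -1≤β≤0}`, `{0≤α≤1, -1≤γ≤0}`.

Separation: for `p ∈ U0` and `p - w` in the closed cell of direction `i`, each of the two defining
forms of that cell takes a value in an interval of length one and an integral shift, which leaves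
finitely many values of `(α(w), β(w))`; congruence mod 3 and the other inequalities kill all but
`w = 0` (`i = 0`) and `w = dir 0` (`i = 3`).

Cover: let `a = ⌊α⌋`, `b = ⌊β⌋` and `u, v` the fractional parts. If `a ≡ b mod 3`: the lattice point
`(α, β) = (a, b)` and direction `0`. If `a - b ≡ 1`: the lattice point `(a, b + 1)`; direction `1` if
`u + v ≥ 1`, direction `2` otherwise. If `a - b ≡ 2`: the lattice point `(a + 1, b)`; direction `4`
if `u + v ≤ 1`, direction `5` otherwise.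
-/

namespace Pool.H3JG

open Set

theorem hexU0_open : IsOpen hexU0 := by
  have h1 : IsOpen {p : V | 0 < p.1 + 2 * p.2} := isOpen_lt (by fun_prop) (by fun_prop)
  have h2 : IsOpen {p : V | p.1 + 2 * p.2 < 1} := isOpen_lt (by fun_prop) (by fun_prop)
  have h3 : IsOpen {p : V | 0 < p.1 - p.2} := isOpen_lt (by fun_prop) (by fun_prop)
  have h4 : IsOpen {p : V | p.1 - p.2 < 1} := isOpen_lt (by fun_prop) (by fun_prop)
  exact h1.inter (h2.inter (h3.inter h4))

theorem GridHex_flip (p : V) : (hexMat (0, true)).ap p = (p.1 + p.2, -p.2) := by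
  rw [show hexMat (0, true) = ⟨1, 1, 0, -1⟩ from rfl]
  simp [Mat.ap]

theorem GridHex_m0 (p : V) : (hexMat (0, false)).ap p = (p.1, p.2) := by
  rw [show hexMat (0, false) = ⟨1, 0, 0, 1⟩ from rfl]
  simp [Mat.ap]

theorem GridHex_m1 (p : V) : (hexMat (1, false)).ap p = (-p.2, p.1 + p.2) := by
  rw [show hexMat (1, false) = ⟨0, -1, 1, 1⟩ from rfl]
  simp [Mat.ap]

theorem GridHex_m2 (p : V) : (hexMat (2, false)).ap p = (-p.1 - p.2, p.1) := by
  rw [show hexMat (2, false) = ⟨-1, -1, 1, 0⟩ from rfl]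
  simp [Mat.ap, sub_eq_add_neg]

theorem GridHex_m3 (p : V) : (hexMat (3, false)).ap p = (-p.1, -p.2) := by
  rw [show hexMat (3, false) = ⟨-1, 0, 0, -1⟩ from rfl]
  simp [Mat.ap]

theorem GridHex_m4 (p : V) : (hexMat (4, false)).ap p = (p.2, -p.1 - p.2) := by
  rw [show hexMat (4, false) = ⟨0, 1, -1, -1⟩ from rfl]
  simp [Mat.ap, sub_eq_add_neg]

theorem GridHex_m5 (p : V) : (hexMat (5, false)).ap p = (p.1 + p.2, -p.1) := by
  rw [show hexMat (5, false) = ⟨1, 1, -1, 0⟩ from rfl]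
  simp [Mat.ap]

theorem GridHex_mul (a b : Lab 6) : hexMat (lmul a b) = (hexMat a).mul (hexMat b) := by
  revert a b
  decide

theorem hexU0_flip : ∀ p ∈ hexU0, (hexMat (0, true)).ap p ∈ hexU0 := by
  rintro p ⟨h1, h2, h3, h4⟩
  rw [GridHex_flip]
  refine ⟨?_, ?_, ?_, ?_⟩ <;> simp only <;> linarith

theorem GridHex_D0_flip : ∀ p ∈ hexD0, (hexMat (0, true)).ap p ∈ hexD0 := by
  rintro p ⟨h1, h2, h3, h4⟩
  rw [GridHex_flip]
  refine ⟨?_, ?_, ?_, ?_⟩ <;> simp only <;> linarith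

theorem hexU0_half : ∀ p ∈ hexU0, (hexMat (3, false)).ap (p - toV (hexDir 0)) ∈ hexU0 := by
  rintro p ⟨h1, h2, h3, h4⟩
  rw [GridHex_m3, show hexDir 0 = (1, 0) from rfl]
  simp only [toV, Prod.fst_sub, Prod.snd_sub, Int.cast_one, Int.cast_zero, sub_zero]
  refine ⟨?_, ?_, ?_, ?_⟩ <;> simp only <;> linarith

theorem hexB_inv : ∀ a, ∀ p ∈ hexB, (hexMat a).ap p ∈ hexB := by
  rintro ⟨k, f⟩ p ⟨i, hi⟩
  cases f
  · refine ⟨i - k, ?_⟩
    rw [← Mat.ap_mul, ← GridHex_mul]
    have h : lmul (i - k, false) (k, false) = (i, false) := by simp [lmul, sg]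
    rw [h]
    exact hi
  · refine ⟨-i - k, ?_⟩
    rw [← Mat.ap_mul, ← GridHex_mul]
    have h : lmul (-i - k, false) (k, true) = lmul (0, true) (i, false) := by simp [lmul, sg]
    rw [h, GridHex_mul, Mat.ap_mul]
    exact GridHex_D0_flip _ hi

theorem GridHex_cases (i : ZMod 6) : i = 0 ∨ i = 1 ∨ i = 2 ∨ i = 3 ∨ i = 4 ∨ i = 5 := by
  revert i
  decide

theorem hexB_sep : ∀ p ∈ hexU0, ∀ w : Z2, p - toV w ∈ hexB → w = 0 ∨ w = hexDir 0 := by
  rintro ⟨x, y⟩ ⟨h1, h2, h3, h4⟩ ⟨m, n⟩ ⟨i, hi⟩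
  simp only at h1 h2 h3 h4
  rw [show hexDir 0 = (1, 0) from rfl]
  rcases GridHex_cases i with rfl | rfl | rfl | rfl | rfl | rfl
  · rw [GridHex_m0] at hi
    obtain ⟨k1, k2, k3, k4⟩ := hi
    simp only [toV, Prod.mk_sub_mk] at k1 k2 k3 k4
    have e1 : m + 2 * n < 1 := by exact_mod_cast (by linarith : (m : ℝ) + 2 * n < 1)
    have e2 : -1 < m + 2 * n := by exact_mod_cast (by linarith : (-1 : ℝ) < m + 2 * n)
    have e3 : m - n < 1 := by exact_mod_cast (by linarith : (m : ℝ) - n < 1)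
    have e4 : -1 < m - n := by exact_mod_cast (by linarith : (-1 : ℝ) < m - n)
    left
    exact Prod.ext (by simp only [Prod.fst_zero]; omega) (by simp only [Prod.snd_zero]; omega)
  · rw [GridHex_m1] at hi
    obtain ⟨k1, k2, k3, k4⟩ := hi
    simp only [toV, Prod.mk_sub_mk] at k1 k2 k3 k4
    have e1 : 0 < m + 2 * n := by exact_mod_cast (by linarith : (0 : ℝ) < m + 2 * n)
    have e2 : m + 2 * n < 2 := by exact_mod_cast (by linarith : (m : ℝ) + 2 * n < 2)
    have e3 : -1 < 2 * m + n := by exact_mod_cast (by linarith : (-1 : ℝ) < 2 * m + n)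
    have e4 : 2 * m + n < 2 := by exact_mod_cast (by linarith : 2 * (m : ℝ) + n < 2)
    omega
  · rw [GridHex_m2] at hi
    obtain ⟨k1, k2, k3, k4⟩ := hi
    simp only [toV, Prod.mk_sub_mk] at k1 k2 k3 k4
    have e1 : -1 < m - n := by exact_mod_cast (by linarith : (-1 : ℝ) < m - n)
    have e2 : m - n < 1 := by exact_mod_cast (by linarith : (m : ℝ) - n < 1)
    have e3 : 0 < 2 * m + n := by exact_mod_cast (by linarith : (0 : ℝ) < 2 * m + n)
    have e4 : 2 * m + n < 3 := by exact_mod_cast (by linarith : 2 * (m : ℝ) + n < 3)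
    omega
  · rw [GridHex_m3] at hi
    obtain ⟨k1, k2, k3, k4⟩ := hi
    simp only [toV, Prod.mk_sub_mk] at k1 k2 k3 k4
    have e1 : 0 < m + 2 * n := by exact_mod_cast (by linarith : (0 : ℝ) < m + 2 * n)
    have e2 : m + 2 * n < 2 := by exact_mod_cast (by linarith : (m : ℝ) + 2 * n < 2)
    have e3 : 0 < m - n := by exact_mod_cast (by linarith : (0 : ℝ) < m - n)
    have e4 : m - n < 2 := by exact_mod_cast (by linarith : (m : ℝ) - n < 2)
    right
    exact Prod.ext (by simp only; omega) (by simp only; omega)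
  · rw [GridHex_m4] at hi
    obtain ⟨k1, k2, k3, k4⟩ := hi
    simp only [toV, Prod.mk_sub_mk] at k1 k2 k3 k4
    have e1 : -1 < m + 2 * n := by exact_mod_cast (by linarith : (-1 : ℝ) < m + 2 * n)
    have e2 : m + 2 * n < 1 := by exact_mod_cast (by linarith : (m : ℝ) + 2 * n < 1)
    have e3 : 0 < 2 * m + n := by exact_mod_cast (by linarith : (0 : ℝ) < 2 * m + n)
    have e4 : 2 * m + n < 3 := by exact_mod_cast (by linarith : 2 * (m : ℝ) + n < 3)
    omega
  · rw [GridHex_m5] at hi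
    obtain ⟨k1, k2, k3, k4⟩ := hi
    simp only [toV, Prod.mk_sub_mk] at k1 k2 k3 k4
    have e1 : 0 < m - n := by exact_mod_cast (by linarith : (0 : ℝ) < m - n)
    have e2 : m - n < 2 := by exact_mod_cast (by linarith : (m : ℝ) - n < 2)
    have e3 : -1 < 2 * m + n := by exact_mod_cast (by linarith : (-1 : ℝ) < 2 * m + n)
    have e4 : 2 * m + n < 2 := by exact_mod_cast (by linarith : 2 * (m : ℝ) + n < 2)
    omega

theorem GridHex_closure : hexD0 ⊆ closure hexU0 := by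
  rintro ⟨x, y⟩ ⟨h1, h2, h3, h4⟩
  simp only at h1 h2 h3 h4
  have hc : Continuous (fun t : ℝ => (((1 - t) * x + t * (1 / 2), (1 - t) * y) : V)) := by
    fun_prop
  have h0 := hc.tendsto 0
  have e0 : (((1 - 0) * x + 0 * (1 / 2), (1 - 0) * y) : V) = (x, y) :=
    Prod.ext (by simp) (by simp)
  rw [e0] at h0
  refine mem_closure_of_tendsto (h0.mono_left (nhdsWithin_le_nhds (s := Ioi (0 : ℝ)))) ?_
  filter_upwards [Ioo_mem_nhdsGT (zero_lt_one (α := ℝ))] with t ht
  obtain ⟨t0, t1⟩ := ht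
  have t1' : 0 ≤ 1 - t := by linarith
  have a1 := mul_nonneg t1' h1
  have a2 := mul_nonneg t1' (sub_nonneg.2 h2)
  have a3 := mul_nonneg t1' h3
  have a4 := mul_nonneg t1' (sub_nonneg.2 h4)
  refine ⟨?_, ?_, ?_, ?_⟩ <;> simp only <;> nlinarith

theorem GridHex_star (p : V) : ∃ z : Z2, p - toV z ∈ hexB := by
  obtain ⟨x, y⟩ := p
  have a1 := Int.floor_le (x + 2 * y)
  have a2 := Int.lt_floor_add_one (x + 2 * y)
  have b1 := Int.floor_le (x - y)
  have b2 := Int.lt_floor_add_one (x - y)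
  obtain ⟨a, ha⟩ : ∃ a : ℤ, a = ⌊x + 2 * y⌋ := ⟨_, rfl⟩
  obtain ⟨b, hb⟩ : ∃ b : ℤ, b = ⌊x - y⌋ := ⟨_, rfl⟩
  rw [← ha] at a1 a2
  rw [← hb] at b1 b2
  obtain ⟨n, hn⟩ : ∃ n : ℤ, a - b = 3 * n ∨ a - b = 3 * n + 1 ∨ a - b = 3 * n + 2 :=
    ⟨(a - b) / 3, by omega⟩
  rcases hn with hn | hn | hn
  · have ha' : (a : ℝ) = b + 3 * n := by
      have h : a = b + 3 * n := by omega
      rw [h]
      push_cast
      ring
    refine ⟨(b + n, n), 0, ?_⟩
    rw [GridHex_m0]
    simp only [toV, Prod.mk_sub_mk]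
    push_cast
    refine ⟨?_, ?_, ?_, ?_⟩ <;> simp only <;> linarith
  · have ha' : (a : ℝ) = b + 3 * n + 1 := by
      have h : a = b + 3 * n + 1 := by omega
      rw [h]
      push_cast
      ring
    rcases le_total 1 ((x + 2 * y - a) + (x - y - b)) with h | h
    · refine ⟨(b + 1 + n, n), 5, ?_⟩
      rw [GridHex_m5]
      simp only [toV, Prod.mk_sub_mk]
      push_cast
      refine ⟨?_, ?_, ?_, ?_⟩ <;> simp only <;> linarith
    · refine ⟨(b + 1 + n, n), 4, ?_⟩
      rw [GridHex_m4]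
      simp only [toV, Prod.mk_sub_mk]
      push_cast
      refine ⟨?_, ?_, ?_, ?_⟩ <;> simp only <;> linarith
  · have ha' : (a : ℝ) = b + 3 * n + 2 := by
      have h : a = b + 3 * n + 2 := by omega
      rw [h]
      push_cast
      ring
    rcases le_total 1 ((x + 2 * y - a) + (x - y - b)) with h | h
    · refine ⟨(b + (n + 1), n + 1), 1, ?_⟩
      rw [GridHex_m1]
      simp only [toV, Prod.mk_sub_mk]
      push_cast
      refine ⟨?_, ?_, ?_, ?_⟩ <;> simp only <;> linarith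
    · refine ⟨(b + (n + 1), n + 1), 2, ?_⟩
      rw [GridHex_m2]
      simp only [toV, Prod.mk_sub_mk]
      push_cast
      refine ⟨?_, ?_, ?_, ?_⟩ <;> simp only <;> linarith

theorem hex_cover : ∀ p : V, ∃ z : Z2, ∃ i : ZMod 6, ∃ q ∈ closure hexU0,
    p = toV z + (hexMat (i, false)).ap q := by
  intro p
  obtain ⟨z, j, hj⟩ := GridHex_star p
  refine ⟨z, -j, _, GridHex_closure hj, ?_⟩
  rw [← Mat.ap_mul, ← GridHex_mul]
  have h : lmul (-j, false) (j, false) = ((0, false) : Lab 6) := by simp [lmul, sg]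
  rw [h, GridHex_m0]
  exact (add_sub_cancel (toV z) p).symm

/-- The hexagonal lattice. -/
def gridHex : Grid 6 where
  h := 3
  mat := hexMat
  dir := hexDir
  U0 := hexU0
  B := hexB
  h_add := by decide
  mat_one := by decide
  mat_mul := by decide
  mat_dir := by decide
  dir_h := by decide
  dir_ne := by decide
  U0_open := hexU0_open
  U0_flip := hexU0_flip
  U0_half := hexU0_half
  B_inv := hexB_inv
  B_sep := hexB_sep
  cover := hex_cover

end Pool.H3JG
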