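import Pool.Agent.Helper3.JG.Hex6

/-!
# Jigsaw tiles on a lattice: certificate for the hexagonal lattice, class 2
-/

namespace Pool.H3JG

/-- The decision tree. -/
def tr6_1 : Tr :=
  (.Y 1 1 (.S 1 1 0 0 (.D 0 1 2 3 13 (.C 3))) (.Y 15 15 (.D 2 15 12 1 1 (.C 1)) (.Y 30 40 (.Y 7 37 (.D 12 7 40 17 27 (.C 17)) (.Y 29 29 (.S 29 29 28 28 (.D 28 29 30 31 41 (.C 31))) (.Y 43 43 (.D 30 43 40 29 29 (.C 29)) (.Y 58 68 (.T 15) (.Y 6 36 (.Y 5 25 (.D 5 30 36 1 1 (.C 1)) (.Y 19 39 (.D 2 19 36 1 1 (.C 1)) (.Y 21 51 (.D 36 2 21 45 55 (.C 45)) (.Y 35 65 (.D 6 40 35 11 61 (.C 11)) (.Y 23 63 (.Y 0 0 (.D 0 2 23 11 61 (.C 11)) (.Y 4 24 (.D 4 30 36 0 0 (.C 0)) (.Y 8 48 (.D 48 2 23 59 69 (.C 59)) (.Y 9 49 (.D 49 2 23 58 68 (.C 58)) (.Y 10 60 (.D 2 23 60 1 1 (.C 1)) (.Y 14 14 (.D 2 14 12 0 0 (.C 0)) (.Y 18 38 (.D 2 18 36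 0 0 (.C 0)) (.Y 22 62 (.D 2 22 63 3 13 (.C 3)) (.Y 28 28 (.D 6 40 28 4 24 (.C 4)) (.Y 32 52 (.D 6 40 32 8 48 (.C 8)) (.Y 33 53 (.D 6 40 33 9 49 (.C 9)) (.Y 34 64 (.D 2 23 64 5 25 (.C 5)) (.R (.cons 1237 (.cons 1236 (.cons 1299 (.cons 1363 .nil (.cons 1363 .nil .nil)) (.cons 1173 .nil .nil)) (.cons 1236 (.cons 1299 (.cons 1363 .nil (.cons 1363 .nil .nil)) (.cons 1299 (.cons 1363 .nil (.cons 1235 (.cons 1301 (.cons 1238 .nil (.cons 1364 .nil .nil)) .nil) .nil)) .nil)) .nil)) .nil)))))))))))))) (.Y 47 67 (.D 12 6 47 23 63 (.C 23)) (.Y 20 50 (.Y 9 49 (.D 2 20 49 1 1 (.C 1)) (.Y 10 60 (.D 60 2 20 68 58 (.C 58)) (.Y 33 53 (.D 2 20 53 5 25 (.C 5)) (.Y 34 64 (.D 6 40 34 10 60 (.C 10)) (.Y 57 57 (.D 2 20 57 9 49 (.C 9)) (.Y 70 70 (.Y 22 62 (.D 2 22 70 10 60 (.C 10)) (.Y 46 66 (.D 6 46 70 10 60 (.C 10)) (.Y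 28 28 (.D 12 6 40 16 26 (.D 6 40 28 4 24 (.D 2 16 24 0 0 (.D 40 28 30 42 42 (.T 21))))) (.Y 0 0 (.D 0 6 40 4 24 (.D 24 0 4 28 28 (.C 28))) (.Y 4 24 (.D 4 30 36 0 0 (.C 0)) (.Y 8 48 (.D 2 20 48 0 0 (.C 0)) (.Y 14 14 (.D 2 14 12 0 0 (.C 0)) (.Y 18 38 (.D 2 18 36 0 0 (.C 0)) (.Y 32 52 (.D 2 20 52 4 24 (.C 4)) (.R (.cons 1237 (.cons 1236 (.cons 1173 (.cons 1172 (.cons 1235 (.cons 1299 (.cons 1363 .nil .nil) .nil) .nil) .nil) (.cons 1173 .nil .nil)) (.cons 1236 (.cons 1299 (.cons 1363 .nil (.cons 1363 .nil .nil)) (.cons 1299 (.cons 1363 (.cons 1364 (.cons 1301 (.cons 1238 .nil .nil) .nil) .nil) .nil) .nil)) .nil)) .nil))))))))))) (.Y 71 71 (.S 71 71 70 70 (.C 70)) (.Y 0 0 (.Y 22 62 (.D 0 2 22 10 60 (.C 10)) (.R (.cons 1363 (.cons 1362 (.cons 1298 (.cons 1235 (.cons 1236 (.cons 1299 .nil .nil) .nil) .nil)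 .nil) .nil) .nil))) (.Y 4 24 (.D 4 30 36 0 0 (.C 0)) (.Y 8 48 (.D 2 20 48 0 0 (.C 0)) (.Y 14 14 (.D 2 14 12 0 0 (.C 0)) (.Y 18 38 (.D 2 18 36 0 0 (.C 0)) (.Y 28 28 (.D 6 40 28 4 24 (.C 4)) (.R (.cons 1363 (.cons 1364 (.cons 1301 (.cons 1237 .nil (.cons 1238 (.cons 1302 .nil (.cons 1237 (.cons 1302 (.cons 1236 (.cons 1173 (.cons 1299 (.cons 1235 .nil (.cons 1235 .nil .nil)) .nil) (.cons 1173 .nil .nil)) .nil) .nil) .nil)) .nil)) .nil) (.cons 1364 .nil .nil)) .nil))))))))))))))) (.Y 44 54 (.D 12 6 44 20 50 (.C 20)) (.Y 56 56 (.Y 8 48 (.D 12 8 56 20 50 (.C 20)) (.Y 9 49 (.D 12 9 56 21 51 (.C 21)) (.Y 32 52 (.D 6 40 32 8 48 (.C 8)) (.Y 33 53 (.D 6 40 33 9 49 (.C 9)) (.Y 14 14 (.Y 34 64 (.D 2 14 12 0 0 (.D 36 0 6 42 42 (.T 14))) (.Y 10 60 (.D 60 6 40 64 34 (.C 34)) (.Y 22 62 (.D 2 14 22 10 60 (.C 10)) (.Y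 46 66 (.D 12 6 46 22 62 (.C 22)) (.Y 70 70 (.D 12 6 40 16 26 (.D 26 14 16 28 28 (.T 23))) (.R (.cons 1363 (.cons 1299 .nil .nil) .nil))))))) (.Y 0 0 (.D 12 0 2 14 14 (.C 14)) (.Y 4 24 (.D 4 30 36 0 0 (.C 0)) (.Y 18 38 (.D 2 18 36 0 0 (.C 0)) (.Y 28 28 (.D 6 40 28 4 24 (.C 4)) (.Y 42 42 (.D 6 42 36 0 0 (.C 0)) (.R (.cons 1299 (.cons 1236 .nil (.cons 1236 (.cons 1235 .nil (.cons 1235 (.cons 1237 (.cons 1301 (.cons 1238 .nil (.cons 1363 (.cons 1364 (.cons 1365 (.cons 1428 .nil .nil) .nil) (.cons 1364 .nil .nil)) .nil)) (.cons 1301 (.cons 1364 .nil .nil) .nil)) .nil) .nil)) .nil)) .nil)))))))))))) (.Y 57 57 (.S 57 57 56 56 (.C 56)) (.Y 0 0 (.Y 8 48 (.D 12 0 8 20 50 (.C 20)) (.R (.cons 1299 (.cons 1235 (.cons 1236 (.cons 1172 .nil (.cons 1172 (.cons 1173 .nil (.cons 1173 .nil .nil)) (.cons 1237 (.cons 1301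 (.cons 1364 (.cons 1363 .nil .nil) .nil) .nil) .nil))) (.cons 1236 .nil (.cons 1298 .nil .nil))) (.cons 1236 .nil (.cons 1363 .nil .nil))) .nil))) (.Y 4 24 (.D 4 30 36 0 0 (.C 0)) (.Y 14 14 (.D 2 14 12 0 0 (.C 0)) (.Y 18 38 (.D 2 18 36 0 0 (.C 0)) (.Y 28 28 (.D 6 40 28 4 24 (.C 4)) (.Y 42 42 (.D 6 42 36 0 0 (.C 0)) (.R (.cons 1236 (.cons 1299 .nil (.cons 1299 .nil (.cons 1237 (.cons 1299 (.cons 1235 .nil (.cons 1363 .nil (.cons 1235 (.cons 1172 (.cons 1171 .nil .nil) (.cons 1172 (.cons 1173 (.cons 1174 (.cons 1110 .nil .nil) .nil) .nil) .nil)) .nil))) (.cons 1301 .nil .nil)) .nil))) .nil)))))))))))))))))) (.Y 16 26 (.D 2 16 30 6 36 (.C 6)) (.Y 9 49 (.Y 4 24 (.D 49 4 30 55 45 (.C 45)) (.Y 8 48 (.D 12 8 49 13 3 (.C 3)) (.Y 18 38 (.D 2 18 40 4 24 (.C 4)) (.Y 20 50 (.D 2 20 49 1 1 (.C 1)) (.Y 22 62 (.D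 49 2 22 59 69 (.C 59)) (.Y 23 63 (.D 49 2 23 58 68 (.C 58)) (.Y 32 52 (.D 9 52 30 7 37 (.C 7)) (.Y 33 53 (.D 9 53 30 6 36 (.C 6)) (.Y 57 57 (.D 9 57 49 1 1 (.C 1)) (.Y 19 39 (.Y 0 0 (.D 0 2 19 7 37 (.C 7)) (.Y 14 14 (.D 2 14 12 0 0 (.C 0)) (.Y 21 51 (.D 2 21 49 0 0 (.C 0)) (.Y 28 28 (.D 19 40 28 17 27 (.C 17)) (.Y 34 64 (.D 19 40 34 23 63 (.C 23)) (.R (.cons 1301 (.cons 1237 (.cons 1238 .nil .nil) (.cons 1237 (.cons 1236 (.cons 1173 .nil .nil) .nil) .nil)) .nil))))))) (.Y 5 25 (.D 12 5 30 19 39 (.C 19)) (.Y 44 54 (.D 9 54 40 5 25 (.C 5)) (.Y 14 14 (.Y 10 60 (.D 60 2 14 62 22 (.C 22)) (.Y 42 42 (.Y 35 65 (.T 5) (.Y 47 67 (.D 30 42 47 35 65 (.C 35)) (.Y 34 64 (.D 2 14 12 0 0 (.D 49 0 9 56 56 (.T 14))) (.R (.cons 1237 (.cons 1236 (.cons 1299 (.cons 1363 .nil .nil) .nil) (.cons 1301 .nil .nil)) .nil)))))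 (.Y 28 28 (.D 40 28 30 42 42 (.C 42)) (.R (.cons 1236 (.cons 1237 .nil (.cons 1299 .nil (.cons 1237 .nil .nil))) .nil))))) (.Y 0 0 (.D 12 0 2 14 14 (.C 14)) (.R (.cons 1301 (.cons 1364 (.cons 1237 (.cons 1238 (.cons 1174 (.cons 1173 (.cons 1236 .nil .nil) .nil) .nil) (.cons 1238 .nil .nil)) .nil) (.cons 1237 (.cons 1364 (.cons 1238 (.cons 1302 .nil .nil) .nil) .nil) .nil)) .nil)))))))))))))))) (.Y 5 25 (.Y 0 0 (.D 0 5 30 7 37 (.C 7)) (.Y 4 24 (.D 12 4 25 13 3 (.C 3)) (.Y 8 48 (.D 48 5 30 55 45 (.C 45)) (.Y 14 14 (.D 2 14 12 0 0 (.C 0)) (.Y 18 38 (.D 5 30 38 3 13 (.C 3)) (.Y 28 28 (.D 5 28 25 0 0 (.C 0)) (.Y 42 42 (.D 5 30 42 7 37 (.C 7)) (.Y 44 54 (.D 5 30 44 9 49 (.C 9)) (.Y 46 66 (.D 5 30 46 11 61 (.C 11)) (.Y 20 50 (.Y 10 60 (.D 60 2 20 68 58 (.C 58)) (.Y 21 51 (.D 2 20 51 3 13 (.C 3)) (.Y 32 52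 (.D 5 32 50 3 13 (.C 3)) (.Y 47 67 (.D 5 30 47 10 60 (.C 10)) (.R (.cons 1236 (.cons 1237 (.cons 1301 (.cons 1238 .nil .nil) (.cons 1299 (.cons 1301 (.cons 1364 .nil (.cons 1363 (.cons 1364 .nil (.cons 1364 .nil .nil)) .nil)) (.cons 1235 .nil .nil)) .nil)) (.cons 1237 (.cons 1301 (.cons 1238 .nil .nil) (.cons 1173 (.cons 1172 .nil .nil) .nil)) .nil)) .nil)))))) (.Y 33 53 (.D 12 5 33 20 50 (.C 20)) (.Y 10 60 (.Y 21 51 (.D 60 2 21 69 59 (.C 59)) (.Y 22 62 (.D 2 22 60 0 0 (.C 0)) (.Y 23 63 (.D 2 23 60 1 1 (.C 1)) (.Y 32 52 (.D 12 5 32 21 51 (.C 21)) (.R (.cons 1299 (.cons 1236 (.cons 1237 (.cons 1301 (.cons 1238 .nil .nil) (.cons 1301 (.cons 1173 (.cons 1363 (.cons 1364 .nil (.cons 1364 .nil .nil)) .nil) .nil) .nil)) (.cons 1237 (.cons 1301 (.cons 1238 .nil .nil) (.cons 1301 (.cons 1173 (.cons 1172 .nil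 .nil) .nil) .nil)) .nil)) (.cons 1236 (.cons 1235 .nil .nil) .nil)) .nil)))))) (.Y 47 67 (.D 5 30 47 10 60 (.C 10)) (.Y 21 51 (.Y 56 56 (.D 2 21 56 9 49 (.C 9)) (.Y 57 57 (.D 2 21 57 8 48 (.C 8)) (.R (.cons 1236 (.cons 1299 .nil (.cons 1299 .nil .nil)) .nil)))) (.R (.cons 1236 (.cons 1237 (.cons 1301 (.cons 1238 .nil .nil) (.cons 1299 (.cons 1301 (.cons 1364 .nil (.cons 1363 (.cons 1364 .nil (.cons 1364 .nil .nil)) .nil)) (.cons 1235 .nil .nil)) .nil)) (.cons 1237 (.cons 1301 (.cons 1238 .nil .nil) (.cons 1173 (.cons 1172 .nil .nil) .nil)) .nil)) .nil)))))))))))))))) (.Y 19 39 (.D 2 19 40 5 25 (.C 5)) (.Y 0 0 (.Y 4 24 (.D 0 4 30 6 36 (.C 6)) (.Y 18 38 (.D 2 18 40 4 24 (.C 4)) (.Y 21 51 (.D 0 2 21 9 49 (.C 9)) (.Y 23 63 (.D 0 2 23 11 61 (.C 11)) (.Y 42 42 (.Y 33 53 (.D 53 30 42 55 45 (.C 45)) (.Y 56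 56 (.Y 34 64 (.D 12 0 2 14 14 (.T 14)) (.Y 46 66 (.D 30 42 46 34 64 (.C 34)) (.Y 70 70 (.Y 20 50 (.D 30 42 40 28 28 (.T 21)) (.Y 8 48 (.D 12 0 8 20 50 (.C 20)) (.Y 22 62 (.Y 35 65 (.D 2 22 65 5 25 (.C 5)) (.Y 47 67 (.D 2 22 67 7 37 (.C 7)) (.Y 71 71 (.D 2 22 71 11 61 (.C 11)) (.Y 32 52 (.T 67) (.R (.cons 1237 (.cons 1236 (.cons 1299 (.cons 1301 (.cons 1363 (.cons 1364 (.cons 1365 .nil .nil) .nil) .nil) .nil) .nil) (.cons 1236 (.cons 1299 (.cons 1301 (.cons 1363 (.cons 1364 (.cons 1365 .nil .nil) .nil) .nil) .nil) .nil) .nil)) .nil)))))) (.R (.cons 1301 (.cons 1237 (.cons 1364 (.cons 1363 (.cons 1299 (.cons 1236 (.cons 1173 .nil .nil) .nil) .nil) .nil) .nil) (.cons 1237 (.cons 1364 (.cons 1363 (.cons 1299 (.cons 1236 (.cons 1173 .nil .nil) .nil) .nil) .nil) .nil) .nil)) .nil))))) (.Y 10 60 (.D 60 0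 10 70 70 (.C 70)) (.R (.cons 1364 (.cons 1301 (.cons 1237 (.cons 1363 (.cons 1427 .nil .nil) .nil) .nil) (.cons 1301 (.cons 1237 .nil .nil) (.cons 1363 .nil .nil))) .nil)))))) (.Y 8 48 (.D 48 0 8 56 56 (.C 56)) (.Y 20 50 (.D 0 2 20 8 48 (.C 8)) (.Y 32 52 (.D 30 42 40 28 28 (.D 52 28 32 56 56 (.C 56))) (.R (.cons 1299 (.cons 1236 .nil (.cons 1236 (.cons 1237 (.cons 1301 (.cons 1238 (.cons 1363 (.cons 1364 (.cons 1365 .nil .nil) (.cons 1362 .nil .nil)) .nil) (.cons 1238 .nil .nil)) (.cons 1301 .nil .nil)) .nil) .nil)) .nil))))))) (.Y 28 28 (.D 40 28 30 42 42 (.C 42)) (.Y 8 48 (.Y 10 60 (.D 48 0 10 58 68 (.C 58)) (.Y 22 62 (.D 0 2 22 10 60 (.C 10)) (.Y 32 52 (.D 0 8 52 4 24 (.C 4)) (.Y 33 53 (.D 0 8 53 5 25 (.C 5)) (.Y 44 54 (.D 8 54 40 4 24 (.C 4)) (.R (.cons 1236 (.cons 1299 .nil (.cons 1237 (.cons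 1299 (.cons 1301 (.cons 1173 (.cons 1363 (.cons 1364 .nil (.cons 1364 (.cons 1362 (.cons 1298 .nil .nil) .nil) .nil)) .nil) .nil) .nil) .nil) (.cons 1237 (.cons 1299 (.cons 1235 .nil .nil) .nil) .nil))) .nil))))))) (.Y 20 50 (.D 0 2 20 8 48 (.C 8)) (.Y 10 60 (.Y 34 64 (.D 0 10 64 4 24 (.C 4)) (.Y 35 65 (.D 0 10 65 5 25 (.C 5)) (.Y 46 66 (.D 10 66 40 4 24 (.C 4)) (.Y 47 67 (.D 10 67 40 5 25 (.C 5)) (.R (.cons 1236 (.cons 1237 (.cons 1299 (.cons 1301 (.cons 1363 (.cons 1364 (.cons 1173 (.cons 1238 (.cons 1362 (.cons 1365 (.cons 1302 .nil .nil) .nil) .nil) .nil) .nil) .nil) .nil) .nil) .nil) (.cons 1237 (.cons 1301 .nil .nil) .nil)) .nil)))))) (.Y 22 62 (.D 0 2 22 10 60 (.C 10)) (.Y 32 52 (.Y 33 53 (.D 40 32 53 41 31 (.C 31)) (.Y 44 54 (.D 30 44 52 28 28 (.C 28)) (.R (.cons 1301 (.cons 1237 (.cons 1236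 .nil .nil) (.cons 1237 (.cons 1236 (.cons 1299 .nil .nil) .nil) .nil)) .nil)))) (.Y 33 53 (.Y 44 54 (.D 30 44 53 29 29 (.C 29)) (.R (.cons 1301 (.cons 1237 (.cons 1236 (.cons 1299 .nil .nil) .nil) (.cons 1237 (.cons 1236 (.cons 1173 .nil .nil) .nil) .nil)) .nil))) (.Y 34 64 (.Y 35 65 (.D 40 34 65 41 31 (.C 31)) (.Y 44 54 (.D 64 30 44 68 58 (.C 58)) (.R (.cons 1237 (.cons 1301 .nil (.cons 1236 (.cons 1299 .nil .nil) .nil)) .nil)))) (.R (.cons 1237 (.cons 1236 .nil (.cons 1301 .nil .nil)) .nil))))))))))))))) (.Y 14 14 (.D 2 14 12 0 0 (.C 0)) (.Y 4 24 (.Y 28 28 (.D 4 28 24 0 0 (.C 0)) (.Y 42 42 (.D 4 30 42 6 36 (.C 6)) (.Y 47 67 (.D 4 30 47 11 61 (.C 11)) (.Y 8 48 (.Y 20 50 (.D 2 20 48 0 0 (.C 0)) (.Y 21 51 (.D 2 21 48 1 1 (.C 1)) (.Y 22 62 (.D 48 2 22 58 68 (.C 58)) (.Y 23 63 (.D 48 2 23 59 69 (.C 59))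 (.Y 32 52 (.D 4 32 48 0 0 (.C 0)) (.R (.cons 1301 (.cons 1237 (.cons 1238 (.cons 1236 (.cons 1299 .nil (.cons 1299 (.cons 1364 (.cons 1363 .nil (.cons 1363 .nil .nil)) .nil) .nil)) .nil) .nil) (.cons 1237 (.cons 1236 .nil (.cons 1238 .nil .nil)) .nil)) .nil))))))) (.Y 44 54 (.D 4 30 44 8 48 (.C 8)) (.Y 10 60 (.Y 20 50 (.D 60 2 20 68 58 (.C 58)) (.Y 21 51 (.D 60 2 21 69 59 (.C 59)) (.Y 22 62 (.D 2 22 60 0 0 (.C 0)) (.Y 23 63 (.D 2 23 60 1 1 (.C 1)) (.Y 32 52 (.D 12 4 32 20 50 (.C 20)) (.R (.cons 1301 (.cons 1237 (.cons 1236 .nil .nil) (.cons 1364 (.cons 1365 (.cons 1237 (.cons 1236 .nil (.cons 1236 .nil .nil)) .nil) .nil) .nil)) .nil))))))) (.Y 46 66 (.D 4 30 46 10 60 (.C 10)) (.Y 20 50 (.Y 21 51 (.D 2 20 51 3 13 (.C 3)) (.Y 33 53 (.D 4 33 50 3 13 (.C 3)) (.Y 56 56 (.D 2 20 56 8 48 (.C 8)) (.R (.cons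 1236 (.cons 1299 (.cons 1363 (.cons 1364 (.cons 1301 (.cons 1235 (.cons 1362 (.cons 1298 .nil .nil) .nil) .nil) .nil) .nil) .nil) (.cons 1237 (.cons 1299 (.cons 1301 (.cons 1364 (.cons 1363 (.cons 1173 (.cons 1235 (.cons 1362 (.cons 1298 .nil .nil) .nil) .nil) .nil) .nil) .nil) .nil) .nil) .nil)) .nil))))) (.R (.cons 1236 (.cons 1299 .nil (.cons 1237 (.cons 1299 (.cons 1235 .nil (.cons 1363 (.cons 1364 (.cons 1301 .nil .nil) .nil) .nil)) .nil) .nil)) .nil)))))))))) (.Y 18 38 (.D 2 18 40 4 24 (.C 4)) (.Y 8 48 (.Y 20 50 (.D 2 20 48 0 0 (.C 0)) (.Y 21 51 (.D 2 21 48 1 1 (.C 1)) (.Y 22 62 (.D 48 2 22 58 68 (.C 58)) (.Y 23 63 (.D 48 2 23 59 69 (.C 59)) (.Y 32 52 (.D 8 52 30 6 36 (.C 6)) (.R (.cons 1301 (.cons 1364 (.cons 1237 (.cons 1174 (.cons 1173 (.cons 1236 (.cons 1299 .nil .nil) .nil) .nil) (.cons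 1236 (.cons 1299 (.cons 1363 .nil .nil) .nil) (.cons 1238 .nil .nil))) .nil) .nil) .nil))))))) (.Y 10 60 (.Y 20 50 (.D 60 2 20 68 58 (.C 58)) (.Y 21 51 (.D 60 2 21 69 59 (.C 59)) (.Y 22 62 (.D 2 22 60 0 0 (.C 0)) (.Y 23 63 (.D 2 23 60 1 1 (.C 1)) (.Y 34 64 (.D 10 64 30 6 36 (.C 6)) (.Y 35 65 (.D 10 65 30 7 37 (.C 7)) (.Y 46 66 (.D 10 66 40 4 24 (.C 4)) (.R (.cons 1301 (.cons 1364 (.cons 1237 (.cons 1238 (.cons 1174 .nil .nil) (.cons 1238 (.cons 1174 (.cons 1236 (.cons 1299 .nil (.cons 1173 (.cons 1172 .nil .nil) .nil)) .nil) .nil) .nil)) .nil) .nil) .nil))))))))) (.Y 20 50 (.Y 21 51 (.D 2 20 51 3 13 (.C 3)) (.Y 32 52 (.D 2 20 52 4 24 (.C 4)) (.R (.cons 1364 (.cons 1301 (.cons 1237 (.cons 1173 (.cons 1236 (.cons 1235 (.cons 1299 .nil .nil) .nil) .nil) (.cons 1173 (.cons 1236 (.cons 1299 (.cons 1363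 .nil .nil) .nil) .nil) .nil)) .nil) .nil) .nil)))) (.Y 21 51 (.Y 32 52 (.D 2 21 52 5 25 (.C 5)) (.R (.cons 1364 (.cons 1301 (.cons 1237 (.cons 1173 (.cons 1236 (.cons 1299 (.cons 1235 .nil .nil) .nil) .nil) (.cons 1173 (.cons 1236 (.cons 1299 (.cons 1363 .nil (.cons 1235 .nil .nil)) .nil) .nil) .nil)) .nil) .nil) .nil))) (.Y 22 62 (.Y 23 63 (.D 2 22 63 3 13 (.C 3)) (.Y 34 64 (.D 2 22 64 4 24 (.C 4)) (.Y 35 65 (.D 2 22 65 5 25 (.C 5)) (.Y 46 66 (.D 2 22 66 6 36 (.C 6)) (.R (.cons 1364 (.cons 1301 (.cons 1237 (.cons 1173 (.cons 1236 (.cons 1299 (.cons 1363 .nil .nil) .nil) .nil) (.cons 1238 (.cons 1174 (.cons 1236 (.cons 1299 (.cons 1363 .nil .nil) (.cons 1173 (.cons 1172 .nil .nil) .nil)) .nil) .nil) .nil)) .nil) .nil) .nil)))))) (.Y 23 63 (.Y 34 64 (.D 2 23 64 5 25 (.C 5)) (.Y 35 65 (.D 2 23 65 4 24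 (.C 4)) (.Y 46 66 (.D 2 23 66 7 37 (.C 7)) (.R (.cons 1364 (.cons 1301 (.cons 1237 (.cons 1173 (.cons 1236 (.cons 1299 .nil .nil) .nil) (.cons 1238 (.cons 1174 (.cons 1236 (.cons 1299 .nil (.cons 1173 (.cons 1172 .nil .nil) .nil)) .nil) .nil) .nil)) .nil) .nil) .nil))))) (.Y 28 28 (.Y 33 53 (.D 40 28 33 45 55 (.C 45)) (.Y 32 52 (.Y 34 64 (.D 52 28 34 58 68 (.C 58)) (.Y 35 65 (.D 52 28 35 59 69 (.C 59)) (.Y 46 66 (.D 28 30 46 34 64 (.C 34)) (.R (.cons 1301 (.cons 1237 (.cons 1364 (.cons 1363 (.cons 1299 (.cons 1236 (.cons 1173 .nil .nil) .nil) .nil) .nil) .nil) .nil) .nil))))) (.R (.cons 1301 (.cons 1237 (.cons 1236 (.cons 1299 (.cons 1363 (.cons 1364 .nil .nil) .nil) .nil) .nil) .nil) .nil)))) (.R (.cons 1301 (.cons 1364 (.cons 1237 (.cons 1173 (.cons 1236 (.cons 1299 .nil .nil) .nil) (.cons 1238 (.cons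 1174 (.cons 1363 (.cons 1362 (.cons 1299 .nil .nil) (.cons 1299 (.cons 1362 (.cons 1236 (.cons 1235 .nil (.cons 1173 .nil .nil)) .nil) .nil) .nil)) .nil) .nil) .nil)) .nil) .nil) .nil)))))))))))))))))))))) (.Y 6 36 (.Y 7 37 (.D 12 6 37 13 3 (.C 3)) (.Y 16 26 (.D 36 2 16 40 30 (.C 30)) (.Y 19 39 (.D 2 19 36 1 1 (.C 1)) (.Y 21 51 (.D 36 2 21 45 55 (.C 45)) (.Y 43 43 (.D 6 43 36 1 1 (.C 1)) (.Y 23 63 (.Y 0 0 (.D 0 2 23 11 61 (.C 11)) (.Y 8 48 (.D 48 2 23 59 69 (.C 59)) (.Y 10 60 (.D 2 23 60 1 1 (.C 1)) (.Y 14 14 (.D 2 14 12 0 0 (.C 0)) (.Y 18 38 (.D 2 18 36 0 0 (.C 0)) (.Y 22 62 (.D 2 22 63 3 13 (.C 3)) (.Y 42 42 (.D 6 42 36 0 0 (.C 0)) (.Y 46 66 (.D 6 46 63 3 13 (.C 3)) (.Y 70 70 (.D 2 23 70 11 61 (.C 11)) (.Y 71 71 (.D 2 23 71 10 60 (.C 10)) (.Y 33 53 (.T 1) (.Y 20 50 (.Y 5 25 (.D 25 2 20 33 53 (.C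 33)) (.Y 9 49 (.D 2 20 49 1 1 (.C 1)) (.Y 34 64 (.D 2 23 64 5 25 (.C 5)) (.R (.cons 1236 (.cons 1237 (.cons 1299 (.cons 1363 .nil .nil) .nil) (.cons 1237 (.cons 1173 (.cons 1172 .nil .nil) .nil) (.cons 1237 .nil .nil))) .nil))))) (.Y 44 54 (.D 12 6 44 20 50 (.C 20)) (.R (.cons 1236 (.cons 1237 (.cons 1301 .nil .nil) (.cons 1237 .nil .nil)) .nil))))))))))))))) (.Y 47 67 (.D 12 6 47 23 63 (.C 23)) (.Y 20 50 (.Y 9 49 (.D 2 20 49 1 1 (.C 1)) (.Y 57 57 (.D 2 20 57 9 49 (.C 9)) (.Y 34 64 (.T 3) (.Y 28 28 (.Y 4 24 (.D 12 4 28 16 26 (.C 16)) (.Y 5 25 (.D 12 5 28 17 27 (.C 17)) (.Y 32 52 (.D 2 20 52 4 24 (.C 4)) (.Y 33 53 (.D 2 20 53 5 25 (.C 5)) (.Y 70 70 (.Y 0 0 (.D 36 0 6 42 42 (.T 21)) (.Y 8 48 (.D 2 20 48 0 0 (.C 0)) (.Y 10 60 (.D 10 70 60 0 0 (.C 0)) (.Y 14 14 (.D 2 14 12 0 0 (.C 0)) (.R (.cons 1364 (.cons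 1301 (.cons 1237 (.cons 1363 (.cons 1365 (.cons 1299 (.cons 1362 (.cons 1426 .nil .nil) (.cons 1236 (.cons 1173 .nil .nil) .nil)) .nil) .nil) .nil) .nil) (.cons 1301 .nil .nil)) .nil)))))) (.Y 35 65 (.D 65 28 35 70 70 (.C 70)) (.Y 71 71 (.S 71 71 70 70 (.C 70)) (.Y 0 0 (.Y 10 60 (.D 60 0 10 70 70 (.C 70)) (.Y 22 62 (.D 0 2 22 10 60 (.C 10)) (.Y 46 66 (.D 0 6 46 10 60 (.C 10)) (.R (.cons 1363 (.cons 1299 (.cons 1236 (.cons 1237 .nil (.cons 1237 .nil .nil)) .nil) .nil) .nil))))) (.Y 8 48 (.D 2 20 48 0 0 (.C 0)) (.Y 14 14 (.D 2 14 12 0 0 (.C 0)) (.Y 18 38 (.D 2 18 36 0 0 (.C 0)) (.Y 42 42 (.D 6 42 36 0 0 (.C 0)) (.R (.cons 1237 (.cons 1236 (.cons 1173 .nil (.cons 1299 (.cons 1363 (.cons 1364 .nil .nil) (.cons 1301 (.cons 1364 .nil (.cons 1363 (.cons 1364 (.cons 1362 (.cons 1426 .nil .nil) .nil) (.cons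 1364 (.cons 1365 .nil .nil) .nil)) .nil)) .nil)) .nil)) (.cons 1236 .nil .nil)) .nil)))))))))))))) (.Y 29 29 (.S 29 29 28 28 (.C 28)) (.Y 0 0 (.Y 4 24 (.D 12 0 4 16 26 (.C 16)) (.Y 5 25 (.D 12 0 5 17 27 (.C 17)) (.R (.cons 1237 (.cons 1236 .nil (.cons 1301 .nil (.cons 1173 (.cons 1236 .nil (.cons 1174 .nil (.cons 1236 (.cons 1299 (.cons 1172 (.cons 1235 .nil .nil) .nil) (.cons 1172 (.cons 1235 (.cons 1299 .nil .nil) .nil) (.cons 1172 (.cons 1235 .nil .nil) .nil))) .nil))) .nil))) .nil)))) (.Y 8 48 (.D 2 20 48 0 0 (.C 0)) (.Y 14 14 (.D 2 14 12 0 0 (.C 0)) (.Y 18 38 (.D 2 18 36 0 0 (.C 0)) (.Y 42 42 (.D 6 42 36 0 0 (.C 0)) (.Y 56 56 (.D 2 20 56 8 48 (.C 8)) (.Y 4 24 (.Y 5 25 (.D 12 4 25 13 3 (.C 3)) (.Y 22 62 (.D 24 2 22 34 64 (.C 34)) (.Y 33 53 (.D 4 33 50 3 13 (.C 3)) (.R (.cons 1301 (.cons 1237 (.cons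 1236 (.cons 1299 (.cons 1363 (.cons 1364 (.cons 1427 .nil .nil) (.cons 1362 .nil .nil)) (.cons 1235 .nil .nil)) (.cons 1173 .nil .nil)) .nil) (.cons 1237 (.cons 1236 (.cons 1299 (.cons 1363 (.cons 1364 (.cons 1427 .nil .nil) (.cons 1362 .nil .nil)) (.cons 1235 .nil .nil)) (.cons 1173 .nil .nil)) .nil) .nil)) .nil))))) (.R (.cons 1236 (.cons 1237 (.cons 1301 .nil (.cons 1173 (.cons 1172 .nil .nil) .nil)) (.cons 1237 (.cons 1173 .nil .nil) (.cons 1237 .nil .nil))) .nil)))))))))))))) (.Y 44 54 (.D 12 6 44 20 50 (.C 20)) (.Y 14 14 (.Y 4 24 (.D 24 2 14 26 16 (.C 16)) (.Y 5 25 (.D 25 2 14 27 17 (.C 17)) (.Y 8 48 (.D 48 2 14 50 20 (.C 20)) (.Y 9 49 (.D 49 2 14 51 21 (.C 21)) (.Y 56 56 (.Y 34 64 (.D 2 14 12 0 0 (.D 36 0 6 42 42 (.T 14))) (.Y 28 28 (.Y 70 70 (.T 23) (.Y 10 60 (.D 2 14 12 0 0 (.D 60 0 10 70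 70 (.C 70))) (.Y 22 62 (.D 2 14 22 10 60 (.C 10)) (.R (.cons 1301 (.cons 1237 (.cons 1364 (.cons 1363 (.cons 1299 (.cons 1236 .nil .nil) .nil) .nil) .nil) (.cons 1237 (.cons 1364 (.cons 1363 (.cons 1427 .nil .nil) .nil) .nil) (.cons 1237 (.cons 1236 .nil .nil) .nil))) .nil))))) (.R (.cons 1236 (.cons 1237 (.cons 1301 .nil .nil) (.cons 1237 .nil (.cons 1237 (.cons 1299 (.cons 1173 (.cons 1172 (.cons 1235 .nil .nil) .nil) .nil) .nil) (.cons 1237 (.cons 1173 (.cons 1172 .nil .nil) .nil) .nil)))) .nil)))) (.Y 57 57 (.S 57 57 56 56 (.C 56)) (.Y 10 60 (.Y 34 64 (.D 12 10 64 16 26 (.C 16)) (.Y 35 65 (.D 12 10 65 17 27 (.C 17)) (.Y 58 68 (.D 12 10 68 20 50 (.C 20)) (.R (.cons 1299 (.cons 1236 (.cons 1237 .nil (.cons 1235 .nil .nil)) (.cons 1236 .nil .nil)) .nil))))) (.Y 22 62 (.D 2 14 22 10 60 (.C 10)) (.R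 (.cons 1299 (.cons 1236 (.cons 1235 (.cons 1172 .nil .nil) (.cons 1235 .nil .nil)) (.cons 1236 .nil (.cons 1236 (.cons 1363 (.cons 1364 (.cons 1362 (.cons 1237 (.cons 1301 .nil (.cons 1301 (.cons 1365 (.cons 1173 (.cons 1172 (.cons 1109 .nil .nil) (.cons 1172 .nil .nil)) .nil) .nil) .nil)) .nil) .nil) .nil) .nil) .nil))) .nil)))))))))) (.Y 0 0 (.D 12 0 2 14 14 (.C 14)) (.Y 18 38 (.D 2 18 36 0 0 (.C 0)) (.Y 42 42 (.D 6 42 36 0 0 (.C 0)) (.Y 4 24 (.Y 5 25 (.D 12 4 25 13 3 (.C 3)) (.Y 28 28 (.D 4 28 24 0 0 (.C 0)) (.Y 29 29 (.D 4 29 24 1 1 (.C 1)) (.Y 32 52 (.D 12 4 32 20 50 (.C 20)) (.Y 33 53 (.D 12 4 33 21 51 (.C 21)) (.Y 35 65 (.D 12 4 35 23 63 (.C 23)) (.Y 8 48 (.Y 9 49 (.D 12 8 49 13 3 (.C 3)) (.Y 56 56 (.D 8 56 48 0 0 (.C 0)) (.R (.cons 1236 (.cons 1299 (.cons 1235 (.cons 1172 (.cons 1173 (.cons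 1237 .nil .nil) .nil) .nil) .nil) (.cons 1237 (.cons 1301 (.cons 1364 (.cons 1173 (.cons 1238 (.cons 1174 .nil .nil) .nil) .nil) .nil) .nil) .nil)) .nil)))) (.R (.cons 1236 (.cons 1237 (.cons 1173 .nil .nil) (.cons 1237 (.cons 1173 .nil .nil) .nil)) .nil))))))))) (.R (.cons 1236 (.cons 1299 (.cons 1301 (.cons 1237 (.cons 1173 .nil (.cons 1173 (.cons 1174 .nil .nil) .nil)) (.cons 1364 (.cons 1363 (.cons 1362 .nil .nil) .nil) .nil)) (.cons 1235 (.cons 1172 .nil .nil) .nil)) (.cons 1237 .nil .nil)) .nil)))))))))))))))) (.Y 9 49 (.Y 8 48 (.D 12 8 49 13 3 (.C 3)) (.Y 18 38 (.D 49 2 18 55 45 (.C 45)) (.Y 20 50 (.D 2 20 49 1 1 (.C 1)) (.Y 22 62 (.D 49 2 22 59 69 (.C 59)) (.Y 32 52 (.D 12 9 52 17 27 (.C 17)) (.Y 57 57 (.D 9 57 49 1 1 (.C 1)) (.Y 19 39 (.Y 4 24 (.D 24 2 19 31 41 (.C 31)) (.Y 5 25 (.D 25 2 19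 30 40 (.C 30)) (.Y 43 43 (.D 2 19 43 6 36 (.C 6)) (.Y 46 66 (.D 2 19 46 11 61 (.C 11)) (.Y 34 64 (.T 2) (.Y 10 60 (.Y 0 0 (.D 12 0 10 22 62 (.C 22)) (.Y 7 37 (.D 2 19 37 0 0 (.C 0)) (.Y 14 14 (.D 2 14 12 0 0 (.C 0)) (.Y 16 26 (.D 60 2 16 64 34 (.C 34)) (.Y 21 51 (.D 2 21 49 0 0 (.C 0)) (.Y 23 63 (.D 2 23 60 1 1 (.C 1)) (.R (.cons 1301 (.cons 1237 (.cons 1364 (.cons 1363 (.cons 1365 (.cons 1299 (.cons 1362 .nil (.cons 1236 .nil .nil)) .nil) .nil) .nil) .nil) (.cons 1364 (.cons 1237 (.cons 1236 (.cons 1173 .nil .nil) (.cons 1363 (.cons 1427 .nil (.cons 1299 (.cons 1427 (.cons 1236 (.cons 1173 .nil (.cons 1173 .nil .nil)) .nil) .nil) .nil)) .nil)) .nil) .nil)) .nil)))))))) (.Y 47 67 (.D 2 19 47 10 60 (.C 10)) (.Y 14 14 (.Y 16 26 (.D 2 14 16 4 24 (.C 4)) (.Y 23 63 (.D 2 14 23 11 61 (.C 11)) (.Y 33 53 (.D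 12 9 53 16 26 (.C 16)) (.Y 58 68 (.D 12 9 58 23 63 (.C 23)) (.Y 35 65 (.D 39 14 19 42 42 (.T 5)) (.R (.cons 1237 (.cons 1236 .nil (.cons 1236 .nil .nil)) .nil))))))) (.Y 0 0 (.D 12 0 2 14 14 (.C 14)) (.Y 7 37 (.D 2 19 37 0 0 (.C 0)) (.R (.cons 1364 (.cons 1363 (.cons 1427 .nil .nil) (.cons 1363 (.cons 1427 (.cons 1301 (.cons 1237 (.cons 1236 .nil .nil) (.cons 1365 .nil .nil)) .nil) .nil) .nil)) .nil)))))))))))) (.Y 44 54 (.D 12 9 54 19 39 (.C 19)) (.Y 14 14 (.Y 5 25 (.D 25 2 14 27 17 (.C 17)) (.Y 7 37 (.D 37 2 14 39 19 (.C 19)) (.Y 10 60 (.D 60 2 14 62 22 (.C 22)) (.Y 23 63 (.D 2 14 23 11 61 (.C 11)) (.Y 58 68 (.D 12 9 58 23 63 (.C 23)) (.Y 42 42 (.Y 35 65 (.T 5) (.Y 34 64 (.D 2 14 12 0 0 (.D 49 0 9 56 56 (.T 14))) (.Y 28 28 (.Y 47 67 (.D 2 14 12 0 0 (.D 49 2 14 51 21 (.T 10))) (.R (.cons 1236 (.cons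 1237 .nil (.cons 1237 .nil (.cons 1237 (.cons 1173 (.cons 1299 (.cons 1363 .nil (.cons 1235 .nil .nil)) .nil) (.cons 1301 (.cons 1299 (.cons 1363 .nil (.cons 1235 .nil .nil)) .nil) .nil)) .nil))) .nil))) (.R (.cons 1236 (.cons 1237 (.cons 1173 .nil .nil) (.cons 1237 .nil (.cons 1237 .nil (.cons 1237 (.cons 1299 (.cons 1363 .nil (.cons 1235 .nil .nil)) .nil) .nil)))) .nil))))) (.Y 43 43 (.S 43 43 42 42 (.C 42)) (.Y 28 28 (.Y 47 67 (.D 2 14 12 0 0 (.D 49 2 14 51 21 (.T 10))) (.R (.cons 1236 (.cons 1235 (.cons 1299 (.cons 1363 .nil .nil) .nil) .nil) .nil))) (.R (.cons 1236 (.cons 1237 (.cons 1173 .nil .nil) (.cons 1237 (.cons 1299 (.cons 1363 .nil (.cons 1235 .nil .nil)) .nil) .nil)) .nil)))))))))) (.Y 0 0 (.D 12 0 2 14 14 (.C 14)) (.Y 21 51 (.D 2 21 49 0 0 (.C 0)) (.Y 56 56 (.D 9 56 49 0 0 (.C 0)) (.Y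 4 24 (.Y 5 25 (.D 12 4 25 13 3 (.C 3)) (.Y 16 26 (.D 2 16 24 0 0 (.C 0)) (.Y 28 28 (.D 4 28 24 0 0 (.C 0)) (.Y 29 29 (.D 4 29 24 1 1 (.C 1)) (.R (.cons 1301 (.cons 1237 (.cons 1238 (.cons 1174 (.cons 1175 (.cons 1239 (.cons 1302 (.cons 1303 .nil .nil) .nil) .nil) .nil) .nil) (.cons 1238 .nil .nil)) (.cons 1237 .nil .nil)) .nil)))))) (.Y 5 25 (.Y 16 26 (.D 2 16 25 1 1 (.C 1)) (.Y 28 28 (.D 5 28 25 0 0 (.C 0)) (.Y 29 29 (.D 5 29 25 1 1 (.C 1)) (.R (.cons 1301 (.cons 1364 (.cons 1237 (.cons 1236 .nil (.cons 1238 (.cons 1174 (.cons 1302 (.cons 1175 (.cons 1239 (.cons 1111 (.cons 1303 (.cons 1366 .nil .nil) .nil) .nil) .nil) .nil) .nil) .nil) (.cons 1238 .nil .nil))) (.cons 1365 (.cons 1302 .nil .nil) .nil)) (.cons 1237 (.cons 1236 .nil .nil) .nil)) .nil))))) (.Y 7 37 (.Y 16 26 (.D 37 2 16 41 31 (.C 31))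 (.Y 33 53 (.D 12 9 53 16 26 (.C 16)) (.R (.cons 1299 (.cons 1236 (.cons 1237 .nil .nil) (.cons 1301 (.cons 1363 (.cons 1364 (.cons 1427 .nil .nil) (.cons 1364 (.cons 1235 (.cons 1236 (.cons 1237 .nil .nil) (.cons 1236 (.cons 1237 .nil .nil) .nil)) .nil) .nil)) (.cons 1237 (.cons 1236 .nil (.cons 1236 .nil .nil)) .nil)) .nil)) .nil)))) (.Y 10 60 (.Y 23 63 (.D 2 23 60 1 1 (.C 1)) (.Y 35 65 (.D 12 10 65 17 27 (.C 17)) (.Y 46 66 (.D 12 10 66 18 38 (.C 18)) (.Y 47 67 (.D 12 10 67 19 39 (.C 19)) (.R (.cons 1236 (.cons 1237 (.cons 1301 .nil (.cons 1173 .nil .nil)) (.cons 1237 .nil .nil)) .nil)))))) (.Y 16 26 (.Y 28 28 (.D 2 16 28 4 24 (.C 4)) (.Y 29 29 (.D 2 16 29 5 25 (.C 5)) (.Y 34 64 (.D 2 16 34 10 60 (.C 10)) (.R (.cons 1364 (.cons 1363 (.cons 1427 (.cons 1426 (.cons 1490 .nil .nil) .nil) .nil) (.cons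 1363 (.cons 1299 .nil (.cons 1427 .nil .nil)) .nil)) .nil))))) (.R (.cons 1301 (.cons 1364 (.cons 1237 (.cons 1238 (.cons 1174 (.cons 1302 (.cons 1365 (.cons 1366 .nil .nil) .nil) .nil) .nil) (.cons 1238 .nil (.cons 1236 .nil .nil))) (.cons 1365 (.cons 1302 .nil .nil) .nil)) (.cons 1237 (.cons 1236 .nil .nil) .nil)) .nil))))))))))))))))))) (.Y 16 26 (.Y 5 25 (.D 2 16 25 1 1 (.C 1)) (.Y 7 37 (.D 37 2 16 41 31 (.C 31)) (.Y 29 29 (.D 2 16 29 5 25 (.C 5)) (.Y 33 53 (.D 2 16 33 9 49 (.C 9)) (.Y 35 65 (.D 2 16 35 11 61 (.C 11)) (.Y 44 54 (.Y 19 39 (.D 2 19 44 9 49 (.C 9)) (.Y 20 50 (.D 2 20 54 6 36 (.C 6)) (.Y 21 51 (.D 2 21 54 7 37 (.C 7)) (.Y 43 43 (.S 43 43 42 42 (.D 42 43 44 45 55 (.C 45))) (.Y 57 57 (.D 44 57 54 43 43 (.C 43)) (.Y 10 60 (.T 6) (.Y 34 64 (.D 2 16 34 10 60 (.C 10)) (.Y 0 0 (.Y 8 48 (.D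 0 8 54 6 36 (.C 6)) (.Y 18 38 (.D 0 2 18 6 36 (.C 6)) (.Y 22 62 (.D 0 2 22 10 60 (.C 10)) (.Y 23 63 (.D 0 2 23 11 61 (.C 11)) (.Y 32 52 (.D 2 16 32 8 48 (.C 8)) (.Y 46 66 (.Y 47 67 (.D 54 46 67 55 45 (.C 45)) (.Y 71 71 (.D 46 71 66 43 43 (.C 43)) (.Y 56 56 (.D 0 2 16 4 24 (.D 12 0 2 14 14 (.D 44 56 54 42 42 (.D 66 44 56 68 58 (.T 51))))) (.R (.cons 1299 (.cons 1236 (.cons 1237 (.cons 1363 (.cons 1364 (.cons 1301 (.cons 1173 (.cons 1235 (.cons 1238 (.cons 1174 .nil .nil) .nil) .nil) .nil) .nil) .nil) .nil) .nil) (.cons 1236 (.cons 1237 (.cons 1363 (.cons 1364 (.cons 1301 (.cons 1173 (.cons 1238 (.cons 1174 .nil .nil) .nil) .nil) .nil) .nil) .nil) .nil) .nil)) .nil))))) (.R (.cons 1236 (.cons 1237 .nil (.cons 1237 (.cons 1299 (.cons 1363 (.cons 1364 (.cons 1301 (.cons 1238 .nil .nil) .nil) .nil) .nil)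 .nil) (.cons 1237 (.cons 1299 (.cons 1363 (.cons 1364 (.cons 1301 (.cons 1238 .nil .nil) .nil) .nil) .nil) .nil) .nil))) .nil)))))))) (.Y 4 24 (.D 2 16 24 0 0 (.C 0)) (.Y 14 14 (.D 2 14 12 0 0 (.C 0)) (.Y 28 28 (.D 2 16 28 4 24 (.C 4)) (.R (.cons 1237 (.cons 1236 (.cons 1299 (.cons 1363 (.cons 1364 .nil .nil) (.cons 1301 (.cons 1364 .nil (.cons 1364 (.cons 1363 (.cons 1427 .nil .nil) .nil) .nil)) .nil)) .nil) (.cons 1236 (.cons 1173 (.cons 1172 .nil .nil) (.cons 1173 .nil .nil)) .nil)) .nil))))))))))))) (.Y 0 0 (.Y 18 38 (.D 0 2 18 6 36 (.C 6)) (.Y 19 39 (.D 0 2 19 7 37 (.C 7)) (.Y 21 51 (.D 0 2 21 9 49 (.C 9)) (.Y 23 63 (.D 0 2 23 11 61 (.C 11)) (.Y 42 42 (.Y 56 56 (.Y 34 64 (.D 12 0 2 14 14 (.T 14)) (.Y 10 60 (.D 60 2 16 64 34 (.C 34)) (.Y 22 62 (.D 0 2 22 10 60 (.C 10)) (.Y 20 50 (.Y 57 57 (.D 2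 20 57 9 49 (.C 9)) (.Y 58 68 (.D 2 20 58 10 60 (.C 10)) (.Y 70 70 (.D 0 2 16 4 24 (.D 24 0 4 28 28 (.T 21))) (.R (.cons 1363 (.cons 1299 .nil (.cons 1299 (.cons 1236 .nil (.cons 1362 .nil .nil)) (.cons 1299 .nil .nil))) .nil))))) (.Y 8 48 (.D 12 0 8 20 50 (.C 20)) (.Y 32 52 (.D 2 16 32 8 48 (.C 8)) (.Y 46 66 (.Y 58 68 (.D 42 46 68 44 54 (.C 44)) (.R (.cons 1299 (.cons 1236 .nil (.cons 1236 .nil .nil)) .nil))) (.R (.cons 1236 (.cons 1237 .nil (.cons 1237 .nil (.cons 1237 (.cons 1299 (.cons 1301 (.cons 1238 .nil (.cons 1364 .nil .nil)) .nil) .nil) .nil))) .nil))))))))) (.Y 8 48 (.D 48 0 8 56 56 (.C 56)) (.Y 20 50 (.D 0 2 20 8 48 (.C 8)) (.R (.cons 1299 (.cons 1236 .nil (.cons 1236 .nil (.cons 1236 (.cons 1237 (.cons 1301 (.cons 1238 (.cons 1302 .nil (.cons 1174 .nil .nil)) (.cons 1363 (.cons 1364 (.cons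 1362 (.cons 1365 (.cons 1302 .nil .nil) .nil) .nil) (.cons 1364 .nil (.cons 1362 .nil .nil))) (.cons 1364 (.cons 1365 .nil .nil) .nil))) .nil) .nil) .nil))) .nil))))) (.R (.cons 1236 (.cons 1299 .nil (.cons 1237 .nil (.cons 1235 (.cons 1299 .nil (.cons 1299 (.cons 1363 (.cons 1364 (.cons 1301 (.cons 1237 .nil .nil) .nil) .nil) (.cons 1298 (.cons 1362 .nil .nil) (.cons 1298 .nil .nil))) (.cons 1299 .nil .nil))) .nil))) .nil))))))) (.Y 4 24 (.D 2 16 24 0 0 (.C 0)) (.Y 14 14 (.D 2 14 12 0 0 (.C 0)) (.Y 28 28 (.D 2 16 28 4 24 (.C 4)) (.Y 8 48 (.Y 18 38 (.D 48 2 18 54 44 (.C 44)) (.Y 19 39 (.D 48 2 19 55 45 (.C 45)) (.Y 20 50 (.D 2 20 48 0 0 (.C 0)) (.Y 21 51 (.D 2 21 48 1 1 (.C 1)) (.Y 23 63 (.D 48 2 23 59 69 (.C 59)) (.Y 56 56 (.D 8 56 48 0 0 (.C 0)) (.Y 57 57 (.D 8 57 48 1 1 (.C 1)) (.Y 10 60 (.Y 22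 62 (.D 2 22 60 0 0 (.C 0)) (.Y 46 66 (.D 12 10 66 18 38 (.C 18)) (.R (.cons 1301 (.cons 1364 (.cons 1236 (.cons 1237 .nil (.cons 1237 .nil (.cons 1237 (.cons 1238 .nil .nil) .nil))) .nil) (.cons 1364 (.cons 1365 (.cons 1237 (.cons 1236 (.cons 1299 (.cons 1363 (.cons 1362 .nil .nil) .nil) .nil) (.cons 1236 .nil .nil)) .nil) .nil) .nil)) .nil)))) (.Y 34 64 (.D 2 16 34 10 60 (.C 10)) (.R (.cons 1237 (.cons 1236 (.cons 1299 (.cons 1301 (.cons 1364 .nil (.cons 1364 (.cons 1363 (.cons 1427 .nil .nil) .nil) .nil)) .nil) .nil) (.cons 1236 .nil .nil)) .nil))))))))))) (.Y 32 52 (.D 2 16 32 8 48 (.C 8)) (.R (.cons 1237 (.cons 1236 .nil (.cons 1236 (.cons 1299 .nil (.cons 1299 (.cons 1301 (.cons 1364 (.cons 1365 .nil (.cons 1363 (.cons 1362 .nil (.cons 1427 .nil .nil)) .nil)) (.cons 1364 .nil .nil)) .nil) .nil))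 .nil)) .nil)))))))))))))) (.Y 5 25 (.Y 0 0 (.D 12 0 5 17 27 (.C 17)) (.Y 4 24 (.D 12 4 25 13 3 (.C 3)) (.Y 14 14 (.D 2 14 12 0 0 (.C 0)) (.Y 18 38 (.D 25 2 18 31 41 (.C 31)) (.Y 19 39 (.D 25 2 19 30 40 (.C 30)) (.Y 28 28 (.D 5 28 25 0 0 (.C 0)) (.Y 29 29 (.D 5 29 25 1 1 (.C 1)) (.Y 20 50 (.Y 7 37 (.D 37 2 20 45 55 (.C 45)) (.Y 8 48 (.D 2 20 48 0 0 (.C 0)) (.Y 21 51 (.D 2 20 51 3 13 (.C 3)) (.Y 32 52 (.D 5 32 50 3 13 (.C 3)) (.Y 44 54 (.D 2 20 54 6 36 (.C 6)) (.Y 56 56 (.D 2 20 56 8 48 (.C 8)) (.Y 57 57 (.D 2 20 57 9 49 (.C 9)) (.Y 47 67 (.T 9) (.Y 10 60 (.Y 22 62 (.D 2 22 60 0 0 (.C 0)) (.Y 23 63 (.D 2 23 60 1 1 (.C 1)) (.Y 34 64 (.D 5 34 60 1 1 (.C 1)) (.R (.cons 1301 (.cons 1237 (.cons 1236 .nil .nil) (.cons 1237 (.cons 1236 .nil .nil) .nil)) .nil))))) (.R (.cons 1364 (.cons 1301 .nil (.cons 1301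 (.cons 1237 (.cons 1236 .nil .nil) .nil) .nil)) .nil))))))))))) (.Y 33 53 (.D 12 5 33 20 50 (.C 20)) (.Y 21 51 (.Y 8 48 (.D 2 21 48 1 1 (.C 1)) (.Y 10 60 (.D 60 2 21 69 59 (.C 59)) (.Y 56 56 (.D 2 21 56 9 49 (.C 9)) (.Y 57 57 (.D 2 21 57 8 48 (.C 8)) (.Y 58 68 (.D 2 21 58 11 61 (.C 11)) (.Y 42 42 (.Y 7 37 (.D 7 42 37 0 0 (.C 0)) (.Y 44 54 (.D 2 21 54 7 37 (.C 7)) (.Y 70 70 (.T 20) (.R (.cons 1299 (.cons 1236 .nil (.cons 1236 (.cons 1237 (.cons 1301 (.cons 1363 (.cons 1362 .nil .nil) .nil) .nil) .nil) .nil)) .nil))))) (.R (.cons 1299 (.cons 1236 (.cons 1237 .nil (.cons 1237 .nil .nil)) (.cons 1236 (.cons 1237 (.cons 1173 .nil (.cons 1173 .nil .nil)) (.cons 1237 (.cons 1173 .nil (.cons 1173 .nil .nil)) .nil)) (.cons 1236 (.cons 1237 (.cons 1173 .nil (.cons 1173 .nil .nil)) (.cons 1237 (.cons 1173 .nil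 (.cons 1173 .nil .nil)) .nil)) .nil))) .nil)))))))) (.Y 32 52 (.D 12 5 32 21 51 (.C 21)) (.Y 7 37 (.Y 42 42 (.D 7 42 37 0 0 (.C 0)) (.Y 43 43 (.D 7 43 37 1 1 (.C 1)) (.Y 44 54 (.D 12 7 44 21 51 (.C 21)) (.R (.cons 1236 (.cons 1299 .nil (.cons 1237 (.cons 1173 .nil .nil) (.cons 1299 (.cons 1237 (.cons 1301 (.cons 1364 (.cons 1363 .nil .nil) (.cons 1363 (.cons 1364 .nil (.cons 1364 (.cons 1365 .nil .nil) .nil)) .nil)) (.cons 1301 (.cons 1238 .nil (.cons 1238 .nil .nil)) .nil)) .nil) .nil))) .nil))))) (.Y 8 48 (.Y 23 63 (.D 48 2 23 59 69 (.C 59)) (.R (.cons 1301 (.cons 1364 (.cons 1365 .nil .nil) (.cons 1364 (.cons 1237 (.cons 1236 .nil (.cons 1238 (.cons 1302 .nil .nil) .nil)) .nil) .nil)) .nil))) (.Y 10 60 (.Y 22 62 (.D 2 22 60 0 0 (.C 0)) (.Y 23 63 (.D 2 23 60 1 1 (.C 1)) (.R (.cons 1301 (.cons 1364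 (.cons 1237 (.cons 1236 .nil (.cons 1238 .nil .nil)) .nil) .nil) .nil)))) (.R (.cons 1364 (.cons 1301 (.cons 1237 .nil .nil) (.cons 1301 (.cons 1237 (.cons 1236 (.cons 1173 .nil .nil) .nil) .nil) .nil)) .nil)))))))))))))))) (.Y 28 28 (.Y 4 24 (.D 12 4 28 16 26 (.C 16)) (.Y 0 0 (.Y 18 38 (.D 0 2 18 6 36 (.C 6)) (.Y 21 51 (.D 0 2 21 9 49 (.C 9)) (.Y 23 63 (.D 0 2 23 11 61 (.C 11)) (.Y 56 56 (.Y 19 39 (.Y 8 48 (.D 48 2 19 55 45 (.C 45)) (.Y 20 50 (.D 0 2 20 8 48 (.C 8)) (.Y 43 43 (.D 2 19 43 6 36 (.C 6)) (.Y 44 54 (.D 2 19 44 9 49 (.C 9)) (.Y 46 66 (.D 2 19 46 11 61 (.C 11)) (.Y 35 65 (.T 12) (.Y 34 64 (.D 12 0 2 14 14 (.D 0 2 19 7 37 (.D 37 0 7 42 42 (.T 14)))) (.Y 33 53 (.Y 58 68 (.D 28 33 58 35 65 (.C 35)) (.Y 70 70 (.D 0 2 19 7 37 (.D 12 0 2 14 14 (.T 19))) (.R (.cons 1236 (.cons 1237 .nil (.cons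 1237 .nil (.cons 1299 .nil (.cons 1237 (.cons 1173 .nil .nil) .nil)))) .nil)))) (.R (.cons 1237 (.cons 1236 .nil (.cons 1236 .nil (.cons 1236 (.cons 1299 .nil (.cons 1173 .nil .nil)) .nil))) .nil)))))))))) (.Y 7 37 (.D 12 0 7 19 39 (.C 19)) (.Y 42 42 (.Y 34 64 (.D 12 0 2 14 14 (.T 14)) (.Y 70 70 (.Y 20 50 (.T 21) (.Y 8 48 (.D 12 0 8 20 50 (.C 20)) (.Y 22 62 (.Y 35 65 (.D 2 22 65 5 25 (.C 5)) (.Y 46 66 (.D 2 22 66 6 36 (.C 6)) (.Y 47 67 (.D 2 22 67 7 37 (.C 7)) (.Y 58 68 (.D 2 22 68 8 48 (.C 8)) (.Y 71 71 (.D 2 22 71 11 61 (.C 11)) (.Y 32 52 (.Y 44 54 (.D 28 32 54 30 40 (.C 30)) (.R (.cons 1236 (.cons 1237 .nil (.cons 1237 .nil .nil)) .nil))) (.R (.cons 1236 (.cons 1237 .nil (.cons 1237 .nil (.cons 1237 (.cons 1301 (.cons 1299 (.cons 1363 .nil (.cons 1363 (.cons 1364 (.cons 1365 .nil .nil) .nil) .nil))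 .nil) .nil) .nil))) .nil)))))))) (.Y 10 60 (.D 12 0 10 22 62 (.C 22)) (.Y 29 29 (.Y 35 65 (.D 28 29 35 34 64 (.C 34)) (.Y 43 43 (.S 29 43 30 40 (.C 30)) (.Y 71 71 (.S 29 71 34 64 (.C 34)) (.Y 32 52 (.Y 44 54 (.D 28 32 54 30 40 (.C 30)) (.R (.cons 1301 (.cons 1364 (.cons 1236 (.cons 1237 (.cons 1173 .nil .nil) (.cons 1237 .nil (.cons 1237 (.cons 1299 (.cons 1363 .nil .nil) .nil) .nil))) .nil) (.cons 1237 .nil .nil)) .nil))) (.R (.cons 1301 (.cons 1364 (.cons 1237 (.cons 1236 (.cons 1173 .nil .nil) (.cons 1236 (.cons 1173 (.cons 1299 (.cons 1363 (.cons 1362 .nil .nil) (.cons 1235 .nil .nil)) .nil) .nil) .nil)) .nil) (.cons 1237 .nil .nil)) .nil)))))) (.Y 32 52 (.Y 33 53 (.D 28 32 53 29 29 (.C 29)) (.Y 35 65 (.D 52 28 35 59 69 (.C 59)) (.Y 44 54 (.D 28 32 54 30 40 (.C 30)) (.R (.cons 1237 (.cons 1236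 (.cons 1299 (.cons 1235 .nil .nil) .nil) (.cons 1236 .nil .nil)) .nil))))) (.R (.cons 1301 (.cons 1364 (.cons 1237 (.cons 1238 (.cons 1302 .nil .nil) (.cons 1236 (.cons 1173 (.cons 1299 (.cons 1363 .nil (.cons 1235 .nil .nil)) .nil) .nil) .nil)) .nil) (.cons 1237 .nil .nil)) .nil)))))))) (.Y 10 60 (.D 60 0 10 70 70 (.C 70)) (.Y 22 62 (.D 0 2 22 10 60 (.C 10)) (.Y 35 65 (.D 65 28 35 70 70 (.C 70)) (.Y 46 66 (.D 66 42 46 70 70 (.C 70)) (.R (.cons 1301 (.cons 1237 (.cons 1364 (.cons 1363 (.cons 1365 (.cons 1236 (.cons 1299 .nil (.cons 1173 .nil .nil)) .nil) .nil) .nil) .nil) (.cons 1237 .nil (.cons 1364 .nil .nil))) .nil)))))))) (.Y 43 43 (.S 43 43 42 42 (.C 42)) (.Y 44 54 (.D 44 56 54 42 42 (.C 42)) (.Y 8 48 (.Y 32 52 (.D 0 8 52 4 24 (.C 4)) (.R (.cons 1236 (.cons 1299 (.cons 1363 (.cons 1364 (.cons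 1301 (.cons 1237 .nil .nil) .nil) .nil) .nil) (.cons 1237 (.cons 1301 (.cons 1235 (.cons 1299 (.cons 1363 (.cons 1364 .nil .nil) (.cons 1298 .nil .nil)) (.cons 1299 .nil .nil)) .nil) (.cons 1173 (.cons 1172 .nil .nil) .nil)) .nil)) .nil))) (.R (.cons 1236 (.cons 1299 (.cons 1363 (.cons 1364 .nil .nil) .nil) (.cons 1237 (.cons 1301 (.cons 1299 (.cons 1235 .nil (.cons 1235 .nil .nil)) .nil) .nil) .nil)) .nil)))))))) (.Y 8 48 (.D 48 0 8 56 56 (.C 56)) (.Y 20 50 (.D 0 2 20 8 48 (.C 8)) (.Y 32 52 (.D 52 28 32 56 56 (.C 56)) (.Y 33 53 (.D 53 28 33 56 56 (.C 56)) (.R (.cons 1299 (.cons 1236 (.cons 1237 .nil (.cons 1235 .nil .nil)) (.cons 1236 (.cons 1237 .nil (.cons 1237 (.cons 1301 (.cons 1364 (.cons 1365 .nil (.cons 1363 .nil .nil)) (.cons 1238 .nil .nil)) (.cons 1301 .nil (.cons 1173 .nil .nil))) .nil))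 (.cons 1236 .nil .nil))) .nil)))))))))) (.Y 14 14 (.D 2 14 12 0 0 (.C 0)) (.Y 7 37 (.Y 18 38 (.D 2 18 37 1 1 (.C 1)) (.Y 19 39 (.D 2 19 37 0 0 (.C 0)) (.Y 20 50 (.D 37 2 20 45 55 (.C 45)) (.Y 42 42 (.D 7 42 37 0 0 (.C 0)) (.Y 43 43 (.D 7 43 37 1 1 (.C 1)) (.Y 23 63 (.Y 8 48 (.D 48 2 23 59 69 (.C 59)) (.Y 10 60 (.D 2 23 60 1 1 (.C 1)) (.Y 22 62 (.D 2 22 63 3 13 (.C 3)) (.Y 34 64 (.D 2 23 64 5 25 (.C 5)) (.Y 35 65 (.D 2 23 65 4 24 (.C 4)) (.Y 47 67 (.D 7 47 63 3 13 (.C 3)) (.Y 58 68 (.D 2 23 68 9 49 (.C 9)) (.Y 70 70 (.D 2 23 70 11 61 (.C 11)) (.Y 71 71 (.D 2 23 71 10 60 (.C 10)) (.Y 56 56 (.T 11) (.R (.cons 1363 (.cons 1299 (.cons 1362 .nil (.cons 1362 .nil .nil)) (.cons 1299 .nil .nil)) .nil)))))))))))) (.Y 46 66 (.D 12 7 46 23 63 (.C 23)) (.Y 8 48 (.Y 21 51 (.D 2 21 48 1 1 (.C 1)) (.R (.cons 1301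 (.cons 1364 (.cons 1365 .nil .nil) (.cons 1364 (.cons 1236 (.cons 1237 (.cons 1173 .nil (.cons 1173 .nil .nil)) (.cons 1299 (.cons 1363 (.cons 1362 .nil .nil) .nil) (.cons 1299 .nil .nil))) .nil) .nil)) .nil))) (.Y 10 60 (.Y 21 51 (.D 60 2 21 69 59 (.C 59)) (.R (.cons 1301 (.cons 1364 .nil (.cons 1364 (.cons 1236 (.cons 1237 (.cons 1173 .nil (.cons 1173 .nil .nil)) (.cons 1299 (.cons 1363 (.cons 1362 .nil .nil) .nil) (.cons 1299 .nil .nil))) .nil) .nil)) .nil))) (.Y 21 51 (.Y 32 52 (.D 2 21 52 5 25 (.C 5)) (.Y 33 53 (.D 2 21 53 4 24 (.C 4)) (.R (.cons 1364 (.cons 1363 .nil (.cons 1363 .nil .nil)) .nil)))) (.R (.cons 1301 (.cons 1364 .nil (.cons 1364 (.cons 1237 (.cons 1363 (.cons 1173 (.cons 1174 .nil (.cons 1236 (.cons 1299 .nil .nil) .nil)) (.cons 1427 (.cons 1428 .nil .nil) .nil)) (.cons 1236 (.cons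 1299 .nil .nil) .nil)) .nil) .nil)) .nil)))))))))))) (.Y 8 48 (.Y 19 39 (.D 48 2 19 55 45 (.C 45)) (.Y 20 50 (.D 2 20 48 0 0 (.C 0)) (.Y 21 51 (.D 2 21 48 1 1 (.C 1)) (.Y 23 63 (.D 48 2 23 59 69 (.C 59)) (.Y 32 52 (.D 8 52 28 4 24 (.C 4)) (.Y 33 53 (.D 8 53 28 5 25 (.C 5)) (.Y 56 56 (.D 8 56 48 0 0 (.C 0)) (.Y 57 57 (.D 8 57 48 1 1 (.C 1)) (.Y 10 60 (.Y 22 62 (.D 2 22 60 0 0 (.C 0)) (.R (.cons 1301 (.cons 1237 (.cons 1236 (.cons 1299 (.cons 1238 (.cons 1364 (.cons 1365 .nil (.cons 1363 .nil .nil)) .nil) .nil) .nil) (.cons 1238 .nil .nil)) (.cons 1237 .nil .nil)) .nil))) (.R (.cons 1364 (.cons 1301 (.cons 1365 .nil (.cons 1237 .nil .nil)) (.cons 1363 (.cons 1299 (.cons 1236 (.cons 1237 .nil (.cons 1235 .nil .nil)) .nil) .nil) .nil)) .nil))))))))))) (.Y 10 60 (.Y 21 51 (.D 60 2 21 69 59 (.C 59)) (.Y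 22 62 (.D 2 22 60 0 0 (.C 0)) (.Y 23 63 (.D 2 23 60 1 1 (.C 1)) (.Y 34 64 (.D 10 64 28 4 24 (.C 4)) (.Y 35 65 (.D 10 65 28 5 25 (.C 5)) (.Y 70 70 (.D 10 70 60 0 0 (.C 0)) (.Y 71 71 (.D 10 71 60 1 1 (.C 1)) (.Y 18 38 (.Y 19 39 (.D 2 18 39 3 13 (.C 3)) (.Y 42 42 (.D 2 18 42 6 36 (.C 6)) (.Y 43 43 (.D 2 18 43 7 37 (.C 7)) (.Y 44 54 (.D 2 18 44 8 48 (.C 8)) (.R (.cons 1364 (.cons 1363 (.cons 1236 (.cons 1299 .nil (.cons 1237 .nil (.cons 1237 (.cons 1301 (.cons 1365 (.cons 1302 .nil .nil) .nil) .nil) .nil))) .nil) (.cons 1301 (.cons 1237 (.cons 1236 (.cons 1173 .nil .nil) (.cons 1236 (.cons 1299 (.cons 1363 .nil (.cons 1363 .nil .nil)) .nil) .nil)) (.cons 1237 (.cons 1236 .nil .nil) .nil)) .nil)) .nil)))))) (.Y 46 66 (.D 12 10 66 18 38 (.C 18)) (.Y 19 39 (.Y 42 42 (.D 2 19 42 7 37 (.C 7)) (.Y 43 43 (.D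 2 19 43 6 36 (.C 6)) (.Y 44 54 (.D 2 19 44 9 49 (.C 9)) (.R (.cons 1236 (.cons 1237 (.cons 1173 .nil .nil) (.cons 1237 (.cons 1299 (.cons 1235 .nil .nil) .nil) .nil)) .nil))))) (.R (.cons 1301 (.cons 1237 (.cons 1236 (.cons 1173 .nil .nil) .nil) (.cons 1237 (.cons 1238 .nil (.cons 1236 (.cons 1299 (.cons 1235 .nil (.cons 1235 (.cons 1363 (.cons 1364 .nil (.cons 1364 (.cons 1365 .nil .nil) .nil)) .nil) .nil)) .nil) .nil)) .nil)) .nil)))))))))))) (.Y 18 38 (.Y 19 39 (.D 2 18 39 3 13 (.C 3)) (.Y 42 42 (.D 2 18 42 6 36 (.C 6)) (.Y 43 43 (.D 2 18 43 7 37 (.C 7)) (.Y 44 54 (.D 2 18 44 8 48 (.C 8)) (.R (.cons 1364 (.cons 1301 (.cons 1236 (.cons 1299 (.cons 1363 .nil .nil) (.cons 1299 .nil (.cons 1237 (.cons 1173 (.cons 1299 (.cons 1363 .nil (.cons 1363 .nil (.cons 1363 .nil .nil))) .nil) .nil) .nil))) .nil)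 .nil) .nil)))))) (.Y 19 39 (.Y 42 42 (.D 2 19 42 7 37 (.C 7)) (.Y 43 43 (.D 2 19 43 6 36 (.C 6)) (.Y 44 54 (.D 2 19 44 9 49 (.C 9)) (.R (.cons 1364 (.cons 1301 (.cons 1236 (.cons 1299 (.cons 1363 .nil .nil) (.cons 1237 .nil (.cons 1237 (.cons 1173 (.cons 1299 (.cons 1363 .nil (.cons 1363 .nil (.cons 1363 .nil .nil))) .nil) .nil) .nil))) .nil) .nil) .nil))))) (.Y 20 50 (.Y 21 51 (.D 2 20 51 3 13 (.C 3)) (.Y 32 52 (.D 2 20 52 4 24 (.C 4)) (.R (.cons 1364 (.cons 1301 (.cons 1237 (.cons 1173 (.cons 1236 .nil .nil) (.cons 1173 (.cons 1236 (.cons 1299 (.cons 1363 (.cons 1298 (.cons 1235 (.cons 1362 (.cons 1426 .nil .nil) .nil) .nil) .nil) (.cons 1235 .nil .nil)) .nil) .nil) (.cons 1238 .nil .nil))) .nil) .nil) .nil)))) (.Y 21 51 (.Y 32 52 (.D 2 21 52 5 25 (.C 5)) (.R (.cons 1364 (.cons 1301 (.cons 1237 (.cons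 1173 (.cons 1236 .nil .nil) (.cons 1173 (.cons 1236 (.cons 1299 (.cons 1363 (.cons 1298 (.cons 1235 (.cons 1362 (.cons 1426 .nil .nil) .nil) .nil) .nil) (.cons 1363 .nil (.cons 1235 .nil .nil))) .nil) .nil) (.cons 1238 .nil .nil))) .nil) .nil) .nil))) (.Y 22 62 (.Y 23 63 (.D 2 22 63 3 13 (.C 3)) (.Y 34 64 (.D 2 22 64 4 24 (.C 4)) (.Y 35 65 (.D 2 22 65 5 25 (.C 5)) (.Y 46 66 (.D 2 22 66 6 36 (.C 6)) (.R (.cons 1364 (.cons 1301 (.cons 1237 (.cons 1173 (.cons 1236 .nil .nil) (.cons 1236 (.cons 1299 (.cons 1363 (.cons 1362 .nil .nil) .nil) .nil) .nil)) .nil) .nil) .nil)))))) (.Y 23 63 (.Y 34 64 (.D 2 23 64 5 25 (.C 5)) (.Y 35 65 (.D 2 23 65 4 24 (.C 4)) (.Y 46 66 (.D 2 23 66 7 37 (.C 7)) (.R (.cons 1364 (.cons 1301 (.cons 1237 (.cons 1173 (.cons 1236 .nil .nil) (.cons 1238 .nil (.cons 1236 (.cons 1299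 (.cons 1363 (.cons 1235 (.cons 1238 (.cons 1172 (.cons 1173 (.cons 1174 (.cons 1110 .nil .nil) .nil) .nil) .nil) .nil) .nil) .nil) .nil) .nil))) .nil) .nil) .nil))))) (.Y 29 29 (.Y 43 43 (.S 29 43 30 40 (.C 30)) (.Y 32 52 (.Y 34 64 (.D 52 29 34 59 69 (.C 59)) (.Y 35 65 (.D 28 29 35 34 64 (.C 34)) (.Y 44 54 (.D 28 32 54 30 40 (.C 30)) (.R (.cons 1301 (.cons 1364 (.cons 1236 (.cons 1237 (.cons 1173 .nil .nil) (.cons 1237 .nil (.cons 1237 (.cons 1299 (.cons 1363 .nil .nil) .nil) .nil))) .nil) .nil) .nil))))) (.R (.cons 1301 (.cons 1364 (.cons 1237 (.cons 1173 (.cons 1236 .nil .nil) (.cons 1236 (.cons 1173 (.cons 1299 (.cons 1363 (.cons 1362 .nil .nil) (.cons 1235 .nil .nil)) .nil) .nil) .nil)) .nil) .nil) .nil)))) (.Y 32 52 (.Y 33 53 (.D 28 32 53 29 29 (.C 29)) (.Y 35 65 (.D 52 28 35 59 69 (.C 59)) (.Y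 44 54 (.D 28 32 54 30 40 (.C 30)) (.R (.cons 1301 (.cons 1364 (.cons 1237 (.cons 1236 (.cons 1299 (.cons 1363 .nil .nil) .nil) (.cons 1236 .nil .nil)) .nil) .nil) .nil))))) (.R (.cons 1301 (.cons 1364 (.cons 1237 (.cons 1173 (.cons 1236 .nil .nil) (.cons 1236 (.cons 1173 (.cons 1299 (.cons 1363 .nil (.cons 1235 .nil .nil)) .nil) .nil) .nil)) .nil) .nil) .nil)))))))))))))))) (.Y 29 29 (.S 29 29 28 28 (.C 28)) (.Y 0 0 (.Y 4 24 (.D 12 0 4 16 26 (.C 16)) (.Y 18 38 (.D 0 2 18 6 36 (.C 6)) (.Y 21 51 (.D 0 2 21 9 49 (.C 9)) (.Y 23 63 (.D 0 2 23 11 61 (.C 11)) (.Y 56 56 (.Y 32 52 (.D 32 56 52 28 28 (.C 28)) (.Y 33 53 (.D 33 56 53 28 28 (.C 28)) (.Y 19 39 (.Y 8 48 (.D 48 2 19 55 45 (.C 45)) (.Y 20 50 (.D 0 2 20 8 48 (.C 8)) (.Y 43 43 (.D 2 19 43 6 36 (.C 6)) (.Y 44 54 (.D 2 19 44 9 49 (.C 9)) (.Y 46 66 (.D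 2 19 46 11 61 (.C 11)) (.Y 35 65 (.T 12) (.Y 34 64 (.D 12 0 2 14 14 (.D 0 2 19 7 37 (.D 37 0 7 42 42 (.T 14)))) (.R (.cons 1237 .nil .nil))))))))) (.Y 7 37 (.D 12 0 7 19 39 (.C 19)) (.Y 34 64 (.Y 10 60 (.D 0 10 64 4 24 (.C 4)) (.Y 22 62 (.D 2 22 64 4 24 (.C 4)) (.Y 58 68 (.D 34 68 56 32 52 (.C 32)) (.Y 70 70 (.D 34 70 64 28 28 (.C 28)) (.Y 71 71 (.D 34 71 64 29 29 (.C 29)) (.Y 42 42 (.D 12 0 2 14 14 (.T 14)) (.Y 43 43 (.S 43 43 42 42 (.C 42)) (.Y 44 54 (.D 44 56 54 42 42 (.C 42)) (.R (.cons 1236 (.cons 1299 .nil (.cons 1237 (.cons 1299 (.cons 1235 .nil .nil) .nil) .nil)) .nil)))))))))) (.R (.cons 1237 (.cons 1236 (.cons 1299 .nil .nil) .nil) .nil))))))) (.Y 8 48 (.D 48 0 8 56 56 (.C 56)) (.Y 20 50 (.D 0 2 20 8 48 (.C 8)) (.Y 57 57 (.S 57 57 56 56 (.C 56)) (.Y 7 37 (.Y 43 43 (.D 7 43 37 1 1 (.C 1))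 (.Y 44 54 (.D 0 7 44 9 49 (.C 9)) (.Y 46 66 (.D 0 7 46 11 61 (.C 11)) (.Y 33 53 (.Y 70 70 (.D 12 0 2 14 14 (.T 19)) (.R (.cons 1299 (.cons 1236 (.cons 1237 (.cons 1173 .nil .nil) (.cons 1235 .nil .nil)) (.cons 1236 (.cons 1237 (.cons 1173 .nil .nil) (.cons 1237 (.cons 1301 .nil (.cons 1173 (.cons 1172 .nil .nil) .nil)) .nil)) (.cons 1236 .nil .nil))) .nil))) (.R (.cons 1299 (.cons 1236 (.cons 1237 .nil (.cons 1235 .nil .nil)) (.cons 1236 .nil .nil)) .nil)))))) (.Y 19 39 (.D 0 2 19 7 37 (.C 7)) (.Y 10 60 (.Y 34 64 (.D 0 10 64 4 24 (.C 4)) (.R (.cons 1237 (.cons 1236 .nil (.cons 1301 (.cons 1238 (.cons 1302 .nil .nil) .nil) (.cons 1236 (.cons 1299 (.cons 1363 (.cons 1364 .nil (.cons 1364 .nil .nil)) .nil) (.cons 1173 .nil .nil)) .nil))) .nil))) (.R (.cons 1364 (.cons 1301 (.cons 1365 (.cons 1428 .nil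 .nil) (.cons 1237 (.cons 1236 (.cons 1299 .nil (.cons 1173 .nil .nil)) .nil) .nil)) (.cons 1301 (.cons 1237 (.cons 1238 .nil .nil) (.cons 1237 (.cons 1238 (.cons 1302 .nil .nil) (.cons 1238 (.cons 1236 (.cons 1299 (.cons 1363 .nil .nil) (.cons 1173 .nil .nil)) .nil) .nil)) .nil)) .nil)) .nil))))))))))))) (.Y 14 14 (.D 2 14 12 0 0 (.C 0)) (.Y 4 24 (.Y 18 38 (.D 24 2 18 30 40 (.C 30)) (.Y 19 39 (.D 24 2 19 31 41 (.C 31)) (.Y 7 37 (.Y 20 50 (.D 37 2 20 45 55 (.C 45)) (.Y 32 52 (.D 12 4 32 20 50 (.C 20)) (.Y 42 42 (.D 7 42 37 0 0 (.C 0)) (.Y 43 43 (.D 7 43 37 1 1 (.C 1)) (.Y 8 48 (.Y 21 51 (.D 2 21 48 1 1 (.C 1)) (.Y 23 63 (.D 48 2 23 59 69 (.C 59)) (.Y 33 53 (.D 4 33 48 1 1 (.C 1)) (.R (.cons 1301 (.cons 1237 (.cons 1238 .nil (.cons 1238 .nil .nil)) (.cons 1364 (.cons 1237 (.cons 1363 (.cons 1299 (.cons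 1236 .nil .nil) (.cons 1299 (.cons 1236 .nil (.cons 1236 .nil .nil)) .nil)) (.cons 1238 (.cons 1302 .nil .nil) .nil)) .nil) .nil)) .nil))))) (.Y 10 60 (.Y 21 51 (.D 60 2 21 69 59 (.C 59)) (.R (.cons 1301 (.cons 1237 (.cons 1238 .nil .nil) (.cons 1364 (.cons 1237 (.cons 1238 (.cons 1302 .nil .nil) (.cons 1238 (.cons 1302 .nil (.cons 1302 .nil .nil)) (.cons 1238 (.cons 1174 .nil .nil) .nil))) .nil) (.cons 1237 .nil .nil))) .nil))) (.Y 21 51 (.Y 56 56 (.D 2 21 56 9 49 (.C 9)) (.Y 57 57 (.D 2 21 57 8 48 (.C 8)) (.Y 58 68 (.D 2 21 58 11 61 (.C 11)) (.Y 22 62 (.Y 23 63 (.D 2 22 63 3 13 (.C 3)) (.R (.cons 1299 (.cons 1236 (.cons 1237 (.cons 1301 (.cons 1238 .nil .nil) (.cons 1301 (.cons 1238 .nil (.cons 1238 .nil .nil)) .nil)) (.cons 1235 (.cons 1298 .nil .nil) .nil)) (.cons 1236 (.cons 1237 .nil (.cons 1237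 .nil .nil)) (.cons 1363 (.cons 1364 .nil .nil) .nil))) .nil))) (.Y 34 64 (.D 12 4 34 22 62 (.C 22)) (.R (.cons 1237 (.cons 1301 (.cons 1238 .nil .nil) (.cons 1236 .nil (.cons 1236 (.cons 1299 (.cons 1301 (.cons 1238 .nil (.cons 1238 .nil .nil)) (.cons 1301 (.cons 1238 .nil (.cons 1238 .nil .nil)) .nil)) (.cons 1299 (.cons 1301 (.cons 1238 .nil (.cons 1238 .nil .nil)) (.cons 1235 (.cons 1298 .nil .nil) .nil)) .nil)) .nil))) .nil))))))) (.R (.cons 1301 (.cons 1237 (.cons 1236 .nil .nil) (.cons 1364 (.cons 1237 (.cons 1238 (.cons 1174 .nil .nil) (.cons 1363 (.cons 1299 (.cons 1236 .nil (.cons 1236 .nil .nil)) (.cons 1299 (.cons 1236 .nil .nil) .nil)) .nil)) .nil) (.cons 1237 .nil .nil))) .nil))))))))) (.Y 8 48 (.Y 20 50 (.D 2 20 48 0 0 (.C 0)) (.Y 21 51 (.D 2 21 48 1 1 (.C 1)) (.Y 23 63 (.D 48 2 23 59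 69 (.C 59)) (.Y 32 52 (.D 4 32 48 0 0 (.C 0)) (.Y 33 53 (.D 4 33 48 1 1 (.C 1)) (.Y 35 65 (.D 12 4 35 23 63 (.C 23)) (.R (.cons 1237 (.cons 1301 (.cons 1364 (.cons 1238 (.cons 1302 .nil .nil) .nil) .nil) (.cons 1301 (.cons 1238 .nil (.cons 1364 (.cons 1238 (.cons 1302 .nil .nil) .nil) .nil)) .nil)) .nil)))))))) (.Y 10 60 (.Y 21 51 (.D 60 2 21 69 59 (.C 59)) (.Y 22 62 (.D 2 22 60 0 0 (.C 0)) (.Y 23 63 (.D 2 23 60 1 1 (.C 1)) (.Y 33 53 (.D 12 4 33 21 51 (.C 21)) (.Y 34 64 (.D 4 34 60 0 0 (.C 0)) (.R (.cons 1301 (.cons 1237 (.cons 1236 (.cons 1299 (.cons 1363 (.cons 1364 (.cons 1427 .nil .nil) (.cons 1362 .nil .nil)) (.cons 1235 .nil .nil)) (.cons 1173 (.cons 1174 .nil .nil) .nil)) .nil) (.cons 1237 (.cons 1238 (.cons 1302 .nil .nil) .nil) .nil)) .nil))))))) (.Y 20 50 (.Y 21 51 (.D 2 20 51 3 13 (.C 3))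 (.Y 33 53 (.D 4 33 50 3 13 (.C 3)) (.Y 44 54 (.D 2 20 54 6 36 (.C 6)) (.Y 56 56 (.D 2 20 56 8 48 (.C 8)) (.R (.cons 1364 (.cons 1301 (.cons 1237 (.cons 1236 (.cons 1299 .nil (.cons 1299 (.cons 1363 (.cons 1362 .nil .nil) .nil) .nil)) (.cons 1236 .nil .nil)) .nil) (.cons 1301 (.cons 1365 (.cons 1363 (.cons 1427 .nil (.cons 1427 (.cons 1428 (.cons 1491 .nil .nil) .nil) .nil)) .nil) (.cons 1237 (.cons 1236 .nil .nil) .nil)) .nil)) .nil)))))) (.Y 32 52 (.D 12 4 32 20 50 (.C 20)) (.Y 21 51 (.Y 44 54 (.D 2 21 54 7 37 (.C 7)) (.R (.cons 1364 (.cons 1301 (.cons 1237 (.cons 1238 (.cons 1302 .nil .nil) (.cons 1236 (.cons 1299 (.cons 1363 .nil .nil) (.cons 1299 .nil .nil)) .nil)) .nil) (.cons 1301 (.cons 1237 (.cons 1238 .nil .nil) (.cons 1237 .nil .nil)) .nil)) .nil))) (.Y 33 53 (.D 12 4 33 21 51 (.C 21)) (.Y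 22 62 (.Y 23 63 (.D 2 22 63 3 13 (.C 3)) (.Y 35 65 (.D 4 35 62 3 13 (.C 3)) (.R (.cons 1237 (.cons 1301 (.cons 1238 .nil .nil) (.cons 1301 .nil .nil)) .nil)))) (.R (.cons 1301 (.cons 1237 .nil (.cons 1237 .nil .nil)) .nil)))))))))))) (.Y 7 37 (.Y 18 38 (.D 2 18 37 1 1 (.C 1)) (.Y 19 39 (.D 2 19 37 0 0 (.C 0)) (.Y 20 50 (.D 37 2 20 45 55 (.C 45)) (.Y 42 42 (.D 7 42 37 0 0 (.C 0)) (.Y 43 43 (.D 7 43 37 1 1 (.C 1)) (.Y 8 48 (.Y 21 51 (.D 2 21 48 1 1 (.C 1)) (.Y 23 63 (.D 48 2 23 59 69 (.C 59)) (.R (.cons 1301 (.cons 1364 (.cons 1365 .nil .nil) (.cons 1364 (.cons 1237 (.cons 1174 (.cons 1173 (.cons 1236 (.cons 1299 .nil .nil) .nil) (.cons 1173 (.cons 1110 .nil .nil) .nil)) (.cons 1236 (.cons 1173 (.cons 1172 .nil .nil) (.cons 1299 .nil .nil)) (.cons 1238 (.cons 1302 .nil .nil) .nil))) .nil) .nil)) .nil))))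 (.Y 10 60 (.Y 21 51 (.D 60 2 21 69 59 (.C 59)) (.R (.cons 1301 (.cons 1364 .nil (.cons 1364 (.cons 1237 (.cons 1238 (.cons 1302 .nil (.cons 1302 .nil .nil)) (.cons 1236 (.cons 1173 .nil (.cons 1299 (.cons 1363 .nil .nil) .nil)) (.cons 1238 (.cons 1174 .nil .nil) .nil))) .nil) (.cons 1237 .nil .nil))) .nil))) (.Y 21 51 (.Y 32 52 (.D 2 21 52 5 25 (.C 5)) (.R (.cons 1364 (.cons 1363 (.cons 1299 (.cons 1236 .nil (.cons 1236 .nil .nil)) .nil) (.cons 1363 (.cons 1299 (.cons 1236 (.cons 1237 (.cons 1173 .nil (.cons 1301 .nil .nil)) (.cons 1237 .nil .nil)) .nil) .nil) .nil)) .nil))) (.R (.cons 1364 (.cons 1301 (.cons 1237 (.cons 1363 (.cons 1299 (.cons 1236 .nil (.cons 1236 .nil .nil)) (.cons 1299 (.cons 1236 (.cons 1173 .nil .nil) (.cons 1236 (.cons 1173 .nil .nil) .nil)) .nil)) (.cons 1236 (.cons 1173 .nil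 (.cons 1299 (.cons 1363 .nil .nil) .nil)) .nil)) .nil) (.cons 1301 (.cons 1237 .nil .nil) .nil)) .nil)))))))))) (.Y 8 48 (.Y 19 39 (.D 48 2 19 55 45 (.C 45)) (.Y 20 50 (.D 2 20 48 0 0 (.C 0)) (.Y 21 51 (.D 2 21 48 1 1 (.C 1)) (.Y 23 63 (.D 48 2 23 59 69 (.C 59)) (.Y 32 52 (.D 12 8 52 16 26 (.C 16)) (.Y 33 53 (.D 12 8 53 17 27 (.C 17)) (.R (.cons 1237 (.cons 1236 (.cons 1299 .nil .nil) (.cons 1301 (.cons 1364 (.cons 1238 (.cons 1302 .nil (.cons 1174 .nil .nil)) .nil) (.cons 1364 (.cons 1365 .nil (.cons 1363 (.cons 1365 (.cons 1299 (.cons 1362 .nil (.cons 1236 (.cons 1235 .nil .nil) .nil)) .nil) .nil) .nil)) .nil)) .nil)) .nil)))))))) (.Y 10 60 (.Y 21 51 (.D 60 2 21 69 59 (.C 59)) (.Y 22 62 (.D 2 22 60 0 0 (.C 0)) (.Y 23 63 (.D 2 23 60 1 1 (.C 1)) (.Y 34 64 (.D 12 10 64 16 26 (.C 16)) (.Y 35 65 (.D 12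 10 65 17 27 (.C 17)) (.Y 70 70 (.D 10 70 60 0 0 (.C 0)) (.R (.cons 1237 (.cons 1364 (.cons 1363 (.cons 1173 (.cons 1236 (.cons 1299 .nil .nil) (.cons 1236 .nil .nil)) .nil) (.cons 1363 (.cons 1299 (.cons 1236 .nil .nil) .nil) .nil)) (.cons 1301 (.cons 1238 .nil .nil) .nil)) .nil)))))))) (.R (.cons 1364 (.cons 1301 (.cons 1237 (.cons 1173 (.cons 1236 .nil .nil) (.cons 1238 (.cons 1174 (.cons 1236 (.cons 1172 (.cons 1173 .nil .nil) (.cons 1173 .nil .nil)) .nil) .nil) .nil)) .nil) .nil) .nil)))))))))))))))))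

theorem chk6_1 : chk2 6 dl6 pats6 true TM6 tr6_1 (orL [2, 12]) (outQ [3]) = true := by
  decide +kernel

end Pool.H3JG
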