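import Pool.Agent.Helper3.JG.Hex6

/-!
# Jigsaw tiles on a lattice: certificate for the hexagonal lattice, class 5
-/

namespace Pool.H3JG

/-- The decision tree. -/
def tr6_2 : Tr :=
  (.Y 20 50 (.Y 8 48 (.D 25 8 50 27 17 (.C 17)) (.Y 9 49 (.D 25 9 50 26 16 (.C 16)) (.Y 32 52 (.D 5 32 50 3 13 (.C 3)) (.Y 33 53 (.D 5 33 50 2 12 (.C 2)) (.Y 47 67 (.T 9) (.Y 6 36 (.Y 0 0 (.D 25 0 6 31 41 (.C 31)) (.Y 1 1 (.S 1 1 0 0 (.C 0)) (.Y 18 38 (.D 6 38 20 8 48 (.C 8)) (.Y 19 39 (.D 6 39 20 9 49 (.C 9)) (.Y 28 28 (.D 5 28 25 0 0 (.C 0)) (.Y 29 29 (.D 5 29 25 1 1 (.C 1)) (.Y 34 64 (.D 36 5 34 47 67 (.C 47)) (.Y 42 42 (.D 6 42 36 0 0 (.C 0)) (.R (.cons 1237 (.cons 1301 (.cons 1364 .nil .nil) (.cons 1301 (.cons 1238 .nil (.cons 1364 .nil .nil)) (.cons 1236 (.cons 1299 .nil .nil) .nil))) .nil))))))))))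 (.Y 42 42 (.Y 7 37 (.D 25 7 42 30 40 (.C 30)) (.Y 18 38 (.D 50 18 42 54 44 (.C 44)) (.Y 19 39 (.D 50 19 42 55 45 (.C 45)) (.Y 70 70 (.Y 22 62 (.D 50 22 70 58 68 (.C 58)) (.Y 23 63 (.D 50 23 70 59 69 (.C 59)) (.Y 34 64 (.D 5 34 70 11 61 (.C 11)) (.Y 35 65 (.D 5 35 70 10 60 (.C 10)) (.Y 21 51 (.T 20) (.Y 15 15 (.S 15 15 14 14 (.D 14 15 20 21 51 (.C 21))) (.Y 57 57 (.D 20 57 50 15 15 (.C 15)) (.Y 0 0 (.D 25 0 5 28 28 (.T 21)) (.R (.cons 1299 (.cons 1236 .nil (.cons 1363 .nil .nil)) .nil)))))))))) (.Y 46 66 (.D 66 42 46 70 70 (.C 70)) (.Y 71 71 (.S 71 71 70 70 (.C 70)) (.Y 0 0 (.Y 34 64 (.D 0 5 34 11 61 (.C 11)) (.R (.cons 1236 (.cons 1299 .nil (.cons 1237 (.cons 1301 .nil (.cons 1301 (.cons 1299 (.cons 1235 .nil (.cons 1235 (.cons 1363 (.cons 1364 .nil (.cons 1364 .nil .nil)) .nil) .nil))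 .nil) .nil)) .nil)) .nil))) (.Y 1 1 (.S 1 1 0 0 (.C 0)) (.R (.cons 1236 (.cons 1299 .nil (.cons 1364 (.cons 1301 (.cons 1237 .nil .nil) (.cons 1363 (.cons 1299 .nil .nil) .nil)) .nil)) .nil)))))))))) (.Y 43 43 (.S 43 43 42 42 (.C 42)) (.Y 56 56 (.Y 18 38 (.D 38 20 56 44 54 (.C 44)) (.Y 19 39 (.D 39 20 56 45 55 (.C 45)) (.Y 22 62 (.D 62 20 56 68 58 (.C 58)) (.Y 23 63 (.D 63 20 56 69 59 (.C 59)) (.R (.cons 1236 (.cons 1299 .nil (.cons 1299 .nil .nil)) .nil)))))) (.Y 14 14 (.D 50 14 20 56 56 (.C 56)) (.Y 15 15 (.S 15 15 14 14 (.C 14)) (.Y 57 57 (.D 20 57 50 15 15 (.C 15)) (.R (.cons 1299 (.cons 1236 (.cons 1237 (.cons 1173 .nil (.cons 1301 .nil .nil)) (.cons 1237 (.cons 1301 .nil .nil) .nil)) (.cons 1236 (.cons 1237 (.cons 1173 .nil (.cons 1301 .nil .nil)) (.cons 1237 (.cons 1301 .nil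 .nil) .nil)) .nil)) .nil)))))))))))))) (.Y 6 36 (.Y 0 0 (.D 25 0 6 31 41 (.C 31)) (.Y 1 1 (.S 1 1 0 0 (.C 0)) (.Y 18 38 (.D 25 6 38 27 17 (.C 17)) (.Y 19 39 (.D 25 6 39 26 16 (.C 16)) (.Y 28 28 (.D 5 28 25 0 0 (.C 0)) (.Y 29 29 (.D 5 29 25 1 1 (.C 1)) (.Y 32 52 (.D 36 5 32 45 55 (.C 45)) (.Y 33 53 (.D 36 5 33 44 54 (.C 44)) (.Y 42 42 (.D 6 42 36 0 0 (.C 0)) (.Y 43 43 (.D 6 43 36 1 1 (.C 1)) (.Y 4 24 (.Y 8 48 (.Y 21 51 (.D 25 8 51 26 16 (.C 16)) (.Y 34 64 (.D 48 4 34 58 68 (.C 58)) (.Y 35 65 (.D 24 5 35 34 64 (.C 34)) (.R (.cons 1237 (.cons 1301 .nil (.cons 1301 .nil .nil)) .nil))))) (.Y 9 49 (.D 4 25 9 8 48 (.C 8)) (.Y 14 14 (.Y 15 15 (.Y 21 51 (.D 14 15 21 20 50 (.C 20)) (.Y 57 57 (.S 15 57 20 50 (.C 20)) (.R (.cons 1299 (.cons 1236 (.cons 1235 .nil (.cons 1235 (.cons 1237 (.cons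 1301 (.cons 1238 .nil .nil) (.cons 1301 .nil .nil)) .nil) .nil)) .nil) .nil)))) (.R (.cons 1299 (.cons 1236 (.cons 1237 (.cons 1301 .nil .nil) (.cons 1237 (.cons 1301 (.cons 1364 .nil .nil) .nil) .nil)) (.cons 1236 (.cons 1235 .nil (.cons 1237 (.cons 1301 (.cons 1364 .nil .nil) .nil) .nil)) (.cons 1236 .nil .nil))) .nil))) (.Y 15 15 (.S 15 15 14 14 (.C 14)) (.R (.cons 1299 (.cons 1236 (.cons 1237 (.cons 1301 .nil .nil) (.cons 1237 (.cons 1301 (.cons 1364 .nil .nil) .nil) .nil)) (.cons 1236 (.cons 1235 .nil (.cons 1237 (.cons 1301 (.cons 1364 .nil .nil) .nil) .nil)) (.cons 1236 .nil .nil))) .nil)))))) (.Y 7 37 (.D 25 6 37 24 4 (.C 4)) (.Y 8 48 (.Y 9 49 (.D 25 8 49 24 4 (.C 4)) (.Y 21 51 (.D 25 8 51 26 16 (.C 16)) (.Y 34 64 (.D 48 5 34 59 69 (.C 59)) (.R (.cons 1237 (.cons 1301 .nil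 (.cons 1236 (.cons 1299 (.cons 1173 (.cons 1235 (.cons 1172 .nil .nil) .nil) .nil) .nil) .nil)) .nil))))) (.Y 9 49 (.Y 21 51 (.D 25 9 51 27 17 (.C 17)) (.Y 34 64 (.D 49 5 34 58 68 (.C 58)) (.R (.cons 1237 (.cons 1301 .nil (.cons 1236 .nil .nil)) .nil)))) (.Y 14 14 (.Y 15 15 (.Y 21 51 (.D 14 15 21 20 50 (.C 20)) (.Y 57 57 (.S 15 57 20 50 (.C 20)) (.R (.cons 1299 (.cons 1236 (.cons 1237 (.cons 1301 (.cons 1238 .nil .nil) .nil) .nil) .nil) .nil)))) (.R (.cons 1364 (.cons 1301 .nil (.cons 1301 .nil .nil)) .nil))) (.Y 15 15 (.S 15 15 14 14 (.C 14)) (.R (.cons 1364 (.cons 1301 .nil (.cons 1301 .nil .nil)) .nil)))))))))))))))))) (.Y 9 49 (.Y 21 51 (.D 25 9 51 27 17 (.C 17)) (.Y 34 64 (.D 49 5 34 58 68 (.C 58)) (.Y 35 65 (.D 49 5 35 59 69 (.C 59)) (.Y 7 37 (.Y 0 0 (.D 25 0 7 30 40 (.C 30))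 (.Y 1 1 (.S 1 1 0 0 (.C 0)) (.Y 4 24 (.D 4 25 7 6 36 (.C 6)) (.Y 8 48 (.D 25 8 49 24 4 (.C 4)) (.Y 18 38 (.D 25 7 38 26 16 (.C 16)) (.Y 19 39 (.D 25 7 39 27 17 (.C 17)) (.Y 28 28 (.D 5 28 25 0 0 (.C 0)) (.Y 29 29 (.D 5 29 25 1 1 (.C 1)) (.Y 32 52 (.D 5 32 49 0 0 (.C 0)) (.Y 33 53 (.D 5 33 49 1 1 (.C 1)) (.R (.cons 1237 (.cons 1301 .nil .nil) .nil)))))))))))) (.R (.cons 1236 (.cons 1237 .nil (.cons 1237 .nil (.cons 1237 .nil (.cons 1237 .nil (.cons 1237 .nil (.cons 1237 .nil .nil)))))) .nil)))))) (.Y 21 51 (.Y 8 48 (.D 25 8 51 26 16 (.C 16)) (.Y 15 15 (.S 15 15 14 14 (.D 14 15 21 20 50 (.C 20))) (.Y 32 52 (.D 5 32 51 2 12 (.C 2)) (.Y 33 53 (.D 5 33 51 3 13 (.C 3)) (.Y 57 57 (.D 21 57 51 15 15 (.C 15)) (.Y 42 42 (.Y 7 37 (.D 25 7 42 30 40 (.C 30)) (.Y 18 38 (.D 51 18 42 55 45 (.C 45))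 (.Y 19 39 (.D 51 19 42 54 44 (.C 44)) (.Y 70 70 (.T 20) (.Y 46 66 (.D 66 42 46 70 70 (.C 70)) (.Y 47 67 (.D 67 42 47 70 70 (.C 70)) (.Y 71 71 (.S 71 71 70 70 (.C 70)) (.Y 0 0 (.Y 34 64 (.D 0 5 34 11 61 (.C 11)) (.R (.cons 1236 (.cons 1299 .nil (.cons 1237 (.cons 1301 .nil .nil) .nil)) .nil))) (.R (.cons 1236 (.cons 1299 .nil (.cons 1237 (.cons 1301 .nil (.cons 1301 (.cons 1238 .nil .nil) .nil)) .nil)) .nil)))))))))) (.Y 43 43 (.S 43 43 42 42 (.C 42)) (.Y 0 0 (.Y 7 37 (.D 25 0 7 30 40 (.C 30)) (.Y 34 64 (.D 0 5 34 11 61 (.C 11)) (.Y 35 65 (.D 0 5 35 10 60 (.C 10)) (.Y 47 67 (.D 25 0 5 28 28 (.T 10)) (.R (.cons 1299 (.cons 1236 .nil (.cons 1236 (.cons 1237 .nil (.cons 1237 .nil .nil)) .nil)) .nil)))))) (.Y 1 1 (.S 1 1 0 0 (.C 0)) (.Y 28 28 (.D 5 28 25 0 0 (.C 0)) (.R (.cons 1299 (.cons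 1236 (.cons 1237 .nil (.cons 1235 .nil .nil)) (.cons 1236 (.cons 1237 .nil .nil) .nil)) .nil)))))))))))) (.Y 56 56 (.Y 32 52 (.D 5 32 56 9 49 (.C 9)) (.Y 7 37 (.Y 0 0 (.D 25 0 7 30 40 (.C 30)) (.Y 1 1 (.S 1 1 0 0 (.C 0)) (.Y 4 24 (.D 4 25 7 6 36 (.C 6)) (.Y 8 48 (.D 8 56 48 0 0 (.C 0)) (.Y 18 38 (.D 25 7 38 26 16 (.C 16)) (.Y 19 39 (.D 25 7 39 27 17 (.C 17)) (.Y 28 28 (.D 5 28 25 0 0 (.C 0)) (.Y 29 29 (.D 5 29 25 1 1 (.C 1)) (.Y 33 53 (.D 5 33 56 8 48 (.C 8)) (.R (.cons 1299 (.cons 1236 .nil (.cons 1236 (.cons 1237 (.cons 1301 (.cons 1364 .nil .nil) .nil) (.cons 1235 .nil .nil)) .nil)) .nil))))))))))) (.Y 0 0 (.Y 34 64 (.D 0 5 34 11 61 (.C 11)) (.Y 35 65 (.D 0 5 35 10 60 (.C 10)) (.R (.cons 1299 (.cons 1236 .nil (.cons 1236 .nil (.cons 1236 .nil (.cons 1236 .nil .nil)))) .nil))))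 (.Y 1 1 (.S 1 1 0 0 (.C 0)) (.R (.cons 1364 (.cons 1301 .nil (.cons 1301 .nil (.cons 1301 .nil .nil))) .nil)))))) (.Y 57 57 (.S 57 57 56 56 (.C 56)) (.Y 7 37 (.Y 0 0 (.D 25 0 7 30 40 (.C 30)) (.Y 1 1 (.S 1 1 0 0 (.C 0)) (.Y 4 24 (.D 4 25 7 6 36 (.C 6)) (.Y 18 38 (.D 25 7 38 26 16 (.C 16)) (.Y 19 39 (.D 25 7 39 27 17 (.C 17)) (.Y 28 28 (.D 5 28 25 0 0 (.C 0)) (.Y 29 29 (.D 5 29 25 1 1 (.C 1)) (.Y 32 52 (.D 37 5 32 44 54 (.C 44)) (.Y 33 53 (.D 37 5 33 45 55 (.C 45)) (.R (.cons 1299 (.cons 1236 (.cons 1237 (.cons 1301 (.cons 1173 (.cons 1238 (.cons 1174 .nil .nil) .nil) .nil) .nil) .nil) .nil) .nil))))))))))) (.R (.cons 1299 (.cons 1236 .nil (.cons 1236 .nil (.cons 1236 .nil .nil))) .nil)))))))))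

theorem chk6_2 : chk2 6 dl6 pats6 true TM6 tr6_2 (orL [5, 25]) (outQ [3, 2]) = true := by
  decide +kernel

end Pool.H3JG
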