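import Pool.Agent.Helper3.JG.Hex6

/-!
# Jigsaw tiles on a lattice: certificate for the hexagonal lattice, class 4
-/

namespace Pool.H3JG

/-- The decision tree. -/
def tr6_3 : Tr :=
  (.Y 1 1 (.S 1 1 0 0 (.D 0 1 4 5 25 (.C 5))) (.Y 29 29 (.D 4 29 24 1 1 (.C 1)) (.Y 6 36 (.Y 0 0 (.D 24 0 6 30 40 (.C 30)) (.Y 7 37 (.D 24 6 37 25 5 (.C 5)) (.Y 18 38 (.D 24 6 38 26 16 (.C 16)) (.Y 28 28 (.D 4 28 24 0 0 (.C 0)) (.Y 32 52 (.D 36 4 32 44 54 (.C 44)) (.Y 35 65 (.D 36 4 35 47 67 (.C 47)) (.Y 42 42 (.D 6 42 36 0 0 (.C 0)) (.Y 43 43 (.D 6 43 36 1 1 (.C 1)) (.Y 20 50 (.Y 8 48 (.D 24 8 50 26 16 (.C 16)) (.Y 34 64 (.T 3) (.R (.cons 1237 (.cons 1236 (.cons 1299 (.cons 1301 (.cons 1238 .nil .nil) .nil) .nil) .nil) .nil)))) (.R (.cons 1236 (.cons 1299 .nil (.cons 1237 (.cons 1301 .nil .nil) .nil)) .nil))))))))))) (.Y 0 0 (.Y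 7 37 (.D 24 0 7 31 41 (.C 31)) (.Y 34 64 (.D 0 4 34 10 60 (.C 10)) (.Y 35 65 (.D 0 4 35 11 61 (.C 11)) (.Y 20 50 (.Y 8 48 (.D 0 8 50 2 12 (.C 2)) (.Y 32 52 (.D 4 32 50 2 12 (.C 2)) (.Y 42 42 (.Y 18 38 (.D 50 18 42 54 44 (.C 44)) (.Y 70 70 (.D 24 0 4 28 28 (.T 21)) (.R (.cons 1237 (.cons 1236 .nil (.cons 1236 (.cons 1299 (.cons 1301 (.cons 1363 (.cons 1364 .nil .nil) .nil) .nil) .nil) .nil)) .nil)))) (.R (.cons 1237 (.cons 1236 .nil (.cons 1236 .nil .nil)) .nil))))) (.R (.cons 1237 (.cons 1236 .nil (.cons 1236 .nil (.cons 1236 .nil .nil))) .nil)))))) (.Y 28 28 (.D 4 28 24 0 0 (.C 0)) (.Y 7 37 (.Y 18 38 (.D 24 7 38 27 17 (.C 17)) (.R (.cons 1364 (.cons 1363 (.cons 1427 (.cons 1426 .nil .nil) (.cons 1427 .nil .nil)) (.cons 1301 (.cons 1365 .nil .nil) (.cons 1301 (.cons 1363 (.cons 1427 (.cons 1428 .nil .nil) .nil)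 .nil) .nil))) .nil))) (.Y 8 48 (.Y 20 50 (.D 24 8 50 26 16 (.C 16)) (.R (.cons 1364 (.cons 1301 (.cons 1237 (.cons 1236 .nil .nil) .nil) (.cons 1301 .nil .nil)) .nil))) (.R (.cons 1364 (.cons 1365 (.cons 1301 (.cons 1302 .nil .nil) .nil) .nil) .nil)))))))))

theorem chk6_3 : chk2 6 dl6 pats6 true TM6 tr6_3 (orL [4, 24]) (outQ [3, 2, 5]) = true := by
  decide +kernel

end Pool.H3JG
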