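import Pool.Agent.Helper3.JG.Hex6

/-!
# Jigsaw tiles on a lattice: certificate for the hexagonal lattice, class 6
-/

namespace Pool.H3JG

/-- The decision tree. -/
def tr6_4 : Tr :=
  (.Y 20 50 (.Y 34 64 (.T 3) (.Y 28 28 (.Y 70 70 (.Y 0 0 (.D 36 0 6 42 42 (.T 21)) (.Y 1 1 (.S 1 1 0 0 (.C 0)) (.Y 42 42 (.D 6 42 36 0 0 (.C 0)) (.Y 43 43 (.D 6 43 36 1 1 (.C 1)) (.Y 14 14 (.D 50 14 20 56 56 (.T 23)) (.R (.cons 1236 (.cons 1237 .nil (.cons 1237 .nil .nil)) .nil))))))) (.R (.cons 1363 (.cons 1299 .nil (.cons 1299 .nil .nil)) .nil))) (.R (.cons 1237 (.cons 1236 .nil (.cons 1236 .nil .nil)) .nil)))) (.Y 14 14 (.Y 56 56 (.Y 28 28 (.Y 70 70 (.T 23) (.Y 34 64 (.D 64 28 34 70 70 (.C 70)) (.R (.cons 1363 (.cons 1299 .nil (.cons 1299 .nil .nil)) .nil)))) (.Y 29 29 (.S 29 29 28 28 (.C 28)) (.Y 0 0 (.Y 34 64 (.D 36 0 6 42 42 (.T 14)) (.R (.cons 1237 (.cons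 1236 .nil .nil) .nil))) (.R (.cons 1237 (.cons 1236 .nil (.cons 1301 .nil .nil)) .nil))))) (.R (.cons 1299 (.cons 1236 .nil (.cons 1236 .nil .nil)) .nil))) (.R (.cons 1301 (.cons 1237 .nil (.cons 1237 .nil .nil)) .nil))))

theorem chk6_4 : chk2 6 dl6 pats6 true TM6 tr6_4 (orL [6, 36]) (outQ [3, 2, 5, 4]) = true := by
  decide +kernel

end Pool.H3JG
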