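import Pool.Agent.Helper3.JG.Hex6

/-!
# Jigsaw tiles on a lattice: certificate for the hexagonal lattice, class 0
-/

namespace Pool.H3JG

/-- The decision tree. -/
def tr6_5 : Tr :=
  (.R (.cons 1236 (.cons 1237 .nil (.cons 1237 .nil (.cons 1237 .nil .nil))) .nil))

theorem chk6_5 : chk2 6 dl6 pats6 true TM6 tr6_5 (orL [0, 0]) (outQ [3, 2, 5, 4, 6]) = true := by
  decide +kernel

end Pool.H3JG
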