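import Pool.Agent.Helper3.JG.Hex6

/-!
# Jigsaw tiles on a lattice: certificate for the hexagonal lattice, class 1
-/

namespace Pool.H3JG

/-- The decision tree. -/
def tr6_6 : Tr :=
  (.S 1 1 0 0 (.C 0))

theorem chk6_6 : chk2 6 dl6 pats6 true TM6 tr6_6 (orL [1, 1]) (outQ [3, 2, 5, 4, 6, 0]) = true := by
  decide +kernel

end Pool.H3JG
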