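import Pool.Agent.Helper3.JG.Lab

/-!
# Jigsaw tiles on a lattice: normalisation of a labelling at one cell
-/

namespace Pool.H3JG

variable {n : ℕ}

theorem linv_lmul_eq (a b : Lab n) : linv (lmul a b) = lmul (linv b) (linv a) := by
  obtain ⟨k, f⟩ := a
  obtain ⟨l, e⟩ := b
  cases f <;> cases e <;> simp [lmul, linv, sg] <;> ring

theorem linv_linv (a : Lab n) : linv (linv a) = a := by
  obtain ⟨k, f⟩ := a
  cases f <;> simp [linv]

theorem act_add_h {h : ZMod n} (hh : h + h = 0) (a : Lab n) (d : ZMod n) :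
    act a (d + h) = act a d + h := by
  obtain ⟨k, f⟩ := a
  have h1 : -h = h := neg_eq_of_add_eq_zero_left hh
  cases f
  · simp [act, sg, add_assoc]
  · simp only [act, sg, if_true, neg_add, h1, add_assoc]

theorem con_lmul {h : ZMod n} (hh : h + h = 0) (R : ZMod n → ZMod n → Bool → Prop) (d : ZMod n)
    (c x y : Lab n) : Con h R d (lmul c x) (lmul c y) ↔ Con h R (act (linv c) d) x y := by
  unfold Con
  rw [linv_lmul_eq, linv_lmul_eq, act_lmul, act_lmul, act_add_h hh (linv c)]
  have : xor (lmul c x).2 (lmul c y).2 = xor x.2 y.2 := by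
    unfold lmul
    cases c.2 <;> cases x.2 <;> cases y.2 <;> rfl
  rw [this]

theorem Grid.exists_root (G : Grid n) {R : ZMod n → ZMod n → Bool → Prop} {g : Z2 → Lab n}
    (hg : ∀ z d, Con G.h R d (g z) (g (z + G.dir d))) (p : Z2) :
    ∃ g' : Z2 → Lab n, (∀ z d, Con G.h R d (g' z) (g' (z + G.dir d))) ∧ g' p = (0, false) := by
  refine ⟨fun w => lmul (linv (g p)) (g (p + (G.mat (g p)).apZ (w - p))), ?_, ?_⟩
  · intro z d
    show Con G.h R d (lmul (linv (g p)) (g (p + (G.mat (g p)).apZ (z - p))))
      (lmul (linv (g p)) (g (p + (G.mat (g p)).apZ (z + G.dir d - p))))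
    rw [con_lmul G.h_add, linv_linv]
    have h1 : p + (G.mat (g p)).apZ (z + G.dir d - p)
        = p + (G.mat (g p)).apZ (z - p) + G.dir (act (g p) d) := by
      have h2 : z + G.dir d - p = (z - p) + G.dir d := by abel
      rw [h2, Mat.apZ_add, G.mat_dir, add_assoc]
    rw [h1]
    exact hg _ _
  · show lmul (linv (g p)) (g (p + (G.mat (g p)).apZ (p - p))) = (0, false)
    rw [sub_self, Mat.apZ_zero, add_zero, linv_lmul]

/-- Relabelling of the local edges. -/
def relab (c : Lab n) (R : ZMod n → ZMod n → Bool → Prop) : ZMod n → ZMod n → Bool → Prop :=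
  fun i j t => R (act c i) (act c j) t

theorem relab_closed {c : Lab n} {R : ZMod n → ZMod n → Bool → Prop} (hR : Closed R) :
    Closed (relab c R) where
  symm i j t h := hR.symm _ _ _ h
  chain i j k l s t u h1 h2 h3 := hR.chain _ _ _ _ _ _ _ h1 h2 h3

theorem relab_straight {c : Lab n} {R : ZMod n → ZMod n → Bool → Prop} (hR : Straight R) :
    Straight (relab c R) := fun i j t h1 h2 => hR _ _ _ h1 h2

theorem con_relab {h : ZMod n} {c : Lab n} {R : ZMod n → ZMod n → Bool → Prop}
    (d : ZMod n) (x y : Lab n) :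
    Con h (relab c R) d (lmul x c) (lmul y c) ↔ Con h R d x y := by
  unfold Con relab
  rw [linv_lmul_eq, linv_lmul_eq, act_lmul, act_lmul, act_act_linv, act_act_linv]
  have : xor (lmul x c).2 (lmul y c).2 = xor x.2 y.2 := by
    unfold lmul
    cases c.2 <;> cases x.2 <;> cases y.2 <;> rfl
  rw [this]

/-- A good relabelled relation comes from a good relation. -/
theorem good_of_relab {h : ZMod n} {mat : Lab n → Mat} {dir : ZMod n → Z2} {c : Lab n}
    {R : ZMod n → ZMod n → Bool → Prop} (hg : GoodR h mat dir (relab c R)) :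
    GoodR h mat dir R := by
  obtain ⟨g, h1, m, hm1, hm2, cc, h2, h3⟩ := hg
  have key : ∀ z a, IsSymR mat (fun w => lmul (g w) (linv c)) z a ↔ IsSymR mat g z a := by
    intro z a
    constructor
    · intro hs w
      have := hs w
      have h4 : lmul (lmul (g (mvR mat z a w)) (linv c)) c
          = lmul (lmul a (lmul (g w) (linv c))) c := by
        show lmul ((fun w => lmul (g w) (linv c)) (mvR mat z a w)) c = _
        rw [this]
      rw [lmul_assoc', linv_lmul, lmul_one, lmul_assoc', lmul_assoc', linv_lmul, lmul_one] at h4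
      exact h4
    · intro hs w
      show lmul (g (mvR mat z a w)) (linv c) = lmul a (lmul (g w) (linv c))
      rw [hs w, lmul_assoc']
  refine ⟨fun w => lmul (g w) (linv c), ?_, m, hm1, hm2, cc, ?_, ?_⟩
  · intro z d
    rw [← con_relab (c := c) (R := R)]
    show Con h (relab c R) d (lmul (lmul (g z) (linv c)) c)
      (lmul (lmul (g (z + dir d)) (linv c)) c)
    rw [lmul_assoc', linv_lmul, lmul_one, lmul_assoc', linv_lmul, lmul_one]
    exact h1 z d
  · intro w
    obtain ⟨z, a, i, h4, h5⟩ := h2 w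
    exact ⟨z, a, i, (key z a).2 h4, h5⟩
  · intro i j z a hs hz
    exact h3 i j z a ((key z a).1 hs) hz

end Pool.H3JG
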