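import Pool.Agent.Helper3.JG.Lab

/-!
# Jigsaw tiles on a lattice: the square lattice as a grid

Cover: for `p = (x, y)` let `(u, v)` be the fractional parts in `[0,1)`, and compare `v` with `u`
and `1 - u`: the point is in one of the four closed cells around the unit square
`z + [0,1]^2`: bottom (`v ≤ u`, `v ≤ 1-u`: cell of `z` in direction `0`), left (`u ≤ v`, `u ≤ 1-v`:
cell of `z` in direction `1`), top (cell of `z + (0,1)` in direction `0`), right (cell of
`z + (1,0)` in direction `1`). Closure of `U0`: a point `q` of the closed cell is the limit of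
`(1 - t) q + t (1/2, 0)`.
-/

namespace Pool.H3JG

open Set

theorem sqU0_open : IsOpen sqU0 := by
  have h1 : IsOpen {p : V | |p.2| < p.1} :=
    isOpen_lt (continuous_abs.comp continuous_snd) continuous_fst
  have h2 : IsOpen {p : V | |p.2| < 1 - p.1} :=
    isOpen_lt (continuous_abs.comp continuous_snd) (continuous_const.sub continuous_fst)
  exact h1.inter h2

private theorem GridSq_dir0 : toV (sqDir 0) = ((1 : ℝ), (0 : ℝ)) := by
  have h : sqDir 0 = (1, 0) := by decide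
  rw [h]
  simp [toV]

private theorem GridSq_m0 : sqMat (0, false) = ⟨1, 0, 0, 1⟩ := by decide

private theorem GridSq_m1 : sqMat (1, false) = ⟨0, -1, 1, 0⟩ := by decide

private theorem GridSq_m2 : sqMat (2, false) = ⟨-1, 0, 0, -1⟩ := by decide

private theorem GridSq_f0 : sqMat (0, true) = ⟨1, 0, 0, -1⟩ := by decide

private theorem GridSq_all : ∀ a : Lab 4, sqMat a = ⟨1, 0, 0, 1⟩ ∨ sqMat a = ⟨0, -1, 1, 0⟩ ∨
    sqMat a = ⟨-1, 0, 0, -1⟩ ∨ sqMat a = ⟨0, 1, -1, 0⟩ ∨ sqMat a = ⟨1, 0, 0, -1⟩ ∨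
    sqMat a = ⟨0, 1, 1, 0⟩ ∨ sqMat a = ⟨-1, 0, 0, 1⟩ ∨ sqMat a = ⟨0, -1, -1, 0⟩ := by decide

theorem sqU0_flip : ∀ p ∈ sqU0, (sqMat (0, true)).ap p ∈ sqU0 := by
  rintro ⟨x, y⟩ ⟨h1, h2⟩
  rw [GridSq_f0]
  simp only at h1 h2
  refine ⟨?_, ?_⟩ <;> simp only [Mat.ap, Int.cast_one, Int.cast_zero, Int.cast_neg, one_mul,
    zero_mul, add_zero, zero_add, neg_mul, abs_neg] <;> assumption

theorem sqU0_half : ∀ p ∈ sqU0, (sqMat (2, false)).ap (p - toV (sqDir 0)) ∈ sqU0 := by
  rintro ⟨x, y⟩ ⟨h1, h2⟩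
  rw [GridSq_m2, GridSq_dir0]
  simp only at h1 h2
  refine ⟨?_, ?_⟩ <;> simp only [Mat.ap, Int.cast_one, Int.cast_zero, Int.cast_neg, one_mul,
    zero_mul, add_zero, zero_add, neg_mul, abs_neg, Prod.mk_sub_mk, sub_zero] <;> linarith

theorem sqB_inv : ∀ a, ∀ p ∈ sqB, (sqMat a).ap p ∈ sqB := by
  rintro a ⟨x, y⟩ h
  have h1 : |x| + |y| ≤ 1 := h
  have h2 : |y| + |x| ≤ 1 := by linarith
  rcases GridSq_all a with e | e | e | e | e | e | e | e <;> rw [e] <;>
    show |_| + |_| ≤ (1 : ℝ) <;> simpa [Mat.ap] using (by first | exact h1 | exact h2)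

theorem sqB_sep : ∀ p ∈ sqU0, ∀ w : Z2, p - toV w ∈ sqB → w = 0 ∨ w = sqDir 0 := by
  rintro ⟨x, y⟩ ⟨h1, h2⟩ ⟨w1, w2⟩ hB
  have hd : sqDir 0 = (1, 0) := by decide
  rw [hd]
  simp only at h1 h2
  have hb : |x - (w1 : ℝ)| + |y - (w2 : ℝ)| ≤ 1 := hB
  have a1 := le_abs_self (x - (w1 : ℝ))
  have a2 := neg_le_abs (x - (w1 : ℝ))
  have a3 := le_abs_self (y - (w2 : ℝ))
  have a4 := neg_le_abs (y - (w2 : ℝ))
  have a5 := le_abs_self y
  have a6 := neg_le_abs y
  have a7 := abs_nonneg y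
  have hw2 : w2 = 0 := by
    by_contra hne
    rcases lt_or_gt_of_ne hne with hlt | hgt
    · have e1 : (w2 : ℝ) ≤ -1 := by exact_mod_cast (by omega : w2 ≤ -1)
      rcases le_or_gt w1 0 with h0 | h0
      · have e2 : (w1 : ℝ) ≤ 0 := by exact_mod_cast h0
        linarith
      · have e2 : (1 : ℝ) ≤ w1 := by exact_mod_cast (by omega : 1 ≤ w1)
        linarith
    · have e1 : (1 : ℝ) ≤ w2 := by exact_mod_cast (by omega : 1 ≤ w2)
      rcases le_or_gt w1 0 with h0 | h0
      · have e2 : (w1 : ℝ) ≤ 0 := by exact_mod_cast h0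
        linarith
      · have e2 : (1 : ℝ) ≤ w1 := by exact_mod_cast (by omega : 1 ≤ w1)
        linarith
  subst hw2
  have hw1 : w1 = 0 ∨ w1 = 1 := by
    by_contra hne
    have h0 : w1 ≤ -1 ∨ 2 ≤ w1 := by omega
    rcases h0 with h0 | h0
    · have e2 : (w1 : ℝ) ≤ -1 := by exact_mod_cast h0
      have := abs_nonneg (y - ((0 : ℤ) : ℝ))
      linarith
    · have e2 : (2 : ℝ) ≤ w1 := by exact_mod_cast h0
      have := abs_nonneg (y - ((0 : ℤ) : ℝ))
      linarith
  rcases hw1 with rfl | rfl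
  · exact Or.inl rfl
  · exact Or.inr rfl

private theorem GridSq_closure {q : V} (h1 : |q.2| ≤ q.1) (h2 : |q.2| ≤ 1 - q.1) :
    q ∈ closure sqU0 := by
  have hcont : Continuous fun t : ℝ => (((1 - t) * q.1 + t * (1 / 2), (1 - t) * q.2) : V) := by
    fun_prop
  have ht : Filter.Tendsto (fun t : ℝ => (((1 - t) * q.1 + t * (1 / 2), (1 - t) * q.2) : V))
      (nhdsWithin 0 (Set.Ioi 0)) (nhds q) := by
    have h := (hcont.tendsto 0).mono_left (nhdsWithin_le_nhds (s := Set.Ioi (0 : ℝ)))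
    have e : (((1 - (0 : ℝ)) * q.1 + 0 * (1 / 2), (1 - (0 : ℝ)) * q.2) : V) = q := by
      ext <;> simp
    rw [e] at h
    exact h
  refine mem_closure_of_tendsto ht ?_
  have hev : ∀ᶠ t : ℝ in nhdsWithin 0 (Set.Ioi 0), t ∈ Set.Ioo (0 : ℝ) 1 :=
    Ioo_mem_nhdsGT one_pos
  filter_upwards [hev] with t htt
  have hab : |(1 - t) * q.2| = (1 - t) * |q.2| := by
    rw [abs_mul, abs_of_pos (by linarith [htt.2])]
  have e1 := mul_le_mul_of_nonneg_left h1 (by linarith [htt.2] : (0 : ℝ) ≤ 1 - t)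
  have e2 := mul_le_mul_of_nonneg_left h2 (by linarith [htt.2] : (0 : ℝ) ≤ 1 - t)
  have h0 := htt.1
  refine ⟨?_, ?_⟩
  · show |(1 - t) * q.2| < (1 - t) * q.1 + t * (1 / 2)
    rw [hab]
    linarith
  · show |(1 - t) * q.2| < 1 - ((1 - t) * q.1 + t * (1 / 2))
    rw [hab]
    linarith

theorem sq_cover : ∀ p : V, ∃ z : Z2, ∃ i : ZMod 4, ∃ q ∈ closure sqU0,
    p = toV z + (sqMat (i, false)).ap q := by
  rintro ⟨x, y⟩
  have hu0 := Int.fract_nonneg x
  have hv0 := Int.fract_nonneg y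
  have hu1 := (Int.fract_lt_one x).le
  have hv1 := (Int.fract_lt_one y).le
  have hx : x = (⌊x⌋ : ℝ) + Int.fract x := (Int.floor_add_fract x).symm
  have hy : y = (⌊y⌋ : ℝ) + Int.fract y := (Int.floor_add_fract y).symm
  set u := Int.fract x
  set v := Int.fract y
  rcases le_total v u with h | h <;> rcases le_total v (1 - u) with h' | h'
  · refine ⟨(⌊x⌋, ⌊y⌋), 0, (u, v), GridSq_closure ?_ ?_, ?_⟩
    · show |v| ≤ u
      rw [abs_of_nonneg hv0]
      exact h
    · show |v| ≤ 1 - u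
      rw [abs_of_nonneg hv0]
      exact h'
    · rw [GridSq_m0]
      refine Prod.ext ?_ ?_
      · simp only [toV, Mat.ap, Prod.fst_add]
        push_cast
        linarith
      · simp only [toV, Mat.ap, Prod.snd_add]
        push_cast
        linarith
  · refine ⟨(⌊x⌋ + 1, ⌊y⌋), 1, (v, 1 - u), GridSq_closure ?_ ?_, ?_⟩
    · show |1 - u| ≤ v
      rw [abs_of_nonneg (by linarith)]
      linarith
    · show |1 - u| ≤ 1 - v
      rw [abs_of_nonneg (by linarith)]
      linarith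
    · rw [GridSq_m1]
      refine Prod.ext ?_ ?_
      · simp only [toV, Mat.ap, Prod.fst_add]
        push_cast
        linarith
      · simp only [toV, Mat.ap, Prod.snd_add]
        push_cast
        linarith
  · refine ⟨(⌊x⌋, ⌊y⌋), 1, (v, -u), GridSq_closure ?_ ?_, ?_⟩
    · show |(-u)| ≤ v
      rw [abs_neg, abs_of_nonneg hu0]
      exact h
    · show |(-u)| ≤ 1 - v
      rw [abs_neg, abs_of_nonneg hu0]
      linarith
    · rw [GridSq_m1]
      refine Prod.ext ?_ ?_
      · simp only [toV, Mat.ap, Prod.fst_add]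
        push_cast
        linarith
      · simp only [toV, Mat.ap, Prod.snd_add]
        push_cast
        linarith
  · refine ⟨(⌊x⌋, ⌊y⌋ + 1), 0, (u, v - 1), GridSq_closure ?_ ?_, ?_⟩
    · show |v - 1| ≤ u
      rw [abs_of_nonpos (by linarith)]
      linarith
    · show |v - 1| ≤ 1 - u
      rw [abs_of_nonpos (by linarith)]
      linarith
    · rw [GridSq_m0]
      refine Prod.ext ?_ ?_
      · simp only [toV, Mat.ap, Prod.fst_add]
        push_cast
        linarith
      · simp only [toV, Mat.ap, Prod.snd_add]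
        push_cast
        linarith

/-- The square lattice. -/
def gridSq : Grid 4 where
  h := 2
  mat := sqMat
  dir := sqDir
  U0 := sqU0
  B := sqB
  h_add := by decide
  mat_one := by decide
  mat_mul := by decide
  mat_dir := by decide
  dir_h := by decide
  dir_ne := by decide
  U0_open := sqU0_open
  U0_flip := sqU0_flip
  U0_half := sqU0_half
  B_inv := sqB_inv
  B_sep := sqB_sep
  cover := sq_cover

end Pool.H3JG
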