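import Pool.Agent.Helper3.JG.GridHex

/-!
# Jigsaw tiles on a lattice: the hexagonal lattice in the Euclidean plane

In lattice coordinates the squared norm is `x^2 + x y + y^2`, and a lattice point `u` is nearer to
`p` than `0` iff `2 <p, u> > |u|^2`. With `α = x + 2y`, `β = x - y`, `γ = 2x + y`: the six shortest
lattice vectors `(1,0), (0,1), (-1,1), (-1,0), (0,-1), (1,-1)` are nearer iff
`γ > 1, α > 1, -β > 1, -γ > 1, -α > 1, β > 1` respectively. So at most one of the six inequalities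
holds, and then `p` is in one of the six closed cells (see the header of `GridHex`).
-/

namespace Pool.H3JG

open Set

/-- Cartesian coordinates of a point given in hexagonal lattice coordinates. -/
noncomputable def hexF (p : V) : E := !₂[p.1 + p.2 / 2, Real.sqrt 3 / 2 * p.2]

theorem hexF_add (p q : V) : hexF (p + q) = hexF p + hexF q := by
  unfold hexF
  ext i
  fin_cases i
  · simp
    ring
  · simp
    ring

theorem RealHex_smul (c : ℝ) (p : V) : hexF (c • p) = c • hexF p := by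
  unfold hexF
  ext i
  fin_cases i
  · simp
    ring
  · simp
    ring

theorem RealHex_sub (p q : V) : hexF (p - q) = hexF p - hexF q := by
  have h := hexF_add (p - q) q
  rw [sub_add_cancel] at h
  rw [h, add_sub_cancel_right]

theorem RealHex_sq (p : V) : ‖hexF p‖ ^ 2 = p.1 ^ 2 + p.1 * p.2 + p.2 ^ 2 := by
  have h3 : Real.sqrt 3 ^ 2 = 3 := Real.sq_sqrt (by norm_num)
  rw [EuclideanSpace.norm_sq_eq, Fin.sum_univ_two]
  unfold hexF
  simp only [Real.norm_eq_abs, sq_abs]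
  show (p.1 + p.2 / 2) ^ 2 + (Real.sqrt 3 / 2 * p.2) ^ 2 = _
  linear_combination (p.2 ^ 2 / 4) * h3

theorem RealHex_norm {p q : V}
    (h : p.1 ^ 2 + p.1 * p.2 + p.2 ^ 2 = q.1 ^ 2 + q.1 * q.2 + q.2 ^ 2) :
    ‖hexF p‖ = ‖hexF q‖ := by
  have h1 : ‖hexF p‖ ^ 2 = ‖hexF q‖ ^ 2 := by rw [RealHex_sq, RealHex_sq, h]
  exact (sq_eq_sq₀ (norm_nonneg _) (norm_nonneg _)).1 h1

/-- The linear homeomorphism. -/
noncomputable def RealHex_F : V ≃ₜ E where
  toFun := hexF
  invFun e := (e 0 - e 1 / Real.sqrt 3, 2 * e 1 / Real.sqrt 3)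
  left_inv p := by
    have h3 : Real.sqrt 3 ≠ 0 := by positivity
    have e0 : hexF p 0 = p.1 + p.2 / 2 := rfl
    have e1 : hexF p 1 = Real.sqrt 3 / 2 * p.2 := rfl
    simp only [e0, e1]
    apply Prod.ext
    · simp only
      field_simp
      ring
    · simp only
      field_simp
  right_inv e := by
    have h3 : Real.sqrt 3 ≠ 0 := by positivity
    ext i
    fin_cases i
    · show (e 0 - e 1 / Real.sqrt 3) + (2 * e 1 / Real.sqrt 3) / 2 = e 0
      ring
    · show Real.sqrt 3 / 2 * (2 * e 1 / Real.sqrt 3) = e 1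
      field_simp
  continuous_toFun := by
    unfold hexF
    refine (PiLp.continuous_toLp 2 _).comp (continuous_pi fun i => ?_)
    fin_cases i
    · show Continuous fun p : V => p.1 + p.2 / 2
      fun_prop
    · show Continuous fun p : V => Real.sqrt 3 / 2 * p.2
      fun_prop
  continuous_invFun := by
    fun_prop

theorem RealHex_mat (a : Lab 6) : (hexMat a).a ^ 2 + (hexMat a).a * (hexMat a).c +
    (hexMat a).c ^ 2 = 1 ∧ (hexMat a).b ^ 2 + (hexMat a).b * (hexMat a).d + (hexMat a).d ^ 2 = 1 ∧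
    2 * (hexMat a).a * (hexMat a).b + (hexMat a).a * (hexMat a).d + (hexMat a).b * (hexMat a).c +
      2 * (hexMat a).c * (hexMat a).d = 1 := by
  revert a
  decide

theorem RealHex_inv (a : Lab 6) (p : V) : ‖hexF ((hexMat a).ap p)‖ = ‖hexF p‖ := by
  apply RealHex_norm
  obtain ⟨h1, h2, h3⟩ := RealHex_mat a
  have k1 : ((hexMat a).a : ℝ) ^ 2 + (hexMat a).a * (hexMat a).c + ((hexMat a).c : ℝ) ^ 2 = 1 := by
    exact_mod_cast h1
  have k2 : ((hexMat a).b : ℝ) ^ 2 + (hexMat a).b * (hexMat a).d + ((hexMat a).d : ℝ) ^ 2 = 1 := by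
    exact_mod_cast h2
  have k3 : 2 * ((hexMat a).a : ℝ) * (hexMat a).b + (hexMat a).a * (hexMat a).d +
      (hexMat a).b * (hexMat a).c + 2 * (hexMat a).c * (hexMat a).d = 1 := by
    exact_mod_cast h3
  simp only [Mat.ap]
  linear_combination (p.1 ^ 2) * k1 + (p.2 ^ 2) * k2 + (p.1 * p.2) * k3

theorem exists_realHex : ∃ re : Realiz gridHex, ∀ p, re.F p = hexF p := by
  refine ⟨⟨RealHex_F, fun z a => IsometryEquiv.mk
    (RealHex_F.symm.toEquiv.trans ((gridHex.plH z a).toEquiv.trans RealHex_F.toEquiv)) ?_, ?_⟩, ?_⟩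
  · refine Isometry.of_dist_eq fun x y => ?_
    obtain ⟨p, rfl⟩ := RealHex_F.surjective x
    obtain ⟨q, rfl⟩ := RealHex_F.surjective y
    have e1 : ∀ r : V, (RealHex_F.symm.toEquiv.trans ((gridHex.plH z a).toEquiv.trans
        RealHex_F.toEquiv)).toFun (RealHex_F r) = hexF (gridHex.pl z a r) := by
      intro r
      show RealHex_F (gridHex.plH z a (RealHex_F.symm (RealHex_F r))) = _
      rw [RealHex_F.symm_apply_apply]
      rfl
    rw [e1, e1]
    show dist _ _ = dist (hexF p) (hexF q)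
    rw [dist_eq_norm, dist_eq_norm, ← RealHex_sub, ← RealHex_sub]
    have e2 : gridHex.pl z a p - gridHex.pl z a q = (hexMat a).ap (p - q) := by
      rw [Mat.ap_sub]
      show toV z + (hexMat a).ap p - (toV z + (hexMat a).ap q) = _
      abel
    rw [e2, RealHex_inv]
  · intro z a p
    show RealHex_F (gridHex.plH z a (RealHex_F.symm (RealHex_F p))) = _
    rw [RealHex_F.symm_apply_apply]
    rfl
  · intro p
    rfl

theorem RealHex_bd {x y : ℤ} (h : x ^ 2 + x * y + y ^ 2 = 1) :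
    (-1 ≤ x ∧ x ≤ 1) ∧ -1 ≤ y ∧ y ≤ 1 := by
  refine ⟨⟨?_, ?_⟩, ?_, ?_⟩ <;> nlinarith [sq_nonneg (2 * x + y), sq_nonneg (x + 2 * y)]

theorem RealHex_fin (x y x' y' : Fin 3) :
    ((x : ℤ) - 1) ^ 2 + ((x : ℤ) - 1) * ((y : ℤ) - 1) + ((y : ℤ) - 1) ^ 2 = 1 →
    ((x' : ℤ) - 1) ^ 2 + ((x' : ℤ) - 1) * ((y' : ℤ) - 1) + ((y' : ℤ) - 1) ^ 2 = 1 →
    2 * ((x : ℤ) - 1) * ((x' : ℤ) - 1) + ((x : ℤ) - 1) * ((y' : ℤ) - 1) +
      ((x' : ℤ) - 1) * ((y : ℤ) - 1) + 2 * ((y : ℤ) - 1) * ((y' : ℤ) - 1) = 1 →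
    ∃ a : Lab 6, hexMat a = ⟨(x : ℤ) - 1, (x' : ℤ) - 1, (y : ℤ) - 1, (y' : ℤ) - 1⟩ := by
  revert x y x' y'
  decide

theorem RealHex_find {x y x' y' : ℤ} (h1 : x ^ 2 + x * y + y ^ 2 = 1)
    (h2 : x' ^ 2 + x' * y' + y' ^ 2 = 1)
    (h3 : 2 * x * x' + x * y' + x' * y + 2 * y * y' = 1) :
    ∃ a : Lab 6, hexMat a = ⟨x, x', y, y'⟩ := by
  obtain ⟨⟨a1, a2⟩, a3, a4⟩ := RealHex_bd h1
  obtain ⟨⟨b1, b2⟩, b3, b4⟩ := RealHex_bd h2
  have hf : ∀ u : ℤ, -1 ≤ u → u ≤ 1 → ∃ v : Fin 3, ((v : ℕ) : ℤ) - 1 = u := by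
    intro u h h'
    refine ⟨⟨(u + 1).toNat, by omega⟩, ?_⟩
    simp only
    omega
  obtain ⟨v1, rfl⟩ := hf x a1 a2
  obtain ⟨v2, rfl⟩ := hf y a3 a4
  obtain ⟨v3, rfl⟩ := hf x' b1 b2
  obtain ⟨v4, rfl⟩ := hf y' b3 b4
  exact RealHex_fin v1 v2 v3 v4 h1 h2 h3

theorem hex_label (L : E ≃ₗᵢ[ℝ] E)
    (hL : ∀ w ∈ range (fun z : Z2 => hexF (toV z)), L w ∈ range (fun z : Z2 => hexF (toV z))) :
    ∃ a : Lab 6, ∀ p : V, L (hexF p) = hexF ((hexMat a).ap p) := by
  obtain ⟨⟨x, y⟩, h1⟩ := hL _ ⟨(1, 0), rfl⟩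
  obtain ⟨⟨x', y'⟩, h2⟩ := hL _ ⟨(0, 1), rfl⟩
  simp only at h1 h2
  have n1 : x ^ 2 + x * y + y ^ 2 = 1 := by
    have h := RealHex_sq (toV (x, y))
    rw [h1, L.norm_map, RealHex_sq] at h
    simp only [toV] at h
    push_cast at h
    have h' : (x : ℝ) ^ 2 + x * y + (y : ℝ) ^ 2 = 1 := by linarith
    exact_mod_cast h'
  have n2 : x' ^ 2 + x' * y' + y' ^ 2 = 1 := by
    have h := RealHex_sq (toV (x', y'))
    rw [h2, L.norm_map, RealHex_sq] at h
    simp only [toV] at h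
    push_cast at h
    have h' : (x' : ℝ) ^ 2 + x' * y' + (y' : ℝ) ^ 2 = 1 := by linarith
    exact_mod_cast h'
  have n3 : 2 * x * x' + x * y' + x' * y + 2 * y * y' = 1 := by
    have h := RealHex_sq (toV (x, y) + toV (x', y'))
    rw [hexF_add, h1, h2, ← map_add, L.norm_map, ← hexF_add, RealHex_sq] at h
    simp only [toV, Prod.mk_add_mk] at h
    push_cast at h
    have n1' : (x : ℝ) ^ 2 + x * y + (y : ℝ) ^ 2 = 1 := by exact_mod_cast n1
    have n2' : (x' : ℝ) ^ 2 + x' * y' + (y' : ℝ) ^ 2 = 1 := by exact_mod_cast n2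
    have h' : 2 * (x : ℝ) * x' + x * y' + x' * y + 2 * y * y' = 1 := by nlinarith
    exact_mod_cast h'
  obtain ⟨a, ha⟩ := RealHex_find n1 n2 n3
  refine ⟨a, fun p => ?_⟩
  have e1 : p = p.1 • toV (1, 0) + p.2 • toV (0, 1) := by
    apply Prod.ext <;> simp [toV]
  have e2 : (hexMat a).ap p = p.1 • toV (x, y) + p.2 • toV (x', y') := by
    rw [ha]
    apply Prod.ext <;> simp [toV, Mat.ap] <;> ring
  rw [e2]
  conv_lhs => rw [e1]
  rw [hexF_add, hexF_add, RealHex_smul, RealHex_smul, RealHex_smul, RealHex_smul, map_add,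
    map_smul, map_smul, h1, h2]

theorem RealHex_near (p : V) (u : Z2)
    (h : (u.1 : ℝ) ^ 2 + u.1 * u.2 + (u.2 : ℝ) ^ 2 <
      2 * p.1 * u.1 + p.1 * u.2 + p.2 * u.1 + 2 * p.2 * u.2) :
    ‖hexF p - hexF (toV u)‖ < ‖hexF p‖ := by
  rw [← RealHex_sub]
  refine (sq_lt_sq₀ (norm_nonneg _) (norm_nonneg _)).1 ?_
  rw [RealHex_sq, RealHex_sq]
  simp only [toV, Prod.fst_sub, Prod.snd_sub]
  nlinarith

theorem hex_star (p : V) (h : ∀ u ∈ range (fun z : Z2 => hexF (toV z)),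
    ∀ w ∈ range (fun z : Z2 => hexF (toV z)),
      ‖hexF p - u‖ < ‖hexF p‖ → ‖hexF p - w‖ < ‖hexF p‖ → u = w) : p ∈ hexB := by
  have hh : ∀ u w : Z2, u ≠ w →
      (u.1 : ℝ) ^ 2 + u.1 * u.2 + (u.2 : ℝ) ^ 2 <
        2 * p.1 * u.1 + p.1 * u.2 + p.2 * u.1 + 2 * p.2 * u.2 →
      (w.1 : ℝ) ^ 2 + w.1 * w.2 + (w.2 : ℝ) ^ 2 <
        2 * p.1 * w.1 + p.1 * w.2 + p.2 * w.1 + 2 * p.2 * w.2 → False := by
    intro u w huw h1 h2
    have h3 := h _ ⟨u, rfl⟩ _ ⟨w, rfl⟩ (RealHex_near p u h1) (RealHex_near p w h2)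
    have h4 : toV u = toV w := RealHex_F.injective h3
    unfold toV at h4
    rw [Prod.mk.injEq] at h4
    exact huw (Prod.ext (by exact_mod_cast h4.1) (by exact_mod_cast h4.2))
  obtain ⟨x, y⟩ := p
  have c1 : ¬ (1 < 2 * x + y ∧ 1 < x + 2 * y) := fun k =>
    hh (1, 0) (0, 1) (by decide) (by push_cast; linarith [k.1]) (by push_cast; linarith [k.2])
  have c2 : ¬ (1 < 2 * x + y ∧ 1 < x - y) := fun k =>
    hh (1, 0) (1, -1) (by decide) (by push_cast; linarith [k.1]) (by push_cast; linarith [k.2])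
  have c3 : ¬ (1 < x + 2 * y ∧ 1 < -(x - y)) := fun k =>
    hh (0, 1) (-1, 1) (by decide) (by push_cast; linarith [k.1]) (by push_cast; linarith [k.2])
  have c4 : ¬ (1 < -(2 * x + y) ∧ 1 < -(x - y)) := fun k =>
    hh (-1, 0) (-1, 1) (by decide) (by push_cast; linarith [k.1]) (by push_cast; linarith [k.2])
  have c5 : ¬ (1 < x - y ∧ 1 < -(x + 2 * y)) := fun k =>
    hh (1, -1) (0, -1) (by decide) (by push_cast; linarith [k.1]) (by push_cast; linarith [k.2])
  have c6 : ¬ (1 < -(2 * x + y) ∧ 1 < -(x + 2 * y)) := fun k =>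
    hh (-1, 0) (0, -1) (by decide) (by push_cast; linarith [k.1]) (by push_cast; linarith [k.2])
  rcases le_total 0 (x + 2 * y) with ha | ha <;> rcases le_total 0 (x - y) with hb | hb
  · refine ⟨0, ?_⟩
    rw [GridHex_m0]
    refine ⟨ha, ?_, hb, ?_⟩
    · by_contra hc
      simp only at hc ha hb
      exact c1 ⟨by linarith, by linarith⟩
    · by_contra hc
      simp only at hc ha hb
      exact c2 ⟨by linarith, by linarith⟩
  · rcases le_total 0 (2 * x + y) with hg | hg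
    · refine ⟨5, ?_⟩
      rw [GridHex_m5]
      refine ⟨by simp only; linarith, ?_, by simp only; linarith, ?_⟩
      · by_contra hc
        simp only at hc
        exact c3 ⟨by linarith, by linarith⟩
      · by_contra hc
        simp only at hc
        exact c1 ⟨by linarith, by linarith⟩
    · refine ⟨4, ?_⟩
      rw [GridHex_m4]
      refine ⟨by simp only; linarith, ?_, by simp only; linarith, ?_⟩
      · by_contra hc
        simp only at hc
        exact c4 ⟨by linarith, by linarith⟩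
      · by_contra hc
        simp only at hc
        exact c3 ⟨by linarith, by linarith⟩
  · rcases le_total 0 (2 * x + y) with hg | hg
    · refine ⟨1, ?_⟩
      rw [GridHex_m1]
      refine ⟨by simp only; linarith, ?_, by simp only; linarith, ?_⟩
      · by_contra hc
        simp only at hc
        exact c2 ⟨by linarith, by linarith⟩
      · by_contra hc
        simp only at hc
        exact c5 ⟨by linarith, by linarith⟩
    · refine ⟨2, ?_⟩
      rw [GridHex_m2]
      refine ⟨by simp only; linarith, ?_, by simp only; linarith, ?_⟩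
      · by_contra hc
        simp only at hc
        exact c5 ⟨by linarith, by linarith⟩
      · by_contra hc
        simp only at hc
        exact c6 ⟨by linarith, by linarith⟩
  · refine ⟨3, ?_⟩
    rw [GridHex_m3]
    refine ⟨by simp only; linarith, ?_, by simp only; linarith, ?_⟩
    · by_contra hc
      simp only at hc
      exact c6 ⟨by linarith, by linarith⟩
    · by_contra hc
      simp only at hc
      exact c4 ⟨by linarith, by linarith⟩

end Pool.H3JG
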