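import Pool.Agent.Helper3.JG.GridSq

/-!
# Jigsaw tiles on a lattice: the square lattice in the Euclidean plane

Star: write `p = (x, y)`. If `|x| + |y| > 1` then the lattice point `(sign x, sign y)` is nearer to
`p` than `0`, and at least one of `(sign x, 0)`, `(0, sign y)` (the one of the coordinate larger
than `1/2` in absolute value) is nearer too.
-/

namespace Pool.H3JG

open Set

/-- Standard coordinates. -/
noncomputable def sqF (p : V) : E := !₂[p.1, p.2]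

private theorem RealSq_norm (p : V) : ‖sqF p‖ = √(p.1 ^ 2 + p.2 ^ 2) := by
  rw [EuclideanSpace.norm_eq, Fin.sum_univ_two]
  simp [sqF]

private theorem RealSq_sub (p q : V) : sqF p - sqF q = sqF (p - q) := by
  ext i
  fin_cases i <;> simp [sqF]

private theorem RealSq_smul (c : ℝ) (p : V) : c • sqF p = sqF (c • p) := by
  ext i
  fin_cases i <;> simp [sqF]

theorem sqF_add (p q : V) : sqF (p + q) = sqF p + sqF q := by
  ext i
  fin_cases i <;> simp [sqF]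

/-- Standard coordinates as a homeomorphism. -/
private noncomputable def RealSq_F : V ≃ₜ E where
  toFun := sqF
  invFun := fun q => (q 0, q 1)
  left_inv p := by simp [sqF]
  right_inv q := by
    ext i
    fin_cases i <;> simp [sqF]
  continuous_toFun := by
    unfold sqF
    fun_prop
  continuous_invFun := by fun_prop

private theorem RealSq_all : ∀ a : Lab 4, sqMat a = ⟨1, 0, 0, 1⟩ ∨ sqMat a = ⟨0, -1, 1, 0⟩ ∨
    sqMat a = ⟨-1, 0, 0, -1⟩ ∨ sqMat a = ⟨0, 1, -1, 0⟩ ∨ sqMat a = ⟨1, 0, 0, -1⟩ ∨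
    sqMat a = ⟨0, 1, 1, 0⟩ ∨ sqMat a = ⟨-1, 0, 0, 1⟩ ∨ sqMat a = ⟨0, -1, -1, 0⟩ := by decide

private theorem RealSq_norm_ap (a : Lab 4) (p : V) : ‖sqF ((sqMat a).ap p)‖ = ‖sqF p‖ := by
  rw [RealSq_norm, RealSq_norm]
  congr 1
  rcases RealSq_all a with e | e | e | e | e | e | e | e <;> rw [e] <;> simp [Mat.ap] <;> ring

theorem exists_realSq : ∃ re : Realiz gridSq, ∀ p, re.F p = sqF p := by
  have hiso : ∀ (z : Z2) (a : Lab 4), Isometry
      (((RealSq_F.symm.trans (gridSq.plH z a)).trans RealSq_F).toEquiv : E → E) := by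
    intro z a
    refine Isometry.of_dist_eq fun q q' => ?_
    obtain ⟨p, rfl⟩ := RealSq_F.surjective q
    obtain ⟨p', rfl⟩ := RealSq_F.surjective q'
    have h1 : ∀ p : V, (((RealSq_F.symm.trans (gridSq.plH z a)).trans RealSq_F).toEquiv : E → E)
        (RealSq_F p) = sqF (toV z + (sqMat a).ap p) := by
      intro p
      change RealSq_F (gridSq.plH z a (RealSq_F.symm (RealSq_F p))) = _
      rw [Homeomorph.symm_apply_apply]
      rfl
    have h2 : ∀ p : V, RealSq_F p = sqF p := fun _ => rfl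
    rw [h1, h1, h2, h2, dist_eq_norm, dist_eq_norm, RealSq_sub, RealSq_sub,
      add_sub_add_left_eq_sub, ← Mat.ap_sub, RealSq_norm_ap]
  exact ⟨⟨RealSq_F, fun z a => ⟨_, hiso z a⟩, fun z a p => by
    change RealSq_F (gridSq.plH z a (RealSq_F.symm (RealSq_F p))) = _
    rw [Homeomorph.symm_apply_apply]
    rfl⟩, fun p => rfl⟩

private theorem RealSq_unit (x y : ℤ) (h : x ^ 2 + y ^ 2 = 1) :
    (x = 1 ∧ y = 0) ∨ (x = 0 ∧ y = 1) ∨ (x = -1 ∧ y = 0) ∨ (x = 0 ∧ y = -1) := by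
  have h1 : x ≤ 1 := by nlinarith [sq_nonneg y, sq_nonneg (x - 1)]
  have h2 : -1 ≤ x := by nlinarith [sq_nonneg y, sq_nonneg (x + 1)]
  have h3 : y ≤ 1 := by nlinarith [sq_nonneg x, sq_nonneg (y - 1)]
  have h4 : -1 ≤ y := by nlinarith [sq_nonneg x, sq_nonneg (y + 1)]
  interval_cases x <;> interval_cases y <;> simp_all

theorem sq_label (L : E ≃ₗᵢ[ℝ] E)
    (hL : ∀ w ∈ range (fun z : Z2 => sqF (toV z)), L w ∈ range (fun z : Z2 => sqF (toV z))) :
    ∃ a : Lab 4, ∀ p : V, L (sqF p) = sqF ((sqMat a).ap p) := by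
  obtain ⟨z, hz⟩ := hL _ ⟨(1, 0), rfl⟩
  obtain ⟨w, hw⟩ := hL _ ⟨(0, 1), rfl⟩
  simp only at hz hw
  have hlin : ∀ p : V, L (sqF p) = p.1 • sqF (toV z) + p.2 • sqF (toV w) := by
    intro p
    rw [hz, hw, ← map_smul, ← map_smul, ← map_add, RealSq_smul, RealSq_smul, ← sqF_add]
    congr 2
    ext <;> simp [toV]
  have hn : ∀ p : V, ‖p.1 • sqF (toV z) + p.2 • sqF (toV w)‖ = ‖sqF p‖ := fun p => by
    rw [← hlin, LinearIsometryEquiv.norm_map]
  have hn' : ∀ p : V, (p.1 * z.1 + p.2 * w.1) ^ 2 + (p.1 * z.2 + p.2 * w.2) ^ 2 =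
      p.1 ^ 2 + p.2 ^ 2 := by
    intro p
    have h := hn p
    rw [RealSq_smul, RealSq_smul, ← sqF_add, RealSq_norm, RealSq_norm,
      Real.sqrt_inj (by positivity) (by positivity)] at h
    simpa [toV] using h
  have e1 : z.1 ^ 2 + z.2 ^ 2 = 1 := by
    have := hn' (1, 0)
    simp only [one_mul, zero_mul, add_zero] at this
    norm_num at this
    exact_mod_cast this
  have e2 : w.1 ^ 2 + w.2 ^ 2 = 1 := by
    have := hn' (0, 1)
    simp only [one_mul, zero_mul, zero_add] at this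
    norm_num at this
    exact_mod_cast this
  have e3 : (z.1 + w.1) ^ 2 + (z.2 + w.2) ^ 2 = 2 := by
    have := hn' (1, 1)
    simp only [one_mul] at this
    norm_num at this
    exact_mod_cast this
  obtain ⟨a, ha⟩ : ∃ a : Lab 4, sqMat a = ⟨z.1, w.1, z.2, w.2⟩ := by
    obtain ⟨z1, z2⟩ := z
    obtain ⟨w1, w2⟩ := w
    simp only at e1 e2 e3 ⊢
    rcases RealSq_unit z1 z2 e1 with ⟨rfl, rfl⟩ | ⟨rfl, rfl⟩ | ⟨rfl, rfl⟩ | ⟨rfl, rfl⟩ <;>
      rcases RealSq_unit w1 w2 e2 with ⟨rfl, rfl⟩ | ⟨rfl, rfl⟩ | ⟨rfl, rfl⟩ | ⟨rfl, rfl⟩ <;>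
      first
        | (exfalso; norm_num at e3; done)
        | decide
  refine ⟨a, fun p => ?_⟩
  rw [hlin, RealSq_smul, RealSq_smul, ← sqF_add, ha]
  congr 1
  ext <;> simp [toV, Mat.ap, mul_comm]

private theorem RealSq_sign (x : ℝ) : ∃ s : ℤ, (s : ℝ) * x = |x| ∧ (s : ℝ) ^ 2 = 1 := by
  rcases le_total 0 x with h | h
  · exact ⟨1, by rw [abs_of_nonneg h]; simp, by simp⟩
  · exact ⟨-1, by rw [abs_of_nonpos h]; simp, by simp⟩

theorem sq_star (p : V) (h : ∀ u ∈ range (fun z : Z2 => sqF (toV z)),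
    ∀ w ∈ range (fun z : Z2 => sqF (toV z)),
      ‖sqF p - u‖ < ‖sqF p‖ → ‖sqF p - w‖ < ‖sqF p‖ → u = w) : p ∈ sqB := by
  obtain ⟨x, y⟩ := p
  change |x| + |y| ≤ 1
  by_contra hcon
  rw [not_le] at hcon
  obtain ⟨s, hs, hs'⟩ := RealSq_sign x
  obtain ⟨t, ht, ht'⟩ := RealSq_sign y
  have key : ∀ u v : ℤ, (x - u) ^ 2 + (y - v) ^ 2 < x ^ 2 + y ^ 2 →
      ‖sqF (x, y) - sqF (toV (u, v))‖ < ‖sqF (x, y)‖ := by
    intro u v huv
    rw [RealSq_sub, RealSq_norm, RealSq_norm]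
    exact Real.sqrt_lt_sqrt (by positivity) (by simpa [toV] using huv)
  have h1 : ‖sqF (x, y) - sqF (toV (s, t))‖ < ‖sqF (x, y)‖ := key s t (by nlinarith)
  have hinj : ∀ u v u' v' : ℤ, sqF (toV (u, v)) = sqF (toV (u', v')) → u = u' ∧ v = v' := by
    intro u v u' v' huv
    have h3 := RealSq_F.injective (a₁ := toV (u, v)) (a₂ := toV (u', v')) huv
    simpa [toV] using h3
  have hs0 : s ≠ 0 := by
    rintro rfl
    norm_num at hs'
  have ht0 : t ≠ 0 := by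
    rintro rfl
    norm_num at ht'
  rcases lt_or_ge (1 / 2) |x| with h2 | h2
  · have h3 : ‖sqF (x, y) - sqF (toV (s, 0))‖ < ‖sqF (x, y)‖ := key s 0 (by
      push_cast
      nlinarith)
    exact ht0 (hinj _ _ _ _ (h _ ⟨(s, t), rfl⟩ _ ⟨(s, 0), rfl⟩ h1 h3)).2
  · have h3 : ‖sqF (x, y) - sqF (toV (0, t))‖ < ‖sqF (x, y)‖ := key 0 t (by
      push_cast
      nlinarith)
    exact hs0 (hinj _ _ _ _ (h _ ⟨(s, t), rfl⟩ _ ⟨(0, t), rfl⟩ h1 h3)).1

end Pool.H3JG
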