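import Pool.Agent.Helper3.JG.TileFit
import Pool.Agent.Helper3.JG.GridHex

/-!
# Jigsaw tiles on a lattice: mirror-matched edges of the hexagonal lattice are straight

Notation: `α = x + 2y`, `β = x - y`, `γ = 2x + y`; `U0 = {0<α<1, 0<β<1}`; the edge line is `γ = 1`.

Step 1. Let `rel i i true`, i.e. `FitAt 0 (-i, false) (3 + i, true)`. Put
`A = tile T 0 (-i, false)` (the copy of `T` whose local edge `i` points in direction `0`); the other
tile is `μ '' A` with `μ = pl (dir 0) (3, true)` the reflection in the line `γ = 1` (`μ` fixes the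
points of that line and maps `U0` to itself). Hence no point of `U0` with `γ = 1` is in
`interior A`, and every such point is in `A`.

Step 2. Points with `1 ≤ α, 0 ≤ β` or `1 ≤ β, 0 ≤ α` are not in `interior B` (move a little in
direction `α, β` increasing and leave `B`). So the part of `interior A` in the closed flap
`{α ≤ 1, β ≤ 1, 1 ≤ γ}` (`0 ≤ α, 0 ≤ β` is automatic) is in the open flap
`F = U0 ∩ {γ > 1}`, and `interior A` (preconnected) is inside `F` or disjoint from it.

Step 3. If `interior A ⊆ F` then `A ⊆ {γ ≥ 1, α ≤ 1, β ≤ 1}`: then no copy meets the open hexagon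
`{|α|<1, |β|<1, |γ|<1}` around its own lattice point, and a copy meets the open half cell
`U d` minus the line only in one direction. In the tiling the half cell
`U 0 ∩ {γ < 1}` can be covered only by the tile at `dir 0` (`Grid.sep`), and the half cell
`U 1 ∩ own half` around `dir 0` ... : the tile at `z` would have to point in all six directions;
contradiction. (Concretely: for all six directions `d` the half cell of `U d` next to `0` is covered
by the tile at `dir d`; apply this with `z` and `z + dir d` exchanged: the tile at `0` covers for all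
six `d` the half cell of `U d` next to `dir d`, but it is inside one closed flap.)

Step 4. So `interior A ∩ F = ∅`, hence `A ∩ F = ∅` (`A = closure (interior A)`, `F` open), so
`F ⊆ U0 \ A = U0 ∩ interior (μ '' A)` and by applying `μ`: `U0 ∩ {γ < 1} ⊆ interior A`. Together:
`U0 ∩ interior A = U0 ∩ {γ < 1}` and `U0 ∩ A = U0 ∩ {γ ≤ 1}`.

Step 5. For `rel i i true` and `rel j j true` the second tile of `rel i j t` is
`pl (dir 0) (3, t) '' (tile T 0 (-j, false))`, the map `pl (dir 0) (3, t)` maps `U0` onto itself and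
exchanges `γ` and `2 - γ` (both for `t = false` and `t = true`), so `Fit` holds.
-/

namespace Pool.H3JG

open Set

/-- The closed flap. -/
private def Straight_Fc : Set V :=
  {p | p.1 + 2 * p.2 ≤ 1 ∧ p.1 - p.2 ≤ 1 ∧ 1 ≤ 2 * p.1 + p.2}

/-- The open flap. -/
private def Straight_F : Set V :=
  {p | p.1 + 2 * p.2 < 1 ∧ p.1 - p.2 < 1 ∧ 1 < 2 * p.1 + p.2}

private theorem Straight_F_open : IsOpen Straight_F := by
  have h1 : IsOpen {p : V | p.1 + 2 * p.2 < 1} := isOpen_lt (by fun_prop) (by fun_prop)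
  have h2 : IsOpen {p : V | p.1 - p.2 < 1} := isOpen_lt (by fun_prop) (by fun_prop)
  have h3 : IsOpen {p : V | 1 < 2 * p.1 + p.2} := isOpen_lt (by fun_prop) (by fun_prop)
  exact h1.inter (h2.inter h3)

private theorem Straight_Fc_closed : IsClosed Straight_Fc := by
  have h1 : IsClosed {p : V | p.1 + 2 * p.2 ≤ 1} := isClosed_le (by fun_prop) (by fun_prop)
  have h2 : IsClosed {p : V | p.1 - p.2 ≤ 1} := isClosed_le (by fun_prop) (by fun_prop)
  have h3 : IsClosed {p : V | 1 ≤ 2 * p.1 + p.2} := isClosed_le (by fun_prop) (by fun_prop)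
  exact h1.inter (h2.inter h3)

private theorem Straight_U : gridHex.U 0 = hexU0 := gridHex.mat_flip_U0 false

private theorem Straight_tile (T : Set V) (j : ZMod 6) (t : Bool) :
    gridHex.tile T (gridHex.dir 0) (gridHex.h - sg t j, t)
      = gridHex.plH (gridHex.dir 0) (3, t) '' gridHex.tile T 0 (-j, false) := by
  rw [Grid.plH_coe, Grid.pl_tile]
  have h1 : mvR gridHex.mat (gridHex.dir 0) (3, t) 0 = gridHex.dir 0 := by
    simp [mvR, Mat.apZ_zero]
  have h2 : lmul ((3 : ZMod 6), t) (-j, false) = (gridHex.h - sg t j, t) := by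
    show ((3 : ZMod 6) + sg t (-j), xor t false) = ((3 : ZMod 6) - sg t j, t)
    cases t <;> simp [sg, sub_eq_add_neg]
  rw [h1, h2]

private theorem Straight_e (t : Bool) (p : V) :
    gridHex.plH (gridHex.dir 0) (3, t) p =
      if t then (1 - p.1 - p.2, p.2) else (1 - p.1, -p.2) := by
  show toV (hexDir 0) + (hexMat (3, t)).ap p = _
  rw [show hexDir 0 = (1, 0) from rfl]
  cases t
  · rw [GridHex_m3]
    simp [toV, sub_eq_add_neg]
  · rw [show hexMat (3, true) = ⟨-1, -1, 0, 1⟩ from rfl]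
    simp only [Mat.ap, toV, if_true, Prod.mk_add_mk]
    push_cast
    refine Prod.ext ?_ ?_ <;> simp only <;> ring

private theorem Straight_star {p : V} (hp : p ∈ interior hexB) :
    ¬ (1 ≤ p.1 + 2 * p.2 ∧ 0 ≤ p.1 - p.2) ∧ ¬ (1 ≤ p.1 - p.2 ∧ 0 ≤ p.1 + 2 * p.2) := by
  have hc : Continuous (fun t : ℝ => ((p.1 + t, p.2) : V)) := by fun_prop
  have hev : ∀ᶠ t in nhdsWithin (0 : ℝ) (Ioi 0), ((p.1 + t, p.2) : V) ∈ interior hexB := by
    have h0 := hc.tendsto 0
    have e0 : ((p.1 + 0, p.2) : V) = p := Prod.ext (by simp) rfl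
    rw [e0] at h0
    exact (h0.mono_left nhdsWithin_le_nhds).eventually (isOpen_interior.mem_nhds hp)
  obtain ⟨t, ht, ht0⟩ := (hev.and self_mem_nhdsWithin).exists
  have ht0' : 0 < t := ht0
  obtain ⟨i, hi⟩ := interior_subset ht
  have key : ¬ (1 < p.1 + t + 2 * p.2 ∧ 0 < p.1 + t - p.2) ∧
      ¬ (1 < p.1 + t - p.2 ∧ 0 < p.1 + t + 2 * p.2) := by
    rcases GridHex_cases i with rfl | rfl | rfl | rfl | rfl | rfl
    · rw [GridHex_m0] at hi
      obtain ⟨k1, k2, k3, k4⟩ := hi
      simp only at k1 k2 k3 k4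
      constructor <;> rintro ⟨a, b⟩ <;> linarith
    · rw [GridHex_m1] at hi
      obtain ⟨k1, k2, k3, k4⟩ := hi
      simp only at k1 k2 k3 k4
      constructor <;> rintro ⟨a, b⟩ <;> linarith
    · rw [GridHex_m2] at hi
      obtain ⟨k1, k2, k3, k4⟩ := hi
      simp only at k1 k2 k3 k4
      constructor <;> rintro ⟨a, b⟩ <;> linarith
    · rw [GridHex_m3] at hi
      obtain ⟨k1, k2, k3, k4⟩ := hi
      simp only at k1 k2 k3 k4
      constructor <;> rintro ⟨a, b⟩ <;> linarith
    · rw [GridHex_m4] at hi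
      obtain ⟨k1, k2, k3, k4⟩ := hi
      simp only at k1 k2 k3 k4
      constructor <;> rintro ⟨a, b⟩ <;> linarith
    · rw [GridHex_m5] at hi
      obtain ⟨k1, k2, k3, k4⟩ := hi
      simp only at k1 k2 k3 k4
      constructor <;> rintro ⟨a, b⟩ <;> linarith
  constructor
  · rintro ⟨a, b⟩
    exact key.1 ⟨by linarith, by linarith⟩
  · rintro ⟨a, b⟩
    exact key.2 ⟨by linarith, by linarith⟩

private theorem Straight_sub {T : Set V} (hB : T ⊆ gridHex.B) (a : Lab 6) :
    gridHex.tile T 0 a ⊆ hexB := by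
  rintro _ ⟨x, hx, rfl⟩
  rw [Grid.pl_zero]
  exact gridHex.B_inv a x (hB hx)

private theorem Straight_pre {T : Set V} (hc : IsPreconnected (interior T)) (a : Lab 6) :
    IsPreconnected (interior (gridHex.tile T 0 a)) := by
  have h : interior (gridHex.tile T 0 a) = gridHex.plH 0 a '' interior T := by
    unfold Grid.tile
    rw [← gridHex.plH_coe, ← Homeomorph.image_interior]
  rw [h]
  exact hc.image _ (gridHex.plH 0 a).continuous.continuousOn

private theorem Straight_flap {T : Set V} {i : ZMod 6}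
    (hA : gridHex.tile T 0 (-i, false) ⊆ Straight_Fc) (a : Lab 6) {p : V}
    (hp : p ∈ gridHex.tile T 0 a) :
    ∃ r ∈ Straight_Fc, p = (hexMat (act a i, false)).ap r := by
  obtain ⟨x, hx, rfl⟩ := hp
  have h1 : (hexMat (-i, false)).ap x ∈ Straight_Fc := by
    apply hA
    refine ⟨x, hx, ?_⟩
    rw [Grid.pl_zero]
    rfl
  have h2 : (hexMat (0, a.2)).ap ((hexMat (-i, false)).ap x) ∈ Straight_Fc := by
    cases a.2
    · rw [GridHex_m0]
      exact h1
    · rw [GridHex_flip]
      obtain ⟨k1, k2, k3⟩ := h1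
      refine ⟨?_, ?_, ?_⟩ <;> simp only <;> linarith
  refine ⟨_, h2, ?_⟩
  rw [Grid.pl_zero, ← Mat.ap_mul, ← GridHex_mul, ← Mat.ap_mul, ← GridHex_mul]
  have h3 : lmul (lmul ((act a i, false) : Lab 6) (0, a.2)) (-i, false) = a := by
    obtain ⟨k, f⟩ := a
    cases f <;> simp [lmul, act, sg]
  rw [h3]
  rfl

private theorem Straight_no {T : Set V} (hB : T ⊆ gridHex.B) {g : Z2 → Lab 6}
    (ht : gridHex.Tiles T g) {i : ZMod 6}
    (hA : gridHex.tile T 0 (-i, false) ⊆ Straight_Fc) : False := by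
  obtain ⟨e0, he0⟩ : ∃ e0 : ZMod 6, e0 = act (g 0) i := ⟨_, rfl⟩
  have hq : (((3 / 4 : ℝ), (0 : ℝ)) : V) ∈ hexU0 := by
    refine ⟨?_, ?_, ?_, ?_⟩ <;> norm_num
  obtain ⟨z, hz⟩ := ht.1 ((hexMat (e0 + 1, false)).ap ((3 / 4 : ℝ), (0 : ℝ)))
  have hU : (hexMat (e0 + 1, false)).ap ((3 / 4 : ℝ), (0 : ℝ)) ∈ gridHex.U (e0 + 1) :=
    ⟨_, hq, rfl⟩
  rcases gridHex.sep hB hU hz with rfl | rfl
  · obtain ⟨r, hr, hpr⟩ := Straight_flap hA _ hz
    rw [← he0] at hpr
    have h1 := congrArg (hexMat (-e0, false)).ap hpr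
    rw [← Mat.ap_mul, ← GridHex_mul, ← Mat.ap_mul, ← GridHex_mul] at h1
    have e1 : lmul ((-e0, false) : Lab 6) (e0 + 1, false) = (1, false) := by
      simp [lmul, sg]
    have e2 : lmul ((-e0, false) : Lab 6) (e0, false) = (0, false) := by
      simp [lmul, sg]
    rw [e1, e2, GridHex_m1, GridHex_m0] at h1
    obtain ⟨k1, k2, k3⟩ := hr
    have h2 := congrArg Prod.fst h1
    have h3 := congrArg Prod.snd h1
    simp only at h2 h3
    linarith
  · obtain ⟨x, hx, hxp⟩ := hz
    have hmem : (hexMat (g (gridHex.dir (e0 + 1)))).ap x ∈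
        gridHex.tile T 0 (g (gridHex.dir (e0 + 1))) := by
      refine ⟨x, hx, ?_⟩
      rw [Grid.pl_zero]
      rfl
    obtain ⟨r, hr, hpr⟩ := Straight_flap hA _ hmem
    obtain ⟨e', he'⟩ : ∃ e' : ZMod 6, e' = act (g (gridHex.dir (e0 + 1))) i := ⟨_, rfl⟩
    rw [← he'] at hpr
    have hdir : gridHex.dir (e0 + 1) = (gridHex.mat (e0 + 1, false)).apZ (gridHex.dir 0) := by
      rw [gridHex.mat_dir]
      simp [act, sg]
    have h0 : (hexMat (g (gridHex.dir (e0 + 1)))).ap x =
        (hexMat (e0 + 1, false)).ap (((3 / 4 : ℝ), (0 : ℝ)) - toV (hexDir 0)) := by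
      have h4 : toV (gridHex.dir (e0 + 1)) =
          (hexMat (e0 + 1, false)).ap (toV (hexDir 0)) := by
        rw [hdir, toV_apZ]
        rfl
      rw [Mat.ap_sub, ← h4, ← hxp]
      unfold Grid.pl
      rw [add_sub_cancel_left]
      rfl
    rw [h0] at hpr
    have h1 := congrArg (hexMat (-e', false)).ap hpr
    rw [← Mat.ap_mul, ← GridHex_mul, ← Mat.ap_mul, ← GridHex_mul] at h1
    have e1 : lmul ((-e', false) : Lab 6) (e0 + 1, false) = (-e' + (e0 + 1), false) := by
      simp [lmul, sg]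
    have e2 : lmul ((-e', false) : Lab 6) (e', false) = (0, false) := by
      simp [lmul, sg]
    rw [e1, e2, GridHex_m0, show hexDir 0 = (1, 0) from rfl] at h1
    simp only [toV, Prod.mk_sub_mk, Int.cast_one, Int.cast_zero] at h1
    obtain ⟨k1, k2, k3⟩ := hr
    generalize -e' + (e0 + 1) = k at h1
    rcases GridHex_cases k with rfl | rfl | rfl | rfl | rfl | rfl
    · rw [GridHex_m0] at h1
      have h2 := congrArg Prod.fst h1
      have h3 := congrArg Prod.snd h1
      simp only at h2 h3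
      linarith
    · rw [GridHex_m1] at h1
      have h2 := congrArg Prod.fst h1
      have h3 := congrArg Prod.snd h1
      simp only at h2 h3
      linarith
    · rw [GridHex_m2] at h1
      have h2 := congrArg Prod.fst h1
      have h3 := congrArg Prod.snd h1
      simp only at h2 h3
      linarith
    · rw [GridHex_m3] at h1
      have h2 := congrArg Prod.fst h1
      have h3 := congrArg Prod.snd h1
      simp only at h2 h3
      linarith
    · rw [GridHex_m4] at h1
      have h2 := congrArg Prod.fst h1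
      have h3 := congrArg Prod.snd h1
      simp only at h2 h3
      linarith
    · rw [GridHex_m5] at h1
      have h2 := congrArg Prod.fst h1
      have h3 := congrArg Prod.snd h1
      simp only at h2 h3
      linarith

private theorem Straight_key {T : Set V} (hT : closure (interior T) = T)
    (hc : IsPreconnected (interior T)) (hB : T ⊆ gridHex.B) {g : Z2 → Lab 6}
    (ht : gridHex.Tiles T g) {i : ZMod 6} (h : gridHex.rel T i i true) (p : V)
    (hp : p ∈ hexU0) :
    (p ∈ interior (gridHex.tile T 0 (-i, false)) ↔ 2 * p.1 + p.2 < 1) ∧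
      (p ∈ gridHex.tile T 0 (-i, false) ↔ 2 * p.1 + p.2 ≤ 1) := by
  have hfit : gridHex.FitAt T 0 (-i, false) (gridHex.h - sg true i, true) := h
  unfold Grid.FitAt at hfit
  rw [Straight_tile, Straight_U] at hfit
  have hreg := gridHex.tile_regular hT 0 (-i, false)
  have hsubB := Straight_sub hB (-i, false)
  have hpre := Straight_pre hc (-i, false)
  have hno := Straight_no hB ht (i := i)
  have he : ∀ q : V, gridHex.plH (gridHex.dir 0) (3, true) q = (1 - q.1 - q.2, q.2) := by
    intro q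
    rw [Straight_e]
    rfl
  generalize gridHex.tile T 0 (-i, false) = A at *
  generalize gridHex.plH (gridHex.dir 0) (3, true) = e at *
  obtain ⟨hf1, hf2⟩ := hfit
  rw [← Homeomorph.image_interior] at hf1
  -- Step 1
  have s1 : ∀ q ∈ hexU0, 2 * q.1 + q.2 = 1 → e q = q := by
    intro q _ hq1
    rw [he]
    exact Prod.ext (by simp only; linarith) rfl
  have s2 : ∀ q ∈ hexU0, 2 * q.1 + q.2 = 1 → q ∉ interior A := by
    intro q hq hq1 hqA
    have h1 : q ∈ hexU0 \ (e '' A) := by
      rw [← hf2]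
      exact ⟨hq, hqA⟩
    exact h1.2 ⟨q, interior_subset hqA, s1 q hq hq1⟩
  have s3 : ∀ q ∈ hexU0, 2 * q.1 + q.2 = 1 → q ∈ A := by
    intro q hq hq1
    by_contra hqA
    have h1 : q ∈ hexU0 ∩ e '' interior A := by
      rw [hf1]
      exact ⟨hq, hqA⟩
    obtain ⟨-, r, hr, hrq⟩ := h1
    have h2 : r = q := e.injective (by rw [hrq, s1 q hq hq1])
    rw [h2] at hr
    exact s2 q hq hq1 hr
  -- Step 2
  have hF' : IsOpen {q : V | 1 < q.1 + 2 * q.2 ∨ 1 < q.1 - q.2 ∨ 2 * q.1 + q.2 < 1} := by
    have h1 : IsOpen {p : V | 1 < p.1 + 2 * p.2} := isOpen_lt (by fun_prop) (by fun_prop)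
    have h2 : IsOpen {p : V | 1 < p.1 - p.2} := isOpen_lt (by fun_prop) (by fun_prop)
    have h3 : IsOpen {p : V | 2 * p.1 + p.2 < 1} := isOpen_lt (by fun_prop) (by fun_prop)
    exact h1.union (h2.union h3)
  have hcov : interior A ⊆ Straight_F ∪
      {q : V | 1 < q.1 + 2 * q.2 ∨ 1 < q.1 - q.2 ∨ 2 * q.1 + q.2 < 1} := by
    intro q hq
    by_cases hq' : 1 < q.1 + 2 * q.2 ∨ 1 < q.1 - q.2 ∨ 2 * q.1 + q.2 < 1
    · exact Or.inr hq'
    · left
      push Not at hq'
      obtain ⟨k1, k2, k3⟩ := hq'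
      have hst := Straight_star (interior_mono hsubB hq)
      have a1 : q.1 + 2 * q.2 < 1 := by
        by_contra hcon
        push Not at hcon
        exact hst.1 ⟨hcon, by linarith⟩
      have a2 : q.1 - q.2 < 1 := by
        by_contra hcon
        push Not at hcon
        exact hst.2 ⟨hcon, by linarith⟩
      refine ⟨a1, a2, lt_of_le_of_ne k3 fun heq => ?_⟩
      exact s2 q ⟨by linarith, a1, by linarith, a2⟩ heq.symm hq
  have s4 : interior A ∩ Straight_F = ∅ := by
    by_contra hne
    have hne' : (interior A ∩ Straight_F).Nonempty := nonempty_iff_ne_empty.2 hne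
    by_cases hne2 : (interior A ∩
        {q : V | 1 < q.1 + 2 * q.2 ∨ 1 < q.1 - q.2 ∨ 2 * q.1 + q.2 < 1}).Nonempty
    · obtain ⟨q, -, ⟨k1, k2, k3⟩, hq3⟩ := hpre _ _ Straight_F_open hF' hcov hne' hne2
      rcases hq3 with hq3 | hq3 | hq3
      · exact absurd hq3 (not_lt.2 k1.le)
      · exact absurd hq3 (not_lt.2 k2.le)
      · exact absurd hq3 (not_lt.2 k3.le)
    · apply hno
      have h1 : interior A ⊆ Straight_Fc := by
        intro q hq
        rcases hcov hq with h2 | h2
        · exact ⟨h2.1.le, h2.2.1.le, h2.2.2.le⟩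
        · exact absurd ⟨q, hq, h2⟩ hne2
      have h2 := closure_minimal h1 Straight_Fc_closed
      rwa [hreg] at h2
  -- Step 4
  have s5 : ∀ q ∈ Straight_F, q ∉ A := by
    intro q hq hqA
    rw [← hreg] at hqA
    obtain ⟨r, hr1, hr2⟩ := mem_closure_iff.1 hqA _ Straight_F_open hq
    have : r ∈ interior A ∩ Straight_F := ⟨hr2, hr1⟩
    rw [s4] at this
    exact this
  have s6 : ∀ q ∈ hexU0, 2 * q.1 + q.2 < 1 → q ∈ interior A := by
    intro q hq hq1
    obtain ⟨k1, k2, k3, k4⟩ := hq
    have h1 : e q ∈ hexU0 := by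
      rw [he]
      refine ⟨?_, ?_, ?_, ?_⟩ <;> simp only <;> linarith
    have h2 : e q ∈ Straight_F := by
      rw [he]
      refine ⟨?_, ?_, ?_⟩ <;> simp only <;> linarith
    have h3 : e q ∈ hexU0 ∩ e '' interior A := by
      rw [hf1]
      exact ⟨h1, s5 _ h2⟩
    obtain ⟨-, r, hr, hrq⟩ := h3
    rw [e.injective hrq] at hr
    exact hr
  have s7 : ∀ q ∈ hexU0, 1 < 2 * q.1 + q.2 → q ∉ A := by
    intro q hq hq1
    obtain ⟨k1, k2, k3, k4⟩ := hq
    exact s5 q ⟨k2, k4, hq1⟩
  rcases lt_trichotomy (2 * p.1 + p.2) 1 with hlt | heq | hgt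
  · exact ⟨⟨fun _ => hlt, fun _ => s6 p hp hlt⟩,
      ⟨fun _ => hlt.le, fun _ => interior_subset (s6 p hp hlt)⟩⟩
  · exact ⟨⟨fun hh => absurd hh (s2 p hp heq), fun hh => absurd heq hh.ne⟩,
      ⟨fun _ => heq.le, fun _ => s3 p hp heq⟩⟩
  · exact ⟨⟨fun hh => absurd (interior_subset hh) (s7 p hp hgt),
      fun hh => absurd hh (not_lt.2 hgt.le)⟩,
      ⟨fun hh => absurd hh (s7 p hp hgt), fun hh => absurd hh (not_le.2 hgt)⟩⟩

theorem straight_hex {T : Set V} (hT : closure (interior T) = T)
    (hc : IsPreconnected (interior T)) (hB : T ⊆ gridHex.B) {g : Z2 → Lab 6}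
    (ht : gridHex.Tiles T g) : Straight (gridHex.rel T) := by
  intro i j t hi hj
  have ki := Straight_key hT hc hB ht hi
  have kj := Straight_key hT hc hB ht hj
  show gridHex.FitAt T 0 (-i, false) (gridHex.h - sg t j, t)
  unfold Grid.FitAt
  rw [Straight_tile, Straight_U]
  have he := Straight_e t
  generalize gridHex.tile T 0 (-i, false) = A at *
  generalize gridHex.tile T 0 (-j, false) = A' at *
  generalize gridHex.plH (gridHex.dir 0) (3, t) = e at *
  -- `e` is an involution of the cell exchanging the two halves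
  have h1 : ∀ q ∈ hexU0, e q ∈ hexU0 := by
    rintro q ⟨k1, k2, k3, k4⟩
    rw [he]
    cases t <;> refine ⟨?_, ?_, ?_, ?_⟩ <;> simp <;> linarith
  have h2 : ∀ q, e (e q) = q := by
    intro q
    rw [he, he]
    cases t
    · simp
    · refine Prod.ext ?_ ?_
      · simp only [if_true]
        ring
      · simp
  have h3 : ∀ q, 2 * (e q).1 + (e q).2 = 2 - (2 * q.1 + q.2) := by
    intro q
    rw [he]
    cases t <;> simp <;> ring
  have h4 : ∀ (X : Set V) (q : V), q ∈ e '' X ↔ e q ∈ X := by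
    intro X q
    constructor
    · rintro ⟨r, hr, rfl⟩
      rw [h2]
      exact hr
    · intro hq
      exact ⟨e q, hq, h2 q⟩
  constructor
  · ext q
    rw [← Homeomorph.image_interior, mem_inter_iff, mem_sdiff]
    refine and_congr_right fun hq => ?_
    rw [h4, (kj (e q) (h1 q hq)).1, (ki q hq).2, h3]
    constructor
    · intro hh hcon
      linarith
    · intro hh
      push Not at hh
      linarith
  · ext q
    rw [mem_inter_iff, mem_sdiff]
    refine and_congr_right fun hq => ?_
    rw [h4, (kj (e q) (h1 q hq)).2, (ki q hq).1, h3]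
    constructor
    · intro hh hcon
      linarith
    · intro hh
      push Not at hh
      linarith

end Pool.H3JG
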