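import Pool.Agent.Helper3.JG.Fast

/-!
# Jigsaw tiles on a lattice: certificate for the square lattice
-/

namespace Pool.H3JG

/-- Directions of the square lattice, as differences of cell codes (shifted by 4096). -/
def dl4 : List (ℕ × ℕ) := [(0, 4160), (1, 4097), (2, 4032), (3, 4095)]

/-- Pairs of labels with a given contact bit. -/
def pats4 : List (ℕ × ℕ × List ℕ) := [
  (0, 3665807669244402919869905533729064556146846209486253846671366344561541105833614459841666339423867626919791785306783366863625019666997185572091259388349006983378148678835260530605446341815819195757026133659564847875841761324061296086032594329507830169600, [80, 97, 370, 387, 532, 549, 822, 839]),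
  (1, 1832945786141613288491404552192560122075118497915742407689974346279357922639471321089035335676771238417288946048659665205711752526726797647293622315760051419259779726667622658021253365299681539687990499552009651111113023686467306179658695285583485337600, [96, 81, 386, 371, 548, 533, 838, 823]),
  (2, 15744403932561434696684479815185473654446368786236792817179447587314683444552987005667523162714668598183639226412060588707542847743439808054668420588665531013254183593970372855140661847057969295026842923473238833411315365771865416368681401472631263538169344163840, [48, 129, 338, 291, 628, 581, 790, 871]),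
  (3, 7872201966280717348342249675192003741072218689776292972932200079924415428890903489157043664410357813335683411041247088835847682037797134849686609255716067380421803565568535734262507965198916576354144779123490727728300929134101282894237338650619996891674144931840, [128, 49, 290, 339, 580, 629, 870, 791]),
  (4, 67622215897993213706191633426135333170161011294465386982302923842044168388493747564346023232312457836890254145653017923034512624556694745167651031147300829992200965405085809119214834680601877466352625175380238162720873735588054488286269701703315743465686591781444270489600, [16, 33, 306, 323, 596, 613, 886, 903]),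
  (5, 33811881817938700112734028148299477888703335989995441716037391550966947486096322109603882344947425188361550252132838102735390876749572072118571431792450022476245045667059682452183911524854743886153657494251829504996457110792992569433106312590937166275694978005937871257600, [32, 17, 322, 307, 612, 597, 902, 887]),
  (6, 120120269260876057185385931749495192002017365817790091115911646834444735486817860120442555599998576378143523962731716087771894253631944979679325489275056053168405078694259172099183976097541531261924758454562251645604272031175661923076828305363473495899504640, [112, 65, 274, 355, 564, 645, 854, 807]),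
  (7, 240240538521750834112000750566969760672490913154083130438225408795525525246270491050959213141025437046429512239108732865199713708916516322692218835348091645405053397061761314992606634418071775867317520430764607718968592637975751721449954865378899606414295040, [64, 113, 354, 275, 644, 565, 806, 855]),
  (8, 57284799756851893834912865422020984315059377206443885784598095071053356297816490180064967212816473816711158037273655781809572948810808018018092718234222508124265350146662968469391237929567752619440548634501247357662105395717448427712401024265391964160, [99, 86, 368, 389, 530, 551, 833, 820]),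
  (9, 458223336685587125698959955133131329268249814112493263061777594695280927621535301782195657167214612118468457874648293038092762095885069491041316273487607260496742412870830802564331560771521880480983223398976833096921760285570586719153755312039615528960, [83, 102, 384, 373, 546, 535, 817, 836]),
  (10, 246006311446272417135696523299658481139636121137746225946940788281022195479641982326599409520639441775315795395871075853109251581451218826435799449065884236063603145561150762019712152919330555925783656466649576363253727263902717590147979801212039528140473630720, [131, 54, 336, 293, 626, 583, 865, 788]),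
  (11, 1968050491570179337085559366423230024690231454738480566876026180522643332781930923359345652977337044811472325908221237589797940126236764561356690893903942948756271310975343346614471359037121452058253609200492069303094628643744463868979361438025136098165622046720, [51, 134, 288, 341, 578, 631, 785, 868]),
  (12, 1056718040428346035977714809038335096974833042532701081736909689710825020421691106854115604566674846486017187785113212862716831702347607835964455026105117045165245369558698819365029246045512045924779651928970505677949905551508153112567734093876134495952485579891366952960, [35, 22, 304, 325, 594, 615, 897, 884]),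
  (13, 8452728620440270884546565963564928439793699515385501608732494878383967092821127925078823485556260724586531109384091054289989444173287231498904699557262274904790434924516664498033458980465637495016797805926209389050704208903565135988205792629983254691461426551893076213760, [19, 38, 320, 309, 610, 599, 881, 900]),
  (14, 30030067315218814255913496541745575604950619816713608436228242778859246098633538345934097055072457438757275713881398403548757908323792933297068129447624180309906481767133857508833736319488783286885365784387690069842717266896844054978557588034547484846981120, [67, 118, 272, 357, 562, 647, 801, 852]),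
  (15, 3753758414402456803216504925423013708284531336899506084472106768161644591923384953134679671394852490205491902441610838922968277778312229061248896793253097550452455208258894852804775840156955077807665715575976575897313043236253047213955185187425190485688320, [115, 70, 352, 277, 642, 567, 849, 804]),
  (16, 229112979327775182491869095858066534759177888092890865416960396535096319114600903740104146213991726682486986581673960428976563729187329122049821967018781460317903384077565911116368519906122643432166163338654320176463475201554313433158091093090867609600, [84, 101, 374, 391, 528, 545, 818, 835]),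
  (17, 114559111633850830530712784512035007629694906119733900480623396642459870164966957568064708479798202401080559128041229075356984532920427364910402844784790913050855263751310450533249105899822738514089904197574838721361861235795828231461208441547757977600, [100, 85, 390, 375, 544, 529, 834, 819]),
  (18, 984025245785089668542779988449092103402898049139799551073715474207167715284561687854220197669666787386477451650753786794221427983964988003416776286791595688337310457580263055506443816775559850921055252714778846636983581107574670864538008759522326929290077143040, [52, 133, 342, 295, 624, 577, 786, 867]),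
  (19, 492012622892544834271390604699500233817013668111018310808262504995275964305681468072315229025647363333480213190077943052240480127362320928105413078482254211294210688762262892398642687122110513769034230611135340368332709555526783706737724899533093657199132016640, [132, 53, 294, 343, 576, 625, 866, 787]),
  (20, 4226388493624575856636977089133458323135063205904086686393932740127760524280859222771626452019528614805640884103313620189657039034793421572978189446706301874512560337817863342291352024149514022820300424681337062739153706709020828741345716947813739924034143354450319769600, [20, 37, 310, 327, 592, 609, 882, 899]),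
  (21, 2113242613621168757045876759268717368043958499374715107252336971935434217881020131850242646559214074272596890758302381420961929796848254507410714487028126404765315354191230289434823563653161597183224990904041781433236865184254629664769369720124029259583206969886742937600, [36, 21, 326, 311, 608, 593, 898, 883]),
  (22, 7507516828804753574086620734343449500126085363611880694744477927152795967926116257527659724999911023633970247670732255485743390851996561229957843080860687617180253889312717396573148312270673032391810464013695014271332003109383665221540012831475913656893440, [116, 69, 278, 359, 560, 641, 850, 803]),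
  (23, 15015033657609427132000046910435610042030682072130195652389088049720345327891905690684950821314089815401844514944295804074982106807282270168263677209840569984893305551820842482880117753768768432036636088470641093146671041987603194475533591464501691275018240, [68, 117, 358, 279, 640, 561, 802, 851]),
  (24, 916445362386192631755530791974761788411446647188342292237483590203105999939237350715384996479977807987021057007937530084238666898850981432631770194361048948685435910310777701680870695177255546718749332670378422128532192520568397149054216610081469890560, [82, 103, 385, 372, 547, 534, 816, 837]),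
  (25, 28652887758278904056569379043017453157953536896375813980871841035173520579574267882083025097617593147703842367453823334379597147712455224321044514513498235954809021885829582414328167562726861762089632497807430472129088453968004351548300691254919823360, [98, 87, 369, 388, 531, 550, 832, 821]),
  (26, 3936100983140358674171118427608982958322680587706401866116349977099440598917849276951923159116040945284685543176969879867303721744253692438134624437153845805138956108284197920309587645633188477741569438078119402038338539655615427001695104324528081157828714168320, [50, 135, 289, 340, 579, 630, 784, 869]),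
  (27, 123003155723136208567850703549645969032076634733347254059089465707279524393423487744120225523575599448623847156739736547073690332244917118805999464878767586480479514926412707682900336877148260173072657580042615937287675193993502472548149379182137960762252984320, [130, 55, 337, 292, 627, 582, 864, 789]),
  (28, 16905433057476101354729437819778862776349185582559667335437304455832157207771960589925432257737816672970635309588695245061699018632120793026543678591400092140914828105147324222297449219776445128327348010026685547081013399499672118886532032666953417427690488970976078069760, [18, 39, 321, 308, 611, 598, 880, 901]),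
  (29, 528552487449696332898410263327120374393124106957037597089937252341628333173207635284775484481136490722114388719138891735892056968979978801668706567752460392618763425908543882826638169161207311206726052604912858747980013525495407878776732481757890883689163318749623746560, [34, 23, 305, 324, 595, 614, 896, 885]),
  (30, 1876879207201388433954641579214084770585242978636884516435788993251315511882346125308077093068890708834937912015142833254493488682577819113928466296879106391695822644974076077122552642204888370970332417582975234478650449665073039194942074732120566891806720, [114, 71, 353, 276, 643, 566, 848, 805]),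
  (31, 60060134630437608507783694443928328970345867469653825438181517734005412425032159420651532362792765933718075421376417907102820599687032424861673087401452994860165955312224860990170529752069644202531468193064715508962972789541915604564556864169793168521297920, [66, 119, 273, 356, 563, 646, 800, 853])]

/-- Masks of the templates. -/
def TM4 : List ℕ := [17043520, 34087040, 67190800, 67256352, 134316048, 134381600, 34604160, 68173825, 68173826, 135299073, 18876480, 69222401, 69222402, 136347650, 272630020, 272631810, 545260040, 545260545, 1073808400, 1073873952, 1073809424, 1074274305, 1074790920, 1074791425, 1075840002, 1075841026, 2147550224, 2147551248, 2147616800, 2147749890, 2148534273, 2148534274, 2149581060, 2149581826, 2149582849, 2149582850, 306451080, 289940040, 579080580, 562569540, 1074923553, 1209041922, 1210090497, 2148664353]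

/-- The decision tree. -/
def tr4 : Tr :=
  (.Y 6 24 (.Y 12 18 (.T 0) (.Y 13 19 (.Y 7 25 (.T 1) (.Y 4 16 (.D 24 4 19 27 15 (.T 4)) (.Y 15 27 (.D 6 27 13 4 16 (.C 4)) (.Y 5 17 (.D 24 5 19 26 14 (.T 3)) (.Y 14 26 (.D 6 26 13 5 17 (.C 5)) (.Y 11 11 (.D 19 11 13 21 21 (.T 10)) (.Y 21 21 (.D 13 21 19 11 11 (.C 11)) (.Y 2 8 (.D 24 2 13 29 23 (.T 39)) (.Y 23 29 (.D 6 29 19 2 8 (.C 2)) (.Y 30 30 (.D 6 30 24 0 0 (.T 21)) (.Y 0 0 (.D 24 0 6 30 30 (.C 30)) (.Y 3 9 (.D 24 3 13 28 22 (.T 37)) (.R (.cons 1301 (.cons 1364 (.cons 1365 (.cons 1237 (.cons 1236 (.cons 1235 (.cons 1299 (.cons 1363 .nil (.cons 1363 (.cons 1172 (.cons 1173 .nil (.cons 1171 .nil .nil)) (.cons 1172 (.cons 1173 .nil (.cons 1171 .nil .nil)) .nil)) .nil)) (.cons 1299 (.cons 1363 .nil .nil) .nil)) .nil) (.cons 1236 .nil .nil)) .nil) (.cons 1365 .nil .nil)) (.cons 1364 (.cons 1365 (.cons 1363 (.cons 1299 (.cons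 1235 (.cons 1236 (.cons 1237 .nil .nil) (.cons 1236 (.cons 1237 .nil .nil) .nil)) (.cons 1298 (.cons 1362 .nil (.cons 1362 .nil .nil)) .nil)) (.cons 1299 (.cons 1235 (.cons 1236 (.cons 1237 .nil .nil) (.cons 1236 (.cons 1237 .nil .nil) .nil)) (.cons 1298 (.cons 1362 (.cons 1302 (.cons 1366 .nil (.cons 1366 (.cons 1428 (.cons 1427 .nil (.cons 1427 .nil .nil)) .nil) .nil)) .nil) (.cons 1362 (.cons 1302 (.cons 1366 .nil (.cons 1366 (.cons 1428 (.cons 1427 .nil (.cons 1427 .nil .nil)) .nil) .nil)) .nil) .nil)) .nil)) .nil)) .nil) (.cons 1365 .nil .nil)) .nil)) .nil)))))))))))))) (.Y 4 16 (.Y 14 26 (.D 16 6 26 18 12 (.C 12)) (.Y 15 27 (.D 16 6 27 19 13 (.C 13)) (.Y 11 11 (.Y 2 8 (.D 16 2 11 19 13 (.C 13)) (.Y 3 9 (.D 16 3 11 18 12 (.C 12)) (.Y 21 21 (.T 10) (.Y 1 1 (.D 16 1 4 21 21 (.C 21)) (.Y 23 29 (.D 4 23 24 1 1 (.C 1)) (.Y 31 31 (.D 6 31 24 1 1 (.C 1)) (.Y 30 30 (.T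 20) (.Y 0 0 (.D 24 0 6 30 30 (.C 30)) (.Y 20 20 (.D 4 20 16 0 0 (.C 0)) (.Y 22 28 (.D 4 22 24 0 0 (.C 0)) (.R (.cons 1236 (.cons 1299 (.cons 1235 (.cons 1301 (.cons 1237 (.cons 1363 (.cons 1364 (.cons 1365 .nil .nil) (.cons 1364 (.cons 1365 (.cons 1172 (.cons 1171 (.cons 1173 (.cons 1298 (.cons 1234 .nil (.cons 1362 .nil .nil)) .nil) .nil) (.cons 1171 .nil .nil)) .nil) (.cons 1365 (.cons 1172 (.cons 1171 (.cons 1173 (.cons 1298 (.cons 1234 .nil (.cons 1362 .nil .nil)) .nil) .nil) (.cons 1171 .nil .nil)) .nil) .nil)) .nil)) .nil) (.cons 1237 .nil .nil)) .nil) (.cons 1235 .nil .nil)) (.cons 1299 (.cons 1235 .nil (.cons 1235 (.cons 1301 (.cons 1237 (.cons 1363 (.cons 1364 (.cons 1365 .nil .nil) (.cons 1364 (.cons 1365 .nil .nil) .nil)) .nil) (.cons 1237 (.cons 1363 (.cons 1364 (.cons 1365 (.cons 1172 (.cons 1173 .nil (.cons 1171 .nil .nil)) .nil) .nil) (.cons 1364 (.cons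 1365 (.cons 1172 (.cons 1173 .nil (.cons 1171 .nil .nil)) .nil) .nil) .nil)) .nil) .nil)) .nil) .nil)) .nil)) .nil)))))))))))) (.Y 2 8 (.Y 0 0 (.D 8 0 4 12 18 (.C 12)) (.Y 1 1 (.D 8 1 2 11 11 (.C 11)) (.Y 10 10 (.D 2 10 8 0 0 (.C 0)) (.Y 20 20 (.D 4 20 16 0 0 (.C 0)) (.Y 21 21 (.D 4 21 16 1 1 (.C 1)) (.Y 22 28 (.D 4 22 24 0 0 (.C 0)) (.Y 23 29 (.D 4 23 24 1 1 (.C 1)) (.R (.cons 1236 (.cons 1301 (.cons 1237 (.cons 1235 (.cons 1299 (.cons 1363 (.cons 1364 (.cons 1365 (.cons 1172 (.cons 1171 (.cons 1173 (.cons 1298 (.cons 1234 (.cons 1170 .nil .nil) (.cons 1234 .nil .nil)) .nil) .nil) (.cons 1173 .nil .nil)) .nil) (.cons 1365 (.cons 1172 (.cons 1171 (.cons 1173 (.cons 1298 (.cons 1234 (.cons 1170 .nil .nil) (.cons 1234 .nil .nil)) .nil) .nil) (.cons 1173 .nil .nil)) .nil) .nil)) (.cons 1172 (.cons 1171 (.cons 1173 (.cons 1298 (.cons 1362 .nil (.cons 1234 .nil .nil))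 .nil) .nil) (.cons 1173 .nil .nil)) .nil)) .nil) (.cons 1299 (.cons 1363 (.cons 1364 (.cons 1365 (.cons 1172 (.cons 1171 .nil (.cons 1173 .nil .nil)) .nil) (.cons 1365 (.cons 1172 (.cons 1171 .nil (.cons 1173 .nil .nil)) .nil) .nil)) (.cons 1172 (.cons 1171 .nil (.cons 1173 .nil .nil)) .nil)) (.cons 1363 (.cons 1364 (.cons 1365 (.cons 1172 (.cons 1171 .nil (.cons 1173 .nil .nil)) .nil) (.cons 1365 (.cons 1172 (.cons 1171 .nil (.cons 1173 .nil .nil)) .nil) .nil)) (.cons 1172 (.cons 1171 .nil (.cons 1173 .nil .nil)) .nil)) .nil)) .nil)) .nil) (.cons 1235 (.cons 1299 (.cons 1237 (.cons 1363 (.cons 1364 (.cons 1365 .nil (.cons 1365 .nil .nil)) (.cons 1365 (.cons 1364 .nil (.cons 1364 .nil .nil)) .nil)) (.cons 1363 (.cons 1364 (.cons 1365 .nil (.cons 1365 .nil .nil)) (.cons 1365 (.cons 1364 .nil (.cons 1364 .nil .nil)) .nil)) .nil)) .nil) (.cons 1299 (.cons 1237 (.cons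 1363 (.cons 1364 (.cons 1365 .nil (.cons 1365 .nil .nil)) (.cons 1365 (.cons 1364 .nil (.cons 1364 .nil .nil)) .nil)) (.cons 1363 (.cons 1364 (.cons 1365 .nil (.cons 1365 .nil .nil)) (.cons 1365 (.cons 1364 .nil (.cons 1364 .nil .nil)) .nil)) .nil)) (.cons 1237 (.cons 1363 (.cons 1364 (.cons 1365 .nil (.cons 1365 .nil .nil)) (.cons 1365 (.cons 1364 .nil (.cons 1364 .nil .nil)) .nil)) (.cons 1363 (.cons 1364 (.cons 1365 .nil (.cons 1365 .nil .nil)) (.cons 1365 (.cons 1364 .nil (.cons 1364 .nil .nil)) .nil)) .nil)) .nil)) .nil)) .nil)) (.cons 1301 (.cons 1237 .nil (.cons 1237 (.cons 1365 (.cons 1172 (.cons 1173 (.cons 1302 (.cons 1238 .nil (.cons 1366 .nil .nil)) .nil) (.cons 1173 .nil .nil)) (.cons 1364 (.cons 1363 (.cons 1299 (.cons 1235 (.cons 1172 (.cons 1171 .nil (.cons 1173 .nil .nil)) .nil) (.cons 1235 (.cons 1172 (.cons 1171 .nil (.cons 1173 .nil .nil)) .nil)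 .nil)) (.cons 1299 (.cons 1235 (.cons 1172 (.cons 1171 .nil (.cons 1173 .nil .nil)) .nil) .nil) .nil)) (.cons 1363 (.cons 1299 (.cons 1235 (.cons 1172 (.cons 1171 .nil (.cons 1173 .nil .nil)) .nil) (.cons 1235 (.cons 1172 (.cons 1171 .nil (.cons 1173 .nil .nil)) .nil) .nil)) (.cons 1299 (.cons 1235 (.cons 1172 (.cons 1171 .nil (.cons 1173 .nil .nil)) .nil) .nil) .nil)) .nil)) .nil)) .nil) .nil)) .nil)) .nil))))))))) (.Y 3 9 (.Y 0 0 (.D 9 0 4 13 19 (.C 13)) (.Y 1 1 (.D 9 1 3 11 11 (.C 11)) (.Y 5 17 (.D 9 4 17 8 2 (.C 2)) (.Y 7 25 (.D 9 6 25 8 2 (.C 2)) (.Y 10 10 (.D 3 10 9 0 0 (.C 0)) (.Y 20 20 (.D 4 20 16 0 0 (.C 0)) (.Y 21 21 (.D 4 21 16 1 1 (.C 1)) (.Y 22 28 (.D 4 22 24 0 0 (.C 0)) (.Y 23 29 (.D 4 23 24 1 1 (.C 1)) (.R (.cons 1236 (.cons 1301 (.cons 1237 .nil .nil) .nil) .nil))))))))))) (.Y 10 10 (.Y 30 30 (.T 18) (.Y 0 0 (.D 24 0 6 30 30 (.C 30)) (.Y 20 20 (.D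 4 20 16 0 0 (.C 0)) (.Y 22 28 (.D 4 22 24 0 0 (.C 0)) (.Y 31 31 (.T 26) (.Y 1 1 (.D 24 1 6 31 31 (.C 31)) (.Y 21 21 (.D 4 21 16 1 1 (.C 1)) (.Y 23 29 (.D 4 23 24 1 1 (.C 1)) (.R (.cons 1301 (.cons 1236 (.cons 1235 (.cons 1299 .nil .nil) (.cons 1237 (.cons 1299 (.cons 1235 .nil (.cons 1235 .nil .nil)) .nil) .nil)) .nil) .nil)))))))))) (.R (.cons 1301 .nil .nil)))))))) (.Y 5 17 (.Y 7 25 (.D 17 6 25 16 4 (.C 4)) (.Y 14 26 (.D 17 6 26 19 13 (.C 13)) (.Y 15 27 (.D 17 6 27 18 12 (.C 12)) (.Y 11 11 (.Y 2 8 (.D 17 2 11 18 12 (.C 12)) (.Y 3 9 (.D 17 3 11 19 13 (.C 13)) (.Y 21 21 (.T 10) (.Y 1 1 (.D 17 1 5 21 21 (.C 21)) (.Y 22 28 (.D 5 22 24 1 1 (.C 1)) (.Y 31 31 (.D 6 31 24 1 1 (.C 1)) (.Y 10 10 (.Y 30 30 (.T 19) (.Y 0 0 (.D 24 0 6 30 30 (.C 30)) (.R (.cons 1299 (.cons 1301 (.cons 1364 (.cons 1363 .nil (.cons 1365 .nil .nil)) (.cons 1364 (.cons 1363 .nil (.cons 1365 .nil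 .nil)) .nil)) (.cons 1301 (.cons 1364 (.cons 1363 (.cons 1365 (.cons 1235 (.cons 1236 (.cons 1237 .nil .nil) (.cons 1236 .nil .nil)) .nil) .nil) (.cons 1363 .nil .nil)) (.cons 1364 (.cons 1365 .nil (.cons 1363 .nil .nil)) .nil)) .nil)) .nil)))) (.Y 0 0 (.D 17 0 5 20 20 (.D 24 0 6 30 30 (.T 40))) (.R (.cons 1301 (.cons 1364 (.cons 1365 .nil (.cons 1365 .nil .nil)) .nil) .nil)))))))))) (.Y 2 8 (.Y 0 0 (.D 8 0 5 13 19 (.C 13)) (.Y 1 1 (.D 8 1 2 11 11 (.C 11)) (.Y 3 9 (.D 2 9 5 4 16 (.C 4)) (.Y 10 10 (.D 2 10 8 0 0 (.C 0)) (.Y 20 20 (.D 5 20 17 0 0 (.C 0)) (.Y 21 21 (.D 5 21 17 1 1 (.C 1)) (.Y 22 28 (.D 5 22 24 1 1 (.C 1)) (.R (.cons 1301 (.cons 1365 (.cons 1364 (.cons 1236 (.cons 1237 (.cons 1172 (.cons 1171 (.cons 1235 (.cons 1299 (.cons 1363 (.cons 1298 (.cons 1234 .nil .nil) .nil) .nil) .nil) .nil) .nil) .nil) (.cons 1235 (.cons 1299 .nil .nil) .nil)) .nil) .nil)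 .nil) .nil))))))))) (.Y 3 9 (.Y 0 0 (.D 9 0 5 12 18 (.C 12)) (.Y 1 1 (.D 9 1 3 11 11 (.C 11)) (.Y 10 10 (.D 3 10 9 0 0 (.C 0)) (.Y 20 20 (.D 5 20 17 0 0 (.C 0)) (.Y 21 21 (.D 5 21 17 1 1 (.C 1)) (.Y 22 28 (.D 5 22 24 1 1 (.C 1)) (.Y 23 29 (.D 5 23 24 0 0 (.C 0)) (.R (.cons 1236 (.cons 1301 (.cons 1235 (.cons 1299 (.cons 1237 (.cons 1363 (.cons 1364 (.cons 1365 .nil .nil) .nil) .nil) .nil) .nil) .nil) .nil) .nil))))))))) (.Y 10 10 (.Y 30 30 (.T 19) (.Y 0 0 (.D 24 0 6 30 30 (.C 30)) (.Y 20 20 (.D 5 20 17 0 0 (.C 0)) (.Y 23 29 (.D 5 23 24 0 0 (.C 0)) (.Y 1 1 (.D 17 1 5 21 21 (.D 24 1 6 31 31 (.T 33))) (.R (.cons 1301 (.cons 1364 (.cons 1365 .nil (.cons 1365 .nil .nil)) .nil) .nil))))))) (.R (.cons 1301 .nil .nil))))))))) (.Y 21 21 (.Y 22 28 (.D 6 28 21 5 17 (.C 5)) (.Y 23 29 (.D 6 29 21 4 16 (.C 4)) (.Y 11 11 (.T 10) (.Y 0 0 (.Y 14 26 (.T 11) (.Y 2 8 (.D 8 0 6 14 26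 (.C 14)) (.Y 20 20 (.Y 15 27 (.T 9) (.Y 3 9 (.D 9 0 6 15 27 (.C 15)) (.Y 10 10 (.D 24 0 6 30 30 (.T 23)) (.R (.cons 1301 .nil .nil))))) (.Y 1 1 (.Y 3 9 (.D 0 1 3 2 8 (.C 2)) (.Y 15 27 (.D 1 6 27 2 8 (.C 2)) (.Y 10 10 (.D 24 0 6 30 30 (.T 24)) (.R (.cons 1301 .nil .nil))))) (.Y 7 25 (.D 0 6 25 1 1 (.C 1)) (.Y 31 31 (.D 6 31 24 1 1 (.C 1)) (.Y 10 10 (.Y 15 27 (.D 24 0 6 30 30 (.T 42)) (.R (.cons 1236 (.cons 1299 (.cons 1235 (.cons 1363 (.cons 1364 (.cons 1365 (.cons 1301 .nil .nil) .nil) .nil) .nil) (.cons 1235 (.cons 1298 (.cons 1234 .nil .nil) .nil) .nil)) .nil) .nil))) (.Y 3 9 (.D 9 0 3 10 10 (.C 10)) (.R (.cons 1236 (.cons 1301 (.cons 1237 .nil .nil) .nil) .nil)))))))))) (.Y 30 30 (.D 6 30 24 0 0 (.C 0)) (.Y 1 1 (.Y 2 8 (.D 8 1 2 11 11 (.C 11)) (.Y 3 9 (.D 9 1 3 11 11 (.C 11)) (.Y 7 25 (.D 1 6 25 0 0 (.C 0)) (.Y 14 26 (.D 1 6 26 3 9 (.C 3)) (.Y 15 27 (.D 1 6 27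 2 8 (.C 2)) (.Y 10 10 (.D 24 1 6 31 31 (.T 33)) (.R (.cons 1301 .nil .nil)))))))) (.Y 31 31 (.D 6 31 24 1 1 (.C 1)) (.Y 7 25 (.Y 10 10 (.Y 2 8 (.D 2 10 8 0 0 (.C 0)) (.Y 3 9 (.D 3 10 9 0 0 (.C 0)) (.Y 14 26 (.D 6 26 10 2 8 (.C 2)) (.Y 15 27 (.D 7 27 10 2 8 (.C 2)) (.Y 20 20 (.T 6) (.R (.cons 1236 (.cons 1301 (.cons 1237 .nil .nil) .nil) .nil))))))) (.Y 2 8 (.Y 14 26 (.D 2 14 24 0 0 (.C 0)) (.Y 15 27 (.D 2 15 25 0 0 (.C 0)) (.R (.cons 1236 (.cons 1299 (.cons 1235 .nil (.cons 1235 .nil .nil)) (.cons 1299 (.cons 1235 .nil (.cons 1235 .nil .nil)) .nil)) .nil)))) (.Y 3 9 (.D 9 6 25 8 2 (.C 2)) (.R (.cons 1236 (.cons 1301 (.cons 1237 .nil (.cons 1237 (.cons 1364 (.cons 1365 (.cons 1363 (.cons 1299 (.cons 1235 (.cons 1172 (.cons 1171 .nil (.cons 1173 .nil .nil)) .nil) .nil) (.cons 1299 (.cons 1235 (.cons 1172 (.cons 1171 .nil (.cons 1173 .nil .nil)) .nil) .nil) .nil)) .nil)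 (.cons 1365 .nil .nil)) .nil) .nil)) (.cons 1301 (.cons 1237 (.cons 1364 (.cons 1365 .nil (.cons 1365 (.cons 1235 (.cons 1299 (.cons 1363 (.cons 1172 (.cons 1171 .nil (.cons 1173 .nil .nil)) .nil) .nil) (.cons 1299 (.cons 1363 (.cons 1172 (.cons 1171 (.cons 1173 (.cons 1298 (.cons 1234 .nil (.cons 1362 .nil .nil)) .nil) .nil) (.cons 1171 .nil .nil)) .nil) .nil) .nil)) .nil) .nil)) .nil) (.cons 1237 (.cons 1364 (.cons 1365 (.cons 1235 (.cons 1299 (.cons 1363 .nil .nil) (.cons 1299 (.cons 1363 .nil .nil) .nil)) .nil) (.cons 1365 .nil .nil)) .nil) .nil)) .nil)) .nil))))) (.Y 2 8 (.Y 3 9 (.D 2 9 6 7 25 (.C 7)) (.Y 10 10 (.D 2 10 8 0 0 (.C 0)) (.Y 14 26 (.D 2 14 24 0 0 (.C 0)) (.Y 15 27 (.D 2 15 24 1 1 (.C 1)) (.R (.cons 1299 (.cons 1301 (.cons 1235 (.cons 1236 .nil .nil) .nil) .nil) .nil)))))) (.R (.cons 1236 (.cons 1364 (.cons 1363 (.cons 1299 (.cons 1235 .nil .nil)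 (.cons 1299 (.cons 1235 .nil .nil) .nil)) (.cons 1363 (.cons 1299 .nil (.cons 1299 (.cons 1235 .nil .nil) .nil)) .nil)) (.cons 1364 (.cons 1363 (.cons 1299 (.cons 1235 .nil .nil) (.cons 1299 (.cons 1235 .nil .nil) .nil)) (.cons 1363 (.cons 1299 .nil (.cons 1299 (.cons 1235 (.cons 1365 (.cons 1301 .nil (.cons 1301 (.cons 1237 .nil .nil) .nil)) .nil) .nil) .nil)) .nil)) .nil)) .nil))))))))))) (.Y 22 28 (.Y 0 0 (.D 0 6 28 4 16 (.C 4)) (.Y 1 1 (.D 1 6 28 5 17 (.C 5)) (.Y 2 8 (.D 8 6 28 12 18 (.C 12)) (.Y 3 9 (.D 9 6 28 13 19 (.C 13)) (.Y 20 20 (.D 6 28 20 4 16 (.C 4)) (.R (.cons 1236 (.cons 1364 (.cons 1235 (.cons 1299 (.cons 1363 .nil (.cons 1363 .nil .nil)) (.cons 1299 (.cons 1363 .nil (.cons 1363 .nil .nil)) .nil)) (.cons 1235 (.cons 1299 (.cons 1363 .nil (.cons 1363 .nil .nil)) (.cons 1299 (.cons 1363 .nil (.cons 1363 .nil .nil)) .nil)) .nil)) (.cons 1364 (.cons 1235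 (.cons 1299 (.cons 1363 .nil (.cons 1363 .nil .nil)) (.cons 1299 (.cons 1363 .nil (.cons 1363 .nil .nil)) .nil)) (.cons 1235 (.cons 1299 (.cons 1363 .nil (.cons 1363 .nil .nil)) (.cons 1299 (.cons 1363 .nil (.cons 1363 .nil .nil)) .nil)) .nil)) .nil)) .nil))))))) (.Y 3 9 (.Y 23 29 (.D 9 6 29 12 18 (.C 12)) (.Y 20 20 (.Y 30 30 (.T 22) (.Y 0 0 (.D 24 0 6 30 30 (.C 30)) (.Y 10 10 (.D 3 10 9 0 0 (.C 0)) (.Y 15 27 (.D 3 15 24 0 0 (.C 0)) (.Y 1 1 (.D 9 1 6 14 26 (.T 8)) (.Y 11 11 (.D 3 11 9 1 1 (.C 1)) (.Y 14 26 (.D 3 14 24 1 1 (.C 1)) (.R (.cons 1236 (.cons 1301 (.cons 1237 .nil (.cons 1237 (.cons 1302 (.cons 1238 .nil .nil) .nil) .nil)) .nil) .nil))))))))) (.R (.cons 1236 .nil .nil)))) (.Y 20 20 (.Y 23 29 (.D 6 29 20 5 17 (.C 5)) (.Y 10 10 (.Y 15 27 (.D 6 27 10 3 9 (.C 3)) (.Y 7 25 (.T 6) (.Y 0 0 (.D 24 0 6 30 30 (.T 23)) (.Y 2 8 (.D 2 10 8 0 0 (.C 0)) (.Y 14 26 (.D 6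 26 10 2 8 (.C 2)) (.Y 30 30 (.D 6 30 24 0 0 (.C 0)) (.Y 1 1 (.Y 11 11 (.D 24 1 6 31 31 (.T 31)) (.R (.cons 1236 (.cons 1301 (.cons 1237 .nil .nil) .nil) .nil))) (.R (.cons 1236 (.cons 1364 (.cons 1363 (.cons 1299 (.cons 1235 .nil .nil) .nil) .nil) .nil) .nil))))))))) (.Y 0 0 (.Y 2 8 (.D 8 0 2 10 10 (.C 10)) (.Y 14 26 (.D 0 6 26 2 8 (.C 2)) (.Y 15 27 (.D 0 6 27 3 9 (.C 3)) (.Y 11 11 (.Y 31 31 (.T 30) (.R (.cons 1236 (.cons 1301 (.cons 1237 .nil .nil) .nil) .nil))) (.R (.cons 1301 .nil .nil)))))) (.Y 30 30 (.D 6 30 24 0 0 (.C 0)) (.Y 1 1 (.Y 7 25 (.D 1 6 25 0 0 (.C 0)) (.Y 14 26 (.D 1 6 26 3 9 (.C 3)) (.Y 11 11 (.D 24 1 6 31 31 (.T 31)) (.R (.cons 1236 (.cons 1301 (.cons 1237 .nil (.cons 1237 .nil .nil)) .nil) .nil))))) (.Y 31 31 (.D 6 31 24 1 1 (.C 1)) (.Y 2 8 (.Y 7 25 (.D 8 6 25 9 3 (.C 3)) (.Y 11 11 (.D 2 11 8 1 1 (.C 1)) (.Y 14 26 (.D 2 14 24 0 0 (.C 0)) (.R (.cons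 1236 (.cons 1299 (.cons 1235 .nil (.cons 1235 .nil .nil)) .nil) .nil))))) (.R (.cons 1236 (.cons 1364 (.cons 1365 (.cons 1301 .nil .nil) (.cons 1363 (.cons 1299 (.cons 1235 .nil .nil) .nil) .nil)) .nil) .nil))))))))) (.Y 0 0 (.Y 15 27 (.D 0 6 27 3 9 (.C 3)) (.Y 23 29 (.D 0 6 29 5 17 (.C 5)) (.R (.cons 1236 .nil .nil)))) (.R (.cons 1236 (.cons 1237 (.cons 1173 (.cons 1174 (.cons 1110 (.cons 1111 (.cons 1047 (.cons 1048 (.cons 984 (.cons 985 (.cons 921 (.cons 1301 (.cons 1302 (.cons 1238 .nil .nil) (.cons 1365 (.cons 1364 (.cons 1363 (.cons 1366 (.cons 1427 (.cons 1426 (.cons 1430 (.cons 1431 (.cons 1490 (.cons 1489 (.cons 1495 (.cons 1496 (.cons 1553 (.cons 1552 (.cons 1560 (.cons 1561 (.cons 1616 (.cons 1615 (.cons 1625 (.cons 1626 (.cons 1679 (.cons 1172 (.cons 1171 (.cons 1235 (.cons 1299 .nil .nil) .nil) (.cons 1108 (.cons 1109 .nil .nil) .nil)) .nil) .nil) .nil)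 .nil) .nil) .nil) .nil) .nil) .nil) .nil) .nil) .nil) .nil) .nil) .nil) .nil) .nil) .nil) .nil) .nil) .nil) .nil)) .nil) .nil) .nil) .nil) .nil) .nil) .nil) .nil) .nil) .nil) .nil) .nil))))))))))) (.Y 7 25 (.Y 13 19 (.T 1) (.Y 4 16 (.Y 5 17 (.D 4 17 7 6 24 (.C 6)) (.Y 14 26 (.D 16 7 26 19 13 (.C 13)) (.Y 15 27 (.T 4) (.Y 12 18 (.D 25 4 18 27 15 (.C 15)) (.Y 10 10 (.Y 2 8 (.D 16 2 10 18 12 (.C 12)) (.Y 3 9 (.D 16 3 10 19 13 (.C 13)) (.Y 20 20 (.T 6) (.Y 0 0 (.D 16 0 4 20 20 (.C 20)) (.Y 23 29 (.D 4 23 25 0 0 (.C 0)) (.Y 30 30 (.D 7 30 25 0 0 (.C 0)) (.Y 31 31 (.T 26) (.Y 1 1 (.D 25 1 7 31 31 (.C 31)) (.R (.cons 1299 (.cons 1301 (.cons 1364 (.cons 1363 .nil (.cons 1363 .nil .nil)) (.cons 1364 (.cons 1363 .nil (.cons 1363 .nil .nil)) .nil)) (.cons 1301 (.cons 1364 (.cons 1363 .nil (.cons 1363 .nil .nil)) (.cons 1364 (.cons 1363 .nil (.cons 1363 .nil .nil)) .nil)) .nil))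 .nil)))))))))) (.Y 2 8 (.Y 0 0 (.D 8 0 2 10 10 (.C 10)) (.Y 1 1 (.D 8 1 4 13 19 (.C 13)) (.Y 3 9 (.D 2 9 4 5 17 (.C 5)) (.Y 11 11 (.D 2 11 8 1 1 (.C 1)) (.Y 20 20 (.D 4 20 16 0 0 (.C 0)) (.Y 21 21 (.D 4 21 16 1 1 (.C 1)) (.Y 22 28 (.D 4 22 25 1 1 (.C 1)) (.R (.cons 1301 (.cons 1365 (.cons 1364 (.cons 1236 (.cons 1237 (.cons 1172 (.cons 1173 .nil .nil) .nil) (.cons 1237 .nil .nil)) .nil) .nil) .nil) .nil))))))))) (.Y 3 9 (.Y 0 0 (.D 9 0 3 10 10 (.C 10)) (.Y 1 1 (.D 9 1 4 12 18 (.C 12)) (.Y 11 11 (.D 3 11 9 1 1 (.C 1)) (.Y 20 20 (.D 4 20 16 0 0 (.C 0)) (.Y 21 21 (.D 4 21 16 1 1 (.C 1)) (.Y 22 28 (.D 4 22 25 1 1 (.C 1)) (.Y 23 29 (.D 4 23 25 0 0 (.C 0)) (.R (.cons 1236 (.cons 1301 (.cons 1237 .nil .nil) .nil) .nil))))))))) (.Y 11 11 (.Y 30 30 (.T 20) (.Y 0 0 (.D 25 0 7 30 30 (.C 30)) (.Y 20 20 (.D 4 20 16 0 0 (.C 0)) (.Y 23 29 (.D 4 23 25 0 0 (.C 0)) (.Y 31 31 (.T 27)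 (.Y 1 1 (.D 25 1 7 31 31 (.C 31)) (.R (.cons 1301 (.cons 1299 (.cons 1363 (.cons 1364 .nil .nil) (.cons 1363 (.cons 1364 .nil .nil) .nil)) .nil) .nil)))))))) (.R (.cons 1301 .nil .nil)))))))))) (.Y 5 17 (.Y 15 27 (.D 17 7 27 19 13 (.C 13)) (.Y 14 26 (.T 3) (.Y 12 18 (.D 25 5 18 26 14 (.C 14)) (.Y 10 10 (.Y 2 8 (.D 17 2 10 19 13 (.C 13)) (.Y 3 9 (.D 17 3 10 18 12 (.C 12)) (.Y 20 20 (.T 6) (.Y 0 0 (.D 17 0 5 20 20 (.C 20)) (.Y 22 28 (.D 5 22 25 0 0 (.C 0)) (.Y 30 30 (.D 7 30 25 0 0 (.C 0)) (.Y 31 31 (.D 7 31 25 1 1 (.D 17 1 5 21 21 (.T 33))) (.Y 1 1 (.D 25 1 7 31 31 (.C 31)) (.Y 21 21 (.D 5 21 17 1 1 (.C 1)) (.Y 23 29 (.D 5 23 25 1 1 (.C 1)) (.R (.cons 1236 (.cons 1299 (.cons 1235 (.cons 1237 (.cons 1301 .nil .nil) .nil) .nil) .nil) .nil)))))))))))) (.Y 2 8 (.Y 0 0 (.D 8 0 2 10 10 (.C 10)) (.Y 1 1 (.D 8 1 5 12 18 (.C 12)) (.Y 3 9 (.D 2 9 5 4 16 (.C 4)) (.Y 11 11 (.D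 2 11 8 1 1 (.C 1)) (.Y 20 20 (.D 5 20 17 0 0 (.C 0)) (.Y 21 21 (.D 5 21 17 1 1 (.C 1)) (.Y 22 28 (.D 5 22 25 0 0 (.C 0)) (.R (.cons 1301 (.cons 1365 (.cons 1364 (.cons 1236 (.cons 1237 .nil (.cons 1235 (.cons 1299 .nil .nil) .nil)) .nil) .nil) .nil) .nil))))))))) (.Y 3 9 (.Y 0 0 (.D 9 0 3 10 10 (.C 10)) (.Y 1 1 (.D 9 1 5 13 19 (.C 13)) (.Y 11 11 (.D 3 11 9 1 1 (.C 1)) (.Y 20 20 (.D 5 20 17 0 0 (.C 0)) (.Y 21 21 (.D 5 21 17 1 1 (.C 1)) (.Y 22 28 (.D 5 22 25 0 0 (.C 0)) (.Y 23 29 (.D 5 23 25 1 1 (.C 1)) (.R (.cons 1236 (.cons 1301 (.cons 1235 (.cons 1299 (.cons 1237 (.cons 1363 (.cons 1364 (.cons 1365 (.cons 1172 (.cons 1173 .nil .nil) .nil) .nil) .nil) .nil) .nil) .nil) .nil) .nil) .nil))))))))) (.Y 11 11 (.Y 31 31 (.T 28) (.Y 1 1 (.D 25 1 7 31 31 (.C 31)) (.Y 21 21 (.D 5 21 17 1 1 (.C 1)) (.Y 23 29 (.D 5 23 25 1 1 (.C 1)) (.Y 0 0 (.D 17 0 5 20 20 (.D 25 0 7 30 30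 (.T 40))) (.Y 20 20 (.D 5 20 17 0 0 (.C 0)) (.R (.cons 1301 (.cons 1236 (.cons 1237 .nil (.cons 1237 .nil .nil)) .nil) .nil)))))))) (.R (.cons 1301 .nil .nil))))))))) (.Y 20 20 (.Y 22 28 (.D 7 28 20 5 17 (.C 5)) (.Y 23 29 (.D 7 29 20 4 16 (.C 4)) (.Y 10 10 (.T 6) (.Y 12 18 (.D 12 20 18 10 10 (.C 10)) (.Y 0 0 (.Y 1 1 (.D 0 1 7 6 24 (.C 6)) (.Y 2 8 (.D 8 0 2 10 10 (.C 10)) (.Y 3 9 (.D 9 0 3 10 10 (.C 10)) (.Y 14 26 (.D 0 7 26 3 9 (.C 3)) (.Y 15 27 (.D 0 7 27 2 8 (.C 2)) (.Y 31 31 (.D 7 31 25 1 1 (.C 1)) (.R (.cons 1301 (.cons 1236 (.cons 1237 (.cons 1299 (.cons 1235 .nil (.cons 1235 .nil .nil)) .nil) (.cons 1237 .nil .nil)) .nil) .nil)))))))) (.Y 30 30 (.D 7 30 25 0 0 (.C 0)) (.Y 1 1 (.Y 14 26 (.T 8) (.Y 2 8 (.D 8 1 7 14 26 (.C 14)) (.Y 11 11 (.D 25 1 7 31 31 (.T 31)) (.Y 3 9 (.D 9 1 3 11 11 (.C 11)) (.Y 15 27 (.D 1 7 27 3 9 (.C 3)) (.R (.cons 1301 .nil .nil)))))))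 (.Y 31 31 (.D 7 31 25 1 1 (.C 1)) (.Y 2 8 (.Y 3 9 (.D 2 9 7 6 24 (.C 6)) (.R (.cons 1236 (.cons 1364 (.cons 1363 (.cons 1299 .nil (.cons 1299 (.cons 1235 (.cons 1365 (.cons 1301 (.cons 1237 .nil .nil) (.cons 1301 (.cons 1237 .nil .nil) .nil)) .nil) .nil) .nil)) (.cons 1363 (.cons 1299 .nil (.cons 1299 (.cons 1235 (.cons 1365 (.cons 1301 .nil (.cons 1301 (.cons 1237 .nil .nil) .nil)) .nil) .nil) .nil)) .nil)) (.cons 1364 (.cons 1363 (.cons 1299 .nil (.cons 1299 (.cons 1235 .nil .nil) .nil)) (.cons 1363 (.cons 1299 .nil (.cons 1299 (.cons 1235 .nil .nil) .nil)) .nil)) .nil)) .nil))) (.Y 3 9 (.Y 11 11 (.D 3 11 9 1 1 (.C 1)) (.Y 14 26 (.D 3 14 25 0 0 (.C 0)) (.Y 15 27 (.D 3 15 25 1 1 (.C 1)) (.R (.cons 1299 (.cons 1301 (.cons 1235 (.cons 1236 .nil .nil) .nil) .nil) .nil))))) (.R (.cons 1364 (.cons 1365 (.cons 1301 (.cons 1237 (.cons 1236 .nil .nil) .nil) .nil) .nil) .nil))))))))))))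 (.Y 2 8 (.Y 3 9 (.D 2 9 7 6 24 (.C 6)) (.Y 22 28 (.D 8 7 28 13 19 (.C 13)) (.Y 21 21 (.Y 12 18 (.D 2 12 21 5 17 (.C 5)) (.Y 23 29 (.D 7 29 21 5 17 (.C 5)) (.Y 31 31 (.T 32) (.Y 1 1 (.D 25 1 7 31 31 (.C 31)) (.Y 11 11 (.D 2 11 8 1 1 (.C 1)) (.Y 14 26 (.D 2 14 25 1 1 (.C 1)) (.Y 0 0 (.D 8 0 2 10 10 (.D 8 0 7 15 27 (.D 25 0 7 30 30 (.T 42)))) (.R (.cons 1236 (.cons 1364 (.cons 1363 (.cons 1299 (.cons 1235 (.cons 1298 (.cons 1362 .nil .nil) .nil) .nil) .nil) (.cons 1363 (.cons 1299 (.cons 1235 (.cons 1298 (.cons 1171 (.cons 1172 .nil .nil) .nil) .nil) .nil) .nil) .nil)) .nil) .nil))))))))) (.Y 12 18 (.D 25 2 12 29 23 (.T 38)) (.Y 23 29 (.D 8 7 29 12 18 (.C 12)) (.R (.cons 1236 .nil .nil))))))) (.Y 3 9 (.Y 23 29 (.D 9 7 29 13 19 (.C 13)) (.Y 12 18 (.D 25 3 12 28 22 (.T 36)) (.Y 22 28 (.D 9 7 28 12 18 (.C 12)) (.Y 21 21 (.Y 0 0 (.D 9 0 7 14 26 (.T 11)) (.Y 10 10 (.D 3 10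 9 0 0 (.C 0)) (.Y 14 26 (.D 3 14 25 0 0 (.C 0)) (.Y 30 30 (.D 7 30 25 0 0 (.C 0)) (.Y 1 1 (.D 9 1 7 15 27 (.T 13)) (.Y 11 11 (.D 3 11 9 1 1 (.C 1)) (.Y 15 27 (.D 3 15 25 1 1 (.C 1)) (.R (.cons 1236 (.cons 1301 (.cons 1237 .nil .nil) .nil) .nil))))))))) (.R (.cons 1236 .nil .nil)))))) (.Y 21 21 (.Y 22 28 (.D 7 28 21 4 16 (.C 4)) (.Y 23 29 (.D 7 29 21 5 17 (.C 5)) (.Y 0 0 (.Y 1 1 (.D 0 1 7 6 24 (.C 6)) (.Y 14 26 (.D 0 7 26 3 9 (.C 3)) (.Y 15 27 (.D 0 7 27 2 8 (.C 2)) (.Y 31 31 (.D 7 31 25 1 1 (.C 1)) (.R (.cons 1236 (.cons 1299 (.cons 1235 .nil (.cons 1235 .nil .nil)) (.cons 1299 (.cons 1235 .nil (.cons 1235 .nil .nil)) .nil)) .nil)))))) (.Y 30 30 (.D 7 30 25 0 0 (.C 0)) (.Y 1 1 (.Y 14 26 (.D 1 7 26 2 8 (.C 2)) (.Y 15 27 (.D 1 7 27 3 9 (.C 3)) (.Y 12 18 (.D 25 1 7 31 31 (.T 29)) (.Y 10 10 (.D 25 1 7 31 31 (.T 33)) (.Y 11 11 (.D 25 1 7 31 31 (.T 35)) (.R (.cons 1301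 .nil .nil))))))) (.R (.cons 1364 (.cons 1365 (.cons 1301 (.cons 1237 (.cons 1236 .nil .nil) .nil) .nil) .nil) .nil))))))) (.Y 1 1 (.Y 0 0 (.D 0 1 7 6 24 (.C 6)) (.Y 14 26 (.D 1 7 26 2 8 (.C 2)) (.Y 15 27 (.D 1 7 27 3 9 (.C 3)) (.Y 22 28 (.D 1 7 28 4 16 (.C 4)) (.Y 23 29 (.D 1 7 29 5 17 (.C 5)) (.Y 30 30 (.D 7 30 25 0 0 (.C 0)) (.Y 12 18 (.D 25 1 7 31 31 (.T 29)) (.R (.cons 1236 .nil .nil))))))))) (.Y 31 31 (.D 7 31 25 1 1 (.C 1)) (.Y 0 0 (.Y 14 26 (.D 0 7 26 3 9 (.C 3)) (.Y 15 27 (.D 0 7 27 2 8 (.C 2)) (.Y 22 28 (.D 0 7 28 5 17 (.C 5)) (.Y 23 29 (.D 0 7 29 4 16 (.C 4)) (.R (.cons 1236 (.cons 1237 (.cons 1301 (.cons 1299 (.cons 1235 .nil (.cons 1235 .nil .nil)) .nil) .nil) .nil) .nil)))))) (.R (.cons 1364 (.cons 1365 (.cons 1301 (.cons 1302 (.cons 1366 .nil .nil) .nil) .nil) .nil) .nil)))))))))))) (.Y 4 16 (.Y 14 26 (.T 2) (.Y 15 27 (.T 4) (.Y 2 8 (.Y 22 28 (.D 8 4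 22 14 26 (.C 14)) (.Y 23 29 (.D 8 4 23 15 27 (.C 15)) (.Y 30 30 (.Y 10 10 (.T 18) (.Y 0 0 (.D 8 0 2 10 10 (.C 10)) (.Y 12 18 (.D 2 12 16 0 0 (.C 0)) (.Y 20 20 (.D 4 20 16 0 0 (.C 0)) (.Y 11 11 (.T 20) (.Y 1 1 (.D 8 1 2 11 11 (.C 11)) (.Y 13 19 (.D 2 13 16 1 1 (.C 1)) (.Y 21 21 (.D 4 21 16 1 1 (.C 1)) (.R (.cons 1236 (.cons 1299 (.cons 1235 (.cons 1301 (.cons 1237 (.cons 1363 (.cons 1364 (.cons 1365 (.cons 1172 (.cons 1171 (.cons 1173 (.cons 1298 (.cons 1234 (.cons 1170 .nil .nil) (.cons 1234 .nil .nil)) .nil) .nil) (.cons 1171 .nil .nil)) .nil) .nil) (.cons 1364 (.cons 1365 (.cons 1172 (.cons 1171 (.cons 1173 (.cons 1298 (.cons 1362 .nil (.cons 1234 .nil .nil)) .nil) .nil) (.cons 1171 .nil .nil)) .nil) .nil) .nil)) .nil) (.cons 1237 .nil .nil)) .nil) (.cons 1235 .nil .nil)) (.cons 1299 (.cons 1235 (.cons 1301 (.cons 1237 .nil (.cons 1237 (.cons 1363 (.cons 1364 (.cons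 1365 .nil .nil) (.cons 1364 (.cons 1365 .nil .nil) .nil)) .nil) .nil)) .nil) (.cons 1235 (.cons 1301 (.cons 1237 .nil (.cons 1237 (.cons 1365 (.cons 1364 (.cons 1363 (.cons 1172 (.cons 1171 .nil (.cons 1173 .nil .nil)) .nil) .nil) (.cons 1364 (.cons 1363 (.cons 1172 (.cons 1171 .nil (.cons 1173 .nil .nil)) .nil) .nil) .nil)) .nil) .nil)) .nil) .nil)) .nil)) .nil)))))))))) (.Y 31 31 (.Y 10 10 (.T 26) (.Y 0 0 (.D 8 0 2 10 10 (.C 10)) (.Y 12 18 (.D 2 12 16 0 0 (.C 0)) (.Y 20 20 (.D 4 20 16 0 0 (.C 0)) (.Y 11 11 (.T 27) (.Y 1 1 (.D 8 1 2 11 11 (.C 11)) (.Y 13 19 (.D 2 13 16 1 1 (.C 1)) (.Y 21 21 (.D 4 21 16 1 1 (.C 1)) (.R (.cons 1299 (.cons 1236 (.cons 1235 .nil (.cons 1235 (.cons 1301 (.cons 1237 .nil (.cons 1237 (.cons 1365 (.cons 1364 .nil (.cons 1364 (.cons 1363 (.cons 1428 (.cons 1366 (.cons 1302 (.cons 1238 (.cons 1427 (.cons 1429 (.cons 1430 (.cons 1172 (.cons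 1171 .nil (.cons 1173 .nil .nil)) .nil) .nil) .nil) .nil) .nil) .nil) .nil) .nil) .nil) .nil)) .nil) .nil)) .nil) .nil)) .nil) .nil)))))))))) (.R (.cons 1299 .nil .nil)))))) (.Y 3 9 (.Y 5 17 (.D 9 4 17 8 2 (.C 2)) (.Y 22 28 (.D 9 4 22 15 27 (.C 15)) (.Y 23 29 (.D 9 4 23 14 26 (.C 14)) (.Y 30 30 (.Y 10 10 (.T 18) (.Y 0 0 (.D 9 0 3 10 10 (.C 10)) (.Y 13 19 (.D 3 13 16 0 0 (.C 0)) (.Y 20 20 (.D 4 20 16 0 0 (.C 0)) (.Y 11 11 (.T 20) (.Y 1 1 (.D 9 1 3 11 11 (.C 11)) (.R (.cons 1299 (.cons 1301 (.cons 1364 (.cons 1363 .nil (.cons 1365 .nil .nil)) (.cons 1364 (.cons 1363 .nil (.cons 1365 .nil .nil)) .nil)) (.cons 1301 (.cons 1364 (.cons 1363 .nil (.cons 1365 .nil .nil)) (.cons 1364 (.cons 1363 .nil (.cons 1365 .nil .nil)) .nil)) .nil)) .nil)))))))) (.Y 31 31 (.Y 10 10 (.T 26) (.Y 0 0 (.D 9 0 3 10 10 (.C 10)) (.Y 13 19 (.D 3 13 16 0 0 (.C 0)) (.Y 20 20 (.D 4 20 16 0 0 (.C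 0)) (.Y 11 11 (.T 27) (.Y 1 1 (.D 9 1 3 11 11 (.C 11)) (.R (.cons 1299 (.cons 1301 (.cons 1365 (.cons 1364 .nil .nil) (.cons 1365 (.cons 1364 .nil .nil) .nil)) .nil) .nil)))))))) (.R (.cons 1299 .nil .nil))))))) (.Y 10 10 (.Y 12 18 (.D 4 18 10 2 8 (.C 2)) (.Y 13 19 (.D 4 19 10 3 9 (.C 3)) (.Y 30 30 (.T 18) (.Y 31 31 (.T 26) (.Y 0 0 (.Y 22 28 (.D 0 4 22 6 24 (.C 6)) (.Y 23 29 (.D 0 4 23 7 25 (.C 7)) (.R (.cons 1299 .nil .nil)))) (.Y 20 20 (.D 4 20 16 0 0 (.C 0)) (.Y 1 1 (.Y 5 17 (.D 1 4 17 0 0 (.C 0)) (.Y 22 28 (.D 1 4 22 7 25 (.C 7)) (.R (.cons 1299 (.cons 1363 (.cons 1364 .nil .nil) .nil) .nil)))) (.R (.cons 1299 (.cons 1301 (.cons 1364 (.cons 1363 (.cons 1365 (.cons 1235 (.cons 1237 (.cons 1236 (.cons 1172 (.cons 1171 .nil (.cons 1173 .nil .nil)) .nil) (.cons 1236 (.cons 1172 (.cons 1171 .nil (.cons 1173 .nil .nil)) (.cons 1298 (.cons 1362 .nil (.cons 1234 .nil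 .nil)) .nil)) .nil)) (.cons 1236 (.cons 1237 .nil .nil) .nil)) .nil) .nil) (.cons 1363 .nil .nil)) (.cons 1364 (.cons 1365 .nil (.cons 1363 .nil .nil)) .nil)) (.cons 1301 (.cons 1364 (.cons 1363 .nil (.cons 1363 (.cons 1235 (.cons 1236 (.cons 1237 .nil .nil) (.cons 1236 (.cons 1237 .nil .nil) .nil)) .nil) .nil)) (.cons 1364 (.cons 1363 .nil (.cons 1363 (.cons 1365 (.cons 1235 (.cons 1236 (.cons 1237 (.cons 1298 (.cons 1362 .nil (.cons 1234 .nil .nil)) .nil) .nil) (.cons 1236 (.cons 1237 (.cons 1172 (.cons 1171 .nil (.cons 1171 (.cons 1173 (.cons 1298 (.cons 1234 .nil (.cons 1234 (.cons 1362 (.cons 1170 (.cons 1302 (.cons 1238 .nil (.cons 1366 .nil .nil)) .nil) .nil) .nil) .nil)) .nil) .nil) .nil)) .nil) .nil) .nil)) .nil) .nil) .nil)) .nil)) .nil)) .nil))))))))) (.Y 11 11 (.Y 12 18 (.D 4 18 11 3 9 (.C 3)) (.Y 13 19 (.D 4 19 11 2 8 (.C 2)) (.Y 30 30 (.T 20) (.Y 31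 31 (.T 27) (.Y 1 1 (.Y 22 28 (.D 1 4 22 7 25 (.C 7)) (.R (.cons 1299 (.cons 1301 (.cons 1235 (.cons 1363 (.cons 1364 (.cons 1365 .nil .nil) .nil) .nil) .nil) .nil) .nil))) (.R (.cons 1301 (.cons 1299 (.cons 1235 (.cons 1363 (.cons 1364 .nil (.cons 1364 (.cons 1365 .nil .nil) .nil)) .nil) (.cons 1363 (.cons 1364 (.cons 1365 (.cons 1235 (.cons 1236 (.cons 1237 (.cons 1173 (.cons 1172 (.cons 1171 (.cons 1302 (.cons 1238 .nil (.cons 1366 .nil .nil)) .nil) .nil) .nil) .nil) .nil) (.cons 1236 (.cons 1237 (.cons 1172 (.cons 1171 (.cons 1173 (.cons 1234 (.cons 1298 (.cons 1362 (.cons 1170 (.cons 1302 (.cons 1238 .nil (.cons 1366 .nil .nil)) .nil) .nil) .nil) .nil) .nil) .nil) .nil) .nil) .nil) .nil)) .nil) .nil) .nil) .nil)) .nil) .nil))))))) (.Y 0 0 (.Y 12 18 (.D 0 4 18 2 8 (.C 2)) (.Y 13 19 (.D 0 4 19 3 9 (.C 3)) (.R (.cons 1301 .nil .nil)))) (.Y 20 20 (.D 4 20 16 0 0 (.C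 0)) (.Y 1 1 (.Y 5 17 (.D 1 4 17 0 0 (.C 0)) (.Y 12 18 (.D 1 4 18 3 9 (.C 3)) (.R (.cons 1301 (.cons 1365 (.cons 1364 .nil .nil) .nil) .nil)))) (.R (.cons 1301 (.cons 1364 (.cons 1365 (.cons 1363 (.cons 1299 (.cons 1235 (.cons 1236 (.cons 1237 (.cons 1298 (.cons 1234 (.cons 1362 (.cons 1302 (.cons 1366 .nil (.cons 1238 .nil .nil)) .nil) .nil) (.cons 1362 .nil .nil)) .nil) (.cons 1237 (.cons 1172 (.cons 1173 .nil (.cons 1171 .nil .nil)) .nil) .nil)) (.cons 1298 (.cons 1234 .nil (.cons 1362 .nil .nil)) .nil)) .nil) (.cons 1299 (.cons 1235 (.cons 1236 (.cons 1237 (.cons 1298 (.cons 1234 (.cons 1362 (.cons 1302 (.cons 1366 .nil (.cons 1238 .nil .nil)) .nil) .nil) (.cons 1362 .nil .nil)) .nil) (.cons 1237 (.cons 1172 (.cons 1173 .nil (.cons 1171 .nil .nil)) .nil) .nil)) (.cons 1298 (.cons 1234 .nil (.cons 1362 .nil .nil)) .nil)) (.cons 1235 (.cons 1236 (.cons 1237 (.cons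 1298 (.cons 1234 (.cons 1362 (.cons 1302 (.cons 1366 .nil (.cons 1238 .nil .nil)) .nil) .nil) (.cons 1362 .nil .nil)) .nil) (.cons 1237 (.cons 1172 (.cons 1173 .nil (.cons 1171 .nil .nil)) .nil) .nil)) (.cons 1298 (.cons 1234 .nil (.cons 1362 .nil .nil)) .nil)) .nil)) .nil)) .nil) (.cons 1365 .nil .nil)) (.cons 1364 (.cons 1237 (.cons 1363 (.cons 1299 (.cons 1235 (.cons 1236 .nil (.cons 1236 .nil .nil)) .nil) (.cons 1299 (.cons 1235 (.cons 1236 .nil (.cons 1236 .nil .nil)) (.cons 1235 (.cons 1236 .nil (.cons 1236 .nil .nil)) .nil)) .nil)) (.cons 1236 (.cons 1235 (.cons 1299 (.cons 1363 .nil (.cons 1363 .nil .nil)) (.cons 1299 (.cons 1363 .nil .nil) .nil)) (.cons 1235 (.cons 1299 (.cons 1363 .nil (.cons 1363 .nil .nil)) (.cons 1299 (.cons 1363 .nil .nil) .nil)) .nil)) .nil)) (.cons 1365 (.cons 1237 (.cons 1302 (.cons 1366 .nil (.cons 1238 .nil .nil)) (.cons 1236 (.cons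 1235 (.cons 1299 (.cons 1363 (.cons 1172 (.cons 1173 .nil (.cons 1171 .nil .nil)) .nil) (.cons 1363 (.cons 1172 (.cons 1173 .nil (.cons 1171 .nil .nil)) .nil) .nil)) (.cons 1299 (.cons 1363 (.cons 1172 (.cons 1173 .nil (.cons 1171 (.cons 1173 (.cons 1298 (.cons 1234 .nil (.cons 1362 .nil .nil)) .nil) .nil) .nil)) .nil) .nil) .nil)) (.cons 1235 (.cons 1299 (.cons 1363 (.cons 1298 (.cons 1234 .nil (.cons 1362 .nil .nil)) .nil) (.cons 1363 (.cons 1298 (.cons 1234 .nil (.cons 1362 .nil .nil)) .nil) .nil)) (.cons 1299 (.cons 1363 (.cons 1298 (.cons 1234 .nil (.cons 1362 .nil .nil)) .nil) .nil) .nil)) .nil)) .nil)) .nil) .nil)) .nil)) .nil))))))))))) (.Y 5 17 (.Y 14 26 (.T 3) (.Y 15 27 (.T 5) (.Y 2 8 (.Y 3 9 (.D 2 9 5 4 16 (.C 4)) (.Y 22 28 (.D 8 5 22 15 27 (.C 15)) (.Y 23 29 (.D 8 5 23 14 26 (.C 14)) (.Y 30 30 (.Y 10 10 (.T 19) (.Y 0 0 (.D 8 0 2 10 10 (.C 10)) (.Y 13 19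 (.D 2 13 17 0 0 (.C 0)) (.Y 20 20 (.D 5 20 17 0 0 (.C 0)) (.Y 31 31 (.Y 11 11 (.T 28) (.Y 1 1 (.D 8 1 2 11 11 (.C 11)) (.Y 12 18 (.D 2 12 17 1 1 (.C 1)) (.Y 21 21 (.D 5 21 17 1 1 (.C 1)) (.R (.cons 1236 (.cons 1301 (.cons 1237 .nil .nil) .nil) .nil)))))) (.Y 1 1 (.D 8 1 2 11 11 (.D 17 1 5 21 21 (.T 25))) (.R (.cons 1299 (.cons 1364 (.cons 1363 .nil (.cons 1363 .nil .nil)) .nil) .nil)))))))) (.Y 31 31 (.Y 11 11 (.T 28) (.Y 1 1 (.D 8 1 2 11 11 (.C 11)) (.Y 12 18 (.D 2 12 17 1 1 (.C 1)) (.Y 21 21 (.D 5 21 17 1 1 (.C 1)) (.Y 0 0 (.D 8 0 2 10 10 (.D 17 0 5 20 20 (.T 43))) (.R (.cons 1299 (.cons 1364 (.cons 1363 .nil (.cons 1363 .nil .nil)) .nil) .nil))))))) (.R (.cons 1299 .nil .nil))))))) (.Y 3 9 (.Y 22 28 (.D 9 5 22 14 26 (.C 14)) (.Y 23 29 (.D 9 5 23 15 27 (.C 15)) (.Y 30 30 (.Y 10 10 (.T 19) (.Y 0 0 (.D 9 0 3 10 10 (.C 10)) (.Y 12 18 (.D 3 12 17 0 0 (.C 0)) (.Y 20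 20 (.D 5 20 17 0 0 (.C 0)) (.Y 11 11 (.D 3 11 9 1 1 (.D 17 1 5 21 21 (.T 25))) (.Y 1 1 (.D 9 1 3 11 11 (.C 11)) (.Y 13 19 (.D 3 13 17 1 1 (.C 1)) (.R (.cons 1301 (.cons 1237 (.cons 1236 (.cons 1235 (.cons 1299 .nil .nil) .nil) .nil) .nil) .nil))))))))) (.Y 31 31 (.Y 11 11 (.T 28) (.Y 1 1 (.D 9 1 3 11 11 (.C 11)) (.Y 13 19 (.D 3 13 17 1 1 (.C 1)) (.Y 21 21 (.D 5 21 17 1 1 (.C 1)) (.Y 0 0 (.D 9 0 3 10 10 (.D 17 0 5 20 20 (.T 43))) (.Y 10 10 (.D 3 10 9 0 0 (.C 0)) (.R (.cons 1299 (.cons 1301 (.cons 1365 (.cons 1364 (.cons 1363 (.cons 1428 (.cons 1429 .nil .nil) .nil) .nil) .nil) (.cons 1365 (.cons 1364 (.cons 1363 (.cons 1428 (.cons 1362 (.cons 1298 .nil .nil) .nil) .nil) .nil) .nil) .nil)) .nil) .nil)))))))) (.R (.cons 1299 .nil .nil)))))) (.Y 10 10 (.Y 12 18 (.D 5 18 10 3 9 (.C 3)) (.Y 13 19 (.D 5 19 10 2 8 (.C 2)) (.Y 30 30 (.T 19) (.Y 0 0 (.Y 1 1 (.D 0 1 5 4 16 (.C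 4)) (.Y 21 21 (.D 5 21 17 1 1 (.C 1)) (.Y 22 28 (.D 0 5 22 7 25 (.C 7)) (.Y 23 29 (.D 0 5 23 6 24 (.C 6)) (.Y 31 31 (.D 17 0 5 20 20 (.T 43)) (.R (.cons 1299 .nil .nil))))))) (.Y 20 20 (.D 5 20 17 0 0 (.C 0)) (.Y 11 11 (.Y 31 31 (.T 28) (.Y 1 1 (.Y 22 28 (.D 1 5 22 6 24 (.C 6)) (.R (.cons 1299 (.cons 1363 (.cons 1364 (.cons 1365 (.cons 1301 .nil .nil) .nil) .nil) .nil) .nil))) (.R (.cons 1364 (.cons 1428 (.cons 1492 (.cons 1556 (.cons 1620 (.cons 1684 (.cons 1748 (.cons 1812 (.cons 1299 (.cons 1363 (.cons 1427 .nil .nil) (.cons 1363 .nil .nil)) .nil) .nil) .nil) .nil) .nil) .nil) .nil) .nil) .nil)))) (.Y 1 1 (.Y 22 28 (.D 1 5 22 6 24 (.C 6)) (.Y 23 29 (.D 1 5 23 7 25 (.C 7)) (.Y 31 31 (.D 17 1 5 21 21 (.T 33)) (.R (.cons 1299 .nil .nil))))) (.R (.cons 1301 (.cons 1364 (.cons 1237 (.cons 1236 (.cons 1235 (.cons 1299 .nil .nil) .nil) .nil) .nil) .nil) .nil)))))))))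 (.Y 11 11 (.Y 12 18 (.D 5 18 11 2 8 (.C 2)) (.Y 13 19 (.D 5 19 11 3 9 (.C 3)) (.Y 31 31 (.T 28) (.Y 1 1 (.Y 0 0 (.D 0 1 5 4 16 (.C 4)) (.Y 20 20 (.D 5 20 17 0 0 (.C 0)) (.Y 22 28 (.D 1 5 22 6 24 (.C 6)) (.Y 23 29 (.D 1 5 23 7 25 (.C 7)) (.Y 30 30 (.D 17 1 5 21 21 (.T 25)) (.R (.cons 1299 .nil .nil))))))) (.Y 21 21 (.D 5 21 17 1 1 (.C 1)) (.Y 0 0 (.Y 22 28 (.D 0 5 22 7 25 (.C 7)) (.Y 23 29 (.D 0 5 23 6 24 (.C 6)) (.Y 30 30 (.D 17 0 5 20 20 (.T 40)) (.R (.cons 1299 .nil .nil))))) (.R (.cons 1301 (.cons 1364 (.cons 1365 .nil .nil) .nil) .nil)))))))) (.Y 0 0 (.Y 1 1 (.D 0 1 5 4 16 (.C 4)) (.Y 12 18 (.D 0 5 18 3 9 (.C 3)) (.Y 13 19 (.D 0 5 19 2 8 (.C 2)) (.R (.cons 1301 .nil .nil))))) (.Y 20 20 (.D 5 20 17 0 0 (.C 0)) (.Y 1 1 (.Y 12 18 (.D 1 5 18 2 8 (.C 2)) (.R (.cons 1301 (.cons 1365 (.cons 1364 (.cons 1363 (.cons 1366 (.cons 1302 (.cons 1238 (.cons 1427 (.cons 1428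 (.cons 1429 .nil .nil) .nil) .nil) .nil) .nil) .nil) .nil) .nil) .nil) .nil))) (.R (.cons 1364 (.cons 1428 (.cons 1492 (.cons 1556 (.cons 1620 (.cons 1684 (.cons 1748 (.cons 1812 (.cons 1301 (.cons 1365 (.cons 1429 .nil .nil) (.cons 1302 (.cons 1303 (.cons 1304 (.cons 1305 (.cons 1306 (.cons 1307 (.cons 1308 (.cons 1237 (.cons 1173 (.cons 1238 (.cons 1239 .nil .nil) .nil) (.cons 1173 (.cons 1109 (.cons 1045 (.cons 981 (.cons 917 (.cons 853 (.cons 789 (.cons 1236 (.cons 1235 (.cons 1299 (.cons 1363 .nil .nil) .nil) (.cons 1235 (.cons 1234 (.cons 1233 (.cons 1232 (.cons 1231 (.cons 1230 (.cons 1229 (.cons 1228 (.cons 1299 (.cons 1363 .nil (.cons 1363 .nil .nil)) .nil) .nil) .nil) .nil) .nil) .nil) .nil) .nil) .nil)) .nil) .nil) .nil) .nil) .nil) .nil) .nil) .nil)) .nil) .nil) .nil) .nil) .nil) .nil) .nil) .nil)) .nil) .nil) .nil) .nil) .nil) .nil) .nil) .nil) .nil)))))))))))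 (.Y 2 8 (.Y 22 28 (.T 14) (.Y 3 9 (.Y 23 29 (.T 16) (.Y 20 20 (.Y 12 18 (.D 2 12 20 4 16 (.C 4)) (.Y 13 19 (.D 3 13 20 4 16 (.C 4)) (.Y 30 30 (.T 22) (.Y 0 0 (.Y 14 26 (.D 0 2 14 6 24 (.C 6)) (.Y 15 27 (.D 0 3 15 6 24 (.C 6)) (.Y 31 31 (.D 8 0 3 11 11 (.T 30)) (.R (.cons 1299 .nil .nil))))) (.Y 1 1 (.D 1 2 9 0 0 (.C 0)) (.Y 10 10 (.D 2 10 8 0 0 (.C 0)) (.Y 11 11 (.D 2 11 9 0 0 (.C 0)) (.Y 21 21 (.Y 31 31 (.T 32) (.R (.cons 1236 (.cons 1299 (.cons 1235 .nil (.cons 1235 (.cons 1364 (.cons 1363 .nil (.cons 1363 (.cons 1365 (.cons 1301 (.cons 1237 (.cons 1172 (.cons 1171 .nil (.cons 1173 .nil .nil)) .nil) .nil) (.cons 1301 (.cons 1237 (.cons 1172 (.cons 1171 .nil (.cons 1173 .nil .nil)) .nil) .nil) .nil)) .nil) .nil)) .nil) .nil)) (.cons 1299 (.cons 1235 (.cons 1364 (.cons 1363 (.cons 1237 (.cons 1301 (.cons 1365 (.cons 1172 (.cons 1171 .nil (.cons 1173 .nil .nil)) .nil)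 .nil) (.cons 1301 (.cons 1365 (.cons 1172 (.cons 1171 .nil (.cons 1171 (.cons 1173 (.cons 1298 (.cons 1234 (.cons 1170 .nil .nil) (.cons 1234 .nil .nil)) .nil) .nil) .nil)) .nil) .nil) .nil)) .nil) (.cons 1363 .nil .nil)) .nil) (.cons 1235 (.cons 1364 (.cons 1363 .nil (.cons 1363 (.cons 1237 (.cons 1301 (.cons 1365 .nil .nil) (.cons 1301 (.cons 1365 .nil .nil) .nil)) .nil) .nil)) .nil) .nil)) .nil)) .nil))) (.R (.cons 1236 (.cons 1364 (.cons 1365 (.cons 1301 (.cons 1237 .nil .nil) .nil) (.cons 1363 (.cons 1299 .nil .nil) .nil)) .nil) .nil)))))))))) (.Y 21 21 (.Y 12 18 (.D 3 12 21 4 16 (.C 4)) (.Y 13 19 (.D 2 13 21 4 16 (.C 4)) (.Y 31 31 (.T 32) (.Y 0 0 (.Y 14 26 (.D 0 2 14 6 24 (.C 6)) (.Y 15 27 (.D 0 3 15 6 24 (.C 6)) (.Y 30 30 (.D 0 2 9 1 1 (.D 8 0 2 10 10 (.T 24))) (.R (.cons 1299 .nil .nil))))) (.Y 1 1 (.D 1 2 9 0 0 (.C 0)) (.R (.cons 1236 (.cons 1364 (.cons 1365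 (.cons 1363 (.cons 1299 .nil (.cons 1299 (.cons 1235 .nil .nil) .nil)) .nil) (.cons 1363 (.cons 1299 (.cons 1235 (.cons 1365 (.cons 1301 (.cons 1237 (.cons 1302 (.cons 1238 (.cons 1366 (.cons 1429 (.cons 1428 (.cons 1427 (.cons 1430 (.cons 1172 (.cons 1171 .nil (.cons 1173 .nil .nil)) .nil) .nil) .nil) .nil) .nil) .nil) .nil) .nil) .nil) (.cons 1301 (.cons 1237 (.cons 1238 (.cons 1302 (.cons 1366 (.cons 1172 (.cons 1171 .nil (.cons 1173 .nil .nil)) .nil) .nil) .nil) .nil) .nil) .nil)) .nil) .nil) .nil) .nil)) .nil) .nil))))))) (.Y 0 0 (.Y 12 18 (.D 0 2 12 4 16 (.C 4)) (.Y 13 19 (.D 0 3 13 4 16 (.C 4)) (.R (.cons 1236 .nil .nil)))) (.Y 1 1 (.D 1 2 9 0 0 (.C 0)) (.R (.cons 1236 (.cons 1364 (.cons 1235 (.cons 1299 .nil (.cons 1299 .nil .nil)) (.cons 1235 (.cons 1299 .nil (.cons 1299 .nil .nil)) .nil)) (.cons 1364 (.cons 1235 (.cons 1299 .nil (.cons 1299 .nil .nil)) (.cons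 1235 (.cons 1299 .nil (.cons 1299 .nil .nil)) .nil)) .nil)) .nil))))))) (.Y 21 21 (.Y 12 18 (.D 2 12 21 5 17 (.C 5)) (.Y 13 19 (.D 2 13 21 4 16 (.C 4)) (.Y 31 31 (.T 32) (.Y 23 29 (.D 29 21 23 31 31 (.C 31)) (.Y 0 0 (.Y 1 1 (.D 0 1 2 3 9 (.C 3)) (.Y 11 11 (.D 2 11 8 1 1 (.C 1)) (.Y 14 26 (.D 0 2 14 6 24 (.C 6)) (.Y 15 27 (.D 0 2 15 7 25 (.C 7)) (.Y 20 20 (.Y 30 30 (.D 8 0 2 10 10 (.T 23)) (.R (.cons 1299 .nil .nil))) (.R (.cons 1236 (.cons 1299 (.cons 1235 .nil .nil) .nil) .nil))))))) (.Y 10 10 (.D 2 10 8 0 0 (.C 0)) (.Y 1 1 (.Y 14 26 (.D 1 2 14 7 25 (.C 7)) (.Y 15 27 (.D 1 2 15 6 24 (.C 6)) (.Y 30 30 (.D 8 1 2 11 11 (.T 25)) (.R (.cons 1299 .nil .nil))))) (.R (.cons 1364 (.cons 1365 (.cons 1301 (.cons 1236 (.cons 1237 .nil (.cons 1237 .nil .nil)) .nil) .nil) .nil) .nil))))))))) (.Y 20 20 (.Y 12 18 (.D 2 12 20 4 16 (.C 4)) (.Y 13 19 (.D 2 13 20 5 17 (.C 5)) (.Y 0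 0 (.Y 1 1 (.D 0 1 2 3 9 (.C 3)) (.Y 11 11 (.D 2 11 8 1 1 (.C 1)) (.Y 14 26 (.D 0 2 14 6 24 (.C 6)) (.Y 15 27 (.D 0 2 15 7 25 (.C 7)) (.Y 23 29 (.D 8 0 2 10 10 (.T 17)) (.Y 30 30 (.D 8 0 2 10 10 (.T 23)) (.R (.cons 1236 (.cons 1299 (.cons 1235 .nil .nil) .nil) .nil)))))))) (.Y 10 10 (.D 2 10 8 0 0 (.C 0)) (.Y 1 1 (.Y 14 26 (.D 1 2 14 7 25 (.C 7)) (.Y 15 27 (.D 1 2 15 6 24 (.C 6)) (.Y 31 31 (.D 8 1 2 11 11 (.T 31)) (.R (.cons 1236 (.cons 1299 (.cons 1235 .nil (.cons 1235 .nil .nil)) (.cons 1299 (.cons 1235 .nil (.cons 1235 .nil .nil)) .nil)) .nil))))) (.R (.cons 1364 (.cons 1365 (.cons 1301 (.cons 1236 (.cons 1235 (.cons 1299 (.cons 1363 .nil .nil) .nil) (.cons 1172 (.cons 1171 (.cons 1235 (.cons 1299 (.cons 1363 (.cons 1298 (.cons 1234 .nil .nil) .nil) (.cons 1363 .nil .nil)) .nil) .nil) .nil) .nil)) .nil) .nil) .nil) .nil))))))) (.Y 0 0 (.Y 1 1 (.D 0 1 2 3 9 (.C 3))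 (.Y 11 11 (.D 2 11 8 1 1 (.C 1)) (.Y 12 18 (.D 0 2 12 4 16 (.C 4)) (.Y 13 19 (.D 0 2 13 5 17 (.C 5)) (.Y 14 26 (.D 0 2 14 6 24 (.C 6)) (.Y 15 27 (.D 0 2 15 7 25 (.C 7)) (.Y 23 29 (.D 8 0 2 10 10 (.T 17)) (.R (.cons 1236 .nil .nil))))))))) (.Y 10 10 (.D 2 10 8 0 0 (.C 0)) (.Y 1 1 (.Y 12 18 (.D 1 2 12 5 17 (.C 5)) (.Y 13 19 (.D 1 2 13 4 16 (.C 4)) (.R (.cons 1236 (.cons 1237 (.cons 1301 (.cons 1365 (.cons 1364 .nil .nil) .nil) .nil) .nil) .nil)))) (.R (.cons 1364 (.cons 1365 (.cons 1301 (.cons 1236 (.cons 1237 .nil (.cons 1235 (.cons 1299 .nil .nil) (.cons 1237 .nil .nil))) .nil) .nil) .nil) .nil))))))))) (.Y 3 9 (.Y 23 29 (.T 16) (.Y 20 20 (.Y 12 18 (.D 3 12 20 5 17 (.C 5)) (.Y 13 19 (.D 3 13 20 4 16 (.C 4)) (.Y 30 30 (.T 22) (.Y 22 28 (.D 28 20 22 30 30 (.C 30)) (.Y 0 0 (.Y 1 1 (.D 0 1 3 2 8 (.C 2)) (.Y 11 11 (.D 3 11 9 1 1 (.C 1)) (.Y 14 26 (.D 0 3 14 7 25 (.C 7))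 (.Y 15 27 (.D 0 3 15 6 24 (.C 6)) (.R (.cons 1299 (.cons 1236 (.cons 1235 (.cons 1301 (.cons 1237 .nil (.cons 1237 .nil .nil)) .nil) (.cons 1235 .nil .nil)) .nil) .nil)))))) (.Y 10 10 (.D 3 10 9 0 0 (.C 0)) (.Y 1 1 (.Y 14 26 (.D 1 3 14 6 24 (.C 6)) (.Y 15 27 (.D 1 3 15 7 25 (.C 7)) (.Y 31 31 (.D 9 1 3 11 11 (.T 31)) (.R (.cons 1299 .nil .nil))))) (.R (.cons 1364 (.cons 1363 (.cons 1299 (.cons 1235 (.cons 1236 .nil .nil) .nil) .nil) .nil) .nil))))))))) (.Y 21 21 (.Y 12 18 (.D 3 12 21 4 16 (.C 4)) (.Y 13 19 (.D 3 13 21 5 17 (.C 5)) (.Y 0 0 (.Y 1 1 (.D 0 1 3 2 8 (.C 2)) (.Y 11 11 (.D 3 11 9 1 1 (.C 1)) (.Y 14 26 (.D 0 3 14 7 25 (.C 7)) (.Y 15 27 (.D 0 3 15 6 24 (.C 6)) (.R (.cons 1236 (.cons 1301 (.cons 1237 .nil (.cons 1237 .nil .nil)) (.cons 1301 (.cons 1237 .nil (.cons 1237 .nil .nil)) .nil)) .nil)))))) (.Y 10 10 (.D 3 10 9 0 0 (.C 0)) (.Y 1 1 (.Y 14 26 (.D 1 3 14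 6 24 (.C 6)) (.Y 15 27 (.D 1 3 15 7 25 (.C 7)) (.Y 22 28 (.D 9 1 3 11 11 (.T 15)) (.Y 30 30 (.D 9 1 3 11 11 (.T 25)) (.Y 31 31 (.D 9 1 3 11 11 (.T 35)) (.R (.cons 1299 .nil .nil))))))) (.R (.cons 1364 (.cons 1363 (.cons 1299 (.cons 1235 (.cons 1236 .nil .nil) .nil) .nil) .nil) .nil))))))) (.Y 1 1 (.Y 0 0 (.D 0 1 3 2 8 (.C 2)) (.Y 10 10 (.D 3 10 9 0 0 (.C 0)) (.Y 12 18 (.D 1 3 12 4 16 (.C 4)) (.Y 13 19 (.D 1 3 13 5 17 (.C 5)) (.Y 14 26 (.D 1 3 14 6 24 (.C 6)) (.Y 15 27 (.D 1 3 15 7 25 (.C 7)) (.Y 22 28 (.D 9 1 3 11 11 (.T 15)) (.R (.cons 1236 .nil .nil))))))))) (.Y 11 11 (.D 3 11 9 1 1 (.C 1)) (.Y 0 0 (.Y 12 18 (.D 0 3 12 5 17 (.C 5)) (.Y 13 19 (.D 0 3 13 4 16 (.C 4)) (.R (.cons 1236 (.cons 1235 (.cons 1299 (.cons 1364 (.cons 1363 (.cons 1365 (.cons 1301 .nil .nil) .nil) (.cons 1363 (.cons 1428 (.cons 1427 .nil .nil) .nil) .nil)) .nil) .nil) .nil) .nil)))) (.R (.cons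 1364 (.cons 1363 (.cons 1299 (.cons 1298 (.cons 1362 .nil .nil) .nil) .nil) .nil) .nil)))))))) (.Y 0 0 (.Y 20 20 (.Y 14 26 (.T 7) (.Y 15 27 (.T 9) (.Y 10 10 (.Y 23 29 (.T 17) (.Y 30 30 (.T 23) (.Y 22 28 (.D 28 20 22 30 30 (.C 30)) (.Y 31 31 (.Y 11 11 (.T 30) (.Y 1 1 (.Y 12 18 (.T 29) (.Y 21 21 (.T 33) (.R (.cons 1299 (.cons 1236 (.cons 1235 .nil (.cons 1235 .nil .nil)) .nil) .nil)))) (.R (.cons 1299 (.cons 1364 (.cons 1363 .nil .nil) .nil) .nil)))) (.R (.cons 1299 .nil .nil)))))) (.Y 12 18 (.D 12 20 18 10 10 (.C 10)) (.Y 13 19 (.D 13 20 19 10 10 (.C 10)) (.Y 11 11 (.Y 31 31 (.T 30) (.Y 1 1 (.Y 22 28 (.T 15) (.Y 21 21 (.Y 23 29 (.D 20 21 23 22 28 (.C 22)) (.Y 30 30 (.T 25) (.R (.cons 1299 .nil .nil)))) (.R (.cons 1301 (.cons 1236 (.cons 1237 .nil (.cons 1237 .nil .nil)) .nil) .nil)))) (.R (.cons 1301 (.cons 1364 (.cons 1365 .nil .nil) .nil) .nil)))) (.R (.cons 1301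 .nil .nil)))))))) (.Y 21 21 (.Y 14 26 (.T 11) (.Y 1 1 (.Y 15 27 (.T 13) (.Y 11 11 (.Y 22 28 (.T 15) (.Y 30 30 (.T 25) (.Y 31 31 (.T 34) (.Y 23 29 (.D 29 21 23 31 31 (.C 31)) (.R (.cons 1299 .nil .nil)))))) (.Y 12 18 (.D 12 21 18 11 11 (.C 11)) (.Y 13 19 (.D 13 21 19 11 11 (.C 11)) (.Y 10 10 (.Y 23 29 (.T 17) (.Y 30 30 (.T 24) (.Y 31 31 (.T 33) (.R (.cons 1299 (.cons 1301 (.cons 1235 (.cons 1236 (.cons 1237 .nil .nil) .nil) .nil) .nil) .nil))))) (.R (.cons 1301 .nil .nil))))))) (.Y 10 10 (.Y 12 18 (.D 18 10 12 20 20 (.C 20)) (.Y 13 19 (.D 10 13 21 12 18 (.C 12)) (.Y 23 29 (.T 17) (.Y 11 11 (.Y 15 27 (.D 10 11 15 14 26 (.C 14)) (.Y 31 31 (.T 34) (.R (.cons 1364 (.cons 1236 (.cons 1172 (.cons 1299 (.cons 1235 .nil (.cons 1235 .nil .nil)) .nil) (.cons 1237 (.cons 1301 .nil .nil) .nil)) .nil) .nil)))) (.Y 15 27 (.D 27 10 15 30 30 (.T 42)) (.R (.cons 1301 (.cons 1364 (.cons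 1365 .nil .nil) .nil) .nil))))))) (.Y 13 19 (.Y 12 18 (.D 12 21 19 10 10 (.C 10)) (.Y 22 28 (.D 13 21 22 14 26 (.C 14)) (.Y 30 30 (.T 21) (.Y 31 31 (.D 13 21 19 11 11 (.T 34)) (.R (.cons 1364 (.cons 1299 (.cons 1363 .nil (.cons 1363 .nil .nil)) .nil) .nil)))))) (.Y 11 11 (.Y 31 31 (.T 34) (.R (.cons 1364 (.cons 1301 (.cons 1237 (.cons 1236 (.cons 1235 (.cons 1299 (.cons 1363 .nil .nil) .nil) .nil) .nil) (.cons 1302 (.cons 1365 (.cons 1366 (.cons 1429 (.cons 1430 .nil .nil) .nil) (.cons 1366 .nil .nil)) .nil) (.cons 1365 .nil .nil))) .nil) .nil))) (.R (.cons 1364 (.cons 1301 (.cons 1237 (.cons 1236 (.cons 1235 (.cons 1299 (.cons 1363 .nil (.cons 1363 .nil .nil)) .nil) .nil) .nil) (.cons 1302 (.cons 1237 (.cons 1236 .nil (.cons 1236 (.cons 1235 (.cons 1173 (.cons 1363 (.cons 1299 (.cons 1298 (.cons 1362 .nil .nil) .nil) (.cons 1299 (.cons 1298 (.cons 1362 .nil .nil)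 .nil) .nil)) .nil) .nil) .nil) .nil)) .nil) .nil)) .nil) .nil))))))) (.Y 10 10 (.Y 12 18 (.D 18 10 12 20 20 (.C 20)) (.Y 13 19 (.D 19 10 13 20 20 (.C 20)) (.Y 23 29 (.T 17) (.Y 1 1 (.Y 11 11 (.Y 22 28 (.T 15) (.R (.cons 1236 .nil .nil))) (.R (.cons 1236 (.cons 1235 (.cons 1299 (.cons 1364 (.cons 1363 .nil (.cons 1363 .nil .nil)) .nil) .nil) .nil) .nil))) (.R (.cons 1236 (.cons 1364 (.cons 1235 (.cons 1299 (.cons 1363 .nil .nil) .nil) .nil) .nil) .nil)))))) (.Y 13 19 (.Y 11 11 (.D 19 11 13 21 21 (.C 21)) (.Y 30 30 (.T 21) (.Y 1 1 (.Y 12 18 (.Y 31 31 (.T 29) (.Y 14 26 (.Y 22 28 (.D 12 22 26 10 10 (.C 10)) (.Y 23 29 (.D 13 23 26 10 10 (.C 10)) (.R (.cons 1236 (.cons 1299 (.cons 1235 .nil (.cons 1235 (.cons 1364 (.cons 1363 (.cons 1237 (.cons 1301 (.cons 1365 (.cons 1172 (.cons 1171 (.cons 1173 (.cons 1298 (.cons 1362 .nil (.cons 1234 .nil .nil)) .nil) .nil) (.cons 1171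 .nil .nil)) .nil) .nil) (.cons 1301 (.cons 1365 (.cons 1172 (.cons 1173 .nil (.cons 1171 .nil .nil)) .nil) .nil) .nil)) .nil) (.cons 1363 (.cons 1237 (.cons 1301 (.cons 1365 .nil .nil) (.cons 1301 (.cons 1365 .nil .nil) .nil)) .nil) .nil)) .nil) .nil)) (.cons 1299 (.cons 1235 (.cons 1364 (.cons 1363 .nil (.cons 1363 (.cons 1237 (.cons 1301 (.cons 1365 .nil .nil) (.cons 1301 (.cons 1365 (.cons 1172 (.cons 1173 .nil (.cons 1171 .nil .nil)) .nil) (.cons 1365 (.cons 1172 (.cons 1173 .nil (.cons 1171 .nil .nil)) .nil) .nil)) .nil)) .nil) .nil)) .nil) (.cons 1235 .nil .nil)) .nil)) .nil)))) (.Y 15 27 (.D 12 19 15 14 26 (.C 14)) (.R (.cons 1299 (.cons 1301 (.cons 1364 (.cons 1363 .nil (.cons 1363 .nil .nil)) (.cons 1364 (.cons 1363 .nil (.cons 1363 .nil .nil)) .nil)) (.cons 1301 (.cons 1364 (.cons 1363 .nil (.cons 1363 .nil .nil)) (.cons 1364 (.cons 1363 .nil (.cons 1363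 .nil .nil)) .nil)) .nil)) .nil))))) (.Y 14 26 (.Y 15 27 (.D 19 14 27 18 12 (.C 12)) (.Y 22 28 (.D 13 22 26 11 11 (.C 11)) (.Y 23 29 (.D 13 23 26 10 10 (.C 10)) (.R (.cons 1236 (.cons 1235 (.cons 1299 .nil .nil) .nil) .nil))))) (.Y 15 27 (.Y 22 28 (.D 13 22 27 10 10 (.C 10)) (.Y 23 29 (.D 13 23 27 11 11 (.C 11)) (.R (.cons 1236 (.cons 1235 (.cons 1299 (.cons 1363 (.cons 1364 .nil .nil) .nil) .nil) .nil) .nil)))) (.R (.cons 1301 (.cons 1365 (.cons 1364 .nil .nil) .nil) .nil))))) (.Y 12 18 (.Y 14 26 (.Y 22 28 (.D 12 22 26 10 10 (.C 10)) (.Y 23 29 (.D 13 23 26 10 10 (.C 10)) (.R (.cons 1364 (.cons 1236 (.cons 1235 (.cons 1299 .nil .nil) (.cons 1237 (.cons 1301 (.cons 1365 .nil .nil) .nil) .nil)) .nil) .nil)))) (.Y 15 27 (.D 12 19 15 14 26 (.C 14)) (.R (.cons 1364 (.cons 1301 (.cons 1365 .nil (.cons 1365 (.cons 1302 (.cons 1366 .nil .nil) .nil) .nil)) .nil) .nil)))) (.Y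 14 26 (.Y 15 27 (.D 19 14 27 18 12 (.C 12)) (.Y 22 28 (.D 13 22 26 11 11 (.C 11)) (.Y 23 29 (.D 13 23 26 10 10 (.C 10)) (.R (.cons 1236 (.cons 1364 (.cons 1235 (.cons 1299 .nil .nil) .nil) .nil) .nil))))) (.R (.cons 1364 (.cons 1301 (.cons 1237 (.cons 1236 .nil .nil) (.cons 1365 .nil .nil)) .nil) .nil))))))) (.Y 1 1 (.Y 11 11 (.Y 12 18 (.D 18 11 12 21 21 (.C 21)) (.Y 22 28 (.T 15) (.R (.cons 1236 (.cons 1237 (.cons 1301 (.cons 1365 (.cons 1364 .nil .nil) .nil) .nil) .nil) .nil)))) (.Y 12 18 (.Y 31 31 (.T 29) (.Y 14 26 (.Y 15 27 (.D 18 14 27 19 13 (.C 13)) (.Y 22 28 (.D 12 22 26 10 10 (.C 10)) (.R (.cons 1236 (.cons 1301 (.cons 1237 .nil (.cons 1237 .nil .nil)) (.cons 1301 (.cons 1237 (.cons 1364 (.cons 1365 .nil (.cons 1365 .nil .nil)) .nil) (.cons 1237 .nil .nil)) .nil)) .nil)))) (.Y 15 27 (.Y 22 28 (.D 12 22 27 11 11 (.C 11)) (.R (.cons 1236 (.cons 1301 (.cons 1364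 (.cons 1365 .nil (.cons 1365 .nil .nil)) (.cons 1237 .nil .nil)) (.cons 1301 (.cons 1237 .nil (.cons 1237 (.cons 1364 (.cons 1365 .nil (.cons 1365 (.cons 1235 (.cons 1299 .nil (.cons 1299 (.cons 1363 .nil .nil) .nil)) .nil) .nil)) .nil) .nil)) .nil)) .nil))) (.R (.cons 1301 (.cons 1237 (.cons 1236 (.cons 1364 (.cons 1365 .nil (.cons 1363 (.cons 1299 (.cons 1235 .nil .nil) .nil) .nil)) .nil) .nil) .nil) .nil))))) (.R (.cons 1236 (.cons 1301 (.cons 1237 (.cons 1364 (.cons 1365 .nil (.cons 1365 (.cons 1235 (.cons 1299 (.cons 1363 .nil .nil) (.cons 1363 (.cons 1299 (.cons 1172 (.cons 1173 .nil (.cons 1171 .nil .nil)) (.cons 1172 (.cons 1173 .nil (.cons 1171 .nil .nil)) .nil)) (.cons 1299 (.cons 1172 (.cons 1173 .nil (.cons 1171 .nil .nil)) .nil) .nil)) .nil)) .nil) .nil)) .nil) (.cons 1237 .nil .nil)) (.cons 1301 (.cons 1237 .nil (.cons 1237 (.cons 1364 (.cons 1365 (.cons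 1235 (.cons 1299 (.cons 1363 (.cons 1172 (.cons 1171 .nil (.cons 1171 (.cons 1173 (.cons 1298 (.cons 1234 (.cons 1362 (.cons 1170 (.cons 1302 (.cons 1366 .nil (.cons 1238 .nil .nil)) .nil) .nil) .nil) (.cons 1234 .nil .nil)) .nil) .nil) .nil)) .nil) .nil) (.cons 1299 (.cons 1363 (.cons 1172 (.cons 1173 .nil (.cons 1171 .nil .nil)) .nil) (.cons 1363 (.cons 1172 (.cons 1173 .nil (.cons 1171 .nil .nil)) .nil) .nil)) .nil)) .nil) (.cons 1235 (.cons 1299 (.cons 1363 .nil .nil) (.cons 1299 (.cons 1363 .nil (.cons 1363 .nil .nil)) .nil)) .nil)) .nil) .nil)) .nil)) .nil)))) (.Y 11 11 (.Y 12 18 (.D 18 11 12 21 21 (.C 21)) (.R (.cons 1364 (.cons 1236 (.cons 1235 (.cons 1299 (.cons 1363 .nil .nil) .nil) (.cons 1237 (.cons 1301 .nil .nil) .nil)) .nil) .nil))) (.Y 12 18 (.Y 14 26 (.Y 15 27 (.D 18 14 27 19 13 (.C 13)) (.Y 22 28 (.D 12 22 26 10 10 (.C 10)) (.R (.cons 1364 (.cons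 1236 (.cons 1235 (.cons 1299 (.cons 1363 .nil .nil) .nil) (.cons 1235 (.cons 1299 (.cons 1363 .nil .nil) .nil) .nil)) .nil) .nil)))) (.R (.cons 1364 (.cons 1301 (.cons 1237 (.cons 1236 (.cons 1235 (.cons 1365 (.cons 1366 (.cons 1302 .nil .nil) .nil) .nil) .nil) .nil) (.cons 1302 (.cons 1237 (.cons 1236 .nil (.cons 1236 (.cons 1235 (.cons 1173 (.cons 1363 (.cons 1299 (.cons 1298 (.cons 1362 .nil .nil) .nil) (.cons 1299 (.cons 1298 (.cons 1362 .nil .nil) .nil) .nil)) .nil) .nil) .nil) .nil)) .nil) .nil)) .nil) .nil))) (.R (.cons 1364 (.cons 1236 (.cons 1235 (.cons 1299 (.cons 1363 .nil .nil) .nil) (.cons 1237 (.cons 1301 .nil .nil) .nil)) .nil) .nil))))))))) (.Y 1 1 (.Y 20 20 (.Y 14 26 (.T 8) (.Y 21 21 (.Y 15 27 (.T 13) (.Y 11 11 (.Y 22 28 (.T 15) (.Y 23 29 (.D 20 21 23 22 28 (.C 22)) (.Y 30 30 (.T 25) (.Y 31 31 (.T 31) (.R (.cons 1299 .nil .nil)))))) (.Y 12 18 (.D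 12 21 18 11 11 (.C 11)) (.Y 13 19 (.D 13 21 19 11 11 (.C 11)) (.Y 10 10 (.Y 30 30 (.T 24) (.Y 22 28 (.D 28 20 22 30 30 (.C 30)) (.Y 23 29 (.D 20 21 23 22 28 (.C 22)) (.Y 31 31 (.T 33) (.R (.cons 1299 .nil .nil)))))) (.R (.cons 1301 .nil .nil))))))) (.Y 11 11 (.Y 12 18 (.D 18 11 12 21 21 (.C 21)) (.Y 13 19 (.D 11 13 20 12 18 (.C 12)) (.Y 22 28 (.T 15) (.Y 31 31 (.T 31) (.Y 15 27 (.D 27 11 15 31 31 (.C 31)) (.R (.cons 1364 (.cons 1236 (.cons 1235 (.cons 1299 .nil .nil) (.cons 1172 (.cons 1299 (.cons 1235 .nil (.cons 1235 .nil .nil)) .nil) .nil)) .nil) .nil))))))) (.Y 12 18 (.Y 13 19 (.D 12 20 19 11 11 (.C 11)) (.Y 22 28 (.D 12 20 22 14 26 (.C 14)) (.Y 31 31 (.T 29) (.Y 15 27 (.D 12 20 18 10 10 (.D 27 10 15 30 30 (.T 41))) (.R (.cons 1364 (.cons 1299 (.cons 1363 .nil (.cons 1363 .nil .nil)) .nil) .nil)))))) (.Y 10 10 (.Y 15 27 (.D 27 10 15 30 30 (.T 41)) (.R (.cons 1364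 (.cons 1301 (.cons 1365 .nil (.cons 1365 .nil .nil)) .nil) .nil))) (.Y 13 19 (.D 13 20 19 10 10 (.C 10)) (.R (.cons 1301 (.cons 1364 (.cons 1365 .nil .nil) .nil) .nil)))))))) (.Y 21 21 (.Y 14 26 (.T 12) (.Y 15 27 (.T 13) (.Y 11 11 (.Y 22 28 (.T 15) (.Y 30 30 (.T 25) (.Y 31 31 (.T 35) (.R (.cons 1299 (.cons 1364 (.cons 1363 .nil .nil) .nil) .nil))))) (.Y 12 18 (.D 12 21 18 11 11 (.C 11)) (.Y 13 19 (.D 13 21 19 11 11 (.C 11)) (.Y 10 10 (.Y 30 30 (.T 24) (.Y 31 31 (.T 33) (.R (.cons 1301 (.cons 1364 (.cons 1237 (.cons 1236 (.cons 1365 (.cons 1172 (.cons 1173 (.cons 1429 (.cons 1428 (.cons 1492 (.cons 1109 (.cons 1108 (.cons 1493 (.cons 1044 (.cons 1045 (.cons 1557 (.cons 1556 (.cons 1620 (.cons 981 (.cons 980 (.cons 1621 (.cons 916 (.cons 917 (.cons 1685 (.cons 1684 (.cons 1748 (.cons 853 (.cons 852 (.cons 1749 (.cons 788 (.cons 789 (.cons 1299 (.cons 1235 .nil (.cons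 1235 .nil .nil)) .nil) .nil) .nil) .nil) .nil) .nil) .nil) .nil) .nil) .nil) .nil) .nil) .nil) .nil) .nil) .nil) .nil) .nil) .nil) .nil) .nil) .nil) .nil) .nil) .nil) .nil) .nil) .nil) .nil) .nil) .nil) .nil)))) (.R (.cons 1301 .nil .nil)))))))) (.Y 11 11 (.Y 12 18 (.D 18 11 12 21 21 (.C 21)) (.Y 13 19 (.D 19 11 13 21 21 (.C 21)) (.Y 22 28 (.T 15) (.R (.cons 1236 (.cons 1364 (.cons 1235 (.cons 1237 (.cons 1301 (.cons 1365 .nil .nil) .nil) .nil) .nil) .nil) .nil))))) (.Y 12 18 (.Y 10 10 (.D 18 10 12 20 20 (.C 20)) (.Y 31 31 (.T 29) (.Y 13 19 (.Y 14 26 (.Y 22 28 (.D 12 22 26 10 10 (.C 10)) (.Y 23 29 (.D 13 23 26 10 10 (.C 10)) (.R (.cons 1364 (.cons 1236 (.cons 1235 (.cons 1299 (.cons 1363 (.cons 1237 (.cons 1301 (.cons 1365 (.cons 1302 (.cons 1173 (.cons 1172 (.cons 1171 (.cons 1238 (.cons 1366 (.cons 1174 (.cons 1428 (.cons 1429 .nil (.cons 1427 .nil .nil)) .nil)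 .nil) .nil) .nil) .nil) .nil) .nil) .nil) .nil) (.cons 1301 .nil .nil)) .nil) .nil) .nil) (.cons 1237 (.cons 1301 (.cons 1302 (.cons 1238 .nil .nil) (.cons 1365 (.cons 1235 (.cons 1299 .nil (.cons 1299 (.cons 1363 .nil .nil) .nil)) .nil) .nil)) .nil) .nil)) .nil) .nil)))) (.Y 15 27 (.D 12 19 15 14 26 (.C 14)) (.R (.cons 1364 (.cons 1301 (.cons 1365 .nil (.cons 1365 .nil .nil)) .nil) .nil)))) (.Y 14 26 (.Y 15 27 (.D 18 14 27 19 13 (.C 13)) (.R (.cons 1364 (.cons 1301 (.cons 1365 .nil (.cons 1365 (.cons 1302 (.cons 1366 .nil (.cons 1366 (.cons 1303 (.cons 1367 .nil (.cons 1367 (.cons 1304 (.cons 1368 .nil (.cons 1368 (.cons 1305 (.cons 1369 .nil (.cons 1369 (.cons 1306 (.cons 1370 .nil (.cons 1370 (.cons 1307 (.cons 1371 .nil (.cons 1371 (.cons 1308 (.cons 1372 .nil (.cons 1372 (.cons 1236 (.cons 1237 .nil (.cons 1237 .nil (.cons 1237 (.cons 1238 .nil .nil) .nil)))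 .nil) .nil)) .nil) .nil)) .nil) .nil)) .nil) .nil)) .nil) .nil)) .nil) .nil)) .nil) .nil)) .nil) .nil)) .nil) .nil))) (.Y 15 27 (.Y 22 28 (.D 12 22 27 11 11 (.C 11)) (.R (.cons 1364 (.cons 1236 (.cons 1235 (.cons 1299 (.cons 1363 (.cons 1298 (.cons 1234 .nil .nil) .nil) .nil) .nil) (.cons 1235 (.cons 1299 .nil .nil) .nil)) .nil) .nil))) (.R (.cons 1301 (.cons 1364 (.cons 1365 .nil .nil) .nil) .nil))))))) (.Y 10 10 (.Y 13 19 (.D 19 10 13 20 20 (.C 20)) (.R (.cons 1364 (.cons 1236 (.cons 1235 (.cons 1237 (.cons 1301 .nil (.cons 1301 (.cons 1365 .nil .nil) .nil)) .nil) (.cons 1237 (.cons 1301 (.cons 1365 (.cons 1235 (.cons 1299 (.cons 1363 (.cons 1298 (.cons 1171 (.cons 1172 (.cons 1173 (.cons 1234 (.cons 1362 (.cons 1170 (.cons 1428 (.cons 1429 .nil (.cons 1427 .nil .nil)) .nil) .nil) .nil) .nil) .nil) .nil) .nil) .nil) .nil) (.cons 1299 (.cons 1363 (.cons 1362 (.cons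 1298 (.cons 1234 (.cons 1428 (.cons 1429 .nil (.cons 1427 .nil .nil)) .nil) .nil) .nil) .nil) .nil) .nil)) .nil) .nil) .nil) .nil)) .nil) .nil))) (.Y 13 19 (.Y 14 26 (.Y 15 27 (.D 19 14 27 18 12 (.C 12)) (.R (.cons 1364 (.cons 1301 (.cons 1365 .nil (.cons 1365 (.cons 1302 (.cons 1366 .nil (.cons 1366 (.cons 1303 (.cons 1367 .nil (.cons 1367 (.cons 1304 (.cons 1368 .nil (.cons 1368 (.cons 1305 (.cons 1369 .nil (.cons 1369 (.cons 1306 (.cons 1370 .nil (.cons 1370 (.cons 1307 (.cons 1371 .nil (.cons 1371 (.cons 1308 (.cons 1372 .nil (.cons 1372 (.cons 1236 (.cons 1237 .nil (.cons 1237 .nil (.cons 1237 (.cons 1238 .nil .nil) .nil))) .nil) .nil)) .nil) .nil)) .nil) .nil)) .nil) .nil)) .nil) .nil)) .nil) .nil)) .nil) .nil)) .nil) .nil)) .nil) .nil))) (.Y 15 27 (.Y 22 28 (.D 13 22 27 10 10 (.C 10)) (.Y 23 29 (.D 13 23 27 11 11 (.C 11)) (.R (.cons 1236 (.cons 1364 (.cons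 1235 (.cons 1299 (.cons 1363 .nil .nil) .nil) .nil) .nil) .nil)))) (.R (.cons 1301 (.cons 1364 (.cons 1365 .nil .nil) .nil) .nil)))) (.R (.cons 1364 (.cons 1236 (.cons 1235 (.cons 1301 (.cons 1365 .nil (.cons 1237 .nil .nil)) .nil) (.cons 1237 (.cons 1301 (.cons 1365 (.cons 1235 (.cons 1299 (.cons 1363 (.cons 1298 (.cons 1171 (.cons 1172 (.cons 1173 (.cons 1234 (.cons 1362 (.cons 1170 (.cons 1302 (.cons 1366 .nil (.cons 1238 .nil .nil)) .nil) .nil) .nil) .nil) .nil) .nil) .nil) .nil) .nil) (.cons 1299 (.cons 1363 (.cons 1362 (.cons 1298 (.cons 1234 (.cons 1172 (.cons 1173 .nil (.cons 1171 .nil .nil)) .nil) .nil) .nil) .nil) .nil) .nil)) .nil) .nil) .nil) .nil)) .nil) .nil)))))))) (.R (.cons 1364 .nil .nil))))))))))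

theorem pats4_ok : patOK 4 2 pats4 = true := by decide +kernel

theorem chk4 : chk2 4 dl4 pats4 false TM4 tr4 0 0 = true := by decide +kernel

end Pool.H3JG
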