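import Pool.Agent.Helper3.JG.Tmpl

/-!
# Jigsaw tiles on a lattice: certificates for the finite check

A certificate is a decision tree on the bits of the matching relation. A mask `inn` holds bits known
to be in the relation, a mask `out` bits known to be outside. Leaves: a template is contained in
`inn` (`T`), a bit is in both masks (`C`), or there is no labelling of the lattice which avoids `out`
(`R`, refuted by a search tree over labels of cells).
-/

namespace Pool.H3JG

variable {n : ℕ}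

/-- Forests of cells. -/
inductive Fo
  | nil : Fo
  | cons (c : ℕ) (ch rest : Fo) : Fo

/-- Decision trees. -/
inductive Tr
  | T (k : ℕ) : Tr
  | D (b1 b2 b3 b4 b5 : ℕ) (x : Tr) : Tr
  | S (b1 b2 b4 b5 : ℕ) (x : Tr) : Tr
  | C (b : ℕ) : Tr
  | Y (b b' : ℕ) (x y : Tr) : Tr
  | R (x : Fo) : Tr

/-- Local edge of the label with code `a` in direction `d`. -/
def locN (n a d : ℕ) : ℕ := if a % 2 = 1 then (a / 2 + n - d) % n else (d + n - a / 2) % n

/-- Contact bit for coded labels. -/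
def cbN (n h a b d : ℕ) : ℕ := bitN n (locN n a d) (locN n b ((d + h) % n)) ((a + b) % 2)

/-- The label `a` at the cell `(x, y)` is compatible with an assigned cell. -/
def okE (n h : ℕ) (out x y a : ℕ) (e : ℕ × ℕ × ℕ) : List (ℕ × ℕ × ℕ) → Bool
  | [] => true
  | (d, p, q) :: l =>
    (!(Nat.beq (e.1 + 1) (x + p) && Nat.beq (e.2.1 + 1) (y + q)) ||
      !(out.testBit (cbN n h a e.2.2 d))) && okE n h out x y a e l

/-- The label `a` at the cell `(x, y)` is compatible with all assigned cells. -/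
def okS (n h : ℕ) (dt : List (ℕ × ℕ × ℕ)) (out x y a : ℕ) : List (ℕ × ℕ × ℕ) → Bool
  | [] => true
  | e :: s => okE n h out x y a e dt && okS n h dt out x y a s

/-- All extensions of an assignment by a label at the cell `(x, y)`. -/
def expandL (n h : ℕ) (dt : List (ℕ × ℕ × ℕ)) (out x y : ℕ) (s : List (ℕ × ℕ × ℕ)) :
    ℕ → List (List (ℕ × ℕ × ℕ))
  | 0 => []
  | a + 1 =>
    bif okS n h dt out x y a s then ((x, y, a) :: s) :: expandL n h dt out x y s a
    else expandL n h dt out x y s a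

/-- Check of a forest against a list of assignments. -/
def chkF (n h : ℕ) (dt : List (ℕ × ℕ × ℕ)) (out : ℕ) : Fo → List (List (ℕ × ℕ × ℕ)) → Bool
  | Fo.nil, [] => true
  | Fo.nil, _ :: _ => false
  | Fo.cons _ _ _, [] => false
  | Fo.cons c ch rest, s :: ss =>
    chkF n h dt out ch (expandL n h dt out (c / 64) (c % 64) s (2 * n)) &&
      chkF n h dt out rest ss

/-- Check of a chain step. -/
def okD (n b1 b2 b3 b4 b5 : ℕ) : Bool :=
  Nat.beq (b2 / 2 / n) (b1 / 2 % n) && Nat.beq (b3 / 2 / n) (b2 / 2 % n) &&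
  Nat.beq (b4 / 2 / n) (b1 / 2 / n) && Nat.beq (b4 / 2 % n) (b3 / 2 % n) &&
  Nat.beq (b4 % 2) ((b1 % 2 + b2 % 2 + b3 % 2) % 2) &&
  Nat.beq (b5 / 2 / n) (b4 / 2 % n) && Nat.beq (b5 / 2 % n) (b4 / 2 / n) &&
  Nat.beq (b5 % 2) (b4 % 2)

/-- Check of a mirrored pair. -/
def okM (n b b' : ℕ) : Bool :=
  Nat.beq (b' / 2 / n) (b / 2 % n) && Nat.beq (b' / 2 % n) (b / 2 / n) && Nat.beq (b' % 2) (b % 2)

/-- Check of a use of the straight edge axiom. -/
def okStr (n b1 b2 b4 b5 : ℕ) : Bool :=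
  Nat.beq (b1 / 2 / n) (b1 / 2 % n) && Nat.beq (b2 / 2 / n) (b2 / 2 % n) &&
  Nat.beq (b1 % 2) 1 && Nat.beq (b2 % 2) 1 &&
  Nat.beq (b4 / 2 / n) (b1 / 2 / n) && Nat.beq (b4 / 2 % n) (b2 / 2 / n) && okM n b4 b5

/-- Check of a decision tree. -/
def chk (n h : ℕ) (dt : List (ℕ × ℕ × ℕ)) (str : Bool) (TM : List ℕ) : Tr → ℕ → ℕ → Bool
  | Tr.T k, inn, _ => match TM[k]? with
    | some m => Nat.beq (m &&& inn) m
    | none => false
  | Tr.D b1 b2 b3 b4 b5 x, inn, out =>
    inn.testBit b1 && inn.testBit b2 && inn.testBit b3 && okD n b1 b2 b3 b4 b5 &&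
      chk n h dt str TM x (inn ||| 2 ^ b4 ||| 2 ^ b5) out
  | Tr.S b1 b2 b4 b5 x, inn, out =>
    str && inn.testBit b1 && inn.testBit b2 && okStr n b1 b2 b4 b5 &&
      chk n h dt str TM x (inn ||| 2 ^ b4 ||| 2 ^ b5) out
  | Tr.C b, inn, out => inn.testBit b && out.testBit b
  | Tr.Y b b' x y, inn, out => okM n b b' &&
      chk n h dt str TM x (inn ||| 2 ^ b ||| 2 ^ b') out &&
      chk n h dt str TM y inn (out ||| 2 ^ b ||| 2 ^ b')
  | Tr.R x, _, out => chkF n h dt out x [[(20, 20, 0)]]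

theorem labN_surj [NeZero n] (a : Lab n) : ∃ k, k < 2 * n ∧ labN n k = a := by
  refine ⟨2 * a.1.val + (if a.2 then 1 else 0), ?_, ?_⟩
  · have := ZMod.val_lt a.1
    split_ifs <;> omega
  · obtain ⟨k, f⟩ := a
    cases f
    · simp [labN]
    · have h1 : (2 * k.val + 1) / 2 = k.val := by omega
      have h2 : (2 * k.val + 1) % 2 = 1 := by omega
      simp [labN, h1, h2]

theorem locN_cast [NeZero n] {a d : ℕ} (ha : a < 2 * n) (hd : d < n) :
    ((locN n a d : ℕ) : ZMod n) = act (linv (labN n a)) (d : ZMod n) := by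
  have h2 : a / 2 < n := by omega
  unfold locN labN act linv
  by_cases h : a % 2 = 1
  · have e : (a % 2 == 1) = true := by simp [h]
    simp only [h, e, if_true, sg, ZMod.natCast_mod]
    rw [Nat.cast_sub (by omega)]
    push_cast
    simp [sub_eq_add_neg]
  · have e : (a % 2 == 1) = false := by simp [h]
    simp only [h, e, if_false, sg, ZMod.natCast_mod, Bool.false_eq_true]
    rw [Nat.cast_sub (by omega)]
    push_cast
    simp
    ring

theorem con_iff_cbN [NeZero n] {h : ℕ} (R : ZMod n → ZMod n → Bool → Prop) {a b d : ℕ}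
    (ha : a < 2 * n) (hb : b < 2 * n) (hd : d < n) :
    Con (h : ZMod n) R (d : ZMod n) (labN n a) (labN n b) ↔ Rb R (cbN n h a b d) := by
  have hn : 0 < n := NeZero.pos n
  unfold cbN
  rw [rb_bitN R (by unfold locN; split_ifs <;> exact Nat.mod_lt _ hn) (by omega),
    locN_cast ha hd, locN_cast hb (Nat.mod_lt _ hn), ZMod.natCast_mod]
  unfold Con
  push_cast
  have e : (((a + b) % 2 == 1 : Bool)) = xor (labN n a).2 (labN n b).2 := by
    unfold labN
    rcases Nat.mod_two_eq_zero_or_one a with h1 | h1 <;>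
      rcases Nat.mod_two_eq_zero_or_one b with h2 | h2 <;>
      simp [h1, h2, Nat.add_mod]
  rw [e]

end Pool.H3JG
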