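import Pool.Agent.Helper3.JG.Tmpl

/-!
# Jigsaw tiles on a lattice: the templates
-/

namespace Pool.H3JG

theorem tm6_0 (R : ZMod 6 → ZMod 6 → Bool → Prop)
    (hR : ∀ b, Nat.testBit 2306971110292326400 b = true → Rb R b) : GoodR 3 hexMat hexDir R :=
  good_of_tab1 3 hexMat hexDir R 2 (fun x y => (![![(0, false), (2, true)], ![(0, false), (2, true)]] : Fin 2 → Fin 2 → Lab 6) y x)
    (mask := 2306971110292326400) (by decide +kernel) hR

theorem tm6_1 (R : ZMod 6 → ZMod 6 → Bool → Prop)
    (hR : ∀ b, Nat.testBit 9232379313427316800 b = true → Rb R b) : GoodR 3 hexMat hexDir R :=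
  good_of_tab1 3 hexMat hexDir R 2 (fun x y => (![![(0, false), (0, false)], ![(3, true), (3, true)]] : Fin 2 → Fin 2 → Lab 6) y x)
    (mask := 9232379313427316800) (by decide +kernel) hR

theorem tm6_2 (R : ZMod 6 → ZMod 6 → Bool → Prop)
    (hR : ∀ b, Nat.testBit 18447307590599180800 b = true → Rb R b) : GoodR 3 hexMat hexDir R :=
  good_of_tab1 3 hexMat hexDir R 2 (fun x y => (![![(0, false), (1, true)], ![(1, true), (0, false)]] : Fin 2 → Fin 2 → Lab 6) y x)
    (mask := 18447307590599180800) (by decide +kernel) hR

theorem tm6_3 (R : ZMod 6 → ZMod 6 → Bool → Prop)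
    (hR : ∀ b, Nat.testBit 18447870059516788800 b = true → Rb R b) : GoodR 3 hexMat hexDir R :=
  good_of_tab1 3 hexMat hexDir R 1 (fun x y => (![![(0, false)]] : Fin 1 → Fin 1 → Lab 6) y x)
    (mask := 18447870059516788800) (by decide +kernel) hR

theorem tm6_4 (R : ZMod 6 → ZMod 6 → Bool → Prop)
    (hR : ∀ b, Nat.testBit 2306973307436533760 b = true → Rb R b) : GoodR 3 hexMat hexDir R :=
  good_of_tab1 3 hexMat hexDir R 4 (fun x y => (![![(0, false), (2, true), (5, true), (3, false)], ![(0, false), (2, true), (5, true), (3, false)], ![(0, false), (2, true), (5, true), (3, false)], ![(0, false), (2, true), (5, true), (3, false)]] : Fin 4 → Fin 4 → Lab 6) y x)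
    (mask := 2306973307436533760) (by decide +kernel) hR

theorem tm6_5 (R : ZMod 6 → ZMod 6 → Bool → Prop)
    (hR : ∀ b, Nat.testBit 36894055529778790912 b = true → Rb R b) : GoodR 3 hexMat hexDir R :=
  good_of_tab1 3 hexMat hexDir R 4 (fun x y => (![![(0, false), (1, true), (4, true), (3, false)], ![(3, false), (0, false), (1, true), (4, true)], ![(4, true), (3, false), (0, false), (1, true)], ![(1, true), (4, true), (3, false), (0, false)]] : Fin 4 → Fin 4 → Lab 6) y x)
    (mask := 36894055529778790912) (by decide +kernel) hR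

theorem tm6_6 (R : ZMod 6 → ZMod 6 → Bool → Prop)
    (hR : ∀ b, Nat.testBit 1170953495369548800 b = true → Rb R b) : GoodR 3 hexMat hexDir R :=
  good_of_tab1 3 hexMat hexDir R 3 (fun x y => (![![(0, false), (4, false), (2, false)], ![(2, false), (0, false), (4, false)], ![(4, false), (2, false), (0, false)]] : Fin 3 → Fin 3 → Lab 6) y x)
    (mask := 1170953495369548800) (by decide +kernel) hR

theorem tm6_7 (R : ZMod 6 → ZMod 6 → Bool → Prop)
    (hR : ∀ b, Nat.testBit 18482808072280481800 b = true → Rb R b) : GoodR 3 hexMat hexDir R :=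
  good_of_tab1 3 hexMat hexDir R 2 (fun x y => (![![(0, false), (4, true)], ![(4, true), (0, false)]] : Fin 2 → Fin 2 → Lab 6) y x)
    (mask := 18482808072280481800) (by decide +kernel) hR

theorem tm6_8 (R : ZMod 6 → ZMod 6 → Bool → Prop)
    (hR : ∀ b, Nat.testBit 18482808072280489985 b = true → Rb R b) : GoodR 3 hexMat hexDir R :=
  good_of_tab1 3 hexMat hexDir R 4 (fun x y => (![![(0, false), (3, false), (1, true), (4, true)], ![(3, false), (1, true), (4, true), (0, false)], ![(1, true), (4, true), (0, false), (3, false)], ![(4, true), (0, false), (3, false), (1, true)]] : Fin 4 → Fin 4 → Lab 6) y x)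
    (mask := 18482808072280489985) (by decide +kernel) hR

theorem tm6_9 (R : ZMod 6 → ZMod 6 → Bool → Prop)
    (hR : ∀ b, Nat.testBit 147575219227106213920 b = true → Rb R b) : GoodR 3 hexMat hexDir R :=
  good_of_tab1 3 hexMat hexDir R 2 (fun x y => (![![(0, false), (5, true)], ![(0, false), (5, true)]] : Fin 2 → Fin 2 → Lab 6) y x)
    (mask := 147575219227106213920) (by decide +kernel) hR

theorem tm6_10 (R : ZMod 6 → ZMod 6 → Bool → Prop)
    (hR : ∀ b, Nat.testBit 147576345127248986113 b = true → Rb R b) : GoodR 3 hexMat hexDir R :=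
  good_of_tab1 3 hexMat hexDir R 4 (fun x y => (![![(0, false), (3, false), (2, true), (5, true)], ![(2, true), (5, true), (0, false), (3, false)], ![(0, false), (3, false), (2, true), (5, true)], ![(2, true), (5, true), (0, false), (3, false)]] : Fin 4 → Fin 4 → Lab 6) y x)
    (mask := 147576345127248986113) (by decide +kernel) hR

theorem tm6_11 (R : ZMod 6 → ZMod 6 → Bool → Prop)
    (hR : ∀ b, Nat.testBit 9295429768608481408 b = true → Rb R b) : GoodR 3 hexMat hexDir R :=
  good_of_tab1 3 hexMat hexDir R 4 (fun x y => (![![(0, false), (0, true), (0, false), (0, true)], ![(3, true), (3, false), (3, true), (3, false)], ![(0, true), (0, false), (0, true), (0, false)], ![(3, false), (3, true), (3, false), (3, true)]] : Fin 4 → Fin 4 → Lab 6) y x)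
    (mask := 9295429768608481408) (by decide +kernel) hR

theorem tm6_12 (R : ZMod 6 → ZMod 6 → Bool → Prop)
    (hR : ∀ b, Nat.testBit 36965546325573107713 b = true → Rb R b) : GoodR 3 hexMat hexDir R :=
  good_of_tab1 3 hexMat hexDir R 4 (fun x y => (![![(0, false), (3, false), (4, true), (1, true)], ![(1, true), (0, false), (3, false), (4, true)], ![(4, true), (1, true), (0, false), (3, false)], ![(3, false), (4, true), (1, true), (0, false)]] : Fin 4 → Fin 4 → Lab 6) y x)
    (mask := 36965546325573107713) (by decide +kernel) hR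

theorem tm6_13 (R : ZMod 6 → ZMod 6 → Bool → Prop)
    (hR : ∀ b, Nat.testBit 18518806082973868040 b = true → Rb R b) : GoodR 3 hexMat hexDir R :=
  good_of_tab1 3 hexMat hexDir R 4 (fun x y => (![![(0, false), (4, true), (1, true), (3, false)], ![(4, true), (1, true), (3, false), (0, false)], ![(1, true), (3, false), (0, false), (4, true)], ![(3, false), (0, false), (4, true), (1, true)]] : Fin 4 → Fin 4 → Lab 6) y x)
    (mask := 18518806082973868040) (by decide +kernel) hR

theorem tm6_14 (R : ZMod 6 → ZMod 6 → Bool → Prop)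
    (hR : ∀ b, Nat.testBit 18518806082973876225 b = true → Rb R b) : GoodR 3 hexMat hexDir R :=
  good_of_tab1 3 hexMat hexDir R 2 (fun x y => (![![(0, false), (3, false)], ![(3, false), (0, false)]] : Fin 2 → Fin 2 → Lab 6) y x)
    (mask := 18518806082973876225) (by decide +kernel) hR

theorem tm6_15 (R : ZMod 6 → ZMod 6 → Bool → Prop)
    (hR : ∀ b, Nat.testBit 295436136656089911300 b = true → Rb R b) : GoodR 3 hexMat hexDir R :=
  good_of_tab1 3 hexMat hexDir R 3 (fun x y => (![![(0, false), (2, false), (4, false)], ![(4, false), (0, false), (2, false)], ![(2, false), (4, false), (0, false)]] : Fin 3 → Fin 3 → Lab 6) y x)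
    (mask := 295436136656089911300) (by decide +kernel) hR

theorem tm6_16 (R : ZMod 6 → ZMod 6 → Bool → Prop)
    (hR : ∀ b, Nat.testBit 590872271179862900800 b = true → Rb R b) : GoodR 3 hexMat hexDir R :=
  good_of_tab1 3 hexMat hexDir R 2 (fun x y => (![![(0, false), (0, false)], ![(0, true), (0, true)]] : Fin 2 → Fin 2 → Lab 6) y x)
    (mask := 590872271179862900800) (by decide +kernel) hR

theorem tm6_17 (R : ZMod 6 → ZMod 6 → Bool → Prop)
    (hR : ∀ b, Nat.testBit 590872271179997003840 b = true → Rb R b) : GoodR 3 hexMat hexDir R :=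
  good_of_tab1 3 hexMat hexDir R 4 (fun x y => (![![(0, false), (0, false), (0, false), (0, false)], ![(3, false), (3, false), (3, false), (3, false)], ![(3, true), (3, true), (3, true), (3, true)], ![(0, true), (0, true), (0, true), (0, true)]] : Fin 4 → Fin 4 → Lab 6) y x)
    (mask := 590872271179997003840) (by decide +kernel) hR

theorem tm6_18 (R : ZMod 6 → ZMod 6 → Bool → Prop)
    (hR : ∀ b, Nat.testBit 1180592748818489933825 b = true → Rb R b) : GoodR 3 hexMat hexDir R :=
  good_of_tab1 3 hexMat hexDir R 4 (fun x y => (![![(0, false), (3, false), (5, true), (2, true)], ![(0, false), (3, false), (5, true), (2, true)], ![(0, false), (3, false), (5, true), (2, true)], ![(0, false), (3, false), (5, true), (2, true)]] : Fin 4 → Fin 4 → Lab 6) y x)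
    (mask := 1180592748818489933825) (by decide +kernel) hR

theorem tm6_19 (R : ZMod 6 → ZMod 6 → Bool → Prop)
    (hR : ∀ b, Nat.testBit 1180600628062694948992 b = true → Rb R b) : GoodR 3 hexMat hexDir R :=
  good_of_tab1 3 hexMat hexDir R 4 (fun x y => (![![(0, false), (0, true), (0, false), (0, true)], ![(3, false), (3, true), (3, false), (3, true)], ![(0, true), (0, false), (0, true), (0, false)], ![(3, true), (3, false), (3, true), (3, false)]] : Fin 4 → Fin 4 → Lab 6) y x)
    (mask := 1180600628062694948992) (by decide +kernel) hR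

theorem tm6_20 (R : ZMod 6 → ZMod 6 → Bool → Prop)
    (hR : ∀ b, Nat.testBit 1180593876915307151392 b = true → Rb R b) : GoodR 3 hexMat hexDir R :=
  good_of_tab1 3 hexMat hexDir R 4 (fun x y => (![![(0, false), (5, true), (2, true), (3, false)], ![(2, true), (3, false), (0, false), (5, true)], ![(0, false), (5, true), (2, true), (3, false)], ![(2, true), (3, false), (0, false), (5, true)]] : Fin 4 → Fin 4 → Lab 6) y x)
    (mask := 1180593876915307151392) (by decide +kernel) hR

theorem tm6_21 (R : ZMod 6 → ZMod 6 → Bool → Prop)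
    (hR : ∀ b, Nat.testBit 1180592751015634141185 b = true → Rb R b) : GoodR 3 hexMat hexDir R :=
  good_of_tab1 3 hexMat hexDir R 2 (fun x y => (![![(0, false), (3, false)], ![(0, false), (3, false)]] : Fin 2 → Fin 2 → Lab 6) y x)
    (mask := 1180592751015634141185) (by decide +kernel) hR

theorem tm6_22 (R : ZMod 6 → ZMod 6 → Bool → Prop)
    (hR : ∀ b, Nat.testBit 1180663678380303056960 b = true → Rb R b) : GoodR 3 hexMat hexDir R :=
  good_of_tab1 3 hexMat hexDir R 4 (fun x y => (![![(0, false), (0, false), (0, false), (0, false)], ![(0, true), (0, true), (0, true), (0, true)], ![(3, true), (3, true), (3, true), (3, true)], ![(3, false), (3, false), (3, false), (3, false)]] : Fin 4 → Fin 4 → Lab 6) y x)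
    (mask := 1180663678380303056960) (by decide +kernel) hR

theorem tm6_23 (R : ZMod 6 → ZMod 6 → Bool → Prop)
    (hR : ∀ b, Nat.testBit 1180663678380437160000 b = true → Rb R b) : GoodR 3 hexMat hexDir R :=
  good_of_tab1 3 hexMat hexDir R 2 (fun x y => (![![(0, false), (0, false)], ![(3, false), (3, false)]] : Fin 2 → Fin 2 → Lab 6) y x)
    (mask := 1180663678380437160000) (by decide +kernel) hR

theorem tm6_24 (R : ZMod 6 → ZMod 6 → Bool → Prop)
    (hR : ∀ b, Nat.testBit 20754841169809115200 b = true → Rb R b) : GoodR 3 hexMat hexDir R :=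
  good_of_tab2 3 hexMat hexDir R 2 (fun x y => (![![(0, false), (0, false)], ![(2, true), (2, true)]] : Fin 2 → Fin 2 → Lab 6) y x)
    (mask := 20754841169809115200) (0, 1) (by decide +kernel) hR

theorem tm6_25 (R : ZMod 6 → ZMod 6 → Bool → Prop)
    (hR : ∀ b, Nat.testBit 23060965654003712320 b = true → Rb R b) : GoodR 3 hexMat hexDir R :=
  good_of_tab2 3 hexMat hexDir R 4 (fun x y => (![![(0, false), (0, false), (0, false), (0, false)], ![(2, true), (2, true), (2, true), (2, true)], ![(3, true), (3, true), (3, true), (3, true)], ![(1, false), (1, false), (1, false), (1, false)]] : Fin 4 → Fin 4 → Lab 6) y x)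
    (mask := 23060965654003712320) (0, 1) (by decide +kernel) hR

theorem tm6_26 (R : ZMod 6 → ZMod 6 → Bool → Prop)
    (hR : ∀ b, Nat.testBit 20759342847438882880 b = true → Rb R b) : GoodR 3 hexMat hexDir R :=
  good_of_tab2 3 hexMat hexDir R 4 (fun x y => (![![(0, false), (0, false), (0, false), (0, false)], ![(1, false), (1, false), (1, false), (1, false)], ![(3, true), (3, true), (3, true), (3, true)], ![(2, true), (2, true), (2, true), (2, true)]] : Fin 4 → Fin 4 → Lab 6) y x)
    (mask := 20759342847438882880) (0, 1) (by decide +kernel) hR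

theorem tm6_27 (R : ZMod 6 → ZMod 6 → Bool → Prop)
    (hR : ∀ b, Nat.testBit 20771746091291912200 b = true → Rb R b) : GoodR 3 hexMat hexDir R :=
  good_of_tab2 3 hexMat hexDir R 4 (fun x y => (![![(0, false), (2, true), (0, true), (2, false)], ![(0, false), (2, true), (0, true), (2, false)], ![(0, false), (2, true), (0, true), (2, false)], ![(0, false), (2, true), (0, true), (2, false)]] : Fin 4 → Fin 4 → Lab 6) y x)
    (mask := 20771746091291912200) (-1, 1) (by decide +kernel) hR

theorem tm6_28 (R : ZMod 6 → ZMod 6 → Bool → Prop)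
    (hR : ∀ b, Nat.testBit 39219615119009974400 b = true → Rb R b) : GoodR 3 hexMat hexDir R :=
  good_of_tab2 3 hexMat hexDir R 4 (fun x y => (![![(0, false), (0, true), (0, false), (0, true)], ![(2, true), (4, false), (2, true), (4, false)], ![(0, true), (0, false), (0, true), (0, false)], ![(4, false), (2, true), (4, false), (2, true)]] : Fin 4 → Fin 4 → Lab 6) y x)
    (mask := 39219615119009974400) (0, 1) (by decide +kernel) hR

theorem tm6_29 (R : ZMod 6 → ZMod 6 → Bool → Prop)
    (hR : ∀ b, Nat.testBit 38066693614470300800 b = true → Rb R b) : GoodR 3 hexMat hexDir R :=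
  good_of_tab2 3 hexMat hexDir R 4 (fun x y => (![![(0, false), (4, false), (4, true), (0, true)], ![(0, true), (0, false), (4, false), (4, true)], ![(4, true), (0, true), (0, false), (4, false)], ![(4, false), (4, true), (0, true), (0, false)]] : Fin 4 → Fin 4 → Lab 6) y x)
    (mask := 38066693614470300800) (1, 0) (by decide +kernel) hR

theorem tm6_30 (R : ZMod 6 → ZMod 6 → Bool → Prop)
    (hR : ∀ b, Nat.testBit 5787147515971257345 b = true → Rb R b) : GoodR 3 hexMat hexDir R :=
  good_of_tab2 3 hexMat hexDir R 4 (fun x y => (![![(0, false), (4, false), (1, false), (3, false)], ![(3, false), (0, false), (4, false), (1, false)], ![(1, false), (3, false), (0, false), (4, false)], ![(4, false), (1, false), (3, false), (0, false)]] : Fin 4 → Fin 4 → Lab 6) y x)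
    (mask := 5787147515971257345) (1, 0) (by decide +kernel) hR

theorem tm6_31 (R : ZMod 6 → ZMod 6 → Bool → Prop)
    (hR : ∀ b, Nat.testBit 20789777118975363200 b = true → Rb R b) : GoodR 3 hexMat hexDir R :=
  good_of_tab2 3 hexMat hexDir R 4 (fun x y => (![![(0, false), (2, true), (2, false), (0, true)], ![(0, false), (2, true), (2, false), (0, true)], ![(0, false), (2, true), (2, false), (0, true)], ![(0, false), (2, true), (2, false), (0, true)]] : Fin 4 → Fin 4 → Lab 6) y x)
    (mask := 20789777118975363200) (-1, 1) (by decide +kernel) hR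

theorem tm6_32 (R : ZMod 6 → ZMod 6 → Bool → Prop)
    (hR : ∀ b, Nat.testBit 20790902950163777600 b = true → Rb R b) : GoodR 3 hexMat hexDir R :=
  good_of_tab2 3 hexMat hexDir R 4 (fun x y => (![![(0, false), (0, false), (0, false), (0, false)], ![(0, true), (0, true), (0, true), (0, true)], ![(4, false), (4, false), (4, false), (4, false)], ![(2, true), (2, true), (2, true), (2, true)]] : Fin 4 → Fin 4 → Lab 6) y x)
    (mask := 20790902950163777600) (0, -1) (by decide +kernel) hR

theorem tm6_33 (R : ZMod 6 → ZMod 6 → Bool → Prop)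
    (hR : ∀ b, Nat.testBit 19636857677965956100 b = true → Rb R b) : GoodR 3 hexMat hexDir R :=
  good_of_tab2 3 hexMat hexDir R 4 (fun x y => (![![(0, false), (2, false), (0, true), (2, true)], ![(0, false), (2, false), (0, true), (2, true)], ![(0, false), (2, false), (0, true), (2, true)], ![(0, false), (2, false), (0, true), (2, true)]] : Fin 4 → Fin 4 → Lab 6) y x)
    (mask := 19636857677965956100) (1, 0) (by decide +kernel) hR

theorem tm6_34 (R : ZMod 6 → ZMod 6 → Bool → Prop)
    (hR : ∀ b, Nat.testBit 36930678131797270600 b = true → Rb R b) : GoodR 3 hexMat hexDir R :=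
  good_of_tab2 3 hexMat hexDir R 2 (fun x y => (![![(0, false), (0, false)], ![(4, true), (4, true)]] : Fin 2 → Fin 2 → Lab 6) y x)
    (mask := 36930678131797270600) (0, 1) (by decide +kernel) hR

theorem tm6_35 (R : ZMod 6 → ZMod 6 → Bool → Prop)
    (hR : ∀ b, Nat.testBit 39236521141145307200 b = true → Rb R b) : GoodR 3 hexMat hexDir R :=
  good_of_tab2 3 hexMat hexDir R 4 (fun x y => (![![(0, false), (0, false), (0, false), (0, false)], ![(0, true), (0, true), (0, true), (0, true)], ![(2, false), (2, false), (2, false), (2, false)], ![(4, true), (4, true), (4, true), (4, true)]] : Fin 4 → Fin 4 → Lab 6) y x)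
    (mask := 39236521141145307200) (0, -1) (by decide +kernel) hR

end Pool.H3JG
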