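import Pool.Agent.Helper3.JG.Cert4
import Pool.Agent.Helper3.JG.Tm4
import Pool.Agent.Helper3.JG.Root
import Pool.Agent.Helper3.JG.GridSq

/-!
# Jigsaw tiles on a lattice: the finite core for the square lattice
-/

namespace Pool.H3JG

theorem dl4_ok : ∀ e ∈ dl4, e.1 < 4 ∧ ∀ c, cellOK c = true →
    decC (c + e.2 - 4096) = decC c + sqDir (e.1 : ZMod 4) := by
  intro e he
  unfold dl4 at he
  simp only [List.mem_cons, List.not_mem_nil, or_false] at he
  rcases he with rfl | rfl | rfl | rfl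
  · refine ⟨by norm_num, fun c hc => ?_⟩
    unfold cellOK at hc
    simp only [Bool.and_eq_true, Nat.ble_eq] at hc
    have hd : sqDir (((0 : ℕ)) : ZMod 4) = (1, 0) := by decide
    show decC (c + 4160 - 4096) = decC c + sqDir (((0 : ℕ)) : ZMod 4)
    rw [hd]
    simp only [decC, Prod.mk_add_mk, Prod.mk.injEq]
    omega
  · refine ⟨by norm_num, fun c hc => ?_⟩
    unfold cellOK at hc
    simp only [Bool.and_eq_true, Nat.ble_eq] at hc
    have hd : sqDir (((1 : ℕ)) : ZMod 4) = (0, 1) := by decide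
    show decC (c + 4097 - 4096) = decC c + sqDir (((1 : ℕ)) : ZMod 4)
    rw [hd]
    simp only [decC, Prod.mk_add_mk, Prod.mk.injEq]
    omega
  · refine ⟨by norm_num, fun c hc => ?_⟩
    unfold cellOK at hc
    simp only [Bool.and_eq_true, Nat.ble_eq] at hc
    have hd : sqDir (((2 : ℕ)) : ZMod 4) = (-1, 0) := by decide
    show decC (c + 4032 - 4096) = decC c + sqDir (((2 : ℕ)) : ZMod 4)
    rw [hd]
    simp only [decC, Prod.mk_add_mk, Prod.mk.injEq]
    omega
  · refine ⟨by norm_num, fun c hc => ?_⟩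
    unfold cellOK at hc
    simp only [Bool.and_eq_true, Nat.ble_eq] at hc
    have hd : sqDir (((3 : ℕ)) : ZMod 4) = (0, -1) := by decide
    show decC (c + 4095 - 4096) = decC c + sqDir (((3 : ℕ)) : ZMod 4)
    rw [hd]
    simp only [decC, Prod.mk_add_mk, Prod.mk.injEq]
    omega

theorem good4 (R : ZMod 4 → ZMod 4 → Bool → Prop) {m : ℕ} (hm : m ∈ TM4)
    (hR : ∀ b, m.testBit b = true → Rb R b) : GoodR 2 sqMat sqDir R := by
  unfold TM4 at hm
  simp only [List.mem_cons, List.not_mem_nil, or_false] at hm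
  rcases hm with rfl | rfl | rfl | rfl | rfl | rfl | rfl | rfl | rfl | rfl | rfl | rfl | rfl | rfl | rfl | rfl | rfl | rfl | rfl | rfl | rfl | rfl | rfl | rfl | rfl | rfl | rfl | rfl | rfl | rfl | rfl | rfl | rfl | rfl | rfl | rfl | rfl | rfl | rfl | rfl | rfl | rfl | rfl | rfl
  · exact tm4_0 R hR
  · exact tm4_1 R hR
  · exact tm4_2 R hR
  · exact tm4_3 R hR
  · exact tm4_4 R hR
  · exact tm4_5 R hR
  · exact tm4_6 R hR
  · exact tm4_7 R hR
  · exact tm4_8 R hR
  · exact tm4_9 R hR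
  · exact tm4_10 R hR
  · exact tm4_11 R hR
  · exact tm4_12 R hR
  · exact tm4_13 R hR
  · exact tm4_14 R hR
  · exact tm4_15 R hR
  · exact tm4_16 R hR
  · exact tm4_17 R hR
  · exact tm4_18 R hR
  · exact tm4_19 R hR
  · exact tm4_20 R hR
  · exact tm4_21 R hR
  · exact tm4_22 R hR
  · exact tm4_23 R hR
  · exact tm4_24 R hR
  · exact tm4_25 R hR
  · exact tm4_26 R hR
  · exact tm4_27 R hR
  · exact tm4_28 R hR
  · exact tm4_29 R hR
  · exact tm4_30 R hR
  · exact tm4_31 R hR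
  · exact tm4_32 R hR
  · exact tm4_33 R hR
  · exact tm4_34 R hR
  · exact tm4_35 R hR
  · exact tm4_36 R hR
  · exact tm4_37 R hR
  · exact tm4_38 R hR
  · exact tm4_39 R hR
  · exact tm4_40 R hR
  · exact tm4_41 R hR
  · exact tm4_42 R hR
  · exact tm4_43 R hR

theorem core_sq {R : ZMod 4 → ZMod 4 → Bool → Prop} (hR : Closed R) {g : Z2 → Lab 4}
    (hg : ∀ z d, Con gridSq.h R d (g z) (g (z + gridSq.dir d))) :
    GoodR gridSq.h gridSq.mat gridSq.dir R := by
  obtain ⟨g', hg', h0⟩ := gridSq.exists_root hg (20, 20)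
  obtain ⟨m, hm, hb⟩ := chk2_sound (n := 4) (h := 2) (dir := sqDir) (by norm_num) hR false
    (fun h => by simp at h) TM4 hg' dl4_ok pats4_ok h0 tr4 0 0 chk4 (fun b hb => by simp at hb)
    (fun b hb => by simp at hb)
  exact good4 R hm hb

end Pool.H3JG
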