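import Mathlib

/-!
# Jigsaw tiles on a lattice: basic definitions

Lattice coordinates are used: a point of the plane is a pair of reals, lattice points are the
integral pairs, a label is a rotation amount together with a flip bit, and the grid gives for every
label an integral matrix.
-/

namespace Pool.H3JG

open Set

/-- The plane in lattice coordinates. -/
abbrev V := ℝ × ℝ

/-- Lattice points. -/
abbrev Z2 := ℤ × ℤ

/-- The lattice point as a point of the plane. -/
def toV (z : Z2) : V := ((z.1 : ℝ), (z.2 : ℝ))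

/-- Integral matrices of size two. -/
structure Mat where
  (a b c d : ℤ)
deriving DecidableEq

/-- Product of matrices. -/
def Mat.mul (m k : Mat) : Mat :=
  ⟨m.a * k.a + m.b * k.c, m.a * k.b + m.b * k.d, m.c * k.a + m.d * k.c, m.c * k.b + m.d * k.d⟩

/-- The unit matrix. -/
def Mat.one : Mat := ⟨1, 0, 0, 1⟩

/-- Action on the plane. -/
def Mat.ap (m : Mat) (p : V) : V := (m.a * p.1 + m.b * p.2, m.c * p.1 + m.d * p.2)

/-- Action on lattice points. -/
def Mat.apZ (m : Mat) (z : Z2) : Z2 := (m.a * z.1 + m.b * z.2, m.c * z.1 + m.d * z.2)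

/-- Labels: a rotation amount and a flip bit. -/
abbrev Lab (n : ℕ) := ZMod n × Bool

/-- Change of sign when the bit is set. -/
def sg {n : ℕ} (f : Bool) (i : ZMod n) : ZMod n := if f then -i else i

/-- Action of labels on directions. -/
def act {n : ℕ} (a : Lab n) (i : ZMod n) : ZMod n := a.1 + sg a.2 i

/-- Product of labels. -/
def lmul {n : ℕ} (a b : Lab n) : Lab n := (a.1 + sg a.2 b.1, xor a.2 b.2)

/-- Inverse of a label. -/
def linv {n : ℕ} (a : Lab n) : Lab n := (if a.2 then a.1 else -a.1, a.2)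

/-- The data of a lattice with its directions, its point group, the open cell `U0` belonging to the
lattice edge in direction `0`, and the star region `B`. -/
structure Grid (n : ℕ) where
  h : ZMod n
  mat : Lab n → Mat
  dir : ZMod n → Z2
  U0 : Set V
  B : Set V
  h_add : h + h = 0
  mat_one : mat (0, false) = Mat.one
  mat_mul : ∀ a b, mat (lmul a b) = (mat a).mul (mat b)
  mat_dir : ∀ a i, (mat a).apZ (dir i) = dir (act a i)
  dir_h : ∀ i, dir (i + h) = -(dir i)
  dir_ne : ∀ i, dir i ≠ 0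
  U0_open : IsOpen U0
  U0_flip : ∀ p ∈ U0, (mat (0, true)).ap p ∈ U0
  U0_half : ∀ p ∈ U0, (mat (h, false)).ap (p - toV (dir 0)) ∈ U0
  B_inv : ∀ a, ∀ p ∈ B, (mat a).ap p ∈ B
  B_sep : ∀ p ∈ U0, ∀ w : Z2, p - toV w ∈ B → w = 0 ∨ w = dir 0
  cover : ∀ p : V, ∃ z : Z2, ∃ i : ZMod n, ∃ q ∈ closure U0, p = toV z + (mat (i, false)).ap q

variable {n : ℕ}

/-- The copy of a point set: placement at the lattice point `z` with label `a`. -/
def Grid.pl (G : Grid n) (z : Z2) (a : Lab n) (x : V) : V := toV z + (G.mat a).ap x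

/-- The copy of `T` at `z` with label `a`. -/
def Grid.tile (G : Grid n) (T : Set V) (z : Z2) (a : Lab n) : Set V := G.pl z a '' T

/-- The open cell in direction `d`. -/
def Grid.U (G : Grid n) (d : ZMod n) : Set V := (G.mat (d, false)).ap '' G.U0

/-- `A` and `B` are complementary inside `U`. -/
def Fit (U A B : Set V) : Prop := U ∩ interior B = U \ A ∧ U ∩ interior A = U \ B

/-- The copy at the origin with label `a` and the copy at `dir d` with label `b` are complementary
in the cell of direction `d`. -/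
def Grid.FitAt (G : Grid n) (T : Set V) (d : ZMod n) (a b : Lab n) : Prop :=
  Fit (G.U d) (G.tile T 0 a) (G.tile T (G.dir d) b)

/-- The matching relation on local edges. -/
def Grid.rel (G : Grid n) (T : Set V) (i j : ZMod n) (t : Bool) : Prop :=
  G.FitAt T 0 (-i, false) (G.h - sg t j, t)

/-- Contact of the labels `a` and `b` in direction `d`, in terms of a matching relation. -/
def Con (h : ZMod n) (R : ZMod n → ZMod n → Bool → Prop) (d : ZMod n) (a b : Lab n) : Prop :=
  R (act (linv a) d) (act (linv b) (d + h)) (xor a.2 b.2)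

/-- The map of lattice points `w ↦ z + a w`. -/
def mvR (mat : Lab n → Mat) (z : Z2) (a : Lab n) (w : Z2) : Z2 := z + (mat a).apZ w

/-- `(z, a)` is a symmetry of the labelling `g`. -/
def IsSymR (mat : Lab n → Mat) (g : Z2 → Lab n) (z : Z2) (a : Lab n) : Prop :=
  ∀ w, g (mvR mat z a w) = lmul a (g w)

/-- There is a labelling all of whose contacts are allowed, together with at most two cells which
form a system of representatives of the cells under the symmetries of the labelling. -/
def GoodR (h : ZMod n) (mat : Lab n → Mat) (dir : ZMod n → Z2)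
    (R : ZMod n → ZMod n → Bool → Prop) : Prop :=
  ∃ g : Z2 → Lab n, (∀ z d, Con h R d (g z) (g (z + dir d))) ∧
    ∃ m : ℕ, 1 ≤ m ∧ m ≤ 2 ∧ ∃ c : Fin m → Z2,
      (∀ w, ∃ z a i, IsSymR mat g z a ∧ mvR mat z a (c i) = w) ∧
      (∀ i j z a, IsSymR mat g z a → mvR mat z a (c i) = c j → i = j)

/-- The copies `pl z (g z) '' T` tile the plane. -/
def Grid.Tiles (G : Grid n) (T : Set V) (g : Z2 → Lab n) : Prop :=
  (∀ p : V, ∃ z, p ∈ G.tile T z (g z)) ∧
  ∀ z w, z ≠ w → Disjoint (interior (G.tile T z (g z))) (interior (G.tile T w (g w)))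

/-- Closedness of a matching relation. -/
structure Closed (R : ZMod n → ZMod n → Bool → Prop) : Prop where
  symm : ∀ i j t, R i j t → R j i t
  chain : ∀ i j k l s t u, R i j s → R j k t → R k l u → R i l (xor (xor s t) u)

/-- The straight edge axiom. -/
def Straight (R : ZMod n → ZMod n → Bool → Prop) : Prop :=
  ∀ i j t, R i i true → R j j true → R i j t

/-- The four directions of the square lattice. -/
def sqDir : ZMod 4 → Z2 := ![(1, 0), (0, 1), (-1, 0), (0, -1)]

/-- The eight matrices of the point group of the square lattice. -/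
def sqMat (a : Lab 4) : Mat :=
  if a.2 then (![⟨1, 0, 0, -1⟩, ⟨0, 1, 1, 0⟩, ⟨-1, 0, 0, 1⟩, ⟨0, -1, -1, 0⟩] : Fin 4 → Mat) a.1
  else (![⟨1, 0, 0, 1⟩, ⟨0, -1, 1, 0⟩, ⟨-1, 0, 0, -1⟩, ⟨0, 1, -1, 0⟩] : Fin 4 → Mat) a.1

/-- The six directions of the hexagonal lattice. -/
def hexDir : ZMod 6 → Z2 := ![(1, 0), (0, 1), (-1, 1), (-1, 0), (0, -1), (1, -1)]

/-- The twelve matrices of the point group of the hexagonal lattice. -/
def hexMat (a : Lab 6) : Mat :=
  if a.2 then
    (![⟨1, 1, 0, -1⟩, ⟨0, 1, 1, 0⟩, ⟨-1, 0, 1, 1⟩, ⟨-1, -1, 0, 1⟩, ⟨0, -1, -1, 0⟩,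
      ⟨1, 0, -1, -1⟩] : Fin 6 → Mat) a.1
  else
    (![⟨1, 0, 0, 1⟩, ⟨0, -1, 1, 1⟩, ⟨-1, -1, 1, 0⟩, ⟨-1, 0, 0, -1⟩, ⟨0, 1, -1, -1⟩,
      ⟨1, 1, -1, 0⟩] : Fin 6 → Mat) a.1

/-- The open cell of direction `0` in the square lattice. -/
def sqU0 : Set V := {p | |p.2| < p.1 ∧ |p.2| < 1 - p.1}

/-- The star of the square lattice. -/
def sqB : Set V := {p | |p.1| + |p.2| ≤ 1}

/-- The open cell of direction `0` in the hexagonal lattice. -/
def hexU0 : Set V := {p | 0 < p.1 + 2 * p.2 ∧ p.1 + 2 * p.2 < 1 ∧ 0 < p.1 - p.2 ∧ p.1 - p.2 < 1}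

/-- The closed cell of direction `0` in the hexagonal lattice. -/
def hexD0 : Set V := {p | 0 ≤ p.1 + 2 * p.2 ∧ p.1 + 2 * p.2 ≤ 1 ∧ 0 ≤ p.1 - p.2 ∧ p.1 - p.2 ≤ 1}

/-- The star of the hexagonal lattice: the union of its six closed cells. -/
def hexB : Set V := {p | ∃ i : ZMod 6, (hexMat (i, false)).ap p ∈ hexD0}

/-- The Euclidean plane. -/
abbrev E := EuclideanSpace ℝ (Fin 2)

/-- `T` has a repeating unit made of `m` copies: `m` congruent copies of `T` with pairwise disjoint
interiors whose union `P` is the prototile of a tiling of the plane by congruent copies of `P` the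
symmetry group of which is transitive on the copies of `P`. -/
def RepUnit (T : Set E) (m : ℕ) : Prop :=
  ∃ a : Fin m → (E ≃ᵢ E),
    Pairwise (fun i j => Disjoint (interior (a i '' T)) (interior (a j '' T))) ∧
    ∃ 𝒯 : Set (Set E),
      (∀ A ∈ 𝒯, ∃ f : E ≃ᵢ E, A = f '' (⋃ i, a i '' T)) ∧
      ⋃₀ 𝒯 = univ ∧
      𝒯.Pairwise (fun A B => Disjoint (interior A) (interior B)) ∧
      ∀ A ∈ 𝒯, ∀ B ∈ 𝒯, ∃ f : E ≃ᵢ E, Set.image (fun C : Set E => f '' C) 𝒯 = 𝒯 ∧ f '' A = B

/-- A realization of a grid in the Euclidean plane: a homeomorphism from lattice coordinates under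
which all placements become isometries. -/
structure Realiz (G : Grid n) where
  F : V ≃ₜ E
  iso : Z2 → Lab n → (E ≃ᵢ E)
  iso_F : ∀ z a p, iso z a (F p) = F (G.pl z a p)

end Pool.H3JG
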