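import Pool.Agent.Helper3.JG.Assemble

/-!
# Jigsaw tiles on a lattice: the statement in the Euclidean plane, for any realized grid

Proof. Put `T' := re.F ⁻¹' T`, so `re.F '' T' = T`; closure and interior are transported by the
homeomorphism `re.F`, and so is preconnectedness. For a lattice point `z` the linear isometry
`g (re.F (toV z))` is a label `g' z` by `hlab` (choose it). Then
`(fun x => re.F (toV z) + g (re.F (toV z)) x) '' T = re.F '' G.tile T' z (g' z)`, so `G.Tiles T' g'`
(different `z` give different lattice points because `re.F ∘ toV` is injective). `T' ⊆ G.B` by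
`hstar`. Apply `hcore` and `repUnit_of_good`.
-/

namespace Pool.H3JG

open Set

variable {n : ℕ}

theorem euclid_of_grid {G : Grid n} (re : Realiz G)
    (hadd : ∀ p q, re.F (p + q) = re.F p + re.F q)
    (Λ : Set E) (hΛ : Λ = range (fun z : Z2 => re.F (toV z)))
    (hlab : ∀ L : E ≃ₗᵢ[ℝ] E, (∀ w ∈ Λ, L w ∈ Λ) → ∃ a, ∀ p, L (re.F p) = re.F ((G.mat a).ap p))
    (hstar : ∀ p : V, (∀ u ∈ Λ, ∀ w ∈ Λ, ‖re.F p - u‖ < ‖re.F p‖ → ‖re.F p - w‖ < ‖re.F p‖ →
      u = w) → p ∈ G.B)
    (hcore : ∀ T : Set V, closure (interior T) = T → IsPreconnected (interior T) → T ⊆ G.B →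
      ∀ g, G.Tiles T g → GoodR G.h G.mat G.dir (G.rel T))
    {T : Set E} (hT : closure (interior T) = T) (hc : IsPreconnected (interior T))
    (hn : ∀ p ∈ T, ∀ u ∈ Λ, ∀ w ∈ Λ, ‖p - u‖ < ‖p‖ → ‖p - w‖ < ‖p‖ → u = w)
    (g : E → E ≃ₗᵢ[ℝ] E) (hg : ∀ u ∈ Λ, ∀ w ∈ Λ, g u w ∈ Λ)
    (hcov : (⋃ u ∈ Λ, (fun x => u + g u x) '' T) = univ)
    (hdis : ∀ u ∈ Λ, ∀ w ∈ Λ, u ≠ w →
      Disjoint (interior ((fun x => u + g u x) '' T)) (interior ((fun x => w + g w x) '' T))) :
    ∃ m : ℕ, 1 ≤ m ∧ m ≤ 2 ∧ RepUnit T m := by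
  set T' : Set V := re.F ⁻¹' T with hT'
  have hFT : re.F '' T' = T := image_preimage_eq T re.F.surjective
  have hreg : closure (interior T') = T' := by
    rw [hT', ← re.F.preimage_interior, ← re.F.preimage_closure, hT]
  have hcl : IsClosed T' := by
    rw [← hreg]
    exact isClosed_closure
  have hcon : IsPreconnected (interior T') := by
    rw [hT', ← re.F.preimage_interior, ← re.F.image_symm]
    exact hc.image _ re.F.symm.continuous.continuousOn
  have hB : T' ⊆ G.B := fun p hp => hstar p (hn (re.F p) hp)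
  have hmem : ∀ z : Z2, re.F (toV z) ∈ Λ := fun z => by
    rw [hΛ]
    exact ⟨z, rfl⟩
  have hex : ∀ z : Z2, ∃ b : Lab n, ∀ p, g (re.F (toV z)) (re.F p) = re.F ((G.mat b).ap p) :=
    fun z => hlab (g (re.F (toV z))) fun w hw => hg _ (hmem z) w hw
  choose g' hg' using hex
  have himg : ∀ z : Z2, (fun x => re.F (toV z) + g (re.F (toV z)) x) '' T =
      re.F '' G.tile T' z (g' z) := by
    intro z
    rw [← hFT]
    unfold Grid.tile
    rw [image_image, image_image]
    refine image_congr fun p _ => ?_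
    rw [hg' z p, ← hadd]
    rfl
  have htiles : G.Tiles T' g' := by
    constructor
    · intro p
      have h1 : re.F p ∈ (⋃ u ∈ Λ, (fun x => u + g u x) '' T) := by
        rw [hcov]
        exact mem_univ _
      rw [mem_iUnion₂] at h1
      obtain ⟨u, hu, h2⟩ := h1
      rw [hΛ] at hu
      obtain ⟨z, rfl⟩ := hu
      refine ⟨z, ?_⟩
      have h3 : re.F p ∈ re.F '' G.tile T' z (g' z) := by
        rw [← himg z]
        exact h2
      exact (re.F.injective.mem_set_image).1 h3
    · intro z w hzw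
      have hne : re.F (toV z) ≠ re.F (toV w) := by
        intro h
        have h1 := re.F.injective h
        apply hzw
        unfold toV at h1
        rw [Prod.mk.injEq] at h1
        exact Prod.ext (by exact_mod_cast h1.1) (by exact_mod_cast h1.2)
      have h2 := hdis _ (hmem z) _ (hmem w) hne
      rw [himg z, himg w, ← re.F.image_interior, ← re.F.image_interior,
        disjoint_image_iff re.F.injective] at h2
      exact h2
  obtain ⟨m, hm1, hm2, hm⟩ := repUnit_of_good re hcl hB (hcore T' hreg hcon hB g' htiles)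
  rw [hFT] at hm
  exact ⟨m, hm1, hm2, hm⟩

end Pool.H3JG
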