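import Pool.Agent.Helper3.JG.Sound

/-!
# Jigsaw tiles on a lattice: a faster certificate check

The assignment is packed in one number (four bits for each cell, the label plus one), and the pairs
of labels forbidden by the mask `out` are packed in one number `F`.
-/

namespace Pool.H3JG

variable {n : ℕ}

/-- Packed assignment: the entry of the cell `q`. -/
def lk (A q : ℕ) : ℕ := (A >>> (4 * q)) % 2 ^ 4

/-- The cell is not on the border. -/
def cellOK (c : ℕ) : Bool := Nat.ble 64 c && Nat.ble 1 (c % 64) && Nat.ble (c % 64) 62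

/-- Labels which are forbidden at the cell `c`. -/
def forb (F A c : ℕ) : List (ℕ × ℕ) → ℕ
  | [] => 0
  | (d, D) :: l => ((F >>> (16 * (16 * d + lk A (c + D - 4096)))) % 2 ^ 16) ||| forb F A c l

/-- All extensions of a packed assignment by a label at the cell `c`. -/
def expandN (m c A : ℕ) : ℕ → List ℕ
  | 0 => []
  | a + 1 => bif m.testBit a then expandN m c A a
    else (A ||| ((a + 1) <<< (4 * c))) :: expandN m c A a

/-- Check of a forest against a list of packed assignments. -/
def chkG (dl : List (ℕ × ℕ)) (F L : ℕ) : Fo → List ℕ → Bool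
  | Fo.nil, [] => true
  | Fo.nil, _ :: _ => false
  | Fo.cons _ _ _, [] => false
  | Fo.cons c ch rest, A :: ss =>
    (cellOK c && Nat.beq (lk A c) 0) && chkG dl F L ch (expandN (forb F A c dl) c A L) &&
      chkG dl F L rest ss

/-- The number with the given bits. -/
def orL : List ℕ → ℕ
  | [] => 0
  | p :: l => 2 ^ p ||| orL l

/-- The packed forbidden pairs for a mask. -/
def mkF (out : ℕ) : List (ℕ × ℕ × List ℕ) → ℕ
  | [] => 0
  | (k, P, _) :: l => bif out.testBit k then P ||| mkF out l else mkF out l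

/-- A position is a pair of labels and a direction with contact bit `k`. -/
def posOK (n h k pos : ℕ) : Bool :=
  Nat.ble 1 (pos / 16 % 16) && Nat.blt (pos / 256) n && Nat.blt (pos % 16) (2 * n) &&
  Nat.blt (pos / 16 % 16 - 1) (2 * n) &&
  Nat.beq (cbN n h (pos % 16) (pos / 16 % 16 - 1) (pos / 256)) k

/-- Check of the table of positions. -/
def patOK (n h : ℕ) : List (ℕ × ℕ × List ℕ) → Bool
  | [] => true
  | (k, P, l) :: r => Nat.beq P (orL l) && l.all (posOK n h k) && patOK n h r

/-- Check of a decision tree. -/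
def chk2 (n : ℕ) (dl : List (ℕ × ℕ)) (pats : List (ℕ × ℕ × List ℕ)) (str : Bool)
    (TM : List ℕ) : Tr → ℕ → ℕ → Bool
  | Tr.T k, inn, _ => match TM[k]? with
    | some m => Nat.beq (m &&& inn) m
    | none => false
  | Tr.D b1 b2 b3 b4 b5 x, inn, out =>
    inn.testBit b1 && inn.testBit b2 && inn.testBit b3 && okD n b1 b2 b3 b4 b5 &&
      chk2 n dl pats str TM x (inn ||| 2 ^ b4 ||| 2 ^ b5) out
  | Tr.S b1 b2 b4 b5 x, inn, out =>
    str && inn.testBit b1 && inn.testBit b2 && okStr n b1 b2 b4 b5 &&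
      chk2 n dl pats str TM x (inn ||| 2 ^ b4 ||| 2 ^ b5) out
  | Tr.C b, inn, out => inn.testBit b && out.testBit b
  | Tr.Y b b' x y, inn, out => okM n b b' &&
      chk2 n dl pats str TM x (inn ||| 2 ^ b ||| 2 ^ b') out &&
      chk2 n dl pats str TM y inn (out ||| 2 ^ b ||| 2 ^ b')
  | Tr.R x, _, out => chkG dl (mkF out pats) (2 * n) x [1 <<< 5200]

/-- The lattice point of a cell. -/
def decC (q : ℕ) : Z2 := (((q / 64 : ℕ) : ℤ), ((q % 64 : ℕ) : ℤ))

theorem testBit_lk (A q i : ℕ) : (lk A q).testBit i = (decide (i < 4) && A.testBit (4 * q + i)) := by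
  unfold lk
  rw [Nat.testBit_mod_two_pow, Nat.testBit_shiftRight]

theorem lk_lt (A q : ℕ) : lk A q < 16 := by
  unfold lk
  exact Nat.mod_lt _ (by norm_num)

theorem lk_ins {A c v : ℕ} (h0 : lk A c = 0) (hv : v < 16) (q : ℕ) :
    lk (A ||| (v <<< (4 * c))) q = if q = c then v else lk A q := by
  have hv4 : v < 2 ^ 4 := by norm_num; exact hv
  apply Nat.eq_of_testBit_eq
  intro i
  rw [testBit_lk, Nat.testBit_or, Nat.testBit_shiftLeft]
  have h1 : ∀ j, 4 ≤ j → v.testBit j = false := fun j hj =>
    Nat.testBit_lt_two_pow (lt_of_lt_of_le hv4 (Nat.pow_le_pow_right (by norm_num) hj))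
  by_cases hq : q = c
  · subst hq
    rw [if_pos rfl]
    by_cases hi : i < 4
    · have h2 : (lk A q).testBit i = false := by rw [h0]; exact Nat.zero_testBit i
      rw [testBit_lk] at h2
      simp only [hi, decide_true, Bool.true_and] at h2
      have h3 : 4 * q + i - 4 * q = i := by omega
      have h4 : 4 * q + i ≥ 4 * q := by omega
      simp [hi, h2, h3, h4]
    · rw [h1 i (by omega)]
      simp [hi]
  · rw [if_neg hq, testBit_lk]
    by_cases hi : i < 4
    · by_cases hlt : 4 * c ≤ 4 * q + i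
      · have h3 : 4 ≤ 4 * q + i - 4 * c := by omega
        rw [h1 _ h3]
        simp
      · have : decide (4 * q + i ≥ 4 * c) = false := by simpa using hlt
        rw [this]
        simp
    · simp [hi]

theorem testBit_forb {F A c a : ℕ} : ∀ dl : List (ℕ × ℕ), (forb F A c dl).testBit a = true →
    ∃ e ∈ dl, a < 16 ∧ F.testBit (16 * (16 * e.1 + lk A (c + e.2 - 4096)) + a) = true
  | [], h => by simp [forb] at h
  | (d, D) :: l, h => by
    unfold forb at h
    rw [Nat.testBit_or, Bool.or_eq_true] at h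
    rcases h with h | h
    · rw [Nat.testBit_mod_two_pow, Nat.testBit_shiftRight, Bool.and_eq_true,
        decide_eq_true_eq] at h
      exact ⟨(d, D), List.mem_cons_self, h.1, h.2⟩
    · obtain ⟨e, he, h1⟩ := testBit_forb l h
      exact ⟨e, List.mem_cons_of_mem _ he, h1⟩

theorem testBit_orL {pos : ℕ} : ∀ l : List ℕ, (orL l).testBit pos = true → pos ∈ l
  | [], h => by simp [orL] at h
  | p :: l, h => by
    unfold orL at h
    rw [Nat.testBit_or, Bool.or_eq_true, Nat.testBit_two_pow, decide_eq_true_eq] at h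
    rcases h with h | h
    · exact h ▸ List.mem_cons_self
    · exact List.mem_cons_of_mem _ (testBit_orL l h)

theorem testBit_mkF {n h out pos : ℕ} : ∀ pats : List (ℕ × ℕ × List ℕ),
    patOK n h pats = true → (mkF out pats).testBit pos = true →
    ∃ k, out.testBit k = true ∧ posOK n h k pos = true
  | [], _, h => by simp [mkF] at h
  | (k, P, l) :: r, hp, hF => by
    unfold patOK at hp
    simp only [Bool.and_eq_true, Nat.beq_eq, List.all_eq_true] at hp
    obtain ⟨⟨hP, hl⟩, hr⟩ := hp
    unfold mkF at hF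
    cases hk : out.testBit k with
    | false =>
      rw [hk] at hF
      exact testBit_mkF r hr hF
    | true =>
      rw [hk, cond_true, Nat.testBit_or, Bool.or_eq_true] at hF
      rcases hF with hF | hF
      · rw [hP] at hF
        exact ⟨k, hk, hl pos (testBit_orL l hF)⟩
      · exact testBit_mkF r hr hF

variable [NeZero n] {h : ℕ} {R : ZMod n → ZMod n → Bool → Prop} {g : Z2 → Lab n}
  {dir : ZMod n → Z2} {dl : List (ℕ × ℕ)} {out : ℕ}

/-- A packed assignment agrees with a labelling. -/
def AgreeP (g : Z2 → Lab n) (A : ℕ) : Prop :=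
  ∀ q, lk A q ≠ 0 → g (decC q) = labN n (lk A q - 1) ∧ lk A q - 1 < 2 * n

theorem not_forb (hg : ∀ z d, Con (h : ZMod n) R d (g z) (g (z + dir d)))
    (hout : ∀ b, out.testBit b = true → ¬ Rb R b)
    (hdl : ∀ e ∈ dl, e.1 < n ∧ ∀ c, cellOK c = true →
      decC (c + e.2 - 4096) = decC c + dir (e.1 : ZMod n))
    {pats : List (ℕ × ℕ × List ℕ)} (hp : patOK n h pats = true)
    {A c a : ℕ} (hc : cellOK c = true) (hA : AgreeP g A) (ha : a < 2 * n)
    (hga : g (decC c) = labN n a) : (forb (mkF out pats) A c dl).testBit a = false := by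
  by_contra hcon
  rw [Bool.not_eq_false] at hcon
  obtain ⟨e, he, ha16, hF⟩ := testBit_forb dl hcon
  obtain ⟨k, hk, hpos⟩ := testBit_mkF pats hp hF
  have hlk := lk_lt A (c + e.2 - 4096)
  set v := lk A (c + e.2 - 4096) with hv
  have h1 : (16 * (16 * e.1 + v) + a) % 16 = a := by omega
  have h2 : (16 * (16 * e.1 + v) + a) / 16 % 16 = v := by omega
  have h3 : (16 * (16 * e.1 + v) + a) / 256 = e.1 := by omega
  unfold posOK at hpos
  rw [h1, h2, h3] at hpos
  simp only [Bool.and_eq_true, Nat.beq_eq, Nat.ble_eq] at hpos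
  obtain ⟨⟨⟨⟨p1, _⟩, _⟩, _⟩, p5⟩ := hpos
  obtain ⟨hd, hdc⟩ := hdl e he
  have hv0 : v ≠ 0 := by omega
  obtain ⟨h4, h5⟩ := hA _ hv0
  have hcon2 := hg (decC c) (e.1 : ZMod n)
  rw [← hdc c hc, hga, h4, con_iff_cbN R ha h5 hd, p5] at hcon2
  exact hout k hk hcon2

theorem mem_expandN {m c A a : ℕ} (hm : m.testBit a = false) :
    ∀ k, a < k → (A ||| ((a + 1) <<< (4 * c))) ∈ expandN m c A k
  | 0, hk => absurd hk (Nat.not_lt_zero _)
  | k + 1, hk => by
    unfold expandN
    by_cases hak : a = k
    · subst hak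
      rw [hm]
      simp
    · have ih := mem_expandN (c := c) (A := A) hm k (by omega)
      cases m.testBit k
      · simp [ih]
      · simpa using ih

theorem chkG_sound (hn16 : 2 * n < 16) (hg : ∀ z d, Con (h : ZMod n) R d (g z) (g (z + dir d)))
    (hout : ∀ b, out.testBit b = true → ¬ Rb R b)
    (hdl : ∀ e ∈ dl, e.1 < n ∧ ∀ c, cellOK c = true →
      decC (c + e.2 - 4096) = decC c + dir (e.1 : ZMod n))
    {pats : List (ℕ × ℕ × List ℕ)} (hp : patOK n h pats = true)
    (f : Fo) : ∀ ss, chkG dl (mkF out pats) (2 * n) f ss = true → ∀ A ∈ ss, ¬ AgreeP g A := by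
  induction f with
  | nil =>
    intro ss hss s hs
    cases ss with
    | nil => simp at hs
    | cons a l => simp [chkG] at hss
  | cons c ch rest ih1 ih2 =>
    intro ss hss s hs
    cases ss with
    | nil => simp at hs
    | cons A l =>
      unfold chkG at hss
      simp only [Bool.and_eq_true, Nat.beq_eq] at hss
      obtain ⟨⟨⟨hc, hA0⟩, h1⟩, h2⟩ := hss
      rcases List.mem_cons.1 hs with rfl | hs
      · intro hag
        obtain ⟨k, hk, hlab⟩ := labN_surj (g (decC c))
        have hnf := not_forb hg hout hdl hp hc hag hk hlab.symm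
        have hmem := mem_expandN (c := c) (A := s) hnf (2 * n) hk
        refine ih1 _ h1 _ hmem ?_
        intro q hq
        rw [lk_ins hA0 (by omega)] at hq ⊢
        by_cases hqc : q = c
        · subst hqc
          rw [if_pos rfl]
          exact ⟨hlab.symm, hk⟩
        · rw [if_neg hqc] at hq ⊢
          exact hag q hq
      · exact ih2 _ h2 s hs

theorem chk2_sound (hn16 : 2 * n < 16) (hR : Closed R) (str : Bool)
    (hS : str = true → Straight R) (TM : List ℕ)
    (hg : ∀ z d, Con (h : ZMod n) R d (g z) (g (z + dir d)))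
    (hdl : ∀ e ∈ dl, e.1 < n ∧ ∀ c, cellOK c = true →
      decC (c + e.2 - 4096) = decC c + dir (e.1 : ZMod n))
    {pats : List (ℕ × ℕ × List ℕ)} (hp : patOK n h pats = true)
    (hroot : g (20, 20) = (0, false)) (x : Tr) :
    ∀ inn out : ℕ, chk2 n dl pats str TM x inn out = true →
      (∀ b, inn.testBit b = true → Rb R b) → (∀ b, out.testBit b = true → ¬ Rb R b) →
      ∃ m ∈ TM, ∀ b, m.testBit b = true → Rb R b := by
  induction x with
  | T k =>
    intro inn out hc hinn hout
    unfold chk2 at hc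
    cases hm : TM[k]? with
    | none => simp [hm] at hc
    | some m =>
      simp only [hm, Nat.beq_eq] at hc
      refine ⟨m, List.mem_of_getElem? hm, fun b hb => hinn b ?_⟩
      rw [← hc, Nat.testBit_and, Bool.and_eq_true] at hb
      exact hb.2
  | D b1 b2 b3 b4 b5 x ih =>
    intro inn out hc hinn hout
    unfold chk2 at hc
    simp only [Bool.and_eq_true] at hc
    obtain ⟨⟨⟨⟨c1, c2⟩, c3⟩, c4⟩, c5⟩ := hc
    obtain ⟨r4, r5⟩ := rb_chain hR (hinn _ c1) (hinn _ c2) (hinn _ c3) c4
    exact ih _ _ c5 (rb_insert hinn r4 r5) hout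
  | S b1 b2 b4 b5 x ih =>
    intro inn out hc hinn hout
    unfold chk2 at hc
    simp only [Bool.and_eq_true] at hc
    obtain ⟨⟨⟨⟨c0, c1⟩, c2⟩, c4⟩, c5⟩ := hc
    obtain ⟨r4, r5⟩ := rb_str hR (hS c0) (hinn _ c1) (hinn _ c2) c4
    exact ih _ _ c5 (rb_insert hinn r4 r5) hout
  | C b =>
    intro inn out hc hinn hout
    unfold chk2 at hc
    rw [Bool.and_eq_true] at hc
    exact absurd (hinn _ hc.1) (hout _ hc.2)
  | Y b b' x y ih1 ih2 =>
    intro inn out hc hinn hout
    unfold chk2 at hc
    simp only [Bool.and_eq_true] at hc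
    obtain ⟨⟨c0, c1⟩, c2⟩ := hc
    by_cases hb : Rb R b
    · exact ih1 _ _ c1 (rb_insert hinn hb (rb_mirror hR c0 hb)) hout
    · exact ih2 _ _ c2 hinn
        (rb_insert_not hout hb fun hb' => hb (rb_mirror hR (okM_symm c0) hb'))
  | R f =>
    intro inn out hc hinn hout
    unfold chk2 at hc
    exfalso
    refine chkG_sound hn16 hg hout hdl hp f _ hc (1 <<< 5200) List.mem_cons_self ?_
    intro q hq
    have h0 : lk 0 1300 = 0 := by unfold lk; simp
    have h1 := lk_ins (A := 0) (c := 1300) (v := 1) h0 (by norm_num) q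
    have h2 : (0 ||| (1 <<< (4 * 1300)) : ℕ) = 1 <<< 5200 := by rw [Nat.zero_or]
    rw [h2] at h1
    rw [h1] at hq ⊢
    by_cases hqc : q = 1300
    · subst hqc
      rw [if_pos rfl]
      have hn := NeZero.pos n
      refine ⟨?_, by omega⟩
      simpa [labN, decC] using hroot
    · rw [if_neg hqc] at hq
      exact absurd (by unfold lk; simp) hq

end Pool.H3JG
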