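import Pool.Agent.Helper3.JG.Euclid
import Pool.Agent.Helper3.JG.RealSq
import Pool.Agent.Helper3.JG.RealHex
import Pool.Agent.Helper3.JG.Straight
import Pool.Agent.Helper3.JG.CoreSq
import Pool.Agent.Helper3.JG.CoreHex

/-!
# Jigsaw tiles on a lattice: the final statement
-/

namespace Pool.H3JG

open Set

theorem core_of_tiles {n : ℕ} {G : Grid n} {T : Set V} (hT : closure (interior T) = T)
    (hB : T ⊆ G.B) {g : Z2 → Lab n} (ht : G.Tiles T g) :
    ∀ z d, Con G.h (G.rel T) d (g z) (g (z + G.dir d)) := fun z d =>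
  (G.fitAt_iff T d _ _).1 (G.fitAt_of_tiles hT hB ht z d)

/-- The square lattice. -/
def sqLat : Set E := {p | ∃ a b : ℤ, p = !₂[(a : ℝ), (b : ℝ)]}

/-- The hexagonal lattice. -/
def hexLat : Set E := {p | ∃ a b : ℤ, p = !₂[(a : ℝ) + (b : ℝ) / 2, Real.sqrt 3 / 2 * (b : ℝ)]}

theorem sqLat_eq : sqLat = range (fun z : Z2 => sqF (toV z)) := by
  ext p
  constructor
  · rintro ⟨a, b, rfl⟩
    exact ⟨(a, b), rfl⟩
  · rintro ⟨z, rfl⟩
    exact ⟨z.1, z.2, rfl⟩

theorem hexLat_eq : hexLat = range (fun z : Z2 => hexF (toV z)) := by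
  ext p
  constructor
  · rintro ⟨a, b, rfl⟩
    exact ⟨(a, b), rfl⟩
  · rintro ⟨z, rfl⟩
    exact ⟨z.1, z.2, rfl⟩

theorem final (Λ : Set E) (hΛ : Λ = sqLat ∨ Λ = hexLat)
    {T : Set E} (hT : closure (interior T) = T) (hc : IsPreconnected (interior T))
    (hn : ∀ p ∈ T, ∀ u ∈ Λ, ∀ w ∈ Λ, ‖p - u‖ < ‖p‖ → ‖p - w‖ < ‖p‖ → u = w)
    (g : E → E ≃ₗᵢ[ℝ] E) (hg : ∀ u ∈ Λ, ∀ w ∈ Λ, g u w ∈ Λ)
    (hcov : (⋃ u ∈ Λ, (fun x => u + g u x) '' T) = univ)
    (hdis : ∀ u ∈ Λ, ∀ w ∈ Λ, u ≠ w →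
      Disjoint (interior ((fun x => u + g u x) '' T)) (interior ((fun x => w + g w x) '' T))) :
    ∃ m : ℕ, 1 ≤ m ∧ m ≤ 2 ∧ RepUnit T m := by
  rcases hΛ with h | h
  · rw [sqLat_eq] at h
    obtain ⟨re, hre⟩ := exists_realSq
    have hre' : (re.F : V → E) = sqF := funext hre
    refine euclid_of_grid re (fun p q => ?_) Λ (by rw [h]; simp only [hre]) ?_ ?_ ?_ hT hc hn g hg
      hcov hdis
    · simp only [hre]
      exact sqF_add p q
    · intro L hL
      rw [h] at hL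
      obtain ⟨a, ha⟩ := sq_label L hL
      exact ⟨a, fun p => by simp only [hre]; exact ha p⟩
    · intro p hp
      simp only [hre, h] at hp
      exact sq_star p hp
    · intro T' hT' _ hB' g' ht'
      exact core_sq (gridSq.rel_closed T') (core_of_tiles hT' hB' ht')
  · rw [hexLat_eq] at h
    obtain ⟨re, hre⟩ := exists_realHex
    refine euclid_of_grid re (fun p q => ?_) Λ (by rw [h]; simp only [hre]) ?_ ?_ ?_ hT hc hn g hg
      hcov hdis
    · simp only [hre]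
      exact hexF_add p q
    · intro L hL
      rw [h] at hL
      obtain ⟨a, ha⟩ := hex_label L hL
      exact ⟨a, fun p => by simp only [hre]; exact ha p⟩
    · intro p hp
      simp only [hre, h] at hp
      exact hex_star p hp
    · intro T' hT' hc' hB' g' ht'
      exact core_hex (gridHex.rel_closed T') (straight_hex hT' hc' hB' ht')
        (core_of_tiles hT' hB' ht')

end Pool.H3JG
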