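import Pool.Agent.Helper3.JG.TileFit

/-!
# Jigsaw tiles on a lattice: complementary neighbours give a tiling

Proof. Covering: by `G.cover` every `p` is `toV z + mat (i, false) q` with `q ∈ closure U0`, so
`p - toV z ∈ closure (U i)`, and `U i ⊆ A ∪ B'` (closed) because `U i \ A = U i ∩ interior B'`.
Disjointness: let the interiors of the tiles at `z ≠ w` have a common point `p`. By `G.cover` the
point `p` is in the closure of some open cell `toV s + U i`, so the open set of common interior
points meets `toV s + U i` in a point `q`. By `Grid.sep` (after translating by `-s`) both `z` and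
`w` are in `{s, s + dir i}`, so `{z, w} = {s, s + dir i}` and `Fit` at `(s, i)` says that `q` is not
in both interiors.
-/

namespace Pool.H3JG

open Set

variable {n : ℕ}

private theorem FitTile_tr (G : Grid n) (T : Set V) (z w : Z2) (a : Lab n) :
    G.plH z (0, false) '' G.tile T w a = G.tile T (z + w) a := by
  rw [G.plH_coe, G.pl_tile, one_lmul]
  congr 1
  simp [mvR, G.mat_one, Mat.apZ_one]

private theorem FitTile_trI (G : Grid n) (T : Set V) (z w : Z2) (a : Lab n) :
    G.plH z (0, false) '' interior (G.tile T w a) = interior (G.tile T (z + w) a) := by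
  rw [(G.plH z (0, false)).image_interior, FitTile_tr]

private theorem FitTile_cov (G : Grid n) (p : V) :
    ∃ s : Z2, ∃ i : ZMod n, ∃ q ∈ closure (G.U i), p = G.plH s (0, false) q := by
  obtain ⟨s, i, q, hq, hp⟩ := G.cover p
  refine ⟨s, i, (G.mat (i, false)).ap q, ?_, ?_⟩
  · exact image_closure_subset_closure_image (G.mat (i, false)).continuous_ap ⟨q, hq, rfl⟩
  · rw [G.plH_coe, G.pl_one]
    exact hp

private theorem FitTile_closed (G : Grid n) {T : Set V} (hT : IsClosed T) (w : Z2) (a : Lab n) :
    IsClosed (G.tile T w a) := by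
  have h : G.tile T w a = G.plH w a '' T := rfl
  rw [h]
  exact (G.plH w a).isClosedMap _ hT

private theorem FitTile_dis (G : Grid n) {T : Set V} {g : Z2 → Lab n}
    (hg : ∀ z d, G.FitAt T d (g z) (g (z + G.dir d))) (s : Z2) (i : ZMod n) (q : V)
    (hq : q ∈ G.U i) (h1 : q ∈ interior (G.tile T 0 (g s)))
    (h2 : q ∈ interior (G.tile T (G.dir i) (g (s + G.dir i)))) : False := by
  have h := (hg s i).1
  have h3 : q ∈ G.U i \ G.tile T 0 (g s) := h ▸ (⟨hq, h2⟩ : q ∈ G.U i ∩ interior _)
  exact h3.2 (interior_subset h1)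

theorem Grid.tiles_of_fitAt (G : Grid n) {T : Set V} (hT : IsClosed T)
    (hB : T ⊆ G.B) {g : Z2 → Lab n} (hg : ∀ z d, G.FitAt T d (g z) (g (z + G.dir d))) :
    G.Tiles T g := by
  constructor
  · intro p
    obtain ⟨s, i, q, hq, rfl⟩ := FitTile_cov G p
    have hU : G.U i ⊆ G.tile T 0 (g s) ∪ G.tile T (G.dir i) (g (s + G.dir i)) := by
      intro x hx
      by_cases h : x ∈ G.tile T 0 (g s)
      · exact Or.inl h
      · right
        have h1 : x ∈ G.U i \ G.tile T 0 (g s) := ⟨hx, h⟩
        rw [← (hg s i).1] at h1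
        exact interior_subset h1.2
    have hc : closure (G.U i) ⊆ G.tile T 0 (g s) ∪ G.tile T (G.dir i) (g (s + G.dir i)) :=
      closure_minimal hU ((FitTile_closed G hT _ _).union (FitTile_closed G hT _ _))
    rcases hc hq with h | h
    · refine ⟨s, ?_⟩
      have h1 := mem_image_of_mem (G.plH s (0, false)) h
      rwa [FitTile_tr, add_zero] at h1
    · refine ⟨s + G.dir i, ?_⟩
      have h1 := mem_image_of_mem (G.plH s (0, false)) h
      rwa [FitTile_tr] at h1
  · intro z w hzw
    rw [Set.disjoint_left]
    intro p hpz hpw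
    obtain ⟨s, i, q, hq, rfl⟩ := FitTile_cov G p
    have ez : z = s + (z - s) := by abel
    have ew : w = s + (w - s) := by abel
    have hz : q ∈ interior (G.tile T (z - s) (g z)) := by
      rw [ez, ← FitTile_trI] at hpz
      rw [← ez] at hpz
      obtain ⟨x, hx, hxe⟩ := hpz
      rwa [(G.plH s (0, false)).injective hxe] at hx
    have hw : q ∈ interior (G.tile T (w - s) (g w)) := by
      rw [ew, ← FitTile_trI] at hpw
      rw [← ew] at hpw
      obtain ⟨x, hx, hxe⟩ := hpw
      rwa [(G.plH s (0, false)).injective hxe] at hx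
    have hO : IsOpen (interior (G.tile T (z - s) (g z)) ∩ interior (G.tile T (w - s) (g w))) :=
      isOpen_interior.inter isOpen_interior
    obtain ⟨x, ⟨hxz, hxw⟩, hxU⟩ := mem_closure_iff.1 hq _ hO ⟨hz, hw⟩
    have sz := G.sep hB hxU (interior_subset hxz)
    have sw := G.sep hB hxU (interior_subset hxw)
    rcases sz with sz | sz <;> rcases sw with sw | sw
    · exact hzw (sub_left_injective (sz.trans sw.symm))
    · have e1 : z = s := sub_eq_zero.1 sz
      have e2 : w = s + G.dir i := by rw [← sw]; abel
      rw [sz] at hxz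
      rw [sw] at hxw
      rw [e1] at hxz
      rw [e2] at hxw
      exact FitTile_dis G hg s i x hxU hxz hxw
    · have e1 : w = s := sub_eq_zero.1 sw
      have e2 : z = s + G.dir i := by rw [← sz]; abel
      rw [sz] at hxz
      rw [sw] at hxw
      rw [e2] at hxz
      rw [e1] at hxw
      exact FitTile_dis G hg s i x hxU hxw hxz
    · exact hzw (sub_left_injective (sz.trans sw.symm))

end Pool.H3JG
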