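import Pool.Agent.Helper3.JG.Hex6

/-!
# Jigsaw tiles on a lattice: certificate for the hexagonal lattice, class 3
-/

namespace Pool.H3JG

/-- A part of the decision tree. -/
def tr6_0_0 : Tr :=
  (.R (.cons 1236 (.cons 1237 (.cons 1299 (.cons 1301 (.cons 1364 (.cons 1363 (.cons 1173 (.cons 1235 (.cons 1172 .nil (.cons 1172 .nil .nil)) (.cons 1235 (.cons 1172 .nil (.cons 1172 .nil .nil)) .nil)) (.cons 1173 (.cons 1235 (.cons 1172 .nil (.cons 1172 .nil .nil)) (.cons 1235 (.cons 1172 .nil (.cons 1172 .nil .nil)) .nil)) .nil)) (.cons 1363 (.cons 1173 (.cons 1235 (.cons 1172 .nil (.cons 1172 .nil .nil)) (.cons 1235 (.cons 1172 .nil (.cons 1172 .nil .nil)) .nil)) (.cons 1173 (.cons 1235 (.cons 1172 .nil (.cons 1172 .nil .nil)) (.cons 1235 (.cons 1172 .nil (.cons 1172 .nil .nil)) .nil)) .nil)) .nil)) (.cons 1364 (.cons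 1363 (.cons 1173 (.cons 1235 (.cons 1172 .nil (.cons 1172 .nil .nil)) (.cons 1235 (.cons 1172 .nil (.cons 1172 .nil .nil)) .nil)) (.cons 1173 (.cons 1235 (.cons 1172 .nil (.cons 1172 .nil .nil)) (.cons 1235 (.cons 1172 .nil (.cons 1172 .nil .nil)) .nil)) .nil)) (.cons 1363 (.cons 1173 (.cons 1235 (.cons 1172 .nil (.cons 1172 .nil .nil)) (.cons 1235 (.cons 1172 .nil (.cons 1172 .nil .nil)) .nil)) (.cons 1173 (.cons 1235 (.cons 1172 .nil (.cons 1172 .nil .nil)) (.cons 1235 (.cons 1172 .nil (.cons 1172 .nil .nil)) .nil)) .nil)) .nil)) .nil)) (.cons 1301 (.cons 1364 (.cons 1363 (.cons 1173 (.cons 1235 (.cons 1172 .nil (.cons 1172 .nil .nil)) (.cons 1235 (.cons 1172 .nil (.cons 1172 .nil .nil)) .nil)) (.cons 1173 (.cons 1235 (.cons 1172 .nil (.cons 1172 .nil .nil)) (.cons 1235 (.cons 1172 .nil (.cons 1172 .nil .nil))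 .nil)) .nil)) (.cons 1363 (.cons 1173 (.cons 1235 (.cons 1172 .nil (.cons 1172 .nil .nil)) (.cons 1235 (.cons 1172 .nil (.cons 1172 .nil .nil)) .nil)) (.cons 1173 (.cons 1235 (.cons 1172 .nil (.cons 1172 .nil .nil)) (.cons 1235 (.cons 1172 .nil (.cons 1172 .nil .nil)) .nil)) .nil)) .nil)) (.cons 1364 (.cons 1363 (.cons 1173 (.cons 1235 (.cons 1172 .nil (.cons 1172 .nil .nil)) (.cons 1235 (.cons 1172 .nil (.cons 1172 .nil .nil)) .nil)) (.cons 1173 (.cons 1235 (.cons 1172 .nil (.cons 1172 .nil .nil)) (.cons 1235 (.cons 1172 .nil (.cons 1172 .nil .nil)) .nil)) .nil)) (.cons 1363 (.cons 1173 (.cons 1235 (.cons 1172 .nil (.cons 1172 .nil .nil)) (.cons 1235 (.cons 1172 .nil (.cons 1172 .nil .nil)) .nil)) (.cons 1173 (.cons 1235 (.cons 1172 .nil (.cons 1172 .nil .nil)) (.cons 1235 (.cons 1172 .nil (.cons 1172 .nil .nil))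 .nil)) .nil)) .nil)) .nil)) .nil)) (.cons 1299 (.cons 1301 (.cons 1364 (.cons 1363 (.cons 1173 (.cons 1235 (.cons 1172 .nil (.cons 1172 .nil .nil)) (.cons 1235 (.cons 1172 .nil (.cons 1172 .nil .nil)) .nil)) (.cons 1173 (.cons 1235 (.cons 1172 .nil (.cons 1172 .nil .nil)) (.cons 1235 (.cons 1172 .nil (.cons 1172 .nil .nil)) .nil)) .nil)) (.cons 1363 (.cons 1173 (.cons 1235 (.cons 1172 .nil (.cons 1172 .nil .nil)) (.cons 1235 (.cons 1172 .nil (.cons 1172 .nil .nil)) .nil)) (.cons 1173 (.cons 1235 (.cons 1172 .nil (.cons 1172 .nil .nil)) (.cons 1235 (.cons 1172 .nil (.cons 1172 .nil .nil)) .nil)) .nil)) .nil)) (.cons 1364 (.cons 1363 (.cons 1173 (.cons 1235 (.cons 1172 .nil (.cons 1172 .nil .nil)) (.cons 1235 (.cons 1172 .nil (.cons 1172 .nil .nil)) .nil)) (.cons 1173 (.cons 1235 (.cons 1172 .nil (.cons 1172 .nil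 .nil)) (.cons 1235 (.cons 1172 .nil (.cons 1172 .nil .nil)) .nil)) .nil)) (.cons 1363 (.cons 1173 (.cons 1235 (.cons 1172 .nil (.cons 1172 .nil .nil)) (.cons 1235 (.cons 1172 .nil (.cons 1172 .nil .nil)) .nil)) (.cons 1173 (.cons 1235 (.cons 1172 .nil (.cons 1172 .nil .nil)) (.cons 1235 (.cons 1172 .nil (.cons 1172 .nil .nil)) .nil)) .nil)) .nil)) .nil)) (.cons 1301 (.cons 1364 (.cons 1363 (.cons 1173 (.cons 1235 (.cons 1172 .nil (.cons 1172 .nil .nil)) (.cons 1235 (.cons 1172 .nil (.cons 1172 .nil .nil)) .nil)) (.cons 1173 (.cons 1235 (.cons 1172 .nil (.cons 1172 .nil .nil)) (.cons 1235 (.cons 1172 .nil (.cons 1172 .nil .nil)) .nil)) .nil)) (.cons 1363 (.cons 1173 (.cons 1235 (.cons 1172 .nil (.cons 1172 .nil .nil)) (.cons 1235 (.cons 1172 .nil (.cons 1172 .nil .nil)) .nil)) (.cons 1173 (.cons 1235 (.cons 1172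 .nil (.cons 1172 .nil .nil)) (.cons 1235 (.cons 1172 .nil (.cons 1172 .nil .nil)) .nil)) .nil)) .nil)) (.cons 1364 (.cons 1363 (.cons 1173 (.cons 1235 (.cons 1172 .nil (.cons 1172 .nil .nil)) (.cons 1235 (.cons 1172 .nil (.cons 1172 .nil .nil)) .nil)) (.cons 1173 (.cons 1235 (.cons 1172 .nil (.cons 1172 .nil .nil)) (.cons 1235 (.cons 1172 .nil (.cons 1172 .nil .nil)) .nil)) .nil)) (.cons 1363 (.cons 1173 (.cons 1235 (.cons 1172 .nil (.cons 1172 .nil .nil)) (.cons 1235 (.cons 1172 .nil (.cons 1172 .nil .nil)) .nil)) (.cons 1173 (.cons 1235 (.cons 1172 .nil (.cons 1172 .nil .nil)) (.cons 1235 (.cons 1172 .nil (.cons 1172 .nil .nil)) .nil)) .nil)) .nil)) .nil)) .nil)) .nil)) (.cons 1237 (.cons 1299 (.cons 1301 (.cons 1363 (.cons 1364 (.cons 1173 (.cons 1235 (.cons 1172 .nil (.cons 1172 .nil .nil)) (.cons 1235 (.cons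 1172 .nil (.cons 1172 .nil .nil)) .nil)) (.cons 1173 (.cons 1235 (.cons 1172 .nil (.cons 1172 .nil .nil)) (.cons 1235 (.cons 1172 .nil (.cons 1172 .nil .nil)) .nil)) .nil)) (.cons 1364 (.cons 1173 (.cons 1235 (.cons 1172 .nil (.cons 1172 .nil .nil)) (.cons 1235 (.cons 1172 .nil (.cons 1172 .nil .nil)) .nil)) (.cons 1173 (.cons 1235 (.cons 1172 .nil (.cons 1172 .nil .nil)) (.cons 1235 (.cons 1172 .nil (.cons 1172 .nil .nil)) .nil)) .nil)) .nil)) (.cons 1363 (.cons 1364 (.cons 1173 (.cons 1235 (.cons 1172 .nil (.cons 1172 .nil .nil)) (.cons 1235 (.cons 1172 .nil (.cons 1172 .nil .nil)) .nil)) (.cons 1173 (.cons 1235 (.cons 1172 .nil (.cons 1172 .nil .nil)) (.cons 1235 (.cons 1172 .nil (.cons 1172 .nil .nil)) .nil)) .nil)) (.cons 1364 (.cons 1173 (.cons 1235 (.cons 1172 .nil (.cons 1172 .nil .nil)) (.cons 1235 (.cons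 1172 .nil (.cons 1172 .nil .nil)) .nil)) (.cons 1173 (.cons 1235 (.cons 1172 .nil (.cons 1172 .nil .nil)) (.cons 1235 (.cons 1172 .nil (.cons 1172 .nil .nil)) .nil)) .nil)) .nil)) .nil)) (.cons 1301 (.cons 1363 (.cons 1364 (.cons 1173 (.cons 1235 (.cons 1172 .nil (.cons 1172 .nil .nil)) (.cons 1235 (.cons 1172 .nil (.cons 1172 .nil .nil)) .nil)) (.cons 1173 (.cons 1235 (.cons 1172 .nil (.cons 1172 .nil .nil)) (.cons 1235 (.cons 1172 .nil (.cons 1172 .nil .nil)) .nil)) .nil)) (.cons 1364 (.cons 1173 (.cons 1235 (.cons 1172 .nil (.cons 1172 .nil .nil)) (.cons 1235 (.cons 1172 .nil (.cons 1172 .nil .nil)) .nil)) (.cons 1173 (.cons 1235 (.cons 1172 .nil (.cons 1172 .nil .nil)) (.cons 1235 (.cons 1172 .nil (.cons 1172 .nil .nil)) .nil)) .nil)) .nil)) (.cons 1363 (.cons 1364 (.cons 1173 (.cons 1235 (.cons 1172 .nil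 (.cons 1172 .nil .nil)) (.cons 1235 (.cons 1172 .nil (.cons 1172 .nil .nil)) .nil)) (.cons 1173 (.cons 1235 (.cons 1172 .nil (.cons 1172 .nil .nil)) (.cons 1235 (.cons 1172 .nil (.cons 1172 .nil .nil)) .nil)) .nil)) (.cons 1364 (.cons 1173 (.cons 1235 (.cons 1172 .nil (.cons 1172 .nil .nil)) (.cons 1235 (.cons 1172 .nil (.cons 1172 .nil .nil)) .nil)) (.cons 1173 (.cons 1235 (.cons 1172 .nil (.cons 1172 .nil .nil)) (.cons 1235 (.cons 1172 .nil (.cons 1172 .nil .nil)) .nil)) .nil)) .nil)) .nil)) .nil)) (.cons 1299 (.cons 1301 (.cons 1363 (.cons 1364 (.cons 1173 (.cons 1235 (.cons 1172 .nil (.cons 1172 .nil .nil)) (.cons 1235 (.cons 1172 .nil (.cons 1172 .nil .nil)) .nil)) (.cons 1173 (.cons 1235 (.cons 1172 .nil (.cons 1172 .nil .nil)) (.cons 1235 (.cons 1172 .nil (.cons 1172 .nil .nil)) .nil)) .nil)) (.cons 1364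 (.cons 1173 (.cons 1235 (.cons 1172 .nil (.cons 1172 .nil .nil)) (.cons 1235 (.cons 1172 .nil (.cons 1172 .nil .nil)) .nil)) (.cons 1173 (.cons 1235 (.cons 1172 .nil (.cons 1172 .nil .nil)) (.cons 1235 (.cons 1172 .nil (.cons 1172 .nil .nil)) .nil)) .nil)) .nil)) (.cons 1363 (.cons 1364 (.cons 1173 (.cons 1235 (.cons 1172 .nil (.cons 1172 .nil .nil)) (.cons 1235 (.cons 1172 .nil (.cons 1172 .nil .nil)) .nil)) (.cons 1173 (.cons 1235 (.cons 1172 .nil (.cons 1172 .nil .nil)) (.cons 1235 (.cons 1172 .nil (.cons 1172 .nil .nil)) .nil)) .nil)) (.cons 1364 (.cons 1173 (.cons 1235 (.cons 1172 .nil (.cons 1172 .nil .nil)) (.cons 1235 (.cons 1172 .nil (.cons 1172 .nil .nil)) .nil)) (.cons 1173 (.cons 1235 (.cons 1172 .nil (.cons 1172 .nil .nil)) (.cons 1235 (.cons 1172 .nil (.cons 1172 .nil .nil)) .nil)) .nil)) .nil))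 .nil)) (.cons 1301 (.cons 1363 (.cons 1364 (.cons 1173 (.cons 1235 (.cons 1172 .nil (.cons 1172 .nil .nil)) (.cons 1235 (.cons 1172 .nil (.cons 1172 .nil .nil)) .nil)) (.cons 1173 (.cons 1235 (.cons 1172 .nil (.cons 1172 .nil .nil)) (.cons 1235 (.cons 1172 .nil (.cons 1172 .nil .nil)) .nil)) .nil)) (.cons 1364 (.cons 1173 (.cons 1235 (.cons 1172 .nil (.cons 1172 .nil .nil)) (.cons 1235 (.cons 1172 .nil (.cons 1172 .nil .nil)) .nil)) (.cons 1173 (.cons 1235 (.cons 1172 .nil (.cons 1172 .nil .nil)) (.cons 1235 (.cons 1172 .nil (.cons 1172 .nil .nil)) .nil)) .nil)) .nil)) (.cons 1363 (.cons 1364 (.cons 1173 (.cons 1235 (.cons 1172 .nil (.cons 1172 .nil .nil)) (.cons 1235 (.cons 1172 .nil (.cons 1172 .nil .nil)) .nil)) (.cons 1173 (.cons 1235 (.cons 1172 .nil (.cons 1172 .nil .nil)) (.cons 1235 (.cons 1172 .nil (.cons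 1172 .nil .nil)) .nil)) .nil)) (.cons 1364 (.cons 1173 (.cons 1235 (.cons 1172 .nil (.cons 1172 .nil .nil)) (.cons 1235 (.cons 1172 .nil (.cons 1172 .nil .nil)) .nil)) (.cons 1173 (.cons 1235 (.cons 1172 .nil (.cons 1172 .nil .nil)) (.cons 1235 (.cons 1172 .nil (.cons 1172 .nil .nil)) .nil)) .nil)) .nil)) .nil)) .nil)) .nil)) (.cons 1237 (.cons 1299 (.cons 1301 (.cons 1363 (.cons 1364 (.cons 1173 (.cons 1235 (.cons 1172 .nil (.cons 1172 .nil .nil)) (.cons 1235 (.cons 1172 .nil (.cons 1172 .nil .nil)) .nil)) (.cons 1173 (.cons 1235 (.cons 1172 .nil (.cons 1172 .nil .nil)) (.cons 1235 (.cons 1172 .nil (.cons 1172 .nil .nil)) .nil)) .nil)) (.cons 1364 (.cons 1173 (.cons 1235 (.cons 1172 .nil (.cons 1172 .nil .nil)) (.cons 1235 (.cons 1172 .nil (.cons 1172 .nil .nil)) .nil)) (.cons 1173 (.cons 1235 (.cons 1172 .nil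 (.cons 1172 .nil .nil)) (.cons 1235 (.cons 1172 .nil (.cons 1172 .nil .nil)) .nil)) .nil)) .nil)) (.cons 1363 (.cons 1364 (.cons 1173 (.cons 1235 (.cons 1172 .nil (.cons 1172 .nil .nil)) (.cons 1235 (.cons 1172 .nil (.cons 1172 .nil .nil)) .nil)) (.cons 1173 (.cons 1235 (.cons 1172 .nil (.cons 1172 .nil .nil)) (.cons 1235 (.cons 1172 .nil (.cons 1172 .nil .nil)) .nil)) .nil)) (.cons 1364 (.cons 1173 (.cons 1235 (.cons 1172 .nil (.cons 1172 .nil .nil)) (.cons 1235 (.cons 1172 .nil (.cons 1172 .nil .nil)) .nil)) (.cons 1173 (.cons 1235 (.cons 1172 .nil (.cons 1172 .nil .nil)) (.cons 1235 (.cons 1172 .nil (.cons 1172 .nil .nil)) .nil)) .nil)) .nil)) .nil)) (.cons 1301 (.cons 1363 (.cons 1364 (.cons 1173 (.cons 1235 (.cons 1172 .nil (.cons 1172 .nil .nil)) (.cons 1235 (.cons 1172 .nil (.cons 1172 .nil .nil)) .nil))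 (.cons 1173 (.cons 1235 (.cons 1172 .nil (.cons 1172 .nil .nil)) (.cons 1235 (.cons 1172 .nil (.cons 1172 .nil .nil)) .nil)) .nil)) (.cons 1364 (.cons 1173 (.cons 1235 (.cons 1172 .nil (.cons 1172 .nil .nil)) (.cons 1235 (.cons 1172 .nil (.cons 1172 .nil .nil)) .nil)) (.cons 1173 (.cons 1235 (.cons 1172 .nil (.cons 1172 .nil .nil)) (.cons 1235 (.cons 1172 .nil (.cons 1172 .nil .nil)) .nil)) .nil)) .nil)) (.cons 1363 (.cons 1364 (.cons 1173 (.cons 1235 (.cons 1172 .nil (.cons 1172 .nil .nil)) (.cons 1235 (.cons 1172 .nil (.cons 1172 .nil .nil)) .nil)) (.cons 1173 (.cons 1235 (.cons 1172 .nil (.cons 1172 .nil .nil)) (.cons 1235 (.cons 1172 .nil (.cons 1172 .nil .nil)) .nil)) .nil)) (.cons 1364 (.cons 1173 (.cons 1235 (.cons 1172 .nil (.cons 1172 .nil .nil)) (.cons 1235 (.cons 1172 .nil (.cons 1172 .nil .nil)) .nil))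 (.cons 1173 (.cons 1235 (.cons 1172 .nil (.cons 1172 .nil .nil)) (.cons 1235 (.cons 1172 .nil (.cons 1172 .nil .nil)) .nil)) .nil)) .nil)) .nil)) .nil)) (.cons 1299 (.cons 1301 (.cons 1363 (.cons 1364 (.cons 1173 (.cons 1235 (.cons 1172 .nil (.cons 1172 .nil .nil)) (.cons 1235 (.cons 1172 .nil (.cons 1172 .nil .nil)) .nil)) (.cons 1173 (.cons 1235 (.cons 1172 .nil (.cons 1172 .nil .nil)) (.cons 1235 (.cons 1172 .nil (.cons 1172 .nil .nil)) .nil)) .nil)) (.cons 1364 (.cons 1173 (.cons 1235 (.cons 1172 .nil (.cons 1172 .nil .nil)) (.cons 1235 (.cons 1172 .nil (.cons 1172 .nil .nil)) .nil)) (.cons 1173 (.cons 1235 (.cons 1172 .nil (.cons 1172 .nil .nil)) (.cons 1235 (.cons 1172 .nil (.cons 1172 .nil .nil)) .nil)) .nil)) .nil)) (.cons 1363 (.cons 1364 (.cons 1173 (.cons 1235 (.cons 1172 .nil (.cons 1172 .nil .nil))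 (.cons 1235 (.cons 1172 .nil (.cons 1172 .nil .nil)) .nil)) (.cons 1173 (.cons 1235 (.cons 1172 .nil (.cons 1172 .nil .nil)) (.cons 1235 (.cons 1172 .nil (.cons 1172 .nil .nil)) .nil)) .nil)) (.cons 1364 (.cons 1173 (.cons 1235 (.cons 1172 .nil (.cons 1172 .nil .nil)) (.cons 1235 (.cons 1172 .nil (.cons 1172 .nil .nil)) .nil)) (.cons 1173 (.cons 1235 (.cons 1172 .nil (.cons 1172 .nil .nil)) (.cons 1235 (.cons 1172 .nil (.cons 1172 .nil .nil)) .nil)) .nil)) .nil)) .nil)) (.cons 1301 (.cons 1363 (.cons 1364 (.cons 1173 (.cons 1235 (.cons 1172 .nil (.cons 1172 .nil .nil)) (.cons 1235 (.cons 1172 .nil (.cons 1172 .nil .nil)) .nil)) (.cons 1173 (.cons 1235 (.cons 1172 .nil (.cons 1172 .nil .nil)) (.cons 1235 (.cons 1172 .nil (.cons 1172 .nil .nil)) .nil)) .nil)) (.cons 1364 (.cons 1173 (.cons 1235 (.cons 1172 .nil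 (.cons 1172 .nil .nil)) (.cons 1235 (.cons 1172 .nil (.cons 1172 .nil .nil)) .nil)) (.cons 1173 (.cons 1235 (.cons 1172 .nil (.cons 1172 .nil .nil)) (.cons 1235 (.cons 1172 .nil (.cons 1172 .nil .nil)) .nil)) .nil)) .nil)) (.cons 1363 (.cons 1364 (.cons 1173 (.cons 1235 (.cons 1172 .nil (.cons 1172 .nil .nil)) (.cons 1235 (.cons 1172 .nil (.cons 1172 .nil .nil)) .nil)) (.cons 1173 (.cons 1235 (.cons 1172 .nil (.cons 1172 .nil .nil)) (.cons 1235 (.cons 1172 .nil (.cons 1172 .nil .nil)) .nil)) .nil)) (.cons 1364 (.cons 1173 (.cons 1235 (.cons 1172 .nil (.cons 1172 .nil .nil)) (.cons 1235 (.cons 1172 .nil (.cons 1172 .nil .nil)) .nil)) (.cons 1173 (.cons 1235 (.cons 1172 .nil (.cons 1172 .nil .nil)) (.cons 1235 (.cons 1172 .nil (.cons 1172 .nil .nil)) .nil)) .nil)) .nil)) .nil)) .nil)) .nil)) (.cons 1237 (.cons 1299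 (.cons 1301 (.cons 1364 (.cons 1363 (.cons 1173 (.cons 1235 (.cons 1172 .nil (.cons 1172 .nil .nil)) (.cons 1235 (.cons 1172 .nil (.cons 1172 .nil .nil)) .nil)) (.cons 1173 (.cons 1235 (.cons 1172 .nil (.cons 1172 .nil .nil)) (.cons 1235 (.cons 1172 .nil (.cons 1172 .nil .nil)) .nil)) .nil)) (.cons 1363 (.cons 1173 (.cons 1235 (.cons 1172 .nil (.cons 1172 .nil .nil)) (.cons 1235 (.cons 1172 .nil (.cons 1172 .nil .nil)) .nil)) (.cons 1173 (.cons 1235 (.cons 1172 .nil (.cons 1172 .nil .nil)) (.cons 1235 (.cons 1172 .nil (.cons 1172 .nil .nil)) .nil)) .nil)) .nil)) (.cons 1364 (.cons 1363 (.cons 1173 (.cons 1235 (.cons 1172 .nil (.cons 1172 .nil .nil)) (.cons 1235 (.cons 1172 .nil (.cons 1172 .nil .nil)) .nil)) (.cons 1173 (.cons 1235 (.cons 1172 .nil (.cons 1172 .nil .nil)) (.cons 1235 (.cons 1172 .nil (.cons 1172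 .nil .nil)) .nil)) .nil)) (.cons 1363 (.cons 1173 (.cons 1235 (.cons 1172 .nil (.cons 1172 .nil .nil)) (.cons 1235 (.cons 1172 .nil (.cons 1172 .nil .nil)) .nil)) (.cons 1173 (.cons 1235 (.cons 1172 .nil (.cons 1172 .nil .nil)) (.cons 1235 (.cons 1172 .nil (.cons 1172 .nil .nil)) .nil)) .nil)) .nil)) .nil)) (.cons 1301 (.cons 1364 (.cons 1363 (.cons 1173 (.cons 1235 (.cons 1172 .nil (.cons 1172 .nil .nil)) (.cons 1235 (.cons 1172 .nil (.cons 1172 .nil .nil)) .nil)) (.cons 1173 (.cons 1235 (.cons 1172 .nil (.cons 1172 .nil .nil)) (.cons 1235 (.cons 1172 .nil (.cons 1172 .nil .nil)) .nil)) .nil)) (.cons 1363 (.cons 1173 (.cons 1235 (.cons 1172 .nil (.cons 1172 .nil .nil)) (.cons 1235 (.cons 1172 .nil (.cons 1172 .nil .nil)) .nil)) (.cons 1173 (.cons 1235 (.cons 1172 .nil (.cons 1172 .nil .nil)) (.cons 1235 (.cons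 1172 .nil (.cons 1172 .nil .nil)) .nil)) .nil)) .nil)) (.cons 1364 (.cons 1363 (.cons 1173 (.cons 1235 (.cons 1172 .nil (.cons 1172 .nil .nil)) (.cons 1235 (.cons 1172 .nil (.cons 1172 .nil .nil)) .nil)) (.cons 1173 (.cons 1235 (.cons 1172 .nil (.cons 1172 .nil .nil)) (.cons 1235 (.cons 1172 .nil (.cons 1172 .nil .nil)) .nil)) .nil)) (.cons 1363 (.cons 1173 (.cons 1235 (.cons 1172 .nil (.cons 1172 .nil .nil)) (.cons 1235 (.cons 1172 .nil (.cons 1172 .nil .nil)) .nil)) (.cons 1173 (.cons 1235 (.cons 1172 .nil (.cons 1172 .nil .nil)) (.cons 1235 (.cons 1172 .nil (.cons 1172 .nil .nil)) .nil)) .nil)) .nil)) .nil)) .nil)) (.cons 1299 (.cons 1301 (.cons 1364 (.cons 1363 (.cons 1173 (.cons 1235 (.cons 1172 .nil (.cons 1172 .nil .nil)) (.cons 1235 (.cons 1172 .nil (.cons 1172 .nil .nil)) .nil)) (.cons 1173 (.cons 1235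 (.cons 1172 .nil (.cons 1172 .nil .nil)) (.cons 1235 (.cons 1172 .nil (.cons 1172 .nil .nil)) .nil)) .nil)) (.cons 1363 (.cons 1173 (.cons 1235 (.cons 1172 .nil (.cons 1172 .nil .nil)) (.cons 1235 (.cons 1172 .nil (.cons 1172 .nil .nil)) .nil)) (.cons 1173 (.cons 1235 (.cons 1172 .nil (.cons 1172 .nil .nil)) (.cons 1235 (.cons 1172 .nil (.cons 1172 .nil .nil)) .nil)) .nil)) .nil)) (.cons 1364 (.cons 1363 (.cons 1173 (.cons 1235 (.cons 1172 .nil (.cons 1172 .nil .nil)) (.cons 1235 (.cons 1172 .nil (.cons 1172 .nil .nil)) .nil)) (.cons 1173 (.cons 1235 (.cons 1172 .nil (.cons 1172 .nil .nil)) (.cons 1235 (.cons 1172 .nil (.cons 1172 .nil .nil)) .nil)) .nil)) (.cons 1363 (.cons 1173 (.cons 1235 (.cons 1172 .nil (.cons 1172 .nil .nil)) (.cons 1235 (.cons 1172 .nil (.cons 1172 .nil .nil)) .nil)) (.cons 1173 (.cons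 1235 (.cons 1172 .nil (.cons 1172 .nil .nil)) (.cons 1235 (.cons 1172 .nil (.cons 1172 .nil .nil)) .nil)) .nil)) .nil)) .nil)) (.cons 1301 (.cons 1364 (.cons 1363 (.cons 1173 (.cons 1235 (.cons 1172 .nil (.cons 1172 .nil .nil)) (.cons 1235 (.cons 1172 .nil (.cons 1172 .nil .nil)) .nil)) (.cons 1173 (.cons 1235 (.cons 1172 .nil (.cons 1172 .nil .nil)) (.cons 1235 (.cons 1172 .nil (.cons 1172 .nil .nil)) .nil)) .nil)) (.cons 1363 (.cons 1173 (.cons 1235 (.cons 1172 .nil (.cons 1172 .nil .nil)) (.cons 1235 (.cons 1172 .nil (.cons 1172 .nil .nil)) .nil)) (.cons 1173 (.cons 1235 (.cons 1172 .nil (.cons 1172 .nil .nil)) (.cons 1235 (.cons 1172 .nil (.cons 1172 .nil .nil)) .nil)) .nil)) .nil)) (.cons 1364 (.cons 1363 (.cons 1173 (.cons 1235 (.cons 1172 .nil (.cons 1172 .nil .nil)) (.cons 1235 (.cons 1172 .nil (.cons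 1172 .nil .nil)) .nil)) (.cons 1173 (.cons 1235 (.cons 1172 .nil (.cons 1172 .nil .nil)) (.cons 1235 (.cons 1172 .nil (.cons 1172 .nil .nil)) .nil)) .nil)) (.cons 1363 (.cons 1173 (.cons 1235 (.cons 1172 .nil (.cons 1172 .nil .nil)) (.cons 1235 (.cons 1172 .nil (.cons 1172 .nil .nil)) .nil)) (.cons 1173 (.cons 1235 (.cons 1172 .nil (.cons 1172 .nil .nil)) (.cons 1235 (.cons 1172 .nil (.cons 1172 .nil .nil)) .nil)) .nil)) .nil)) .nil)) .nil)) .nil)) .nil)))) .nil))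

/-- A part of the decision tree. -/
def tr6_0_1 : Tr :=
  (.Y 20 50 (.D 3 20 49 0 0 (.C 0)) (.Y 21 51 (.D 3 21 49 1 1 (.C 1)) (.Y 42 42 (.D 6 42 36 0 0 (.C 0)) (.Y 43 43 (.D 6 43 36 1 1 (.C 1)) (.Y 44 54 (.D 6 44 49 1 1 (.C 1)) (.Y 56 56 (.D 9 56 49 0 0 (.C 0)) (.Y 57 57 (.D 9 57 49 1 1 (.C 1)) (.Y 23 63 (.Y 10 60 (.D 3 23 60 0 0 (.C 0)) (.Y 11 61 (.D 3 23 61 1 1 (.C 1)) (.Y 16 26 (.D 3 16 34 11 61 (.C 11)) (.Y 17 27 (.D 3 17 34 10 60 (.C 10)) (.Y 28 28 (.D 23 64 28 17 27 (.C 17)) (.Y 29 29 (.D 23 64 29 16 26 (.C 16)) (.Y 30 40 (.D 6 40 34 10 60 (.C 10)) (.Y 31 41 (.D 6 41 34 11 61 (.C 11)) (.Y 32 52 (.D 9 52 34 11 61 (.C 11)) (.Y 33 53 (.D 9 53 34 10 60 (.C 10)) (.Y 70 70 (.D 3 23 70 10 60 (.C 10)) (.Y 71 71 (.D 3 23 71 11 61 (.C 11)) (.Y 2 12 tr6_0_0 (.Y 5 25 (.D 5 34 63 2 12 (.C 2)) (.Y 7 37 (.D 13 6 37 12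 2 (.C 2)) (.Y 8 48 (.D 13 8 49 12 2 (.C 2)) (.Y 22 62 (.D 3 22 63 2 12 (.C 2)) (.R (.cons 1301 (.cons 1237 (.cons 1236 .nil .nil) (.cons 1237 (.cons 1236 (.cons 1299 .nil .nil) .nil) .nil)) .nil))))))))))))))))))) (.Y 4 24 (.D 13 4 34 23 63 (.C 23)) (.Y 46 66 (.D 6 46 64 4 24 (.C 4)) (.Y 59 69 (.D 9 59 64 4 24 (.C 4)) (.Y 2 12 (.Y 5 25 (.D 2 13 5 4 24 (.C 4)) (.Y 22 62 (.D 2 22 64 4 24 (.C 4)) (.Y 47 67 (.D 6 47 64 5 25 (.C 5)) (.Y 58 68 (.D 9 58 64 5 25 (.C 5)) (.R (.cons 1236 (.cons 1299 .nil (.cons 1299 .nil (.cons 1299 .nil (.cons 1299 (.cons 1235 .nil .nil) .nil)))) .nil)))))) (.Y 7 37 (.D 13 6 37 12 2 (.C 2)) (.Y 8 48 (.D 13 8 49 12 2 (.C 2)) (.R (.cons 1236 (.cons 1299 (.cons 1235 .nil .nil) (.cons 1299 .nil (.cons 1299 .nil (.cons 1299 (.cons 1235 .nil (.cons 1235 .nil .nil)) .nil)))) .nil))))))))))))))))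

/-- A part of the decision tree. -/
def tr6_0_2 : Tr :=
  (.Y 46 66 (.D 34 66 42 30 40 (.C 30)) (.Y 4 24 (.Y 10 60 (.D 4 34 60 0 0 (.C 0)) (.Y 11 61 (.D 4 34 61 1 1 (.C 1)) (.Y 16 26 (.D 2 16 24 0 0 (.C 0)) (.Y 17 27 (.D 3 17 24 0 0 (.C 0)) (.Y 28 28 (.D 4 28 24 0 0 (.C 0)) (.Y 29 29 (.D 4 29 24 1 1 (.C 1)) (.Y 31 41 (.D 4 31 42 7 37 (.C 7)) (.Y 32 52 (.D 4 32 49 1 1 (.C 1)) (.Y 33 53 (.D 4 33 49 0 0 (.C 0)) (.Y 47 67 (.D 4 34 67 7 37 (.C 7)) (.Y 70 70 (.D 4 34 70 10 60 (.C 10)) (.Y 71 71 (.D 4 34 71 11 61 (.C 11)) (.Y 43 43 (.R (.cons 1236 (.cons 1237 (.cons 1299 (.cons 1301 (.cons 1363 (.cons 1364 (.cons 1173 (.cons 1174 .nil (.cons 1174 .nil .nil)) .nil) (.cons 1364 .nil .nil)) (.cons 1363 (.cons 1364 (.cons 1173 (.cons 1174 .nil (.cons 1174 .nil .nil)) .nil) (.cons 1364 .nil .nil)) .nil)) (.cons 1301 (.cons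 1363 (.cons 1364 (.cons 1173 (.cons 1174 .nil (.cons 1174 .nil .nil)) .nil) (.cons 1364 .nil .nil)) (.cons 1363 (.cons 1364 (.cons 1173 (.cons 1174 .nil (.cons 1174 .nil .nil)) .nil) (.cons 1364 .nil .nil)) .nil)) .nil)) (.cons 1299 (.cons 1301 (.cons 1238 .nil (.cons 1238 .nil .nil)) (.cons 1301 (.cons 1238 .nil (.cons 1238 .nil .nil)) .nil)) .nil)) (.cons 1237 (.cons 1299 (.cons 1301 (.cons 1363 (.cons 1364 (.cons 1173 (.cons 1235 (.cons 1172 (.cons 1238 (.cons 1174 .nil (.cons 1174 .nil .nil)) .nil) (.cons 1172 (.cons 1238 (.cons 1174 .nil (.cons 1174 .nil .nil)) .nil) .nil)) (.cons 1235 (.cons 1172 .nil (.cons 1172 .nil .nil)) .nil)) .nil) (.cons 1364 .nil .nil)) (.cons 1363 (.cons 1364 (.cons 1173 (.cons 1235 (.cons 1172 (.cons 1238 (.cons 1174 .nil (.cons 1174 .nil .nil)) .nil) (.cons 1172 (.cons 1238 (.cons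 1174 .nil (.cons 1174 .nil .nil)) .nil) .nil)) (.cons 1235 (.cons 1172 .nil (.cons 1172 .nil .nil)) .nil)) .nil) (.cons 1364 .nil .nil)) .nil)) (.cons 1301 (.cons 1363 (.cons 1364 (.cons 1173 (.cons 1235 (.cons 1298 .nil (.cons 1298 .nil .nil)) (.cons 1235 (.cons 1172 .nil (.cons 1172 .nil .nil)) .nil)) .nil) (.cons 1364 .nil .nil)) (.cons 1363 (.cons 1364 (.cons 1173 (.cons 1235 (.cons 1298 .nil (.cons 1298 .nil .nil)) (.cons 1235 (.cons 1172 .nil (.cons 1172 .nil .nil)) .nil)) .nil) (.cons 1364 .nil .nil)) .nil)) .nil)) (.cons 1299 (.cons 1301 (.cons 1238 .nil (.cons 1238 .nil .nil)) (.cons 1301 (.cons 1238 .nil (.cons 1238 .nil .nil)) .nil)) .nil)) .nil)) .nil)) (.R (.cons 1236 (.cons 1237 (.cons 1174 (.cons 1299 (.cons 1362 (.cons 1301 (.cons 1238 .nil (.cons 1238 .nil .nil)) .nil) (.cons 1298 (.cons 1235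 .nil .nil) .nil)) .nil) (.cons 1238 (.cons 1301 .nil .nil) .nil)) .nil) .nil))))))))))))))) (.Y 5 25 (.D 2 13 5 4 24 (.C 4)) (.Y 22 62 (.D 2 22 64 4 24 (.C 4)) (.Y 23 63 (.D 3 23 64 4 24 (.C 4)) (.Y 58 68 (.D 9 58 64 5 25 (.C 5)) (.Y 59 69 (.D 9 59 64 4 24 (.C 4)) (.Y 10 60 (.Y 28 28 (.D 10 64 28 4 24 (.C 4)) (.Y 29 29 (.D 10 64 29 5 25 (.C 5)) (.Y 31 41 (.D 10 64 31 7 37 (.C 7)) (.Y 47 67 (.D 10 67 42 7 37 (.C 7)) (.R (.cons 1236 (.cons 1299 .nil (.cons 1237 (.cons 1301 .nil (.cons 1173 (.cons 1174 .nil (.cons 1174 .nil .nil)) (.cons 1173 (.cons 1174 .nil .nil) .nil))) .nil)) .nil)))))) (.R (.cons 1236 (.cons 1299 (.cons 1363 (.cons 1362 .nil .nil) (.cons 1363 (.cons 1362 .nil (.cons 1362 .nil .nil)) .nil)) (.cons 1299 .nil (.cons 1237 (.cons 1301 .nil (.cons 1173 (.cons 1174 .nil (.cons 1174 .nil .nil)) (.cons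 1173 (.cons 1174 .nil .nil) .nil))) (.cons 1299 (.cons 1235 .nil .nil) .nil)))) .nil))))))))))

/-- A part of the decision tree. -/
def tr6_0_3 : Tr :=
  (.Y 1 1 (.S 1 1 0 0 (.C 0)) (.Y 7 37 (.D 7 42 37 0 0 (.C 0)) (.Y 14 14 (.D 3 14 13 0 0 (.C 0)) (.Y 15 15 (.D 3 15 13 1 1 (.C 1)) (.Y 18 38 (.D 3 18 42 7 37 (.C 7)) (.Y 20 50 (.D 3 20 49 0 0 (.C 0)) (.Y 21 51 (.D 3 21 49 1 1 (.C 1)) (.Y 44 54 (.D 9 54 42 7 37 (.C 7)) (.Y 57 57 (.D 9 57 49 1 1 (.C 1)) (.Y 2 12 (.Y 30 40 (.Y 4 24 (.D 4 30 42 6 36 (.C 6)) (.Y 5 25 (.D 2 13 5 4 24 (.C 4)) (.Y 10 60 (.D 10 64 30 6 36 (.C 6)) (.Y 11 61 (.D 11 64 30 7 37 (.C 7)) (.Y 16 26 (.D 2 16 30 6 36 (.C 6)) (.Y 17 27 (.D 3 17 30 6 36 (.C 6)) (.Y 22 62 (.D 2 22 64 4 24 (.C 4)) (.Y 23 63 (.D 3 23 64 4 24 (.C 4)) (.Y 32 52 (.D 9 52 30 7 37 (.C 7)) (.Y 33 53 (.D 9 53 30 6 36 (.C 6))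 (.Y 58 68 (.D 9 58 64 5 25 (.C 5)) (.Y 59 69 (.D 9 59 64 4 24 (.C 4)) (.R (.cons 1299 (.cons 1363 (.cons 1364 (.cons 1301 (.cons 1237 (.cons 1236 .nil .nil) .nil) .nil) .nil) (.cons 1236 (.cons 1237 (.cons 1301 .nil .nil) .nil) .nil)) .nil)))))))))))))) tr6_0_2) (.Y 8 48 (.D 13 8 49 12 2 (.C 2)) (.Y 4 24 (.Y 5 25 (.D 13 4 25 12 2 (.C 2)) (.Y 10 60 (.D 4 34 60 0 0 (.C 0)) (.Y 11 61 (.D 4 34 61 1 1 (.C 1)) (.Y 16 26 (.D 3 16 24 1 1 (.C 1)) (.Y 17 27 (.D 3 17 24 0 0 (.C 0)) (.Y 22 62 (.D 4 34 62 2 12 (.C 2)) (.Y 28 28 (.D 4 28 24 0 0 (.C 0)) (.Y 29 29 (.D 4 29 24 1 1 (.C 1)) (.Y 30 40 (.D 4 30 42 6 36 (.C 6)) (.Y 31 41 (.D 4 31 42 7 37 (.C 7)) (.R (.cons 1301 (.cons 1237 (.cons 1236 .nil (.cons 1236 (.cons 1173 .nil .nil) .nil)) (.cons 1237 (.cons 1364 (.cons 1365 .nil (.cons 1238 (.cons 1174 (.cons 1175 .nil .nil)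 (.cons 1174 .nil .nil)) .nil)) .nil) .nil)) .nil)))))))))))) (.Y 23 63 (.D 3 23 64 4 24 (.C 4)) (.Y 59 69 (.D 9 59 64 4 24 (.C 4)) (.Y 5 25 (.Y 10 60 (.D 5 34 60 1 1 (.C 1)) (.Y 11 61 (.D 5 34 61 0 0 (.C 0)) (.Y 16 26 (.D 3 16 25 0 0 (.C 0)) (.R (.cons 1301 (.cons 1364 (.cons 1365 (.cons 1428 .nil .nil) .nil) (.cons 1237 (.cons 1236 (.cons 1299 .nil .nil) (.cons 1236 (.cons 1173 (.cons 1172 (.cons 1109 (.cons 1108 (.cons 1045 .nil .nil) .nil) .nil) .nil) .nil) .nil)) (.cons 1364 (.cons 1365 (.cons 1428 (.cons 1429 .nil .nil) .nil) .nil) .nil))) .nil))))) (.Y 22 62 (.D 3 22 64 5 25 (.C 5)) (.Y 58 68 (.D 9 58 64 5 25 (.C 5)) (.Y 10 60 (.Y 11 61 (.D 13 10 61 12 2 (.C 2)) (.R (.cons 1299 (.cons 1363 (.cons 1364 (.cons 1301 .nil .nil) .nil) (.cons 1236 (.cons 1235 (.cons 1363 (.cons 1362 .nil (.cons 1362 .nil .nil))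 .nil) .nil) (.cons 1363 (.cons 1364 (.cons 1301 .nil .nil) (.cons 1364 (.cons 1236 (.cons 1235 .nil (.cons 1235 .nil (.cons 1235 .nil .nil))) .nil) .nil)) .nil))) .nil))) (.R (.cons 1299 (.cons 1363 (.cons 1364 .nil .nil) (.cons 1236 (.cons 1235 (.cons 1172 (.cons 1171 .nil (.cons 1173 (.cons 1237 (.cons 1174 .nil .nil) (.cons 1237 (.cons 1301 .nil .nil) .nil)) .nil)) .nil) .nil) (.cons 1236 (.cons 1235 .nil (.cons 1235 .nil .nil)) .nil))) .nil))))))))))))))))))))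

/-- A part of the decision tree. -/
def tr6_0_4 : Tr :=
  (.Y 7 37 (.D 3 20 49 0 0 (.D 37 0 7 42 42 (.C 42))) (.Y 18 38 (.D 9 50 18 7 37 (.C 7)) (.Y 44 54 (.D 3 20 54 7 37 (.C 7)) (.Y 31 41 (.Y 4 24 (.D 13 4 31 18 38 (.C 18)) (.Y 5 25 (.D 13 5 31 19 39 (.C 19)) (.Y 10 60 (.D 10 64 31 7 37 (.C 7)) (.Y 11 61 (.D 11 64 31 6 36 (.C 6)) (.Y 16 26 (.D 9 50 16 5 25 (.C 5)) (.Y 17 27 (.D 9 50 17 4 24 (.C 4)) (.Y 22 62 (.D 3 22 64 5 25 (.C 5)) (.Y 23 63 (.D 3 23 64 4 24 (.C 4)) (.Y 28 28 (.D 41 28 31 42 42 (.C 42)) (.Y 29 29 (.S 29 29 28 28 (.C 28)) (.Y 32 52 (.D 3 20 52 5 25 (.C 5)) (.Y 33 53 (.D 3 20 53 4 24 (.C 4)) (.Y 46 66 (.D 31 46 64 29 29 (.C 29)) (.Y 47 67 (.D 31 47 64 28 28 (.C 28)) (.Y 58 68 (.D 9 58 64 5 25 (.C 5)) (.Y 59 69 (.D 9 59 64 4 24 (.C 4)) (.Y 70 70 (.D 34 70 64 28 28 (.C 28)) (.Y 71 71 (.D 34 71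 64 29 29 (.C 29)) (.R (.cons 1236 (.cons 1237 (.cons 1299 (.cons 1363 (.cons 1235 (.cons 1362 (.cons 1298 .nil .nil) .nil) .nil) (.cons 1363 .nil .nil)) .nil) (.cons 1299 (.cons 1363 (.cons 1364 (.cons 1235 (.cons 1362 (.cons 1298 .nil .nil) .nil) .nil) .nil) .nil) .nil)) .nil)))))))))))))))))))) (.Y 47 67 (.Y 4 24 (.D 4 34 67 7 37 (.C 7)) (.Y 5 25 (.D 5 34 67 6 36 (.C 6)) (.Y 10 60 (.D 13 10 67 18 38 (.C 18)) (.Y 11 61 (.D 13 11 67 19 39 (.C 19)) (.Y 16 26 (.D 9 50 16 5 25 (.C 5)) (.Y 17 27 (.D 9 50 17 4 24 (.C 4)) (.Y 22 62 (.D 3 22 64 5 25 (.C 5)) (.Y 23 63 (.D 3 23 64 4 24 (.C 4)) (.Y 28 28 (.D 28 34 67 31 41 (.C 31)) (.Y 29 29 (.S 29 29 28 28 (.C 28)) (.Y 30 40 (.D 30 47 64 29 29 (.C 29)) (.Y 32 52 (.D 3 20 52 5 25 (.C 5)) (.Y 33 53 (.D 3 20 53 4 24 (.C 4)) (.Y 58 68 (.D 9 58 64 5 25 (.C 5)) (.Y 59 69 (.D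 9 59 64 4 24 (.C 4)) (.R (.cons 1236 (.cons 1237 (.cons 1299 (.cons 1363 .nil (.cons 1301 (.cons 1238 .nil (.cons 1238 .nil .nil)) .nil)) (.cons 1173 .nil .nil)) (.cons 1237 (.cons 1299 (.cons 1363 .nil (.cons 1235 .nil .nil)) (.cons 1299 (.cons 1363 .nil (.cons 1235 .nil .nil)) .nil)) .nil)) .nil))))))))))))))))) (.Y 2 12 (.Y 30 40 (.Y 4 24 (.D 12 4 30 18 38 (.C 18)) (.Y 5 25 (.D 2 13 5 4 24 (.C 4)) (.Y 10 60 (.D 10 64 30 6 36 (.C 6)) (.Y 11 61 (.D 11 64 30 7 37 (.C 7)) (.Y 16 26 (.D 9 50 16 5 25 (.C 5)) (.Y 17 27 (.D 9 50 17 4 24 (.C 4)) (.Y 22 62 (.D 2 22 64 4 24 (.C 4)) (.Y 23 63 (.D 3 23 64 4 24 (.C 4)) (.Y 28 28 (.D 40 28 30 42 42 (.C 42)) (.Y 29 29 (.S 29 29 28 28 (.C 28)) (.Y 32 52 (.D 2 20 52 4 24 (.C 4)) (.Y 33 53 (.D 3 20 53 4 24 (.C 4)) (.Y 35 65 (.D 40 34 65 41 31 (.C 31)) (.Y 46 66 (.D 30 46 64 28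 28 (.C 28)) (.Y 58 68 (.D 9 58 64 5 25 (.C 5)) (.Y 59 69 (.D 9 59 64 4 24 (.C 4)) (.R (.cons 1236 (.cons 1237 (.cons 1299 (.cons 1363 .nil (.cons 1363 .nil .nil)) .nil) .nil) .nil)))))))))))))))))) (.R (.cons 1236 (.cons 1235 (.cons 1298 (.cons 1362 (.cons 1363 (.cons 1299 .nil .nil) .nil) .nil) .nil) .nil) .nil))) (.Y 1 1 (.D 1 9 50 2 12 (.C 2)) (.Y 8 48 (.D 3 20 48 1 1 (.C 1)) (.Y 15 15 (.D 3 15 13 1 1 (.C 1)) (.Y 21 51 (.D 3 21 49 1 1 (.C 1)) (.Y 57 57 (.D 9 57 49 1 1 (.C 1)) (.Y 4 24 (.Y 5 25 (.D 13 4 25 12 2 (.C 2)) (.Y 11 61 (.D 4 34 61 1 1 (.C 1)) (.Y 16 26 (.D 3 16 24 1 1 (.C 1)) (.Y 22 62 (.D 4 34 62 2 12 (.C 2)) (.Y 29 29 (.D 4 29 24 1 1 (.C 1)) (.Y 30 40 (.D 13 4 30 19 39 (.C 19)) (.R (.cons 1236 (.cons 1237 (.cons 1301 (.cons 1235 (.cons 1299 .nil .nil) .nil) .nil) .nil) .nil)))))))) (.Y 10 60 (.D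 3 20 49 0 0 (.D 13 10 64 17 27 (.D 0 3 17 4 24 (.C 4)))) (.R (.cons 1236 (.cons 1237 (.cons 1299 (.cons 1363 (.cons 1364 .nil (.cons 1362 (.cons 1364 (.cons 1301 .nil (.cons 1301 .nil .nil)) .nil) .nil)) (.cons 1298 (.cons 1235 .nil (.cons 1235 .nil .nil)) (.cons 1235 (.cons 1234 (.cons 1298 .nil (.cons 1298 .nil .nil)) .nil) .nil))) .nil) (.cons 1235 (.cons 1299 .nil (.cons 1299 .nil .nil)) .nil)) .nil)))))))))))))))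

/-- A part of the decision tree. -/
def tr6_0_5 : Tr :=
  (.Y 10 60 (.Y 4 24 (.D 4 34 60 0 0 (.C 0)) (.Y 5 25 (.D 5 34 60 1 1 (.C 1)) (.Y 22 62 (.D 3 22 60 1 1 (.C 1)) (.Y 23 63 (.D 3 23 60 0 0 (.C 0)) (.Y 28 28 (.D 10 64 28 4 24 (.C 4)) (.Y 29 29 (.D 10 64 29 5 25 (.C 5)) (.Y 30 40 (.D 10 64 30 6 36 (.C 6)) (.Y 46 66 (.D 13 10 66 19 39 (.C 19)) (.Y 58 68 (.D 9 58 60 1 1 (.C 1)) (.Y 59 69 (.D 9 59 60 0 0 (.C 0)) (.Y 70 70 (.D 10 70 60 0 0 (.C 0)) (.Y 71 71 (.D 10 71 60 1 1 (.C 1)) (.Y 16 26 (.Y 7 37 (.D 37 3 16 40 30 (.C 30)) (.Y 18 38 (.D 38 16 34 46 66 (.C 46)) (.Y 31 41 (.D 3 16 31 6 36 (.C 6)) (.Y 44 54 (.D 13 9 54 18 38 (.C 18)) (.R (.cons 1236 (.cons 1173 (.cons 1109 (.cons 1046 (.cons 982 (.cons 919 (.cons 855 (.cons 792 (.cons 728 (.cons 1237 (.cons 1301 .nil (.cons 1174 .nil .nil)) .nil) .nil) .nil)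 .nil) .nil) .nil) .nil) .nil) .nil) .nil)))))) (.Y 2 12 (.D 12 10 64 16 26 (.C 16)) (.Y 8 48 (.D 13 8 49 12 2 (.C 2)) (.Y 11 61 (.D 13 10 61 12 2 (.C 2)) (.R (.cons 1301 (.cons 1364 (.cons 1363 (.cons 1299 (.cons 1236 (.cons 1237 .nil .nil) .nil) .nil) .nil) (.cons 1364 (.cons 1363 (.cons 1299 (.cons 1236 (.cons 1237 .nil .nil) .nil) .nil) .nil) (.cons 1364 .nil .nil))) .nil)))))))))))))))))) (.Y 17 27 (.D 3 17 34 10 60 (.C 10)) (.Y 33 53 (.D 9 53 34 10 60 (.C 10)) (.Y 2 12 (.Y 7 37 (.D 2 13 7 6 36 (.C 6)) (.Y 11 61 (.D 2 13 11 10 60 (.C 10)) (.Y 16 26 (.D 2 16 34 10 60 (.C 10)) (.Y 18 38 (.D 12 3 18 19 39 (.C 19)) (.Y 32 52 (.D 9 52 34 11 61 (.C 11)) (.Y 44 54 (.D 13 9 54 18 38 (.C 18)) (.Y 30 40 (.Y 4 24 (.D 12 4 30 18 38 (.C 18)) (.Y 5 25 (.D 2 13 5 4 24 (.C 4)) (.Y 22 62 (.D 2 22 64 4 24 (.C 4)) (.Y 23 63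 (.D 3 23 64 4 24 (.C 4)) (.Y 28 28 (.D 40 28 30 42 42 (.C 42)) (.Y 29 29 (.S 29 29 28 28 (.C 28)) (.Y 46 66 (.D 30 46 64 28 28 (.C 28)) (.Y 47 67 (.D 30 47 64 29 29 (.C 29)) (.Y 58 68 (.D 9 58 64 5 25 (.C 5)) (.R (.cons 1236 (.cons 1299 .nil (.cons 1299 .nil .nil)) .nil))))))))))) (.Y 4 24 (.Y 28 28 (.D 4 28 24 0 0 (.C 0)) (.Y 29 29 (.D 4 29 24 1 1 (.C 1)) (.Y 31 41 (.D 13 4 31 18 38 (.C 18)) (.Y 46 66 (.D 4 34 66 6 36 (.C 6)) (.R (.cons 1236 (.cons 1173 (.cons 1109 (.cons 1046 (.cons 982 (.cons 919 (.cons 855 (.cons 792 (.cons 728 (.cons 1237 (.cons 1174 (.cons 1110 .nil .nil) (.cons 1238 (.cons 1174 .nil .nil) .nil)) .nil) .nil) .nil) .nil) .nil) .nil) .nil) .nil) .nil) .nil)))))) (.Y 5 25 (.D 2 13 5 4 24 (.C 4)) (.Y 22 62 (.D 2 22 64 4 24 (.C 4)) (.Y 23 63 (.D 3 23 64 4 24 (.C 4)) (.Y 58 68 (.D 9 58 64 5 25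 (.C 5)) (.Y 59 69 (.D 9 59 64 4 24 (.C 4)) (.R (.cons 1299 (.cons 1236 (.cons 1235 .nil .nil) (.cons 1236 (.cons 1237 (.cons 1301 .nil .nil) .nil) .nil)) .nil))))))))))))))) (.Y 8 48 (.D 13 8 49 12 2 (.C 2)) (.Y 4 24 (.Y 5 25 (.D 13 4 25 12 2 (.C 2)) (.Y 11 61 (.D 4 34 61 1 1 (.C 1)) (.Y 16 26 (.D 3 16 24 1 1 (.C 1)) (.Y 22 62 (.D 4 34 62 2 12 (.C 2)) (.Y 28 28 (.D 4 28 24 0 0 (.C 0)) (.Y 29 29 (.D 4 29 24 1 1 (.C 1)) (.Y 30 40 (.D 13 4 30 19 39 (.C 19)) (.Y 32 52 (.D 4 32 49 1 1 (.C 1)) (.Y 35 65 (.D 4 34 65 5 25 (.C 5)) (.Y 46 66 (.D 4 34 66 6 36 (.C 6)) (.Y 58 68 (.D 9 58 64 5 25 (.C 5)) (.R (.cons 1237 (.cons 1301 (.cons 1364 .nil .nil) (.cons 1236 (.cons 1301 (.cons 1364 .nil .nil) .nil) (.cons 1236 (.cons 1299 .nil .nil) .nil))) .nil))))))))))))) (.Y 23 63 (.D 3 23 64 4 24 (.C 4)) (.Y 59 69 (.D 9 59 64 4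 24 (.C 4)) (.Y 5 25 (.Y 11 61 (.D 5 34 61 0 0 (.C 0)) (.Y 16 26 (.D 3 16 25 0 0 (.C 0)) (.Y 28 28 (.D 5 28 25 0 0 (.C 0)) (.Y 29 29 (.D 5 29 25 1 1 (.C 1)) (.Y 31 41 (.D 13 5 31 19 39 (.C 19)) (.Y 32 52 (.D 5 32 49 0 0 (.C 0)) (.Y 35 65 (.D 5 34 65 4 24 (.C 4)) (.R (.cons 1237 (.cons 1301 (.cons 1238 .nil .nil) (.cons 1301 .nil (.cons 1301 (.cons 1236 (.cons 1299 .nil (.cons 1173 (.cons 1174 (.cons 1110 .nil .nil) .nil) .nil)) .nil) .nil))) .nil))))))))) (.Y 22 62 (.D 3 22 64 5 25 (.C 5)) (.Y 58 68 (.D 9 58 64 5 25 (.C 5)) (.Y 7 37 (.Y 18 38 (.D 3 18 37 0 0 (.C 0)) (.Y 31 41 (.D 7 41 34 10 60 (.C 10)) (.R (.cons 1301 (.cons 1237 (.cons 1236 (.cons 1299 .nil .nil) .nil) (.cons 1237 (.cons 1236 (.cons 1173 (.cons 1299 (.cons 1363 .nil (.cons 1364 (.cons 1363 .nil (.cons 1363 (.cons 1362 .nil .nil) .nil)) .nil))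 .nil) (.cons 1299 .nil .nil)) .nil) .nil)) .nil)))) (.Y 11 61 (.Y 28 28 (.D 11 64 28 5 25 (.C 5)) (.Y 29 29 (.D 11 64 29 4 24 (.C 4)) (.Y 30 40 (.D 11 64 30 7 37 (.C 7)) (.Y 31 41 (.D 11 64 31 6 36 (.C 6)) (.Y 35 65 (.D 11 64 35 10 60 (.C 10)) (.R (.cons 1237 (.cons 1236 (.cons 1299 (.cons 1301 (.cons 1363 (.cons 1364 .nil .nil) .nil) .nil) .nil) (.cons 1236 (.cons 1173 .nil .nil) (.cons 1236 (.cons 1299 (.cons 1235 .nil .nil) .nil) .nil))) .nil))))))) (.Y 16 26 (.D 3 16 34 11 61 (.C 11)) (.Y 32 52 (.D 9 52 34 11 61 (.C 11)) (.R (.cons 1299 (.cons 1236 (.cons 1237 (.cons 1301 .nil .nil) (.cons 1237 (.cons 1301 .nil (.cons 1301 .nil .nil)) .nil)) (.cons 1363 (.cons 1364 (.cons 1301 (.cons 1237 (.cons 1236 .nil .nil) .nil) .nil) .nil) .nil)) .nil)))))))))))))))))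

/-- A part of the decision tree. -/
def tr6_0_6 : Tr :=
  (.Y 42 42 (.Y 56 56 (.T 13) (.Y 5 25 (.D 13 5 33 21 51 (.D 13 6 42 19 39 (.D 36 5 33 44 54 (.D 51 19 44 56 56 (.C 56))))) (.Y 8 48 (.D 6 42 36 0 0 (.D 48 0 8 56 56 (.C 56))) (.Y 11 61 (.D 11 64 33 8 48 (.C 8)) (.Y 16 26 (.D 3 16 33 8 48 (.C 8)) (.Y 21 51 (.D 3 21 53 5 25 (.C 5)) (.Y 22 62 (.D 3 22 64 5 25 (.C 5)) (.Y 28 28 (.D 53 28 33 56 56 (.C 56)) (.Y 29 29 (.S 29 29 28 28 (.C 28)) (.Y 31 41 (.D 6 42 41 5 25 (.C 5)) (.Y 44 54 (.D 6 44 53 5 25 (.C 5)) (.Y 47 67 (.D 6 47 64 5 25 (.C 5)) (.Y 57 57 (.D 33 57 53 29 29 (.C 29)) (.Y 58 68 (.D 33 58 64 29 29 (.C 29)) (.Y 59 69 (.D 33 59 64 28 28 (.C 28)) (.Y 70 70 (.D 34 70 64 28 28 (.C 28)) (.Y 71 71 (.D 34 71 64 29 29 (.C 29)) (.Y 1 1 (.Y 32 52 (.R (.cons 1299 (.cons 1236 (.cons 1235 .nil (.cons 1237 .nil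 .nil)) (.cons 1236 (.cons 1237 (.cons 1301 (.cons 1363 (.cons 1364 (.cons 1427 .nil .nil) (.cons 1362 .nil .nil)) (.cons 1238 .nil .nil)) (.cons 1301 (.cons 1363 (.cons 1364 (.cons 1427 .nil .nil) (.cons 1362 .nil .nil)) (.cons 1363 (.cons 1364 (.cons 1427 .nil .nil) (.cons 1362 .nil .nil)) .nil)) .nil)) (.cons 1237 .nil .nil)) .nil)) .nil)) (.R (.cons 1299 (.cons 1362 (.cons 1363 (.cons 1427 (.cons 1364 .nil .nil) .nil) .nil) .nil) .nil))) (.Y 2 12 (.D 6 42 36 0 0 (.D 0 2 13 1 1 (.C 1))) (.Y 7 37 (.D 6 42 37 1 1 (.C 1)) (.R (.cons 1299 (.cons 1236 (.cons 1235 .nil .nil) (.cons 1236 (.cons 1237 (.cons 1301 (.cons 1363 (.cons 1364 (.cons 1427 .nil .nil) (.cons 1362 .nil .nil)) .nil) (.cons 1173 (.cons 1172 .nil .nil) .nil)) .nil) .nil)) .nil)))))))))))))))))))))) (.Y 0 0 (.D 36 0 6 42 42 (.C 42)) (.Y 1 1 (.S 1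 1 0 0 (.C 0)) (.Y 14 14 (.D 3 14 13 0 0 (.C 0)) (.Y 15 15 (.D 3 15 13 1 1 (.C 1)) (.Y 18 38 (.D 3 18 36 1 1 (.C 1)) (.Y 19 39 (.D 3 19 36 0 0 (.C 0)) (.Y 43 43 (.D 6 43 36 1 1 (.C 1)) (.Y 21 51 (.Y 2 12 (.D 2 21 53 4 24 (.C 4)) (.Y 7 37 (.D 13 6 37 12 2 (.C 2)) (.Y 8 48 (.D 3 21 48 0 0 (.C 0)) (.Y 11 61 (.D 11 64 33 8 48 (.C 8)) (.Y 16 26 (.D 3 16 33 8 48 (.C 8)) (.Y 28 28 (.D 21 53 28 16 26 (.C 16)) (.Y 29 29 (.D 21 53 29 17 27 (.C 17)) (.Y 31 41 (.D 6 41 33 8 48 (.C 8)) (.Y 32 52 (.D 3 21 52 4 24 (.C 4)) (.Y 35 65 (.D 21 53 35 23 63 (.C 23)) (.R (.cons 1236 (.cons 1299 (.cons 1235 .nil .nil) (.cons 1237 (.cons 1301 .nil (.cons 1301 (.cons 1364 (.cons 1363 (.cons 1299 (.cons 1235 .nil .nil) .nil) .nil) .nil) .nil)) (.cons 1237 .nil .nil))) .nil)))))))))))) (.Y 5 25 (.D 13 5 33 21 51 (.C 21)) (.Y 22 62 (.D 3 22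 64 5 25 (.C 5)) (.Y 44 54 (.D 6 44 53 5 25 (.C 5)) (.Y 47 67 (.D 6 47 64 5 25 (.C 5)) (.Y 2 12 (.Y 8 48 (.D 2 13 8 9 49 (.C 9)) (.Y 11 61 (.D 11 64 33 8 48 (.C 8)) (.Y 16 26 (.D 3 16 33 8 48 (.C 8)) (.R (.cons 1301 (.cons 1237 (.cons 1236 (.cons 1299 (.cons 1173 (.cons 1235 (.cons 1172 .nil .nil) .nil) .nil) .nil) .nil) (.cons 1364 (.cons 1236 (.cons 1237 (.cons 1299 (.cons 1363 .nil .nil) .nil) (.cons 1237 (.cons 1299 (.cons 1363 .nil .nil) .nil) (.cons 1237 (.cons 1173 (.cons 1238 (.cons 1174 .nil .nil) .nil) .nil) .nil))) .nil) .nil)) .nil))))) (.Y 7 37 (.D 13 6 37 12 2 (.C 2)) (.R (.cons 1236 (.cons 1299 .nil (.cons 1237 (.cons 1301 .nil .nil) .nil)) .nil)))))))))))))))))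

/-- A part of the decision tree. -/
def tr6_0_7 : Tr :=
  (.R (.cons 1299 (.cons 1236 (.cons 1237 (.cons 1301 (.cons 1173 (.cons 1174 (.cons 1238 (.cons 1302 (.cons 1365 (.cons 1364 (.cons 1428 (.cons 1363 (.cons 1427 (.cons 1491 (.cons 1235 (.cons 1172 .nil (.cons 1172 (.cons 1298 (.cons 1362 (.cons 1426 (.cons 1361 (.cons 1425 (.cons 1490 (.cons 1297 (.cons 1234 (.cons 1171 (.cons 1489 (.cons 1424 (.cons 1554 (.cons 1233 (.cons 1170 (.cons 1107 (.cons 1108 (.cons 1109 (.cons 1110 .nil .nil) .nil) .nil) .nil) .nil) .nil) .nil) .nil) .nil) .nil) .nil) .nil) .nil) .nil) .nil) .nil) (.cons 1362 (.cons 1426 (.cons 1234 (.cons 1171 (.cons 1361 (.cons 1425 (.cons 1490 (.cons 1108 (.cons 1109 (.cons 1110 (.cons 1297 (.cons 1489 (.cons 1424 (.cons 1554 (.cons 1233 (.cons 1170 (.cons 1107 (.cons 1360 (.cons 1488 (.cons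 1553 (.cons 1296 (.cons 1552 (.cons 1423 (.cons 1487 (.cons 1232 (.cons 1169 (.cons 1106 (.cons 1359 (.cons 1551 (.cons 1295 (.cons 1175 (.cons 1239 .nil (.cons 1111 .nil .nil)) .nil) .nil) .nil) .nil) .nil) .nil) .nil) .nil) .nil) .nil) .nil) .nil) .nil) .nil) .nil) .nil) .nil) .nil) .nil) .nil) .nil) .nil) .nil) .nil) .nil) .nil) .nil) .nil) .nil) .nil) .nil)) .nil) .nil)) .nil) .nil) (.cons 1362 (.cons 1235 (.cons 1172 .nil (.cons 1298 .nil .nil)) .nil) .nil)) .nil) (.cons 1363 (.cons 1362 (.cons 1235 (.cons 1172 .nil (.cons 1298 .nil .nil)) .nil) .nil) .nil)) .nil) .nil) .nil) .nil) (.cons 1172 (.cons 1235 (.cons 1298 (.cons 1238 (.cons 1174 (.cons 1365 (.cons 1302 .nil (.cons 1364 (.cons 1363 (.cons 1362 (.cons 1427 (.cons 1302 (.cons 1426 (.cons 1428 (.cons 1239 (.cons 1175 (.cons 1366 (.cons 1425 (.cons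 1361 .nil .nil) .nil) .nil) .nil) .nil) .nil) .nil) .nil) .nil) .nil) .nil) .nil)) .nil) (.cons 1174 .nil .nil)) .nil) .nil) .nil) .nil)) .nil) .nil) (.cons 1235 (.cons 1298 (.cons 1237 (.cons 1173 (.cons 1172 (.cons 1171 (.cons 1234 (.cons 1297 (.cons 1361 (.cons 1301 (.cons 1364 (.cons 1363 (.cons 1238 (.cons 1362 (.cons 1365 (.cons 1427 (.cons 1174 (.cons 1302 (.cons 1426 (.cons 1428 (.cons 1110 (.cons 1109 (.cons 1239 (.cons 1175 (.cons 1366 (.cons 1425 (.cons 1429 (.cons 1490 (.cons 1491 (.cons 1108 (.cons 1111 (.cons 1303 (.cons 1489 (.cons 1492 (.cons 1430 (.cons 1554 (.cons 1240 (.cons 1176 (.cons 1112 (.cons 1367 (.cons 1493 (.cons 1553 (.cons 1555 (.cons 1304 (.cons 1556 (.cons 1046 (.cons 1045 .nil (.cons 1047 .nil .nil)) .nil) .nil) .nil) .nil) .nil) .nil) .nil) .nil) .nil) .nil) .nil) .nil) .nil)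 .nil) .nil) .nil) .nil) .nil) .nil) .nil) .nil) .nil) .nil) .nil) .nil) .nil) .nil) .nil) .nil) .nil) .nil) .nil) .nil) .nil) .nil) (.cons 1364 (.cons 1363 (.cons 1362 (.cons 1365 (.cons 1427 (.cons 1302 (.cons 1238 (.cons 1174 (.cons 1426 (.cons 1428 (.cons 1239 (.cons 1175 (.cons 1366 (.cons 1425 (.cons 1429 (.cons 1490 (.cons 1491 (.cons 1111 (.cons 1110 (.cons 1109 (.cons 1108 .nil .nil) .nil) .nil) .nil) .nil) .nil) .nil) .nil) .nil) .nil) .nil) .nil) .nil) .nil) .nil) .nil) .nil) .nil) .nil) .nil) .nil)) .nil) .nil) .nil) .nil) .nil) .nil) (.cons 1301 (.cons 1173 (.cons 1172 .nil (.cons 1172 (.cons 1238 (.cons 1174 (.cons 1302 (.cons 1239 (.cons 1175 (.cons 1111 (.cons 1110 (.cons 1109 (.cons 1365 (.cons 1364 (.cons 1363 (.cons 1362 (.cons 1427 (.cons 1426 (.cons 1428 (.cons 1361 (.cons 1366 (.cons 1425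 (.cons 1429 (.cons 1490 (.cons 1491 (.cons 1303 (.cons 1489 (.cons 1492 (.cons 1430 (.cons 1554 (.cons 1240 (.cons 1176 (.cons 1112 (.cons 1367 (.cons 1493 (.cons 1553 (.cons 1555 (.cons 1304 (.cons 1556 (.cons 1494 (.cons 1431 (.cons 1368 (.cons 1557 (.cons 1171 (.cons 1108 .nil (.cons 1234 .nil .nil)) .nil) .nil) .nil) .nil) .nil) .nil) .nil) .nil) .nil) .nil) .nil) .nil) .nil) .nil) .nil) .nil) .nil) .nil) .nil) .nil) .nil) .nil) .nil) .nil) .nil) .nil) .nil) .nil) .nil) .nil) (.cons 1364 (.cons 1363 (.cons 1362 (.cons 1426 (.cons 1428 (.cons 1427 (.cons 1361 (.cons 1425 (.cons 1429 (.cons 1366 (.cons 1490 (.cons 1491 (.cons 1303 (.cons 1489 (.cons 1492 (.cons 1430 (.cons 1554 (.cons 1367 (.cons 1493 (.cons 1553 (.cons 1555 (.cons 1304 (.cons 1240 (.cons 1176 (.cons 1112 .nil .nil) .nil) .nil) .nil) .nil) .nil)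 .nil) .nil) .nil) .nil) .nil) .nil) .nil) .nil) .nil) .nil) .nil) .nil) .nil) .nil) .nil) .nil) .nil) .nil) .nil)) .nil) .nil) .nil) .nil) .nil) (.cons 1365 (.cons 1364 (.cons 1428 (.cons 1427 (.cons 1363 (.cons 1362 (.cons 1426 (.cons 1361 (.cons 1425 (.cons 1429 (.cons 1366 (.cons 1490 (.cons 1491 (.cons 1303 (.cons 1239 (.cons 1175 (.cons 1489 (.cons 1492 (.cons 1430 (.cons 1554 (.cons 1367 (.cons 1488 (.cons 1424 .nil .nil) .nil) .nil) .nil) .nil) .nil) .nil) .nil) .nil) .nil) .nil) .nil) .nil) .nil) .nil) .nil) .nil) .nil) .nil) .nil) (.cons 1363 (.cons 1362 (.cons 1428 (.cons 1427 (.cons 1426 (.cons 1361 (.cons 1425 (.cons 1429 (.cons 1366 (.cons 1490 (.cons 1491 (.cons 1303 (.cons 1239 (.cons 1175 (.cons 1489 (.cons 1492 (.cons 1430 (.cons 1554 (.cons 1367 (.cons 1493 (.cons 1553 (.cons 1555 (.cons 1304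 (.cons 1240 (.cons 1176 (.cons 1556 (.cons 1494 (.cons 1431 (.cons 1617 (.cons 1618 (.cons 1368 (.cons 1557 (.cons 1619 (.cons 1620 (.cons 1109 (.cons 1110 (.cons 1111 .nil .nil) (.cons 1110 .nil .nil)) .nil) .nil) .nil) .nil) .nil) .nil) .nil) .nil) .nil) .nil) .nil) .nil) .nil) .nil) .nil) .nil) .nil) .nil) .nil) .nil) .nil) .nil) .nil) .nil) .nil) .nil) .nil) .nil) .nil) .nil) .nil) .nil) .nil) .nil) .nil)) .nil) .nil)) .nil) (.cons 1174 .nil .nil)) .nil) .nil)) .nil) .nil)) .nil) .nil) .nil)) (.cons 1236 (.cons 1237 (.cons 1301 (.cons 1363 (.cons 1364 (.cons 1173 (.cons 1235 (.cons 1238 (.cons 1362 (.cons 1365 (.cons 1427 (.cons 1172 (.cons 1174 (.cons 1298 (.cons 1302 (.cons 1426 (.cons 1428 (.cons 1109 (.cons 1110 (.cons 1171 (.cons 1175 (.cons 1234 (.cons 1239 (.cons 1361 (.cons 1366 (.cons 1425 (.cons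 1429 (.cons 1490 (.cons 1491 (.cons 1108 (.cons 1111 (.cons 1297 (.cons 1303 (.cons 1489 (.cons 1492 (.cons 1424 (.cons 1554 (.cons 1555 .nil .nil) .nil) .nil) .nil) .nil) .nil) .nil) .nil) .nil) .nil) .nil) .nil) .nil) .nil) .nil) .nil) .nil) .nil) .nil) .nil) .nil) .nil) .nil) .nil) .nil) .nil) .nil) .nil) .nil) .nil) .nil) .nil) .nil) .nil) .nil) .nil) .nil) .nil)) .nil))

/-- A part of the decision tree. -/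
def tr6_0_8 : Tr :=
  (.Y 0 0 (.D 36 0 6 42 42 (.C 42)) (.Y 1 1 (.S 1 1 0 0 (.C 0)) (.Y 8 48 (.D 8 56 48 0 0 (.C 0)) (.Y 14 14 (.D 3 14 13 0 0 (.C 0)) (.Y 15 15 (.D 3 15 13 1 1 (.C 1)) (.Y 18 38 (.D 3 18 36 1 1 (.C 1)) (.Y 19 39 (.D 3 19 36 0 0 (.C 0)) (.Y 21 51 (.D 3 21 56 8 48 (.C 8)) (.Y 43 43 (.D 6 43 36 1 1 (.C 1)) (.Y 44 54 (.D 6 44 56 8 48 (.C 8)) (.Y 17 27 (.Y 4 24 (.D 3 17 24 0 0 (.C 0)) (.Y 5 25 (.D 3 17 25 1 1 (.C 1)) (.Y 22 62 (.D 3 22 64 5 25 (.C 5)) (.Y 23 63 (.D 3 23 64 4 24 (.C 4)) (.Y 28 28 (.D 3 17 28 4 24 (.C 4)) (.Y 29 29 (.D 3 17 29 5 25 (.C 5)) (.Y 32 52 (.D 3 17 32 8 48 (.C 8)) (.Y 46 66 (.D 6 46 64 4 24 (.C 4)) (.Y 47 67 (.D 6 47 64 5 25 (.C 5)) (.Y 58 68 (.D 17 34 68 21 51 (.C 21)) (.Y 70 70 (.D 17 34 70 23 63 (.C 23)) (.R (.cons 1299 (.cons 1236 .nil (.cons 1236 .nil .nil)) .nil)))))))))))))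 (.Y 10 60 (.D 13 10 64 17 27 (.C 17)) (.Y 30 40 (.D 6 40 34 10 60 (.C 10)) (.Y 7 37 (.Y 11 61 (.D 6 37 11 10 60 (.C 10)) (.Y 16 26 (.D 3 16 34 11 61 (.C 11)) (.Y 31 41 (.D 7 41 34 10 60 (.C 10)) (.Y 23 63 (.Y 28 28 (.D 23 64 28 17 27 (.C 17)) (.Y 29 29 (.D 23 64 29 16 26 (.C 16)) (.Y 32 52 (.D 23 64 32 21 51 (.C 21)) (.Y 58 68 (.D 3 23 68 8 48 (.C 8)) (.Y 70 70 (.D 3 23 70 10 60 (.C 10)) (.Y 71 71 (.D 3 23 71 11 61 (.C 11)) (.Y 57 57 tr6_0_7 (.R (.cons 1299 (.cons 1236 (.cons 1237 (.cons 1173 .nil .nil) .nil) .nil) .nil))))))))) (.Y 4 24 (.D 13 4 34 23 63 (.C 23)) (.Y 5 25 (.D 25 6 37 24 4 (.C 4)) (.Y 22 62 (.D 3 22 64 5 25 (.C 5)) (.Y 46 66 (.D 6 46 64 4 24 (.C 4)) (.R (.cons 1301 (.cons 1237 (.cons 1236 (.cons 1238 (.cons 1174 (.cons 1173 (.cons 1172 (.cons 1235 .nil .nil) .nil) .nil) .nil) .nil) .nil) (.cons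 1237 (.cons 1236 (.cons 1299 (.cons 1364 (.cons 1363 .nil .nil) .nil) .nil) .nil) .nil)) .nil)))))))))) (.Y 2 12 (.D 2 13 6 7 37 (.C 7)) (.Y 4 24 (.Y 5 25 (.D 13 4 25 12 2 (.C 2)) (.Y 11 61 (.D 4 34 61 1 1 (.C 1)) (.Y 16 26 (.D 3 16 24 1 1 (.C 1)) (.Y 22 62 (.D 4 34 62 2 12 (.C 2)) (.R (.cons 1301 (.cons 1237 (.cons 1236 (.cons 1299 (.cons 1235 .nil .nil) .nil) (.cons 1236 (.cons 1299 (.cons 1235 (.cons 1298 .nil .nil) .nil) .nil) .nil)) (.cons 1364 (.cons 1365 (.cons 1302 (.cons 1238 .nil .nil) .nil) .nil) .nil)) .nil)))))) (.Y 23 63 (.D 3 23 64 4 24 (.C 4)) (.Y 46 66 (.D 6 46 64 4 24 (.C 4)) (.Y 5 25 (.Y 11 61 (.D 5 34 61 0 0 (.C 0)) (.R (.cons 1236 (.cons 1299 (.cons 1235 (.cons 1298 (.cons 1362 (.cons 1361 .nil .nil) .nil) .nil) .nil) (.cons 1237 (.cons 1299 (.cons 1235 (.cons 1298 (.cons 1234 (.cons 1171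 (.cons 1170 .nil .nil) .nil) .nil) .nil) .nil) .nil) (.cons 1237 (.cons 1301 (.cons 1364 (.cons 1365 .nil .nil) .nil) .nil) .nil))) .nil))) (.Y 22 62 (.D 3 22 64 5 25 (.C 5)) (.R (.cons 1301 (.cons 1237 (.cons 1236 (.cons 1238 (.cons 1174 (.cons 1173 .nil .nil) .nil) .nil) (.cons 1236 (.cons 1299 (.cons 1235 (.cons 1298 .nil .nil) (.cons 1235 .nil .nil)) .nil) .nil)) (.cons 1237 (.cons 1236 (.cons 1299 (.cons 1364 (.cons 1363 .nil .nil) .nil) .nil) .nil) .nil)) .nil))))))))))))))))))))))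

/-- A part of the decision tree. -/
def tr6_0_9 : Tr :=
  (.Y 32 52 (.D 32 59 64 29 29 (.C 29)) (.Y 46 66 (.D 6 46 64 4 24 (.C 4)) (.Y 70 70 (.D 34 70 64 28 28 (.C 28)) (.Y 71 71 (.D 34 71 64 29 29 (.C 29)) (.Y 21 51 (.D 21 59 64 16 26 (.D 36 3 16 41 31 (.T 58))) (.Y 11 61 (.D 13 11 69 21 51 (.C 21)) (.Y 16 26 (.D 3 16 34 11 61 (.C 11)) (.Y 31 41 (.D 6 41 34 11 61 (.C 11)) (.Y 44 54 (.D 6 44 59 11 61 (.C 11)) (.Y 0 0 (.Y 5 25 (.D 0 5 34 11 61 (.C 11)) (.Y 8 48 (.D 8 59 64 5 25 (.C 5)) (.R (.cons 1237 (.cons 1301 (.cons 1238 (.cons 1174 (.cons 1173 (.cons 1236 (.cons 1299 .nil .nil) .nil) .nil) .nil) .nil) (.cons 1236 (.cons 1299 (.cons 1363 (.cons 1173 (.cons 1235 (.cons 1172 .nil .nil) .nil) .nil) .nil) .nil) .nil)) .nil)))) (.Y 1 1 (.S 1 1 0 0 (.C 0)) (.Y 14 14 (.D 3 14 13 0 0 (.C 0)) (.Y 15 15 (.D 3 15 13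 1 1 (.C 1)) (.Y 18 38 (.D 3 18 36 1 1 (.C 1)) (.Y 19 39 (.D 3 19 36 0 0 (.C 0)) (.Y 42 42 (.D 6 42 36 0 0 (.C 0)) (.Y 43 43 (.D 6 43 36 1 1 (.C 1)) (.Y 2 12 (.Y 5 25 (.D 2 13 5 4 24 (.C 4)) (.Y 8 48 (.D 8 59 64 5 25 (.C 5)) (.R (.cons 1237 (.cons 1236 (.cons 1299 (.cons 1301 (.cons 1364 (.cons 1363 (.cons 1173 (.cons 1235 (.cons 1172 .nil .nil) .nil) .nil) .nil) .nil) .nil) .nil) (.cons 1236 (.cons 1299 (.cons 1301 (.cons 1363 (.cons 1364 (.cons 1173 (.cons 1235 (.cons 1172 .nil .nil) .nil) .nil) .nil) .nil) .nil) .nil) .nil)) .nil)))) (.Y 7 37 (.D 13 6 37 12 2 (.C 2)) (.R (.cons 1236 (.cons 1237 (.cons 1301 .nil .nil) (.cons 1237 (.cons 1301 .nil .nil) .nil)) .nil)))))))))))))))))))))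

/-- A part of the decision tree. -/
def tr6_0_10 : Tr :=
  (.Y 8 48 (.D 6 44 48 0 0 (.C 0)) (.Y 11 61 (.D 61 6 44 69 59 (.C 59)) (.Y 14 14 (.D 3 14 13 0 0 (.C 0)) (.Y 15 15 (.D 3 15 13 1 1 (.C 1)) (.Y 16 26 (.D 3 16 34 11 61 (.C 11)) (.Y 18 38 (.D 3 18 36 1 1 (.C 1)) (.Y 19 39 (.D 3 19 36 0 0 (.C 0)) (.Y 22 62 (.D 3 22 64 5 25 (.C 5)) (.Y 31 41 (.D 6 41 34 11 61 (.C 11)) (.Y 42 42 (.D 6 42 36 0 0 (.C 0)) (.Y 43 43 (.D 6 43 36 1 1 (.C 1)) (.Y 47 67 (.D 6 47 64 5 25 (.C 5)) (.Y 17 27 (.D 3 17 34 10 60 (.D 13 6 44 21 51 (.D 60 3 21 68 58 (.T 50)))) (.Y 10 60 (.D 13 10 64 17 27 (.C 17)) (.Y 30 40 (.D 6 40 34 10 60 (.C 10)) (.Y 58 68 (.D 6 44 58 10 60 (.C 10)) (.Y 4 24 (.Y 28 28 (.D 4 28 24 0 0 (.C 0)) (.Y 29 29 (.D 4 29 24 1 1 (.C 1)) (.Y 35 65 (.D 4 34 65 5 25 (.C 5)) (.R (.cons 1236 (.cons 1299 (.cons 1237 (.cons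 1173 (.cons 1174 (.cons 1301 (.cons 1238 (.cons 1302 (.cons 1365 (.cons 1364 .nil .nil) .nil) .nil) (.cons 1364 .nil .nil)) .nil) .nil) (.cons 1173 (.cons 1172 .nil .nil) .nil)) .nil) (.cons 1237 (.cons 1173 .nil .nil) (.cons 1237 .nil .nil))) .nil))))) (.R (.cons 1364 (.cons 1301 (.cons 1365 .nil (.cons 1237 .nil .nil)) (.cons 1301 (.cons 1365 .nil .nil) .nil)) .nil)))))))))))))))))))

/-- A part of the decision tree. -/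
def tr6_0_11 : Tr :=
  (.Y 59 69 (.Y 4 24 (.D 4 34 69 9 49 (.C 9)) (.Y 10 60 (.D 13 10 69 20 50 (.C 20)) (.Y 17 27 (.D 3 17 34 10 60 (.C 10)) (.Y 23 63 (.D 3 23 64 4 24 (.C 4)) (.Y 28 28 (.D 28 34 69 33 53 (.C 33)) (.Y 29 29 (.S 29 29 28 28 (.C 28)) (.Y 30 40 (.D 6 40 34 10 60 (.C 10)) tr6_0_9))))))) (.Y 44 54 (.Y 0 0 (.D 0 6 44 8 48 (.D 48 0 8 56 56 (.C 56))) (.Y 1 1 (.S 1 1 0 0 (.C 0)) (.Y 2 12 (.D 12 6 44 20 50 (.C 20)) (.Y 5 25 (.D 25 6 44 33 53 (.C 33)) (.Y 7 37 (.D 13 6 37 12 2 (.C 2)) tr6_0_10))))) (.Y 21 51 (.D 36 3 21 44 54 (.C 44)) (.Y 58 68 (.Y 5 25 (.D 5 34 68 9 49 (.C 9)) (.Y 10 60 (.D 13 10 68 21 51 (.C 21)) (.Y 11 61 (.D 13 11 68 20 50 (.C 20)) (.Y 16 26 (.D 3 16 34 11 61 (.C 11)) (.Y 17 27 (.D 3 17 34 10 60 (.C 10)) (.Y 22 62 (.D 3 22 64 5 25 (.C 5)) (.Y 28 28 (.D 28 34 68 32 52 (.D 52 28 32 56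 56 (.C 56))) (.Y 29 29 (.S 29 29 28 28 (.C 28)) (.Y 30 40 (.D 6 40 34 10 60 (.C 10)) (.Y 31 41 (.D 6 41 34 11 61 (.C 11)) (.Y 32 52 (.D 32 58 64 28 28 (.C 28)) (.Y 35 65 (.D 64 35 68 69 59 (.C 59)) (.Y 47 67 (.D 6 47 64 5 25 (.C 5)) (.Y 70 70 (.D 34 70 64 28 28 (.C 28)) (.Y 71 71 (.D 34 71 64 29 29 (.C 29)) (.Y 0 0 (.Y 4 24 (.D 0 4 34 10 60 (.C 10)) (.R (.cons 1237 (.cons 1236 (.cons 1299 (.cons 1363 (.cons 1427 (.cons 1364 (.cons 1301 .nil .nil) .nil) .nil) .nil) .nil) .nil) .nil))) (.R (.cons 1237 (.cons 1236 (.cons 1299 (.cons 1235 .nil .nil) (.cons 1299 (.cons 1363 (.cons 1173 (.cons 1238 (.cons 1301 (.cons 1364 .nil .nil) (.cons 1301 (.cons 1364 .nil .nil) .nil)) .nil) .nil) .nil) .nil)) (.cons 1236 (.cons 1299 (.cons 1363 (.cons 1173 (.cons 1172 .nil (.cons 1172 .nil .nil)) .nil) .nil) .nil) .nil)) .nil))))))))))))))))))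 (.Y 0 0 (.Y 8 48 (.D 13 0 8 21 51 (.C 21)) (.R (.cons 1299 (.cons 1235 (.cons 1172 (.cons 1173 (.cons 1237 (.cons 1236 .nil .nil) .nil) .nil) .nil) .nil) .nil))) (.Y 1 1 (.S 1 1 0 0 (.C 0)) (.Y 14 14 (.D 3 14 13 0 0 (.C 0)) (.Y 15 15 (.D 3 15 13 1 1 (.C 1)) (.Y 18 38 (.D 3 18 36 1 1 (.C 1)) (.Y 19 39 (.D 3 19 36 0 0 (.C 0)) (.Y 42 42 (.D 6 42 36 0 0 (.C 0)) (.Y 43 43 (.D 6 43 36 1 1 (.C 1)) (.Y 2 12 (.Y 8 48 (.D 2 13 8 9 49 (.C 9)) (.R (.cons 1299 (.cons 1235 (.cons 1236 .nil .nil) .nil) .nil))) (.Y 7 37 (.D 13 6 37 12 2 (.C 2)) (.R (.cons 1299 (.cons 1236 (.cons 1235 .nil .nil) (.cons 1236 (.cons 1237 (.cons 1301 (.cons 1364 (.cons 1365 (.cons 1428 .nil .nil) (.cons 1363 (.cons 1427 (.cons 1426 .nil .nil) .nil) .nil)) .nil) (.cons 1173 (.cons 1174 .nil .nil) .nil)) (.cons 1235 (.cons 1172 (.cons 1171 .nil .nil)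 (.cons 1298 (.cons 1362 .nil .nil) .nil)) .nil)) .nil)) .nil))))))))))))))))

/-- A part of the decision tree. -/
def tr6_0_12 : Tr :=
  (.R (.cons 1236 (.cons 1299 (.cons 1363 (.cons 1364 (.cons 1235 (.cons 1172 (.cons 1362 (.cons 1298 .nil (.cons 1298 (.cons 1365 (.cons 1301 (.cons 1237 (.cons 1173 (.cons 1238 (.cons 1174 (.cons 1302 (.cons 1428 (.cons 1427 (.cons 1426 (.cons 1110 (.cons 1109 .nil .nil) .nil) .nil) .nil) .nil) .nil) .nil) .nil) .nil) .nil) (.cons 1301 (.cons 1302 (.cons 1237 (.cons 1238 (.cons 1239 (.cons 1173 (.cons 1174 (.cons 1109 (.cons 1110 (.cons 1175 (.cons 1108 (.cons 1171 (.cons 1234 (.cons 1111 (.cons 1046 (.cons 1176 (.cons 1045 (.cons 1047 (.cons 1107 (.cons 1170 (.cons 1112 (.cons 1233 (.cons 1297 (.cons 1361 (.cons 1044 (.cons 1048 (.cons 982 (.cons 983 (.cons 981 (.cons 984 (.cons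 1043 (.cons 1106 (.cons 1169 (.cons 980 (.cons 919 (.cons 918 (.cons 920 (.cons 917 (.cons 1427 (.cons 1426 .nil (.cons 1428 .nil .nil)) .nil) .nil) .nil) .nil) .nil) .nil) .nil) .nil) .nil) .nil) .nil) .nil) .nil) .nil) .nil) .nil) .nil) .nil) .nil) .nil) .nil) .nil) .nil) .nil) .nil) .nil) .nil) .nil) .nil) .nil) .nil) .nil) (.cons 1109 (.cons 1110 (.cons 1174 (.cons 1175 (.cons 1108 (.cons 1171 (.cons 1234 (.cons 1111 (.cons 1046 (.cons 1176 (.cons 1045 (.cons 1047 (.cons 1107 (.cons 1170 (.cons 1112 (.cons 1233 (.cons 1297 (.cons 1361 (.cons 1044 (.cons 1048 (.cons 982 (.cons 983 (.cons 981 (.cons 984 (.cons 1049 (.cons 1113 .nil .nil) .nil) .nil) .nil) .nil) .nil) .nil) .nil) .nil) .nil) .nil) .nil) .nil) .nil) .nil) .nil) .nil) .nil) .nil) .nil) .nil) .nil) .nil) .nil) .nil) .nil)) .nil) .nil) (.cons 1173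 (.cons 1238 (.cons 1239 (.cons 1427 (.cons 1426 .nil (.cons 1428 .nil .nil)) .nil) (.cons 1174 (.cons 1110 (.cons 1109 .nil .nil) .nil) .nil)) .nil) .nil)) .nil) (.cons 1237 (.cons 1173 (.cons 1427 (.cons 1426 .nil (.cons 1428 .nil .nil)) .nil) .nil) .nil)) .nil)) .nil) .nil)) .nil) (.cons 1298 (.cons 1362 (.cons 1426 (.cons 1427 (.cons 1428 (.cons 1365 (.cons 1301 (.cons 1302 (.cons 1237 (.cons 1238 (.cons 1239 (.cons 1172 (.cons 1173 (.cons 1174 (.cons 1109 (.cons 1110 (.cons 1175 (.cons 1108 (.cons 1171 (.cons 1234 (.cons 1111 (.cons 1046 (.cons 1176 (.cons 1045 (.cons 1047 (.cons 1107 (.cons 1170 (.cons 1112 (.cons 1233 (.cons 1297 (.cons 1361 (.cons 1425 .nil .nil) .nil) .nil) .nil) .nil) .nil) .nil) .nil) .nil) .nil) .nil) .nil) .nil) .nil) .nil) .nil) .nil) .nil) .nil) (.cons 1173 (.cons 1174 (.cons 1109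 (.cons 1110 (.cons 1171 (.cons 1175 (.cons 1234 (.cons 1108 (.cons 1111 (.cons 1297 (.cons 1361 (.cons 1425 (.cons 1046 (.cons 1176 (.cons 1045 (.cons 1047 (.cons 1107 (.cons 1170 (.cons 1112 (.cons 1233 (.cons 1044 (.cons 1048 (.cons 982 (.cons 983 (.cons 981 (.cons 984 (.cons 1043 (.cons 1106 (.cons 1169 (.cons 980 (.cons 1366 (.cons 1429 .nil (.cons 1303 .nil .nil)) .nil) .nil) .nil) .nil) .nil) .nil) .nil) .nil) .nil) .nil) .nil) .nil) .nil) .nil) .nil) .nil) .nil) .nil) .nil) .nil) .nil) .nil) .nil) .nil) .nil) .nil) .nil) .nil) .nil) .nil) .nil)) .nil) .nil) (.cons 1173 (.cons 1172 .nil .nil) .nil)) .nil) (.cons 1237 (.cons 1173 (.cons 1172 .nil .nil) .nil) .nil)) .nil) .nil) .nil) .nil) .nil) .nil) .nil)) .nil) .nil) (.cons 1235 (.cons 1172 (.cons 1363 (.cons 1364 (.cons 1362 (.cons 1298 .nil (.cons 1298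 (.cons 1427 (.cons 1426 .nil (.cons 1426 (.cons 1428 (.cons 1365 (.cons 1301 (.cons 1302 (.cons 1238 (.cons 1237 (.cons 1173 (.cons 1174 (.cons 1109 (.cons 1110 (.cons 1175 (.cons 1239 (.cons 1366 (.cons 1429 (.cons 1111 (.cons 1303 (.cons 1492 (.cons 1491 (.cons 1490 (.cons 1176 (.cons 1430 (.cons 1047 (.cons 1046 .nil .nil) .nil) .nil) .nil) .nil) .nil) .nil) .nil) .nil) .nil) .nil) .nil) .nil) .nil) .nil) .nil) .nil) .nil) .nil) (.cons 1237 (.cons 1173 (.cons 1302 (.cons 1238 (.cons 1174 (.cons 1109 (.cons 1110 (.cons 1175 (.cons 1239 (.cons 1366 (.cons 1429 (.cons 1111 (.cons 1303 (.cons 1492 (.cons 1491 (.cons 1490 (.cons 1176 (.cons 1430 (.cons 1112 (.cons 1240 (.cons 1367 (.cons 1493 (.cons 1304 (.cons 1556 (.cons 1555 (.cons 1554 (.cons 1113 (.cons 1177 (.cons 1431 (.cons 1494 (.cons 1241 (.cons 1368 (.cons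 1557 (.cons 1305 (.cons 1171 (.cons 1234 .nil (.cons 1108 .nil .nil)) .nil) .nil) .nil) .nil) .nil) .nil) .nil) .nil) .nil) .nil) .nil) .nil) .nil) .nil) .nil) .nil) .nil) .nil) .nil) .nil) .nil) .nil) .nil) .nil) .nil) .nil) .nil) .nil) .nil) .nil) .nil) .nil) .nil) .nil) .nil)) .nil) (.cons 1491 (.cons 1490 (.cons 1489 (.cons 1425 (.cons 1361 (.cons 1365 (.cons 1301 (.cons 1237 (.cons 1173 (.cons 1238 (.cons 1174 (.cons 1302 (.cons 1109 (.cons 1110 (.cons 1175 (.cons 1239 (.cons 1366 (.cons 1429 (.cons 1111 (.cons 1303 (.cons 1492 (.cons 1176 (.cons 1430 (.cons 1112 (.cons 1240 (.cons 1367 (.cons 1493 (.cons 1555 (.cons 1554 (.cons 1553 (.cons 1304 (.cons 1556 (.cons 1431 (.cons 1494 (.cons 1368 (.cons 1557 (.cons 1171 (.cons 1234 .nil (.cons 1108 .nil .nil)) .nil) .nil) .nil) .nil) .nil) .nil) .nil) .nil) .nil)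 .nil) .nil) .nil) .nil) .nil) .nil) .nil) .nil) .nil) .nil) .nil) .nil) .nil) .nil) .nil) .nil) .nil) .nil) .nil) .nil) .nil) (.cons 1301 (.cons 1237 (.cons 1173 (.cons 1174 (.cons 1302 (.cons 1238 (.cons 1109 (.cons 1110 (.cons 1175 (.cons 1239 (.cons 1366 (.cons 1429 (.cons 1111 (.cons 1303 (.cons 1492 (.cons 1176 (.cons 1430 (.cons 1112 (.cons 1240 (.cons 1367 (.cons 1493 (.cons 1304 (.cons 1556 (.cons 1555 (.cons 1554 (.cons 1553 .nil .nil) .nil) .nil) .nil) .nil) .nil) .nil) .nil) .nil) .nil) .nil) .nil) .nil) .nil) .nil) .nil) .nil) .nil) .nil) .nil) .nil) .nil) .nil) .nil) .nil) .nil)) .nil) .nil) .nil) .nil) .nil) .nil)) .nil) .nil)) .nil) .nil)) .nil) (.cons 1362 (.cons 1298 (.cons 1234 (.cons 1171 (.cons 1108 (.cons 1109 (.cons 1364 (.cons 1301 (.cons 1237 (.cons 1173 (.cons 1238 (.cons 1365 (.cons 1174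 (.cons 1302 (.cons 1428 (.cons 1427 (.cons 1426 (.cons 1110 (.cons 1175 (.cons 1239 (.cons 1366 (.cons 1429 (.cons 1491 (.cons 1490 (.cons 1111 (.cons 1303 (.cons 1489 (.cons 1425 (.cons 1361 (.cons 1297 .nil .nil) .nil) .nil) .nil) .nil) .nil) .nil) .nil) .nil) .nil) .nil) .nil) .nil) .nil) .nil) .nil) .nil) .nil) .nil) .nil) .nil) .nil) (.cons 1301 (.cons 1237 (.cons 1173 (.cons 1238 (.cons 1365 (.cons 1427 (.cons 1174 (.cons 1302 (.cons 1426 (.cons 1428 (.cons 1110 (.cons 1175 (.cons 1239 (.cons 1366 (.cons 1425 (.cons 1361 (.cons 1429 (.cons 1491 (.cons 1490 (.cons 1111 (.cons 1297 (.cons 1303 (.cons 1489 (.cons 1492 (.cons 1176 (.cons 1430 (.cons 1112 (.cons 1240 (.cons 1367 (.cons 1493 (.cons 1555 (.cons 1554 (.cons 1553 (.cons 1304 (.cons 1556 (.cons 1046 (.cons 1045 .nil (.cons 1047 .nil .nil)) .nil) .nil)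 .nil) .nil) .nil) .nil) .nil) .nil) .nil) .nil) .nil) .nil) .nil) .nil) .nil) .nil) .nil) .nil) .nil) .nil) .nil) .nil) .nil) .nil) .nil) .nil) .nil) .nil) .nil) .nil) .nil) .nil) .nil) .nil) .nil) .nil)) .nil) .nil) .nil) .nil) .nil) .nil) .nil)) .nil) .nil) .nil)) (.cons 1237 (.cons 1299 (.cons 1301 (.cons 1363 (.cons 1364 (.cons 1173 (.cons 1235 (.cons 1238 (.cons 1362 (.cons 1365 (.cons 1427 (.cons 1172 (.cons 1174 (.cons 1298 (.cons 1302 (.cons 1426 (.cons 1428 (.cons 1109 (.cons 1110 (.cons 1171 (.cons 1175 (.cons 1234 (.cons 1239 (.cons 1361 (.cons 1425 (.cons 1429 (.cons 1366 (.cons 1490 (.cons 1491 (.cons 1108 (.cons 1111 (.cons 1297 (.cons 1303 (.cons 1489 (.cons 1492 (.cons 1046 (.cons 1176 (.cons 1240 .nil .nil) .nil) .nil) .nil) .nil) .nil) .nil) .nil) .nil) .nil) .nil) .nil) .nil) .nil) .nil) .nil)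 .nil) .nil) .nil) .nil) .nil) .nil) .nil) .nil) .nil) .nil) .nil) .nil) .nil) .nil) .nil) .nil) .nil) .nil) .nil) .nil) .nil) .nil)) .nil))

/-- A part of the decision tree. -/
def tr6_0_13 : Tr :=
  (.Y 14 14 (.D 3 14 13 0 0 (.C 0)) (.Y 15 15 (.D 3 15 13 1 1 (.C 1)) (.Y 18 38 (.D 3 18 42 7 37 (.C 7)) (.Y 11 61 (.Y 4 24 (.D 4 34 61 1 1 (.C 1)) (.Y 5 25 (.D 5 34 61 0 0 (.C 0)) (.Y 22 62 (.D 3 22 61 0 0 (.C 0)) (.Y 23 63 (.D 3 23 61 1 1 (.C 1)) (.Y 28 28 (.D 11 64 28 5 25 (.C 5)) (.Y 29 29 (.D 11 64 29 4 24 (.C 4)) (.Y 30 40 (.D 11 64 30 7 37 (.C 7)) (.Y 31 41 (.D 11 64 31 6 36 (.C 6)) (.Y 32 52 (.D 3 20 52 5 25 (.C 5)) (.Y 33 53 (.D 3 20 53 4 24 (.C 4)) (.R (.cons 1236 (.cons 1237 .nil (.cons 1237 .nil (.cons 1237 .nil (.cons 1237 .nil .nil)))) .nil)))))))))))) (.Y 16 26 (.D 3 16 34 11 61 (.C 11)) (.Y 58 68 (.D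 3 20 58 11 61 (.C 11)) (.Y 5 25 (.Y 10 60 (.D 5 34 60 1 1 (.C 1)) (.Y 17 27 (.D 3 17 25 1 1 (.C 1)) (.Y 28 28 (.D 5 28 25 0 0 (.C 0)) (.Y 29 29 (.D 5 29 25 1 1 (.C 1)) (.Y 30 40 (.D 5 30 42 7 37 (.C 7)) (.Y 31 41 (.D 5 31 42 6 36 (.C 6)) (.Y 46 66 (.D 5 34 66 7 37 (.C 7)) (.Y 47 67 (.D 5 34 67 6 36 (.C 6)) (.Y 59 69 (.D 5 34 69 8 48 (.C 8)) (.Y 70 70 (.D 5 34 70 11 61 (.C 11)) (.Y 71 71 (.D 5 34 71 10 60 (.C 10)) (.Y 2 12 (.Y 43 43 tr6_0_12 (.R (.cons 1236 (.cons 1237 (.cons 1299 (.cons 1301 (.cons 1363 (.cons 1362 .nil .nil) .nil) .nil) .nil) .nil) .nil))) (.Y 4 24 (.D 13 4 25 12 2 (.C 2)) (.R (.cons 1236 (.cons 1237 (.cons 1301 (.cons 1364 (.cons 1365 .nil .nil) .nil) (.cons 1301 (.cons 1364 (.cons 1363 (.cons 1299 (.cons 1173 (.cons 1235 (.cons 1172 .nil .nil) .nil) .nil) .nil) .nil) .nil) .nil)) (.cons 1237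 (.cons 1173 .nil .nil) .nil)) .nil))))))))))))))) (.Y 22 62 (.D 3 22 64 5 25 (.C 5)) (.Y 32 52 (.D 3 20 52 5 25 (.C 5)) (.Y 2 12 (.Y 4 24 (.D 2 13 4 5 25 (.C 5)) (.Y 10 60 (.D 2 13 10 11 61 (.C 11)) (.Y 17 27 (.D 3 17 34 10 60 (.C 10)) (.Y 23 63 (.D 3 23 64 4 24 (.C 4)) (.Y 33 53 (.D 3 20 53 4 24 (.C 4)) (.Y 59 69 (.D 3 20 59 10 60 (.C 10)) (.R (.cons 1299 (.cons 1236 (.cons 1235 (.cons 1172 (.cons 1173 (.cons 1237 (.cons 1301 (.cons 1364 (.cons 1363 (.cons 1362 (.cons 1298 .nil .nil) .nil) .nil) .nil) .nil) .nil) .nil) .nil) .nil) (.cons 1363 (.cons 1364 (.cons 1301 (.cons 1362 (.cons 1427 (.cons 1426 .nil .nil) .nil) .nil) .nil) .nil) .nil)) .nil)))))))) (.Y 21 51 (.D 3 20 51 2 12 (.C 2)) (.R (.cons 1299 (.cons 1236 (.cons 1235 (.cons 1172 (.cons 1173 (.cons 1109 .nil .nil) .nil) .nil) (.cons 1235 .nil .nil))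 (.cons 1236 (.cons 1363 (.cons 1364 .nil (.cons 1364 (.cons 1301 (.cons 1237 .nil .nil) (.cons 1427 .nil .nil)) .nil)) .nil) (.cons 1363 (.cons 1364 (.cons 1301 (.cons 1365 .nil .nil) .nil) .nil) .nil))) .nil)))))))))))))

/-- A part of the decision tree. -/
def tr6_0_14 : Tr :=
  (.Y 11 61 (.D 13 11 68 20 50 (.C 20)) (.Y 16 26 (.D 3 16 34 11 61 (.C 11)) (.Y 22 62 (.D 3 22 64 5 25 (.C 5)) (.Y 28 28 (.D 28 34 68 32 52 (.D 52 28 32 56 56 (.C 56))) (.Y 29 29 (.S 29 29 28 28 (.C 28)) (.Y 30 40 (.D 30 42 40 28 28 (.C 28)) (.Y 31 41 (.D 31 42 41 28 28 (.C 28)) (.Y 32 52 (.D 32 58 64 28 28 (.C 28)) (.Y 33 53 (.D 33 58 64 29 29 (.C 29)) (.Y 46 66 (.D 34 66 42 30 40 (.C 30)) (.Y 47 67 (.D 34 67 42 31 41 (.C 31)) (.Y 70 70 (.D 34 70 64 28 28 (.C 28)) (.Y 71 71 (.D 34 71 64 29 29 (.C 29)) (.Y 0 0 (.Y 4 24 (.D 24 0 4 28 28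 (.C 28)) (.R (.cons 1237 (.cons 1236 (.cons 1173 (.cons 1174 (.cons 1238 (.cons 1175 .nil .nil) .nil) (.cons 1172 .nil .nil)) .nil) (.cons 1236 (.cons 1173 (.cons 1172 .nil .nil) .nil) (.cons 1236 (.cons 1173 .nil .nil) .nil))) .nil))) (.Y 1 1 (.S 1 1 0 0 (.C 0)) (.Y 7 37 (.D 7 42 37 0 0 (.C 0)) (.Y 14 14 (.D 3 14 13 0 0 (.C 0)) (.Y 15 15 (.D 3 15 13 1 1 (.C 1)) (.Y 18 38 (.D 3 18 42 7 37 (.C 7)) (.Y 2 12 (.Y 4 24 (.D 2 13 4 5 25 (.C 5)) (.R (.cons 1236 (.cons 1237 .nil (.cons 1237 .nil .nil)) .nil))) (.Y 4 24 (.Y 10 60 (.D 4 34 60 0 0 (.C 0)) (.Y 17 27 (.D 3 17 24 0 0 (.C 0)) (.Y 21 51 (.D 3 21 58 10 60 (.C 10)) (.R (.cons 1236 (.cons 1299 .nil (.cons 1237 (.cons 1299 (.cons 1301 (.cons 1364 .nil .nil) .nil) .nil) .nil)) .nil))))) (.R (.cons 1236 (.cons 1237 .nil (.cons 1237 .nil .nil)) .nil)))))))))))))))))))))))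

/-- A part of the decision tree. -/
def tr6_0_15 : Tr :=
  (.Y 21 51 (.Y 0 0 (.D 0 3 21 8 48 (.D 48 0 8 56 56 (.C 56))) (.Y 1 1 (.S 1 1 0 0 (.C 0)) (.Y 2 12 (.D 12 3 21 20 50 (.C 20)) (.Y 7 37 (.D 7 42 37 0 0 (.C 0)) (.Y 8 48 (.D 3 21 48 0 0 (.C 0)) (.Y 10 60 (.D 60 3 21 68 58 (.C 58)) (.Y 14 14 (.D 3 14 13 0 0 (.C 0)) (.Y 15 15 (.D 3 15 13 1 1 (.C 1)) (.Y 17 27 (.D 3 17 34 10 60 (.C 10)) (.Y 18 38 (.D 3 18 42 7 37 (.C 7)) (.Y 5 25 (.Y 4 24 (.D 13 4 25 12 2 (.C 2)) (.Y 11 61 (.D 5 34 61 0 0 (.C 0)) (.Y 16 26 (.D 3 16 25 0 0 (.C 0)) (.Y 23 63 (.D 5 34 63 2 12 (.C 2)) (.Y 28 28 (.D 5 28 25 0 0 (.C 0)) (.Y 29 29 (.D 5 29 25 1 1 (.C 1)) (.Y 30 40 (.D 5 30 42 7 37 (.C 7)) (.Y 31 41 (.D 5 31 42 6 36 (.C 6)) (.Y 32 52 (.D 5 32 51 2 12 (.C 2)) (.Y 35 65 (.D 5 34 65 4 24 (.C 4)) (.Y 46 66 (.D 5 34 66 7 37 (.C 7)) (.Y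 47 67 (.D 5 34 67 6 36 (.C 6)) (.Y 59 69 (.D 5 34 69 8 48 (.C 8)) (.Y 70 70 (.D 5 34 70 11 61 (.C 11)) (.R (.cons 1236 (.cons 1299 .nil (.cons 1237 (.cons 1173 .nil .nil) .nil)) .nil)))))))))))))))) (.Y 22 62 (.D 3 22 64 5 25 (.C 5)) (.Y 33 53 (.D 3 21 53 5 25 (.C 5)) (.Y 4 24 (.Y 11 61 (.D 4 34 61 1 1 (.C 1)) (.Y 16 26 (.D 3 16 24 1 1 (.C 1)) (.Y 28 28 (.D 4 28 24 0 0 (.C 0)) (.Y 29 29 (.D 4 29 24 1 1 (.C 1)) (.Y 30 40 (.D 4 30 42 6 36 (.C 6)) (.R (.cons 1364 (.cons 1301 (.cons 1365 (.cons 1302 .nil .nil) (.cons 1365 (.cons 1428 .nil .nil) .nil)) (.cons 1301 (.cons 1237 (.cons 1236 (.cons 1299 .nil .nil) (.cons 1236 (.cons 1173 .nil .nil) .nil)) (.cons 1365 .nil .nil)) .nil)) .nil))))))) (.R (.cons 1364 (.cons 1363 (.cons 1299 (.cons 1236 (.cons 1235 (.cons 1362 (.cons 1298 .nil .nil) .nil) .nil) .nil) .nil)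 (.cons 1301 .nil .nil)) .nil)))))))))))))))) (.Y 33 53 (.Y 4 24 (.D 13 4 33 20 50 (.C 20)) (.Y 5 25 (.D 13 5 33 21 51 (.C 21)) (.Y 10 60 (.D 10 64 33 9 49 (.C 9)) (.Y 17 27 (.D 3 17 33 9 49 (.C 9)) (.Y 22 62 (.D 3 22 64 5 25 (.C 5)) (.Y 23 63 (.D 3 23 64 4 24 (.C 4)) (.Y 28 28 (.D 53 28 33 56 56 (.C 56)) (.Y 29 29 (.S 29 29 28 28 (.C 28)) (.Y 30 40 (.D 30 42 40 28 28 (.C 28)) (.Y 31 41 (.D 31 42 41 28 28 (.C 28)) (.Y 46 66 (.D 34 66 42 30 40 (.C 30)) (.Y 47 67 (.D 34 67 42 31 41 (.C 31)) (.Y 59 69 (.D 33 59 64 28 28 (.C 28)) (.Y 70 70 (.D 34 70 64 28 28 (.C 28)) (.R (.cons 1299 (.cons 1236 .nil (.cons 1236 (.cons 1237 (.cons 1173 .nil (.cons 1173 .nil .nil)) (.cons 1237 (.cons 1173 (.cons 1174 .nil .nil) .nil) .nil)) (.cons 1363 (.cons 1362 .nil .nil) .nil))) .nil)))))))))))))))) (.Y 0 0 (.Y 8 48 (.D 13 0 8 21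 51 (.C 21)) (.R (.cons 1299 (.cons 1235 (.cons 1236 .nil (.cons 1236 (.cons 1172 .nil .nil) .nil)) (.cons 1236 .nil .nil)) .nil))) (.Y 1 1 (.S 1 1 0 0 (.C 0)) (.Y 7 37 (.D 7 42 37 0 0 (.C 0)) (.Y 14 14 (.D 3 14 13 0 0 (.C 0)) (.Y 15 15 (.D 3 15 13 1 1 (.C 1)) (.Y 18 38 (.D 3 18 42 7 37 (.C 7)) (.Y 2 12 (.Y 8 48 (.D 2 13 8 9 49 (.C 9)) (.R (.cons 1299 (.cons 1236 (.cons 1235 .nil (.cons 1235 .nil .nil)) (.cons 1236 .nil .nil)) .nil))) (.Y 4 24 (.Y 5 25 (.D 13 4 25 12 2 (.C 2)) (.Y 8 48 (.D 48 4 34 58 68 (.C 58)) (.R (.cons 1299 (.cons 1236 (.cons 1235 .nil (.cons 1235 .nil .nil)) (.cons 1236 .nil .nil)) .nil)))) (.Y 23 63 (.D 3 23 64 4 24 (.C 4)) (.Y 5 25 (.Y 10 60 (.D 5 34 60 1 1 (.C 1)) (.Y 11 61 (.D 5 34 61 0 0 (.C 0)) (.Y 16 26 (.D 3 16 25 0 0 (.C 0)) (.R (.cons 1299 (.cons 1363 (.cons 1362 .nil .nil) (.cons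 1236 (.cons 1237 (.cons 1301 .nil (.cons 1301 .nil .nil)) .nil) (.cons 1236 (.cons 1235 (.cons 1237 (.cons 1301 .nil (.cons 1301 .nil .nil)) .nil) .nil) .nil))) .nil))))) (.Y 22 62 (.D 3 22 64 5 25 (.C 5)) (.Y 8 48 (.Y 11 61 (.D 48 11 64 53 33 (.C 33)) (.Y 16 26 (.D 3 16 34 11 61 (.C 11)) (.R (.cons 1301 (.cons 1237 (.cons 1236 (.cons 1299 .nil .nil) .nil) (.cons 1364 .nil .nil)) .nil)))) (.R (.cons 1299 (.cons 1363 (.cons 1364 .nil .nil) (.cons 1236 .nil .nil)) .nil))))))))))))))))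

/-- A part of the decision tree. -/
def tr6_0_16 : Tr :=
  (.R (.cons 1236 (.cons 1299 (.cons 1363 (.cons 1364 (.cons 1301 (.cons 1237 (.cons 1173 (.cons 1235 (.cons 1172 .nil (.cons 1172 .nil .nil)) (.cons 1235 (.cons 1172 .nil (.cons 1172 .nil .nil)) .nil)) (.cons 1173 (.cons 1235 (.cons 1172 .nil (.cons 1172 .nil .nil)) (.cons 1235 (.cons 1172 .nil (.cons 1172 .nil .nil)) .nil)) .nil)) (.cons 1237 (.cons 1173 (.cons 1235 (.cons 1172 .nil (.cons 1172 .nil .nil)) (.cons 1235 (.cons 1172 .nil (.cons 1172 .nil .nil)) .nil)) (.cons 1173 (.cons 1235 (.cons 1172 .nil (.cons 1172 .nil .nil)) (.cons 1235 (.cons 1172 .nil (.cons 1172 .nil .nil)) .nil)) .nil)) .nil)) (.cons 1301 (.cons 1237 (.cons 1173 (.cons 1235 (.cons 1172 .nil (.cons 1172 .nil .nil)) (.cons 1235 (.cons 1172 .nil (.cons 1172 .nil .nil)) .nil)) (.cons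 1173 (.cons 1235 (.cons 1172 .nil (.cons 1172 .nil .nil)) (.cons 1235 (.cons 1172 .nil (.cons 1172 .nil .nil)) .nil)) .nil)) (.cons 1237 (.cons 1173 (.cons 1235 (.cons 1172 .nil (.cons 1172 .nil .nil)) (.cons 1235 (.cons 1172 .nil (.cons 1172 .nil .nil)) .nil)) (.cons 1173 (.cons 1235 (.cons 1172 .nil (.cons 1172 .nil .nil)) (.cons 1235 (.cons 1172 .nil (.cons 1172 .nil .nil)) .nil)) .nil)) .nil)) .nil)) (.cons 1364 (.cons 1301 (.cons 1237 (.cons 1173 (.cons 1235 (.cons 1172 .nil (.cons 1172 .nil .nil)) (.cons 1235 (.cons 1172 .nil (.cons 1172 .nil .nil)) .nil)) (.cons 1173 (.cons 1235 (.cons 1172 .nil (.cons 1172 .nil .nil)) (.cons 1235 (.cons 1172 .nil (.cons 1172 .nil .nil)) .nil)) .nil)) (.cons 1237 (.cons 1173 (.cons 1235 (.cons 1172 .nil (.cons 1172 .nil .nil)) (.cons 1235 (.cons 1172 .nil (.cons 1172 .nil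 .nil)) .nil)) (.cons 1173 (.cons 1235 (.cons 1172 .nil (.cons 1172 .nil .nil)) (.cons 1235 (.cons 1172 .nil (.cons 1172 .nil .nil)) .nil)) .nil)) .nil)) (.cons 1301 (.cons 1237 (.cons 1173 (.cons 1235 (.cons 1172 .nil (.cons 1172 .nil .nil)) (.cons 1235 (.cons 1172 .nil (.cons 1172 .nil .nil)) .nil)) (.cons 1173 (.cons 1235 (.cons 1172 .nil (.cons 1172 .nil .nil)) (.cons 1235 (.cons 1172 .nil (.cons 1172 .nil .nil)) .nil)) .nil)) (.cons 1237 (.cons 1173 (.cons 1235 (.cons 1172 .nil (.cons 1172 .nil .nil)) (.cons 1235 (.cons 1172 .nil (.cons 1172 .nil .nil)) .nil)) (.cons 1173 (.cons 1235 (.cons 1172 .nil (.cons 1172 .nil .nil)) (.cons 1235 (.cons 1172 .nil (.cons 1172 .nil .nil)) .nil)) .nil)) .nil)) .nil)) .nil)) (.cons 1363 (.cons 1364 (.cons 1301 (.cons 1237 (.cons 1173 (.cons 1235 (.cons 1172 .nil (.cons 1172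 .nil .nil)) (.cons 1235 (.cons 1172 .nil (.cons 1172 .nil .nil)) .nil)) (.cons 1173 (.cons 1235 (.cons 1172 .nil (.cons 1172 .nil .nil)) (.cons 1235 (.cons 1172 .nil (.cons 1172 .nil .nil)) .nil)) .nil)) (.cons 1237 (.cons 1173 (.cons 1235 (.cons 1172 .nil (.cons 1172 .nil .nil)) (.cons 1235 (.cons 1172 .nil (.cons 1172 .nil .nil)) .nil)) (.cons 1173 (.cons 1235 (.cons 1172 .nil (.cons 1172 .nil .nil)) (.cons 1235 (.cons 1172 .nil (.cons 1172 .nil .nil)) .nil)) .nil)) .nil)) (.cons 1301 (.cons 1237 (.cons 1173 (.cons 1235 (.cons 1172 .nil (.cons 1172 .nil .nil)) (.cons 1235 (.cons 1172 .nil (.cons 1172 .nil .nil)) .nil)) (.cons 1173 (.cons 1235 (.cons 1172 .nil (.cons 1172 .nil .nil)) (.cons 1235 (.cons 1172 .nil (.cons 1172 .nil .nil)) .nil)) .nil)) (.cons 1237 (.cons 1173 (.cons 1235 (.cons 1172 .nil (.cons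 1172 .nil .nil)) (.cons 1235 (.cons 1172 .nil (.cons 1172 .nil .nil)) .nil)) (.cons 1173 (.cons 1235 (.cons 1172 .nil (.cons 1172 .nil .nil)) (.cons 1235 (.cons 1172 .nil (.cons 1172 .nil .nil)) .nil)) .nil)) .nil)) .nil)) (.cons 1364 (.cons 1301 (.cons 1237 (.cons 1173 (.cons 1235 (.cons 1172 .nil (.cons 1172 .nil .nil)) (.cons 1235 (.cons 1172 .nil (.cons 1172 .nil .nil)) .nil)) (.cons 1173 (.cons 1235 (.cons 1172 .nil (.cons 1172 .nil .nil)) (.cons 1235 (.cons 1172 .nil (.cons 1172 .nil .nil)) .nil)) .nil)) (.cons 1237 (.cons 1173 (.cons 1235 (.cons 1172 .nil (.cons 1172 .nil .nil)) (.cons 1235 (.cons 1172 .nil (.cons 1172 .nil .nil)) .nil)) (.cons 1173 (.cons 1235 (.cons 1172 .nil (.cons 1172 .nil .nil)) (.cons 1235 (.cons 1172 .nil (.cons 1172 .nil .nil)) .nil)) .nil)) .nil)) (.cons 1301 (.cons 1237 (.cons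 1173 (.cons 1235 (.cons 1172 .nil (.cons 1172 .nil .nil)) (.cons 1235 (.cons 1172 .nil (.cons 1172 .nil .nil)) .nil)) (.cons 1173 (.cons 1235 (.cons 1172 .nil (.cons 1172 .nil .nil)) (.cons 1235 (.cons 1172 .nil (.cons 1172 .nil .nil)) .nil)) .nil)) (.cons 1237 (.cons 1173 (.cons 1235 (.cons 1172 .nil (.cons 1172 .nil .nil)) (.cons 1235 (.cons 1172 .nil (.cons 1172 .nil .nil)) .nil)) (.cons 1173 (.cons 1235 (.cons 1172 .nil (.cons 1172 .nil .nil)) (.cons 1235 (.cons 1172 .nil (.cons 1172 .nil .nil)) .nil)) .nil)) .nil)) .nil)) .nil)) .nil)) (.cons 1237 (.cons 1299 (.cons 1301 (.cons 1363 (.cons 1364 (.cons 1173 (.cons 1235 (.cons 1238 (.cons 1362 (.cons 1298 .nil (.cons 1298 .nil .nil)) (.cons 1362 (.cons 1298 .nil (.cons 1298 .nil .nil)) .nil)) (.cons 1238 (.cons 1362 (.cons 1298 .nil (.cons 1298 .nil .nil))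 (.cons 1362 (.cons 1298 .nil (.cons 1298 .nil .nil)) .nil)) .nil)) (.cons 1235 (.cons 1238 (.cons 1362 (.cons 1298 .nil (.cons 1298 .nil .nil)) (.cons 1362 (.cons 1298 .nil (.cons 1298 .nil .nil)) .nil)) (.cons 1238 (.cons 1362 (.cons 1298 .nil (.cons 1298 .nil .nil)) (.cons 1362 (.cons 1298 .nil (.cons 1298 .nil .nil)) .nil)) .nil)) .nil)) (.cons 1173 (.cons 1235 (.cons 1238 (.cons 1362 (.cons 1298 .nil (.cons 1298 .nil .nil)) (.cons 1362 (.cons 1298 .nil (.cons 1298 .nil .nil)) .nil)) (.cons 1238 (.cons 1362 (.cons 1298 .nil (.cons 1298 .nil .nil)) (.cons 1362 (.cons 1298 .nil (.cons 1298 .nil .nil)) .nil)) .nil)) (.cons 1235 (.cons 1238 (.cons 1362 (.cons 1298 .nil (.cons 1298 .nil .nil)) (.cons 1362 (.cons 1298 .nil (.cons 1298 .nil .nil)) .nil)) (.cons 1238 (.cons 1362 (.cons 1298 .nil (.cons 1298 .nil .nil))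 (.cons 1362 (.cons 1298 .nil (.cons 1298 .nil .nil)) .nil)) .nil)) .nil)) .nil)) (.cons 1364 (.cons 1173 (.cons 1235 (.cons 1238 (.cons 1362 (.cons 1298 .nil (.cons 1298 .nil .nil)) (.cons 1362 (.cons 1298 .nil (.cons 1298 .nil .nil)) .nil)) (.cons 1238 (.cons 1362 (.cons 1298 .nil (.cons 1298 .nil .nil)) (.cons 1362 (.cons 1298 .nil (.cons 1298 .nil .nil)) .nil)) .nil)) (.cons 1235 (.cons 1238 (.cons 1362 (.cons 1298 .nil (.cons 1298 .nil .nil)) (.cons 1362 (.cons 1298 .nil (.cons 1298 .nil .nil)) .nil)) (.cons 1238 (.cons 1362 (.cons 1298 .nil (.cons 1298 .nil .nil)) (.cons 1362 (.cons 1298 .nil (.cons 1298 .nil .nil)) .nil)) .nil)) .nil)) (.cons 1173 (.cons 1235 (.cons 1238 (.cons 1362 (.cons 1298 .nil (.cons 1298 .nil .nil)) (.cons 1362 (.cons 1298 .nil (.cons 1298 .nil .nil)) .nil)) (.cons 1238 (.cons 1362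 (.cons 1298 .nil (.cons 1298 .nil .nil)) (.cons 1362 (.cons 1298 .nil (.cons 1298 .nil .nil)) .nil)) .nil)) (.cons 1235 (.cons 1238 (.cons 1362 (.cons 1298 .nil (.cons 1298 .nil .nil)) (.cons 1362 (.cons 1298 .nil (.cons 1298 .nil .nil)) .nil)) (.cons 1238 (.cons 1362 (.cons 1298 .nil (.cons 1298 .nil .nil)) (.cons 1362 (.cons 1298 .nil (.cons 1298 .nil .nil)) .nil)) .nil)) .nil)) .nil)) .nil)) (.cons 1363 (.cons 1364 (.cons 1173 (.cons 1235 (.cons 1238 (.cons 1362 (.cons 1298 .nil (.cons 1298 .nil .nil)) (.cons 1362 (.cons 1298 .nil (.cons 1298 .nil .nil)) .nil)) (.cons 1238 (.cons 1362 (.cons 1298 .nil (.cons 1298 .nil .nil)) (.cons 1362 (.cons 1298 .nil (.cons 1298 .nil .nil)) .nil)) .nil)) (.cons 1235 (.cons 1238 (.cons 1362 (.cons 1298 .nil (.cons 1298 .nil .nil)) (.cons 1362 (.cons 1298 .nil (.cons 1298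 .nil .nil)) .nil)) (.cons 1238 (.cons 1362 (.cons 1298 .nil (.cons 1298 .nil .nil)) (.cons 1362 (.cons 1298 .nil (.cons 1298 .nil .nil)) .nil)) .nil)) .nil)) (.cons 1173 (.cons 1235 (.cons 1238 (.cons 1362 (.cons 1298 .nil (.cons 1298 .nil .nil)) (.cons 1362 (.cons 1298 .nil (.cons 1298 .nil .nil)) .nil)) (.cons 1238 (.cons 1362 (.cons 1298 .nil (.cons 1298 .nil .nil)) (.cons 1362 (.cons 1298 .nil (.cons 1298 .nil .nil)) .nil)) .nil)) (.cons 1235 (.cons 1238 (.cons 1362 (.cons 1298 .nil (.cons 1298 .nil .nil)) (.cons 1362 (.cons 1298 .nil (.cons 1298 .nil .nil)) .nil)) (.cons 1238 (.cons 1362 (.cons 1298 .nil (.cons 1298 .nil .nil)) (.cons 1362 (.cons 1298 .nil (.cons 1298 .nil .nil)) .nil)) .nil)) .nil)) .nil)) (.cons 1364 (.cons 1173 (.cons 1235 (.cons 1238 (.cons 1362 (.cons 1298 .nil (.cons 1298 .nil .nil))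 (.cons 1362 (.cons 1298 .nil (.cons 1298 .nil .nil)) .nil)) (.cons 1238 (.cons 1362 (.cons 1298 .nil (.cons 1298 .nil .nil)) (.cons 1362 (.cons 1298 .nil (.cons 1298 .nil .nil)) .nil)) .nil)) (.cons 1235 (.cons 1238 (.cons 1362 (.cons 1298 .nil (.cons 1298 .nil .nil)) (.cons 1362 (.cons 1298 .nil (.cons 1298 .nil .nil)) .nil)) (.cons 1238 (.cons 1362 (.cons 1298 .nil (.cons 1298 .nil .nil)) (.cons 1362 (.cons 1298 .nil (.cons 1298 .nil .nil)) .nil)) .nil)) .nil)) (.cons 1173 (.cons 1235 (.cons 1238 (.cons 1362 (.cons 1298 .nil (.cons 1298 .nil .nil)) (.cons 1362 (.cons 1298 .nil (.cons 1298 .nil .nil)) .nil)) (.cons 1238 (.cons 1362 (.cons 1298 .nil (.cons 1298 .nil .nil)) (.cons 1362 (.cons 1298 .nil (.cons 1298 .nil .nil)) .nil)) .nil)) (.cons 1235 (.cons 1238 (.cons 1362 (.cons 1298 .nil (.cons 1298 .nil .nil))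 (.cons 1362 (.cons 1298 .nil (.cons 1298 .nil .nil)) .nil)) (.cons 1238 (.cons 1362 (.cons 1298 .nil (.cons 1298 .nil .nil)) (.cons 1362 (.cons 1298 .nil (.cons 1298 .nil .nil)) .nil)) .nil)) .nil)) .nil)) .nil)) .nil)) (.cons 1301 (.cons 1363 (.cons 1364 (.cons 1173 (.cons 1235 (.cons 1238 (.cons 1362 (.cons 1298 .nil (.cons 1298 .nil .nil)) (.cons 1362 (.cons 1298 .nil (.cons 1298 .nil .nil)) .nil)) (.cons 1238 (.cons 1362 (.cons 1298 .nil (.cons 1298 .nil .nil)) (.cons 1362 (.cons 1298 .nil (.cons 1298 .nil .nil)) .nil)) .nil)) (.cons 1235 (.cons 1238 (.cons 1362 (.cons 1298 .nil (.cons 1298 .nil .nil)) (.cons 1362 (.cons 1298 .nil (.cons 1298 .nil .nil)) .nil)) (.cons 1238 (.cons 1362 (.cons 1298 .nil (.cons 1298 .nil .nil)) (.cons 1362 (.cons 1298 .nil (.cons 1298 .nil .nil)) .nil)) .nil)) .nil)) (.cons 1173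 (.cons 1235 (.cons 1238 (.cons 1362 (.cons 1298 .nil (.cons 1298 .nil .nil)) (.cons 1362 (.cons 1298 .nil (.cons 1298 .nil .nil)) .nil)) (.cons 1238 (.cons 1362 (.cons 1298 .nil (.cons 1298 .nil .nil)) (.cons 1362 (.cons 1298 .nil (.cons 1298 .nil .nil)) .nil)) .nil)) (.cons 1235 (.cons 1238 (.cons 1362 (.cons 1298 .nil (.cons 1298 .nil .nil)) (.cons 1362 (.cons 1298 .nil (.cons 1298 .nil .nil)) .nil)) (.cons 1238 (.cons 1362 (.cons 1298 .nil (.cons 1298 .nil .nil)) (.cons 1362 (.cons 1298 .nil (.cons 1298 .nil .nil)) .nil)) .nil)) .nil)) .nil)) (.cons 1364 (.cons 1173 (.cons 1235 (.cons 1238 (.cons 1362 (.cons 1298 .nil (.cons 1298 .nil .nil)) (.cons 1362 (.cons 1298 .nil (.cons 1298 .nil .nil)) .nil)) (.cons 1238 (.cons 1362 (.cons 1298 .nil (.cons 1298 .nil .nil)) (.cons 1362 (.cons 1298 .nil (.cons 1298 .nil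 .nil)) .nil)) .nil)) (.cons 1235 (.cons 1238 (.cons 1362 (.cons 1298 .nil (.cons 1298 .nil .nil)) (.cons 1362 (.cons 1298 .nil (.cons 1298 .nil .nil)) .nil)) (.cons 1238 (.cons 1362 (.cons 1298 .nil (.cons 1298 .nil .nil)) (.cons 1362 (.cons 1298 .nil (.cons 1298 .nil .nil)) .nil)) .nil)) .nil)) (.cons 1173 (.cons 1235 (.cons 1238 (.cons 1362 (.cons 1298 .nil (.cons 1298 .nil .nil)) (.cons 1362 (.cons 1298 .nil (.cons 1298 .nil .nil)) .nil)) (.cons 1238 (.cons 1362 (.cons 1298 .nil (.cons 1298 .nil .nil)) (.cons 1362 (.cons 1298 .nil (.cons 1298 .nil .nil)) .nil)) .nil)) (.cons 1235 (.cons 1238 (.cons 1362 (.cons 1298 .nil (.cons 1298 .nil .nil)) (.cons 1362 (.cons 1298 .nil (.cons 1298 .nil .nil)) .nil)) (.cons 1238 (.cons 1362 (.cons 1298 .nil (.cons 1298 .nil .nil)) (.cons 1362 (.cons 1298 .nil (.cons 1298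 .nil .nil)) .nil)) .nil)) .nil)) .nil)) .nil)) (.cons 1363 (.cons 1364 (.cons 1173 (.cons 1235 (.cons 1238 (.cons 1362 (.cons 1298 .nil (.cons 1298 .nil .nil)) (.cons 1362 (.cons 1298 .nil (.cons 1298 .nil .nil)) .nil)) (.cons 1238 (.cons 1362 (.cons 1298 .nil (.cons 1298 .nil .nil)) (.cons 1362 (.cons 1298 .nil (.cons 1298 .nil .nil)) .nil)) .nil)) (.cons 1235 (.cons 1238 (.cons 1362 (.cons 1298 .nil (.cons 1298 .nil .nil)) (.cons 1362 (.cons 1298 .nil (.cons 1298 .nil .nil)) .nil)) (.cons 1238 (.cons 1362 (.cons 1298 .nil (.cons 1298 .nil .nil)) (.cons 1362 (.cons 1298 .nil (.cons 1298 .nil .nil)) .nil)) .nil)) .nil)) (.cons 1173 (.cons 1235 (.cons 1238 (.cons 1362 (.cons 1298 .nil (.cons 1298 .nil .nil)) (.cons 1362 (.cons 1298 .nil (.cons 1298 .nil .nil)) .nil)) (.cons 1238 (.cons 1362 (.cons 1298 .nil (.cons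 1298 .nil .nil)) (.cons 1362 (.cons 1298 .nil (.cons 1298 .nil .nil)) .nil)) .nil)) (.cons 1235 (.cons 1238 (.cons 1362 (.cons 1298 .nil (.cons 1298 .nil .nil)) (.cons 1362 (.cons 1298 .nil (.cons 1298 .nil .nil)) .nil)) (.cons 1238 (.cons 1362 (.cons 1298 .nil (.cons 1298 .nil .nil)) (.cons 1362 (.cons 1298 .nil (.cons 1298 .nil .nil)) .nil)) .nil)) .nil)) .nil)) (.cons 1364 (.cons 1173 (.cons 1235 (.cons 1238 (.cons 1362 (.cons 1298 .nil (.cons 1298 .nil .nil)) (.cons 1362 (.cons 1298 .nil (.cons 1298 .nil .nil)) .nil)) (.cons 1238 (.cons 1362 (.cons 1298 .nil (.cons 1298 .nil .nil)) (.cons 1362 (.cons 1298 .nil (.cons 1298 .nil .nil)) .nil)) .nil)) (.cons 1235 (.cons 1238 (.cons 1362 (.cons 1298 .nil (.cons 1298 .nil .nil)) (.cons 1362 (.cons 1298 .nil (.cons 1298 .nil .nil)) .nil)) (.cons 1238 (.cons 1362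 (.cons 1298 .nil (.cons 1298 .nil .nil)) (.cons 1362 (.cons 1298 .nil (.cons 1298 .nil .nil)) .nil)) .nil)) .nil)) (.cons 1173 (.cons 1235 (.cons 1238 (.cons 1362 (.cons 1298 .nil (.cons 1298 .nil .nil)) (.cons 1362 (.cons 1298 .nil (.cons 1298 .nil .nil)) .nil)) (.cons 1238 (.cons 1362 (.cons 1298 .nil (.cons 1298 .nil .nil)) (.cons 1362 (.cons 1298 .nil (.cons 1298 .nil .nil)) .nil)) .nil)) (.cons 1235 (.cons 1238 (.cons 1362 (.cons 1298 .nil (.cons 1298 .nil .nil)) (.cons 1362 (.cons 1298 .nil (.cons 1298 .nil .nil)) .nil)) (.cons 1238 (.cons 1362 (.cons 1298 .nil (.cons 1298 .nil .nil)) (.cons 1362 (.cons 1298 .nil (.cons 1298 .nil .nil)) .nil)) .nil)) .nil)) .nil)) .nil)) .nil)) .nil)) (.cons 1299 (.cons 1301 (.cons 1363 (.cons 1364 (.cons 1173 (.cons 1235 (.cons 1238 (.cons 1362 (.cons 1298 .nil (.cons 1298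 .nil .nil)) (.cons 1362 (.cons 1298 .nil (.cons 1298 .nil .nil)) .nil)) (.cons 1238 (.cons 1362 (.cons 1298 .nil (.cons 1298 .nil .nil)) (.cons 1362 (.cons 1298 .nil (.cons 1298 .nil .nil)) .nil)) .nil)) (.cons 1235 (.cons 1238 (.cons 1362 (.cons 1298 .nil (.cons 1298 .nil .nil)) (.cons 1362 (.cons 1298 .nil (.cons 1298 .nil .nil)) .nil)) (.cons 1238 (.cons 1362 (.cons 1298 .nil (.cons 1298 .nil .nil)) (.cons 1362 (.cons 1298 .nil (.cons 1298 .nil .nil)) .nil)) .nil)) .nil)) (.cons 1173 (.cons 1235 (.cons 1238 (.cons 1362 (.cons 1298 .nil (.cons 1298 .nil .nil)) (.cons 1362 (.cons 1298 .nil (.cons 1298 .nil .nil)) .nil)) (.cons 1238 (.cons 1362 (.cons 1298 .nil (.cons 1298 .nil .nil)) (.cons 1362 (.cons 1298 .nil (.cons 1298 .nil .nil)) .nil)) .nil)) (.cons 1235 (.cons 1238 (.cons 1362 (.cons 1298 .nil (.cons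 1298 .nil .nil)) (.cons 1362 (.cons 1298 .nil (.cons 1298 .nil .nil)) .nil)) (.cons 1238 (.cons 1362 (.cons 1298 .nil (.cons 1298 .nil .nil)) (.cons 1362 (.cons 1298 .nil (.cons 1298 .nil .nil)) .nil)) .nil)) .nil)) .nil)) (.cons 1364 (.cons 1173 (.cons 1235 (.cons 1238 (.cons 1362 (.cons 1298 .nil (.cons 1298 .nil .nil)) (.cons 1362 (.cons 1298 .nil (.cons 1298 .nil .nil)) .nil)) (.cons 1238 (.cons 1362 (.cons 1298 .nil (.cons 1298 .nil .nil)) (.cons 1362 (.cons 1298 .nil (.cons 1298 .nil .nil)) .nil)) .nil)) (.cons 1235 (.cons 1238 (.cons 1362 (.cons 1298 .nil (.cons 1298 .nil .nil)) (.cons 1362 (.cons 1298 .nil (.cons 1298 .nil .nil)) .nil)) (.cons 1238 (.cons 1362 (.cons 1298 .nil (.cons 1298 .nil .nil)) (.cons 1362 (.cons 1298 .nil (.cons 1298 .nil .nil)) .nil)) .nil)) .nil)) (.cons 1173 (.cons 1235 (.cons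 1238 (.cons 1362 (.cons 1298 .nil (.cons 1298 .nil .nil)) (.cons 1362 (.cons 1298 .nil (.cons 1298 .nil .nil)) .nil)) (.cons 1238 (.cons 1362 (.cons 1298 .nil (.cons 1298 .nil .nil)) (.cons 1362 (.cons 1298 .nil (.cons 1298 .nil .nil)) .nil)) .nil)) (.cons 1235 (.cons 1238 (.cons 1362 (.cons 1298 .nil (.cons 1298 .nil .nil)) (.cons 1362 (.cons 1298 .nil (.cons 1298 .nil .nil)) .nil)) (.cons 1238 (.cons 1362 (.cons 1298 .nil (.cons 1298 .nil .nil)) (.cons 1362 (.cons 1298 .nil (.cons 1298 .nil .nil)) .nil)) .nil)) .nil)) .nil)) .nil)) (.cons 1363 (.cons 1364 (.cons 1173 (.cons 1235 (.cons 1238 (.cons 1362 (.cons 1298 .nil (.cons 1298 .nil .nil)) (.cons 1362 (.cons 1298 .nil (.cons 1298 .nil .nil)) .nil)) (.cons 1238 (.cons 1362 (.cons 1298 .nil (.cons 1298 .nil .nil)) (.cons 1362 (.cons 1298 .nil (.cons 1298 .nil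 .nil)) .nil)) .nil)) (.cons 1235 (.cons 1238 (.cons 1362 (.cons 1298 .nil (.cons 1298 .nil .nil)) (.cons 1362 (.cons 1298 .nil (.cons 1298 .nil .nil)) .nil)) (.cons 1238 (.cons 1362 (.cons 1298 .nil (.cons 1298 .nil .nil)) (.cons 1362 (.cons 1298 .nil (.cons 1298 .nil .nil)) .nil)) .nil)) .nil)) (.cons 1173 (.cons 1235 (.cons 1238 (.cons 1362 (.cons 1298 .nil (.cons 1298 .nil .nil)) (.cons 1362 (.cons 1298 .nil (.cons 1298 .nil .nil)) .nil)) (.cons 1238 (.cons 1362 (.cons 1298 .nil (.cons 1298 .nil .nil)) (.cons 1362 (.cons 1298 .nil (.cons 1298 .nil .nil)) .nil)) .nil)) (.cons 1235 (.cons 1238 (.cons 1362 (.cons 1298 .nil (.cons 1298 .nil .nil)) (.cons 1362 (.cons 1298 .nil (.cons 1298 .nil .nil)) .nil)) (.cons 1238 (.cons 1362 (.cons 1298 .nil (.cons 1298 .nil .nil)) (.cons 1362 (.cons 1298 .nil (.cons 1298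 .nil .nil)) .nil)) .nil)) .nil)) .nil)) (.cons 1364 (.cons 1173 (.cons 1235 (.cons 1238 (.cons 1362 (.cons 1298 .nil (.cons 1298 .nil .nil)) (.cons 1362 (.cons 1298 .nil (.cons 1298 .nil .nil)) .nil)) (.cons 1238 (.cons 1362 (.cons 1298 .nil (.cons 1298 .nil .nil)) (.cons 1362 (.cons 1298 .nil (.cons 1298 .nil .nil)) .nil)) .nil)) (.cons 1235 (.cons 1238 (.cons 1362 (.cons 1298 .nil (.cons 1298 .nil .nil)) (.cons 1362 (.cons 1298 .nil (.cons 1298 .nil .nil)) .nil)) (.cons 1238 (.cons 1362 (.cons 1298 .nil (.cons 1298 .nil .nil)) (.cons 1362 (.cons 1298 .nil (.cons 1298 .nil .nil)) .nil)) .nil)) .nil)) (.cons 1173 (.cons 1235 (.cons 1238 (.cons 1362 (.cons 1298 .nil (.cons 1298 .nil .nil)) (.cons 1362 (.cons 1298 .nil (.cons 1298 .nil .nil)) .nil)) (.cons 1238 (.cons 1362 (.cons 1298 .nil (.cons 1298 .nil .nil))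 (.cons 1362 (.cons 1298 .nil (.cons 1298 .nil .nil)) .nil)) .nil)) (.cons 1235 (.cons 1238 (.cons 1362 (.cons 1298 .nil (.cons 1298 .nil .nil)) (.cons 1362 (.cons 1298 .nil (.cons 1298 .nil .nil)) .nil)) (.cons 1238 (.cons 1362 (.cons 1298 .nil (.cons 1298 .nil .nil)) (.cons 1362 (.cons 1298 .nil (.cons 1298 .nil .nil)) .nil)) .nil)) .nil)) .nil)) .nil)) .nil)) (.cons 1301 (.cons 1363 (.cons 1364 (.cons 1173 (.cons 1235 (.cons 1238 (.cons 1362 (.cons 1298 .nil (.cons 1298 .nil .nil)) (.cons 1362 (.cons 1298 .nil (.cons 1298 .nil .nil)) .nil)) (.cons 1238 (.cons 1362 (.cons 1298 .nil (.cons 1298 .nil .nil)) (.cons 1362 (.cons 1298 .nil (.cons 1298 .nil .nil)) .nil)) .nil)) (.cons 1235 (.cons 1238 (.cons 1362 (.cons 1298 .nil (.cons 1298 .nil .nil)) (.cons 1362 (.cons 1298 .nil (.cons 1298 .nil .nil)) .nil)) (.cons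 1238 (.cons 1362 (.cons 1298 .nil (.cons 1298 .nil .nil)) (.cons 1362 (.cons 1298 .nil (.cons 1298 .nil .nil)) .nil)) .nil)) .nil)) (.cons 1173 (.cons 1235 (.cons 1238 (.cons 1362 (.cons 1298 .nil (.cons 1298 .nil .nil)) (.cons 1362 (.cons 1298 .nil (.cons 1298 .nil .nil)) .nil)) (.cons 1238 (.cons 1362 (.cons 1298 .nil (.cons 1298 .nil .nil)) (.cons 1362 (.cons 1298 .nil (.cons 1298 .nil .nil)) .nil)) .nil)) (.cons 1235 (.cons 1238 (.cons 1362 (.cons 1298 .nil (.cons 1298 .nil .nil)) (.cons 1362 (.cons 1298 .nil (.cons 1298 .nil .nil)) .nil)) (.cons 1238 (.cons 1362 (.cons 1298 .nil (.cons 1298 .nil .nil)) (.cons 1362 (.cons 1298 .nil (.cons 1298 .nil .nil)) .nil)) .nil)) .nil)) .nil)) (.cons 1364 (.cons 1173 (.cons 1235 (.cons 1238 (.cons 1362 (.cons 1298 .nil (.cons 1298 .nil .nil)) (.cons 1362 (.cons 1298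 .nil (.cons 1298 .nil .nil)) .nil)) (.cons 1238 (.cons 1362 (.cons 1298 .nil (.cons 1298 .nil .nil)) (.cons 1362 (.cons 1298 .nil (.cons 1298 .nil .nil)) .nil)) .nil)) (.cons 1235 (.cons 1238 (.cons 1362 (.cons 1298 .nil (.cons 1298 .nil .nil)) (.cons 1362 (.cons 1298 .nil (.cons 1298 .nil .nil)) .nil)) (.cons 1238 (.cons 1362 (.cons 1298 .nil (.cons 1298 .nil .nil)) (.cons 1362 (.cons 1298 .nil (.cons 1298 .nil .nil)) .nil)) .nil)) .nil)) (.cons 1173 (.cons 1235 (.cons 1238 (.cons 1362 (.cons 1298 .nil (.cons 1298 .nil .nil)) (.cons 1362 (.cons 1298 .nil (.cons 1298 .nil .nil)) .nil)) (.cons 1238 (.cons 1362 (.cons 1298 .nil (.cons 1298 .nil .nil)) (.cons 1362 (.cons 1298 .nil (.cons 1298 .nil .nil)) .nil)) .nil)) (.cons 1235 (.cons 1238 (.cons 1362 (.cons 1298 .nil (.cons 1298 .nil .nil)) (.cons 1362 (.cons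 1298 .nil (.cons 1298 .nil .nil)) .nil)) (.cons 1238 (.cons 1362 (.cons 1298 .nil (.cons 1298 .nil .nil)) (.cons 1362 (.cons 1298 .nil (.cons 1298 .nil .nil)) .nil)) .nil)) .nil)) .nil)) .nil)) (.cons 1363 (.cons 1364 (.cons 1173 (.cons 1235 (.cons 1238 (.cons 1362 (.cons 1298 .nil (.cons 1298 .nil .nil)) (.cons 1362 (.cons 1298 .nil (.cons 1298 .nil .nil)) .nil)) (.cons 1238 (.cons 1362 (.cons 1298 .nil (.cons 1298 .nil .nil)) (.cons 1362 (.cons 1298 .nil (.cons 1298 .nil .nil)) .nil)) .nil)) (.cons 1235 (.cons 1238 (.cons 1362 (.cons 1298 .nil (.cons 1298 .nil .nil)) (.cons 1362 (.cons 1298 .nil (.cons 1298 .nil .nil)) .nil)) (.cons 1238 (.cons 1362 (.cons 1298 .nil (.cons 1298 .nil .nil)) (.cons 1362 (.cons 1298 .nil (.cons 1298 .nil .nil)) .nil)) .nil)) .nil)) (.cons 1173 (.cons 1235 (.cons 1238 (.cons 1362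 (.cons 1298 .nil (.cons 1298 .nil .nil)) (.cons 1362 (.cons 1298 .nil (.cons 1298 .nil .nil)) .nil)) (.cons 1238 (.cons 1362 (.cons 1298 .nil (.cons 1298 .nil .nil)) (.cons 1362 (.cons 1298 .nil (.cons 1298 .nil .nil)) .nil)) .nil)) (.cons 1235 (.cons 1238 (.cons 1362 (.cons 1298 .nil (.cons 1298 .nil .nil)) (.cons 1362 (.cons 1298 .nil (.cons 1298 .nil .nil)) .nil)) (.cons 1238 (.cons 1362 (.cons 1298 .nil (.cons 1298 .nil .nil)) (.cons 1362 (.cons 1298 .nil (.cons 1298 .nil .nil)) .nil)) .nil)) .nil)) .nil)) (.cons 1364 (.cons 1173 (.cons 1235 (.cons 1238 (.cons 1362 (.cons 1298 .nil (.cons 1298 .nil .nil)) (.cons 1362 (.cons 1298 .nil (.cons 1298 .nil .nil)) .nil)) (.cons 1238 (.cons 1362 (.cons 1298 .nil (.cons 1298 .nil .nil)) (.cons 1362 (.cons 1298 .nil (.cons 1298 .nil .nil)) .nil)) .nil)) (.cons 1235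 (.cons 1238 (.cons 1362 (.cons 1298 .nil (.cons 1298 .nil .nil)) (.cons 1362 (.cons 1298 .nil (.cons 1298 .nil .nil)) .nil)) (.cons 1238 (.cons 1362 (.cons 1298 .nil (.cons 1298 .nil .nil)) (.cons 1362 (.cons 1298 .nil (.cons 1298 .nil .nil)) .nil)) .nil)) .nil)) (.cons 1173 (.cons 1235 (.cons 1238 (.cons 1362 (.cons 1298 .nil (.cons 1298 .nil .nil)) (.cons 1362 (.cons 1298 .nil (.cons 1298 .nil .nil)) .nil)) (.cons 1238 (.cons 1362 (.cons 1298 .nil (.cons 1298 .nil .nil)) (.cons 1362 (.cons 1298 .nil (.cons 1298 .nil .nil)) .nil)) .nil)) (.cons 1235 (.cons 1238 (.cons 1362 (.cons 1298 .nil (.cons 1298 .nil .nil)) (.cons 1362 (.cons 1298 .nil (.cons 1298 .nil .nil)) .nil)) (.cons 1238 (.cons 1362 (.cons 1298 .nil (.cons 1298 .nil .nil)) (.cons 1362 (.cons 1298 .nil (.cons 1298 .nil .nil)) .nil)) .nil)) .nil))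 .nil)) .nil)) .nil)) .nil)) .nil)) (.cons 1299 (.cons 1363 (.cons 1364 (.cons 1301 (.cons 1237 (.cons 1173 (.cons 1235 (.cons 1172 .nil (.cons 1172 .nil .nil)) (.cons 1235 (.cons 1172 .nil (.cons 1172 .nil .nil)) .nil)) (.cons 1173 (.cons 1235 (.cons 1172 .nil (.cons 1172 .nil .nil)) (.cons 1235 (.cons 1172 .nil (.cons 1172 .nil .nil)) .nil)) .nil)) (.cons 1237 (.cons 1173 (.cons 1235 (.cons 1172 .nil (.cons 1172 .nil .nil)) (.cons 1235 (.cons 1172 .nil (.cons 1172 .nil .nil)) .nil)) (.cons 1173 (.cons 1235 (.cons 1172 .nil (.cons 1172 .nil .nil)) (.cons 1235 (.cons 1172 .nil (.cons 1172 .nil .nil)) .nil)) .nil)) .nil)) (.cons 1301 (.cons 1237 (.cons 1173 (.cons 1235 (.cons 1172 .nil (.cons 1172 .nil .nil)) (.cons 1235 (.cons 1172 .nil (.cons 1172 .nil .nil)) .nil)) (.cons 1173 (.cons 1235 (.cons 1172 .nil (.cons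 1172 .nil .nil)) (.cons 1235 (.cons 1172 .nil (.cons 1172 .nil .nil)) .nil)) .nil)) (.cons 1237 (.cons 1173 (.cons 1235 (.cons 1172 .nil (.cons 1172 .nil .nil)) (.cons 1235 (.cons 1172 .nil (.cons 1172 .nil .nil)) .nil)) (.cons 1173 (.cons 1235 (.cons 1172 .nil (.cons 1172 .nil .nil)) (.cons 1235 (.cons 1172 .nil (.cons 1172 .nil .nil)) .nil)) .nil)) .nil)) .nil)) (.cons 1364 (.cons 1301 (.cons 1237 (.cons 1173 (.cons 1235 (.cons 1172 .nil (.cons 1172 .nil .nil)) (.cons 1235 (.cons 1172 .nil (.cons 1172 .nil .nil)) .nil)) (.cons 1173 (.cons 1235 (.cons 1172 .nil (.cons 1172 .nil .nil)) (.cons 1235 (.cons 1172 .nil (.cons 1172 .nil .nil)) .nil)) .nil)) (.cons 1237 (.cons 1173 (.cons 1235 (.cons 1172 .nil (.cons 1172 .nil .nil)) (.cons 1235 (.cons 1172 .nil (.cons 1172 .nil .nil)) .nil)) (.cons 1173 (.cons 1235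 (.cons 1172 .nil (.cons 1172 .nil .nil)) (.cons 1235 (.cons 1172 .nil (.cons 1172 .nil .nil)) .nil)) .nil)) .nil)) (.cons 1301 (.cons 1237 (.cons 1173 (.cons 1235 (.cons 1172 .nil (.cons 1172 .nil .nil)) (.cons 1235 (.cons 1172 .nil (.cons 1172 .nil .nil)) .nil)) (.cons 1173 (.cons 1235 (.cons 1172 .nil (.cons 1172 .nil .nil)) (.cons 1235 (.cons 1172 .nil (.cons 1172 .nil .nil)) .nil)) .nil)) (.cons 1237 (.cons 1173 (.cons 1235 (.cons 1172 .nil (.cons 1172 .nil .nil)) (.cons 1235 (.cons 1172 .nil (.cons 1172 .nil .nil)) .nil)) (.cons 1173 (.cons 1235 (.cons 1172 .nil (.cons 1172 .nil .nil)) (.cons 1235 (.cons 1172 .nil (.cons 1172 .nil .nil)) .nil)) .nil)) .nil)) .nil)) .nil)) (.cons 1363 (.cons 1364 (.cons 1301 (.cons 1237 (.cons 1173 (.cons 1235 (.cons 1172 .nil (.cons 1172 .nil .nil)) (.cons 1235 (.cons 1172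 .nil (.cons 1172 .nil .nil)) .nil)) (.cons 1173 (.cons 1235 (.cons 1172 .nil (.cons 1172 .nil .nil)) (.cons 1235 (.cons 1172 .nil (.cons 1172 .nil .nil)) .nil)) .nil)) (.cons 1237 (.cons 1173 (.cons 1235 (.cons 1172 .nil (.cons 1172 .nil .nil)) (.cons 1235 (.cons 1172 .nil (.cons 1172 .nil .nil)) .nil)) (.cons 1173 (.cons 1235 (.cons 1172 .nil (.cons 1172 .nil .nil)) (.cons 1235 (.cons 1172 .nil (.cons 1172 .nil .nil)) .nil)) .nil)) .nil)) (.cons 1301 (.cons 1237 (.cons 1173 (.cons 1235 (.cons 1172 .nil (.cons 1172 .nil .nil)) (.cons 1235 (.cons 1172 .nil (.cons 1172 .nil .nil)) .nil)) (.cons 1173 (.cons 1235 (.cons 1172 .nil (.cons 1172 .nil .nil)) (.cons 1235 (.cons 1172 .nil (.cons 1172 .nil .nil)) .nil)) .nil)) (.cons 1237 (.cons 1173 (.cons 1235 (.cons 1172 .nil (.cons 1172 .nil .nil)) (.cons 1235 (.cons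 1172 .nil (.cons 1172 .nil .nil)) .nil)) (.cons 1173 (.cons 1235 (.cons 1172 .nil (.cons 1172 .nil .nil)) (.cons 1235 (.cons 1172 .nil (.cons 1172 .nil .nil)) .nil)) .nil)) .nil)) .nil)) (.cons 1364 (.cons 1301 (.cons 1237 (.cons 1173 (.cons 1235 (.cons 1172 .nil (.cons 1172 .nil .nil)) (.cons 1235 (.cons 1172 .nil (.cons 1172 .nil .nil)) .nil)) (.cons 1173 (.cons 1235 (.cons 1172 .nil (.cons 1172 .nil .nil)) (.cons 1235 (.cons 1172 .nil (.cons 1172 .nil .nil)) .nil)) .nil)) (.cons 1237 (.cons 1173 (.cons 1235 (.cons 1172 .nil (.cons 1172 .nil .nil)) (.cons 1235 (.cons 1172 .nil (.cons 1172 .nil .nil)) .nil)) (.cons 1173 (.cons 1235 (.cons 1172 .nil (.cons 1172 .nil .nil)) (.cons 1235 (.cons 1172 .nil (.cons 1172 .nil .nil)) .nil)) .nil)) .nil)) (.cons 1301 (.cons 1237 (.cons 1173 (.cons 1235 (.cons 1172 .nil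 (.cons 1172 .nil .nil)) (.cons 1235 (.cons 1172 .nil (.cons 1172 .nil .nil)) .nil)) (.cons 1173 (.cons 1235 (.cons 1172 .nil (.cons 1172 .nil .nil)) (.cons 1235 (.cons 1172 .nil (.cons 1172 .nil .nil)) .nil)) .nil)) (.cons 1237 (.cons 1173 (.cons 1235 (.cons 1172 .nil (.cons 1172 .nil .nil)) (.cons 1235 (.cons 1172 .nil (.cons 1172 .nil .nil)) .nil)) (.cons 1173 (.cons 1235 (.cons 1172 .nil (.cons 1172 .nil .nil)) (.cons 1235 (.cons 1172 .nil (.cons 1172 .nil .nil)) .nil)) .nil)) .nil)) .nil)) .nil)) .nil)) (.cons 1237 (.cons 1299 (.cons 1301 (.cons 1363 (.cons 1364 (.cons 1173 (.cons 1235 (.cons 1238 (.cons 1362 (.cons 1298 .nil (.cons 1298 .nil .nil)) (.cons 1362 (.cons 1298 .nil (.cons 1298 .nil .nil)) .nil)) (.cons 1238 (.cons 1362 (.cons 1298 .nil (.cons 1298 .nil .nil)) (.cons 1362 (.cons 1298 .nil (.cons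 1298 .nil .nil)) .nil)) .nil)) (.cons 1235 (.cons 1238 (.cons 1362 (.cons 1298 .nil (.cons 1298 .nil .nil)) (.cons 1362 (.cons 1298 .nil (.cons 1298 .nil .nil)) .nil)) (.cons 1238 (.cons 1362 (.cons 1298 .nil (.cons 1298 .nil .nil)) (.cons 1362 (.cons 1298 .nil (.cons 1298 .nil .nil)) .nil)) .nil)) .nil)) (.cons 1173 (.cons 1235 (.cons 1238 (.cons 1362 (.cons 1298 .nil (.cons 1298 .nil .nil)) (.cons 1362 (.cons 1298 .nil (.cons 1298 .nil .nil)) .nil)) (.cons 1238 (.cons 1362 (.cons 1298 .nil (.cons 1298 .nil .nil)) (.cons 1362 (.cons 1298 .nil (.cons 1298 .nil .nil)) .nil)) .nil)) (.cons 1235 (.cons 1238 (.cons 1362 (.cons 1298 .nil (.cons 1298 .nil .nil)) (.cons 1362 (.cons 1298 .nil (.cons 1298 .nil .nil)) .nil)) (.cons 1238 (.cons 1362 (.cons 1298 .nil (.cons 1298 .nil .nil)) (.cons 1362 (.cons 1298 .nil (.cons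 1298 .nil .nil)) .nil)) .nil)) .nil)) .nil)) (.cons 1364 (.cons 1173 (.cons 1235 (.cons 1238 (.cons 1362 (.cons 1298 .nil (.cons 1298 .nil .nil)) (.cons 1362 (.cons 1298 .nil (.cons 1298 .nil .nil)) .nil)) (.cons 1238 (.cons 1362 (.cons 1298 .nil (.cons 1298 .nil .nil)) (.cons 1362 (.cons 1298 .nil (.cons 1298 .nil .nil)) .nil)) .nil)) (.cons 1235 (.cons 1238 (.cons 1362 (.cons 1298 .nil (.cons 1298 .nil .nil)) (.cons 1362 (.cons 1298 .nil (.cons 1298 .nil .nil)) .nil)) (.cons 1238 (.cons 1362 (.cons 1298 .nil (.cons 1298 .nil .nil)) (.cons 1362 (.cons 1298 .nil (.cons 1298 .nil .nil)) .nil)) .nil)) .nil)) (.cons 1173 (.cons 1235 (.cons 1238 (.cons 1362 (.cons 1298 .nil (.cons 1298 .nil .nil)) (.cons 1362 (.cons 1298 .nil (.cons 1298 .nil .nil)) .nil)) (.cons 1238 (.cons 1362 (.cons 1298 .nil (.cons 1298 .nil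 .nil)) (.cons 1362 (.cons 1298 .nil (.cons 1298 .nil .nil)) .nil)) .nil)) (.cons 1235 (.cons 1238 (.cons 1362 (.cons 1298 .nil (.cons 1298 .nil .nil)) (.cons 1362 (.cons 1298 .nil (.cons 1298 .nil .nil)) .nil)) (.cons 1238 (.cons 1362 (.cons 1298 .nil (.cons 1298 .nil .nil)) (.cons 1362 (.cons 1298 .nil (.cons 1298 .nil .nil)) .nil)) .nil)) .nil)) .nil)) .nil)) (.cons 1363 (.cons 1364 (.cons 1173 (.cons 1235 (.cons 1238 (.cons 1362 (.cons 1298 .nil (.cons 1298 .nil .nil)) (.cons 1362 (.cons 1298 .nil (.cons 1298 .nil .nil)) .nil)) (.cons 1238 (.cons 1362 (.cons 1298 .nil (.cons 1298 .nil .nil)) (.cons 1362 (.cons 1298 .nil (.cons 1298 .nil .nil)) .nil)) .nil)) (.cons 1235 (.cons 1238 (.cons 1362 (.cons 1298 .nil (.cons 1298 .nil .nil)) (.cons 1362 (.cons 1298 .nil (.cons 1298 .nil .nil)) .nil)) (.cons 1238 (.cons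 1362 (.cons 1298 .nil (.cons 1298 .nil .nil)) (.cons 1362 (.cons 1298 .nil (.cons 1298 .nil .nil)) .nil)) .nil)) .nil)) (.cons 1173 (.cons 1235 (.cons 1238 (.cons 1362 (.cons 1298 .nil (.cons 1298 .nil .nil)) (.cons 1362 (.cons 1298 .nil (.cons 1298 .nil .nil)) .nil)) (.cons 1238 (.cons 1362 (.cons 1298 .nil (.cons 1298 .nil .nil)) (.cons 1362 (.cons 1298 .nil (.cons 1298 .nil .nil)) .nil)) .nil)) (.cons 1235 (.cons 1238 (.cons 1362 (.cons 1298 .nil (.cons 1298 .nil .nil)) (.cons 1362 (.cons 1298 .nil (.cons 1298 .nil .nil)) .nil)) (.cons 1238 (.cons 1362 (.cons 1298 .nil (.cons 1298 .nil .nil)) (.cons 1362 (.cons 1298 .nil (.cons 1298 .nil .nil)) .nil)) .nil)) .nil)) .nil)) (.cons 1364 (.cons 1173 (.cons 1235 (.cons 1238 (.cons 1362 (.cons 1298 .nil (.cons 1298 .nil .nil)) (.cons 1362 (.cons 1298 .nil (.cons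 1298 .nil .nil)) .nil)) (.cons 1238 (.cons 1362 (.cons 1298 .nil (.cons 1298 .nil .nil)) (.cons 1362 (.cons 1298 .nil (.cons 1298 .nil .nil)) .nil)) .nil)) (.cons 1235 (.cons 1238 (.cons 1362 (.cons 1298 .nil (.cons 1298 .nil .nil)) (.cons 1362 (.cons 1298 .nil (.cons 1298 .nil .nil)) .nil)) (.cons 1238 (.cons 1362 (.cons 1298 .nil (.cons 1298 .nil .nil)) (.cons 1362 (.cons 1298 .nil (.cons 1298 .nil .nil)) .nil)) .nil)) .nil)) (.cons 1173 (.cons 1235 (.cons 1238 (.cons 1362 (.cons 1298 .nil (.cons 1298 .nil .nil)) (.cons 1362 (.cons 1298 .nil (.cons 1298 .nil .nil)) .nil)) (.cons 1238 (.cons 1362 (.cons 1298 .nil (.cons 1298 .nil .nil)) (.cons 1362 (.cons 1298 .nil (.cons 1298 .nil .nil)) .nil)) .nil)) (.cons 1235 (.cons 1238 (.cons 1362 (.cons 1298 .nil (.cons 1298 .nil .nil)) (.cons 1362 (.cons 1298 .nil (.cons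 1298 .nil .nil)) .nil)) (.cons 1238 (.cons 1362 (.cons 1298 .nil (.cons 1298 .nil .nil)) (.cons 1362 (.cons 1298 .nil (.cons 1298 .nil .nil)) .nil)) .nil)) .nil)) .nil)) .nil)) .nil)) (.cons 1301 (.cons 1363 (.cons 1364 (.cons 1173 (.cons 1235 (.cons 1238 (.cons 1362 (.cons 1298 .nil (.cons 1298 .nil .nil)) (.cons 1362 (.cons 1298 .nil (.cons 1298 .nil .nil)) .nil)) (.cons 1238 (.cons 1362 (.cons 1298 .nil (.cons 1298 .nil .nil)) (.cons 1362 (.cons 1298 .nil (.cons 1298 .nil .nil)) .nil)) .nil)) (.cons 1235 (.cons 1238 (.cons 1362 (.cons 1298 .nil (.cons 1298 .nil .nil)) (.cons 1362 (.cons 1298 .nil (.cons 1298 .nil .nil)) .nil)) (.cons 1238 (.cons 1362 (.cons 1298 .nil (.cons 1298 .nil .nil)) (.cons 1362 (.cons 1298 .nil (.cons 1298 .nil .nil)) .nil)) .nil)) .nil)) (.cons 1173 (.cons 1235 (.cons 1238 (.cons 1362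 (.cons 1298 .nil (.cons 1298 .nil .nil)) (.cons 1362 (.cons 1298 .nil (.cons 1298 .nil .nil)) .nil)) (.cons 1238 (.cons 1362 (.cons 1298 .nil (.cons 1298 .nil .nil)) (.cons 1362 (.cons 1298 .nil (.cons 1298 .nil .nil)) .nil)) .nil)) (.cons 1235 (.cons 1238 (.cons 1362 (.cons 1298 .nil (.cons 1298 .nil .nil)) (.cons 1362 (.cons 1298 .nil (.cons 1298 .nil .nil)) .nil)) (.cons 1238 (.cons 1362 (.cons 1298 .nil (.cons 1298 .nil .nil)) (.cons 1362 (.cons 1298 .nil (.cons 1298 .nil .nil)) .nil)) .nil)) .nil)) .nil)) (.cons 1364 (.cons 1173 (.cons 1235 (.cons 1238 (.cons 1362 (.cons 1298 .nil (.cons 1298 .nil .nil)) (.cons 1362 (.cons 1298 .nil (.cons 1298 .nil .nil)) .nil)) (.cons 1238 (.cons 1362 (.cons 1298 .nil (.cons 1298 .nil .nil)) (.cons 1362 (.cons 1298 .nil (.cons 1298 .nil .nil)) .nil)) .nil)) (.cons 1235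 (.cons 1238 (.cons 1362 (.cons 1298 .nil (.cons 1298 .nil .nil)) (.cons 1362 (.cons 1298 .nil (.cons 1298 .nil .nil)) .nil)) (.cons 1238 (.cons 1362 (.cons 1298 .nil (.cons 1298 .nil .nil)) (.cons 1362 (.cons 1298 .nil (.cons 1298 .nil .nil)) .nil)) .nil)) .nil)) (.cons 1173 (.cons 1235 (.cons 1238 (.cons 1362 (.cons 1298 .nil (.cons 1298 .nil .nil)) (.cons 1362 (.cons 1298 .nil (.cons 1298 .nil .nil)) .nil)) (.cons 1238 (.cons 1362 (.cons 1298 .nil (.cons 1298 .nil .nil)) (.cons 1362 (.cons 1298 .nil (.cons 1298 .nil .nil)) .nil)) .nil)) (.cons 1235 (.cons 1238 (.cons 1362 (.cons 1298 .nil (.cons 1298 .nil .nil)) (.cons 1362 (.cons 1298 .nil (.cons 1298 .nil .nil)) .nil)) (.cons 1238 (.cons 1362 (.cons 1298 .nil (.cons 1298 .nil .nil)) (.cons 1362 (.cons 1298 .nil (.cons 1298 .nil .nil)) .nil)) .nil)) .nil))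 .nil)) .nil)) (.cons 1363 (.cons 1364 (.cons 1173 (.cons 1235 (.cons 1238 (.cons 1362 (.cons 1298 .nil (.cons 1298 .nil .nil)) (.cons 1362 (.cons 1298 .nil (.cons 1298 .nil .nil)) .nil)) (.cons 1238 (.cons 1362 (.cons 1298 .nil (.cons 1298 .nil .nil)) (.cons 1362 (.cons 1298 .nil (.cons 1298 .nil .nil)) .nil)) .nil)) (.cons 1235 (.cons 1238 (.cons 1362 (.cons 1298 .nil (.cons 1298 .nil .nil)) (.cons 1362 (.cons 1298 .nil (.cons 1298 .nil .nil)) .nil)) (.cons 1238 (.cons 1362 (.cons 1298 .nil (.cons 1298 .nil .nil)) (.cons 1362 (.cons 1298 .nil (.cons 1298 .nil .nil)) .nil)) .nil)) .nil)) (.cons 1173 (.cons 1235 (.cons 1238 (.cons 1362 (.cons 1298 .nil (.cons 1298 .nil .nil)) (.cons 1362 (.cons 1298 .nil (.cons 1298 .nil .nil)) .nil)) (.cons 1238 (.cons 1362 (.cons 1298 .nil (.cons 1298 .nil .nil)) (.cons 1362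 (.cons 1298 .nil (.cons 1298 .nil .nil)) .nil)) .nil)) (.cons 1235 (.cons 1238 (.cons 1362 (.cons 1298 .nil (.cons 1298 .nil .nil)) (.cons 1362 (.cons 1298 .nil (.cons 1298 .nil .nil)) .nil)) (.cons 1238 (.cons 1362 (.cons 1298 .nil (.cons 1298 .nil .nil)) (.cons 1362 (.cons 1298 .nil (.cons 1298 .nil .nil)) .nil)) .nil)) .nil)) .nil)) (.cons 1364 (.cons 1173 (.cons 1235 (.cons 1238 (.cons 1362 (.cons 1298 .nil (.cons 1298 .nil .nil)) (.cons 1362 (.cons 1298 .nil (.cons 1298 .nil .nil)) .nil)) (.cons 1238 (.cons 1362 (.cons 1298 .nil (.cons 1298 .nil .nil)) (.cons 1362 (.cons 1298 .nil (.cons 1298 .nil .nil)) .nil)) .nil)) (.cons 1235 (.cons 1238 (.cons 1362 (.cons 1298 .nil (.cons 1298 .nil .nil)) (.cons 1362 (.cons 1298 .nil (.cons 1298 .nil .nil)) .nil)) (.cons 1238 (.cons 1362 (.cons 1298 .nil (.cons 1298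 .nil .nil)) (.cons 1362 (.cons 1298 .nil (.cons 1298 .nil .nil)) .nil)) .nil)) .nil)) (.cons 1173 (.cons 1235 (.cons 1238 (.cons 1362 (.cons 1298 .nil (.cons 1298 .nil .nil)) (.cons 1362 (.cons 1298 .nil (.cons 1298 .nil .nil)) .nil)) (.cons 1238 (.cons 1362 (.cons 1298 .nil (.cons 1298 .nil .nil)) (.cons 1362 (.cons 1298 .nil (.cons 1298 .nil .nil)) .nil)) .nil)) (.cons 1235 (.cons 1238 (.cons 1362 (.cons 1298 .nil (.cons 1298 .nil .nil)) (.cons 1362 (.cons 1298 .nil (.cons 1298 .nil .nil)) .nil)) (.cons 1238 (.cons 1362 (.cons 1298 .nil (.cons 1298 .nil .nil)) (.cons 1362 (.cons 1298 .nil (.cons 1298 .nil .nil)) .nil)) .nil)) .nil)) .nil)) .nil)) .nil)) .nil)) (.cons 1299 (.cons 1301 (.cons 1363 (.cons 1364 (.cons 1173 (.cons 1235 (.cons 1238 (.cons 1362 (.cons 1298 .nil (.cons 1298 .nil .nil)) (.cons 1362 (.cons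 1298 .nil (.cons 1298 .nil .nil)) .nil)) (.cons 1238 (.cons 1362 (.cons 1298 .nil (.cons 1298 .nil .nil)) (.cons 1362 (.cons 1298 .nil (.cons 1298 .nil .nil)) .nil)) .nil)) (.cons 1235 (.cons 1238 (.cons 1362 (.cons 1298 .nil (.cons 1298 .nil .nil)) (.cons 1362 (.cons 1298 .nil (.cons 1298 .nil .nil)) .nil)) (.cons 1238 (.cons 1362 (.cons 1298 .nil (.cons 1298 .nil .nil)) (.cons 1362 (.cons 1298 .nil (.cons 1298 .nil .nil)) .nil)) .nil)) .nil)) (.cons 1173 (.cons 1235 (.cons 1238 (.cons 1362 (.cons 1298 .nil (.cons 1298 .nil .nil)) (.cons 1362 (.cons 1298 .nil (.cons 1298 .nil .nil)) .nil)) (.cons 1238 (.cons 1362 (.cons 1298 .nil (.cons 1298 .nil .nil)) (.cons 1362 (.cons 1298 .nil (.cons 1298 .nil .nil)) .nil)) .nil)) (.cons 1235 (.cons 1238 (.cons 1362 (.cons 1298 .nil (.cons 1298 .nil .nil)) (.cons 1362 (.cons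 1298 .nil (.cons 1298 .nil .nil)) .nil)) (.cons 1238 (.cons 1362 (.cons 1298 .nil (.cons 1298 .nil .nil)) (.cons 1362 (.cons 1298 .nil (.cons 1298 .nil .nil)) .nil)) .nil)) .nil)) .nil)) (.cons 1364 (.cons 1173 (.cons 1235 (.cons 1238 (.cons 1362 (.cons 1298 .nil (.cons 1298 .nil .nil)) (.cons 1362 (.cons 1298 .nil (.cons 1298 .nil .nil)) .nil)) (.cons 1238 (.cons 1362 (.cons 1298 .nil (.cons 1298 .nil .nil)) (.cons 1362 (.cons 1298 .nil (.cons 1298 .nil .nil)) .nil)) .nil)) (.cons 1235 (.cons 1238 (.cons 1362 (.cons 1298 .nil (.cons 1298 .nil .nil)) (.cons 1362 (.cons 1298 .nil (.cons 1298 .nil .nil)) .nil)) (.cons 1238 (.cons 1362 (.cons 1298 .nil (.cons 1298 .nil .nil)) (.cons 1362 (.cons 1298 .nil (.cons 1298 .nil .nil)) .nil)) .nil)) .nil)) (.cons 1173 (.cons 1235 (.cons 1238 (.cons 1362 (.cons 1298 .nil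 (.cons 1298 .nil .nil)) (.cons 1362 (.cons 1298 .nil (.cons 1298 .nil .nil)) .nil)) (.cons 1238 (.cons 1362 (.cons 1298 .nil (.cons 1298 .nil .nil)) (.cons 1362 (.cons 1298 .nil (.cons 1298 .nil .nil)) .nil)) .nil)) (.cons 1235 (.cons 1238 (.cons 1362 (.cons 1298 .nil (.cons 1298 .nil .nil)) (.cons 1362 (.cons 1298 .nil (.cons 1298 .nil .nil)) .nil)) (.cons 1238 (.cons 1362 (.cons 1298 .nil (.cons 1298 .nil .nil)) (.cons 1362 (.cons 1298 .nil (.cons 1298 .nil .nil)) .nil)) .nil)) .nil)) .nil)) .nil)) (.cons 1363 (.cons 1364 (.cons 1173 (.cons 1235 (.cons 1238 (.cons 1362 (.cons 1298 .nil (.cons 1298 .nil .nil)) (.cons 1362 (.cons 1298 .nil (.cons 1298 .nil .nil)) .nil)) (.cons 1238 (.cons 1362 (.cons 1298 .nil (.cons 1298 .nil .nil)) (.cons 1362 (.cons 1298 .nil (.cons 1298 .nil .nil)) .nil)) .nil)) (.cons 1235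 (.cons 1238 (.cons 1362 (.cons 1298 .nil (.cons 1298 .nil .nil)) (.cons 1362 (.cons 1298 .nil (.cons 1298 .nil .nil)) .nil)) (.cons 1238 (.cons 1362 (.cons 1298 .nil (.cons 1298 .nil .nil)) (.cons 1362 (.cons 1298 .nil (.cons 1298 .nil .nil)) .nil)) .nil)) .nil)) (.cons 1173 (.cons 1235 (.cons 1238 (.cons 1362 (.cons 1298 .nil (.cons 1298 .nil .nil)) (.cons 1362 (.cons 1298 .nil (.cons 1298 .nil .nil)) .nil)) (.cons 1238 (.cons 1362 (.cons 1298 .nil (.cons 1298 .nil .nil)) (.cons 1362 (.cons 1298 .nil (.cons 1298 .nil .nil)) .nil)) .nil)) (.cons 1235 (.cons 1238 (.cons 1362 (.cons 1298 .nil (.cons 1298 .nil .nil)) (.cons 1362 (.cons 1298 .nil (.cons 1298 .nil .nil)) .nil)) (.cons 1238 (.cons 1362 (.cons 1298 .nil (.cons 1298 .nil .nil)) (.cons 1362 (.cons 1298 .nil (.cons 1298 .nil .nil)) .nil)) .nil)) .nil))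 .nil)) (.cons 1364 (.cons 1173 (.cons 1235 (.cons 1238 (.cons 1362 (.cons 1298 .nil (.cons 1298 .nil .nil)) (.cons 1362 (.cons 1298 .nil (.cons 1298 .nil .nil)) .nil)) (.cons 1238 (.cons 1362 (.cons 1298 .nil (.cons 1298 .nil .nil)) (.cons 1362 (.cons 1298 .nil (.cons 1298 .nil .nil)) .nil)) .nil)) (.cons 1235 (.cons 1238 (.cons 1362 (.cons 1298 .nil (.cons 1298 .nil .nil)) (.cons 1362 (.cons 1298 .nil (.cons 1298 .nil .nil)) .nil)) (.cons 1238 (.cons 1362 (.cons 1298 .nil (.cons 1298 .nil .nil)) (.cons 1362 (.cons 1298 .nil (.cons 1298 .nil .nil)) .nil)) .nil)) .nil)) (.cons 1173 (.cons 1235 (.cons 1238 (.cons 1362 (.cons 1298 .nil (.cons 1298 .nil .nil)) (.cons 1362 (.cons 1298 .nil (.cons 1298 .nil .nil)) .nil)) (.cons 1238 (.cons 1362 (.cons 1298 .nil (.cons 1298 .nil .nil)) (.cons 1362 (.cons 1298 .nil (.cons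 1298 .nil .nil)) .nil)) .nil)) (.cons 1235 (.cons 1238 (.cons 1362 (.cons 1298 .nil (.cons 1298 .nil .nil)) (.cons 1362 (.cons 1298 .nil (.cons 1298 .nil .nil)) .nil)) (.cons 1238 (.cons 1362 (.cons 1298 .nil (.cons 1298 .nil .nil)) (.cons 1362 (.cons 1298 .nil (.cons 1298 .nil .nil)) .nil)) .nil)) .nil)) .nil)) .nil)) .nil)) (.cons 1301 (.cons 1363 (.cons 1364 (.cons 1173 (.cons 1235 (.cons 1238 (.cons 1362 (.cons 1298 .nil (.cons 1298 .nil .nil)) (.cons 1362 (.cons 1298 .nil (.cons 1298 .nil .nil)) .nil)) (.cons 1238 (.cons 1362 (.cons 1298 .nil (.cons 1298 .nil .nil)) (.cons 1362 (.cons 1298 .nil (.cons 1298 .nil .nil)) .nil)) .nil)) (.cons 1235 (.cons 1238 (.cons 1362 (.cons 1298 .nil (.cons 1298 .nil .nil)) (.cons 1362 (.cons 1298 .nil (.cons 1298 .nil .nil)) .nil)) (.cons 1238 (.cons 1362 (.cons 1298 .nil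 (.cons 1298 .nil .nil)) (.cons 1362 (.cons 1298 .nil (.cons 1298 .nil .nil)) .nil)) .nil)) .nil)) (.cons 1173 (.cons 1235 (.cons 1238 (.cons 1362 (.cons 1298 .nil (.cons 1298 .nil .nil)) (.cons 1362 (.cons 1298 .nil (.cons 1298 .nil .nil)) .nil)) (.cons 1238 (.cons 1362 (.cons 1298 .nil (.cons 1298 .nil .nil)) (.cons 1362 (.cons 1298 .nil (.cons 1298 .nil .nil)) .nil)) .nil)) (.cons 1235 (.cons 1238 (.cons 1362 (.cons 1298 .nil (.cons 1298 .nil .nil)) (.cons 1362 (.cons 1298 .nil (.cons 1298 .nil .nil)) .nil)) (.cons 1238 (.cons 1362 (.cons 1298 .nil (.cons 1298 .nil .nil)) (.cons 1362 (.cons 1298 .nil (.cons 1298 .nil .nil)) .nil)) .nil)) .nil)) .nil)) (.cons 1364 (.cons 1173 (.cons 1235 (.cons 1238 (.cons 1362 (.cons 1298 .nil (.cons 1298 .nil .nil)) (.cons 1362 (.cons 1298 .nil (.cons 1298 .nil .nil)) .nil))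 (.cons 1238 (.cons 1362 (.cons 1298 .nil (.cons 1298 .nil .nil)) (.cons 1362 (.cons 1298 .nil (.cons 1298 .nil .nil)) .nil)) .nil)) (.cons 1235 (.cons 1238 (.cons 1362 (.cons 1298 .nil (.cons 1298 .nil .nil)) (.cons 1362 (.cons 1298 .nil (.cons 1298 .nil .nil)) .nil)) (.cons 1238 (.cons 1362 (.cons 1298 .nil (.cons 1298 .nil .nil)) (.cons 1362 (.cons 1298 .nil (.cons 1298 .nil .nil)) .nil)) .nil)) .nil)) (.cons 1173 (.cons 1235 (.cons 1238 (.cons 1362 (.cons 1298 .nil (.cons 1298 .nil .nil)) (.cons 1362 (.cons 1298 .nil (.cons 1298 .nil .nil)) .nil)) (.cons 1238 (.cons 1362 (.cons 1298 .nil (.cons 1298 .nil .nil)) (.cons 1362 (.cons 1298 .nil (.cons 1298 .nil .nil)) .nil)) .nil)) (.cons 1235 (.cons 1238 (.cons 1362 (.cons 1298 .nil (.cons 1298 .nil .nil)) (.cons 1362 (.cons 1298 .nil (.cons 1298 .nil .nil)) .nil))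 (.cons 1238 (.cons 1362 (.cons 1298 .nil (.cons 1298 .nil .nil)) (.cons 1362 (.cons 1298 .nil (.cons 1298 .nil .nil)) .nil)) .nil)) .nil)) .nil)) .nil)) (.cons 1363 (.cons 1364 (.cons 1173 (.cons 1235 (.cons 1238 (.cons 1362 (.cons 1298 .nil (.cons 1298 .nil .nil)) (.cons 1362 (.cons 1298 .nil (.cons 1298 .nil .nil)) .nil)) (.cons 1238 (.cons 1362 (.cons 1298 .nil (.cons 1298 .nil .nil)) (.cons 1362 (.cons 1298 .nil (.cons 1298 .nil .nil)) .nil)) .nil)) (.cons 1235 (.cons 1238 (.cons 1362 (.cons 1298 .nil (.cons 1298 .nil .nil)) (.cons 1362 (.cons 1298 .nil (.cons 1298 .nil .nil)) .nil)) (.cons 1238 (.cons 1362 (.cons 1298 .nil (.cons 1298 .nil .nil)) (.cons 1362 (.cons 1298 .nil (.cons 1298 .nil .nil)) .nil)) .nil)) .nil)) (.cons 1173 (.cons 1235 (.cons 1238 (.cons 1362 (.cons 1298 .nil (.cons 1298 .nil .nil))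 (.cons 1362 (.cons 1298 .nil (.cons 1298 .nil .nil)) .nil)) (.cons 1238 (.cons 1362 (.cons 1298 .nil (.cons 1298 .nil .nil)) (.cons 1362 (.cons 1298 .nil (.cons 1298 .nil .nil)) .nil)) .nil)) (.cons 1235 (.cons 1238 (.cons 1362 (.cons 1298 .nil (.cons 1298 .nil .nil)) (.cons 1362 (.cons 1298 .nil (.cons 1298 .nil .nil)) .nil)) (.cons 1238 (.cons 1362 (.cons 1298 .nil (.cons 1298 .nil .nil)) (.cons 1362 (.cons 1298 .nil (.cons 1298 .nil .nil)) .nil)) .nil)) .nil)) .nil)) (.cons 1364 (.cons 1173 (.cons 1235 (.cons 1238 (.cons 1362 (.cons 1298 .nil (.cons 1298 .nil .nil)) (.cons 1362 (.cons 1298 .nil (.cons 1298 .nil .nil)) .nil)) (.cons 1238 (.cons 1362 (.cons 1298 .nil (.cons 1298 .nil .nil)) (.cons 1362 (.cons 1298 .nil (.cons 1298 .nil .nil)) .nil)) .nil)) (.cons 1235 (.cons 1238 (.cons 1362 (.cons 1298 .nil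 (.cons 1298 .nil .nil)) (.cons 1362 (.cons 1298 .nil (.cons 1298 .nil .nil)) .nil)) (.cons 1238 (.cons 1362 (.cons 1298 .nil (.cons 1298 .nil .nil)) (.cons 1362 (.cons 1298 .nil (.cons 1298 .nil .nil)) .nil)) .nil)) .nil)) (.cons 1173 (.cons 1235 (.cons 1238 (.cons 1362 (.cons 1298 .nil (.cons 1298 .nil .nil)) (.cons 1362 (.cons 1298 .nil (.cons 1298 .nil .nil)) .nil)) (.cons 1238 (.cons 1362 (.cons 1298 .nil (.cons 1298 .nil .nil)) (.cons 1362 (.cons 1298 .nil (.cons 1298 .nil .nil)) .nil)) .nil)) (.cons 1235 (.cons 1238 (.cons 1362 (.cons 1298 .nil (.cons 1298 .nil .nil)) (.cons 1362 (.cons 1298 .nil (.cons 1298 .nil .nil)) .nil)) (.cons 1238 (.cons 1362 (.cons 1298 .nil (.cons 1298 .nil .nil)) (.cons 1362 (.cons 1298 .nil (.cons 1298 .nil .nil)) .nil)) .nil)) .nil)) .nil)) .nil)) .nil)) .nil)) .nil)) .nil))))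 .nil))

/-- A part of the decision tree. -/
def tr6_0_17 : Tr :=
  (.Y 47 67 (.D 5 34 67 6 36 (.C 6)) (.Y 59 69 (.D 5 34 69 8 48 (.C 8)) (.Y 70 70 (.D 5 34 70 11 61 (.C 11)) (.Y 71 71 (.D 5 34 71 10 60 (.C 10)) (.Y 2 12 (.Y 7 37 (.D 2 13 7 6 36 (.C 6)) (.Y 44 54 (.D 2 20 54 6 36 (.C 6)) (.Y 46 66 (.D 5 34 66 7 37 (.C 7)) (.Y 18 38 tr6_0_16 (.Y 19 39 (.D 12 3 19 18 38 (.C 18)) (.Y 30 40 (.D 13 5 30 18 38 (.C 18)) (.R (.cons 1236 (.cons 1299 (.cons 1235 (.cons 1298 (.cons 1234 (.cons 1297 (.cons 1233 (.cons 1296 (.cons 1232 (.cons 1295 (.cons 1231 (.cons 1294 (.cons 1230 (.cons 1293 (.cons 1229 (.cons 1292 (.cons 1363 (.cons 1362 .nil (.cons 1362 .nil .nil)) .nil) .nil) .nil) .nil) .nil) .nil) .nil) .nil) .nil) .nil) .nil) .nil) .nil) .nil) .nil) .nil) .nil)))))))) (.Y 4 24 (.D 13 4 25 12 2 (.C 2)) (.Y 21 51 (.D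 3 20 51 2 12 (.C 2)) (.Y 23 63 (.D 5 34 63 2 12 (.C 2)) (.Y 33 53 (.D 5 33 50 2 12 (.C 2)) (.Y 35 65 (.D 5 34 65 4 24 (.C 4)) (.R (.cons 1299 (.cons 1363 (.cons 1362 .nil (.cons 1362 .nil .nil)) (.cons 1236 (.cons 1235 .nil (.cons 1237 (.cons 1173 (.cons 1301 (.cons 1364 .nil (.cons 1364 .nil .nil)) .nil) (.cons 1173 (.cons 1174 (.cons 1110 .nil .nil) .nil) .nil)) .nil)) (.cons 1363 .nil .nil))) .nil))))))))))))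

/-- A part of the decision tree. -/
def tr6_0_18 : Tr :=
  (.Y 14 14 (.D 3 14 13 0 0 (.C 0)) (.Y 15 15 (.D 3 15 13 1 1 (.C 1)) (.Y 56 56 (.D 3 20 56 9 49 (.C 9)) (.Y 57 57 (.D 3 20 57 8 48 (.C 8)) (.Y 11 61 (.Y 4 24 (.D 4 34 61 1 1 (.C 1)) (.Y 5 25 (.D 5 34 61 0 0 (.C 0)) (.Y 22 62 (.D 3 22 61 0 0 (.C 0)) (.Y 23 63 (.D 3 23 61 1 1 (.C 1)) (.Y 28 28 (.D 11 64 28 5 25 (.C 5)) (.Y 29 29 (.D 11 64 29 4 24 (.C 4)) (.Y 31 41 (.D 11 64 31 6 36 (.C 6)) (.Y 32 52 (.D 3 20 52 5 25 (.C 5)) (.Y 33 53 (.D 3 20 53 4 24 (.C 4)) (.Y 70 70 (.D 11 70 61 0 0 (.C 0)) (.Y 71 71 (.D 11 71 61 1 1 (.C 1)) (.Y 44 54 (.D 3 20 54 7 37 (.D 13 11 64 16 26 (.D 37 3 16 40 30 (.T 27)))) (.Y 7 37 (.D 37 3 20 44 54 (.C 44)) (.Y 30 40 (.D 11 64 30 7 37 (.C 7)) (.R (.cons 1236 (.cons 1237 .nil (.cons 1237 .nil (.cons 1237 .nil (.cons 1237 .nil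 .nil)))) .nil)))))))))))))))) (.Y 16 26 (.D 3 16 34 11 61 (.C 11)) (.Y 58 68 (.D 3 20 58 11 61 (.C 11)) (.Y 5 25 (.Y 10 60 (.D 5 34 60 1 1 (.C 1)) (.Y 17 27 (.D 3 17 25 1 1 (.C 1)) (.Y 28 28 (.D 5 28 25 0 0 (.C 0)) (.Y 29 29 (.D 5 29 25 1 1 (.C 1)) tr6_0_17)))) (.Y 22 62 (.D 3 22 64 5 25 (.C 5)) (.Y 32 52 (.D 3 20 52 5 25 (.C 5)) (.Y 7 37 (.Y 2 12 (.D 2 13 7 6 36 (.C 6)) (.Y 18 38 (.D 3 18 37 0 0 (.C 0)) (.Y 19 39 (.D 3 19 37 1 1 (.C 1)) (.Y 21 51 (.D 3 20 51 2 12 (.C 2)) (.Y 30 40 (.D 7 40 34 11 61 (.C 11)) (.Y 46 66 (.D 7 46 64 5 25 (.C 5)) (.Y 59 69 (.D 20 59 64 17 27 (.T 55)) (.R (.cons 1299 (.cons 1236 (.cons 1237 (.cons 1301 (.cons 1364 .nil .nil) (.cons 1301 .nil (.cons 1301 .nil (.cons 1301 (.cons 1364 (.cons 1363 .nil .nil) .nil) .nil)))) .nil) (.cons 1236 .nil (.cons 1363 (.cons 1364 (.cons 1301 .nil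 .nil) .nil) .nil))) .nil))))))))) (.Y 44 54 (.D 3 20 54 7 37 (.C 7)) (.Y 2 12 (.Y 4 24 (.D 2 13 4 5 25 (.C 5)) (.Y 10 60 (.D 2 13 10 11 61 (.C 11)) (.Y 17 27 (.D 3 17 34 10 60 (.C 10)) (.Y 23 63 (.D 3 23 64 4 24 (.C 4)) (.Y 33 53 (.D 3 20 53 4 24 (.C 4)) (.Y 59 69 (.D 3 20 59 10 60 (.C 10)) (.R (.cons 1299 (.cons 1236 (.cons 1235 (.cons 1172 (.cons 1173 (.cons 1237 (.cons 1301 (.cons 1364 (.cons 1363 (.cons 1362 (.cons 1298 .nil .nil) .nil) .nil) .nil) .nil) .nil) .nil) .nil) .nil) (.cons 1363 (.cons 1364 (.cons 1301 (.cons 1362 (.cons 1427 (.cons 1426 .nil .nil) .nil) .nil) .nil) .nil) .nil)) .nil)))))))) (.Y 21 51 (.D 3 20 51 2 12 (.C 2)) (.R (.cons 1299 (.cons 1236 (.cons 1363 (.cons 1364 .nil (.cons 1364 .nil (.cons 1362 (.cons 1298 (.cons 1235 .nil .nil) .nil) .nil))) (.cons 1235 (.cons 1363 (.cons 1364 .nil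 (.cons 1364 .nil (.cons 1362 (.cons 1298 .nil .nil) .nil))) (.cons 1172 (.cons 1173 .nil .nil) .nil)) .nil)) (.cons 1236 .nil (.cons 1363 (.cons 1364 .nil .nil) .nil))) .nil))))))))))))))))

/-- A part of the decision tree. -/
def tr6_0_19 : Tr :=
  (.Y 1 1 (.S 1 1 0 0 (.D 0 1 3 2 12 (.C 2))) (.Y 15 15 (.D 3 15 13 1 1 (.C 1)) (.Y 0 0 (.Y 4 24 (.D 0 4 34 10 60 (.C 10)) (.Y 8 48 (.D 0 8 54 6 36 (.C 6)) (.Y 19 39 (.D 0 3 19 6 36 (.C 6)) (.Y 23 63 (.D 3 23 64 4 24 (.C 4)) (.Y 5 25 (.Y 29 29 (.D 5 29 25 1 1 (.C 1)) (.Y 30 40 (.D 0 5 30 7 37 (.C 7)) (.Y 31 41 (.D 0 5 31 6 36 (.C 6)) (.Y 32 52 (.D 5 32 54 7 37 (.C 7)) (.R (.cons 1236 (.cons 1299 .nil (.cons 1299 (.cons 1237 (.cons 1301 .nil (.cons 1301 .nil (.cons 1301 (.cons 1364 (.cons 1363 (.cons 1362 .nil .nil) .nil) .nil) (.cons 1173 .nil .nil)))) .nil) (.cons 1299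 .nil .nil))) .nil)))))) (.Y 11 61 (.D 0 11 64 5 25 (.C 5)) (.Y 16 26 (.D 0 3 16 5 25 (.C 5)) (.Y 22 62 (.D 3 22 64 5 25 (.C 5)) (.R (.cons 1301 (.cons 1237 (.cons 1236 (.cons 1299 .nil (.cons 1173 .nil .nil)) (.cons 1236 (.cons 1299 .nil (.cons 1173 .nil .nil)) .nil)) (.cons 1237 (.cons 1236 (.cons 1299 .nil (.cons 1173 .nil .nil)) (.cons 1236 (.cons 1299 .nil (.cons 1173 .nil .nil)) .nil)) .nil)) .nil)))))))))) (.Y 14 14 (.D 3 14 13 0 0 (.C 0)) (.Y 4 24 (.Y 5 25 (.D 13 4 25 12 2 (.C 2)) (.Y 11 61 (.D 4 34 61 1 1 (.C 1)) (.Y 16 26 (.D 3 16 24 1 1 (.C 1)) (.Y 22 62 (.D 4 34 62 2 12 (.C 2)) (.Y 28 28 (.D 4 28 24 0 0 (.C 0)) (.Y 29 29 (.D 4 29 24 1 1 (.C 1)) (.Y 31 41 (.D 4 31 44 9 49 (.C 9)) (.Y 32 52 (.D 4 32 54 6 36 (.C 6)) (.Y 33 53 (.D 4 33 54 7 37 (.C 7)) (.Y 35 65 (.D 4 34 65 5 25 (.C 5)) (.Y 46 66 (.D 4 34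 66 6 36 (.C 6)) (.Y 47 67 (.D 4 34 67 7 37 (.C 7)) (.R (.cons 1236 (.cons 1299 .nil (.cons 1299 (.cons 1237 (.cons 1301 (.cons 1364 .nil .nil) (.cons 1301 .nil (.cons 1173 .nil .nil))) .nil) (.cons 1237 .nil .nil))) .nil)))))))))))))) (.Y 23 63 (.D 3 23 64 4 24 (.C 4)) (.Y 5 25 (.Y 11 61 (.D 5 34 61 0 0 (.C 0)) (.Y 16 26 (.D 3 16 25 0 0 (.C 0)) (.Y 28 28 (.D 5 28 25 0 0 (.C 0)) (.Y 29 29 (.D 5 29 25 1 1 (.C 1)) (.Y 30 40 (.D 5 30 44 9 49 (.C 9)) (.Y 32 52 (.D 5 32 54 7 37 (.C 7)) (.Y 33 53 (.D 5 33 54 6 36 (.C 6)) (.Y 35 65 (.D 5 34 65 4 24 (.C 4)) (.Y 46 66 (.D 5 34 66 7 37 (.C 7)) (.R (.cons 1237 (.cons 1236 .nil (.cons 1301 .nil (.cons 1236 (.cons 1299 (.cons 1173 (.cons 1172 .nil .nil) .nil) .nil) .nil))) .nil))))))))))) (.Y 22 62 (.D 3 22 64 5 25 (.C 5)) (.Y 8 48 (.Y 30 40 (.D 8 54 40 4 24 (.C 4)) (.Y 31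 41 (.D 8 54 41 5 25 (.C 5)) (.Y 32 52 (.D 8 52 34 10 60 (.C 10)) (.Y 46 66 (.D 8 54 46 10 60 (.C 10)) (.Y 58 68 (.D 8 58 64 4 24 (.C 4)) (.Y 59 69 (.D 8 59 64 5 25 (.C 5)) (.Y 11 61 (.Y 28 28 (.D 11 64 28 5 25 (.C 5)) (.R (.cons 1236 (.cons 1299 (.cons 1235 (.cons 1298 .nil .nil) .nil) (.cons 1299 (.cons 1237 (.cons 1301 .nil (.cons 1301 (.cons 1364 .nil (.cons 1364 .nil .nil)) (.cons 1301 .nil .nil))) (.cons 1235 .nil .nil)) (.cons 1237 .nil .nil))) .nil))) (.R (.cons 1364 (.cons 1301 (.cons 1363 (.cons 1299 .nil .nil) .nil) (.cons 1301 (.cons 1365 .nil (.cons 1365 (.cons 1237 (.cons 1236 .nil (.cons 1236 (.cons 1173 .nil .nil) .nil)) .nil) .nil)) .nil)) .nil))))))))) (.Y 19 39 (.D 3 19 44 8 48 (.C 8)) (.Y 11 61 (.Y 28 28 (.D 11 64 28 5 25 (.C 5)) (.Y 29 29 (.D 11 64 29 4 24 (.C 4)) (.Y 30 40 (.D 11 64 30 7 37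 (.C 7)) (.R (.cons 1301 (.cons 1364 (.cons 1363 (.cons 1299 (.cons 1236 .nil .nil) .nil) .nil) (.cons 1237 (.cons 1236 (.cons 1299 (.cons 1363 (.cons 1364 .nil .nil) .nil) .nil) .nil) .nil)) .nil))))) (.R (.cons 1364 (.cons 1363 (.cons 1427 (.cons 1426 (.cons 1490 (.cons 1489 (.cons 1553 (.cons 1552 (.cons 1616 (.cons 1615 (.cons 1679 (.cons 1678 (.cons 1742 (.cons 1741 (.cons 1805 (.cons 1804 (.cons 1299 (.cons 1362 .nil (.cons 1236 .nil .nil)) .nil) .nil) .nil) .nil) .nil) .nil) .nil) .nil) .nil) .nil) .nil) .nil) .nil) .nil) .nil) .nil) .nil)))))))))))))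

/-- A part of the decision tree. -/
def tr6_0_20 : Tr :=
  (.Y 17 27 (.D 3 17 34 10 60 (.C 10)) (.Y 2 12 (.Y 8 48 (.D 2 13 8 9 49 (.C 9)) (.Y 11 61 (.D 2 13 11 10 60 (.C 10)) (.Y 16 26 (.D 2 16 34 10 60 (.C 10)) (.Y 19 39 (.D 3 19 44 8 48 (.C 8)) (.Y 30 40 (.D 64 30 44 68 58 (.T 15)) (.Y 58 68 (.D 34 68 54 30 40 (.C 30)) (.Y 0 0 (.Y 4 24 (.D 0 4 34 10 60 (.C 10)) (.Y 5 25 (.D 2 13 5 4 24 (.C 4)) (.Y 22 62 (.D 2 22 64 4 24 (.C 4)) (.Y 23 63 (.D 3 23 64 4 24 (.C 4)) (.Y 29 29 (.D 0 2 13 1 1 (.S 1 29 4 24 (.C 4))) (.Y 71 71 (.D 34 71 64 29 29 (.C 29)) (.Y 28 28 (.Y 31 41 (.D 41 28 31 42 42 (.C 42)) (.Y 32 52 (.D 28 32 54 30 40 (.C 30)) (.R (.cons 1236 (.cons 1237 .nil (.cons 1237 .nil (.cons 1299 .nil .nil))) .nil)))) (.Y 70 70 (.D 34 70 64 28 28 (.C 28)) (.Y 31 41 (.Y 32 52 (.D 31 44 52 29 29 (.C 29)) (.Y 33 53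 (.D 31 44 53 28 28 (.C 28)) (.Y 35 65 (.D 41 34 65 40 30 (.C 30)) (.R (.cons 1237 (.cons 1301 .nil (.cons 1236 .nil .nil)) .nil))))) (.Y 59 69 (.D 34 69 54 31 41 (.C 31)) (.Y 32 52 (.Y 33 53 (.D 52 33 54 55 45 (.C 45)) (.R (.cons 1299 (.cons 1236 (.cons 1237 (.cons 1301 (.cons 1363 (.cons 1364 (.cons 1365 .nil .nil) .nil) .nil) .nil) .nil) (.cons 1236 (.cons 1237 (.cons 1301 (.cons 1363 (.cons 1364 (.cons 1365 .nil .nil) .nil) .nil) .nil) .nil) .nil)) .nil))) (.R (.cons 1299 (.cons 1363 .nil (.cons 1363 .nil .nil)) .nil))))))))))))) (.Y 1 1 (.D 1 2 13 0 0 (.C 0)) (.Y 14 14 (.D 2 14 12 0 0 (.C 0)) (.Y 15 15 (.D 2 15 13 0 0 (.C 0)) (.Y 4 24 (.Y 28 28 (.D 4 28 24 0 0 (.C 0)) (.Y 29 29 (.D 4 29 24 1 1 (.C 1)) (.Y 31 41 (.D 4 31 44 9 49 (.C 9)) (.Y 32 52 (.D 4 32 54 6 36 (.C 6)) (.Y 33 53 (.D 4 33 54 7 37 (.C 7)) (.Y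 46 66 (.D 4 34 66 6 36 (.C 6)) (.Y 47 67 (.D 4 34 67 7 37 (.C 7)) (.R (.cons 1236 (.cons 1299 (.cons 1237 (.cons 1173 (.cons 1174 (.cons 1238 (.cons 1301 .nil .nil) .nil) .nil) (.cons 1173 (.cons 1174 (.cons 1301 (.cons 1364 (.cons 1363 .nil .nil) (.cons 1364 (.cons 1363 .nil .nil) .nil)) .nil) .nil) .nil)) .nil) .nil) .nil))))))))) (.Y 5 25 (.D 2 13 5 4 24 (.C 4)) (.Y 22 62 (.D 2 22 64 4 24 (.C 4)) (.Y 23 63 (.D 3 23 64 4 24 (.C 4)) (.Y 28 28 (.Y 31 41 (.D 41 28 31 42 42 (.C 42)) (.Y 32 52 (.D 28 32 54 30 40 (.C 30)) (.R (.cons 1301 (.cons 1237 (.cons 1236 .nil .nil) (.cons 1364 (.cons 1236 (.cons 1237 .nil (.cons 1237 (.cons 1173 .nil .nil) (.cons 1299 .nil .nil))) .nil) .nil)) .nil)))) (.Y 29 29 (.S 29 29 28 28 (.C 28)) (.Y 70 70 (.D 34 70 64 28 28 (.C 28)) (.Y 71 71 (.D 34 71 64 29 29 (.C 29)) (.Y 31 41 (.Y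 32 52 (.D 31 44 52 29 29 (.C 29)) (.Y 33 53 (.D 31 44 53 28 28 (.C 28)) (.Y 35 65 (.D 41 34 65 40 30 (.C 30)) (.R (.cons 1237 (.cons 1301 .nil (.cons 1236 .nil .nil)) .nil))))) (.R (.cons 1301 (.cons 1237 (.cons 1236 .nil .nil) (.cons 1364 (.cons 1237 (.cons 1236 .nil (.cons 1236 .nil .nil)) .nil) .nil)) .nil))))))))))))))))))))) tr6_0_19))

/-- A part of the decision tree. -/
def tr6_0_21 : Tr :=
  (.Y 21 51 (.D 3 21 54 6 36 (.C 6)) (.Y 56 56 (.D 44 56 54 42 42 (.C 42)) (.Y 57 57 (.D 44 57 54 43 43 (.C 43)) (.Y 10 60 (.Y 30 40 (.D 10 64 30 6 36 (.C 6)) (.Y 31 41 (.D 10 64 31 7 37 (.C 7)) (.Y 33 53 (.D 10 64 33 9 49 (.C 9)) (.Y 47 67 (.D 10 67 44 9 49 (.C 9)) (.Y 58 68 (.D 10 68 54 6 36 (.C 6)) (.Y 59 69 (.D 10 69 54 7 37 (.C 7)) (.Y 16 26 (.T 6) (.Y 1 1 (.S 1 1 0 0 (.D 1 10 64 5 25 (.D 13 0 5 16 26 (.C 16))))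 (.Y 2 12 (.D 12 10 64 16 26 (.C 16)) (.Y 5 25 (.D 5 34 60 1 1 (.C 1)) (.Y 11 61 (.D 13 10 61 12 2 (.C 2)) (.Y 15 15 (.D 3 15 13 1 1 (.C 1)) (.Y 22 62 (.D 3 22 60 1 1 (.C 1)) (.Y 29 29 (.D 10 64 29 5 25 (.C 5)) (.Y 35 65 (.D 10 64 35 11 61 (.C 11)) (.Y 71 71 (.D 10 71 60 1 1 (.C 1)) (.Y 0 0 (.Y 8 48 (.D 0 8 54 6 36 (.C 6)) (.Y 19 39 (.D 0 3 19 6 36 (.C 6)) (.Y 32 52 (.D 10 64 32 8 48 (.C 8)) (.R (.cons 1299 (.cons 1236 (.cons 1237 (.cons 1301 (.cons 1364 .nil .nil) .nil) .nil) .nil) .nil))))) (.Y 4 24 (.D 4 34 60 0 0 (.C 0)) (.R (.cons 1236 (.cons 1237 (.cons 1299 (.cons 1363 (.cons 1364 (.cons 1301 .nil .nil) .nil) .nil) .nil) (.cons 1237 (.cons 1299 (.cons 1235 .nil .nil) .nil) (.cons 1237 (.cons 1299 (.cons 1301 (.cons 1364 (.cons 1363 .nil .nil) .nil) .nil) .nil) .nil))) .nil)))))))))))))))))))) tr6_0_20))))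

/-- A part of the decision tree. -/
def tr6_0_22 : Tr :=
  (.Y 15 15 (.D 3 15 13 1 1 (.C 1)) (.Y 2 12 (.Y 7 37 (.D 2 13 7 6 36 (.C 6)) (.Y 8 48 (.D 2 13 8 9 49 (.C 9)) (.Y 11 61 (.D 11 64 30 7 37 (.C 7)) (.Y 16 26 (.D 2 16 30 6 36 (.C 6)) (.Y 21 51 (.D 12 3 21 20 50 (.C 20)) (.Y 4 24 (.Y 32 52 (.D 12 4 32 20 50 (.C 20)) (.Y 33 53 (.D 13 4 33 20 50 (.C 20)) (.Y 56 56 (.Y 57 57 (.R (.cons 1299 (.cons 1236 (.cons 1237 (.cons 1301 (.cons 1363 (.cons 1364 .nil (.cons 1364 .nil .nil)) (.cons 1364 .nil .nil)) (.cons 1301 (.cons 1363 (.cons 1364 .nil (.cons 1364 .nil .nil)) (.cons 1363 (.cons 1364 (.cons 1427 .nil (.cons 1427 .nil .nil)) (.cons 1364 (.cons 1173 (.cons 1235 (.cons 1238 (.cons 1362 (.cons 1426 .nil (.cons 1426 .nil .nil)) (.cons 1362 (.cons 1426 .nil (.cons 1426 .nil .nil)) .nil)) (.cons 1238 (.cons 1362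 (.cons 1298 .nil (.cons 1298 .nil .nil)) (.cons 1362 (.cons 1298 .nil (.cons 1298 .nil .nil)) .nil)) .nil)) (.cons 1235 (.cons 1238 (.cons 1174 .nil (.cons 1174 .nil .nil)) (.cons 1238 (.cons 1174 .nil (.cons 1174 .nil .nil)) .nil)) .nil)) (.cons 1173 (.cons 1235 (.cons 1238 (.cons 1362 (.cons 1426 .nil (.cons 1426 .nil .nil)) (.cons 1362 (.cons 1426 .nil (.cons 1426 .nil .nil)) .nil)) (.cons 1238 (.cons 1362 (.cons 1298 .nil (.cons 1298 .nil .nil)) (.cons 1362 (.cons 1298 .nil (.cons 1298 .nil .nil)) .nil)) .nil)) (.cons 1235 (.cons 1238 (.cons 1174 .nil (.cons 1174 .nil .nil)) (.cons 1238 (.cons 1174 .nil (.cons 1174 .nil .nil)) .nil)) .nil)) .nil)) .nil)) .nil)) .nil)) (.cons 1237 (.cons 1301 (.cons 1363 (.cons 1364 .nil (.cons 1364 .nil .nil)) (.cons 1364 .nil .nil)) (.cons 1301 (.cons 1363 (.cons 1364 .nil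 (.cons 1364 .nil .nil)) (.cons 1363 (.cons 1364 (.cons 1427 .nil (.cons 1427 .nil .nil)) (.cons 1364 (.cons 1173 (.cons 1174 .nil (.cons 1235 (.cons 1238 (.cons 1174 .nil (.cons 1174 .nil .nil)) (.cons 1238 (.cons 1174 .nil (.cons 1174 .nil .nil)) .nil)) .nil)) (.cons 1173 (.cons 1174 .nil (.cons 1235 (.cons 1238 (.cons 1174 .nil (.cons 1174 .nil .nil)) (.cons 1238 (.cons 1174 .nil (.cons 1174 .nil .nil)) .nil)) .nil)) .nil)) .nil)) .nil)) .nil)) .nil)) (.cons 1236 (.cons 1237 (.cons 1301 (.cons 1363 (.cons 1364 .nil (.cons 1364 .nil .nil)) (.cons 1364 .nil .nil)) (.cons 1301 (.cons 1363 (.cons 1364 .nil (.cons 1364 .nil .nil)) (.cons 1363 (.cons 1364 (.cons 1427 .nil (.cons 1427 .nil .nil)) (.cons 1364 (.cons 1173 (.cons 1235 (.cons 1172 .nil (.cons 1172 .nil .nil)) (.cons 1235 (.cons 1172 .nil (.cons 1172 .nil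 .nil)) .nil)) (.cons 1173 (.cons 1235 (.cons 1172 .nil (.cons 1172 .nil .nil)) (.cons 1235 (.cons 1172 .nil (.cons 1172 .nil .nil)) .nil)) .nil)) .nil)) .nil)) .nil)) (.cons 1237 (.cons 1301 (.cons 1363 (.cons 1364 .nil (.cons 1364 .nil .nil)) (.cons 1364 .nil .nil)) (.cons 1301 (.cons 1363 (.cons 1364 .nil (.cons 1364 .nil .nil)) (.cons 1363 (.cons 1364 (.cons 1427 .nil (.cons 1427 .nil .nil)) (.cons 1364 (.cons 1173 (.cons 1174 .nil (.cons 1235 (.cons 1172 .nil (.cons 1172 .nil .nil)) .nil)) (.cons 1173 (.cons 1174 .nil (.cons 1235 (.cons 1172 .nil (.cons 1172 .nil .nil)) .nil)) .nil)) .nil)) .nil)) .nil)) .nil)) .nil)) .nil)) (.R (.cons 1299 (.cons 1236 (.cons 1173 (.cons 1237 (.cons 1238 (.cons 1174 .nil .nil) (.cons 1301 (.cons 1363 (.cons 1364 .nil (.cons 1364 .nil .nil)) .nil) .nil)) .nil) (.cons 1172 (.cons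 1235 .nil .nil) .nil)) .nil) .nil))) (.Y 57 57 (.S 57 57 56 56 (.C 56)) (.R (.cons 1299 .nil .nil)))))) (.Y 5 25 (.D 2 13 5 4 24 (.C 4)) (.R (.cons 1364 (.cons 1363 (.cons 1299 (.cons 1362 (.cons 1427 (.cons 1426 .nil .nil) .nil) .nil) .nil) (.cons 1301 (.cons 1237 (.cons 1236 (.cons 1299 (.cons 1363 (.cons 1235 (.cons 1362 (.cons 1298 .nil .nil) .nil) .nil) .nil) .nil) .nil) .nil) .nil)) .nil))))))))) (.Y 4 24 (.Y 5 25 (.D 13 4 25 12 2 (.C 2)) (.Y 7 37 (.D 4 30 37 1 1 (.C 1)) (.Y 8 48 (.D 48 4 30 54 44 (.C 44)) (.Y 11 61 (.D 4 34 61 1 1 (.C 1)) (.Y 16 26 (.D 3 16 24 1 1 (.C 1)) (.Y 18 38 (.D 4 30 38 2 12 (.C 2)) (.R (.cons 1364 (.cons 1363 (.cons 1427 (.cons 1426 .nil .nil) (.cons 1299 (.cons 1362 .nil .nil) .nil)) (.cons 1363 (.cons 1427 .nil .nil) .nil)) .nil)))))))) (.Y 19 39 (.D 3 19 40 4 24 (.C 4)) (.Y 23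 63 (.D 3 23 64 4 24 (.C 4)) (.Y 5 25 (.Y 7 37 (.D 5 30 37 0 0 (.C 0)) (.Y 8 48 (.D 48 5 30 55 45 (.C 45)) (.Y 11 61 (.D 5 34 61 0 0 (.C 0)) (.Y 16 26 (.D 3 16 25 0 0 (.C 0)) (.Y 31 41 (.D 5 30 41 4 24 (.C 4)) (.R (.cons 1236 (.cons 1299 (.cons 1363 (.cons 1364 (.cons 1301 .nil .nil) .nil) .nil) (.cons 1237 (.cons 1364 (.cons 1301 .nil (.cons 1363 (.cons 1299 (.cons 1235 (.cons 1362 (.cons 1298 .nil .nil) .nil) .nil) .nil) .nil)) .nil) .nil)) .nil))))))) (.Y 18 38 (.D 3 18 40 5 25 (.C 5)) (.R (.cons 1236 (.cons 1237 (.cons 1173 .nil (.cons 1299 (.cons 1235 .nil (.cons 1235 (.cons 1172 (.cons 1173 (.cons 1109 .nil .nil) .nil) .nil) .nil)) .nil)) (.cons 1299 .nil (.cons 1299 .nil .nil))) .nil)))))))))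

/-- A part of the decision tree. -/
def tr6_0_23 : Tr :=
  (.Y 4 24 (.D 4 34 67 7 37 (.C 7)) (.Y 5 25 (.D 5 34 67 6 36 (.C 6)) (.Y 22 62 (.D 3 22 64 5 25 (.C 5)) (.Y 23 63 (.D 3 23 64 4 24 (.C 4)) (.Y 28 28 (.D 28 34 67 31 41 (.D 41 28 31 42 42 (.C 42))) (.Y 29 29 (.S 29 29 28 28 (.C 28)) (.Y 31 41 (.D 31 47 64 28 28 (.C 28)) (.Y 32 52 (.D 3 21 52 4 24 (.C 4)) (.Y 33 53 (.D 3 21 53 5 25 (.C 5)) (.Y 70 70 (.D 34 70 64 28 28 (.C 28)) (.Y 71 71 (.D 34 71 64 29 29 (.C 29)) (.Y 0 0 (.Y 10 60 (.D 0 10 64 4 24 (.C 4)) (.Y 11 61 (.D 0 11 64 5 25 (.C 5)) (.Y 16 26 (.D 0 3 16 5 25 (.C 5)) (.Y 17 27 (.D 0 3 17 4 24 (.C 4)) (.Y 18 38 (.D 0 3 18 7 37 (.C 7)) (.Y 19 39 (.D 0 3 19 6 36 (.C 6)) (.R (.cons 1236 (.cons 1237 (.cons 1301 (.cons 1364 (.cons 1173 (.cons 1238 (.cons 1365 (.cons 1302 .nil .nil) .nil) .nil) .nil) .nil)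 .nil) (.cons 1237 (.cons 1173 (.cons 1172 (.cons 1235 (.cons 1299 (.cons 1363 (.cons 1364 (.cons 1301 (.cons 1238 (.cons 1174 .nil .nil) .nil) .nil) .nil) .nil) .nil) .nil) .nil) .nil) .nil)) .nil)))))))) (.Y 8 48 (.D 3 21 48 0 0 (.C 0)) (.R (.cons 1364 (.cons 1301 (.cons 1365 .nil (.cons 1237 .nil .nil)) (.cons 1301 (.cons 1365 .nil (.cons 1237 .nil (.cons 1237 .nil .nil))) (.cons 1301 (.cons 1237 (.cons 1236 .nil (.cons 1236 .nil .nil)) .nil) .nil))) .nil)))))))))))))))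

/-- A part of the decision tree. -/
def tr6_0_24 : Tr :=
  (.Y 0 0 (.D 37 0 7 42 42 (.C 42)) (.Y 1 1 (.S 1 1 0 0 (.C 0)) (.Y 2 12 (.D 2 13 7 6 36 (.C 6)) (.Y 11 61 (.D 37 11 64 40 30 (.C 30)) (.Y 14 14 (.D 3 14 13 0 0 (.C 0)) (.Y 15 15 (.D 3 15 13 1 1 (.C 1)) (.Y 16 26 (.D 3 16 34 11 61 (.C 11)) (.Y 18 38 (.D 3 18 37 0 0 (.C 0)) (.Y 19 39 (.D 3 19 37 1 1 (.C 1)) (.Y 23 63 (.Y 5 25 (.D 5 34 63 2 12 (.C 2)) (.Y 10 60 (.D 3 23 60 0 0 (.C 0)) (.Y 17 27 (.D 3 17 34 10 60 (.C 10)) (.Y 22 62 (.D 3 22 63 2 12 (.C 2)) (.Y 28 28 (.D 23 64 28 17 27 (.C 17)) (.Y 29 29 (.D 23 64 29 16 26 (.C 16)) (.Y 31 41 (.D 7 41 34 10 60 (.C 10)) (.Y 32 52 (.D 23 64 32 21 51 (.C 21)) (.Y 33 53 (.D 23 64 33 20 50 (.C 20)) (.Y 35 65 (.D 3 23 65 5 25 (.C 5)) (.Y 46 66 (.D 7 46 63 2 12 (.C 2)) (.Y 59 69 (.D 3 23 69 9 49 (.C 9)) (.R (.cons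 1236 (.cons 1237 (.cons 1173 .nil .nil) (.cons 1237 (.cons 1301 (.cons 1364 (.cons 1363 (.cons 1299 (.cons 1362 .nil .nil) .nil) .nil) .nil) .nil) .nil)) .nil)))))))))))))) (.Y 4 24 (.D 13 4 34 23 63 (.C 23)) (.Y 47 67 (.D 7 47 64 4 24 (.C 4)) (.Y 5 25 (.Y 10 60 (.D 5 34 60 1 1 (.C 1)) (.Y 17 27 (.D 3 17 25 1 1 (.C 1)) (.Y 28 28 (.D 5 28 25 0 0 (.C 0)) (.Y 29 29 (.D 5 29 25 1 1 (.C 1)) (.Y 31 41 (.D 5 31 37 1 1 (.C 1)) (.Y 32 52 (.D 13 5 32 20 50 (.C 20)) (.Y 33 53 (.D 13 5 33 21 51 (.C 21)) (.Y 35 65 (.D 5 34 65 4 24 (.C 4)) (.Y 58 68 (.D 5 34 68 9 49 (.C 9)) (.R (.cons 1236 (.cons 1299 (.cons 1235 .nil .nil) (.cons 1299 .nil .nil)) .nil))))))))))) (.Y 22 62 (.D 3 22 64 5 25 (.C 5)) (.Y 46 66 (.D 7 46 64 5 25 (.C 5)) (.R (.cons 1236 (.cons 1237 .nil (.cons 1299 (.cons 1235 (.cons 1172 (.cons 1171 .nil .nil) .nil)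 .nil) .nil)) .nil)))))))))))))))))

/-- A part of the decision tree. -/
def tr6_0_25 : Tr :=
  (.Y 4 24 (.Y 32 52 (.D 0 4 32 8 48 (.C 8)) (.Y 33 53 (.D 1 4 33 8 48 (.C 8)) (.R (.cons 1236 (.cons 1237 (.cons 1173 .nil .nil) (.cons 1299 (.cons 1235 (.cons 1172 (.cons 1171 .nil .nil) .nil) .nil) .nil)) .nil)))) (.Y 5 25 (.D 0 1 5 4 24 (.C 4)) (.Y 10 60 (.D 0 10 64 4 24 (.C 4)) (.Y 11 61 (.D 0 11 65 4 24 (.C 4)) (.Y 16 26 (.D 1 3 16 4 24 (.C 4)) (.Y 17 27 (.D 0 3 17 4 24 (.C 4)) (.Y 22 62 (.D 3 22 65 4 24 (.C 4)) (.Y 23 63 (.D 3 23 64 4 24 (.C 4)) (.Y 28 28 (.D 28 34 65 29 29 (.S 1 29 4 24 (.C 4))) (.Y 29 29 (.S 1 29 4 24 (.C 4)) (.Y 70 70 (.D 34 70 64 28 28 (.C 28)) (.Y 71 71 (.S 1 71 10 60 (.C 10)) (.Y 32 52 (.Y 46 66 (.D 52 34 66 54 44 (.C 44)) (.R (.cons 1236 (.cons 1237 (.cons 1301 (.cons 1173 (.cons 1238 (.cons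 1172 (.cons 1235 (.cons 1174 (.cons 1302 (.cons 1365 (.cons 1364 (.cons 1427 (.cons 1363 (.cons 1299 (.cons 1362 (.cons 1298 .nil .nil) .nil) .nil) .nil) .nil) .nil) .nil) .nil) .nil) .nil) .nil) .nil) .nil) .nil) .nil) .nil))) (.R (.cons 1236 (.cons 1237 (.cons 1301 (.cons 1173 (.cons 1238 (.cons 1172 (.cons 1235 (.cons 1174 (.cons 1110 .nil .nil) .nil) .nil) .nil) .nil) .nil) .nil) (.cons 1237 (.cons 1299 (.cons 1301 (.cons 1238 .nil .nil) .nil) .nil) .nil)) .nil)))))))))))))))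

/-- A part of the decision tree. -/
def tr6_0_26 : Tr :=
  (.Y 31 41 (.D 41 34 65 40 30 (.C 30)) (.Y 0 0 (.Y 8 48 (.D 13 0 8 21 51 (.C 21)) (.Y 18 38 (.D 0 3 18 7 37 (.C 7)) (.Y 19 39 (.D 0 3 19 6 36 (.C 6)) (.Y 1 1 (.Y 57 57 (.S 1 57 8 48 (.C 8)) tr6_0_25) (.R (.cons 1236 (.cons 1299 (.cons 1363 (.cons 1364 .nil (.cons 1173 (.cons 1237 (.cons 1174 .nil .nil) (.cons 1237 .nil .nil)) .nil)) (.cons 1363 (.cons 1364 .nil (.cons 1173 (.cons 1237 (.cons 1174 .nil .nil) (.cons 1237 .nil .nil)) .nil)) .nil)) (.cons 1299 (.cons 1235 .nil (.cons 1235 .nil .nil)) .nil)) .nil)))))) (.Y 1 1 (.S 1 1 0 0 (.C 0)) (.Y 14 14 (.D 3 14 13 0 0 (.C 0)) (.Y 15 15 (.D 3 15 13 1 1 (.C 1)) (.Y 8 48 (.Y 2 12 (.D 2 13 8 9 49 (.C 9)) (.Y 4 24 (.D 4 34 65 5 25 (.D 13 4 25 12 2 (.C 2))) (.Y 5 25 (.D 5 34 65 4 24 (.C 4)) (.Y 10 60 (.D 10 64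 35 11 61 (.D 13 10 61 12 2 (.C 2))) (.Y 11 61 (.D 11 64 35 10 60 (.C 10)) (.Y 16 26 (.D 3 16 35 10 60 (.C 10)) (.Y 17 27 (.D 3 17 34 10 60 (.C 10)) (.Y 18 38 (.D 48 3 18 55 45 (.C 45)) (.Y 19 39 (.D 48 3 19 54 44 (.C 44)) (.Y 22 62 (.D 3 22 65 4 24 (.C 4)) (.Y 23 63 (.D 3 23 64 4 24 (.C 4)) (.Y 32 52 (.D 8 52 34 10 60 (.C 10)) (.Y 33 53 (.D 8 53 35 10 60 (.C 10)) (.Y 56 56 (.D 8 56 48 0 0 (.C 0)) (.Y 57 57 (.D 8 57 48 1 1 (.C 1)) (.R (.cons 1301 (.cons 1237 (.cons 1236 (.cons 1299 (.cons 1173 (.cons 1235 (.cons 1172 .nil .nil) .nil) .nil) .nil) .nil) .nil) .nil))))))))))))))))) (.Y 2 12 (.Y 4 24 (.Y 10 60 (.D 4 34 60 0 0 (.C 0)) (.Y 11 61 (.D 4 35 61 0 0 (.C 0)) (.Y 16 26 (.D 2 16 24 0 0 (.C 0)) (.Y 17 27 (.D 3 17 24 0 0 (.C 0)) (.Y 18 38 (.D 24 2 18 30 40 (.C 30)) (.Y 19 39 (.D 12 3 19 18 38 (.C 18)) (.R (.cons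 1236 (.cons 1299 (.cons 1363 (.cons 1364 .nil .nil) .nil) (.cons 1237 (.cons 1299 (.cons 1235 .nil (.cons 1235 .nil .nil)) (.cons 1301 (.cons 1364 (.cons 1173 (.cons 1299 (.cons 1363 .nil (.cons 1235 .nil .nil)) .nil) .nil) .nil) .nil)) .nil)) .nil)))))))) (.Y 5 25 (.D 2 13 5 4 24 (.C 4)) (.Y 22 62 (.D 2 22 64 4 24 (.C 4)) (.Y 23 63 (.D 2 23 65 4 24 (.C 4)) (.Y 10 60 (.Y 28 28 (.D 10 64 28 4 24 (.C 4)) (.Y 29 29 (.D 10 65 29 4 24 (.C 4)) (.Y 32 52 (.D 10 64 32 8 48 (.C 8)) (.R (.cons 1236 (.cons 1237 (.cons 1173 .nil (.cons 1173 .nil .nil)) (.cons 1237 (.cons 1173 .nil .nil) (.cons 1237 (.cons 1299 (.cons 1235 .nil (.cons 1235 .nil .nil)) .nil) (.cons 1237 (.cons 1299 (.cons 1235 .nil (.cons 1235 .nil .nil)) .nil) .nil)))) .nil))))) (.Y 11 61 (.D 2 13 11 10 60 (.C 10)) (.Y 16 26 (.D 2 16 34 10 60 (.C 10)) (.Y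 17 27 (.D 2 17 35 10 60 (.C 10)) (.Y 18 38 (.Y 46 66 (.D 2 18 46 10 60 (.C 10)) (.Y 47 67 (.D 3 18 47 10 60 (.C 10)) (.R (.cons 1236 (.cons 1299 (.cons 1363 (.cons 1364 .nil .nil) .nil) (.cons 1237 (.cons 1301 (.cons 1364 (.cons 1363 (.cons 1299 .nil .nil) .nil) .nil) .nil) .nil)) .nil)))) (.R (.cons 1364 (.cons 1363 (.cons 1299 (.cons 1236 .nil .nil) .nil) (.cons 1301 (.cons 1236 (.cons 1237 (.cons 1173 .nil .nil) (.cons 1237 (.cons 1173 (.cons 1172 (.cons 1235 .nil .nil) .nil) .nil) (.cons 1237 (.cons 1173 (.cons 1299 (.cons 1363 .nil (.cons 1363 .nil .nil)) .nil) .nil) .nil))) .nil) .nil)) .nil))))))))))) (.Y 4 24 (.D 4 34 65 5 25 (.D 13 4 25 12 2 (.C 2))) (.Y 5 25 (.D 5 34 65 4 24 (.C 4)) (.Y 10 60 (.D 10 64 35 11 61 (.D 13 10 61 12 2 (.C 2))) (.Y 11 61 (.D 11 64 35 10 60 (.C 10)) (.R (.cons 1364 (.cons 1363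 (.cons 1427 (.cons 1426 (.cons 1490 (.cons 1489 (.cons 1553 (.cons 1552 (.cons 1616 (.cons 1615 (.cons 1679 (.cons 1678 (.cons 1742 (.cons 1741 (.cons 1805 (.cons 1804 (.cons 1299 (.cons 1236 .nil (.cons 1236 .nil .nil)) .nil) .nil) .nil) .nil) .nil) .nil) .nil) .nil) .nil) .nil) .nil) .nil) .nil) .nil) .nil) .nil) .nil)))))))))))))

/-- A part of the decision tree. -/
def tr6_0_27 : Tr :=
  (.Y 0 0 (.Y 8 48 (.D 13 0 8 21 51 (.C 21)) (.Y 11 61 (.D 0 11 64 5 25 (.C 5)) (.Y 16 26 (.D 0 3 16 5 25 (.C 5)) (.Y 18 38 (.D 0 3 18 7 37 (.C 7)) (.Y 19 39 (.D 0 3 19 6 36 (.C 6)) (.Y 1 1 (.Y 4 24 (.D 0 1 4 5 25 (.C 5)) (.Y 10 60 (.D 0 10 64 4 24 (.C 4)) (.Y 17 27 (.D 0 3 17 4 24 (.C 4)) (.Y 23 63 (.D 3 23 64 4 24 (.C 4)) (.Y 57 57 (.S 1 57 8 48 (.C 8)) (.Y 28 28 (.Y 31 41 (.D 41 28 31 42 42 (.C 42)) (.R (.cons 1236 (.cons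 1237 (.cons 1301 (.cons 1173 (.cons 1238 (.cons 1172 (.cons 1235 (.cons 1174 (.cons 1110 .nil .nil) .nil) .nil) .nil) .nil) .nil) .nil) (.cons 1237 (.cons 1299 (.cons 1301 (.cons 1363 (.cons 1364 (.cons 1365 .nil .nil) .nil) .nil) .nil) .nil) .nil)) .nil))) (.R (.cons 1236 (.cons 1237 (.cons 1301 (.cons 1173 (.cons 1299 (.cons 1363 (.cons 1364 (.cons 1365 .nil .nil) .nil) (.cons 1364 (.cons 1365 .nil (.cons 1363 (.cons 1362 (.cons 1427 (.cons 1426 (.cons 1425 .nil .nil) .nil) .nil) .nil) .nil)) .nil)) .nil) .nil) (.cons 1301 .nil .nil)) (.cons 1237 .nil (.cons 1237 .nil .nil))) .nil)))))))) (.R (.cons 1236 (.cons 1299 (.cons 1363 (.cons 1364 .nil .nil) .nil) (.cons 1299 (.cons 1235 (.cons 1172 (.cons 1173 .nil .nil) .nil) .nil) (.cons 1237 (.cons 1299 (.cons 1235 .nil (.cons 1235 .nil .nil)) (.cons 1299 (.cons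 1235 .nil (.cons 1235 .nil .nil)) .nil)) .nil))) .nil)))))))) (.Y 1 1 (.S 1 1 0 0 (.C 0)) (.Y 14 14 (.D 3 14 13 0 0 (.C 0)) (.Y 15 15 (.D 3 15 13 1 1 (.C 1)) (.Y 2 12 (.Y 4 24 (.D 2 13 4 5 25 (.C 5)) (.Y 8 48 (.D 2 13 8 9 49 (.C 9)) (.Y 10 60 (.D 13 10 64 17 27 (.D 60 2 17 65 35 (.C 35))) (.Y 11 61 (.D 2 13 11 10 60 (.C 10)) (.Y 16 26 (.D 2 16 34 10 60 (.C 10)) (.Y 17 27 (.D 3 17 34 10 60 (.C 10)) (.Y 23 63 (.D 3 23 64 4 24 (.C 4)) (.Y 18 38 (.Y 31 41 (.D 3 18 41 4 24 (.C 4)) (.Y 46 66 (.D 2 18 46 10 60 (.C 10)) (.Y 47 67 (.D 3 18 47 10 60 (.C 10)) (.R (.cons 1236 (.cons 1237 (.cons 1173 .nil .nil) (.cons 1237 (.cons 1299 (.cons 1363 .nil .nil) .nil) .nil)) .nil))))) (.Y 19 39 (.D 12 3 19 18 38 (.C 18)) (.R (.cons 1301 (.cons 1237 (.cons 1236 (.cons 1173 .nil .nil) .nil) (.cons 1364 (.cons 1236 (.cons 1237 (.cons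 1173 .nil .nil) (.cons 1237 .nil (.cons 1237 (.cons 1173 (.cons 1299 (.cons 1235 .nil (.cons 1363 .nil .nil)) .nil) .nil) .nil))) .nil) .nil)) .nil))))))))))) (.Y 4 24 (.Y 10 60 (.D 4 34 60 0 0 (.C 0)) (.Y 11 61 (.D 4 34 61 1 1 (.C 1)) (.Y 16 26 (.D 3 16 24 1 1 (.C 1)) (.Y 17 27 (.D 3 17 24 0 0 (.C 0)) (.Y 19 39 (.D 24 3 19 30 40 (.C 30)) (.Y 28 28 (.D 4 28 24 0 0 (.C 0)) (.Y 32 52 (.D 13 4 32 21 51 (.C 21)) (.Y 33 53 (.D 13 4 33 20 50 (.C 20)) (.Y 46 66 (.D 4 34 66 6 36 (.C 6)) (.R (.cons 1236 (.cons 1299 (.cons 1235 (.cons 1172 (.cons 1173 (.cons 1109 .nil .nil) .nil) .nil) (.cons 1363 (.cons 1235 (.cons 1362 (.cons 1426 .nil .nil) .nil) .nil) .nil)) (.cons 1299 .nil (.cons 1237 (.cons 1173 .nil .nil) .nil))) .nil))))))))))) (.Y 23 63 (.D 3 23 64 4 24 (.C 4)) (.Y 8 48 (.Y 18 38 (.D 48 3 18 55 45 (.C 45)) (.Y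 19 39 (.D 48 3 19 54 44 (.C 44)) (.Y 56 56 (.D 8 56 48 0 0 (.C 0)) (.Y 57 57 (.D 8 57 48 1 1 (.C 1)) (.R (.cons 1236 (.cons 1237 (.cons 1301 .nil (.cons 1173 .nil .nil)) (.cons 1299 .nil (.cons 1299 (.cons 1235 (.cons 1237 (.cons 1301 .nil (.cons 1301 (.cons 1173 (.cons 1172 .nil .nil) .nil) .nil)) .nil) .nil) .nil))) .nil)))))) (.Y 10 60 (.Y 11 61 (.D 13 10 61 12 2 (.C 2)) (.Y 16 26 (.D 10 64 26 2 12 (.C 2)) (.Y 28 28 (.D 10 64 28 4 24 (.C 4)) (.Y 31 41 (.D 10 64 31 7 37 (.C 7)) (.Y 32 52 (.D 10 64 32 8 48 (.C 8)) (.R (.cons 1364 (.cons 1301 (.cons 1365 (.cons 1302 .nil .nil) (.cons 1237 .nil .nil)) (.cons 1363 (.cons 1237 (.cons 1301 (.cons 1238 .nil .nil) (.cons 1236 .nil (.cons 1236 (.cons 1299 .nil .nil) .nil))) .nil) .nil)) .nil))))))) (.Y 17 27 (.D 3 17 34 10 60 (.C 10)) (.Y 11 61 (.Y 28 28 (.D 11 64 28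 5 25 (.C 5)) (.Y 31 41 (.D 11 64 31 6 36 (.C 6)) (.Y 32 52 (.D 11 64 32 9 49 (.C 9)) (.R (.cons 1364 (.cons 1363 (.cons 1299 (.cons 1236 .nil .nil) .nil) (.cons 1301 .nil .nil)) .nil))))) (.R (.cons 1364 (.cons 1363 (.cons 1427 (.cons 1426 (.cons 1490 (.cons 1489 (.cons 1553 (.cons 1552 (.cons 1616 (.cons 1615 (.cons 1679 (.cons 1678 (.cons 1742 (.cons 1741 (.cons 1805 (.cons 1804 (.cons 1299 (.cons 1236 .nil (.cons 1362 .nil .nil)) .nil) .nil) .nil) .nil) .nil) .nil) .nil) .nil) .nil) .nil) .nil) .nil) .nil) .nil) .nil) .nil) .nil)))))))))))))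

/-- A part of the decision tree. -/
def tr6_0_28 : Tr :=
  (.Y 20 50 (.Y 0 0 (.D 0 3 20 9 49 (.C 9)) (.Y 1 1 (.S 1 1 0 0 (.C 0)) (.Y 8 48 (.D 3 20 48 1 1 (.C 1)) tr6_0_18))) (.Y 44 54 (.Y 7 37 (.D 13 7 44 20 50 (.C 20)) (.Y 18 38 (.D 3 18 44 9 49 (.C 9)) tr6_0_21)) (.Y 30 40 (.Y 10 60 (.D 10 64 30 6 36 (.C 6)) (.Y 17 27 (.D 3 17 30 6 36 (.C 6)) (.Y 28 28 (.D 40 28 30 42 42 (.C 42)) (.Y 29 29 (.S 29 29 28 28 (.C 28)) (.Y 46 66 (.D 30 46 64 28 28 (.C 28)) (.Y 47 67 (.D 30 47 64 29 29 (.C 29)) (.Y 58 68 (.D 40 34 68 44 54 (.C 44)) (.Y 59 69 (.D 40 34 69 45 55 (.C 45)) (.Y 70 70 (.D 34 70 64 28 28 (.C 28)) (.Y 71 71 (.D 34 71 64 29 29 (.C 29)) (.Y 0 0 (.Y 4 24 (.D 0 4 30 6 36 (.C 6)) (.Y 5 25 (.D 25 0 5 28 28 (.C 28)) (.Y 7 37 (.D 0 7 40 5 25 (.C 5)) (.Y 11 61 (.D 0 11 64 5 25 (.C 5)) (.Y 16 26 (.D 0 3 16 5 25 (.C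 5)) (.Y 18 38 (.D 3 18 40 5 25 (.C 5)) (.Y 19 39 (.D 3 19 40 4 24 (.C 4)) (.Y 22 62 (.D 3 22 64 5 25 (.C 5)) (.R (.cons 1236 (.cons 1237 (.cons 1299 (.cons 1363 .nil (.cons 1363 (.cons 1362 .nil .nil) (.cons 1363 (.cons 1364 (.cons 1427 .nil .nil) .nil) .nil))) .nil) (.cons 1299 .nil .nil)) .nil)))))))))) (.Y 1 1 (.S 1 1 0 0 (.C 0)) (.Y 14 14 (.D 3 14 13 0 0 (.C 0)) tr6_0_22))))))))))))) (.Y 21 51 (.Y 1 1 (.D 1 3 21 9 49 (.C 9)) (.Y 2 12 (.D 12 3 21 20 50 (.C 20)) (.Y 7 37 (.D 37 3 21 45 55 (.C 45)) (.Y 15 15 (.D 3 15 13 1 1 (.C 1)) (.Y 57 57 (.D 3 21 57 9 49 (.C 9)) (.Y 47 67 tr6_0_23 (.Y 19 39 (.Y 0 0 (.D 0 3 19 6 36 (.C 6)) (.Y 4 24 (.D 24 3 19 30 40 (.C 30)) (.Y 8 48 (.D 3 21 48 0 0 (.C 0)) (.Y 11 61 (.D 61 3 19 67 47 (.C 47)) (.Y 14 14 (.D 3 14 13 0 0 (.C 0)) (.Y 16 26 (.D 3 16 34 11 61 (.C 11)) (.Y 18 38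 (.D 3 18 39 2 12 (.C 2)) (.Y 23 63 (.D 3 23 64 4 24 (.C 4)) (.Y 32 52 (.D 3 21 52 4 24 (.C 4)) (.Y 56 56 (.D 3 21 56 8 48 (.C 8)) (.R (.cons 1236 (.cons 1299 .nil (.cons 1299 (.cons 1235 (.cons 1172 (.cons 1171 .nil .nil) .nil) .nil) (.cons 1299 (.cons 1235 .nil .nil) .nil))) .nil)))))))))))) (.Y 0 0 (.Y 18 38 (.D 0 3 18 7 37 (.C 7)) (.R (.cons 1236 (.cons 1299 .nil (.cons 1235 (.cons 1299 .nil (.cons 1299 (.cons 1298 .nil .nil) .nil)) .nil)) .nil))) (.Y 8 48 (.D 3 21 48 0 0 (.C 0)) (.Y 14 14 (.D 3 14 13 0 0 (.C 0)) (.Y 56 56 (.D 3 21 56 8 48 (.C 8)) (.Y 4 24 (.Y 5 25 (.D 13 4 25 12 2 (.C 2)) (.R (.cons 1236 (.cons 1299 (.cons 1363 (.cons 1364 .nil (.cons 1364 (.cons 1362 (.cons 1426 .nil .nil) .nil) (.cons 1364 .nil .nil))) .nil) (.cons 1299 (.cons 1235 (.cons 1363 (.cons 1364 .nil (.cons 1364 (.cons 1362 (.cons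 1298 .nil .nil) .nil) (.cons 1364 .nil .nil))) .nil) .nil) (.cons 1299 (.cons 1235 .nil .nil) .nil))) .nil))) (.Y 23 63 (.D 3 23 64 4 24 (.C 4)) (.Y 32 52 (.D 3 21 52 4 24 (.C 4)) (.Y 5 25 (.Y 10 60 (.D 5 34 60 1 1 (.C 1)) (.R (.cons 1236 (.cons 1299 (.cons 1235 (.cons 1172 (.cons 1173 .nil .nil) (.cons 1172 (.cons 1173 .nil .nil) .nil)) .nil) (.cons 1299 (.cons 1235 (.cons 1298 (.cons 1362 (.cons 1363 .nil .nil) (.cons 1362 (.cons 1363 .nil .nil) .nil)) .nil) .nil) (.cons 1299 (.cons 1235 .nil .nil) .nil))) .nil))) (.R (.cons 1236 (.cons 1299 (.cons 1363 (.cons 1364 .nil (.cons 1364 (.cons 1362 (.cons 1426 .nil .nil) .nil) (.cons 1364 .nil .nil))) .nil) (.cons 1299 (.cons 1235 (.cons 1363 (.cons 1364 .nil (.cons 1364 (.cons 1362 (.cons 1298 .nil .nil) .nil) (.cons 1364 .nil .nil))) .nil) .nil) (.cons 1237 (.cons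 1299 (.cons 1235 .nil .nil) .nil) .nil))) .nil))))))))))))))))) (.Y 7 37 tr6_0_24 (.Y 35 65 tr6_0_26 (.Y 29 29 (.S 29 29 28 28 (.D 28 29 34 35 65 (.C 35))) (.Y 71 71 (.D 34 71 64 29 29 (.C 29)) (.Y 5 25 (.Y 1 1 (.D 25 1 5 29 29 (.C 29)) (.Y 2 12 (.D 2 13 5 4 24 (.D 12 5 34 23 63 (.D 24 2 23 35 65 (.C 35)))) (.Y 4 24 (.D 13 4 25 12 2 (.C 2)) (.Y 10 60 (.D 5 34 60 1 1 (.C 1)) (.Y 15 15 (.D 3 15 13 1 1 (.C 1)) (.Y 17 27 (.D 3 17 25 1 1 (.C 1)) (.Y 18 38 (.D 25 3 18 30 40 (.C 30)) (.Y 23 63 (.D 5 34 63 2 12 (.C 2)) (.Y 32 52 (.D 13 5 32 20 50 (.C 20)) (.Y 33 53 (.D 13 5 33 21 51 (.C 21)) (.Y 46 66 (.D 5 34 66 7 37 (.C 7)) (.Y 47 67 (.D 5 34 67 6 36 (.C 6)) (.R (.cons 1236 (.cons 1299 (.cons 1235 (.cons 1298 (.cons 1362 (.cons 1363 .nil .nil) .nil) .nil) .nil) (.cons 1299 (.cons 1235 (.cons 1172 (.cons 1171 (.cons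 1108 (.cons 1109 (.cons 1173 .nil .nil) .nil) .nil) .nil) .nil) .nil) .nil)) .nil)))))))))))))) (.Y 22 62 (.D 3 22 64 5 25 (.C 5)) tr6_0_27))))))))))

/-- A part of the decision tree. -/
def tr6_0_29 : Tr :=
  (.Y 6 36 (.Y 0 0 (.D 36 0 6 42 42 (.C 42)) (.Y 1 1 (.S 1 1 0 0 (.C 0)) (.Y 4 24 (.D 4 28 24 0 0 (.C 0)) (.Y 8 48 (.D 3 20 48 1 1 (.C 1)) (.Y 9 49 (.D 3 20 49 0 0 (.C 0)) (.Y 14 14 (.D 3 14 13 0 0 (.C 0)) (.Y 15 15 (.D 3 15 13 1 1 (.C 1)) (.Y 17 27 (.D 3 17 28 4 24 (.C 4)) (.Y 18 38 (.D 3 18 36 1 1 (.C 1)) (.Y 19 39 (.D 3 19 36 0 0 (.C 0)) (.Y 22 62 (.D 3 22 61 0 0 (.C 0)) (.Y 23 63 (.D 3 23 61 1 1 (.C 1)) (.Y 33 53 (.D 3 20 53 4 24 (.C 4)) (.Y 35 65 (.D 11 65 28 4 24 (.C 4)) (.Y 46 66 (.D 6 46 61 1 1 (.C 1)) (.R (.cons 1237 (.cons 1236 (.cons 1301 (.cons 1299 (.cons 1235 .nil (.cons 1238 (.cons 1302 .nil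 (.cons 1362 (.cons 1298 .nil (.cons 1363 (.cons 1298 (.cons 1364 (.cons 1365 .nil (.cons 1365 .nil .nil)) .nil) .nil) .nil)) .nil)) .nil)) .nil) .nil) (.cons 1301 .nil .nil)) .nil))))))))))))))))) (.Y 45 55 (.D 3 20 55 6 36 (.C 6)) (.Y 21 51 (.Y 4 24 (.D 24 3 21 32 52 (.C 32)) (.Y 7 37 (.D 37 3 21 45 55 (.C 45)) (.Y 17 27 (.D 3 17 28 4 24 (.C 4)) (.Y 33 53 (.D 3 20 53 4 24 (.C 4)) (.Y 35 65 (.D 11 65 28 4 24 (.C 4)) (.Y 44 54 (.D 3 21 54 6 36 (.C 6)) (.Y 0 0 (.Y 18 38 (.D 0 3 18 7 37 (.C 7)) (.Y 19 39 (.D 0 3 19 6 36 (.C 6)) (.Y 29 29 (.D 3 20 51 2 12 (.D 0 2 13 1 1 (.S 1 29 4 24 (.C 4)))) (.Y 46 66 (.D 0 11 66 7 37 (.C 7)) (.Y 47 67 (.D 0 11 67 6 36 (.C 6)) (.R (.cons 1236 .nil .nil))))))) (.Y 1 1 (.S 1 1 0 0 (.C 0)) (.Y 8 48 (.D 3 21 48 0 0 (.C 0)) (.Y 9 49 (.D 3 20 49 0 0 (.C 0)) (.R (.cons 1237 (.cons 1236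 (.cons 1173 .nil (.cons 1299 (.cons 1235 .nil .nil) (.cons 1299 (.cons 1235 .nil (.cons 1235 .nil .nil)) .nil))) (.cons 1236 .nil .nil)) .nil)))))))))))) (.Y 1 1 (.S 1 1 0 0 (.D 1 3 20 8 48 (.D 13 0 8 21 51 (.C 21)))) (.Y 2 12 (.D 12 3 20 21 51 (.C 21)) (.Y 8 48 (.D 3 20 48 1 1 (.C 1)) (.Y 10 60 (.D 13 10 61 12 2 (.C 2)) (.Y 15 15 (.D 3 15 13 1 1 (.C 1)) (.Y 23 63 (.D 3 23 61 1 1 (.C 1)) (.Y 57 57 (.D 3 20 57 8 48 (.C 8)) (.Y 59 69 (.D 11 69 50 2 12 (.C 2)) (.Y 71 71 (.D 11 71 61 1 1 (.C 1)) (.Y 0 0 (.Y 7 37 (.D 37 0 7 42 42 (.C 42)) (.Y 18 38 (.D 0 3 18 7 37 (.C 7)) (.Y 19 39 (.D 0 3 19 6 36 (.C 6)) (.Y 44 54 (.D 3 20 54 7 37 (.C 7)) (.R (.cons 1236 (.cons 1237 (.cons 1301 .nil .nil) (.cons 1237 (.cons 1301 .nil .nil) .nil)) .nil)))))) (.Y 4 24 (.D 4 28 24 0 0 (.C 0)) (.Y 9 49 (.D 3 20 49 0 0 (.C 0)) (.Y 14 14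 (.D 3 14 13 0 0 (.C 0)) (.Y 17 27 (.D 3 17 28 4 24 (.C 4)) (.Y 22 62 (.D 3 22 61 0 0 (.C 0)) (.Y 33 53 (.D 3 20 53 4 24 (.C 4)) (.Y 35 65 (.D 11 65 28 4 24 (.C 4)) (.R (.cons 1237 (.cons 1236 (.cons 1299 (.cons 1301 (.cons 1363 (.cons 1364 .nil .nil) .nil) .nil) .nil) (.cons 1301 (.cons 1364 (.cons 1363 (.cons 1238 (.cons 1365 (.cons 1302 .nil .nil) .nil) .nil) .nil) (.cons 1364 (.cons 1238 (.cons 1365 (.cons 1302 .nil .nil) .nil) .nil) .nil)) .nil)) .nil))))))))))))))))))))))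

/-- A part of the decision tree. -/
def tr6_0_30 : Tr :=
  (.Y 14 14 (.D 3 14 13 0 0 (.C 0)) (.Y 15 15 (.D 3 15 13 1 1 (.C 1)) (.Y 17 27 (.D 3 17 25 1 1 (.C 1)) (.Y 19 39 (.D 25 3 19 31 41 (.C 31)) (.Y 22 62 (.D 3 22 61 0 0 (.C 0)) (.Y 23 63 (.D 3 23 61 1 1 (.C 1)) (.Y 35 65 (.D 5 35 61 1 1 (.C 1)) (.Y 47 67 (.D 13 11 67 19 39 (.C 19)) (.Y 56 56 (.D 3 20 56 9 49 (.C 9)) (.Y 57 57 (.D 3 20 57 8 48 (.C 8)) (.Y 70 70 (.D 11 70 61 0 0 (.C 0)) (.Y 71 71 (.D 11 71 61 1 1 (.C 1)) (.Y 2 12 (.Y 18 38 (.D 12 3 18 19 39 (.C 19)) (.Y 30 40 (.D 13 5 30 18 38 (.C 18)) (.Y 46 66 (.D 13 11 66 18 38 (.C 18)) (.R (.cons 1237 (.cons 1301 .nil (.cons 1301 .nil (.cons 1236 (.cons 1301 (.cons 1238 .nil .nil) .nil) (.cons 1301 .nil .nil)))) .nil))))) (.Y 4 24 (.D 13 4 25 12 2 (.C 2)) (.Y 10 60 (.D 13 10 61 12 2 (.C 2)) (.Y 21 51 (.D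 3 20 51 2 12 (.C 2)) (.Y 33 53 (.D 5 33 50 2 12 (.C 2)) (.Y 59 69 (.D 11 69 50 2 12 (.C 2)) (.Y 6 36 (.Y 7 37 (.D 13 6 37 12 2 (.C 2)) (.Y 18 38 (.D 3 18 36 1 1 (.C 1)) (.Y 30 40 (.D 5 30 36 1 1 (.C 1)) (.R (.cons 1237 (.cons 1301 .nil (.cons 1301 (.cons 1364 (.cons 1365 (.cons 1302 (.cons 1238 (.cons 1174 .nil .nil) .nil) .nil) .nil) .nil) .nil)) .nil))))) (.R (.cons 1237 (.cons 1301 .nil (.cons 1236 (.cons 1299 (.cons 1363 (.cons 1364 (.cons 1301 .nil .nil) .nil) (.cons 1363 (.cons 1364 (.cons 1301 .nil .nil) .nil) .nil)) (.cons 1173 (.cons 1172 (.cons 1235 .nil .nil) .nil) .nil)) (.cons 1301 (.cons 1364 (.cons 1238 (.cons 1174 .nil .nil) .nil) .nil) .nil))) .nil)))))))))))))))))))))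

/-- A part of the decision tree. -/
def tr6_0_31 : Tr :=
  (.Y 32 52 (.D 3 20 52 5 25 (.C 5)) (.Y 30 40 (.Y 7 37 (.D 13 7 40 16 26 (.C 16)) (.Y 18 38 (.D 3 18 40 5 25 (.C 5)) (.Y 42 42 (.D 30 42 40 28 28 (.C 28)) (.Y 43 43 (.D 30 43 40 29 29 (.C 29)) (.Y 44 54 (.D 3 20 54 7 37 (.C 7)) (.Y 46 66 (.D 11 66 40 5 25 (.C 5)) (.Y 2 12 (.D 61 3 20 68 58 (.T 15)) (.Y 1 1 (.S 1 1 0 0 (.D 0 1 3 2 12 (.C 2))) (.Y 8 48 (.D 3 20 48 1 1 (.C 1)) (.Y 10 60 (.D 13 10 61 12 2 (.C 2)) (.Y 15 15 (.D 3 15 13 1 1 (.C 1)) (.Y 21 51 (.D 3 20 51 2 12 (.C 2)) (.Y 23 63 (.D 3 23 61 1 1 (.C 1)) (.Y 57 57 (.D 3 20 57 8 48 (.C 8)) (.Y 59 69 (.D 11 69 50 2 12 (.C 2)) (.Y 71 71 (.D 11 71 61 1 1 (.C 1)) (.Y 6 36 (.D 61 6 40 65 35 (.D 36 3 20 45 55 (.T 34))) (.Y 17 27 (.D 3 17 30 6 36 (.C 6)) (.Y 35 65 (.D 11 65 30 6 36 (.C 6)) (.R (.cons 1237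 (.cons 1301 (.cons 1238 .nil .nil) (.cons 1301 (.cons 1364 (.cons 1363 (.cons 1238 (.cons 1427 (.cons 1174 (.cons 1175 .nil .nil) .nil) .nil) .nil) .nil) .nil) (.cons 1301 (.cons 1364 (.cons 1363 (.cons 1427 (.cons 1428 (.cons 1365 .nil .nil) .nil) .nil) .nil) .nil) .nil))) .nil))))))))))))))))))))) (.Y 6 36 (.Y 17 27 (.D 36 3 17 40 30 (.C 30)) (.Y 35 65 (.D 13 11 65 17 27 (.C 17)) (.Y 33 53 (.Y 0 0 (.D 3 20 53 4 24 (.D 13 0 4 17 27 (.C 17))) (.Y 1 1 (.S 1 1 0 0 (.C 0)) (.Y 2 12 (.D 2 20 53 5 25 (.C 5)) (.Y 7 37 (.D 13 6 37 12 2 (.C 2)) (.Y 8 48 (.D 3 20 48 1 1 (.C 1)) (.Y 9 49 (.D 3 20 49 0 0 (.C 0)) (.Y 10 60 (.D 13 10 61 12 2 (.C 2)) (.Y 14 14 (.D 3 14 13 0 0 (.C 0)) (.Y 15 15 (.D 3 15 13 1 1 (.C 1)) (.Y 18 38 (.D 3 18 36 1 1 (.C 1)) (.Y 19 39 (.D 3 19 36 0 0 (.C 0)) (.Y 21 51 (.D 3 20 51 2 12 (.C 2)) (.Y 22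 62 (.D 3 22 61 0 0 (.C 0)) (.Y 23 63 (.D 3 23 61 1 1 (.C 1)) (.R (.cons 1237 (.cons 1301 .nil (.cons 1301 (.cons 1238 .nil .nil) .nil)) .nil)))))))))))))))) (.R (.cons 1237 (.cons 1238 (.cons 1302 (.cons 1365 (.cons 1364 (.cons 1301 .nil .nil) .nil) .nil) .nil) .nil) .nil))))) (.Y 45 55 (.D 3 20 55 6 36 (.C 6)) (.Y 35 65 (.Y 0 0 (.D 0 11 65 4 24 (.D 24 0 4 28 28 (.C 28))) (.Y 1 1 (.S 1 1 0 0 (.C 0)) (.Y 2 12 (.D 12 11 65 16 26 (.C 16)) (.Y 4 24 (.D 4 35 61 0 0 (.C 0)) (.Y 7 37 (.D 37 11 65 41 31 (.C 31)) (.Y 8 48 (.D 3 20 48 1 1 (.C 1)) (.Y 9 49 (.D 3 20 49 0 0 (.C 0)) (.Y 10 60 (.D 13 10 61 12 2 (.C 2)) (.R (.cons 1364 (.cons 1363 .nil (.cons 1301 (.cons 1237 (.cons 1238 .nil .nil) .nil) .nil)) .nil)))))))))) (.Y 17 27 (.D 61 3 17 65 35 (.C 35)) (.Y 33 53 (.Y 0 0 (.D 3 20 53 4 24 (.D 13 0 4 17 27 (.C 17))) (.Y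 1 1 (.S 1 1 0 0 (.C 0)) (.Y 2 12 (.D 2 20 53 5 25 (.C 5)) (.Y 8 48 (.D 3 20 48 1 1 (.C 1)) (.Y 9 49 (.D 3 20 49 0 0 (.C 0)) (.Y 10 60 (.D 13 10 61 12 2 (.C 2)) (.Y 14 14 (.D 3 14 13 0 0 (.C 0)) (.Y 15 15 (.D 3 15 13 1 1 (.C 1)) (.Y 18 38 (.D 38 20 53 41 31 (.C 31)) (.Y 19 39 (.D 39 20 53 40 30 (.C 30)) (.R (.cons 1237 (.cons 1238 (.cons 1301 (.cons 1302 .nil .nil) (.cons 1301 (.cons 1364 .nil .nil) .nil)) (.cons 1301 (.cons 1364 (.cons 1238 (.cons 1302 (.cons 1365 (.cons 1366 .nil .nil) .nil) .nil) .nil) (.cons 1238 .nil .nil)) .nil)) .nil)))))))))))) (.R (.cons 1237 (.cons 1238 (.cons 1302 (.cons 1365 (.cons 1364 (.cons 1301 .nil .nil) .nil) .nil) .nil) .nil) .nil)))))))))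

/-- A part of the decision tree. -/
def tr6_0_32 : Tr :=
  (.Y 23 63 (.D 25 3 23 35 65 (.C 35)) (.Y 46 66 (.D 13 6 46 23 63 (.C 23)) (.Y 17 27 (.Y 10 60 (.D 60 5 27 62 22 (.C 22)) (.Y 59 69 (.D 3 20 59 10 60 (.C 10)) (.Y 71 71 (.D 3 17 25 1 1 (.S 1 71 10 60 (.C 10))) (.Y 70 70 (.D 5 27 20 8 48 (.D 3 17 25 1 1 (.S 1 1 0 0 (.D 48 0 8 56 56 (.T 22))))) (.R (.cons 1363 .nil .nil)))))) (.Y 1 1 (.D 13 1 5 17 27 (.C 17)) (.Y 8 48 (.D 3 20 48 1 1 (.C 1)) (.Y 15 15 (.D 3 15 13 1 1 (.C 1)) (.Y 18 38 (.D 3 18 36 1 1 (.C 1)) (.Y 29 29 (.D 5 29 25 1 1 (.C 1)) (.Y 30 40 (.D 5 30 36 1 1 (.C 1)) (.Y 43 43 (.D 6 43 36 1 1 (.C 1)) (.Y 57 57 (.D 3 20 57 8 48 (.C 8)) (.Y 10 60 (.Y 0 0 (.D 13 0 10 23 63 (.C 23)) (.Y 2 12 (.D 2 13 10 11 61 (.C 11)) (.Y 4 24 (.D 13 4 25 12 2 (.C 2)) (.Y 7 37 (.D 13 6 37 12 2 (.C 2)) (.Y 9 49 (.D 3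 20 49 0 0 (.C 0)) (.Y 14 14 (.D 3 14 13 0 0 (.C 0)) (.Y 16 26 (.D 3 16 25 0 0 (.C 0)) (.Y 19 39 (.D 3 19 36 0 0 (.C 0)) (.Y 21 51 (.D 3 20 51 2 12 (.C 2)) (.R (.cons 1301 (.cons 1237 .nil (.cons 1364 .nil .nil)) .nil))))))))))) (.Y 59 69 (.D 3 20 59 10 60 (.C 10)) (.Y 70 70 (.Y 0 0 (.D 25 0 6 31 41 (.T 18)) (.Y 9 49 (.D 3 20 49 0 0 (.C 0)) (.Y 14 14 (.D 3 14 13 0 0 (.C 0)) (.Y 16 26 (.D 3 16 25 0 0 (.C 0)) (.Y 19 39 (.D 3 19 36 0 0 (.C 0)) (.Y 28 28 (.D 5 28 25 0 0 (.C 0)) (.Y 31 41 (.D 5 31 36 0 0 (.C 0)) (.Y 42 42 (.D 6 42 36 0 0 (.C 0)) (.R (.cons 1363 (.cons 1236 (.cons 1237 .nil (.cons 1237 (.cons 1301 .nil (.cons 1301 .nil .nil)) (.cons 1237 (.cons 1301 .nil (.cons 1301 .nil .nil)) (.cons 1237 .nil .nil)))) (.cons 1236 (.cons 1237 .nil (.cons 1237 (.cons 1301 .nil (.cons 1301 .nil .nil)) (.cons 1237 (.cons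 1301 .nil (.cons 1301 .nil .nil)) (.cons 1237 .nil .nil)))) .nil)) .nil)))))))))) (.Y 71 71 (.S 71 71 70 70 (.C 70)) (.R (.cons 1363 .nil .nil)))))))))))))))))

/-- A part of the decision tree. -/
def tr6_0_33 : Tr :=
  (.Y 14 14 (.D 3 14 13 0 0 (.C 0)) (.Y 15 15 (.D 3 15 13 1 1 (.C 1)) (.Y 16 26 (.D 3 16 25 0 0 (.C 0)) (.Y 17 27 (.D 3 17 25 1 1 (.C 1)) (.Y 28 28 (.D 5 28 25 0 0 (.C 0)) (.Y 29 29 (.D 5 29 25 1 1 (.C 1)) (.Y 56 56 (.D 3 20 56 9 49 (.C 9)) (.Y 57 57 (.D 3 20 57 8 48 (.C 8)) (.Y 21 51 (.Y 7 37 (.D 37 3 21 45 55 (.C 45)) (.Y 44 54 (.D 3 21 54 6 36 (.C 6)) (.Y 42 42 (.T 20) (.Y 43 43 (.S 43 43 42 42 (.C 42)) (.Y 46 66 (.D 46 70 66 42 42 (.C 42)) (.Y 18 38 (.Y 71 71 (.R (.cons 1363 (.cons 1299 (.cons 1236 (.cons 1237 (.cons 1301 (.cons 1364 (.cons 1173 (.cons 1235 (.cons 1172 .nil (.cons 1172 .nil .nil))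 (.cons 1174 .nil .nil)) (.cons 1173 (.cons 1235 (.cons 1172 .nil (.cons 1172 .nil .nil)) (.cons 1174 .nil .nil)) .nil)) (.cons 1364 .nil .nil)) (.cons 1301 (.cons 1364 .nil (.cons 1364 .nil .nil)) .nil)) (.cons 1237 (.cons 1301 (.cons 1364 (.cons 1173 (.cons 1235 (.cons 1172 .nil (.cons 1172 .nil .nil)) (.cons 1235 (.cons 1172 .nil (.cons 1172 .nil .nil)) .nil)) (.cons 1173 (.cons 1235 (.cons 1172 .nil (.cons 1172 .nil .nil)) (.cons 1235 (.cons 1172 .nil (.cons 1172 .nil .nil)) .nil)) .nil)) (.cons 1364 .nil .nil)) (.cons 1301 (.cons 1364 .nil (.cons 1364 .nil .nil)) .nil)) .nil)) (.cons 1236 (.cons 1235 .nil (.cons 1235 .nil .nil)) .nil)) (.cons 1299 (.cons 1236 (.cons 1237 (.cons 1301 (.cons 1364 (.cons 1173 (.cons 1235 (.cons 1172 .nil (.cons 1172 .nil .nil)) (.cons 1174 .nil .nil)) (.cons 1173 (.cons 1235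 (.cons 1172 .nil (.cons 1172 .nil .nil)) (.cons 1174 .nil .nil)) .nil)) (.cons 1364 .nil .nil)) (.cons 1301 (.cons 1364 .nil (.cons 1364 .nil .nil)) .nil)) (.cons 1237 (.cons 1301 (.cons 1364 (.cons 1173 (.cons 1235 (.cons 1172 .nil (.cons 1172 .nil .nil)) (.cons 1235 (.cons 1172 .nil (.cons 1172 .nil .nil)) .nil)) (.cons 1173 (.cons 1235 (.cons 1172 .nil (.cons 1172 .nil .nil)) (.cons 1235 (.cons 1172 .nil (.cons 1172 .nil .nil)) .nil)) .nil)) (.cons 1364 .nil .nil)) (.cons 1301 (.cons 1364 .nil (.cons 1364 .nil .nil)) .nil)) .nil)) (.cons 1236 (.cons 1235 .nil (.cons 1235 .nil .nil)) .nil)) .nil)) .nil)) (.R (.cons 1363 (.cons 1299 (.cons 1298 (.cons 1236 (.cons 1235 .nil (.cons 1235 .nil .nil)) .nil) (.cons 1235 (.cons 1236 .nil .nil) .nil)) .nil) .nil))) (.R (.cons 1363 (.cons 1299 (.cons 1236 (.cons 1235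 (.cons 1298 .nil .nil) .nil) (.cons 1236 (.cons 1235 .nil (.cons 1235 .nil .nil)) .nil)) (.cons 1299 (.cons 1236 (.cons 1235 (.cons 1298 .nil .nil) .nil) (.cons 1362 (.cons 1298 (.cons 1235 .nil .nil) .nil) .nil)) .nil)) .nil)))))))) (.Y 2 12 (.D 12 3 20 21 51 (.C 21)) (.Y 4 24 (.D 13 4 25 12 2 (.C 2)) (.R (.cons 1363 (.cons 1364 (.cons 1427 .nil .nil) (.cons 1299 (.cons 1364 (.cons 1301 (.cons 1362 (.cons 1365 (.cons 1302 .nil .nil) .nil) .nil) .nil) .nil) (.cons 1364 .nil .nil))) .nil)))))))))))))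

/-- A part of the decision tree. -/
def tr6_0_34 : Tr :=
  (.Y 6 36 (.Y 35 65 (.D 36 3 20 45 55 (.T 34)) tr6_0_32) (.Y 45 55 (.D 3 20 55 6 36 (.C 6)) (.Y 10 60 (.Y 1 1 (.D 13 1 10 22 62 (.C 22)) (.Y 2 12 (.D 2 13 10 11 61 (.C 11)) (.Y 4 24 (.D 13 4 25 12 2 (.C 2)) (.Y 8 48 (.D 3 20 48 1 1 (.C 1)) (.Y 15 15 (.D 3 15 13 1 1 (.C 1)) (.Y 17 27 (.D 3 17 25 1 1 (.C 1)) (.Y 18 38 (.D 60 3 18 67 47 (.C 47)) (.Y 21 51 (.D 3 20 51 2 12 (.C 2)) (.Y 29 29 (.D 5 29 25 1 1 (.C 1)) (.Y 30 40 (.D 13 5 30 18 38 (.C 18)) (.Y 33 53 (.D 5 33 50 2 12 (.C 2)) (.Y 57 57 (.D 3 20 57 8 48 (.C 8)) (.Y 71 71 (.D 10 71 60 1 1 (.C 1)) (.Y 16 26 (.Y 7 37 (.D 37 5 26 38 18 (.C 18)) (.Y 19 39 (.D 5 26 19 6 36 (.C 6)) (.Y 31 41 (.D 3 16 31 6 36 (.C 6)) (.Y 44 54 (.D 3 20 54 7 37 (.C 7)) (.Y 46 66 (.D 13 10 66 19 39 (.C 19)) (.Y 42 42 (.D 5 26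 20 9 49 (.D 13 5 26 14 14 (.D 60 3 16 65 35 (.T 5)))) (.Y 43 43 (.S 43 43 42 42 (.C 42)) (.R (.cons 1236 .nil .nil))))))))) (.Y 0 0 (.D 13 0 5 16 26 (.C 16)) (.Y 9 49 (.D 3 20 49 0 0 (.C 0)) (.Y 14 14 (.D 3 14 13 0 0 (.C 0)) (.Y 23 63 (.D 3 23 60 0 0 (.C 0)) (.Y 28 28 (.D 5 28 25 0 0 (.C 0)) (.Y 35 65 (.D 5 35 60 0 0 (.C 0)) (.R (.cons 1237 (.cons 1301 .nil (.cons 1301 (.cons 1364 (.cons 1363 .nil .nil) (.cons 1364 (.cons 1363 .nil .nil) .nil)) (.cons 1301 (.cons 1364 (.cons 1363 .nil .nil) (.cons 1364 (.cons 1363 .nil .nil) .nil)) .nil))) .nil)))))))))))))))))))))) (.Y 59 69 (.D 3 20 59 10 60 (.C 10)) (.Y 70 70 (.Y 23 63 (.D 3 23 70 10 60 (.C 10)) (.Y 35 65 (.D 5 35 70 10 60 (.C 10)) (.Y 0 0 (.Y 19 39 (.D 0 3 19 6 36 (.C 6)) (.Y 31 41 (.D 0 5 31 6 36 (.C 6)) (.Y 42 42 (.D 25 0 5 28 28 (.T 21)) (.Y 7 37 (.D 37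 0 7 42 42 (.C 42)) (.Y 18 38 (.D 0 3 18 7 37 (.C 7)) (.Y 30 40 (.D 0 5 30 7 37 (.C 7)) (.Y 43 43 (.S 43 43 42 42 (.C 42)) (.Y 44 54 (.D 3 20 54 7 37 (.C 7)) (.R (.cons 1236 (.cons 1235 (.cons 1298 (.cons 1299 .nil .nil) .nil) .nil) .nil)))))))))) (.Y 1 1 (.S 1 1 0 0 (.C 0)) (.Y 8 48 (.D 3 20 48 1 1 (.C 1)) (.Y 9 49 (.D 3 20 49 0 0 (.C 0)) tr6_0_33)))))) (.Y 71 71 (.S 71 71 70 70 (.C 70)) (.Y 9 49 (.Y 19 39 (.D 9 50 19 6 36 (.C 6)) (.Y 23 63 (.D 9 50 23 10 60 (.C 10)) (.Y 31 41 (.D 13 5 31 19 39 (.C 19)) (.Y 35 65 (.D 13 5 35 23 63 (.C 23)) (.R (.cons 1363 (.cons 1362 (.cons 1298 (.cons 1235 (.cons 1236 (.cons 1299 .nil .nil) .nil) .nil) .nil) .nil) .nil)))))) (.Y 0 0 (.D 0 3 20 9 49 (.C 9)) (.Y 1 1 (.S 1 1 0 0 (.C 0)) (.Y 8 48 (.D 3 20 48 1 1 (.C 1)) (.Y 14 14 (.D 3 14 13 0 0 (.C 0)) (.Y 15 15 (.D 3 15 13 1 1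 (.C 1)) (.Y 16 26 (.D 3 16 25 0 0 (.C 0)) (.Y 17 27 (.D 3 17 25 1 1 (.C 1)) (.Y 28 28 (.D 5 28 25 0 0 (.C 0)) (.Y 29 29 (.D 5 29 25 1 1 (.C 1)) (.Y 56 56 (.D 3 20 56 9 49 (.C 9)) (.Y 57 57 (.D 3 20 57 8 48 (.C 8)) (.Y 2 12 (.Y 7 37 (.D 2 13 7 6 36 (.C 6)) (.Y 23 63 (.D 12 3 23 22 62 (.C 22)) (.Y 35 65 (.D 12 5 35 22 62 (.C 22)) (.R (.cons 1363 (.cons 1362 (.cons 1299 (.cons 1298 .nil .nil) .nil) .nil) .nil))))) (.Y 4 24 (.D 13 4 25 12 2 (.C 2)) (.Y 21 51 (.D 3 20 51 2 12 (.C 2)) (.Y 33 53 (.D 5 33 50 2 12 (.C 2)) (.R (.cons 1299 (.cons 1363 (.cons 1364 (.cons 1362 (.cons 1427 (.cons 1426 .nil .nil) .nil) .nil) (.cons 1364 .nil .nil)) (.cons 1363 (.cons 1364 (.cons 1427 (.cons 1426 .nil .nil) .nil) (.cons 1364 .nil .nil)) (.cons 1363 (.cons 1362 (.cons 1426 (.cons 1425 .nil .nil) .nil) .nil) .nil))) .nil))))))))))))))))))))))))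

/-- A part of the decision tree. -/
def tr6_0_35 : Tr :=
  (.Y 18 38 (.D 3 18 36 1 1 (.C 1)) (.Y 33 53 (.D 3 20 53 4 24 (.C 4)) (.Y 43 43 (.D 6 43 36 1 1 (.C 1)) (.Y 57 57 (.D 3 20 57 8 48 (.C 8)) (.Y 71 71 (.D 3 23 71 11 61 (.C 11)) (.Y 17 27 (.Y 0 0 (.D 0 3 17 4 24 (.C 4)) (.Y 9 49 (.D 3 20 49 0 0 (.C 0)) (.Y 10 60 (.D 3 23 60 0 0 (.C 0)) (.Y 14 14 (.D 3 14 13 0 0 (.C 0)) (.Y 19 39 (.D 3 19 36 0 0 (.C 0)) (.Y 28 28 (.D 3 17 28 4 24 (.C 4)) (.Y 29 29 (.D 3 17 29 5 25 (.C 5)) (.Y 42 42 (.D 6 42 36 0 0 (.C 0)) (.Y 56 56 (.D 3 20 56 9 49 (.C 9)) (.Y 59 69 (.D 3 23 69 9 49 (.C 9)) (.Y 70 70 (.D 3 23 70 10 60 (.C 10)) (.Y 2 12 (.R (.cons 1237 (.cons 1236 (.cons 1299 .nil (.cons 1173 .nil (.cons 1173 .nil (.cons 1299 .nil .nil)))) (.cons 1236 (.cons 1299 .nil (.cons 1173 .nil (.cons 1173 .nil (.cons 1299 .nil .nil))))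 (.cons 1236 (.cons 1299 .nil (.cons 1299 (.cons 1363 .nil (.cons 1363 .nil (.cons 1363 .nil (.cons 1363 .nil .nil)))) (.cons 1299 (.cons 1363 .nil (.cons 1363 .nil (.cons 1363 .nil (.cons 1363 .nil .nil)))) (.cons 1299 .nil .nil)))) (.cons 1236 (.cons 1299 .nil (.cons 1299 (.cons 1363 .nil (.cons 1363 .nil (.cons 1363 .nil (.cons 1363 .nil .nil)))) (.cons 1299 (.cons 1363 .nil (.cons 1363 .nil (.cons 1363 .nil (.cons 1363 .nil .nil)))) (.cons 1299 .nil .nil)))) .nil)))) .nil)) (.R (.cons 1364 (.cons 1363 .nil (.cons 1363 .nil (.cons 1363 .nil .nil))) .nil)))))))))))))) (.Y 30 40 (.D 13 6 40 17 27 (.C 17)) (.Y 10 60 (.Y 2 12 (.D 2 23 60 1 1 (.C 1)) (.Y 7 37 (.D 13 6 37 12 2 (.C 2)) (.Y 16 26 (.D 10 63 16 5 25 (.C 5)) (.Y 21 51 (.D 3 20 51 2 12 (.C 2)) (.Y 22 62 (.D 3 22 60 1 1 (.C 1)) (.Y 31 41 (.D 13 6 41 16 26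 (.C 16)) (.Y 44 54 (.D 6 44 50 2 12 (.C 2)) (.Y 47 67 (.D 6 47 60 1 1 (.C 1)) (.Y 28 28 (.D 13 10 63 14 14 (.D 60 3 20 69 59 (.T 17))) (.Y 29 29 (.S 29 29 28 28 (.C 28)) (.R (.cons 1237 .nil .nil)))))))))))) (.Y 0 0 (.D 0 3 23 10 60 (.C 10)) (.Y 9 49 (.D 3 20 49 0 0 (.C 0)) (.Y 14 14 (.D 3 14 13 0 0 (.C 0)) (.Y 19 39 (.D 3 19 36 0 0 (.C 0)) (.Y 42 42 (.D 6 42 36 0 0 (.C 0)) (.Y 56 56 (.D 3 20 56 9 49 (.C 9)) (.Y 59 69 (.D 3 23 69 9 49 (.C 9)) (.R (.cons 1237 (.cons 1301 (.cons 1236 (.cons 1299 .nil (.cons 1173 .nil (.cons 1299 .nil .nil))) .nil) (.cons 1236 (.cons 1299 .nil (.cons 1173 .nil (.cons 1299 .nil (.cons 1173 .nil .nil)))) (.cons 1301 (.cons 1364 .nil (.cons 1364 .nil .nil)) (.cons 1236 (.cons 1299 .nil (.cons 1173 .nil (.cons 1299 .nil (.cons 1173 .nil .nil)))) .nil)))) .nil)))))))))))))))))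

/-- A part of the decision tree. -/
def tr6_0_36 : Tr :=
  (.Y 1 1 (.S 1 1 0 0 (.D 0 1 10 11 61 (.C 11))) (.Y 2 12 (.D 2 13 10 11 61 (.C 11)) (.Y 8 48 (.D 3 20 48 1 1 (.C 1)) (.Y 15 15 (.D 3 15 13 1 1 (.C 1)) (.Y 17 27 (.D 60 3 17 64 34 (.C 34)) (.Y 21 51 (.D 3 20 51 2 12 (.C 2)) (.Y 22 62 (.D 3 22 60 1 1 (.C 1)) (.Y 57 57 (.D 3 20 57 8 48 (.C 8)) (.Y 71 71 (.D 10 71 60 1 1 (.C 1)) (.Y 16 26 (.Y 0 0 (.D 0 3 16 5 25 (.C 5)) (.Y 4 24 (.D 3 16 24 1 1 (.C 1)) (.Y 9 49 (.D 3 20 49 0 0 (.C 0)) (.Y 14 14 (.D 3 14 13 0 0 (.C 0)) (.Y 23 63 (.D 3 23 60 0 0 (.C 0)) (.Y 28 28 (.D 3 16 28 5 25 (.C 5)) (.Y 29 29 (.D 3 16 29 4 24 (.C 4)) (.Y 31 41 (.D 3 16 31 6 36 (.C 6)) (.Y 33 53 (.D 3 20 53 4 24 (.C 4)) (.Y 56 56 (.D 3 20 56 9 49 (.C 9)) (.Y 70 70 (.D 10 70 60 0 0 (.C 0)) (.Y 44 54 (.T 6) (.R (.cons 1299 (.cons 1236 (.cons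 1363 (.cons 1235 (.cons 1172 .nil .nil) .nil) .nil) (.cons 1236 (.cons 1235 .nil .nil) .nil)) .nil)))))))))))))) (.Y 35 65 (.D 13 10 65 16 26 (.C 16)) (.Y 70 70 (.Y 4 24 (.D 24 10 70 34 64 (.C 34)) (.Y 19 39 (.D 10 70 60 0 0 (.D 0 3 19 6 36 (.C 6))) (.Y 33 53 (.D 3 20 53 4 24 (.C 4)) (.Y 46 66 (.D 10 70 66 6 36 (.C 6)) (.Y 31 41 (.D 10 70 60 0 0 (.T 18)) (.Y 28 28 (.Y 7 37 (.D 10 70 60 0 0 (.D 37 0 7 42 42 (.T 21))) (.Y 18 38 (.D 10 70 60 0 0 (.D 0 3 18 7 37 (.C 7))) (.Y 44 54 (.D 3 20 54 7 37 (.C 7)) (.Y 47 67 (.D 10 70 67 7 37 (.C 7)) (.Y 42 42 (.D 10 70 60 0 0 (.T 21)) (.Y 30 40 (.D 40 28 30 42 42 (.C 42)) (.R (.cons 1236 (.cons 1237 .nil .nil) .nil)))))))) (.Y 29 29 (.S 29 29 28 28 (.C 28)) (.R (.cons 1237 (.cons 1236 (.cons 1299 (.cons 1363 .nil (.cons 1362 (.cons 1363 .nil .nil) .nil)) .nil) .nil) .nil)))))))))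 (.Y 0 0 (.D 60 0 10 70 70 (.C 70)) (.Y 9 49 (.D 3 20 49 0 0 (.C 0)) (.Y 14 14 (.D 3 14 13 0 0 (.C 0)) (.Y 23 63 (.D 3 23 60 0 0 (.C 0)) (.Y 56 56 (.D 3 20 56 9 49 (.C 9)) (.Y 4 24 (.Y 28 28 (.D 4 28 24 0 0 (.C 0)) (.Y 29 29 (.D 4 29 24 1 1 (.C 1)) (.Y 7 37 (.Y 18 38 (.D 3 18 37 0 0 (.C 0)) (.R (.cons 1301 (.cons 1237 .nil (.cons 1237 (.cons 1364 (.cons 1238 (.cons 1174 (.cons 1173 (.cons 1236 .nil .nil) .nil) .nil) .nil) .nil) (.cons 1364 (.cons 1363 .nil .nil) .nil))) .nil))) (.R (.cons 1364 (.cons 1301 (.cons 1237 (.cons 1363 (.cons 1238 (.cons 1302 .nil .nil) .nil) .nil) .nil) (.cons 1301 (.cons 1237 (.cons 1238 (.cons 1174 (.cons 1173 .nil .nil) .nil) .nil) (.cons 1237 (.cons 1238 (.cons 1174 (.cons 1173 .nil .nil) .nil) .nil) .nil)) (.cons 1301 (.cons 1365 .nil .nil) .nil))) .nil))))) (.Y 33 53 (.D 3 20 53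 4 24 (.C 4)) (.Y 7 37 (.Y 18 38 (.D 3 18 37 0 0 (.C 0)) (.Y 19 39 (.D 3 19 37 1 1 (.C 1)) (.R (.cons 1301 (.cons 1237 .nil (.cons 1364 (.cons 1363 (.cons 1299 .nil .nil) .nil) .nil)) .nil)))) (.R (.cons 1364 (.cons 1301 (.cons 1237 (.cons 1238 .nil .nil) .nil) (.cons 1301 (.cons 1237 (.cons 1363 (.cons 1299 (.cons 1236 .nil .nil) .nil) .nil) .nil) .nil)) .nil))))))))))))))))))))))

/-- A part of the decision tree. -/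
def tr6_0_37 : Tr :=
  (.Y 0 0 (.Y 16 26 (.D 0 3 16 5 25 (.C 5)) (.Y 19 39 (.D 0 3 19 6 36 (.C 6)) (.Y 22 62 (.D 0 3 22 11 61 (.C 11)) (.Y 23 63 (.D 0 3 23 10 60 (.C 10)) (.Y 35 65 (.Y 4 24 (.D 0 4 35 11 61 (.C 11)) (.Y 17 27 (.D 0 3 17 4 24 (.C 4)) (.Y 29 29 (.S 29 29 28 28 (.D 28 29 35 34 64 (.C 34))) (.Y 33 53 (.D 3 20 53 4 24 (.C 4)) (.Y 71 71 (.D 35 71 65 29 29 (.C 29)) (.Y 42 42 (.D 0 3 20 9 49 (.D 13 0 3 14 14 (.T 5))) (.Y 7 37 (.D 37 0 7 42 42 (.C 42)) (.Y 18 38 (.D 0 3 18 7 37 (.C 7)) (.Y 43 43 (.S 43 43 42 42 (.C 42)) (.Y 44 54 (.D 3 20 54 7 37 (.C 7)) (.Y 31 41 (.Y 28 28 (.D 41 28 31 42 42 (.C 42)) (.Y 30 40 (.D 30 41 35 34 64 (.C 34)) (.Y 46 66 (.D 31 46 65 28 28 (.C 28)) (.Y 47 67 (.D 31 47 65 29 29 (.C 29)) (.Y 70 70 (.D 35 70 65 28 28 (.C 28)) (.R (.cons 1236 (.cons 1299 (.cons 1363 (.cons 1362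 .nil .nil) .nil) .nil) .nil))))))) (.Y 21 51 (.Y 28 28 (.Y 30 40 (.D 40 28 30 42 42 (.C 42)) (.Y 46 66 (.D 28 35 66 31 41 (.C 31)) (.Y 47 67 (.D 28 35 67 30 40 (.C 30)) (.R (.cons 1236 .nil .nil))))) (.R (.cons 1237 (.cons 1236 (.cons 1299 (.cons 1363 .nil (.cons 1363 (.cons 1301 (.cons 1364 .nil (.cons 1364 .nil .nil)) .nil) .nil)) (.cons 1299 (.cons 1363 .nil (.cons 1235 .nil .nil)) .nil)) (.cons 1236 (.cons 1299 (.cons 1363 .nil (.cons 1363 (.cons 1301 (.cons 1364 .nil (.cons 1364 .nil .nil)) .nil) .nil)) .nil) .nil)) .nil))) (.R (.cons 1236 (.cons 1237 (.cons 1299 (.cons 1363 (.cons 1364 (.cons 1301 .nil .nil) .nil) .nil) .nil) (.cons 1237 (.cons 1299 (.cons 1301 (.cons 1363 (.cons 1364 .nil .nil) .nil) .nil) .nil) (.cons 1299 (.cons 1235 .nil .nil) .nil))) .nil)))))))))))))) (.Y 70 70 (.Y 31 41 (.T 18) (.Y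 7 37 (.Y 1 1 (.D 0 1 7 6 36 (.C 6)) (.Y 2 12 (.D 0 2 13 1 1 (.C 1)) (.Y 4 24 (.D 24 0 7 31 41 (.C 31)) (.Y 8 48 (.D 3 20 48 1 1 (.C 1)) (.Y 15 15 (.D 3 15 13 1 1 (.C 1)) (.Y 17 27 (.D 0 3 17 4 24 (.C 4)) (.Y 21 51 (.D 3 20 51 2 12 (.C 2)) (.Y 30 40 (.D 0 7 40 5 25 (.C 5)) (.Y 33 53 (.D 3 20 53 4 24 (.C 4)) (.Y 43 43 (.D 7 43 37 1 1 (.C 1)) (.Y 46 66 (.D 0 7 46 11 61 (.C 11)) (.Y 47 67 (.D 0 7 47 10 60 (.C 10)) (.Y 57 57 (.D 3 20 57 8 48 (.C 8)) (.Y 28 28 (.D 37 0 7 42 42 (.T 21)) (.R (.cons 1237 (.cons 1236 .nil .nil) .nil)))))))))))))))) (.Y 18 38 (.D 0 3 18 7 37 (.C 7)) (.Y 44 54 (.D 3 20 54 7 37 (.C 7)) (.Y 28 28 (.Y 42 42 (.T 21) (.Y 30 40 (.D 40 28 30 42 42 (.C 42)) (.Y 43 43 (.S 43 43 42 42 (.C 42)) (.Y 46 66 (.D 46 70 66 42 42 (.C 42)) (.Y 47 67 (.D 47 70 67 42 42 (.C 42)) (.R (.cons 1236 .nil .nil)))))))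 (.Y 4 24 (.D 24 0 4 28 28 (.C 28)) (.Y 17 27 (.D 0 3 17 4 24 (.C 4)) (.Y 29 29 (.S 29 29 28 28 (.C 28)) (.Y 33 53 (.D 3 20 53 4 24 (.C 4)) (.R (.cons 1237 (.cons 1236 (.cons 1299 (.cons 1363 .nil (.cons 1363 .nil .nil)) .nil) .nil) .nil))))))))))) (.Y 71 71 (.S 71 71 70 70 (.C 70)) (.Y 21 51 (.Y 4 24 (.D 24 3 21 32 52 (.C 32)) (.Y 7 37 (.D 37 3 21 45 55 (.C 45)) (.Y 17 27 (.D 0 3 17 4 24 (.C 4)) (.Y 18 38 (.D 0 3 18 7 37 (.C 7)) (.Y 29 29 (.D 3 20 51 2 12 (.D 0 2 13 1 1 (.S 1 29 4 24 (.C 4)))) (.Y 33 53 (.D 3 20 53 4 24 (.C 4)) (.Y 43 43 (.D 3 20 51 2 12 (.D 0 2 13 1 1 (.S 1 43 6 36 (.C 6)))) (.Y 44 54 (.D 3 21 54 6 36 (.C 6)) (.Y 28 28 (.Y 47 67 (.T 10) (.R (.cons 1363 (.cons 1362 (.cons 1299 .nil .nil) .nil) .nil))) (.R (.cons 1237 (.cons 1301 (.cons 1364 (.cons 1363 .nil .nil) .nil) (.cons 1236 (.cons 1299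 (.cons 1363 .nil (.cons 1363 .nil .nil)) .nil) .nil)) .nil))))))))))) (.Y 1 1 (.D 0 1 3 2 12 (.D 0 3 20 9 49 (.D 12 0 9 21 51 (.C 21)))) (.Y 2 12 (.D 0 2 13 1 1 (.C 1)) (.R (.cons 1363 (.cons 1364 (.cons 1427 .nil (.cons 1301 .nil .nil)) (.cons 1299 (.cons 1362 (.cons 1236 (.cons 1235 (.cons 1298 .nil (.cons 1172 .nil .nil)) (.cons 1237 (.cons 1173 (.cons 1172 .nil (.cons 1174 .nil .nil)) .nil) .nil)) .nil) (.cons 1362 .nil .nil)) .nil)) .nil)))))))))))) (.Y 1 1 (.S 1 1 0 0 (.C 0)) (.Y 8 48 (.D 3 20 48 1 1 (.C 1)) (.Y 9 49 (.D 3 20 49 0 0 (.C 0)) (.Y 14 14 (.D 3 14 13 0 0 (.C 0)) (.Y 15 15 (.D 3 15 13 1 1 (.C 1)) (.Y 56 56 (.D 3 20 56 9 49 (.C 9)) (.Y 57 57 (.D 3 20 57 8 48 (.C 8)) (.Y 2 12 (.Y 4 24 (.D 2 13 4 5 25 (.C 5)) (.Y 7 37 (.D 2 13 7 6 36 (.C 6)) (.Y 33 53 (.D 3 20 53 4 24 (.C 4)) (.R (.cons 1364 (.cons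 1363 .nil (.cons 1301 (.cons 1237 (.cons 1238 .nil (.cons 1236 (.cons 1299 (.cons 1363 (.cons 1362 .nil .nil) .nil) .nil) (.cons 1238 .nil .nil))) (.cons 1365 .nil .nil)) .nil)) .nil))))) (.Y 21 51 (.D 3 20 51 2 12 (.C 2)) (.Y 4 24 (.Y 16 26 (.D 3 16 24 1 1 (.C 1)) (.Y 17 27 (.D 3 17 24 0 0 (.C 0)) (.Y 23 63 (.D 24 3 23 34 64 (.C 34)) (.Y 28 28 (.D 4 28 24 0 0 (.C 0)) (.Y 29 29 (.D 4 29 24 1 1 (.C 1)) (.Y 7 37 (.Y 18 38 (.D 3 18 37 0 0 (.C 0)) (.R (.cons 1299 (.cons 1363 (.cons 1362 (.cons 1298 .nil .nil) (.cons 1364 (.cons 1427 .nil (.cons 1301 .nil .nil)) .nil)) (.cons 1236 (.cons 1237 (.cons 1301 (.cons 1364 .nil .nil) (.cons 1301 (.cons 1364 .nil .nil) .nil)) (.cons 1235 .nil .nil)) (.cons 1363 (.cons 1362 .nil (.cons 1364 .nil .nil)) .nil))) .nil))) (.Y 44 54 (.D 3 20 54 7 37 (.C 7)) (.R (.cons 1299 (.cons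 1364 (.cons 1363 .nil (.cons 1363 (.cons 1301 (.cons 1237 (.cons 1236 (.cons 1173 (.cons 1172 .nil (.cons 1235 (.cons 1298 .nil (.cons 1172 .nil .nil)) .nil)) .nil) (.cons 1236 (.cons 1235 .nil (.cons 1173 .nil .nil)) .nil)) (.cons 1365 .nil .nil)) .nil) .nil)) (.cons 1363 (.cons 1362 .nil (.cons 1364 .nil .nil)) .nil)) .nil))))))))) (.R (.cons 1364 (.cons 1363 .nil (.cons 1301 (.cons 1365 (.cons 1302 .nil .nil) .nil) .nil)) .nil)))))))))))))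

/-- A part of the decision tree. -/
def tr6_0_38 : Tr :=
  (.Y 32 52 (.D 3 20 52 5 25 (.C 5)) (.Y 6 36 (.Y 35 65 (.D 36 3 20 45 55 (.T 34)) (.Y 23 63 (.Y 1 1 (.D 1 3 23 11 61 (.C 11)) (.Y 4 24 (.D 24 3 23 34 64 (.C 34)) (.Y 8 48 (.D 3 20 48 1 1 (.C 1)) (.Y 15 15 (.D 3 15 13 1 1 (.C 1)) tr6_0_35)))) (.Y 46 66 (.D 13 6 46 23 63 (.C 23)) (.Y 17 27 (.Y 1 1 (.D 1 3 17 5 25 (.C 5)) (.Y 8 48 (.D 3 20 48 1 1 (.C 1)) (.Y 10 60 (.D 60 3 17 64 34 (.C 34)) (.Y 15 15 (.D 3 15 13 1 1 (.C 1)) (.Y 18 38 (.D 3 18 36 1 1 (.C 1)) (.Y 29 29 (.D 3 17 29 5 25 (.C 5)) (.Y 43 43 (.D 6 43 36 1 1 (.C 1)) (.Y 57 57 (.D 3 20 57 8 48 (.C 8)) (.Y 59 69 (.D 3 20 59 10 60 (.C 10)) (.Y 70 70 (.Y 22 62 (.D 3 22 70 11 61 (.C 11)) (.Y 47 67 (.D 6 47 70 11 61 (.C 11)) (.Y 56 56 (.T 22) (.Y 0 0 (.D 0 3 20 9 49 (.D 49 0 9 56 56 (.C 56))) (.Y 4 24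 (.D 3 17 24 0 0 (.C 0)) (.Y 9 49 (.D 3 20 49 0 0 (.C 0)) (.Y 14 14 (.D 3 14 13 0 0 (.C 0)) (.R (.cons 1363 (.cons 1299 (.cons 1364 (.cons 1365 (.cons 1428 .nil (.cons 1301 .nil .nil)) .nil) .nil) (.cons 1364 .nil .nil)) .nil))))))))) (.Y 71 71 (.S 71 71 70 70 (.C 70)) (.Y 0 0 (.Y 2 12 (.D 0 2 13 1 1 (.C 1)) (.Y 7 37 (.D 0 6 37 1 1 (.C 1)) (.Y 16 26 (.D 3 16 27 2 12 (.C 2)) (.Y 21 51 (.D 3 20 51 2 12 (.C 2)) (.Y 22 62 (.D 0 3 22 11 61 (.C 11)) (.R (.cons 1363 (.cons 1427 (.cons 1364 .nil .nil) .nil) .nil))))))) (.Y 4 24 (.D 3 17 24 0 0 (.C 0)) (.R (.cons 1363 (.cons 1364 (.cons 1365 (.cons 1301 .nil (.cons 1301 (.cons 1237 (.cons 1236 (.cons 1299 (.cons 1235 (.cons 1172 .nil .nil) (.cons 1235 .nil .nil)) (.cons 1173 (.cons 1172 .nil .nil) .nil)) .nil) .nil) .nil)) (.cons 1427 (.cons 1426 (.cons 1490 .nil .nil)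 .nil) .nil)) (.cons 1364 (.cons 1427 .nil .nil) .nil)) .nil))))))))))))))) (.Y 30 40 (.D 13 6 40 17 27 (.C 17)) (.Y 10 60 (.Y 0 0 (.D 13 0 10 23 63 (.C 23)) (.Y 1 1 (.S 1 1 0 0 (.C 0)) (.Y 2 12 (.D 2 13 10 11 61 (.C 11)) (.Y 7 37 (.D 13 6 37 12 2 (.C 2)) (.Y 8 48 (.D 3 20 48 1 1 (.C 1)) (.Y 9 49 (.D 3 20 49 0 0 (.C 0)) (.Y 14 14 (.D 3 14 13 0 0 (.C 0)) (.Y 15 15 (.D 3 15 13 1 1 (.C 1)) (.Y 16 26 (.D 60 3 16 65 35 (.C 35)) (.Y 18 38 (.D 3 18 36 1 1 (.C 1)) (.Y 19 39 (.D 3 19 36 0 0 (.C 0)) (.Y 21 51 (.D 3 20 51 2 12 (.C 2)) (.Y 22 62 (.D 3 22 60 1 1 (.C 1)) (.R (.cons 1301 (.cons 1237 .nil (.cons 1364 .nil .nil)) .nil))))))))))))))) (.Y 59 69 (.D 3 20 59 10 60 (.C 10)) (.Y 70 70 (.Y 22 62 (.D 3 22 70 11 61 (.C 11)) (.Y 47 67 (.D 6 47 70 11 61 (.C 11)) (.Y 0 0 (.Y 4 24 (.D 13 0 4 17 27 (.C 17)) (.Y 16 26 (.D 0 3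 16 5 25 (.C 5)) (.Y 31 41 (.D 0 6 41 5 25 (.C 5)) (.Y 33 53 (.D 3 20 53 4 24 (.C 4)) (.Y 28 28 (.D 36 0 6 42 42 (.T 21)) (.Y 29 29 (.S 29 29 28 28 (.C 28)) (.R (.cons 1237 .nil .nil)))))))) (.Y 1 1 (.S 1 1 0 0 (.C 0)) (.Y 8 48 (.D 3 20 48 1 1 (.C 1)) (.Y 9 49 (.D 3 20 49 0 0 (.C 0)) (.Y 14 14 (.D 3 14 13 0 0 (.C 0)) (.Y 15 15 (.D 3 15 13 1 1 (.C 1)) (.Y 18 38 (.D 3 18 36 1 1 (.C 1)) (.Y 19 39 (.D 3 19 36 0 0 (.C 0)) (.R (.cons 1363 (.cons 1299 (.cons 1362 .nil (.cons 1236 (.cons 1237 .nil .nil) (.cons 1236 (.cons 1235 (.cons 1298 .nil (.cons 1172 .nil .nil)) (.cons 1237 (.cons 1173 .nil (.cons 1173 .nil .nil)) .nil)) .nil))) (.cons 1364 (.cons 1301 .nil (.cons 1427 .nil .nil)) .nil)) .nil)))))))))))) (.Y 71 71 (.S 71 71 70 70 (.C 70)) (.Y 0 0 (.Y 4 24 (.D 13 0 4 17 27 (.C 17)) (.Y 16 26 (.D 0 3 16 5 25 (.C 5))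 (.Y 22 62 (.D 0 3 22 11 61 (.C 11)) (.Y 31 41 (.D 0 6 41 5 25 (.C 5)) (.Y 33 53 (.D 3 20 53 4 24 (.C 4)) (.Y 47 67 (.D 0 6 47 11 61 (.C 11)) (.R (.cons 1363 .nil .nil)))))))) (.Y 1 1 (.S 1 1 0 0 (.C 0)) (.Y 8 48 (.D 3 20 48 1 1 (.C 1)) (.Y 9 49 (.D 3 20 49 0 0 (.C 0)) (.Y 14 14 (.D 3 14 13 0 0 (.C 0)) (.Y 15 15 (.D 3 15 13 1 1 (.C 1)) (.Y 18 38 (.D 3 18 36 1 1 (.C 1)) (.Y 19 39 (.D 3 19 36 0 0 (.C 0)) (.Y 42 42 (.D 6 42 36 0 0 (.C 0)) (.Y 43 43 (.D 6 43 36 1 1 (.C 1)) (.Y 56 56 (.D 3 20 56 9 49 (.C 9)) (.Y 57 57 (.D 3 20 57 8 48 (.C 8)) (.Y 2 12 (.Y 4 24 (.D 2 13 4 5 25 (.C 5)) (.R (.cons 1363 (.cons 1364 (.cons 1427 (.cons 1426 .nil .nil) .nil) (.cons 1364 .nil .nil)) .nil))) (.R (.cons 1363 (.cons 1364 (.cons 1301 (.cons 1237 (.cons 1365 (.cons 1428 .nil .nil) .nil) .nil) .nil) (.cons 1364 (.cons 1427 .nil .nil)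 .nil)) .nil)))))))))))))))))))))))) (.Y 45 55 (.D 3 20 55 6 36 (.C 6)) (.Y 10 60 tr6_0_36 (.Y 59 69 (.D 3 20 59 10 60 (.C 10)) tr6_0_37)))))

/-- A part of the decision tree. -/
def tr6_0_39 : Tr :=
  (.Y 17 27 (.Y 0 0 (.D 0 3 17 4 24 (.C 4)) (.Y 1 1 (.S 1 1 0 0 (.C 0)) (.Y 5 25 (.D 3 17 25 1 1 (.C 1)) (.Y 10 60 (.D 60 3 17 64 34 (.C 34)) (.Y 14 14 (.D 3 14 13 0 0 (.C 0)) (.Y 15 15 (.D 3 15 13 1 1 (.C 1)) (.Y 18 38 (.D 3 18 36 1 1 (.C 1)) (.Y 19 39 (.D 3 19 36 0 0 (.C 0)) (.Y 21 51 (.D 3 21 53 5 25 (.C 5)) (.Y 28 28 (.D 3 17 28 4 24 (.C 4)) (.Y 29 29 (.D 3 17 29 5 25 (.C 5)) (.Y 42 42 (.D 6 42 36 0 0 (.C 0)) (.Y 43 43 (.D 6 43 36 1 1 (.C 1)) (.Y 44 54 (.D 6 44 53 5 25 (.C 5)) (.Y 56 56 (.D 17 33 56 20 50 (.C 20)) (.Y 57 57 (.D 17 33 57 21 51 (.C 21)) (.Y 59 69 (.D 17 33 59 23 63 (.C 23)) (.Y 2 12 (.Y 11 61 (.D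 2 13 11 10 60 (.C 10)) (.Y 22 62 (.D 12 3 22 23 63 (.C 23)) (.Y 35 65 (.D 2 17 35 10 60 (.C 10)) (.Y 47 67 (.D 13 6 47 22 62 (.C 22)) (.Y 58 68 (.D 17 33 58 22 62 (.C 22)) (.R (.cons 1363 (.cons 1299 (.cons 1236 .nil (.cons 1236 .nil (.cons 1236 (.cons 1235 .nil .nil) .nil))) (.cons 1299 .nil .nil)) .nil))))))) (.Y 7 37 (.D 13 6 37 12 2 (.C 2)) (.Y 8 48 (.D 8 53 27 2 12 (.C 2)) (.R (.cons 1236 (.cons 1299 .nil (.cons 1299 .nil (.cons 1299 .nil (.cons 1299 (.cons 1235 .nil .nil) .nil)))) .nil)))))))))))))))))))))) (.Y 9 49 (.D 13 9 53 17 27 (.C 17)) (.Y 30 40 (.D 6 40 33 9 49 (.C 9)) (.Y 16 26 (.Y 1 1 (.D 1 3 16 4 24 (.C 4)) (.Y 2 12 (.D 2 16 33 9 49 (.C 9)) (.Y 7 37 (.D 13 6 37 12 2 (.C 2)) (.Y 11 61 (.D 61 3 16 64 34 (.C 34)) (.Y 15 15 (.D 3 15 13 1 1 (.C 1)) (.Y 18 38 (.D 3 18 36 1 1 (.C 1)) (.Y 29 29 (.D 3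 16 29 4 24 (.C 4)) (.Y 32 52 (.D 3 16 32 9 49 (.C 9)) (.Y 43 43 (.D 6 43 36 1 1 (.C 1)) (.Y 57 57 (.D 16 33 57 20 50 (.C 20)) (.Y 58 68 (.D 16 33 58 23 63 (.C 23)) (.Y 10 60 (.Y 0 0 (.D 13 0 10 23 63 (.C 23)) (.Y 5 25 (.D 3 16 25 0 0 (.C 0)) (.Y 14 14 (.D 3 14 13 0 0 (.C 0)) (.Y 19 39 (.D 3 19 36 0 0 (.C 0)) (.Y 21 51 (.D 3 21 53 5 25 (.C 5)) (.Y 22 62 (.D 3 22 60 1 1 (.C 1)) (.Y 28 28 (.D 3 16 28 5 25 (.C 5)) (.Y 42 42 (.D 6 42 36 0 0 (.C 0)) (.Y 44 54 (.D 6 44 53 5 25 (.C 5)) (.Y 47 67 (.D 6 47 60 1 1 (.C 1)) (.R (.cons 1236 (.cons 1299 .nil (.cons 1237 (.cons 1301 .nil .nil) .nil)) .nil)))))))))))) (.Y 35 65 (.D 3 16 35 10 60 (.C 10)) (.Y 28 28 (.Y 22 62 (.D 62 16 28 64 34 (.C 34)) (.Y 47 67 (.D 13 6 47 22 62 (.C 22)) (.Y 59 69 (.D 16 33 59 22 62 (.C 22)) (.Y 70 70 (.D 16 28 26 14 14 (.D 53 28 33 56 56 (.T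 23))) (.Y 71 71 (.S 71 71 70 70 (.C 70)) (.R (.cons 1363 .nil .nil))))))) (.Y 0 0 (.D 0 3 16 5 25 (.D 25 0 5 28 28 (.C 28))) (.Y 5 25 (.D 3 16 25 0 0 (.C 0)) (.Y 14 14 (.D 3 14 13 0 0 (.C 0)) (.Y 19 39 (.D 3 19 36 0 0 (.C 0)) (.Y 21 51 (.D 3 21 53 5 25 (.C 5)) (.Y 42 42 (.D 6 42 36 0 0 (.C 0)) (.Y 44 54 (.D 6 44 53 5 25 (.C 5)) (.Y 56 56 (.D 16 33 56 21 51 (.C 21)) (.R (.cons 1236 (.cons 1237 .nil (.cons 1299 .nil (.cons 1237 .nil .nil))) .nil)))))))))))))))))))))))) (.Y 8 48 (.D 13 8 53 16 26 (.C 16)) (.Y 31 41 (.D 6 41 33 8 48 (.C 8)) (.Y 28 28 (.Y 5 25 (.D 5 28 33 8 48 (.C 8)) (.Y 21 51 (.D 3 21 53 5 25 (.C 5)) (.Y 44 54 (.D 6 44 53 5 25 (.C 5)) (.Y 59 69 (.D 28 33 59 34 64 (.C 34)) (.Y 14 14 (.Y 10 60 (.D 60 3 14 63 23 (.C 23)) (.Y 35 65 (.D 53 28 33 56 56 (.D 65 28 35 70 70 (.T 23))) (.Y 58 68 (.D 28 33 58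 35 65 (.C 35)) (.Y 70 70 (.D 53 28 33 56 56 (.T 23)) (.R (.cons 1237 (.cons 1236 .nil (.cons 1236 (.cons 1299 .nil (.cons 1299 (.cons 1363 .nil .nil) .nil)) (.cons 1236 (.cons 1299 .nil (.cons 1173 .nil .nil)) (.cons 1301 .nil .nil)))) .nil)))))) (.Y 0 0 (.D 13 0 3 14 14 (.C 14)) (.Y 1 1 (.S 1 1 0 0 (.C 0)) (.Y 15 15 (.D 3 15 13 1 1 (.C 1)) (.Y 18 38 (.D 3 18 36 1 1 (.C 1)) (.Y 19 39 (.D 3 19 36 0 0 (.C 0)) (.R (.cons 1301 (.cons 1364 .nil (.cons 1237 .nil (.cons 1237 (.cons 1238 (.cons 1174 (.cons 1175 (.cons 1239 (.cons 1302 .nil .nil) .nil) .nil) .nil) (.cons 1236 (.cons 1299 (.cons 1235 .nil .nil) .nil) .nil)) .nil))) .nil)))))))))))) (.Y 29 29 (.S 29 29 28 28 (.C 28)) (.Y 56 56 (.D 33 56 53 28 28 (.C 28)) (.Y 57 57 (.D 33 57 53 29 29 (.C 29)) (.Y 7 37 (.Y 5 25 (.D 25 6 37 24 4 (.C 4)) (.Y 21 51 (.D 3 21 53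 5 25 (.C 5)) (.Y 22 62 (.D 37 3 22 46 66 (.C 46)) (.Y 44 54 (.D 7 44 53 4 24 (.C 4)) (.Y 47 67 (.D 13 6 47 22 62 (.C 22)) (.Y 14 14 (.Y 10 60 (.D 60 3 14 63 23 (.C 23)) (.Y 11 61 (.D 6 37 11 10 60 (.C 10)) (.Y 71 71 (.D 3 14 13 0 0 (.D 36 0 7 43 43 (.S 43 71 46 66 (.C 46)))) (.Y 70 70 (.T 19) (.Y 32 52 (.Y 35 65 (.D 32 53 35 34 64 (.C 34)) (.R (.cons 1237 (.cons 1236 (.cons 1299 (.cons 1363 (.cons 1364 (.cons 1301 .nil .nil) .nil) .nil) .nil) (.cons 1301 (.cons 1364 (.cons 1363 .nil .nil) .nil) .nil)) .nil))) (.Y 35 65 (.Y 58 68 (.D 33 58 65 28 28 (.C 28)) (.Y 59 69 (.D 33 59 65 29 29 (.C 29)) (.R (.cons 1299 (.cons 1363 (.cons 1362 (.cons 1427 (.cons 1364 .nil .nil) .nil) .nil) .nil) .nil)))) (.R (.cons 1237 (.cons 1236 (.cons 1299 (.cons 1363 (.cons 1362 .nil .nil) .nil) .nil) .nil) .nil)))))))) (.Y 0 0 (.D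 13 0 3 14 14 (.C 14)) (.Y 1 1 (.D 1 6 37 0 0 (.C 0)) (.Y 15 15 (.D 3 15 13 1 1 (.C 1)) (.Y 18 38 (.D 3 18 37 0 0 (.C 0)) (.R (.cons 1237 (.cons 1301 (.cons 1236 (.cons 1299 (.cons 1235 (.cons 1172 (.cons 1173 (.cons 1174 .nil .nil) .nil) .nil) (.cons 1235 .nil .nil)) (.cons 1173 .nil .nil)) .nil) (.cons 1301 .nil (.cons 1236 (.cons 1299 (.cons 1235 (.cons 1172 (.cons 1173 (.cons 1109 .nil .nil) .nil) .nil) .nil) .nil) .nil))) .nil)))))))))))) (.Y 1 1 (.S 1 1 0 0 (.D 0 1 6 7 37 (.C 7))) (.Y 2 12 (.D 2 13 6 7 37 (.C 7)) (.Y 15 15 (.D 3 15 13 1 1 (.C 1)) (.Y 18 38 (.D 3 18 36 1 1 (.C 1)) (.Y 43 43 (.D 6 43 36 1 1 (.C 1)) (.Y 5 25 (.Y 0 0 (.D 0 5 33 8 48 (.C 8)) (.Y 14 14 (.D 3 14 13 0 0 (.C 0)) (.Y 19 39 (.D 3 19 36 0 0 (.C 0)) (.Y 22 62 (.D 25 3 22 34 64 (.C 34)) (.Y 32 52 (.D 5 32 53 4 24 (.C 4)) (.Y 35 65 (.D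 13 5 35 23 63 (.C 23)) (.Y 42 42 (.D 6 42 36 0 0 (.C 0)) (.R (.cons 1237 (.cons 1236 .nil (.cons 1301 .nil .nil)) .nil))))))))) (.Y 21 51 (.D 3 21 53 5 25 (.C 5)) (.Y 44 54 (.D 6 44 53 5 25 (.C 5)) (.R (.cons 1237 (.cons 1301 .nil (.cons 1301 .nil (.cons 1236 .nil .nil))) .nil)))))))))))))))))))))

/-- A part of the decision tree. -/
def tr6_0_40 : Tr :=
  (.Y 21 51 (.D 3 21 58 10 60 (.C 10)) (.Y 22 62 (.D 3 22 68 9 49 (.C 9)) (.Y 35 65 (.D 3 17 35 11 61 (.C 11)) (.Y 44 54 (.D 6 44 58 10 60 (.C 10)) (.Y 47 67 (.D 6 47 68 9 49 (.C 9)) (.Y 57 57 (.S 57 57 56 56 (.D 56 57 58 59 69 (.C 59))) (.Y 71 71 (.D 58 71 68 57 57 (.C 57)) (.Y 2 12 (.D 36 3 17 40 30 (.T 15)) (.Y 1 1 (.S 1 1 0 0 (.D 0 1 3 2 12 (.C 2))) (.Y 5 25 (.D 3 17 25 1 1 (.C 1)) (.Y 7 37 (.D 13 6 37 12 2 (.C 2)) (.Y 15 15 (.D 3 15 13 1 1 (.C 1)) (.Y 16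 26 (.D 3 16 27 2 12 (.C 2)) (.Y 18 38 (.D 3 18 36 1 1 (.C 1)) (.Y 29 29 (.D 3 17 29 5 25 (.C 5)) (.Y 31 41 (.D 6 41 27 2 12 (.C 2)) (.Y 43 43 (.D 6 43 36 1 1 (.C 1)) (.Y 56 56 (.D 68 56 58 70 70 (.T 22)) (.Y 70 70 (.D 58 70 68 56 56 (.C 56)) (.Y 0 0 (.Y 8 48 (.D 0 8 58 10 60 (.C 10)) (.R (.cons 1299 (.cons 1363 (.cons 1362 (.cons 1426 (.cons 1425 (.cons 1361 (.cons 1298 (.cons 1297 .nil .nil) .nil) .nil) .nil) .nil) .nil) (.cons 1236 (.cons 1363 (.cons 1364 (.cons 1362 (.cons 1237 (.cons 1301 .nil (.cons 1301 .nil .nil)) .nil) .nil) .nil) .nil) .nil)) .nil))) (.Y 4 24 (.D 3 17 24 0 0 (.C 0)) (.R (.cons 1299 (.cons 1363 (.cons 1364 .nil .nil) (.cons 1236 (.cons 1237 (.cons 1301 (.cons 1364 .nil .nil) .nil) .nil) (.cons 1363 (.cons 1364 (.cons 1362 (.cons 1427 (.cons 1426 .nil .nil) .nil) .nil) .nil) .nil))) .nil)))))))))))))))))))))))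

/-- A part of the decision tree. -/
def tr6_0_41 : Tr :=
  (.Y 59 69 (.T 16) (.Y 58 68 (.Y 11 61 (.D 13 11 68 20 50 (.C 20)) tr6_0_40) (.Y 56 56 (.Y 70 70 (.T 22) (.Y 71 71 (.S 71 71 70 70 (.C 70)) (.Y 7 37 (.Y 8 48 (.D 6 37 8 9 49 (.C 9)) (.Y 11 61 (.D 6 37 11 10 60 (.C 10)) (.Y 21 51 (.D 3 21 56 8 48 (.C 8)) (.Y 32 52 (.D 3 17 32 8 48 (.C 8)) (.Y 35 65 (.D 3 17 35 11 61 (.C 11)) (.Y 44 54 (.D 6 44 56 8 48 (.C 8)) (.Y 23 63 (.Y 0 0 (.D 0 3 23 10 60 (.C 10)) (.Y 1 1 (.D 1 6 37 0 0 (.C 0)) (.Y 4 24 (.D 3 17 24 0 0 (.C 0)) (.Y 5 25 (.D 3 17 25 1 1 (.C 1)) (.Y 14 14 (.D 3 14 13 0 0 (.C 0)) (.Y 15 15 (.D 3 15 13 1 1 (.C 1)) (.Y 18 38 (.D 3 18 37 0 0 (.C 0)) (.Y 19 39 (.D 3 19 36 0 0 (.C 0)) (.Y 28 28 (.D 3 17 28 4 24 (.C 4)) (.R (.cons 1299 (.cons 1363 .nil (.cons 1236 (.cons 1235 .nil (.cons 1235 (.cons 1172 .nil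 .nil) (.cons 1237 (.cons 1173 .nil .nil) .nil))) .nil)) .nil))))))))))) (.Y 22 62 (.D 13 6 37 12 2 (.D 12 3 22 23 63 (.C 23))) (.R (.cons 1299 (.cons 1363 .nil (.cons 1236 (.cons 1363 (.cons 1364 (.cons 1427 .nil .nil) .nil) .nil) .nil)) .nil)))))))))) (.Y 1 1 (.S 1 1 0 0 (.D 0 1 6 7 37 (.C 7))) (.Y 2 12 (.D 2 13 6 7 37 (.C 7)) (.Y 5 25 (.D 3 17 25 1 1 (.C 1)) (.Y 15 15 (.D 3 15 13 1 1 (.C 1)) (.Y 16 26 (.D 3 16 27 2 12 (.C 2)) (.Y 18 38 (.D 3 18 36 1 1 (.C 1)) (.Y 29 29 (.D 3 17 29 5 25 (.C 5)) (.Y 31 41 (.D 6 41 27 2 12 (.C 2)) (.Y 43 43 (.D 6 43 36 1 1 (.C 1)) (.Y 0 0 (.Y 11 61 (.D 61 0 11 70 70 (.C 70)) (.Y 22 62 (.D 0 3 22 11 61 (.C 11)) (.Y 23 63 (.D 0 3 23 10 60 (.C 10)) (.Y 35 65 (.D 3 17 35 11 61 (.C 11)) (.Y 46 66 (.D 0 6 46 10 60 (.C 10)) (.Y 47 67 (.D 0 6 47 11 61 (.C 11)) (.R (.cons 1363 .nil .nil))))))))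 (.Y 4 24 (.D 3 17 24 0 0 (.C 0)) (.Y 8 48 (.D 8 56 48 0 0 (.C 0)) (.Y 14 14 (.D 3 14 13 0 0 (.C 0)) (.Y 19 39 (.D 3 19 36 0 0 (.C 0)) (.Y 21 51 (.D 3 21 56 8 48 (.C 8)) (.Y 28 28 (.D 3 17 28 4 24 (.C 4)) (.Y 32 52 (.D 3 17 32 8 48 (.C 8)) (.R (.cons 1237 (.cons 1236 (.cons 1173 .nil (.cons 1173 .nil .nil)) (.cons 1236 (.cons 1299 (.cons 1235 .nil .nil) .nil) (.cons 1301 (.cons 1364 (.cons 1363 (.cons 1299 .nil .nil) .nil) .nil) .nil))) .nil)))))))))))))))))))))) (.Y 57 57 (.S 57 57 56 56 (.C 56)) (.Y 21 51 (.Y 0 0 (.D 0 3 21 8 48 (.D 48 0 8 56 56 (.C 56))) (.Y 1 1 (.S 1 1 0 0 (.C 0)) (.Y 2 12 (.D 12 3 21 20 50 (.C 20)) (.Y 4 24 (.D 3 17 24 0 0 (.C 0)) (.Y 5 25 (.D 3 17 25 1 1 (.C 1)) (.Y 7 37 (.D 13 6 37 12 2 (.C 2)) (.Y 8 48 (.D 3 21 48 0 0 (.C 0)) (.Y 11 61 (.D 61 3 21 69 59 (.C 59)) (.Y 14 14 (.D 3 14 13 0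 0 (.C 0)) (.Y 15 15 (.D 3 15 13 1 1 (.C 1)) (.Y 16 26 (.D 3 16 27 2 12 (.C 2)) (.Y 18 38 (.D 3 18 36 1 1 (.C 1)) (.Y 19 39 (.D 3 19 36 0 0 (.C 0)) (.Y 28 28 (.D 3 17 28 4 24 (.C 4)) (.Y 29 29 (.D 3 17 29 5 25 (.C 5)) (.Y 31 41 (.D 6 41 27 2 12 (.C 2)) (.Y 32 52 (.D 3 21 52 4 24 (.C 4)) (.R (.cons 1299 (.cons 1236 (.cons 1237 (.cons 1301 (.cons 1238 .nil .nil) .nil) .nil) (.cons 1363 .nil .nil)) .nil))))))))))))))))))) (.Y 44 54 (.D 13 6 44 21 51 (.C 21)) (.Y 0 0 (.Y 8 48 (.D 13 0 8 21 51 (.C 21)) (.R (.cons 1299 (.cons 1235 (.cons 1172 (.cons 1173 (.cons 1237 (.cons 1236 .nil .nil) .nil) .nil) .nil) .nil) .nil))) (.Y 1 1 (.S 1 1 0 0 (.C 0)) (.Y 4 24 (.D 3 17 24 0 0 (.C 0)) (.Y 5 25 (.D 3 17 25 1 1 (.C 1)) (.Y 14 14 (.D 3 14 13 0 0 (.C 0)) (.Y 15 15 (.D 3 15 13 1 1 (.C 1)) (.Y 18 38 (.D 3 18 36 1 1 (.C 1)) (.Y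 19 39 (.D 3 19 36 0 0 (.C 0)) (.Y 28 28 (.D 3 17 28 4 24 (.C 4)) (.Y 29 29 (.D 3 17 29 5 25 (.C 5)) (.Y 42 42 (.D 6 42 36 0 0 (.C 0)) (.Y 43 43 (.D 6 43 36 1 1 (.C 1)) (.Y 2 12 (.Y 8 48 (.D 2 13 8 9 49 (.C 9)) (.R (.cons 1299 (.cons 1235 (.cons 1236 .nil .nil) .nil) .nil))) (.Y 7 37 (.D 13 6 37 12 2 (.C 2)) (.R (.cons 1299 (.cons 1236 (.cons 1235 .nil .nil) (.cons 1236 (.cons 1237 (.cons 1301 (.cons 1364 (.cons 1365 (.cons 1428 .nil .nil) (.cons 1363 (.cons 1427 (.cons 1426 .nil .nil) .nil) .nil)) .nil) (.cons 1173 (.cons 1174 .nil .nil) .nil)) (.cons 1235 (.cons 1172 (.cons 1171 .nil .nil) .nil) .nil)) .nil)) .nil))))))))))))))))))))))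

/-- A part of the decision tree. -/
def tr6_0_42 : Tr :=
  (.Y 4 24 (.D 3 16 24 1 1 (.C 1)) (.Y 7 37 (.D 13 6 37 12 2 (.C 2)) (.Y 8 48 (.D 48 3 16 53 33 (.C 33)) (.Y 11 61 (.D 61 3 16 64 34 (.C 34)) (.Y 15 15 (.D 3 15 13 1 1 (.C 1)) (.Y 18 38 (.D 3 18 36 1 1 (.C 1)) (.Y 29 29 (.D 3 16 29 4 24 (.C 4)) (.Y 43 43 (.D 6 43 36 1 1 (.C 1)) (.Y 10 60 (.Y 22 62 (.D 3 22 60 1 1 (.C 1)) (.Y 47 67 (.D 6 47 60 1 1 (.C 1)) (.Y 59 69 (.D 13 10 69 20 50 (.C 20)) (.Y 71 71 (.D 10 71 60 1 1 (.C 1)) (.Y 44 54 (.T 6) (.Y 21 51 (.D 36 3 21 44 54 (.C 44)) (.Y 58 68 (.D 13 10 68 21 51 (.C 21)) (.Y 14 14 (.Y 9 49 (.D 49 3 14 50 20 (.C 20)) (.Y 32 52 (.D 3 16 32 9 49 (.C 9)) (.Y 56 56 (.D 3 14 13 0 0 (.D 36 3 14 39 19 (.D 60 3 16 65 35 (.T 12)))) (.Y 57 57 (.S 57 57 56 56 (.C 56)) (.R (.cons 1299 .nil .nil)))))) (.Y 0 0 (.D 13 0 3 14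 14 (.C 14)) (.Y 5 25 (.D 3 16 25 0 0 (.C 0)) (.Y 19 39 (.D 3 19 36 0 0 (.C 0)) (.R (.cons 1301 (.cons 1237 (.cons 1238 (.cons 1174 (.cons 1302 (.cons 1236 (.cons 1173 .nil (.cons 1299 .nil .nil)) .nil) .nil) .nil) (.cons 1238 .nil .nil)) (.cons 1237 .nil (.cons 1237 (.cons 1236 (.cons 1364 (.cons 1238 (.cons 1299 (.cons 1363 .nil (.cons 1235 .nil .nil)) .nil) .nil) .nil) .nil) .nil))) .nil))))))))))))) (.Y 35 65 (.D 3 16 35 10 60 (.C 10)) (.Y 28 28 (.Y 9 49 (.D 3 16 28 5 25 (.D 49 3 16 52 32 (.D 13 5 32 20 50 (.C 20)))) (.Y 21 51 (.D 51 16 28 53 33 (.C 33)) (.Y 22 62 (.D 62 16 28 64 34 (.C 34)) (.Y 23 63 (.D 63 16 28 65 35 (.C 35)) (.Y 32 52 (.D 3 16 32 9 49 (.C 9)) (.Y 44 54 (.D 13 6 44 21 51 (.C 21)) (.Y 46 66 (.D 13 6 46 23 63 (.C 23)) (.Y 47 67 (.D 13 6 47 22 62 (.C 22)) (.Y 59 69 (.D 16 28 26 14 14 (.T 17))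 (.Y 56 56 (.Y 70 70 (.D 16 28 26 14 14 (.T 23)) (.Y 58 68 (.D 68 56 58 70 70 (.C 70)) (.R (.cons 1363 (.cons 1299 .nil .nil) .nil)))) (.Y 57 57 (.S 57 57 56 56 (.C 56)) (.R (.cons 1299 (.cons 1236 (.cons 1237 (.cons 1363 (.cons 1364 (.cons 1301 (.cons 1238 .nil .nil) .nil) .nil) .nil) .nil) .nil) .nil))))))))))))) (.Y 0 0 (.D 0 3 16 5 25 (.D 25 0 5 28 28 (.C 28))) (.Y 5 25 (.D 3 16 25 0 0 (.C 0)) (.Y 14 14 (.D 3 14 13 0 0 (.C 0)) (.Y 19 39 (.D 3 19 36 0 0 (.C 0)) (.Y 42 42 (.D 6 42 36 0 0 (.C 0)) (.Y 9 49 (.Y 21 51 (.D 3 21 49 1 1 (.C 1)) (.Y 44 54 (.D 6 44 49 1 1 (.C 1)) (.Y 56 56 (.D 9 56 49 0 0 (.C 0)) (.Y 57 57 (.D 9 57 49 1 1 (.C 1)) (.R (.cons 1237 (.cons 1236 (.cons 1299 .nil (.cons 1299 (.cons 1173 (.cons 1235 (.cons 1172 .nil .nil) .nil) .nil) .nil)) (.cons 1236 (.cons 1299 (.cons 1301 (.cons 1364 (.cons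 1363 .nil .nil) .nil) .nil) .nil) (.cons 1236 (.cons 1173 .nil .nil) .nil))) .nil)))))) (.R (.cons 1364 (.cons 1363 .nil (.cons 1301 (.cons 1237 (.cons 1238 .nil .nil) .nil) .nil)) .nil)))))))))))))))))))

/-- A part of the decision tree. -/
def tr6_0_43 : Tr :=
  (.Y 42 42 (.D 6 42 36 0 0 (.C 0)) (.Y 43 43 (.D 6 43 36 1 1 (.C 1)) (.Y 7 37 (.Y 21 51 (.D 37 3 21 45 55 (.C 45)) (.Y 44 54 (.D 13 7 44 20 50 (.C 20)) (.Y 23 63 (.Y 10 60 (.D 3 23 60 0 0 (.C 0)) (.Y 11 61 (.D 3 23 61 1 1 (.C 1)) (.Y 35 65 (.D 3 23 65 5 25 (.C 5)) (.Y 70 70 (.D 3 23 70 10 60 (.C 10)) (.Y 71 71 (.D 3 23 71 11 61 (.C 11)) (.Y 56 56 (.T 11) (.Y 32 52 (.D 52 28 32 56 56 (.C 56)) (.Y 57 57 (.S 57 57 56 56 (.C 56)) (.Y 8 48 (.Y 29 29 (.R (.cons 1237 (.cons 1236 (.cons 1299 (.cons 1301 (.cons 1363 (.cons 1364 .nil (.cons 1364 (.cons 1173 (.cons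 1235 (.cons 1172 .nil (.cons 1172 .nil .nil)) (.cons 1235 (.cons 1172 .nil (.cons 1172 .nil .nil)) .nil)) .nil) .nil)) (.cons 1363 (.cons 1364 .nil (.cons 1364 (.cons 1173 (.cons 1235 (.cons 1172 .nil (.cons 1172 .nil .nil)) (.cons 1235 (.cons 1172 .nil (.cons 1172 .nil .nil)) .nil)) .nil) .nil)) .nil)) (.cons 1301 (.cons 1363 (.cons 1364 .nil (.cons 1364 (.cons 1173 (.cons 1235 (.cons 1172 .nil (.cons 1172 .nil .nil)) (.cons 1235 (.cons 1172 .nil (.cons 1172 .nil .nil)) .nil)) .nil) .nil)) (.cons 1363 (.cons 1364 .nil (.cons 1364 (.cons 1173 (.cons 1235 (.cons 1172 .nil (.cons 1172 .nil .nil)) (.cons 1235 (.cons 1172 .nil (.cons 1172 .nil .nil)) .nil)) .nil) .nil)) .nil)) .nil)) (.cons 1299 (.cons 1235 .nil (.cons 1235 .nil .nil)) .nil)) (.cons 1236 (.cons 1299 (.cons 1301 (.cons 1363 (.cons 1364 .nil (.cons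 1364 (.cons 1173 (.cons 1172 .nil (.cons 1172 .nil .nil)) .nil) .nil)) (.cons 1363 (.cons 1364 .nil (.cons 1364 (.cons 1173 (.cons 1172 .nil (.cons 1172 .nil .nil)) .nil) .nil)) .nil)) (.cons 1301 (.cons 1363 (.cons 1364 .nil (.cons 1364 (.cons 1173 (.cons 1172 .nil (.cons 1172 .nil .nil)) .nil) .nil)) (.cons 1363 (.cons 1364 .nil (.cons 1364 (.cons 1173 (.cons 1172 .nil (.cons 1172 .nil .nil)) .nil) .nil)) .nil)) .nil)) (.cons 1299 (.cons 1235 .nil (.cons 1235 .nil .nil)) .nil)) .nil)) .nil)) (.R (.cons 1237 (.cons 1236 (.cons 1172 (.cons 1299 (.cons 1235 .nil (.cons 1235 .nil .nil)) .nil) (.cons 1235 (.cons 1299 .nil .nil) .nil)) .nil) .nil))) (.R (.cons 1237 (.cons 1236 (.cons 1299 (.cons 1235 (.cons 1172 .nil .nil) .nil) (.cons 1299 (.cons 1235 .nil (.cons 1235 .nil .nil)) .nil)) (.cons 1236 (.cons 1299 (.cons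 1235 (.cons 1172 .nil .nil) .nil) (.cons 1173 (.cons 1172 (.cons 1235 .nil .nil) .nil) .nil)) .nil)) .nil))))))))))) (.Y 22 62 (.D 13 6 37 12 2 (.D 12 3 22 23 63 (.C 23))) (.Y 46 66 (.D 13 7 46 22 62 (.C 22)) (.R (.cons 1301 (.cons 1237 .nil (.cons 1237 (.cons 1364 (.cons 1365 .nil (.cons 1363 (.cons 1427 (.cons 1426 (.cons 1362 (.cons 1428 (.cons 1491 .nil .nil) .nil) .nil) .nil) (.cons 1299 (.cons 1236 (.cons 1235 .nil .nil) (.cons 1362 (.cons 1298 .nil .nil) .nil)) .nil)) .nil)) (.cons 1236 (.cons 1299 (.cons 1235 .nil .nil) .nil) .nil)) .nil)) .nil))))))) (.Y 2 12 (.D 2 13 6 7 37 (.C 7)) (.Y 8 48 (.Y 9 49 (.D 13 8 49 12 2 (.C 2)) (.Y 21 51 (.D 3 21 48 0 0 (.C 0)) (.Y 32 52 (.D 8 52 28 4 24 (.C 4)) (.Y 44 54 (.D 6 44 48 0 0 (.C 0)) (.Y 56 56 (.D 8 56 48 0 0 (.C 0)) (.Y 57 57 (.D 8 57 48 1 1 (.C 1)) (.R (.cons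 1236 (.cons 1237 (.cons 1301 (.cons 1364 (.cons 1299 (.cons 1235 .nil (.cons 1173 (.cons 1174 .nil (.cons 1174 .nil .nil)) .nil)) .nil) .nil) .nil) (.cons 1237 .nil (.cons 1237 (.cons 1173 .nil .nil) .nil))) .nil)))))))) (.Y 9 49 (.Y 21 51 (.D 3 21 49 1 1 (.C 1)) (.Y 32 52 (.D 9 52 28 5 25 (.C 5)) (.R (.cons 1237 (.cons 1301 (.cons 1364 (.cons 1365 (.cons 1302 .nil .nil) .nil) .nil) (.cons 1236 (.cons 1301 (.cons 1364 (.cons 1173 (.cons 1365 (.cons 1302 .nil .nil) .nil) .nil) .nil) .nil) (.cons 1301 .nil .nil))) .nil)))) (.Y 10 60 (.Y 11 61 (.D 13 10 61 12 2 (.C 2)) (.R (.cons 1364 (.cons 1301 (.cons 1237 .nil .nil) (.cons 1301 (.cons 1237 (.cons 1238 .nil .nil) (.cons 1237 .nil .nil)) (.cons 1301 (.cons 1237 (.cons 1238 .nil .nil) .nil) .nil))) .nil))) (.Y 11 61 (.Y 22 62 (.D 3 22 61 0 0 (.C 0)) (.Y 23 63 (.D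 3 23 61 1 1 (.C 1)) (.R (.cons 1301 (.cons 1237 .nil (.cons 1364 (.cons 1365 (.cons 1428 .nil .nil) .nil) .nil)) .nil)))) (.R (.cons 1364 (.cons 1301 (.cons 1237 .nil .nil) (.cons 1301 (.cons 1237 (.cons 1238 .nil .nil) .nil) .nil)) .nil))))))))))

/-- A part of the decision tree. -/
def tr6_0_44 : Tr :=
  (.Y 9 49 (.Y 0 0 (.D 13 0 9 20 50 (.C 20)) (.Y 1 1 (.S 1 1 0 0 (.C 0)) (.Y 14 14 (.D 3 14 13 0 0 (.C 0)) (.Y 15 15 (.D 3 15 13 1 1 (.C 1)) (.Y 18 38 (.D 3 18 36 1 1 (.C 1)) (.Y 19 39 (.D 3 19 36 0 0 (.C 0)) (.Y 21 51 (.D 3 21 49 1 1 (.C 1)) (.Y 32 52 (.D 9 52 35 10 60 (.C 10)) (.Y 42 42 (.D 6 42 36 0 0 (.C 0)) (.Y 43 43 (.D 6 43 36 1 1 (.C 1)) (.Y 44 54 (.D 6 44 49 1 1 (.C 1)) (.Y 56 56 (.D 9 56 49 0 0 (.C 0)) (.Y 57 57 (.D 9 57 49 1 1 (.C 1)) (.Y 2 12 (.Y 4 24 (.D 13 4 35 22 62 (.D 24 2 22 34 64 (.C 34))) (.Y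 5 25 (.D 2 13 5 4 24 (.C 4)) (.R (.cons 1237 (.cons 1174 (.cons 1111 (.cons 1048 (.cons 985 (.cons 922 (.cons 859 (.cons 796 (.cons 1236 (.cons 1173 .nil (.cons 1173 .nil .nil)) .nil) .nil) .nil) .nil) .nil) .nil) .nil) .nil) .nil)))) (.Y 7 37 (.D 13 6 37 12 2 (.C 2)) (.Y 8 48 (.D 13 8 49 12 2 (.C 2)) (.Y 4 24 (.Y 5 25 (.D 13 4 25 12 2 (.C 2)) (.R (.cons 1237 (.cons 1301 (.cons 1238 .nil .nil) (.cons 1301 .nil .nil)) .nil))) (.R (.cons 1237 (.cons 1236 (.cons 1299 (.cons 1363 (.cons 1364 .nil .nil) .nil) .nil) (.cons 1301 .nil .nil)) .nil))))))))))))))))))) (.Y 19 39 (.Y 4 24 (.D 24 6 39 27 17 (.C 17)) (.Y 5 25 (.D 25 6 39 26 16 (.C 16)) (.Y 22 62 (.D 3 22 65 4 24 (.C 4)) (.Y 23 63 (.D 3 23 65 5 25 (.C 5)) (.Y 46 66 (.D 6 46 65 5 25 (.C 5)) (.Y 47 67 (.D 6 47 65 4 24 (.C 4)) (.Y 56 56 (.D 3 19 36 0 0 (.T 12))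 (.Y 8 48 (.D 3 19 36 0 0 (.D 48 0 8 56 56 (.C 56))) (.Y 21 51 (.D 6 39 21 8 48 (.C 8)) (.Y 44 54 (.D 3 19 44 8 48 (.C 8)) (.Y 57 57 (.S 57 57 56 56 (.C 56)) (.Y 1 1 (.Y 32 52 (.Y 58 68 (.D 32 58 65 29 29 (.C 29)) (.R (.cons 1237 (.cons 1236 (.cons 1299 (.cons 1173 (.cons 1174 (.cons 1301 (.cons 1238 .nil (.cons 1363 (.cons 1364 .nil (.cons 1364 (.cons 1365 (.cons 1235 (.cons 1298 .nil (.cons 1298 .nil .nil)) .nil) .nil) .nil)) .nil)) .nil) .nil) .nil) (.cons 1173 .nil .nil)) (.cons 1236 (.cons 1173 .nil (.cons 1173 .nil .nil)) .nil)) .nil))) (.R (.cons 1237 (.cons 1301 (.cons 1238 (.cons 1365 (.cons 1364 (.cons 1363 (.cons 1299 (.cons 1236 (.cons 1173 .nil .nil) .nil) .nil) .nil) .nil) .nil) .nil) .nil) .nil))) (.R (.cons 1237 (.cons 1236 (.cons 1299 (.cons 1301 (.cons 1364 .nil (.cons 1364 (.cons 1363 (.cons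 1365 (.cons 1173 (.cons 1174 .nil (.cons 1174 (.cons 1235 (.cons 1298 .nil (.cons 1298 .nil .nil)) .nil) .nil)) .nil) .nil) .nil) .nil)) .nil) (.cons 1173 .nil .nil)) (.cons 1236 (.cons 1173 .nil (.cons 1173 .nil .nil)) .nil)) .nil)))))))))))))) (.Y 0 0 (.D 13 0 6 19 39 (.C 19)) (.Y 1 1 (.S 1 1 0 0 (.C 0)) (.Y 14 14 (.D 3 14 13 0 0 (.C 0)) (.Y 15 15 (.D 3 15 13 1 1 (.C 1)) (.Y 18 38 (.D 3 18 36 1 1 (.C 1)) (.Y 42 42 (.D 6 42 36 0 0 (.C 0)) (.Y 43 43 (.D 6 43 36 1 1 (.C 1)) (.Y 2 12 (.Y 4 24 (.D 13 4 35 22 62 (.D 24 2 22 34 64 (.C 34))) (.Y 5 25 (.D 2 13 5 4 24 (.C 4)) (.Y 8 48 (.D 2 13 8 9 49 (.C 9)) (.R (.cons 1237 (.cons 1236 (.cons 1173 (.cons 1174 .nil .nil) .nil) (.cons 1301 (.cons 1364 .nil (.cons 1238 .nil .nil)) .nil)) .nil))))) (.Y 7 37 (.D 13 6 37 12 2 (.C 2)) (.Y 4 24 (.Y 5 25 (.D 13 4 25 12 2 (.C 2))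 (.Y 23 63 (.D 4 35 63 2 12 (.C 2)) (.Y 46 66 (.D 6 46 65 5 25 (.C 5)) (.Y 58 68 (.D 4 35 68 9 49 (.C 9)) (.Y 8 48 (.Y 21 51 (.D 3 21 48 0 0 (.C 0)) (.R (.cons 1301 (.cons 1237 (.cons 1236 (.cons 1364 (.cons 1363 (.cons 1299 (.cons 1235 .nil (.cons 1362 .nil .nil)) (.cons 1299 (.cons 1173 (.cons 1174 (.cons 1235 (.cons 1172 .nil (.cons 1298 .nil .nil)) .nil) (.cons 1174 .nil .nil)) .nil) .nil)) (.cons 1365 .nil .nil)) (.cons 1173 .nil .nil)) .nil) (.cons 1237 .nil .nil)) .nil))) (.R (.cons 1236 (.cons 1237 (.cons 1301 .nil .nil) (.cons 1237 .nil (.cons 1237 (.cons 1301 .nil (.cons 1173 .nil .nil)) .nil))) .nil))))))) (.Y 22 62 (.D 3 22 65 4 24 (.C 4)) (.Y 47 67 (.D 6 47 65 4 24 (.C 4)) (.R (.cons 1236 (.cons 1237 (.cons 1301 .nil (.cons 1301 (.cons 1238 (.cons 1174 .nil .nil) .nil) .nil)) (.cons 1237 (.cons 1301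 .nil (.cons 1301 (.cons 1173 (.cons 1238 (.cons 1174 .nil .nil) .nil) .nil) .nil)) (.cons 1237 (.cons 1173 (.cons 1174 (.cons 1110 .nil .nil) .nil) .nil) .nil))) .nil))))))))))))))))

/-- A part of the decision tree. -/
def tr6_0_45 : Tr :=
  (.Y 17 27 (.Y 9 49 (.D 49 3 17 53 33 (.C 33)) (.Y 10 60 (.D 60 3 17 64 34 (.C 34)) tr6_0_41)) (.Y 30 40 (.D 13 6 40 17 27 (.C 17)) (.Y 16 26 (.Y 1 1 (.S 1 1 0 0 (.D 1 3 16 4 24 (.D 13 0 4 17 27 (.C 17)))) (.Y 2 12 (.D 12 3 16 17 27 (.C 17)) tr6_0_42)) (.Y 31 41 (.D 13 6 41 16 26 (.C 16)) (.Y 28 28 (.Y 4 24 (.D 13 4 28 17 27 (.C 17)) (.Y 5 25 (.D 13 5 28 16 26 (.C 16)) (.Y 14 14 (.Y 9 49 (.D 49 3 14 50 20 (.C 20)) (.Y 59 69 (.T 17) (.Y 21 51 (.Y 1 1 (.D 1 3 21 9 49 (.C 9)) (.Y 2 12 (.D 2 14 13 1 1 (.C 1)) (.Y 7 37 (.D 13 6 37 12 2 (.C 2)) (.Y 11 61 (.D 61 3 21 69 59 (.C 59))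 (.Y 15 15 (.D 3 15 13 1 1 (.C 1)) (.Y 18 38 (.D 3 18 36 1 1 (.C 1)) (.Y 22 62 (.D 3 14 22 11 61 (.C 11)) (.Y 32 52 (.D 3 21 52 4 24 (.C 4)) (.Y 43 43 (.D 6 43 36 1 1 (.C 1)) (.Y 47 67 (.D 13 6 47 22 62 (.C 22)) (.Y 57 57 (.D 3 21 57 9 49 (.C 9)) (.Y 35 65 (.D 51 14 21 56 56 (.D 65 28 35 70 70 (.T 23))) (.Y 70 70 (.D 51 14 21 56 56 (.T 23)) (.R (.cons 1237 (.cons 1236 (.cons 1299 .nil (.cons 1299 (.cons 1363 .nil (.cons 1235 .nil .nil)) .nil)) (.cons 1236 (.cons 1299 .nil (.cons 1173 .nil .nil)) .nil)) .nil))))))))))))))) (.Y 8 48 (.D 48 3 14 51 21 (.C 21)) (.Y 44 54 (.D 13 6 44 21 51 (.C 21)) (.Y 56 56 (.Y 35 65 (.D 65 28 35 70 70 (.T 23)) (.Y 70 70 (.T 23) (.Y 10 60 (.D 3 14 13 0 0 (.D 60 0 10 70 70 (.C 70))) (.Y 11 61 (.D 3 14 13 0 0 (.D 61 0 11 70 70 (.C 70))) (.Y 22 62 (.D 3 14 22 11 61 (.C 11)) (.Y 23 63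 (.D 3 14 23 10 60 (.C 10)) (.Y 46 66 (.D 13 6 46 23 63 (.C 23)) (.R (.cons 1237 (.cons 1236 (.cons 1299 .nil (.cons 1299 (.cons 1235 .nil .nil) .nil)) (.cons 1236 (.cons 1299 .nil (.cons 1173 .nil .nil)) (.cons 1301 .nil .nil))) .nil))))))))) (.Y 32 52 (.D 52 28 32 56 56 (.C 56)) (.Y 57 57 (.S 57 57 56 56 (.C 56)) (.R (.cons 1299 (.cons 1363 (.cons 1237 (.cons 1301 .nil (.cons 1238 (.cons 1174 (.cons 1236 (.cons 1173 .nil (.cons 1235 .nil .nil)) .nil) .nil) (.cons 1173 (.cons 1236 .nil .nil) .nil))) .nil) .nil) .nil)))))))))) (.Y 0 0 (.D 13 0 3 14 14 (.C 14)) (.Y 1 1 (.S 1 1 0 0 (.C 0)) (.Y 15 15 (.D 3 15 13 1 1 (.C 1)) (.Y 18 38 (.D 3 18 36 1 1 (.C 1)) (.Y 19 39 (.D 3 19 36 0 0 (.C 0)) tr6_0_43)))))))) (.Y 29 29 (.S 29 29 28 28 (.C 28)) (.Y 35 65 (.Y 10 60 (.D 13 10 65 16 26 (.C 16)) (.Y 11 61 (.D 13 11 65 17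 27 (.C 17)) (.Y 70 70 (.D 35 70 65 28 28 (.C 28)) (.Y 71 71 (.D 35 71 65 29 29 (.C 29)) tr6_0_44)))) (.Y 5 25 (.Y 0 0 (.D 13 0 5 16 26 (.C 16)) (.Y 1 1 (.S 1 1 0 0 (.C 0)) (.Y 14 14 (.D 3 14 13 0 0 (.C 0)) (.Y 15 15 (.D 3 15 13 1 1 (.C 1)) (.Y 18 38 (.D 3 18 36 1 1 (.C 1)) (.Y 19 39 (.D 3 19 36 0 0 (.C 0)) (.Y 21 51 (.D 25 3 21 33 53 (.C 33)) (.Y 22 62 (.D 25 3 22 34 64 (.C 34)) (.Y 23 63 (.D 25 3 23 35 65 (.C 35)) (.Y 32 52 (.D 13 5 32 20 50 (.C 20)) (.R (.cons 1237 (.cons 1236 (.cons 1173 .nil .nil) (.cons 1301 .nil .nil)) .nil)))))))))))) (.Y 0 0 (.Y 4 24 (.D 13 0 4 17 27 (.C 17)) (.R (.cons 1237 (.cons 1173 (.cons 1172 (.cons 1235 (.cons 1236 (.cons 1299 .nil .nil) .nil) .nil) .nil) .nil) .nil))) (.Y 1 1 (.S 1 1 0 0 (.C 0)) (.Y 14 14 (.D 3 14 13 0 0 (.C 0)) (.Y 15 15 (.D 3 15 13 1 1 (.C 1)) (.Y 18 38 (.D 3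 18 36 1 1 (.C 1)) (.Y 19 39 (.D 3 19 36 0 0 (.C 0)) (.Y 42 42 (.D 6 42 36 0 0 (.C 0)) (.Y 43 43 (.D 6 43 36 1 1 (.C 1)) (.Y 2 12 (.Y 4 24 (.D 2 13 4 5 25 (.C 5)) (.R (.cons 1237 (.cons 1173 (.cons 1236 (.cons 1172 .nil .nil) .nil) .nil) .nil))) (.Y 7 37 (.D 13 6 37 12 2 (.C 2)) (.Y 4 24 (.Y 22 62 (.D 24 3 22 35 65 (.C 35)) (.Y 23 63 (.D 24 3 23 34 64 (.C 34)) (.R (.cons 1237 (.cons 1301 .nil (.cons 1301 (.cons 1236 (.cons 1364 (.cons 1365 .nil (.cons 1173 (.cons 1172 .nil (.cons 1174 .nil .nil)) .nil)) (.cons 1173 .nil .nil)) .nil) .nil)) .nil)))) (.R (.cons 1237 (.cons 1173 (.cons 1236 (.cons 1172 .nil .nil) .nil) .nil) .nil)))))))))))))))))))))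

/-- A part of the decision tree. -/
def tr6_0_46 : Tr :=
  (.Y 22 62 (.D 3 22 60 1 1 (.C 1)) (.Y 29 29 (.D 3 16 29 4 24 (.C 4)) (.Y 31 41 (.D 3 16 31 6 36 (.C 6)) (.Y 71 71 (.D 10 71 60 1 1 (.C 1)) (.Y 44 54 (.T 6) (.Y 14 14 (.Y 9 49 (.D 49 3 14 50 20 (.C 20)) (.Y 19 39 (.D 3 14 19 6 36 (.C 6)) (.Y 32 52 (.D 3 16 32 9 49 (.C 9)) (.Y 46 66 (.D 13 10 66 19 39 (.C 19)) (.Y 21 51 (.Y 57 57 (.D 3 21 57 9 49 (.C 9)) (.Y 47 67 (.D 3 14 13 0 0 (.D 26 14 16 28 28 (.T 10))) (.Y 7 37 (.D 3 14 13 0 0 (.D 37 0 10 47 67 (.C 47))) (.Y 18 38 (.D 3 14 18 7 37 (.C 7)) (.Y 30 40 (.D 3 16 30 7 37 (.C 7)) (.Y 45 55 (.D 3 21 55 7 37 (.C 7)) (.Y 42 42 (.D 3 14 16 5 25 (.D 3 14 13 0 0 (.D 60 0 10 70 70 (.T 20)))) (.Y 43 43 (.S 43 43 42 42 (.C 42)) (.R (.cons 1236 .nil .nil)))))))))) (.Y 8 48 (.D 48 3 14 51 21 (.C 21)) (.Y 33 53 (.D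 3 16 33 8 48 (.C 8)) (.Y 58 68 (.D 13 10 68 21 51 (.C 21)) (.Y 7 37 (.Y 43 43 (.D 7 43 37 1 1 (.C 1)) (.Y 45 55 (.D 13 7 45 21 51 (.C 21)) (.Y 56 56 (.D 60 3 14 63 23 (.D 26 14 16 28 28 (.T 11))) (.Y 57 57 (.S 57 57 56 56 (.C 56)) (.R (.cons 1299 .nil .nil)))))) (.R (.cons 1299 (.cons 1236 .nil (.cons 1363 .nil (.cons 1236 (.cons 1363 (.cons 1364 (.cons 1427 (.cons 1426 .nil .nil) (.cons 1301 (.cons 1237 .nil (.cons 1237 (.cons 1238 .nil .nil) .nil)) .nil)) .nil) .nil) .nil))) .nil))))))))))) (.Y 0 0 (.D 13 0 3 14 14 (.C 14)) (.Y 5 25 (.D 3 16 25 0 0 (.C 0)) (.Y 23 63 (.D 3 23 60 0 0 (.C 0)) (.Y 28 28 (.D 3 16 28 5 25 (.C 5)) (.Y 70 70 (.D 10 70 60 0 0 (.C 0)) (.Y 7 37 (.Y 18 38 (.D 3 18 37 0 0 (.C 0)) (.Y 19 39 (.D 3 19 37 1 1 (.C 1)) (.Y 42 42 (.D 7 42 37 0 0 (.C 0)) (.Y 43 43 (.D 7 43 37 1 1 (.C 1)) (.Y 46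 66 (.D 7 46 60 1 1 (.C 1)) (.Y 47 67 (.D 7 47 60 0 0 (.C 0)) (.Y 21 51 (.D 60 3 16 65 35 (.D 37 3 21 45 55 (.T 36))) (.R (.cons 1301 (.cons 1237 .nil (.cons 1237 (.cons 1236 (.cons 1299 .nil .nil) .nil) .nil)) .nil))))))))) (.Y 30 40 (.D 3 16 30 7 37 (.C 7)) (.Y 8 48 (.Y 9 49 (.D 13 8 49 12 2 (.C 2)) (.Y 19 39 (.D 48 3 19 54 44 (.C 44)) (.Y 21 51 (.D 3 21 48 0 0 (.C 0)) (.Y 32 52 (.D 8 52 26 2 12 (.C 2)) (.Y 46 66 (.D 13 10 66 19 39 (.C 19)) (.Y 56 56 (.D 8 56 48 0 0 (.C 0)) (.Y 57 57 (.D 8 57 48 1 1 (.C 1)) (.Y 58 68 (.D 8 58 60 0 0 (.C 0)) (.Y 18 38 (.D 48 3 16 53 33 (.D 60 3 16 65 35 (.D 60 3 18 67 47 (.T 44)))) (.R (.cons 1301 (.cons 1237 .nil (.cons 1237 (.cons 1236 (.cons 1299 (.cons 1363 (.cons 1364 .nil .nil) .nil) .nil) .nil) .nil)) .nil))))))))))) (.Y 33 53 (.D 3 16 33 8 48 (.C 8)) (.R (.cons 1237 (.cons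 1236 (.cons 1299 (.cons 1363 (.cons 1364 (.cons 1301 (.cons 1238 (.cons 1174 .nil .nil) .nil) .nil) (.cons 1364 .nil .nil)) .nil) .nil) (.cons 1236 (.cons 1299 (.cons 1301 (.cons 1238 (.cons 1174 (.cons 1173 .nil .nil) .nil) (.cons 1364 (.cons 1363 .nil .nil) .nil)) .nil) .nil) (.cons 1301 .nil .nil))) .nil)))))))))))))))))

/-- A part of the decision tree. -/
def tr6_0_47 : Tr :=
  (.Y 5 25 (.D 2 13 5 4 24 (.C 4)) (.Y 8 48 (.D 48 2 14 50 20 (.C 20)) (.Y 9 49 (.D 2 13 9 8 48 (.C 8)) (.Y 18 38 (.D 2 14 18 6 36 (.C 6)) (.Y 19 39 (.D 3 14 19 6 36 (.C 6)) (.Y 29 29 (.D 2 14 13 1 1 (.S 1 29 4 24 (.C 4))) (.Y 43 43 (.D 2 14 13 1 1 (.S 1 43 6 36 (.C 6))) (.Y 46 66 (.D 12 10 66 18 38 (.C 18)) (.Y 47 67 (.D 13 10 67 18 38 (.C 18)) (.Y 57 57 (.D 2 14 13 1 1 (.S 1 57 8 48 (.C 8))) (.Y 32 52 (.Y 42 42 (.Y 28 28 (.Y 33 53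 (.D 28 32 53 29 29 (.C 29)) (.Y 44 54 (.D 2 14 12 0 0 (.D 60 2 14 62 22 (.T 30))) (.Y 30 40 (.D 40 28 32 44 54 (.C 44)) (.R (.cons 1236 (.cons 1237 .nil (.cons 1237 .nil (.cons 1299 .nil .nil))) .nil))))) (.Y 30 40 (.D 30 42 40 28 28 (.C 28)) (.Y 31 41 (.D 31 42 41 28 28 (.C 28)) (.R (.cons 1237 (.cons 1236 (.cons 1301 (.cons 1238 .nil .nil) .nil) (.cons 1236 (.cons 1299 (.cons 1363 (.cons 1173 (.cons 1362 (.cons 1426 .nil .nil) .nil) .nil) .nil) .nil) .nil)) .nil))))) (.Y 28 28 (.Y 30 40 (.D 40 28 30 42 42 (.C 42)) (.Y 31 41 (.D 41 28 31 42 42 (.C 42)) (.R (.cons 1236 (.cons 1237 .nil (.cons 1299 (.cons 1237 (.cons 1301 (.cons 1238 .nil .nil) (.cons 1301 (.cons 1238 (.cons 1363 (.cons 1362 (.cons 1426 .nil .nil) (.cons 1362 (.cons 1426 (.cons 1364 (.cons 1427 .nil (.cons 1427 .nil .nil)) .nil) .nil) .nil)) .nil)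 .nil) .nil)) .nil) .nil)) .nil)))) (.Y 56 56 (.D 32 56 52 28 28 (.C 28)) (.Y 30 40 (.Y 44 54 (.D 30 44 52 28 28 (.C 28)) (.Y 45 55 (.D 30 45 52 29 29 (.C 29)) (.R (.cons 1236 (.cons 1237 (.cons 1299 (.cons 1301 (.cons 1363 (.cons 1362 .nil .nil) .nil) .nil) .nil) (.cons 1299 .nil .nil)) .nil)))) (.Y 31 41 (.Y 33 53 (.D 41 32 53 40 30 (.C 30)) (.R (.cons 1237 (.cons 1301 .nil (.cons 1236 .nil .nil)) .nil))) (.R (.cons 1236 (.cons 1237 .nil (.cons 1237 (.cons 1299 (.cons 1301 (.cons 1238 .nil .nil) .nil) .nil) .nil)) .nil))))))) (.Y 28 28 (.Y 30 40 (.Y 31 41 (.D 28 30 41 29 29 (.C 29)) (.Y 44 54 (.D 28 30 44 32 52 (.C 32)) (.R (.cons 1236 (.cons 1237 .nil (.cons 1237 (.cons 1299 (.cons 1363 .nil (.cons 1301 (.cons 1238 .nil (.cons 1363 (.cons 1362 .nil (.cons 1362 (.cons 1364 (.cons 1365 .nil (.cons 1365 .nil .nil))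 .nil) .nil)) .nil)) .nil)) .nil) (.cons 1237 .nil .nil))) .nil)))) (.Y 31 41 (.Y 45 55 (.D 28 31 45 32 52 (.C 32)) (.R (.cons 1236 (.cons 1237 .nil (.cons 1299 .nil (.cons 1299 (.cons 1237 (.cons 1301 .nil (.cons 1301 (.cons 1238 .nil (.cons 1238 (.cons 1363 (.cons 1362 .nil (.cons 1364 (.cons 1365 .nil (.cons 1365 .nil .nil)) .nil)) .nil) .nil)) .nil)) .nil) .nil))) .nil))) (.R (.cons 1237 (.cons 1236 (.cons 1299 (.cons 1301 (.cons 1238 .nil .nil) .nil) .nil) (.cons 1236 (.cons 1299 (.cons 1301 (.cons 1238 (.cons 1363 (.cons 1362 (.cons 1426 .nil .nil) (.cons 1362 (.cons 1426 (.cons 1364 (.cons 1365 .nil (.cons 1365 .nil .nil)) .nil) .nil) .nil)) .nil) .nil) .nil) .nil) .nil)) .nil)))) (.Y 30 40 (.Y 42 42 (.D 30 42 40 28 28 (.C 28)) (.Y 31 41 (.Y 33 53 (.D 30 41 33 32 52 (.C 32)) (.R (.cons 1237 (.cons 1301 .nil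 (.cons 1301 (.cons 1236 (.cons 1173 .nil (.cons 1299 (.cons 1173 (.cons 1363 (.cons 1364 (.cons 1365 .nil (.cons 1365 .nil .nil)) (.cons 1364 (.cons 1365 .nil (.cons 1365 .nil .nil)) .nil)) .nil) .nil) .nil)) .nil) .nil)) .nil))) (.Y 33 53 (.Y 44 54 (.D 30 44 53 29 29 (.C 29)) (.R (.cons 1236 (.cons 1237 .nil (.cons 1237 (.cons 1299 (.cons 1363 .nil (.cons 1301 (.cons 1238 .nil (.cons 1363 (.cons 1362 .nil (.cons 1362 (.cons 1364 (.cons 1365 .nil (.cons 1365 .nil .nil)) .nil) .nil)) .nil)) .nil)) .nil) .nil)) .nil))) (.R (.cons 1237 (.cons 1236 (.cons 1299 (.cons 1301 (.cons 1173 (.cons 1362 (.cons 1363 (.cons 1298 (.cons 1302 (.cons 1238 (.cons 1365 (.cons 1364 .nil .nil) .nil) .nil) .nil) .nil) .nil) .nil) .nil) .nil) .nil) .nil) .nil))))) (.Y 31 41 (.Y 42 42 (.D 31 42 41 28 28 (.C 28)) (.Y 33 53 (.Y 44 54 (.D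 31 44 53 28 28 (.C 28)) (.R (.cons 1236 (.cons 1237 .nil (.cons 1299 .nil .nil)) .nil))) (.R (.cons 1237 (.cons 1301 .nil .nil) .nil)))) (.R (.cons 1237 (.cons 1236 (.cons 1299 (.cons 1301 (.cons 1238 .nil .nil) .nil) .nil) .nil) .nil))))))))))))))))

/-- A part of the decision tree. -/
def tr6_0_48 : Tr :=
  (.Y 28 28 (.Y 4 24 (.D 13 4 28 17 27 (.C 17)) (.Y 5 25 (.D 13 5 28 16 26 (.C 16)) (.Y 0 0 (.Y 9 49 (.D 13 0 9 20 50 (.C 20)) (.Y 19 39 (.D 0 3 19 6 36 (.C 6)) (.Y 46 66 (.D 0 10 66 6 36 (.C 6)) (.Y 21 51 (.Y 32 52 (.D 3 21 52 4 24 (.C 4)) (.Y 33 53 (.D 3 21 53 5 25 (.C 5)) (.Y 44 54 (.D 3 21 54 6 36 (.C 6)) (.Y 57 57 (.D 3 21 57 9 49 (.C 9)) (.Y 47 67 (.T 10) (.Y 7 37 (.D 37 0 10 47 67 (.C 47)) (.Y 18 38 (.D 0 3 18 7 37 (.C 7)) (.R (.cons 1237 (.cons 1236 .nil (.cons 1301 .nil (.cons 1301 (.cons 1364 .nil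 (.cons 1364 (.cons 1363 (.cons 1427 .nil (.cons 1299 (.cons 1236 .nil .nil) .nil)) (.cons 1363 .nil .nil)) .nil)) (.cons 1301 (.cons 1364 .nil (.cons 1238 .nil .nil)) .nil)))) .nil))))))))) (.Y 8 48 (.D 13 0 8 21 51 (.C 21)) (.Y 58 68 (.D 0 10 68 8 48 (.C 8)) (.Y 7 37 (.Y 30 40 (.D 0 7 40 5 25 (.C 5)) (.Y 31 41 (.D 0 7 41 4 24 (.C 4)) (.Y 43 43 (.D 7 43 37 1 1 (.C 1)) (.Y 44 54 (.D 0 7 44 9 49 (.C 9)) (.Y 45 55 (.D 0 7 45 8 48 (.C 8)) (.Y 56 56 (.D 13 0 10 23 63 (.T 11)) (.Y 32 52 (.D 52 28 32 56 56 (.C 56)) (.Y 33 53 (.D 53 28 33 56 56 (.C 56)) (.R (.cons 1299 (.cons 1236 (.cons 1237 .nil (.cons 1235 .nil .nil)) .nil) .nil)))))))))) (.Y 18 38 (.D 0 3 18 7 37 (.C 7)) (.R (.cons 1301 (.cons 1364 .nil (.cons 1237 .nil (.cons 1237 (.cons 1238 .nil (.cons 1238 (.cons 1364 (.cons 1363 .nil (.cons 1363 (.cons 1299 (.cons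 1362 .nil (.cons 1362 (.cons 1298 .nil (.cons 1298 (.cons 1235 (.cons 1236 .nil (.cons 1236 (.cons 1173 .nil .nil) .nil)) .nil) .nil)) .nil)) .nil) .nil)) .nil) .nil)) .nil))) .nil)))))))))) (.Y 14 14 (.D 3 14 13 0 0 (.C 0)) (.Y 23 63 (.D 3 23 60 0 0 (.C 0)) (.Y 70 70 (.D 10 70 60 0 0 (.C 0)) (.Y 7 37 (.Y 18 38 (.D 3 18 37 0 0 (.C 0)) (.Y 19 39 (.D 3 19 37 1 1 (.C 1)) (.Y 30 40 (.D 7 40 28 5 25 (.C 5)) (.Y 31 41 (.D 7 41 28 4 24 (.C 4)) (.R (.cons 1301 (.cons 1237 .nil (.cons 1237 (.cons 1238 (.cons 1174 .nil .nil) (.cons 1236 (.cons 1235 (.cons 1172 (.cons 1173 .nil (.cons 1173 (.cons 1109 (.cons 1110 .nil .nil) .nil) .nil)) (.cons 1172 .nil .nil)) .nil) .nil)) .nil)) .nil)))))) (.Y 8 48 (.Y 9 49 (.D 13 8 49 12 2 (.C 2)) (.Y 21 51 (.D 3 21 48 0 0 (.C 0)) (.Y 32 52 (.D 8 52 28 4 24 (.C 4)) (.R (.cons 1301 (.cons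 1364 (.cons 1363 (.cons 1427 .nil .nil) .nil) (.cons 1237 (.cons 1238 (.cons 1174 .nil .nil) (.cons 1238 (.cons 1174 .nil .nil) (.cons 1238 .nil .nil))) (.cons 1237 (.cons 1238 (.cons 1174 .nil .nil) (.cons 1238 (.cons 1174 .nil .nil) (.cons 1238 .nil .nil))) .nil))) .nil))))) (.Y 9 49 (.Y 21 51 (.D 3 21 49 1 1 (.C 1)) (.Y 32 52 (.D 9 52 28 5 25 (.C 5)) (.Y 33 53 (.D 9 53 28 4 24 (.C 4)) (.R (.cons 1301 (.cons 1364 .nil (.cons 1364 (.cons 1363 .nil .nil) (.cons 1364 (.cons 1237 (.cons 1238 (.cons 1174 .nil .nil) (.cons 1238 .nil .nil)) .nil) .nil))) .nil))))) (.Y 18 38 (.Y 19 39 (.D 3 18 39 2 12 (.C 2)) (.Y 30 40 (.D 3 18 40 5 25 (.C 5)) (.R (.cons 1364 (.cons 1363 .nil (.cons 1363 (.cons 1299 (.cons 1301 (.cons 1237 (.cons 1236 .nil (.cons 1236 .nil .nil)) (.cons 1237 (.cons 1236 .nil (.cons 1238 .nil .nil))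 .nil)) (.cons 1301 (.cons 1237 (.cons 1236 .nil (.cons 1236 .nil .nil)) (.cons 1237 (.cons 1236 .nil (.cons 1238 .nil .nil)) .nil)) .nil)) .nil) .nil)) .nil)))) (.R (.cons 1364 (.cons 1363 .nil (.cons 1363 (.cons 1299 (.cons 1301 (.cons 1237 (.cons 1238 .nil (.cons 1238 .nil .nil)) (.cons 1362 (.cons 1298 .nil (.cons 1298 .nil .nil)) .nil)) (.cons 1236 (.cons 1237 (.cons 1301 .nil (.cons 1301 .nil .nil)) (.cons 1237 .nil .nil)) .nil)) .nil) .nil)) .nil)))))))))))) (.Y 29 29 (.S 29 29 28 28 (.C 28)) (.Y 70 70 (.Y 4 24 (.D 24 10 70 34 64 (.C 34)) (.Y 5 25 (.D 25 10 70 35 65 (.C 35)) (.Y 9 49 (.D 49 10 70 59 69 (.C 59)) (.Y 19 39 (.D 10 70 60 0 0 (.D 0 3 19 6 36 (.C 6))) (.Y 46 66 (.D 10 70 66 6 36 (.C 6)) (.Y 7 37 (.Y 30 40 (.D 13 7 40 16 26 (.C 16)) (.Y 31 41 (.D 13 7 41 17 27 (.C 17)) (.Y 43 43 (.D 7 43 37 1 1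 (.C 1)) (.Y 44 54 (.D 13 7 44 20 50 (.C 20)) (.Y 33 53 (.D 10 70 60 0 0 (.D 13 0 3 14 14 (.T 19))) (.R (.cons 1237 (.cons 1173 (.cons 1236 (.cons 1172 .nil .nil) .nil) .nil) .nil))))))) (.Y 18 38 (.D 10 70 60 0 0 (.D 0 3 18 7 37 (.C 7))) (.Y 47 67 (.D 10 70 67 7 37 (.C 7)) (.Y 8 48 (.Y 32 52 (.D 13 8 52 17 27 (.C 17)) (.R (.cons 1237 (.cons 1236 .nil (.cons 1301 .nil (.cons 1236 (.cons 1173 .nil (.cons 1299 (.cons 1363 .nil (.cons 1235 (.cons 1301 (.cons 1364 .nil (.cons 1364 (.cons 1363 (.cons 1427 .nil .nil) .nil) .nil)) .nil) .nil)) .nil)) .nil))) .nil))) (.R (.cons 1364 (.cons 1363 .nil (.cons 1363 (.cons 1299 (.cons 1362 .nil (.cons 1362 (.cons 1298 (.cons 1301 (.cons 1237 .nil (.cons 1237 (.cons 1238 (.cons 1236 (.cons 1173 .nil (.cons 1173 .nil .nil)) .nil) .nil) (.cons 1237 .nil .nil))) .nil) .nil) (.cons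 1362 .nil .nil))) .nil) (.cons 1301 .nil .nil))) .nil))))))))))) (.Y 0 0 (.D 60 0 10 70 70 (.C 70)) (.Y 14 14 (.D 3 14 13 0 0 (.C 0)) (.Y 23 63 (.D 3 23 60 0 0 (.C 0)) (.Y 4 24 (.Y 5 25 (.D 13 4 25 12 2 (.C 2)) (.Y 33 53 (.D 13 4 33 20 50 (.C 20)) (.R (.cons 1237 (.cons 1301 (.cons 1238 .nil .nil) (.cons 1301 (.cons 1238 .nil .nil) (.cons 1301 (.cons 1238 .nil (.cons 1238 .nil (.cons 1238 .nil .nil))) (.cons 1301 .nil .nil)))) .nil)))) (.Y 5 25 (.Y 32 52 (.D 13 5 32 20 50 (.C 20)) (.Y 7 37 (.Y 18 38 (.D 3 18 37 0 0 (.C 0)) (.Y 19 39 (.D 3 19 37 1 1 (.C 1)) (.R (.cons 1301 (.cons 1237 (.cons 1238 (.cons 1173 (.cons 1236 (.cons 1235 (.cons 1172 .nil (.cons 1299 .nil .nil)) .nil) (.cons 1174 .nil .nil)) .nil) .nil) (.cons 1237 (.cons 1238 (.cons 1174 .nil (.cons 1174 .nil .nil)) .nil) .nil)) .nil)))) (.Y 8 48 (.Y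 9 49 (.D 13 8 49 12 2 (.C 2)) (.Y 21 51 (.D 3 21 48 0 0 (.C 0)) (.R (.cons 1301 (.cons 1237 (.cons 1238 (.cons 1174 .nil .nil) .nil) (.cons 1237 (.cons 1236 (.cons 1299 (.cons 1363 .nil .nil) (.cons 1299 (.cons 1363 .nil .nil) (.cons 1173 (.cons 1172 (.cons 1109 .nil .nil) .nil) .nil))) (.cons 1238 .nil (.cons 1238 .nil .nil))) (.cons 1237 (.cons 1238 .nil .nil) .nil))) .nil)))) (.Y 9 49 (.Y 21 51 (.D 3 21 49 1 1 (.C 1)) (.Y 33 53 (.D 5 33 49 1 1 (.C 1)) (.R (.cons 1237 (.cons 1301 (.cons 1364 (.cons 1363 (.cons 1365 (.cons 1428 .nil .nil) .nil) .nil) .nil) (.cons 1301 .nil (.cons 1301 (.cons 1238 .nil .nil) .nil))) .nil)))) (.Y 18 38 (.Y 19 39 (.D 3 18 39 2 12 (.C 2)) (.R (.cons 1301 (.cons 1364 (.cons 1363 .nil .nil) (.cons 1237 (.cons 1238 (.cons 1174 .nil .nil) .nil) (.cons 1237 (.cons 1238 .nil .nil) .nil)))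 .nil))) (.Y 30 40 (.D 13 5 30 18 38 (.C 18)) (.R (.cons 1237 (.cons 1301 (.cons 1364 (.cons 1363 (.cons 1236 (.cons 1299 .nil (.cons 1173 .nil .nil)) .nil) .nil) .nil) (.cons 1301 (.cons 1238 (.cons 1302 .nil .nil) (.cons 1238 .nil .nil)) (.cons 1301 .nil .nil))) .nil)))))))) (.Y 7 37 (.Y 18 38 (.D 3 18 37 0 0 (.C 0)) (.R (.cons 1301 (.cons 1237 (.cons 1238 (.cons 1174 (.cons 1173 (.cons 1236 (.cons 1172 (.cons 1235 (.cons 1171 .nil .nil) .nil) .nil) .nil) .nil) .nil) .nil) (.cons 1237 (.cons 1238 (.cons 1174 (.cons 1175 .nil .nil) .nil) .nil) (.cons 1237 (.cons 1238 (.cons 1174 .nil .nil) (.cons 1238 .nil (.cons 1238 .nil .nil))) .nil))) .nil))) (.Y 8 48 (.Y 9 49 (.D 13 8 49 12 2 (.C 2)) (.Y 21 51 (.D 3 21 48 0 0 (.C 0)) (.Y 32 52 (.D 13 8 52 17 27 (.C 17)) (.R (.cons 1237 (.cons 1301 (.cons 1364 (.cons 1363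 (.cons 1427 .nil .nil) .nil) (.cons 1238 .nil (.cons 1238 .nil .nil))) (.cons 1301 .nil (.cons 1301 (.cons 1238 .nil .nil) .nil))) .nil))))) (.Y 9 49 (.Y 21 51 (.D 3 21 49 1 1 (.C 1)) (.Y 32 52 (.D 13 9 52 16 26 (.C 16)) (.R (.cons 1237 (.cons 1301 (.cons 1364 .nil (.cons 1238 .nil (.cons 1238 .nil .nil))) (.cons 1301 .nil (.cons 1301 (.cons 1238 .nil .nil) .nil))) .nil)))) (.R (.cons 1364 (.cons 1363 .nil (.cons 1363 (.cons 1299 (.cons 1362 (.cons 1298 .nil .nil) (.cons 1235 (.cons 1298 (.cons 1362 .nil .nil) (.cons 1298 .nil .nil)) (.cons 1235 (.cons 1236 .nil (.cons 1236 (.cons 1237 (.cons 1301 (.cons 1238 .nil .nil) (.cons 1301 .nil .nil)) .nil) .nil)) .nil))) .nil) .nil)) .nil)))))))))))))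

/-- A part of the decision tree. -/
def tr6_0_49 : Tr :=
  (.Y 16 26 (.Y 1 1 (.S 1 1 0 0 (.D 1 3 16 4 24 (.D 13 0 4 17 27 (.C 17)))) (.Y 2 12 (.D 12 3 16 17 27 (.C 17)) (.Y 4 24 (.D 3 16 24 1 1 (.C 1)) (.Y 11 61 (.D 13 10 61 12 2 (.C 2)) (.Y 15 15 (.D 3 15 13 1 1 (.C 1)) tr6_0_46))))) (.Y 35 65 (.D 13 10 65 16 26 (.C 16)) (.Y 2 12 (.Y 7 37 (.D 2 13 7 6 36 (.C 6)) (.Y 21 51 (.D 12 3 21 20 50 (.C 20)) (.Y 58 68 (.D 12 10 68 20 50 (.C 20)) (.Y 14 14 (.Y 4 24 (.D 24 2 14 26 16 (.C 16)) tr6_0_47) (.Y 0 0 (.D 12 0 2 14 14 (.C 14)) (.Y 1 1 (.D 1 2 13 0 0 (.C 0)) (.Y 15 15 (.D 2 15 13 0 0 (.C 0)) (.Y 22 62 (.D 2 22 60 0 0 (.C 0)) (.Y 23 63 (.D 3 23 60 0 0 (.C 0)) (.Y 70 70 (.D 10 70 60 0 0 (.C 0)) (.Y 71 71 (.D 10 71 60 1 1 (.C 1)) (.Y 4 24 (.Y 28 28 (.D 4 28 24 0 0 (.C 0)) (.Y 29 29 (.D 4 29 24 1 1 (.C 1)) (.Y 32 52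 (.D 12 4 32 20 50 (.C 20)) (.R (.cons 1301 (.cons 1237 (.cons 1238 (.cons 1174 .nil .nil) .nil) (.cons 1237 (.cons 1238 (.cons 1174 (.cons 1175 .nil .nil) (.cons 1174 .nil .nil)) .nil) (.cons 1237 (.cons 1238 .nil (.cons 1238 .nil .nil)) (.cons 1237 (.cons 1238 .nil .nil) .nil)))) .nil))))) (.Y 5 25 (.D 2 13 5 4 24 (.C 4)) (.Y 8 48 (.Y 32 52 (.D 12 8 52 16 26 (.C 16)) (.Y 33 53 (.D 13 8 53 16 26 (.C 16)) (.R (.cons 1237 (.cons 1236 (.cons 1299 (.cons 1363 .nil .nil) (.cons 1299 (.cons 1363 .nil .nil) (.cons 1299 (.cons 1363 .nil (.cons 1363 (.cons 1362 .nil .nil) .nil)) (.cons 1299 (.cons 1363 .nil (.cons 1363 (.cons 1362 .nil .nil) .nil)) .nil)))) (.cons 1301 (.cons 1238 .nil .nil) (.cons 1301 (.cons 1238 .nil .nil) (.cons 1301 .nil .nil)))) .nil)))) (.Y 9 49 (.D 2 13 9 8 48 (.C 8)) (.Y 18 38 (.Y 30 40 (.D 2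 18 40 4 24 (.C 4)) (.Y 31 41 (.D 3 18 41 4 24 (.C 4)) (.Y 42 42 (.D 2 18 42 6 36 (.C 6)) (.Y 43 43 (.D 3 18 43 6 36 (.C 6)) (.Y 44 54 (.D 2 18 44 8 48 (.C 8)) (.Y 45 55 (.D 3 18 45 8 48 (.C 8)) (.R (.cons 1236 (.cons 1237 .nil (.cons 1237 .nil (.cons 1299 .nil (.cons 1299 .nil .nil)))) .nil)))))))) (.Y 19 39 (.D 12 3 19 18 38 (.C 18)) (.Y 46 66 (.D 12 10 66 18 38 (.C 18)) (.R (.cons 1301 (.cons 1237 .nil (.cons 1237 (.cons 1236 (.cons 1299 .nil .nil) .nil) .nil)) .nil)))))))))))))))))))) (.Y 1 1 (.S 1 1 0 0 (.D 0 1 3 2 12 (.C 2))) (.Y 11 61 (.D 13 10 61 12 2 (.C 2)) (.Y 15 15 (.D 3 15 13 1 1 (.C 1)) (.Y 22 62 (.D 3 22 60 1 1 (.C 1)) (.Y 71 71 (.D 10 71 60 1 1 (.C 1)) tr6_0_48))))))))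

/-- A part of the decision tree. -/
def tr6_0_50 : Tr :=
  (.Y 22 62 (.D 2 22 68 8 48 (.C 8)) (.Y 23 63 (.D 3 23 68 8 48 (.C 8)) (.Y 43 43 (.D 2 14 13 1 1 (.S 1 43 6 36 (.C 6))) (.Y 57 57 (.D 2 14 13 1 1 (.S 1 57 8 48 (.C 8))) (.Y 71 71 (.D 58 71 68 57 57 (.C 57)) (.Y 4 24 (.Y 31 41 (.D 4 31 42 7 37 (.C 7)) (.Y 32 52 (.D 4 32 58 10 60 (.C 10)) (.Y 33 53 (.D 4 33 58 11 61 (.C 11)) (.Y 35 65 (.D 4 35 68 9 49 (.C 9)) (.Y 46 66 (.D 2 14 12 0 0 (.D 24 2 14 26 16 (.D 42 46 68 44 54 (.D 54 42 44 56 56 (.T 51))))) (.Y 44 54 (.D 42 44 58 46 66 (.C 46)) (.Y 45 55 (.Y 59 69 (.D 45 58 69 44 54 (.C 44)) (.R (.cons 1236 (.cons 1237 .nil (.cons 1299 .nil (.cons 1237 (.cons 1173 (.cons 1299 (.cons 1363 .nil (.cons 1363 (.cons 1364 (.cons 1427 .nil (.cons 1301 (.cons 1238 .nil (.cons 1238 .nil .nil)) .nil)) .nil) .nil)) .nil)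 (.cons 1173 .nil .nil)) .nil))) .nil))) (.R (.cons 1236 (.cons 1237 (.cons 1173 .nil .nil) (.cons 1237 (.cons 1299 (.cons 1363 (.cons 1173 (.cons 1364 (.cons 1427 (.cons 1428 .nil .nil) (.cons 1427 (.cons 1428 (.cons 1301 (.cons 1238 .nil (.cons 1238 .nil .nil)) .nil) .nil) .nil)) .nil) .nil) .nil) .nil) .nil)) .nil))))))))) (.Y 5 25 (.D 2 13 5 4 24 (.C 4)) (.Y 16 26 (.D 2 14 16 4 24 (.C 4)) (.Y 17 27 (.D 3 14 17 4 24 (.C 4)) (.Y 29 29 (.D 2 14 13 1 1 (.S 1 29 4 24 (.C 4))) (.Y 28 28 (.Y 32 52 (.D 28 32 58 34 64 (.C 34)) (.Y 31 41 (.Y 45 55 (.D 28 31 45 32 52 (.C 32)) (.Y 47 67 (.D 31 47 68 32 52 (.C 32)) (.Y 33 53 (.Y 59 69 (.D 33 58 69 32 52 (.C 32)) (.R (.cons 1236 (.cons 1237 .nil (.cons 1299 .nil (.cons 1237 .nil (.cons 1237 (.cons 1301 .nil (.cons 1299 (.cons 1363 .nil (.cons 1235 .nil .nil)) .nil)) .nil))))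 .nil))) (.Y 35 65 (.D 28 35 68 33 53 (.C 33)) (.Y 44 54 (.D 28 31 44 33 53 (.C 33)) (.R (.cons 1237 (.cons 1236 (.cons 1299 .nil (.cons 1299 (.cons 1235 .nil .nil) .nil)) (.cons 1236 .nil .nil)) .nil))))))) (.Y 33 53 (.Y 44 54 (.D 28 33 54 31 41 (.C 31)) (.Y 45 55 (.D 28 33 55 30 40 (.C 30)) (.Y 46 66 (.D 33 58 66 31 41 (.C 31)) (.Y 47 67 (.D 33 58 67 30 40 (.C 30)) (.R (.cons 1236 (.cons 1237 (.cons 1301 .nil .nil) .nil) .nil)))))) (.R (.cons 1237 (.cons 1236 (.cons 1301 (.cons 1299 (.cons 1363 .nil (.cons 1235 (.cons 1172 .nil .nil) .nil)) .nil) .nil) (.cons 1236 (.cons 1301 (.cons 1299 (.cons 1363 .nil (.cons 1235 (.cons 1172 .nil .nil) .nil)) .nil) .nil) .nil)) .nil))))) (.Y 31 41 (.D 31 42 41 28 28 (.C 28)) (.Y 32 52 (.Y 35 65 (.D 32 58 65 29 29 (.C 29)) (.Y 44 54 (.D 32 54 42 30 40 (.C 30)) (.Y 45 55 (.D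 32 55 42 31 41 (.C 31)) (.R (.cons 1237 (.cons 1301 (.cons 1238 (.cons 1174 (.cons 1302 (.cons 1365 (.cons 1364 (.cons 1428 (.cons 1427 (.cons 1363 (.cons 1299 (.cons 1236 (.cons 1173 (.cons 1110 .nil .nil) .nil) .nil) .nil) .nil) .nil) .nil) .nil) .nil) .nil) .nil) .nil) (.cons 1236 .nil .nil)) .nil))))) (.Y 33 53 (.Y 35 65 (.D 33 58 65 28 28 (.C 28)) (.R (.cons 1237 (.cons 1301 (.cons 1238 (.cons 1365 (.cons 1364 (.cons 1363 (.cons 1299 (.cons 1236 (.cons 1173 (.cons 1362 (.cons 1172 (.cons 1235 (.cons 1298 .nil .nil) .nil) .nil) .nil) .nil) .nil) .nil) .nil) .nil) .nil) .nil) .nil) .nil))) (.R (.cons 1237 (.cons 1236 (.cons 1301 (.cons 1365 (.cons 1364 (.cons 1363 (.cons 1299 .nil .nil) .nil) .nil) .nil) .nil) .nil) .nil))))))))))))))))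

/-- A part of the decision tree. -/
def tr6_0_51 : Tr :=
  (.Y 5 25 (.D 2 13 5 4 24 (.C 4)) (.Y 8 48 (.Y 35 65 (.D 8 58 65 5 25 (.C 5)) (.Y 44 54 (.D 8 54 42 6 36 (.C 6)) (.Y 45 55 (.D 8 55 42 7 37 (.C 7)) (.Y 46 66 (.D 8 58 66 6 36 (.C 6)) (.Y 47 67 (.D 8 58 67 7 37 (.C 7)) (.Y 56 56 (.D 8 56 48 0 0 (.C 0)) (.Y 57 57 (.D 8 57 48 1 1 (.C 1)) (.Y 70 70 (.D 8 58 70 10 60 (.C 10)) (.Y 71 71 (.D 8 58 71 11 61 (.C 11)) (.Y 16 26 (.Y 28 28 (.D 2 16 28 4 24 (.C 4)) (.Y 29 29 (.D 3 16 29 4 24 (.C 4)) (.Y 31 41 (.D 3 16 31 6 36 (.C 6)) (.R (.cons 1236 (.cons 1237 .nil (.cons 1237 (.cons 1173 .nil (.cons 1173 .nil (.cons 1173 (.cons 1172 .nil .nil) .nil))) .nil)) .nil))))) (.Y 17 27 (.D 12 3 17 16 26 (.C 16)) (.R (.cons 1236 (.cons 1237 (.cons 1301 (.cons 1364 .nil .nil) (.cons 1173 (.cons 1172 .nil .nil) .nil)) (.cons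 1237 (.cons 1301 .nil .nil) (.cons 1237 (.cons 1301 .nil .nil) .nil))) .nil))))))))))))) (.Y 9 49 (.D 2 13 9 8 48 (.C 8)) (.Y 22 62 (.D 2 22 68 8 48 (.C 8)) (.Y 23 63 (.D 3 23 68 8 48 (.C 8)) (.Y 16 26 (.Y 28 28 (.D 2 16 28 4 24 (.C 4)) (.Y 29 29 (.D 3 16 29 4 24 (.C 4)) (.Y 31 41 (.D 3 16 31 6 36 (.C 6)) (.Y 32 52 (.D 2 16 32 8 48 (.C 8)) (.R (.cons 1364 (.cons 1363 .nil (.cons 1301 (.cons 1237 (.cons 1236 .nil (.cons 1238 (.cons 1302 .nil .nil) .nil)) (.cons 1365 .nil .nil)) .nil)) .nil)))))) (.Y 17 27 (.D 12 3 17 16 26 (.C 16)) (.Y 28 28 (.Y 32 52 (.D 28 32 58 34 64 (.C 34)) (.Y 29 29 (.Y 31 41 (.D 28 29 31 30 40 (.C 30)) (.Y 33 53 (.D 28 29 33 32 52 (.C 32)) (.R (.cons 1301 (.cons 1237 .nil (.cons 1364 (.cons 1237 (.cons 1236 .nil (.cons 1236 (.cons 1173 (.cons 1363 (.cons 1427 (.cons 1426 (.cons 1299 (.cons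 1362 .nil (.cons 1235 .nil .nil)) .nil) .nil) (.cons 1427 .nil .nil)) .nil) .nil) .nil)) .nil) .nil)) .nil)))) (.Y 31 41 (.Y 43 43 (.D 31 43 41 29 29 (.C 29)) (.Y 45 55 (.D 28 31 45 32 52 (.C 32)) (.Y 47 67 (.D 31 47 68 32 52 (.C 32)) (.Y 33 53 (.Y 57 57 (.D 33 57 53 29 29 (.C 29)) (.Y 59 69 (.D 33 58 69 32 52 (.C 32)) (.R (.cons 1301 (.cons 1237 .nil (.cons 1364 (.cons 1237 (.cons 1236 (.cons 1173 (.cons 1299 (.cons 1363 .nil (.cons 1235 .nil .nil)) .nil) .nil) (.cons 1236 .nil .nil)) .nil) .nil)) .nil)))) (.Y 35 65 (.D 28 35 68 33 53 (.C 33)) (.R (.cons 1237 (.cons 1236 (.cons 1301 (.cons 1364 (.cons 1363 (.cons 1299 (.cons 1235 .nil .nil) .nil) .nil) .nil) .nil) (.cons 1301 .nil .nil)) .nil))))))) (.Y 33 53 (.Y 44 54 (.D 28 33 54 31 41 (.C 31)) (.R (.cons 1301 (.cons 1237 .nil (.cons 1364 (.cons 1237 (.cons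 1236 .nil (.cons 1238 (.cons 1302 .nil .nil) (.cons 1236 (.cons 1173 (.cons 1363 (.cons 1299 .nil (.cons 1427 (.cons 1426 (.cons 1299 (.cons 1362 .nil (.cons 1235 (.cons 1172 (.cons 1171 .nil .nil) .nil) .nil)) .nil) .nil) (.cons 1427 .nil .nil))) .nil) .nil) .nil))) .nil) .nil)) .nil))) (.R (.cons 1237 (.cons 1236 .nil (.cons 1236 (.cons 1301 (.cons 1364 (.cons 1173 (.cons 1363 (.cons 1427 (.cons 1426 (.cons 1299 (.cons 1235 .nil (.cons 1235 .nil .nil)) .nil) .nil) (.cons 1427 .nil .nil)) .nil) .nil) .nil) .nil) .nil)) .nil)))))) (.Y 29 29 (.S 29 29 28 28 (.C 28)) (.Y 31 41 (.D 31 42 41 28 28 (.C 28)) (.Y 32 52 (.Y 35 65 (.D 32 58 65 29 29 (.C 29)) (.Y 44 54 (.D 32 54 42 30 40 (.C 30)) (.R (.cons 1237 (.cons 1301 (.cons 1364 (.cons 1363 (.cons 1299 (.cons 1236 .nil (.cons 1236 .nil .nil)) (.cons 1299 (.cons 1236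 (.cons 1173 .nil .nil) .nil) .nil)) .nil) .nil) (.cons 1301 (.cons 1364 (.cons 1238 (.cons 1174 (.cons 1236 (.cons 1299 (.cons 1363 .nil .nil) (.cons 1173 .nil .nil)) .nil) .nil) .nil) .nil) .nil)) .nil)))) (.R (.cons 1237 (.cons 1236 .nil (.cons 1301 (.cons 1364 (.cons 1238 (.cons 1302 .nil .nil) .nil) .nil) .nil)) .nil)))))))))))))

/-- A part of the decision tree. -/
def tr6_0_52 : Tr :=
  (.Y 8 48 (.D 8 58 65 5 25 (.C 5)) (.Y 9 49 (.D 9 58 65 4 24 (.C 4)) (.Y 16 26 (.D 3 16 35 10 60 (.C 10)) (.Y 17 27 (.D 2 17 35 10 60 (.C 10)) (.Y 22 62 (.D 3 22 65 4 24 (.C 4)) (.Y 23 63 (.D 2 23 65 4 24 (.C 4)) (.Y 29 29 (.S 29 29 28 28 (.D 28 29 35 34 64 (.C 34))) (.Y 32 52 (.D 32 58 65 29 29 (.C 29)) (.Y 45 55 (.D 35 68 55 30 40 (.C 30)) (.Y 57 57 (.D 35 68 57 32 52 (.C 32)) (.Y 59 69 (.D 35 68 59 34 64 (.C 34)) (.Y 71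 71 (.D 35 71 65 29 29 (.C 29)) (.Y 0 0 (.Y 18 38 (.D 0 2 18 6 36 (.C 6)) (.Y 19 39 (.D 0 3 19 6 36 (.C 6)) (.Y 28 28 (.Y 31 41 (.D 41 28 31 42 42 (.C 42)) (.Y 44 54 (.D 35 68 54 31 41 (.C 31)) (.Y 46 66 (.D 28 35 66 31 41 (.C 31)) (.R (.cons 1236 (.cons 1237 (.cons 1301 (.cons 1173 (.cons 1238 (.cons 1172 (.cons 1235 (.cons 1174 (.cons 1110 .nil .nil) .nil) .nil) .nil) .nil) .nil) .nil) .nil) .nil))))) (.R (.cons 1237 (.cons 1301 .nil (.cons 1236 (.cons 1301 (.cons 1173 (.cons 1299 (.cons 1363 (.cons 1364 (.cons 1365 .nil .nil) .nil) (.cons 1364 (.cons 1365 .nil (.cons 1363 (.cons 1362 (.cons 1427 (.cons 1426 (.cons 1425 .nil .nil) .nil) .nil) .nil) .nil)) .nil)) .nil) .nil) .nil) (.cons 1236 (.cons 1301 (.cons 1238 .nil .nil) .nil) .nil))) .nil))))) (.Y 1 1 (.D 1 2 13 0 0 (.C 0)) (.Y 14 14 (.D 2 14 12 0 0 (.C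 0)) (.Y 15 15 (.D 2 15 13 0 0 (.C 0)) (.Y 18 38 (.Y 31 41 (.D 3 18 41 4 24 (.C 4)) (.R (.cons 1364 (.cons 1363 .nil (.cons 1301 (.cons 1237 (.cons 1238 (.cons 1302 .nil .nil) (.cons 1236 (.cons 1173 .nil (.cons 1173 (.cons 1299 (.cons 1363 .nil (.cons 1235 .nil .nil)) .nil) .nil)) .nil)) .nil) .nil)) .nil))) (.R (.cons 1364 (.cons 1363 .nil (.cons 1301 (.cons 1237 (.cons 1236 (.cons 1173 .nil .nil) (.cons 1236 (.cons 1173 .nil (.cons 1173 (.cons 1299 (.cons 1363 .nil (.cons 1235 .nil .nil)) .nil) .nil)) (.cons 1236 (.cons 1299 (.cons 1363 .nil .nil) .nil) .nil))) .nil) .nil)) .nil)))))))))))))))))))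

/-- A part of the decision tree. -/
def tr6_0_53 : Tr :=
  (.Y 57 57 (.S 57 57 56 56 (.C 56)) (.Y 71 71 (.D 58 71 68 57 57 (.C 57)) (.Y 0 0 (.Y 8 48 (.D 0 8 58 10 60 (.C 10)) (.Y 9 49 (.D 2 13 9 8 48 (.C 8)) (.Y 18 38 (.D 0 2 18 6 36 (.C 6)) (.Y 19 39 (.D 0 3 19 6 36 (.C 6)) (.Y 22 62 (.D 2 22 68 8 48 (.C 8)) (.Y 23 63 (.D 3 23 68 8 48 (.C 8)) (.Y 4 24 (.Y 31 41 (.D 0 4 31 7 37 (.C 7)) (.Y 32 52 (.D 0 4 32 8 48 (.C 8)) (.Y 33 53 (.D 0 4 33 9 49 (.C 9)) (.Y 44 54 (.Y 46 66 (.D 44 58 66 42 42 (.C 42)) (.Y 47 67 (.D 44 58 67 43 43 (.C 43)) (.R (.cons 1236 (.cons 1237 .nil (.cons 1237 .nil .nil)) .nil)))) (.Y 45 55 (.Y 46 66 (.D 45 58 66 43 43 (.C 43)) (.Y 47 67 (.D 45 58 67 42 42 (.C 42)) (.R (.cons 1236 (.cons 1237 .nil .nil) .nil)))) (.R (.cons 1236 (.cons 1237 (.cons 1173 .nil .nil) (.cons 1299 .nil .nil)) .nil)))))))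 (.Y 5 25 (.D 2 13 5 4 24 (.C 4)) (.Y 16 26 (.D 0 2 16 4 24 (.C 4)) (.Y 17 27 (.D 0 3 17 4 24 (.C 4)) (.Y 29 29 (.D 0 2 13 1 1 (.S 1 29 4 24 (.C 4))) (.Y 28 28 (.Y 31 41 (.D 41 28 31 42 42 (.C 42)) (.Y 32 52 (.D 28 32 58 34 64 (.C 34)) (.Y 33 53 (.D 28 33 58 35 65 (.C 35)) (.R (.cons 1237 (.cons 1236 (.cons 1299 .nil .nil) .nil) .nil))))) (.Y 31 41 (.Y 44 54 (.D 31 44 58 35 65 (.C 35)) (.Y 45 55 (.D 31 45 58 34 64 (.C 34)) (.R (.cons 1236 (.cons 1237 (.cons 1301 (.cons 1173 (.cons 1238 (.cons 1172 (.cons 1235 (.cons 1174 (.cons 1110 .nil .nil) .nil) .nil) .nil) .nil) .nil) .nil) (.cons 1237 .nil (.cons 1237 .nil .nil))) .nil)))) (.R (.cons 1237 (.cons 1301 (.cons 1236 (.cons 1173 (.cons 1299 (.cons 1363 (.cons 1364 .nil (.cons 1364 (.cons 1365 .nil .nil) .nil)) (.cons 1364 (.cons 1365 .nil (.cons 1363 (.cons 1362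 (.cons 1365 (.cons 1235 (.cons 1298 .nil (.cons 1172 .nil .nil)) .nil) .nil) .nil) .nil)) .nil)) .nil) (.cons 1173 .nil .nil)) .nil) (.cons 1301 .nil .nil)) .nil))))))))))))))) (.Y 1 1 (.D 1 2 13 0 0 (.C 0)) (.Y 14 14 (.D 2 14 12 0 0 (.C 0)) (.Y 15 15 (.D 2 15 13 0 0 (.C 0)) (.Y 4 24 (.Y 8 48 (.D 24 8 58 34 64 (.C 34)) (.Y 9 49 (.D 2 13 9 8 48 (.C 8)) (.Y 16 26 (.D 2 16 24 0 0 (.C 0)) (.Y 17 27 (.D 3 17 24 0 0 (.C 0)) (.Y 18 38 (.D 24 2 18 30 40 (.C 30)) (.Y 19 39 (.D 12 3 19 18 38 (.C 18)) (.Y 22 62 (.D 2 22 68 8 48 (.C 8)) (.Y 23 63 (.D 3 23 68 8 48 (.C 8)) (.R (.cons 1301 (.cons 1237 .nil (.cons 1364 (.cons 1237 (.cons 1236 (.cons 1173 .nil (.cons 1363 (.cons 1299 (.cons 1362 .nil (.cons 1235 .nil .nil)) (.cons 1299 (.cons 1362 .nil .nil) .nil)) .nil)) (.cons 1236 (.cons 1173 (.cons 1299 (.cons 1363 .nil (.cons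 1363 (.cons 1362 .nil .nil) .nil)) .nil) .nil) .nil)) .nil) .nil)) .nil)))))))))) (.Y 5 25 (.D 2 13 5 4 24 (.C 4)) (.Y 8 48 (.Y 46 66 (.D 8 58 66 6 36 (.C 6)) (.Y 47 67 (.D 8 58 67 7 37 (.C 7)) (.R (.cons 1363 (.cons 1364 .nil (.cons 1364 (.cons 1427 (.cons 1299 (.cons 1362 .nil (.cons 1362 .nil (.cons 1236 .nil (.cons 1236 .nil .nil)))) (.cons 1299 (.cons 1362 .nil (.cons 1362 .nil (.cons 1236 .nil (.cons 1236 .nil .nil)))) .nil)) .nil) (.cons 1364 .nil (.cons 1364 .nil .nil)))) .nil)))) (.Y 9 49 (.D 2 13 9 8 48 (.C 8)) (.Y 22 62 (.D 2 22 68 8 48 (.C 8)) (.Y 23 63 (.D 3 23 68 8 48 (.C 8)) (.Y 16 26 (.Y 28 28 (.D 2 16 28 4 24 (.C 4)) (.R (.cons 1364 (.cons 1363 .nil (.cons 1363 (.cons 1301 (.cons 1237 (.cons 1365 (.cons 1236 (.cons 1299 .nil (.cons 1173 .nil .nil)) .nil) .nil) (.cons 1365 .nil .nil)) .nil) .nil))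 .nil))) (.Y 17 27 (.D 12 3 17 16 26 (.C 16)) (.Y 18 38 (.Y 31 41 (.D 3 18 41 4 24 (.C 4)) (.Y 44 54 (.D 2 18 44 8 48 (.C 8)) (.R (.cons 1364 (.cons 1363 .nil (.cons 1301 (.cons 1237 (.cons 1236 (.cons 1173 .nil (.cons 1173 (.cons 1174 (.cons 1238 (.cons 1302 .nil .nil) .nil) .nil) .nil)) (.cons 1238 (.cons 1363 (.cons 1299 (.cons 1362 (.cons 1298 .nil .nil) (.cons 1236 .nil .nil)) (.cons 1299 (.cons 1236 .nil .nil) .nil)) .nil) .nil)) .nil) .nil)) .nil)))) (.Y 19 39 (.D 12 3 19 18 38 (.C 18)) (.R (.cons 1301 (.cons 1237 .nil (.cons 1364 (.cons 1237 (.cons 1236 (.cons 1173 .nil (.cons 1173 (.cons 1172 (.cons 1235 (.cons 1299 (.cons 1363 .nil .nil) .nil) .nil) .nil) .nil)) (.cons 1236 (.cons 1173 (.cons 1299 (.cons 1363 .nil (.cons 1363 (.cons 1362 .nil .nil) .nil)) .nil) .nil) .nil)) .nil) .nil)) .nil))))))))))))))))))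

/-- A part of the decision tree. -/
def tr6_0_54 : Tr :=
  (.Y 42 42 (.Y 18 38 (.D 2 18 42 6 36 (.C 6)) (.Y 19 39 (.D 3 19 42 6 36 (.C 6)) (.Y 14 14 (.Y 8 48 (.D 48 2 14 50 20 (.C 20)) (.Y 9 49 (.D 2 13 9 8 48 (.C 8)) tr6_0_50)) (.Y 0 0 (.D 12 0 2 14 14 (.C 14)) (.Y 1 1 (.D 1 2 13 0 0 (.C 0)) (.Y 15 15 (.D 2 15 13 0 0 (.C 0)) (.Y 4 24 (.Y 8 48 (.D 24 8 58 34 64 (.C 34)) (.Y 9 49 (.D 2 13 9 8 48 (.C 8)) (.Y 16 26 (.D 2 16 24 0 0 (.C 0)) (.Y 17 27 (.D 3 17 24 0 0 (.C 0)) (.Y 22 62 (.D 2 22 68 8 48 (.C 8)) (.Y 23 63 (.D 3 23 68 8 48 (.C 8)) (.Y 28 28 (.D 4 28 24 0 0 (.C 0)) (.Y 29 29 (.D 4 29 24 1 1 (.C 1)) (.Y 31 41 (.D 4 31 42 7 37 (.C 7)) (.Y 32 52 (.D 4 32 58 10 60 (.C 10)) (.R (.cons 1301 (.cons 1237 .nil (.cons 1364 (.cons 1237 (.cons 1236 (.cons 1173 .nil .nil) (.cons 1236 (.cons 1173 .nil .nil) (.cons 1238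 (.cons 1174 .nil (.cons 1174 (.cons 1173 (.cons 1302 (.cons 1239 .nil .nil) .nil) .nil) .nil)) .nil))) .nil) .nil)) .nil)))))))))))) tr6_0_51))))))) (.Y 43 43 (.S 43 43 42 42 (.C 42)) (.Y 35 65 (.Y 4 24 (.D 13 4 35 22 62 (.D 24 2 22 34 64 (.C 34))) (.Y 5 25 (.D 2 13 5 4 24 (.C 4)) tr6_0_52)) (.Y 70 70 (.Y 8 48 (.D 8 58 70 10 60 (.C 10)) (.Y 9 49 (.D 2 13 9 8 48 (.C 8)) (.Y 22 62 (.D 2 22 68 8 48 (.C 8)) (.Y 23 63 (.D 3 23 68 8 48 (.C 8)) (.Y 32 52 (.D 32 58 70 34 64 (.C 34)) (.Y 33 53 (.D 33 58 70 35 65 (.C 35)) (.Y 44 54 (.D 58 70 68 56 56 (.D 44 56 54 42 42 (.C 42))) (.Y 45 55 (.D 58 70 68 56 56 (.D 45 56 55 42 42 (.C 42))) (.Y 46 66 (.D 46 70 66 42 42 (.C 42)) (.Y 47 67 (.D 47 70 67 42 42 (.C 42)) (.Y 0 0 (.Y 18 38 (.D 0 2 18 6 36 (.C 6)) (.R (.cons 1236 (.cons 1299 .nil (.cons 1299 (.cons 1363 (.cons 1364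 (.cons 1362 (.cons 1301 (.cons 1237 (.cons 1173 (.cons 1365 (.cons 1235 (.cons 1172 .nil (.cons 1172 (.cons 1109 .nil .nil) .nil)) .nil) .nil) .nil) (.cons 1365 .nil .nil)) .nil) .nil) (.cons 1362 .nil .nil)) .nil) .nil)) .nil))) (.R (.cons 1236 (.cons 1299 .nil (.cons 1299 .nil (.cons 1299 (.cons 1363 (.cons 1364 (.cons 1362 (.cons 1301 (.cons 1237 (.cons 1173 (.cons 1365 (.cons 1238 (.cons 1302 .nil (.cons 1174 .nil .nil)) .nil) .nil) .nil) (.cons 1365 .nil (.cons 1365 .nil .nil))) .nil) .nil) (.cons 1362 .nil .nil)) .nil) .nil))) .nil))))))))))))) (.Y 56 56 (.D 68 56 58 70 70 (.C 70)) tr6_0_53)))))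

/-- A part of the decision tree. -/
def tr6_0_55 : Tr :=
  (.Y 17 27 (.D 2 17 35 10 60 (.C 10)) (.Y 22 62 (.D 3 22 65 4 24 (.C 4)) (.Y 23 63 (.D 2 23 65 4 24 (.C 4)) (.Y 29 29 (.S 29 29 28 28 (.D 28 29 35 34 64 (.C 34))) (.Y 71 71 (.D 35 71 65 29 29 (.C 29)) (.Y 9 49 (.Y 0 0 (.D 13 0 9 20 50 (.C 20)) (.Y 1 1 (.D 1 2 13 0 0 (.C 0)) (.Y 14 14 (.D 2 14 12 0 0 (.C 0)) (.Y 15 15 (.D 2 15 13 0 0 (.C 0)) (.Y 32 52 (.D 9 52 35 10 60 (.C 10)) (.Y 33 53 (.D 9 53 35 11 61 (.C 11)) (.Y 56 56 (.D 9 56 49 0 0 (.C 0)) (.Y 57 57 (.D 9 57 49 1 1 (.C 1)) (.Y 59 69 (.D 9 59 65 5 25 (.C 5)) (.Y 19 39 (.Y 30 40 (.D 3 19 40 4 24 (.C 4)) (.Y 31 41 (.D 2 19 41 4 24 (.C 4)) (.Y 42 42 (.D 3 19 42 6 36 (.C 6)) (.Y 43 43 (.D 2 19 43 6 36 (.C 6)) (.Y 46 66 (.D 3 19 46 10 60 (.C 10)) (.Y 47 67 (.D 2 19 47 10 60 (.C 10)) (.Y 28 28 (.D 49 3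 19 55 45 (.D 65 28 35 70 70 (.T 64))) (.R (.cons 1237 (.cons 1236 .nil .nil) .nil))))))))) (.R (.cons 1301 (.cons 1237 .nil (.cons 1237 (.cons 1238 .nil (.cons 1238 .nil .nil)) (.cons 1237 (.cons 1238 .nil .nil) .nil))) .nil)))))))))))) (.Y 8 48 (.D 2 13 8 9 49 (.C 9)) (.Y 0 0 (.Y 18 38 (.D 0 2 18 6 36 (.C 6)) (.Y 19 39 (.D 0 3 19 6 36 (.C 6)) (.Y 43 43 (.D 0 2 13 1 1 (.S 1 43 6 36 (.C 6))) (.Y 57 57 (.D 0 2 13 1 1 (.S 1 57 8 48 (.C 8))) (.Y 28 28 (.Y 33 53 (.D 53 28 35 58 68 (.C 58)) (.Y 30 40 (.Y 31 41 (.D 28 30 41 29 29 (.C 29)) (.Y 45 55 (.D 28 30 45 33 53 (.C 33)) (.Y 46 66 (.D 30 46 65 29 29 (.C 29)) (.R (.cons 1236 (.cons 1237 .nil (.cons 1299 .nil (.cons 1237 (.cons 1301 .nil (.cons 1173 .nil .nil)) (.cons 1237 .nil .nil)))) .nil))))) (.Y 47 67 (.D 28 35 67 30 40 (.C 30)) (.Y 31 41 (.Y 44 54 (.D 28 31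 44 33 53 (.C 33)) (.R (.cons 1236 (.cons 1237 .nil (.cons 1237 .nil (.cons 1299 .nil (.cons 1299 .nil .nil)))) .nil))) (.Y 46 66 (.D 28 35 66 31 41 (.C 31)) (.R (.cons 1236 (.cons 1237 .nil (.cons 1237 (.cons 1173 .nil .nil) (.cons 1237 .nil .nil))) .nil))))))) (.Y 70 70 (.D 35 70 65 28 28 (.C 28)) (.Y 30 40 (.Y 31 41 (.D 30 41 35 34 64 (.C 34)) (.Y 42 42 (.D 30 42 40 28 28 (.C 28)) (.Y 45 55 (.D 65 30 45 68 58 (.C 58)) (.Y 46 66 (.D 30 46 65 29 29 (.C 29)) (.R (.cons 1236 (.cons 1237 (.cons 1299 (.cons 1301 (.cons 1363 (.cons 1364 (.cons 1365 .nil .nil) .nil) .nil) .nil) .nil) (.cons 1299 (.cons 1363 (.cons 1364 (.cons 1362 (.cons 1427 (.cons 1298 (.cons 1235 (.cons 1172 .nil .nil) .nil) .nil) .nil) .nil) .nil) .nil) (.cons 1237 .nil .nil))) .nil)))))) (.Y 31 41 (.Y 42 42 (.D 31 42 41 28 28 (.C 28)) (.Y 44 54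 (.D 65 31 44 68 58 (.C 58)) (.Y 46 66 (.D 31 46 65 28 28 (.C 28)) (.R (.cons 1236 (.cons 1299 (.cons 1363 .nil .nil) (.cons 1237 .nil (.cons 1237 (.cons 1299 (.cons 1363 (.cons 1364 (.cons 1427 .nil .nil) .nil) .nil) .nil) .nil))) .nil))))) (.Y 32 52 (.Y 33 53 (.D 32 53 35 34 64 (.C 34)) (.Y 56 56 (.D 32 56 52 28 28 (.C 28)) (.R (.cons 1237 (.cons 1236 (.cons 1299 (.cons 1363 (.cons 1364 (.cons 1427 (.cons 1426 (.cons 1362 (.cons 1298 (.cons 1235 .nil .nil) .nil) .nil) .nil) .nil) .nil) .nil) .nil) (.cons 1301 (.cons 1238 (.cons 1302 (.cons 1365 (.cons 1364 (.cons 1363 (.cons 1299 (.cons 1236 .nil .nil) .nil) .nil) .nil) .nil) .nil) .nil) .nil)) .nil)))) (.R (.cons 1237 (.cons 1236 (.cons 1301 (.cons 1299 (.cons 1363 (.cons 1362 .nil .nil) (.cons 1363 .nil .nil)) .nil) .nil) (.cons 1301 (.cons 1238 .nil .nil)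 .nil)) .nil))))))))))) (.Y 1 1 (.D 1 2 13 0 0 (.C 0)) (.Y 14 14 (.D 2 14 12 0 0 (.C 0)) (.Y 15 15 (.D 2 15 13 0 0 (.C 0)) (.Y 18 38 (.Y 30 40 (.D 2 18 40 4 24 (.C 4)) (.Y 31 41 (.D 3 18 41 4 24 (.C 4)) (.Y 42 42 (.D 2 18 42 6 36 (.C 6)) (.Y 43 43 (.D 3 18 43 6 36 (.C 6)) (.Y 44 54 (.D 2 18 44 8 48 (.C 8)) (.Y 45 55 (.D 3 18 45 8 48 (.C 8)) (.R (.cons 1364 (.cons 1363 .nil (.cons 1301 (.cons 1236 (.cons 1237 .nil (.cons 1237 (.cons 1173 .nil .nil) (.cons 1237 (.cons 1173 .nil .nil) (.cons 1237 (.cons 1299 (.cons 1363 .nil .nil) .nil) .nil)))) .nil) .nil)) .nil)))))))) (.Y 19 39 (.D 12 3 19 18 38 (.C 18)) (.Y 28 28 (.Y 33 53 (.D 53 28 35 58 68 (.C 58)) (.Y 30 40 (.Y 31 41 (.D 28 30 41 29 29 (.C 29)) (.Y 43 43 (.D 30 43 40 29 29 (.C 29)) (.Y 45 55 (.D 28 30 45 33 53 (.C 33)) (.Y 46 66 (.D 30 46 65 29 29 (.C 29))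 (.R (.cons 1301 (.cons 1237 .nil (.cons 1364 (.cons 1237 (.cons 1236 .nil (.cons 1238 (.cons 1174 (.cons 1236 (.cons 1299 .nil (.cons 1173 .nil .nil)) .nil) .nil) .nil)) .nil) .nil)) .nil)))))) (.Y 47 67 (.D 28 35 67 30 40 (.C 30)) (.Y 31 41 (.Y 43 43 (.D 31 43 41 29 29 (.C 29)) (.Y 44 54 (.D 28 31 44 33 53 (.C 33)) (.Y 32 52 (.Y 57 57 (.D 32 57 52 29 29 (.C 29)) (.R (.cons 1301 (.cons 1237 .nil (.cons 1364 (.cons 1236 (.cons 1237 .nil (.cons 1237 .nil (.cons 1299 .nil (.cons 1299 .nil .nil)))) .nil) .nil)) .nil))) (.Y 45 55 (.D 28 31 45 32 52 (.C 32)) (.Y 59 69 (.D 28 35 69 32 52 (.C 32)) (.R (.cons 1299 (.cons 1363 .nil (.cons 1236 .nil .nil)) .nil))))))) (.Y 46 66 (.D 28 35 66 31 41 (.C 31)) (.R (.cons 1301 (.cons 1237 .nil (.cons 1364 (.cons 1237 (.cons 1236 .nil (.cons 1238 (.cons 1174 (.cons 1236 (.cons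 1173 .nil (.cons 1173 .nil .nil)) .nil) .nil) .nil)) .nil) .nil)) .nil))))))) (.Y 70 70 (.D 35 70 65 28 28 (.C 28)) (.Y 30 40 (.Y 31 41 (.D 30 41 35 34 64 (.C 34)) (.R (.cons 1301 (.cons 1237 .nil (.cons 1364 (.cons 1237 (.cons 1236 .nil (.cons 1363 (.cons 1299 (.cons 1236 .nil (.cons 1236 .nil .nil)) (.cons 1427 .nil .nil)) .nil)) .nil) .nil)) .nil))) (.Y 31 41 (.Y 42 42 (.D 31 42 41 28 28 (.C 28)) (.Y 43 43 (.D 31 43 41 29 29 (.C 29)) (.Y 44 54 (.D 65 31 44 68 58 (.C 58)) (.R (.cons 1301 (.cons 1237 .nil (.cons 1364 (.cons 1237 (.cons 1236 (.cons 1299 (.cons 1363 (.cons 1173 (.cons 1235 (.cons 1172 .nil .nil) .nil) .nil) .nil) .nil) (.cons 1236 (.cons 1173 .nil .nil) (.cons 1236 (.cons 1299 (.cons 1363 .nil .nil) .nil) .nil))) .nil) .nil)) .nil))))) (.R (.cons 1301 (.cons 1237 .nil (.cons 1364 (.cons 1237 (.cons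 1236 .nil (.cons 1238 (.cons 1174 .nil .nil) .nil)) .nil) .nil)) .nil)))))))))))))))))))

/-- A part of the decision tree. -/
def tr6_0_56 : Tr :=
  (.Y 5 25 (.D 2 13 5 4 24 (.C 4)) (.Y 16 26 (.D 2 16 28 4 24 (.C 4)) (.Y 17 27 (.D 3 17 28 4 24 (.C 4)) (.Y 0 0 (.Y 18 38 (.D 0 2 18 6 36 (.C 6)) (.Y 19 39 (.D 0 3 19 6 36 (.C 6)) (.Y 29 29 (.D 0 2 13 1 1 (.S 1 29 4 24 (.C 4))) (.Y 43 43 (.D 0 2 13 1 1 (.S 1 43 6 36 (.C 6))) (.Y 57 57 (.D 0 2 13 1 1 (.S 1 57 8 48 (.C 8))) (.Y 71 71 (.D 0 2 13 1 1 (.S 1 71 10 60 (.C 10))) (.Y 30 40 (.Y 31 41 (.D 28 30 41 29 29 (.C 29)) (.Y 46 66 (.D 28 30 46 34 64 (.C 34)) (.Y 47 67 (.D 28 30 47 35 65 (.C 35)) (.Y 32 52 (.Y 33 53 (.D 28 32 53 29 29 (.C 29)) (.R (.cons 1363 (.cons 1299 (.cons 1236 (.cons 1235 .nil (.cons 1237 .nil .nil)) (.cons 1236 (.cons 1237 .nil .nil) .nil)) (.cons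 1299 (.cons 1236 .nil .nil) .nil)) .nil))) (.R (.cons 1363 (.cons 1299 (.cons 1364 (.cons 1236 (.cons 1237 (.cons 1301 (.cons 1365 .nil .nil) .nil) (.cons 1237 .nil .nil)) .nil) .nil) (.cons 1364 (.cons 1427 (.cons 1299 (.cons 1236 .nil (.cons 1236 (.cons 1237 (.cons 1301 (.cons 1365 .nil .nil) .nil) .nil) .nil)) .nil) .nil) .nil)) .nil)))))) (.Y 31 41 (.Y 46 66 (.D 28 31 46 35 65 (.C 35)) (.Y 47 67 (.D 28 31 47 34 64 (.C 34)) (.Y 32 52 (.Y 33 53 (.D 28 32 53 29 29 (.C 29)) (.Y 44 54 (.D 31 44 52 29 29 (.C 29)) (.R (.cons 1363 (.cons 1299 (.cons 1236 .nil (.cons 1236 .nil .nil)) (.cons 1299 .nil .nil)) .nil)))) (.R (.cons 1363 (.cons 1299 (.cons 1364 (.cons 1301 (.cons 1365 .nil (.cons 1237 .nil .nil)) .nil) .nil) (.cons 1364 (.cons 1427 (.cons 1301 (.cons 1365 .nil (.cons 1237 .nil .nil)) .nil) .nil) .nil)) .nil)))))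 (.Y 32 52 (.Y 33 53 (.D 28 32 53 29 29 (.C 29)) (.Y 44 54 (.D 28 32 54 30 40 (.C 30)) (.R (.cons 1237 (.cons 1236 (.cons 1299 .nil .nil) (.cons 1236 (.cons 1299 .nil .nil) .nil)) .nil)))) (.R (.cons 1237 (.cons 1301 (.cons 1238 .nil .nil) (.cons 1236 (.cons 1301 (.cons 1299 (.cons 1363 (.cons 1362 .nil .nil) (.cons 1363 .nil .nil)) .nil) .nil) .nil)) .nil))))))))))) (.Y 1 1 (.D 1 2 13 0 0 (.C 0)) (.Y 14 14 (.D 2 14 12 0 0 (.C 0)) (.Y 15 15 (.D 2 15 13 0 0 (.C 0)) (.Y 18 38 (.Y 30 40 (.D 2 18 40 4 24 (.C 4)) (.Y 31 41 (.D 3 18 41 4 24 (.C 4)) (.Y 42 42 (.D 2 18 42 6 36 (.C 6)) (.Y 43 43 (.D 3 18 43 6 36 (.C 6)) (.Y 44 54 (.D 2 18 44 8 48 (.C 8)) (.Y 45 55 (.D 3 18 45 8 48 (.C 8)) (.R (.cons 1364 (.cons 1363 .nil (.cons 1301 (.cons 1237 (.cons 1236 .nil (.cons 1238 (.cons 1174 .nil .nil) (.cons 1236 .nil .nil)))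 .nil) .nil)) .nil)))))))) (.Y 19 39 (.D 12 3 19 18 38 (.C 18)) (.Y 29 29 (.Y 71 71 (.S 29 71 34 64 (.C 34)) (.Y 30 40 (.Y 46 66 (.D 28 30 46 34 64 (.C 34)) (.Y 47 67 (.D 29 30 47 34 64 (.C 34)) (.R (.cons 1301 (.cons 1237 .nil (.cons 1237 (.cons 1364 (.cons 1363 (.cons 1299 (.cons 1238 (.cons 1362 (.cons 1365 (.cons 1174 (.cons 1173 (.cons 1236 .nil .nil) .nil) .nil) .nil) .nil) .nil) .nil) .nil) .nil) .nil)) .nil)))) (.Y 31 41 (.D 28 29 31 30 40 (.C 30)) (.Y 43 43 (.S 29 43 30 40 (.C 30)) (.Y 32 52 (.Y 44 54 (.D 28 32 54 30 40 (.C 30)) (.Y 45 55 (.D 29 32 55 30 40 (.C 30)) (.R (.cons 1301 (.cons 1237 .nil (.cons 1364 (.cons 1236 (.cons 1237 .nil (.cons 1237 (.cons 1173 .nil .nil) (.cons 1237 (.cons 1299 (.cons 1363 .nil .nil) .nil) .nil))) .nil) .nil)) .nil)))) (.R (.cons 1301 (.cons 1237 .nil (.cons 1364 (.cons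 1237 (.cons 1238 (.cons 1174 .nil .nil) (.cons 1236 (.cons 1173 (.cons 1363 (.cons 1299 (.cons 1362 .nil .nil) (.cons 1427 (.cons 1426 (.cons 1299 (.cons 1362 .nil (.cons 1235 (.cons 1172 .nil .nil) .nil)) .nil) .nil) .nil)) .nil) .nil) .nil)) .nil) .nil)) .nil))))))) (.Y 30 40 (.Y 31 41 (.D 28 30 41 29 29 (.C 29)) (.Y 43 43 (.D 30 43 40 29 29 (.C 29)) (.Y 46 66 (.D 28 30 46 34 64 (.C 34)) (.Y 47 67 (.D 28 30 47 35 65 (.C 35)) (.R (.cons 1301 (.cons 1237 .nil (.cons 1237 (.cons 1364 (.cons 1363 (.cons 1299 (.cons 1236 (.cons 1235 .nil .nil) .nil) .nil) .nil) .nil) .nil)) .nil)))))) (.Y 31 41 (.Y 43 43 (.D 31 43 41 29 29 (.C 29)) (.Y 46 66 (.D 28 31 46 35 65 (.C 35)) (.R (.cons 1301 (.cons 1237 .nil (.cons 1364 (.cons 1237 (.cons 1236 (.cons 1173 .nil (.cons 1173 .nil .nil)) (.cons 1238 (.cons 1174 (.cons 1236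 (.cons 1173 .nil (.cons 1173 (.cons 1172 .nil .nil) .nil)) .nil) .nil) .nil)) .nil) .nil)) .nil)))) (.Y 32 52 (.Y 33 53 (.D 28 32 53 29 29 (.C 29)) (.Y 44 54 (.D 28 32 54 30 40 (.C 30)) (.R (.cons 1237 (.cons 1236 (.cons 1301 (.cons 1364 (.cons 1173 (.cons 1299 (.cons 1363 (.cons 1362 .nil .nil) (.cons 1363 .nil .nil)) .nil) .nil) .nil) .nil) (.cons 1301 (.cons 1364 (.cons 1238 (.cons 1174 (.cons 1236 (.cons 1299 .nil (.cons 1173 .nil .nil)) .nil) .nil) .nil) .nil) .nil)) .nil)))) (.R (.cons 1237 (.cons 1301 (.cons 1238 .nil .nil) (.cons 1236 (.cons 1301 (.cons 1364 (.cons 1173 (.cons 1363 (.cons 1299 .nil (.cons 1427 (.cons 1426 (.cons 1299 (.cons 1362 .nil (.cons 1235 (.cons 1172 .nil .nil) .nil)) .nil) .nil) .nil)) .nil) .nil) .nil) .nil) .nil)) .nil)))))))))))))))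

/-- A part of the decision tree. -/
def tr6_0_57 : Tr :=
  (.Y 28 28 (.Y 9 49 (.Y 0 0 (.D 13 0 9 20 50 (.C 20)) (.Y 1 1 (.D 1 2 13 0 0 (.C 0)) (.Y 4 24 (.D 4 28 24 0 0 (.C 0)) (.Y 5 25 (.D 5 28 25 0 0 (.C 0)) (.Y 14 14 (.D 2 14 12 0 0 (.C 0)) (.Y 15 15 (.D 2 15 13 0 0 (.C 0)) (.Y 16 26 (.D 2 16 28 4 24 (.C 4)) (.Y 17 27 (.D 3 17 28 4 24 (.C 4)) (.Y 32 52 (.D 9 52 28 5 25 (.C 5)) (.Y 33 53 (.D 9 53 28 4 24 (.C 4)) (.Y 56 56 (.D 9 56 49 0 0 (.C 0)) (.Y 57 57 (.D 9 57 49 1 1 (.C 1)) (.Y 59 69 (.D 9 59 70 10 60 (.C 10)) (.Y 19 39 (.D 49 3 19 55 45 (.T 64)) (.R (.cons 1301 (.cons 1237 .nil (.cons 1237 (.cons 1238 .nil .nil) (.cons 1237 (.cons 1238 .nil (.cons 1238 .nil .nil)) .nil))) .nil)))))))))))))))) (.Y 8 48 (.D 2 13 8 9 49 (.C 9)) (.Y 4 24 (.Y 18 38 (.D 4 28 24 0 0 (.D 0 2 18 6 36 (.C 6))) (.Y 19 39 (.D 12 3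 19 18 38 (.C 18)) (.Y 30 40 (.D 4 28 30 6 36 (.C 6)) (.Y 31 41 (.D 4 28 31 7 37 (.C 7)) (.Y 32 52 (.D 4 28 32 8 48 (.C 8)) (.Y 33 53 (.D 4 28 33 9 49 (.C 9)) (.Y 43 43 (.D 4 28 24 0 0 (.D 0 2 13 1 1 (.S 1 43 6 36 (.C 6)))) (.Y 57 57 (.D 4 28 24 0 0 (.D 0 2 13 1 1 (.S 1 57 8 48 (.C 8)))) (.Y 71 71 (.D 4 28 24 0 0 (.D 0 2 13 1 1 (.S 1 71 10 60 (.C 10)))) (.Y 44 54 (.Y 46 66 (.D 54 46 70 58 68 (.C 58)) (.Y 42 42 (.Y 45 55 (.D 42 44 55 43 43 (.C 43)) (.R (.cons 1236 (.cons 1299 .nil (.cons 1237 .nil (.cons 1299 (.cons 1237 (.cons 1363 (.cons 1364 .nil (.cons 1364 (.cons 1427 .nil (.cons 1427 (.cons 1301 (.cons 1238 .nil (.cons 1238 .nil .nil)) .nil) .nil)) .nil)) (.cons 1173 .nil .nil)) .nil) .nil))) .nil))) (.Y 47 67 (.D 47 70 67 42 42 (.C 42)) (.R (.cons 1236 (.cons 1237 .nil (.cons 1237 (.cons 1299 (.cons 1363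 (.cons 1235 (.cons 1364 (.cons 1427 (.cons 1428 .nil .nil) (.cons 1301 (.cons 1238 .nil (.cons 1238 .nil .nil)) .nil)) .nil) .nil) (.cons 1235 .nil .nil)) .nil) .nil)) .nil))))) (.R (.cons 1299 (.cons 1363 .nil (.cons 1236 .nil (.cons 1236 .nil .nil))) .nil)))))))))))) tr6_0_56))) (.Y 29 29 (.S 29 29 28 28 (.C 28)) (.Y 0 0 (.Y 4 24 (.D 24 0 4 28 28 (.C 28)) (.Y 5 25 (.D 2 13 5 4 24 (.C 4)) (.Y 8 48 (.D 12 0 8 20 50 (.C 20)) (.Y 9 49 (.D 2 13 9 8 48 (.C 8)) (.Y 16 26 (.D 0 2 16 4 24 (.C 4)) (.Y 17 27 (.D 0 3 17 4 24 (.C 4)) (.Y 18 38 (.D 0 2 18 6 36 (.C 6)) (.Y 19 39 (.D 0 3 19 6 36 (.C 6)) (.Y 43 43 (.D 0 2 13 1 1 (.S 1 43 6 36 (.C 6))) (.Y 57 57 (.D 0 2 13 1 1 (.S 1 57 8 48 (.C 8))) (.Y 71 71 (.D 0 2 13 1 1 (.S 1 71 10 60 (.C 10))) (.Y 30 40 (.Y 42 42 (.D 30 42 40 28 28 (.C 28)) (.Y 46 66 (.D 30 46 70 34 64 (.C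 34)) (.Y 47 67 (.D 30 47 70 35 65 (.C 35)) (.R (.cons 1363 (.cons 1299 (.cons 1236 .nil (.cons 1236 (.cons 1237 .nil (.cons 1237 (.cons 1301 .nil .nil) .nil)) .nil)) (.cons 1364 (.cons 1299 (.cons 1362 (.cons 1426 .nil .nil) (.cons 1362 .nil .nil)) .nil) .nil)) .nil))))) (.Y 31 41 (.Y 42 42 (.D 31 42 41 28 28 (.C 28)) (.R (.cons 1237 (.cons 1236 (.cons 1173 .nil .nil) (.cons 1301 .nil (.cons 1301 (.cons 1236 (.cons 1299 (.cons 1363 (.cons 1364 .nil .nil) .nil) (.cons 1173 .nil .nil)) .nil) .nil))) .nil))) (.R (.cons 1237 (.cons 1301 (.cons 1238 (.cons 1174 (.cons 1302 (.cons 1365 .nil .nil) .nil) .nil) .nil) (.cons 1301 (.cons 1364 (.cons 1365 .nil (.cons 1363 (.cons 1299 (.cons 1236 .nil .nil) (.cons 1299 (.cons 1236 (.cons 1173 .nil .nil) (.cons 1236 (.cons 1173 (.cons 1172 .nil .nil) (.cons 1173 .nil .nil))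 .nil)) .nil)) .nil)) .nil) .nil)) .nil))))))))))))))) (.Y 1 1 (.D 1 2 13 0 0 (.C 0)) (.Y 14 14 (.D 2 14 12 0 0 (.C 0)) (.Y 15 15 (.D 2 15 13 0 0 (.C 0)) (.Y 4 24 (.Y 16 26 (.D 2 16 24 0 0 (.C 0)) (.Y 17 27 (.D 3 17 24 0 0 (.C 0)) (.Y 32 52 (.D 12 4 32 20 50 (.C 20)) (.Y 33 53 (.D 13 4 33 20 50 (.C 20)) (.Y 8 48 (.Y 56 56 (.D 8 56 48 0 0 (.C 0)) (.Y 57 57 (.D 8 57 48 1 1 (.C 1)) (.R (.cons 1237 (.cons 1301 (.cons 1238 (.cons 1364 (.cons 1365 .nil (.cons 1365 .nil (.cons 1363 (.cons 1365 (.cons 1302 .nil .nil) .nil) .nil))) (.cons 1364 (.cons 1365 .nil (.cons 1365 .nil (.cons 1363 (.cons 1365 (.cons 1302 .nil .nil) .nil) .nil))) .nil)) .nil) (.cons 1301 .nil (.cons 1301 .nil (.cons 1301 .nil .nil)))) .nil)))) (.Y 9 49 (.D 2 13 9 8 48 (.C 8)) (.Y 18 38 (.Y 42 42 (.D 2 18 42 6 36 (.C 6)) (.Y 43 43 (.D 3 18 43 6 36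 (.C 6)) (.Y 44 54 (.D 2 18 44 8 48 (.C 8)) (.Y 45 55 (.D 3 18 45 8 48 (.C 8)) (.R (.cons 1299 (.cons 1236 (.cons 1363 (.cons 1362 (.cons 1298 .nil .nil) (.cons 1364 (.cons 1301 .nil .nil) .nil)) (.cons 1237 (.cons 1301 (.cons 1238 .nil .nil) (.cons 1301 (.cons 1173 (.cons 1172 .nil .nil) .nil) .nil)) .nil)) (.cons 1236 (.cons 1237 .nil .nil) (.cons 1236 (.cons 1363 (.cons 1364 .nil .nil) .nil) .nil))) .nil)))))) (.Y 19 39 (.D 12 3 19 18 38 (.C 18)) (.R (.cons 1301 (.cons 1237 .nil (.cons 1237 (.cons 1236 (.cons 1173 .nil .nil) .nil) .nil)) .nil)))))))))) (.Y 5 25 (.D 2 13 5 4 24 (.C 4)) (.Y 8 48 (.Y 56 56 (.D 8 56 48 0 0 (.C 0)) (.Y 57 57 (.D 8 57 48 1 1 (.C 1)) (.Y 59 69 (.D 8 59 70 11 61 (.C 11)) (.Y 16 26 (.Y 30 40 (.D 2 16 30 6 36 (.C 6)) (.Y 31 41 (.D 3 16 31 6 36 (.C 6)) (.Y 18 38 (.Y 42 42 (.D 2 18 42 6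 36 (.C 6)) (.Y 43 43 (.D 3 18 43 6 36 (.C 6)) (.Y 46 66 (.D 2 18 46 10 60 (.C 10)) (.R (.cons 1363 (.cons 1299 (.cons 1236 (.cons 1237 .nil .nil) (.cons 1236 .nil (.cons 1236 (.cons 1237 .nil (.cons 1237 (.cons 1173 .nil .nil) .nil)) .nil))) (.cons 1299 (.cons 1236 (.cons 1237 .nil .nil) (.cons 1236 .nil (.cons 1236 (.cons 1237 .nil (.cons 1237 (.cons 1173 .nil .nil) .nil)) .nil))) (.cons 1364 .nil .nil))) .nil))))) (.Y 19 39 (.D 12 3 19 18 38 (.C 18)) (.Y 44 54 (.D 12 8 54 18 38 (.C 18)) (.Y 45 55 (.D 13 8 55 18 38 (.C 18)) (.R (.cons 1236 (.cons 1237 (.cons 1173 .nil (.cons 1173 .nil .nil)) (.cons 1237 .nil (.cons 1237 (.cons 1173 .nil (.cons 1173 .nil .nil)) (.cons 1237 .nil .nil)))) .nil)))))))) (.Y 17 27 (.D 12 3 17 16 26 (.C 16)) (.Y 32 52 (.D 12 8 52 16 26 (.C 16)) (.R (.cons 1237 (.cons 1236 (.cons 1299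 (.cons 1363 (.cons 1173 (.cons 1172 .nil .nil) .nil) .nil) (.cons 1299 .nil (.cons 1173 .nil .nil))) (.cons 1301 .nil (.cons 1301 .nil .nil))) .nil)))))))) (.Y 9 49 (.D 2 13 9 8 48 (.C 8)) (.Y 16 26 (.Y 30 40 (.D 2 16 30 6 36 (.C 6)) (.Y 31 41 (.D 3 16 31 6 36 (.C 6)) (.Y 32 52 (.D 2 16 32 8 48 (.C 8)) (.R (.cons 1364 (.cons 1363 .nil (.cons 1363 (.cons 1299 .nil .nil) .nil)) .nil))))) (.Y 17 27 (.D 12 3 17 16 26 (.C 16)) (.Y 18 38 (.Y 30 40 (.D 2 18 40 4 24 (.C 4)) (.Y 31 41 (.D 3 18 41 4 24 (.C 4)) (.Y 42 42 (.D 2 18 42 6 36 (.C 6)) (.R (.cons 1237 (.cons 1236 (.cons 1173 .nil (.cons 1173 .nil .nil)) (.cons 1301 (.cons 1364 (.cons 1238 (.cons 1174 (.cons 1363 (.cons 1299 (.cons 1236 .nil .nil) (.cons 1299 (.cons 1236 (.cons 1173 .nil .nil) .nil) .nil)) .nil) .nil) .nil) (.cons 1364 .nil .nil)) .nil)) .nil)))))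 (.Y 19 39 (.D 12 3 19 18 38 (.C 18)) (.Y 30 40 (.Y 42 42 (.D 30 42 40 28 28 (.C 28)) (.Y 43 43 (.D 30 43 40 29 29 (.C 29)) (.R (.cons 1301 (.cons 1237 .nil (.cons 1364 (.cons 1237 (.cons 1363 (.cons 1173 (.cons 1236 .nil (.cons 1236 (.cons 1299 .nil .nil) .nil)) (.cons 1299 (.cons 1236 (.cons 1173 .nil .nil) .nil) .nil)) (.cons 1238 (.cons 1174 (.cons 1236 (.cons 1299 (.cons 1363 (.cons 1362 .nil .nil) .nil) (.cons 1173 .nil .nil)) .nil) .nil) .nil)) .nil) .nil)) .nil)))) (.Y 31 41 (.Y 42 42 (.D 31 42 41 28 28 (.C 28)) (.Y 43 43 (.D 31 43 41 29 29 (.C 29)) (.R (.cons 1301 (.cons 1237 .nil (.cons 1364 (.cons 1237 (.cons 1236 (.cons 1173 .nil (.cons 1173 .nil .nil)) (.cons 1238 (.cons 1174 (.cons 1236 (.cons 1299 (.cons 1363 .nil .nil) (.cons 1173 .nil .nil)) .nil) .nil) .nil)) .nil) .nil)) .nil)))) (.R (.cons 1237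 (.cons 1301 (.cons 1364 (.cons 1238 (.cons 1174 (.cons 1173 (.cons 1236 .nil .nil) .nil) .nil) .nil) .nil) (.cons 1301 (.cons 1364 (.cons 1238 (.cons 1174 (.cons 1363 (.cons 1299 (.cons 1236 .nil .nil) (.cons 1299 (.cons 1362 (.cons 1236 (.cons 1173 .nil (.cons 1173 .nil .nil)) .nil) .nil) .nil)) .nil) .nil) .nil) .nil) .nil)) .nil))))))))))))))))))

/-- A part of the decision tree. -/
def tr6_0_58 : Tr :=
  (.Y 18 38 (.D 0 2 18 6 36 (.C 6)) (.Y 19 39 (.D 0 3 19 6 36 (.C 6)) (.Y 22 62 (.D 0 2 22 10 60 (.C 10)) (.Y 23 63 (.D 0 3 23 10 60 (.C 10)) (.Y 43 43 (.D 0 2 13 1 1 (.S 1 43 6 36 (.C 6))) (.Y 57 57 (.D 0 2 13 1 1 (.S 1 57 8 48 (.C 8))) (.Y 4 24 (.Y 30 40 (.D 0 4 30 6 36 (.C 6)) (.Y 31 41 (.D 0 4 31 7 37 (.C 7)) (.Y 32 52 (.D 0 4 32 8 48 (.C 8)) (.Y 33 53 (.D 0 4 33 9 49 (.C 9)) (.Y 42 42 (.Y 46 66 (.D 66 42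 46 70 70 (.C 70)) (.Y 47 67 (.D 67 42 47 70 70 (.C 70)) (.R (.cons 1363 (.cons 1364 .nil .nil) .nil)))) (.Y 44 54 (.Y 56 56 (.D 44 56 54 42 42 (.C 42)) (.Y 45 55 (.Y 59 69 (.D 54 45 59 58 68 (.C 58)) (.R (.cons 1299 (.cons 1363 .nil (.cons 1236 (.cons 1237 (.cons 1363 (.cons 1364 (.cons 1427 .nil .nil) .nil) .nil) .nil) .nil)) .nil))) (.R (.cons 1299 (.cons 1236 (.cons 1237 (.cons 1173 .nil .nil) .nil) (.cons 1236 .nil .nil)) .nil)))) (.R (.cons 1236 (.cons 1237 (.cons 1173 .nil .nil) (.cons 1299 .nil (.cons 1299 .nil .nil))) .nil)))))))) (.Y 5 25 (.D 2 13 5 4 24 (.C 4)) (.Y 16 26 (.D 0 2 16 4 24 (.C 4)) (.Y 17 27 (.D 0 3 17 4 24 (.C 4)) (.Y 29 29 (.D 0 2 13 1 1 (.S 1 29 4 24 (.C 4))) (.Y 28 28 (.Y 30 40 (.Y 31 41 (.D 28 30 41 29 29 (.C 29)) (.Y 46 66 (.D 28 30 46 34 64 (.C 34)) (.R (.cons 1363 (.cons 1364 (.cons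 1299 (.cons 1236 .nil (.cons 1362 (.cons 1236 (.cons 1237 (.cons 1301 (.cons 1365 .nil .nil) (.cons 1301 .nil .nil)) (.cons 1301 (.cons 1365 .nil (.cons 1237 (.cons 1173 (.cons 1365 (.cons 1235 (.cons 1172 .nil (.cons 1298 .nil .nil)) .nil) .nil) .nil) .nil)) .nil)) .nil) .nil)) .nil) (.cons 1364 .nil .nil)) .nil)))) (.Y 31 41 (.Y 46 66 (.D 28 31 46 35 65 (.C 35)) (.R (.cons 1363 (.cons 1364 (.cons 1427 (.cons 1426 .nil .nil) .nil) (.cons 1364 .nil .nil)) .nil))) (.R (.cons 1237 (.cons 1301 (.cons 1238 (.cons 1174 .nil .nil) .nil) (.cons 1236 (.cons 1301 (.cons 1364 (.cons 1363 .nil (.cons 1363 (.cons 1299 (.cons 1362 .nil .nil) (.cons 1299 (.cons 1362 .nil .nil) .nil)) .nil)) .nil) .nil) (.cons 1301 .nil .nil))) .nil)))) (.R (.cons 1363 (.cons 1364 (.cons 1301 (.cons 1365 .nil (.cons 1237 (.cons 1365 (.cons 1236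 (.cons 1299 .nil (.cons 1299 (.cons 1173 (.cons 1362 (.cons 1235 (.cons 1172 .nil (.cons 1298 .nil .nil)) .nil) .nil) .nil) (.cons 1299 .nil .nil))) .nil) .nil) .nil)) .nil) (.cons 1364 .nil (.cons 1364 .nil .nil))) .nil))))))))))))))

/-- A part of the decision tree. -/
def tr6_0_59 : Tr :=
  (.Y 8 48 (.Y 22 62 (.D 48 2 22 58 68 (.C 58)) (.Y 23 63 (.D 12 3 23 22 62 (.C 22)) (.Y 56 56 (.D 8 56 48 0 0 (.C 0)) (.Y 57 57 (.D 8 57 48 1 1 (.C 1)) (.Y 59 69 (.D 13 8 59 22 62 (.C 22)) (.Y 16 26 (.Y 28 28 (.D 2 16 28 4 24 (.C 4)) (.Y 29 29 (.D 3 16 29 4 24 (.C 4)) (.Y 30 40 (.D 2 16 30 6 36 (.C 6)) (.Y 31 41 (.D 3 16 31 6 36 (.C 6)) (.R (.cons 1363 (.cons 1427 (.cons 1426 .nil (.cons 1364 .nil .nil)) (.cons 1364 .nil .nil)) .nil)))))) (.Y 17 27 (.D 12 3 17 16 26 (.C 16)) (.R (.cons 1363 (.cons 1427 (.cons 1364 (.cons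 1428 (.cons 1365 .nil .nil) (.cons 1301 .nil .nil)) (.cons 1364 (.cons 1428 (.cons 1365 .nil .nil) (.cons 1301 .nil .nil)) .nil)) (.cons 1299 (.cons 1362 .nil (.cons 1362 (.cons 1298 .nil .nil) .nil)) .nil)) .nil))))))))) (.Y 9 49 (.D 2 13 9 8 48 (.C 8)) (.Y 16 26 (.Y 28 28 (.D 2 16 28 4 24 (.C 4)) (.R (.cons 1364 (.cons 1363 .nil (.cons 1301 (.cons 1237 (.cons 1363 (.cons 1173 (.cons 1236 .nil (.cons 1236 (.cons 1235 (.cons 1172 .nil (.cons 1299 (.cons 1298 .nil .nil) .nil)) .nil) .nil)) (.cons 1299 (.cons 1362 .nil .nil) .nil)) (.cons 1238 (.cons 1174 .nil .nil) .nil)) (.cons 1365 .nil .nil)) .nil)) .nil))) (.Y 17 27 (.D 12 3 17 16 26 (.C 16)) (.Y 18 38 (.Y 30 40 (.D 2 18 40 4 24 (.C 4)) (.Y 31 41 (.D 3 18 41 4 24 (.C 4)) (.Y 42 42 (.D 2 18 42 6 36 (.C 6)) (.Y 43 43 (.D 3 18 43 6 36 (.C 6)) (.Y 44 54 (.D 2 18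 44 8 48 (.C 8)) (.Y 45 55 (.D 3 18 45 8 48 (.C 8)) (.R (.cons 1364 (.cons 1363 .nil (.cons 1301 (.cons 1237 (.cons 1236 .nil (.cons 1238 (.cons 1174 .nil .nil) (.cons 1236 .nil .nil))) .nil) .nil)) .nil)))))))) (.Y 19 39 (.D 12 3 19 18 38 (.C 18)) (.Y 22 62 (.Y 46 66 (.D 2 22 66 6 36 (.C 6)) (.R (.cons 1364 (.cons 1363 .nil (.cons 1301 (.cons 1237 (.cons 1363 (.cons 1173 (.cons 1236 .nil (.cons 1236 (.cons 1299 (.cons 1235 .nil .nil) .nil) .nil)) (.cons 1299 (.cons 1362 .nil .nil) .nil)) (.cons 1238 (.cons 1174 .nil .nil) .nil)) .nil) .nil)) .nil))) (.Y 23 63 (.D 12 3 23 22 62 (.C 22)) (.Y 28 28 (.Y 29 29 (.Y 30 40 (.Y 46 66 (.D 28 30 46 34 64 (.C 34)) (.R (.cons 1301 (.cons 1237 .nil (.cons 1237 (.cons 1364 (.cons 1363 (.cons 1365 (.cons 1236 (.cons 1299 .nil (.cons 1173 .nil .nil)) .nil) .nil) .nil) .nil) .nil))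 .nil))) (.Y 31 41 (.D 28 29 31 30 40 (.C 30)) (.Y 43 43 (.S 29 43 30 40 (.C 30)) (.Y 32 52 (.Y 44 54 (.D 28 32 54 30 40 (.C 30)) (.R (.cons 1301 (.cons 1237 .nil (.cons 1364 (.cons 1237 (.cons 1238 (.cons 1174 .nil .nil) (.cons 1236 (.cons 1173 (.cons 1363 (.cons 1299 (.cons 1362 .nil .nil) (.cons 1427 (.cons 1426 (.cons 1299 (.cons 1362 .nil (.cons 1235 (.cons 1172 .nil .nil) .nil)) .nil) .nil) .nil)) .nil) .nil) .nil)) .nil) .nil)) .nil))) (.R (.cons 1301 (.cons 1237 .nil (.cons 1364 (.cons 1237 (.cons 1238 (.cons 1174 .nil .nil) (.cons 1236 (.cons 1173 (.cons 1363 (.cons 1299 (.cons 1362 .nil .nil) (.cons 1427 (.cons 1426 (.cons 1299 (.cons 1362 .nil (.cons 1235 (.cons 1172 .nil .nil) .nil)) .nil) .nil) .nil)) .nil) .nil) .nil)) .nil) .nil)) .nil)))))) (.Y 30 40 (.Y 31 41 (.D 28 30 41 29 29 (.C 29)) (.Y 43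 43 (.D 30 43 40 29 29 (.C 29)) (.Y 46 66 (.D 28 30 46 34 64 (.C 34)) (.R (.cons 1301 (.cons 1237 .nil (.cons 1237 (.cons 1364 (.cons 1363 (.cons 1365 (.cons 1236 (.cons 1299 .nil (.cons 1299 .nil .nil)) .nil) .nil) .nil) .nil) .nil)) .nil))))) (.Y 31 41 (.Y 43 43 (.D 31 43 41 29 29 (.C 29)) (.Y 46 66 (.D 28 31 46 35 65 (.C 35)) (.R (.cons 1301 (.cons 1237 .nil (.cons 1237 (.cons 1236 (.cons 1173 .nil .nil) .nil) .nil)) .nil)))) (.R (.cons 1301 (.cons 1237 .nil (.cons 1364 (.cons 1237 (.cons 1238 (.cons 1174 .nil .nil) (.cons 1236 (.cons 1173 (.cons 1363 (.cons 1299 (.cons 1362 .nil .nil) (.cons 1427 (.cons 1426 (.cons 1362 (.cons 1299 .nil (.cons 1299 (.cons 1298 .nil .nil) .nil)) .nil) .nil) .nil)) .nil) .nil) .nil)) .nil) .nil)) .nil))))) (.R (.cons 1301 (.cons 1237 .nil (.cons 1237 (.cons 1364 (.cons 1363 (.cons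 1365 (.cons 1173 (.cons 1236 .nil (.cons 1236 (.cons 1299 .nil .nil) .nil)) .nil) .nil) .nil) .nil) .nil)) .nil)))))))))))

/-- A part of the decision tree. -/
def tr6_0_60 : Tr :=
  (.Y 44 54 (.D 3 21 54 6 36 (.C 6)) (.Y 57 57 (.D 3 21 57 9 49 (.C 9)) (.Y 58 68 (.D 3 21 58 10 60 (.C 10)) (.Y 47 67 (.Y 7 37 (.D 13 7 47 23 63 (.C 23)) (.Y 11 61 (.D 13 11 67 19 39 (.C 19)) (.Y 18 38 (.D 3 14 18 7 37 (.C 7)) (.Y 22 62 (.D 3 22 67 6 36 (.C 6)) (.Y 45 55 (.D 3 21 55 7 37 (.C 7)) (.Y 59 69 (.D 3 21 59 11 61 (.C 11)) (.Y 28 28 (.D 3 14 13 0 0 (.T 10)) (.Y 4 24 (.D 3 14 13 0 0 (.D 24 0 4 28 28 (.C 28))) (.Y 5 25 (.D 3 14 13 0 0 (.D 25 0 5 28 28 (.C 28))) (.Y 16 26 (.D 3 14 16 5 25 (.C 5)) (.Y 17 27 (.D 3 14 17 4 24 (.C 4)) (.Y 29 29 (.S 29 29 28 28 (.C 28)) (.Y 32 52 (.D 3 21 52 4 24 (.C 4)) (.R (.cons 1301 (.cons 1237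 (.cons 1238 (.cons 1174 .nil .nil) .nil) (.cons 1237 (.cons 1364 (.cons 1363 (.cons 1299 .nil .nil) .nil) .nil) (.cons 1237 (.cons 1238 .nil .nil) .nil))) .nil))))))))))))))) (.Y 70 70 (.Y 7 37 (.Y 43 43 (.D 7 43 37 1 1 (.C 1)) (.Y 33 53 (.T 19) (.Y 5 25 (.D 25 3 21 33 53 (.C 33)) (.Y 16 26 (.D 3 14 16 5 25 (.C 5)) (.Y 30 40 (.D 13 7 40 16 26 (.C 16)) (.Y 4 24 (.Y 29 29 (.D 4 29 24 1 1 (.C 1)) (.R (.cons 1236 (.cons 1237 .nil (.cons 1237 .nil (.cons 1237 .nil (.cons 1237 .nil (.cons 1237 .nil (.cons 1299 .nil .nil)))))) .nil))) (.Y 17 27 (.D 3 14 17 4 24 (.C 4)) (.Y 31 41 (.D 13 7 41 17 27 (.C 17)) (.Y 32 52 (.D 3 21 52 4 24 (.C 4)) (.Y 11 61 (.Y 35 65 (.D 11 70 65 4 24 (.C 4)) (.Y 71 71 (.D 11 71 61 1 1 (.C 1)) (.R (.cons 1237 (.cons 1236 .nil (.cons 1236 (.cons 1299 .nil (.cons 1173 .nil (.cons 1299 .nil (.cons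 1299 .nil .nil)))) .nil)) .nil)))) (.Y 22 62 (.D 3 14 22 11 61 (.C 11)) (.Y 46 66 (.D 7 46 70 11 61 (.C 11)) (.Y 59 69 (.D 3 21 59 11 61 (.C 11)) (.Y 28 28 (.Y 29 29 (.Y 35 65 (.D 28 29 35 34 64 (.C 34)) (.Y 71 71 (.S 29 71 34 64 (.C 34)) (.R (.cons 1363 (.cons 1299 .nil .nil) .nil)))) (.R (.cons 1237 (.cons 1236 .nil (.cons 1236 .nil .nil)) .nil))) (.Y 29 29 (.S 29 29 28 28 (.C 28)) (.R (.cons 1237 (.cons 1236 .nil .nil) .nil))))))))))))))))) (.Y 18 38 (.D 3 14 18 7 37 (.C 7)) (.Y 45 55 (.D 3 21 55 7 37 (.C 7)) (.Y 5 25 (.Y 4 24 (.D 13 4 25 12 2 (.C 2)) (.Y 11 61 (.D 25 11 70 34 64 (.C 34)) (.Y 17 27 (.D 3 17 25 1 1 (.C 1)) (.Y 22 62 (.D 3 14 22 11 61 (.C 11)) (.Y 29 29 (.D 5 29 25 1 1 (.C 1)) (.Y 30 40 (.D 13 5 30 18 38 (.C 18)) (.Y 31 41 (.D 13 5 31 19 39 (.C 19)) (.Y 32 52 (.D 5 32 51 2 12 (.C 2)) (.Y 35 65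 (.D 5 35 70 10 60 (.C 10)) (.Y 59 69 (.D 3 21 59 11 61 (.C 11)) (.Y 42 42 (.T 20) (.R (.cons 1236 (.cons 1237 (.cons 1301 (.cons 1364 (.cons 1363 .nil .nil) .nil) (.cons 1301 (.cons 1173 (.cons 1172 (.cons 1235 .nil .nil) .nil) .nil) .nil)) (.cons 1299 (.cons 1363 .nil .nil) .nil)) .nil))))))))))))) (.Y 16 26 (.D 3 14 16 5 25 (.C 5)) (.Y 33 53 (.D 3 21 53 5 25 (.C 5)) (.Y 4 24 (.Y 29 29 (.D 4 29 24 1 1 (.C 1)) (.Y 30 40 (.D 13 4 30 19 39 (.C 19)) (.Y 31 41 (.D 13 4 31 18 38 (.C 18)) (.R (.cons 1236 (.cons 1237 (.cons 1301 .nil (.cons 1301 .nil (.cons 1173 .nil (.cons 1301 .nil .nil)))) (.cons 1237 .nil (.cons 1237 .nil .nil))) .nil))))) (.Y 17 27 (.D 3 14 17 4 24 (.C 4)) (.Y 32 52 (.D 3 21 52 4 24 (.C 4)) (.Y 11 61 (.Y 35 65 (.D 11 70 65 4 24 (.C 4)) (.Y 46 66 (.D 11 70 66 7 37 (.C 7)) (.Y 71 71 (.D 11 71 61 1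 1 (.C 1)) (.Y 28 28 (.Y 29 29 (.Y 30 40 (.R (.cons 1236 (.cons 1237 (.cons 1299 (.cons 1235 .nil (.cons 1235 .nil (.cons 1363 .nil (.cons 1363 .nil .nil)))) (.cons 1299 (.cons 1235 .nil (.cons 1235 .nil (.cons 1363 .nil (.cons 1363 .nil .nil)))) .nil)) (.cons 1237 (.cons 1299 (.cons 1235 .nil (.cons 1235 .nil (.cons 1363 .nil (.cons 1363 .nil .nil)))) (.cons 1299 (.cons 1235 .nil (.cons 1235 .nil (.cons 1363 .nil (.cons 1363 .nil .nil)))) .nil)) (.cons 1237 .nil (.cons 1237 .nil .nil)))) .nil)) (.R (.cons 1236 (.cons 1237 .nil (.cons 1237 .nil (.cons 1237 .nil .nil))) .nil))) (.R (.cons 1237 (.cons 1236 .nil (.cons 1236 .nil (.cons 1236 (.cons 1299 (.cons 1235 .nil (.cons 1235 .nil (.cons 1363 .nil (.cons 1363 .nil .nil)))) .nil) .nil))) .nil))) (.Y 29 29 (.S 29 29 28 28 (.C 28)) (.R (.cons 1237 (.cons 1236 .nil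 (.cons 1236 (.cons 1299 (.cons 1235 .nil (.cons 1235 .nil (.cons 1363 .nil (.cons 1363 .nil .nil)))) .nil) .nil)) .nil))))))) (.Y 22 62 (.D 3 14 22 11 61 (.C 11)) (.Y 59 69 (.D 3 21 59 11 61 (.C 11)) (.R (.cons 1299 (.cons 1236 .nil (.cons 1363 .nil (.cons 1363 .nil .nil))) .nil)))))))))))))) (.Y 11 61 (.D 3 14 13 0 0 (.D 61 0 11 70 70 (.C 70))) (.Y 22 62 (.D 3 14 22 11 61 (.C 11)) (.Y 59 69 (.D 3 21 59 11 61 (.C 11)) (.Y 71 71 (.S 71 71 70 70 (.C 70)) (.Y 4 24 (.Y 5 25 (.D 13 4 25 12 2 (.C 2)) (.R (.cons 1363 (.cons 1299 (.cons 1362 .nil (.cons 1236 (.cons 1235 .nil (.cons 1235 .nil .nil)) .nil)) (.cons 1299 (.cons 1362 (.cons 1426 .nil .nil) (.cons 1236 (.cons 1235 .nil (.cons 1235 .nil .nil)) .nil)) .nil)) .nil))) (.Y 17 27 (.D 3 14 17 4 24 (.C 4)) (.Y 32 52 (.D 3 21 52 4 24 (.C 4)) (.Y 5 25 (.Y 29 29 (.D 5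 29 25 1 1 (.C 1)) (.Y 31 41 (.D 13 5 31 19 39 (.C 19)) (.Y 35 65 (.D 13 5 35 23 63 (.C 23)) (.R (.cons 1363 (.cons 1362 (.cons 1299 (.cons 1298 .nil .nil) .nil) .nil) .nil))))) (.R (.cons 1363 (.cons 1299 (.cons 1362 .nil (.cons 1236 (.cons 1235 .nil (.cons 1235 .nil .nil)) .nil)) (.cons 1364 (.cons 1299 (.cons 1362 (.cons 1426 .nil .nil) (.cons 1236 (.cons 1235 .nil (.cons 1235 .nil .nil)) .nil)) .nil) .nil)) .nil)))))))))))))))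

/-- A part of the decision tree. -/
def tr6_0_61 : Tr :=
  (.Y 70 70 (.Y 7 37 (.Y 43 43 (.D 7 43 37 1 1 (.C 1)) (.Y 44 54 (.D 13 7 44 20 50 (.C 20)) (.Y 45 55 (.D 13 7 45 21 51 (.C 21)) (.Y 47 67 (.D 7 47 70 10 60 (.C 10)) (.Y 33 53 (.T 19) (.Y 4 24 (.Y 5 25 (.D 13 4 25 12 2 (.C 2)) (.Y 16 26 (.D 3 16 24 1 1 (.C 1)) (.Y 29 29 (.D 4 29 24 1 1 (.C 1)) (.Y 30 40 (.D 4 30 37 1 1 (.C 1)) (.R (.cons 1236 (.cons 1237 .nil (.cons 1237 (.cons 1301 .nil (.cons 1301 .nil .nil)) (.cons 1237 .nil (.cons 1237 .nil (.cons 1237 (.cons 1301 .nil (.cons 1301 .nil .nil)) .nil))))) .nil)))))) (.Y 17 27 (.D 3 14 17 4 24 (.C 4)) (.Y 31 41 (.D 13 7 41 17 27 (.C 17)) (.Y 5 25 (.Y 11 61 (.D 25 11 70 34 64 (.C 34)) (.Y 22 62 (.D 3 14 22 11 61 (.C 11)) (.Y 29 29 (.D 5 29 25 1 1 (.C 1)) (.Y 32 52 (.D 13 5 32 20 50 (.C 20)) (.Y 35 65 (.D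 5 35 70 10 60 (.C 10)) (.Y 46 66 (.D 7 46 70 11 61 (.C 11)) (.R (.cons 1236 (.cons 1237 (.cons 1173 .nil (.cons 1301 .nil .nil)) (.cons 1299 .nil (.cons 1237 .nil (.cons 1237 .nil .nil)))) .nil)))))))) (.Y 16 26 (.D 3 14 16 5 25 (.C 5)) (.Y 30 40 (.D 13 7 40 16 26 (.C 16)) (.Y 11 61 (.Y 35 65 (.D 11 70 65 4 24 (.C 4)) (.Y 58 68 (.D 11 70 68 9 49 (.C 9)) (.R (.cons 1237 (.cons 1236 .nil (.cons 1236 (.cons 1299 (.cons 1363 .nil .nil) (.cons 1299 (.cons 1235 .nil .nil) .nil)) (.cons 1236 .nil .nil))) .nil)))) (.Y 22 62 (.D 3 14 22 11 61 (.C 11)) (.Y 46 66 (.D 7 46 70 11 61 (.C 11)) (.R (.cons 1236 (.cons 1237 .nil (.cons 1237 .nil (.cons 1237 .nil .nil))) .nil)))))))))))))))) (.Y 18 38 (.D 3 14 18 7 37 (.C 7)) (.Y 56 56 (.Y 5 25 (.Y 4 24 (.D 13 4 25 12 2 (.C 2)) (.Y 11 61 (.D 25 11 70 34 64 (.C 34)) (.Y 17 27 (.D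 3 17 25 1 1 (.C 1)) (.Y 22 62 (.D 3 14 22 11 61 (.C 11)) (.Y 29 29 (.D 5 29 25 1 1 (.C 1)) (.Y 30 40 (.D 13 5 30 18 38 (.C 18)) (.Y 31 41 (.D 13 5 31 19 39 (.C 19)) (.R (.cons 1301 (.cons 1237 .nil (.cons 1237 .nil (.cons 1237 (.cons 1236 (.cons 1173 .nil (.cons 1364 (.cons 1363 .nil (.cons 1363 (.cons 1427 (.cons 1173 (.cons 1172 .nil (.cons 1172 (.cons 1235 (.cons 1171 .nil (.cons 1299 (.cons 1362 .nil (.cons 1362 .nil .nil)) .nil)) .nil) .nil)) .nil) (.cons 1427 .nil .nil)) .nil)) .nil)) .nil) .nil))) .nil))))))))) (.Y 16 26 (.D 3 14 16 5 25 (.C 5)) (.Y 4 24 (.Y 29 29 (.D 4 29 24 1 1 (.C 1)) (.R (.cons 1301 (.cons 1364 .nil (.cons 1237 .nil (.cons 1237 .nil (.cons 1364 .nil .nil)))) .nil))) (.Y 17 27 (.D 3 14 17 4 24 (.C 4)) (.Y 11 61 (.Y 35 65 (.D 11 70 65 4 24 (.C 4)) (.Y 46 66 (.D 11 70 66 7 37 (.C 7)) (.Y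 47 67 (.D 11 70 67 6 36 (.C 6)) (.Y 58 68 (.D 11 68 56 9 49 (.C 9)) (.Y 59 69 (.D 11 69 56 8 48 (.C 8)) (.Y 71 71 (.D 11 71 61 1 1 (.C 1)) (.R (.cons 1301 (.cons 1364 .nil (.cons 1364 .nil (.cons 1237 (.cons 1238 .nil .nil) .nil))) .nil)))))))) (.Y 22 62 (.D 3 14 22 11 61 (.C 11)) (.Y 28 28 (.Y 29 29 (.Y 35 65 (.D 28 29 35 34 64 (.C 34)) (.Y 71 71 (.S 29 71 34 64 (.C 34)) (.R (.cons 1301 (.cons 1364 .nil (.cons 1237 (.cons 1238 .nil .nil) .nil)) .nil)))) (.R (.cons 1301 (.cons 1237 .nil (.cons 1237 .nil .nil)) .nil))) (.Y 29 29 (.S 29 29 28 28 (.C 28)) (.R (.cons 1301 (.cons 1237 .nil (.cons 1237 .nil .nil)) .nil)))))))))) (.Y 57 57 (.S 57 57 56 56 (.C 56)) (.Y 58 68 (.D 58 70 68 56 56 (.C 56)) (.Y 59 69 (.D 59 70 69 56 56 (.C 56)) (.Y 4 24 (.Y 5 25 (.D 13 4 25 12 2 (.C 2)) (.Y 16 26 (.D 3 16 24 1 1 (.C 1)) (.Y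 29 29 (.D 4 29 24 1 1 (.C 1)) (.Y 30 40 (.D 13 4 30 19 39 (.C 19)) (.Y 31 41 (.D 13 4 31 18 38 (.C 18)) (.R (.cons 1299 (.cons 1363 (.cons 1362 .nil .nil) (.cons 1363 (.cons 1364 (.cons 1301 .nil .nil) (.cons 1364 .nil .nil)) (.cons 1236 (.cons 1235 (.cons 1172 .nil .nil) (.cons 1301 (.cons 1364 .nil (.cons 1237 .nil (.cons 1237 .nil (.cons 1364 .nil .nil)))) .nil)) (.cons 1236 (.cons 1235 .nil (.cons 1235 .nil .nil)) .nil)))) .nil))))))) (.Y 17 27 (.D 3 14 17 4 24 (.C 4)) (.Y 5 25 (.Y 11 61 (.D 25 11 70 34 64 (.C 34)) (.Y 22 62 (.D 3 14 22 11 61 (.C 11)) (.Y 29 29 (.D 5 29 25 1 1 (.C 1)) (.Y 30 40 (.D 13 5 30 18 38 (.C 18)) (.R (.cons 1301 (.cons 1237 (.cons 1238 (.cons 1236 (.cons 1299 (.cons 1363 .nil .nil) (.cons 1173 .nil .nil)) .nil) .nil) (.cons 1237 (.cons 1238 .nil .nil) (.cons 1237 (.cons 1236 (.cons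 1173 .nil (.cons 1299 (.cons 1363 .nil (.cons 1235 (.cons 1172 .nil .nil) .nil)) (.cons 1299 (.cons 1363 .nil (.cons 1235 .nil .nil)) .nil))) .nil) .nil))) .nil)))))) (.Y 16 26 (.D 3 14 16 5 25 (.C 5)) (.Y 11 61 (.Y 35 65 (.D 11 70 65 4 24 (.C 4)) (.Y 46 66 (.D 11 70 66 7 37 (.C 7)) (.Y 47 67 (.D 11 70 67 6 36 (.C 6)) (.Y 71 71 (.D 11 71 61 1 1 (.C 1)) (.R (.cons 1301 (.cons 1364 .nil (.cons 1364 .nil (.cons 1237 (.cons 1238 .nil .nil) .nil))) .nil)))))) (.Y 22 62 (.D 3 14 22 11 61 (.C 11)) (.Y 28 28 (.Y 32 52 (.D 52 28 32 56 56 (.C 56)) (.Y 33 53 (.D 53 28 33 56 56 (.C 56)) (.R (.cons 1299 (.cons 1363 .nil (.cons 1363 (.cons 1364 .nil .nil) .nil)) .nil)))) (.Y 29 29 (.S 29 29 28 28 (.C 28)) (.R (.cons 1301 (.cons 1237 .nil (.cons 1237 .nil .nil)) .nil)))))))))))))))) (.Y 11 61 (.D 3 14 13 0 0 (.D 61 0 11 70 70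 (.C 70))) (.Y 22 62 (.D 3 14 22 11 61 (.C 11)) (.Y 71 71 (.S 71 71 70 70 (.C 70)) (.Y 4 24 (.Y 5 25 (.D 13 4 25 12 2 (.C 2)) (.Y 16 26 (.D 3 16 24 1 1 (.C 1)) (.Y 29 29 (.D 4 29 24 1 1 (.C 1)) (.Y 30 40 (.D 13 4 30 19 39 (.C 19)) (.R (.cons 1301 (.cons 1237 (.cons 1364 (.cons 1363 (.cons 1427 (.cons 1428 .nil .nil) (.cons 1427 .nil .nil)) .nil) .nil) (.cons 1237 (.cons 1364 (.cons 1363 (.cons 1427 (.cons 1428 .nil .nil) (.cons 1427 .nil .nil)) .nil) .nil) (.cons 1237 (.cons 1236 (.cons 1173 .nil .nil) (.cons 1238 .nil .nil)) (.cons 1364 .nil .nil)))) .nil)))))) (.Y 17 27 (.D 3 14 17 4 24 (.C 4)) (.Y 5 25 (.Y 29 29 (.D 5 29 25 1 1 (.C 1)) (.Y 31 41 (.D 13 5 31 19 39 (.C 19)) (.Y 32 52 (.D 13 5 32 20 50 (.C 20)) (.Y 33 53 (.D 13 5 33 21 51 (.C 21)) (.Y 35 65 (.D 13 5 35 23 63 (.C 23)) (.Y 7 37 (.Y 43 43 (.D 7 43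 37 1 1 (.C 1)) (.Y 44 54 (.D 13 7 44 20 50 (.C 20)) (.Y 45 55 (.D 13 7 45 21 51 (.C 21)) (.Y 46 66 (.D 13 7 46 22 62 (.C 22)) (.R (.cons 1363 (.cons 1299 .nil (.cons 1299 (.cons 1236 (.cons 1235 (.cons 1172 (.cons 1237 (.cons 1173 .nil (.cons 1301 .nil .nil)) .nil) .nil) (.cons 1237 .nil .nil)) .nil) (.cons 1299 .nil .nil))) .nil)))))) (.Y 18 38 (.D 3 14 18 7 37 (.C 7)) (.R (.cons 1301 (.cons 1237 .nil (.cons 1237 .nil (.cons 1237 (.cons 1236 (.cons 1173 .nil (.cons 1173 (.cons 1172 (.cons 1364 (.cons 1363 .nil (.cons 1363 (.cons 1427 (.cons 1299 (.cons 1235 .nil (.cons 1235 .nil .nil)) .nil) .nil) .nil)) .nil) .nil) .nil)) .nil) .nil))) .nil))))))))) (.Y 16 26 (.D 3 14 16 5 25 (.C 5)) (.Y 7 37 (.Y 30 40 (.D 13 7 40 16 26 (.C 16)) (.Y 31 41 (.D 13 7 41 17 27 (.C 17)) (.Y 43 43 (.D 7 43 37 1 1 (.C 1)) (.Y 44 54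 (.D 13 7 44 20 50 (.C 20)) (.Y 45 55 (.D 13 7 45 21 51 (.C 21)) (.Y 46 66 (.D 13 7 46 22 62 (.C 22)) (.R (.cons 1301 (.cons 1364 (.cons 1363 (.cons 1427 .nil .nil) .nil) (.cons 1237 (.cons 1238 (.cons 1174 .nil .nil) (.cons 1236 .nil .nil)) (.cons 1237 (.cons 1236 .nil .nil) .nil))) .nil)))))))) (.R (.cons 1364 (.cons 1363 .nil (.cons 1301 (.cons 1363 (.cons 1362 (.cons 1299 .nil (.cons 1299 (.cons 1236 (.cons 1235 (.cons 1426 (.cons 1302 (.cons 1365 .nil (.cons 1238 (.cons 1237 (.cons 1173 .nil .nil) .nil) .nil)) .nil) .nil) .nil) .nil) .nil)) .nil) .nil) .nil)) .nil)))))))))))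

/-- A part of the decision tree. -/
def tr6_0_62 : Tr :=
  (.Y 43 43 (.D 7 43 37 1 1 (.C 1)) (.Y 44 54 (.D 13 7 44 20 50 (.C 20)) (.Y 23 63 (.Y 4 24 (.D 24 3 23 34 64 (.C 34)) (.Y 11 61 (.D 3 23 61 1 1 (.C 1)) (.Y 22 62 (.D 3 22 63 2 12 (.C 2)) (.Y 46 66 (.D 7 46 63 2 12 (.C 2)) (.Y 70 70 (.D 3 23 70 10 60 (.C 10)) (.Y 71 71 (.D 3 23 71 11 61 (.C 11)) (.Y 28 28 (.Y 5 25 (.D 5 28 25 0 0 (.C 0)) (.Y 16 26 (.D 3 16 28 5 25 (.C 5)) (.Y 17 27 (.D 3 17 28 4 24 (.C 4)) (.Y 30 40 (.D 7 40 28 5 25 (.C 5)) (.Y 31 41 (.D 7 41 28 4 24 (.C 4)) (.Y 35 65 (.D 3 23 65 5 25 (.C 5)) (.Y 56 56 (.T 11) (.R (.cons 1236 (.cons 1237 (.cons 1301 .nil (.cons 1173 .nil (.cons 1173 .nil .nil))) (.cons 1237 .nil (.cons 1299 (.cons 1235 (.cons 1298 (.cons 1234 (.cons 1171 (.cons 1172 (.cons 1108 .nil .nil) .nil) .nil) .nil) .nil) .nil) .nil)))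 .nil))))))))) (.Y 29 29 (.S 29 29 28 28 (.C 28)) (.Y 21 51 (.Y 8 48 (.D 3 21 48 0 0 (.C 0)) (.Y 9 49 (.D 3 21 49 1 1 (.C 1)) (.Y 32 52 (.D 3 21 52 4 24 (.C 4)) (.Y 56 56 (.D 3 21 56 8 48 (.C 8)) (.Y 57 57 (.D 3 21 57 9 49 (.C 9)) (.Y 58 68 (.D 3 23 68 8 48 (.C 8)) (.R (.cons 1364 (.cons 1301 .nil (.cons 1363 .nil (.cons 1301 (.cons 1365 .nil .nil) .nil))) .nil)))))))) (.Y 45 55 (.D 13 7 45 21 51 (.C 21)) (.Y 5 25 (.Y 16 26 (.D 3 16 25 0 0 (.C 0)) (.Y 17 27 (.D 3 17 25 1 1 (.C 1)) (.Y 30 40 (.D 5 30 37 0 0 (.C 0)) (.R (.cons 1301 (.cons 1237 (.cons 1236 (.cons 1238 (.cons 1174 (.cons 1173 .nil .nil) .nil) .nil) .nil) (.cons 1237 (.cons 1236 (.cons 1173 (.cons 1238 (.cons 1174 .nil .nil) .nil) .nil) .nil) .nil)) .nil))))) (.Y 35 65 (.D 3 23 65 5 25 (.C 5)) (.Y 8 48 (.Y 9 49 (.D 13 8 49 12 2 (.C 2)) (.Y 56 56 (.D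 8 56 48 0 0 (.C 0)) (.Y 57 57 (.D 8 57 48 1 1 (.C 1)) (.Y 59 69 (.D 8 59 63 2 12 (.C 2)) (.Y 16 26 (.Y 17 27 (.D 3 16 27 2 12 (.C 2)) (.Y 31 41 (.D 7 41 26 2 12 (.C 2)) (.R (.cons 1236 (.cons 1237 (.cons 1301 .nil (.cons 1301 .nil .nil)) (.cons 1299 .nil (.cons 1237 (.cons 1299 (.cons 1301 (.cons 1238 .nil .nil) .nil) .nil) .nil))) .nil)))) (.R (.cons 1301 (.cons 1237 (.cons 1238 .nil .nil) (.cons 1237 .nil (.cons 1364 .nil .nil))) .nil))))))) (.Y 58 68 (.D 3 23 68 8 48 (.C 8)) (.Y 9 49 (.Y 56 56 (.D 9 56 49 0 0 (.C 0)) (.R (.cons 1363 (.cons 1364 (.cons 1301 .nil .nil) (.cons 1299 (.cons 1362 .nil .nil) (.cons 1299 .nil .nil))) .nil))) (.R (.cons 1364 (.cons 1363 .nil (.cons 1301 (.cons 1237 .nil .nil) .nil)) .nil))))))))))))))))) (.Y 47 67 (.D 13 7 47 23 63 (.C 23)) (.Y 21 51 (.Y 8 48 (.D 3 21 48 0 0 (.C 0))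 (.Y 9 49 (.D 3 21 49 1 1 (.C 1)) (.Y 56 56 (.D 3 21 56 8 48 (.C 8)) (.Y 57 57 (.D 3 21 57 9 49 (.C 9)) (.Y 58 68 (.D 3 21 58 10 60 (.C 10)) (.Y 4 24 (.Y 5 25 (.D 13 4 25 12 2 (.C 2)) (.R (.cons 1364 (.cons 1363 .nil (.cons 1301 (.cons 1363 (.cons 1365 (.cons 1302 (.cons 1238 .nil .nil) .nil) .nil) .nil) (.cons 1301 .nil (.cons 1301 (.cons 1365 (.cons 1428 .nil .nil) .nil) .nil)))) .nil))) (.Y 32 52 (.D 3 21 52 4 24 (.C 4)) (.Y 5 25 (.Y 16 26 (.D 3 16 25 0 0 (.C 0)) (.Y 17 27 (.D 3 17 25 1 1 (.C 1)) (.Y 22 62 (.D 25 3 22 34 64 (.C 34)) (.R (.cons 1301 (.cons 1237 (.cons 1364 (.cons 1363 (.cons 1427 (.cons 1428 (.cons 1365 (.cons 1429 .nil .nil) .nil) .nil) .nil) .nil) .nil) (.cons 1364 (.cons 1363 (.cons 1427 (.cons 1426 (.cons 1362 (.cons 1299 (.cons 1298 .nil .nil) .nil) .nil) .nil) .nil) .nil) .nil)) .nil)))))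 (.R (.cons 1364 (.cons 1363 .nil (.cons 1301 (.cons 1363 (.cons 1365 (.cons 1302 (.cons 1238 .nil .nil) .nil) .nil) .nil) (.cons 1301 (.cons 1365 (.cons 1428 .nil .nil) .nil) .nil))) .nil)))))))))) (.Y 45 55 (.D 13 7 45 21 51 (.C 21)) (.Y 4 24 (.Y 5 25 (.D 13 4 25 12 2 (.C 2)) (.Y 16 26 (.D 3 16 24 1 1 (.C 1)) (.Y 17 27 (.D 3 17 24 0 0 (.C 0)) (.R (.cons 1301 (.cons 1364 (.cons 1365 .nil (.cons 1365 (.cons 1428 .nil (.cons 1302 .nil .nil)) .nil)) (.cons 1237 .nil .nil)) .nil))))) (.Y 5 25 (.Y 16 26 (.D 3 16 25 0 0 (.C 0)) (.Y 17 27 (.D 3 17 25 1 1 (.C 1)) (.Y 22 62 (.D 25 3 22 34 64 (.C 34)) (.R (.cons 1301 (.cons 1237 .nil .nil) .nil))))) (.Y 8 48 (.Y 9 49 (.D 13 8 49 12 2 (.C 2)) (.Y 56 56 (.D 8 56 48 0 0 (.C 0)) (.Y 57 57 (.D 8 57 48 1 1 (.C 1)) (.Y 58 68 (.D 13 8 58 23 63 (.C 23)) (.R (.cons 1236 (.cons 1299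 .nil (.cons 1299 .nil (.cons 1299 .nil (.cons 1299 .nil .nil)))) .nil)))))) (.Y 9 49 (.Y 56 56 (.D 9 56 49 0 0 (.C 0)) (.Y 57 57 (.D 9 57 49 1 1 (.C 1)) (.Y 59 69 (.D 13 9 59 23 63 (.C 23)) (.Y 11 61 (.Y 16 26 (.D 61 3 16 64 34 (.C 34)) (.R (.cons 1301 (.cons 1364 (.cons 1365 .nil (.cons 1237 (.cons 1238 .nil (.cons 1236 .nil (.cons 1236 (.cons 1299 .nil .nil) .nil))) .nil)) (.cons 1237 .nil (.cons 1237 (.cons 1238 .nil .nil) .nil))) .nil))) (.Y 16 26 (.Y 17 27 (.D 3 16 27 2 12 (.C 2)) (.Y 28 28 (.D 3 16 28 5 25 (.C 5)) (.Y 29 29 (.D 3 16 29 4 24 (.C 4)) (.Y 31 41 (.D 7 41 26 2 12 (.C 2)) (.R (.cons 1236 (.cons 1299 .nil (.cons 1237 .nil (.cons 1237 (.cons 1301 .nil (.cons 1301 .nil .nil)) .nil))) .nil)))))) (.R (.cons 1301 (.cons 1364 (.cons 1365 (.cons 1302 (.cons 1366 .nil .nil) (.cons 1302 .nil .nil)) .nil)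 (.cons 1237 .nil (.cons 1237 (.cons 1238 .nil .nil) .nil))) .nil))))))) (.Y 11 61 (.Y 16 26 (.D 61 3 16 64 34 (.C 34)) (.R (.cons 1301 (.cons 1364 .nil (.cons 1237 .nil (.cons 1364 .nil .nil))) .nil))) (.Y 16 26 (.Y 17 27 (.D 3 16 27 2 12 (.C 2)) (.Y 28 28 (.D 3 16 28 5 25 (.C 5)) (.Y 29 29 (.D 3 16 29 4 24 (.C 4)) (.Y 31 41 (.D 7 41 26 2 12 (.C 2)) (.R (.cons 1364 (.cons 1301 .nil (.cons 1301 (.cons 1237 .nil .nil) .nil)) .nil)))))) (.R (.cons 1364 (.cons 1301 .nil (.cons 1301 (.cons 1237 .nil .nil) .nil)) .nil))))))))))))))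

/-- A part of the decision tree. -/
def tr6_0_63 : Tr :=
  (.Y 57 57 (.D 3 21 57 9 49 (.C 9)) (.Y 58 68 (.D 3 21 58 10 60 (.C 10)) (.Y 5 25 (.Y 4 24 (.D 13 4 25 12 2 (.C 2)) (.Y 16 26 (.D 3 16 25 0 0 (.C 0)) (.Y 17 27 (.D 3 17 25 1 1 (.C 1)) (.Y 22 62 (.D 25 3 22 34 64 (.C 34)) (.Y 28 28 (.D 5 28 25 0 0 (.C 0)) (.Y 29 29 (.D 5 29 25 1 1 (.C 1)) (.Y 32 52 (.D 5 32 51 2 12 (.C 2)) (.Y 42 42 (.Y 18 38 (.D 3 18 42 7 37 (.C 7)) (.Y 19 39 (.D 3 19 42 6 36 (.C 6)) (.Y 30 40 (.D 5 30 42 7 37 (.C 7)) (.Y 31 41 (.D 5 31 42 6 36 (.C 6)) (.Y 70 70 (.T 20) (.R (.cons 1237 (.cons 1301 .nil (.cons 1236 .nil (.cons 1301 (.cons 1364 (.cons 1363 .nil .nil) .nil) .nil))) .nil))))))) (.Y 43 43 (.S 43 43 42 42 (.C 42)) (.Y 11 61 (.Y 23 63 (.D 3 23 61 1 1 (.C 1)) (.Y 35 65 (.D 5 35 61 1 1 (.C 1)) (.R (.cons 1299 (.cons 1363 (.cons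 1364 .nil (.cons 1364 .nil .nil)) (.cons 1236 (.cons 1235 (.cons 1172 (.cons 1173 (.cons 1237 (.cons 1174 (.cons 1238 (.cons 1301 (.cons 1364 (.cons 1363 (.cons 1365 (.cons 1427 (.cons 1428 .nil .nil) .nil) .nil) .nil) .nil) .nil) .nil) .nil) .nil) .nil) .nil) .nil) (.cons 1363 .nil .nil))) .nil)))) (.R (.cons 1364 (.cons 1301 (.cons 1365 (.cons 1302 (.cons 1366 (.cons 1429 (.cons 1428 (.cons 1427 .nil .nil) .nil) .nil) .nil) .nil) (.cons 1237 .nil .nil)) (.cons 1363 (.cons 1299 (.cons 1236 (.cons 1235 (.cons 1298 (.cons 1362 (.cons 1426 .nil .nil) .nil) .nil) .nil) .nil) .nil) .nil)) .nil)))))))))))) (.Y 33 53 (.D 3 21 53 5 25 (.C 5)) (.Y 4 24 (.Y 16 26 (.D 3 16 24 1 1 (.C 1)) (.Y 17 27 (.D 3 17 24 0 0 (.C 0)) (.Y 23 63 (.D 24 3 23 34 64 (.C 34)) (.R (.cons 1299 (.cons 1363 (.cons 1364 .nil (.cons 1364 (.cons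 1427 .nil .nil) .nil)) (.cons 1236 (.cons 1235 .nil (.cons 1237 (.cons 1173 .nil (.cons 1173 .nil .nil)) .nil)) (.cons 1363 (.cons 1364 .nil .nil) .nil))) .nil))))) (.R (.cons 1364 (.cons 1363 .nil (.cons 1301 .nil .nil)) .nil)))))))

/-- A part of the decision tree. -/
def tr6_0_64 : Tr :=
  (.Y 8 48 (.Y 9 49 (.D 13 8 49 12 2 (.C 2)) (.Y 56 56 (.D 8 56 48 0 0 (.C 0)) (.Y 57 57 (.D 8 57 48 1 1 (.C 1)) (.Y 18 38 (.Y 19 39 (.D 3 18 39 2 12 (.C 2)) (.Y 42 42 (.D 3 18 42 7 37 (.C 7)) (.Y 43 43 (.D 3 18 43 6 36 (.C 6)) (.Y 44 54 (.D 8 54 38 2 12 (.C 2)) (.Y 47 67 (.D 3 18 47 10 60 (.C 10)) (.Y 5 25 (.Y 4 24 (.D 13 4 25 12 2 (.C 2)) (.Y 16 26 (.D 3 16 25 0 0 (.C 0)) (.Y 17 27 (.D 3 17 25 1 1 (.C 1)) (.Y 22 62 (.D 25 3 22 34 64 (.C 34)) (.Y 28 28 (.D 5 28 25 0 0 (.C 0)) (.Y 29 29 (.D 5 29 25 1 1 (.C 1)) (.Y 31 41 (.D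 5 31 38 2 12 (.C 2)) (.Y 32 52 (.D 5 32 48 1 1 (.C 1)) (.Y 33 53 (.D 5 33 48 0 0 (.C 0)) (.Y 59 69 (.D 13 8 59 22 62 (.C 22)) (.Y 23 63 (.D 25 3 23 35 65 (.D 48 3 18 55 45 (.T 38))) (.R (.cons 1301 (.cons 1237 .nil (.cons 1237 (.cons 1238 .nil .nil) .nil)) .nil))))))))))))) (.Y 30 40 (.D 3 18 40 5 25 (.C 5)) (.Y 4 24 (.Y 16 26 (.D 3 16 24 1 1 (.C 1)) (.Y 17 27 (.D 3 17 24 0 0 (.C 0)) (.Y 23 63 (.D 24 3 23 34 64 (.C 34)) (.R (.cons 1301 (.cons 1364 .nil (.cons 1364 .nil (.cons 1364 (.cons 1363 .nil .nil) .nil))) .nil))))) (.Y 31 41 (.D 3 18 41 4 24 (.C 4)) (.Y 11 61 (.Y 16 26 (.D 61 3 16 64 34 (.C 34)) (.Y 22 62 (.D 3 22 61 0 0 (.C 0)) (.R (.cons 1236 (.cons 1299 (.cons 1235 .nil .nil) (.cons 1237 (.cons 1301 (.cons 1364 .nil .nil) .nil) (.cons 1237 (.cons 1301 (.cons 1364 .nil .nil) .nil) .nil))) .nil)))) (.R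 (.cons 1364 (.cons 1301 (.cons 1237 (.cons 1236 .nil .nil) .nil) (.cons 1363 .nil .nil)) .nil)))))))))))) (.Y 45 55 (.D 13 8 55 18 38 (.C 18)) (.Y 4 24 (.Y 5 25 (.D 13 4 25 12 2 (.C 2)) (.Y 16 26 (.D 3 16 24 1 1 (.C 1)) (.Y 17 27 (.D 3 17 24 0 0 (.C 0)) (.Y 23 63 (.D 24 3 23 34 64 (.C 34)) (.Y 28 28 (.D 4 28 24 0 0 (.C 0)) (.Y 29 29 (.D 4 29 24 1 1 (.C 1)) (.Y 31 41 (.D 13 4 31 18 38 (.C 18)) (.R (.cons 1301 (.cons 1364 .nil (.cons 1237 .nil (.cons 1364 (.cons 1365 .nil .nil) .nil))) .nil))))))))) (.Y 5 25 (.Y 16 26 (.D 3 16 25 0 0 (.C 0)) (.Y 17 27 (.D 3 17 25 1 1 (.C 1)) (.Y 22 62 (.D 25 3 22 34 64 (.C 34)) (.Y 28 28 (.D 5 28 25 0 0 (.C 0)) (.Y 29 29 (.D 5 29 25 1 1 (.C 1)) (.Y 30 40 (.D 13 5 30 18 38 (.C 18)) (.Y 32 52 (.D 5 32 48 1 1 (.C 1)) (.Y 33 53 (.D 5 33 48 0 0 (.C 0)) (.Y 59 69 (.D 13 8 59 22 62 (.C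 22)) (.R (.cons 1237 (.cons 1301 (.cons 1364 (.cons 1365 .nil .nil) .nil) (.cons 1301 (.cons 1236 (.cons 1299 (.cons 1235 .nil .nil) (.cons 1299 (.cons 1173 (.cons 1174 (.cons 1238 (.cons 1302 .nil .nil) .nil) .nil) .nil) .nil)) .nil) (.cons 1301 .nil .nil))) .nil))))))))))) (.Y 11 61 (.Y 16 26 (.D 61 3 16 64 34 (.C 34)) (.Y 22 62 (.D 3 22 61 0 0 (.C 0)) (.Y 23 63 (.D 3 23 61 1 1 (.C 1)) (.Y 33 53 (.D 13 8 53 16 26 (.C 16)) (.Y 46 66 (.D 13 11 66 18 38 (.C 18)) (.Y 58 68 (.D 8 58 61 1 1 (.C 1)) (.Y 59 69 (.D 8 59 61 0 0 (.C 0)) (.Y 70 70 (.D 11 70 61 0 0 (.C 0)) (.Y 71 71 (.D 11 71 61 1 1 (.C 1)) (.Y 17 27 (.Y 28 28 (.D 3 17 28 4 24 (.C 4)) (.Y 29 29 (.D 3 17 29 5 25 (.C 5)) (.Y 30 40 (.D 3 17 30 6 36 (.C 6)) (.Y 31 41 (.D 3 17 31 7 37 (.C 7)) (.R (.cons 1237 (.cons 1301 (.cons 1364 (.cons 1365 .nil .nil) .nil)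 (.cons 1236 (.cons 1299 (.cons 1301 (.cons 1364 (.cons 1365 .nil .nil) .nil) .nil) .nil) (.cons 1301 (.cons 1364 .nil .nil) .nil))) .nil)))))) (.R (.cons 1301 (.cons 1237 (.cons 1236 (.cons 1299 (.cons 1363 .nil .nil) .nil) .nil) (.cons 1237 (.cons 1238 .nil .nil) .nil)) .nil)))))))))))) (.Y 16 26 (.Y 17 27 (.D 3 16 27 2 12 (.C 2)) (.Y 28 28 (.D 3 16 28 5 25 (.C 5)) (.Y 29 29 (.D 3 16 29 4 24 (.C 4)) (.Y 30 40 (.D 3 16 30 7 37 (.C 7)) (.Y 31 41 (.D 3 16 31 6 36 (.C 6)) (.Y 32 52 (.D 8 52 26 2 12 (.C 2)) (.R (.cons 1364 (.cons 1301 (.cons 1237 .nil (.cons 1237 (.cons 1236 (.cons 1238 (.cons 1299 (.cons 1235 (.cons 1172 (.cons 1298 (.cons 1362 (.cons 1363 (.cons 1426 .nil (.cons 1427 .nil .nil)) (.cons 1363 .nil .nil)) .nil) .nil) (.cons 1172 .nil .nil)) (.cons 1363 .nil .nil)) .nil) .nil) (.cons 1238 .nil .nil))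 .nil)) (.cons 1301 .nil .nil)) .nil)))))))) (.Y 33 53 (.D 13 8 53 16 26 (.C 16)) (.Y 17 27 (.Y 28 28 (.D 3 17 28 4 24 (.C 4)) (.Y 29 29 (.D 3 17 29 5 25 (.C 5)) (.Y 30 40 (.D 3 17 30 6 36 (.C 6)) (.Y 31 41 (.D 3 17 31 7 37 (.C 7)) (.Y 35 65 (.D 3 17 35 11 61 (.C 11)) (.R (.cons 1237 (.cons 1236 (.cons 1299 (.cons 1363 (.cons 1364 .nil .nil) .nil) (.cons 1173 .nil .nil)) (.cons 1236 (.cons 1301 (.cons 1364 .nil .nil) .nil) .nil)) .nil))))))) (.Y 32 52 (.D 13 8 52 17 27 (.C 17)) (.R (.cons 1364 (.cons 1301 (.cons 1237 (.cons 1238 .nil .nil) (.cons 1237 .nil .nil)) (.cons 1301 (.cons 1237 .nil .nil) .nil)) .nil)))))))))))))) (.Y 9 49 (.Y 56 56 (.D 9 56 49 0 0 (.C 0)) (.Y 57 57 (.D 9 57 49 1 1 (.C 1)) (.Y 19 39 (.Y 18 38 (.D 3 18 39 2 12 (.C 2)) (.Y 42 42 (.D 3 19 42 6 36 (.C 6)) (.Y 43 43 (.D 3 19 43 7 37 (.C 7))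 (.Y 44 54 (.D 9 54 39 2 12 (.C 2)) (.Y 46 66 (.D 3 19 46 10 60 (.C 10)) (.Y 28 28 (.Y 4 24 (.D 4 28 24 0 0 (.C 0)) (.Y 5 25 (.D 5 28 25 0 0 (.C 0)) (.Y 16 26 (.D 3 16 28 5 25 (.C 5)) (.Y 17 27 (.D 3 17 28 4 24 (.C 4)) (.Y 30 40 (.D 3 19 40 4 24 (.C 4)) (.Y 31 41 (.D 3 19 41 5 25 (.C 5)) (.Y 32 52 (.D 9 52 28 5 25 (.C 5)) (.Y 33 53 (.D 9 53 28 4 24 (.C 4)) (.Y 70 70 (.D 49 3 19 55 45 (.T 64)) (.R (.cons 1236 (.cons 1237 .nil (.cons 1237 (.cons 1173 (.cons 1174 .nil .nil) .nil) (.cons 1237 (.cons 1173 .nil .nil) .nil))) .nil))))))))))) (.Y 29 29 (.S 29 29 28 28 (.C 28)) (.Y 4 24 (.Y 5 25 (.D 13 4 25 12 2 (.C 2)) (.Y 16 26 (.D 3 16 24 1 1 (.C 1)) (.Y 17 27 (.D 3 17 24 0 0 (.C 0)) (.Y 23 63 (.D 24 3 23 34 64 (.C 34)) (.R (.cons 1301 (.cons 1364 (.cons 1363 (.cons 1365 (.cons 1428 .nil .nil) .nil) .nil) (.cons 1237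 .nil (.cons 1364 (.cons 1365 .nil .nil) .nil))) .nil)))))) (.Y 30 40 (.D 3 19 40 4 24 (.C 4)) (.R (.cons 1236 (.cons 1299 .nil (.cons 1237 .nil (.cons 1299 .nil (.cons 1237 .nil .nil)))) .nil))))))))))) (.Y 45 55 (.D 13 9 55 19 39 (.C 19)) (.Y 4 24 (.Y 5 25 (.D 13 4 25 12 2 (.C 2)) (.Y 16 26 (.D 3 16 24 1 1 (.C 1)) (.Y 17 27 (.D 3 17 24 0 0 (.C 0)) (.Y 23 63 (.D 24 3 23 34 64 (.C 34)) (.Y 28 28 (.D 4 28 24 0 0 (.C 0)) (.Y 29 29 (.D 4 29 24 1 1 (.C 1)) (.Y 30 40 (.D 13 4 30 19 39 (.C 19)) (.Y 32 52 (.D 4 32 49 1 1 (.C 1)) (.Y 33 53 (.D 4 33 49 0 0 (.C 0)) (.R (.cons 1237 (.cons 1301 .nil (.cons 1301 .nil (.cons 1301 .nil .nil))) .nil))))))))))) (.Y 5 25 (.Y 16 26 (.D 3 16 25 0 0 (.C 0)) (.Y 17 27 (.D 3 17 25 1 1 (.C 1)) (.Y 22 62 (.D 25 3 22 34 64 (.C 34)) (.Y 28 28 (.D 5 28 25 0 0 (.C 0)) (.Y 29 29 (.D 5 29 25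 1 1 (.C 1)) (.Y 31 41 (.D 13 5 31 19 39 (.C 19)) (.Y 32 52 (.D 5 32 49 0 0 (.C 0)) (.Y 33 53 (.D 5 33 49 1 1 (.C 1)) (.R (.cons 1237 (.cons 1301 (.cons 1238 .nil .nil) (.cons 1301 .nil (.cons 1236 (.cons 1299 (.cons 1301 (.cons 1173 (.cons 1364 (.cons 1363 .nil (.cons 1365 (.cons 1302 .nil .nil) .nil)) .nil) .nil) .nil) .nil) .nil))) .nil)))))))))) (.Y 11 61 (.Y 16 26 (.D 61 3 16 64 34 (.C 34)) (.Y 22 62 (.D 3 22 61 0 0 (.C 0)) (.Y 23 63 (.D 3 23 61 1 1 (.C 1)) (.Y 32 52 (.D 13 9 52 16 26 (.C 16)) (.Y 47 67 (.D 13 11 67 19 39 (.C 19)) (.Y 58 68 (.D 9 58 61 0 0 (.C 0)) (.Y 59 69 (.D 9 59 61 1 1 (.C 1)) (.Y 70 70 (.D 11 70 61 0 0 (.C 0)) (.R (.cons 1299 (.cons 1236 (.cons 1237 (.cons 1173 (.cons 1172 .nil .nil) (.cons 1173 .nil (.cons 1301 .nil .nil))) .nil) (.cons 1236 (.cons 1235 .nil (.cons 1235 .nil (.cons 1237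 (.cons 1301 .nil (.cons 1301 (.cons 1238 .nil (.cons 1364 .nil .nil)) .nil)) .nil))) (.cons 1363 .nil .nil))) .nil)))))))))) (.Y 16 26 (.Y 17 27 (.D 3 16 27 2 12 (.C 2)) (.Y 28 28 (.D 3 16 28 5 25 (.C 5)) (.Y 29 29 (.D 3 16 29 4 24 (.C 4)) (.Y 30 40 (.D 3 16 30 7 37 (.C 7)) (.Y 31 41 (.D 3 16 31 6 36 (.C 6)) (.Y 33 53 (.D 9 53 26 2 12 (.C 2)) (.Y 35 65 (.D 3 16 35 10 60 (.C 10)) (.R (.cons 1237 (.cons 1236 (.cons 1299 (.cons 1363 (.cons 1364 .nil .nil) .nil) .nil) (.cons 1236 (.cons 1299 (.cons 1363 (.cons 1364 .nil .nil) .nil) (.cons 1173 .nil .nil)) .nil)) .nil))))))))) (.Y 32 52 (.D 13 9 52 16 26 (.C 16)) (.Y 17 27 (.Y 28 28 (.D 3 17 28 4 24 (.C 4)) (.Y 29 29 (.D 3 17 29 5 25 (.C 5)) (.Y 30 40 (.D 3 17 30 6 36 (.C 6)) (.Y 31 41 (.D 3 17 31 7 37 (.C 7)) (.Y 35 65 (.D 3 17 35 11 61 (.C 11)) (.R (.cons 1237 (.cons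 1301 (.cons 1238 .nil (.cons 1364 (.cons 1365 .nil .nil) .nil)) (.cons 1236 (.cons 1301 (.cons 1364 .nil .nil) .nil) .nil)) .nil))))))) (.Y 33 53 (.D 13 9 53 17 27 (.C 17)) (.R (.cons 1364 (.cons 1301 .nil (.cons 1365 (.cons 1428 .nil (.cons 1301 (.cons 1237 (.cons 1174 (.cons 1238 (.cons 1302 .nil (.cons 1302 (.cons 1366 .nil .nil) .nil)) (.cons 1173 .nil .nil)) .nil) (.cons 1302 (.cons 1366 (.cons 1303 .nil .nil) .nil) .nil)) .nil)) .nil)) .nil))))))))))))) (.Y 4 24 (.Y 5 25 (.D 13 4 25 12 2 (.C 2)) (.Y 16 26 (.D 3 16 24 1 1 (.C 1)) (.Y 17 27 (.D 3 17 24 0 0 (.C 0)) (.Y 23 63 (.D 24 3 23 34 64 (.C 34)) (.R (.cons 1364 (.cons 1363 .nil (.cons 1301 (.cons 1365 .nil .nil) (.cons 1301 .nil .nil))) .nil)))))) (.Y 5 25 (.Y 16 26 (.D 3 16 25 0 0 (.C 0)) (.Y 17 27 (.D 3 17 25 1 1 (.C 1)) (.Y 22 62 (.D 25 3 22 34 64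 (.C 34)) (.Y 28 28 (.D 5 28 25 0 0 (.C 0)) (.Y 29 29 (.D 5 29 25 1 1 (.C 1)) (.Y 32 52 (.D 13 5 32 20 50 (.C 20)) (.Y 33 53 (.D 13 5 33 21 51 (.C 21)) (.Y 11 61 (.Y 23 63 (.D 3 23 61 1 1 (.C 1)) (.R (.cons 1301 (.cons 1237 .nil (.cons 1364 (.cons 1365 (.cons 1302 (.cons 1366 (.cons 1429 (.cons 1428 (.cons 1427 .nil .nil) .nil) .nil) .nil) .nil) .nil) (.cons 1237 (.cons 1364 (.cons 1238 (.cons 1302 (.cons 1365 (.cons 1428 (.cons 1429 .nil .nil) .nil) .nil) .nil) .nil) .nil) .nil))) .nil))) (.Y 18 38 (.Y 19 39 (.D 3 18 39 2 12 (.C 2)) (.R (.cons 1364 (.cons 1363 (.cons 1299 .nil .nil) (.cons 1301 .nil .nil)) .nil))) (.R (.cons 1364 (.cons 1363 (.cons 1427 (.cons 1426 (.cons 1362 (.cons 1299 (.cons 1236 (.cons 1237 (.cons 1301 (.cons 1173 (.cons 1365 (.cons 1174 (.cons 1238 (.cons 1302 .nil .nil) .nil) .nil) .nil)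 .nil) .nil) .nil) .nil) .nil) .nil) .nil) .nil) (.cons 1301 .nil .nil)) .nil))))))))))) (.R (.cons 1364 (.cons 1363 .nil (.cons 1301 .nil .nil)) .nil))))))

/-- A part of the decision tree. -/
def tr6_0_65 : Tr :=
  (.Y 20 50 (.Y 11 61 (.Y 16 26 (.D 61 3 16 64 34 (.C 34)) (.Y 31 41 (.T 0) (.Y 28 28 (.Y 5 25 (.D 13 5 28 16 26 (.C 16)) (.Y 32 52 (.D 3 20 52 5 25 (.C 5)) (.Y 42 42 (.T 4) (.Y 30 40 (.D 40 28 30 42 42 (.C 42)) (.Y 43 43 (.S 43 43 42 42 (.C 42)) tr6_0_29))))) (.Y 29 29 (.S 29 29 28 28 (.C 28)) (.Y 5 25 (.Y 0 0 (.D 13 0 5 16 26 (.C 16)) (.Y 1 1 (.S 1 1 0 0 (.C 0)) (.Y 8 48 (.D 3 20 48 1 1 (.C 1)) (.Y 9 49 (.D 3 20 49 0 0 (.C 0)) tr6_0_30)))) tr6_0_31))))) (.Y 58 68 (.D 3 20 58 11 61 (.C 11)) (.Y 5 25 (.Y 22 62 (.D 25 3 22 34 64 (.C 34)) (.Y 47 67 (.T 9) tr6_0_34)) tr6_0_38))) (.Y 6 36 (.Y 45 55 (.D 13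 6 45 20 50 (.C 20)) (.Y 33 53 (.Y 4 24 (.D 13 4 33 20 50 (.C 20)) (.Y 23 63 (.T 1) (.Y 46 66 (.D 13 6 46 23 63 (.C 23)) tr6_0_39))) tr6_0_45)) (.Y 10 60 (.Y 17 27 (.D 60 3 17 64 34 (.C 34)) (.Y 59 69 (.D 13 10 69 20 50 (.C 20)) tr6_0_49)) (.Y 2 12 (.Y 7 37 (.D 2 13 7 6 36 (.C 6)) (.Y 11 61 (.D 2 13 11 10 60 (.C 10)) (.Y 21 51 (.D 12 3 21 20 50 (.C 20)) (.Y 58 68 (.Y 30 40 (.T 15) tr6_0_54) (.Y 35 65 (.Y 4 24 (.D 13 4 35 22 62 (.D 24 2 22 34 64 (.C 34))) (.Y 5 25 (.D 2 13 5 4 24 (.C 4)) (.Y 16 26 (.D 3 16 35 10 60 (.C 10)) tr6_0_55))) (.Y 70 70 (.Y 22 62 (.D 2 22 70 10 60 (.C 10)) (.Y 23 63 (.D 3 23 70 10 60 (.C 10)) tr6_0_57)) (.Y 71 71 (.S 71 71 70 70 (.C 70)) (.Y 0 0 (.Y 8 48 (.D 12 0 8 20 50 (.C 20)) (.Y 9 49 (.D 2 13 9 8 48 (.C 8)) tr6_0_58)) (.Y 1 1 (.D 1 2 13 0 0 (.C 0)) (.Y 14 14 (.D 2 14 12 0 0 (.C 0))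 (.Y 15 15 (.D 2 15 13 0 0 (.C 0)) (.Y 4 24 (.Y 16 26 (.D 2 16 24 0 0 (.C 0)) (.Y 17 27 (.D 3 17 24 0 0 (.C 0)) (.Y 22 62 (.D 24 2 22 34 64 (.C 34)) (.Y 23 63 (.D 12 3 23 22 62 (.C 22)) (.Y 28 28 (.D 4 28 24 0 0 (.C 0)) (.Y 29 29 (.D 4 29 24 1 1 (.C 1)) (.Y 32 52 (.D 12 4 32 20 50 (.C 20)) (.Y 33 53 (.D 13 4 33 20 50 (.C 20)) (.R (.cons 1363 (.cons 1299 (.cons 1362 .nil (.cons 1362 .nil .nil)) (.cons 1364 (.cons 1301 .nil (.cons 1427 .nil (.cons 1301 .nil .nil))) (.cons 1364 (.cons 1301 (.cons 1237 .nil .nil) (.cons 1301 .nil .nil)) .nil))) .nil)))))))))) (.Y 5 25 (.D 2 13 5 4 24 (.C 4)) tr6_0_59))))))))))))) (.Y 1 1 (.S 1 1 0 0 (.D 0 1 3 2 12 (.C 2))) (.Y 15 15 (.D 3 15 13 1 1 (.C 1)) (.Y 14 14 (.Y 9 49 (.D 49 3 14 50 20 (.C 20)) (.Y 19 39 (.D 3 14 19 6 36 (.C 6)) (.Y 23 63 (.D 3 14 23 10 60 (.C 10)) (.Y 21 51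 tr6_0_60 (.Y 8 48 (.D 48 3 14 51 21 (.C 21)) tr6_0_61))))) (.Y 0 0 (.D 13 0 3 14 14 (.C 14)) (.Y 7 37 (.Y 18 38 (.D 3 18 37 0 0 (.C 0)) (.Y 19 39 (.D 3 19 37 1 1 (.C 1)) (.Y 42 42 (.D 7 42 37 0 0 (.C 0)) tr6_0_62))) (.Y 21 51 (.Y 8 48 (.D 3 21 48 0 0 (.C 0)) (.Y 9 49 (.D 3 21 49 1 1 (.C 1)) (.Y 44 54 (.D 3 21 54 6 36 (.C 6)) (.Y 45 55 (.D 3 21 55 7 37 (.C 7)) (.Y 56 56 (.D 3 21 56 8 48 (.C 8)) tr6_0_63))))) tr6_0_64))))))))))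

/-- The decision tree. -/
def tr6_0 : Tr :=
  (.Y 34 64 (.Y 45 55 (.T 7) (.Y 9 49 (.Y 19 39 (.D 49 3 19 55 45 (.C 45)) (.Y 6 36 (.Y 0 0 (.D 13 0 6 19 39 (.C 19)) (.Y 1 1 (.S 1 1 0 0 (.C 0)) (.Y 14 14 (.D 3 14 13 0 0 (.C 0)) (.Y 15 15 (.D 3 15 13 1 1 (.C 1)) (.Y 18 38 (.D 3 18 36 1 1 (.C 1)) tr6_0_1))))) (.Y 42 42 (.Y 56 56 (.T 13) (.Y 0 0 (.D 49 0 9 56 56 (.C 56)) tr6_0_3)) (.Y 43 43 (.S 43 43 42 42 (.C 42)) (.Y 20 50 tr6_0_4 (.Y 0 0 (.D 13 0 9 20 50 (.C 20)) (.Y 1 1 (.S 1 1 0 0 (.C 0)) (.Y 14 14 (.D 3 14 13 0 0 (.C 0)) (.Y 15 15 (.D 3 15 13 1 1 (.C 1)) (.Y 21 51 (.D 3 21 49 1 1 (.C 1)) (.Y 56 56 (.D 9 56 49 0 0 (.C 0)) (.Y 57 57 (.D 9 57 49 1 1 (.C 1)) tr6_0_5)))))))))))) (.Y 6 36 (.Y 20 50 (.D 36 3 20 45 55 (.C 45)) (.Y 33 53 (.Y 4 24 (.D 13 4 33 20 50 (.C 20)) (.Y 10 60 (.D 10 64 33 9 49 (.C 9)) (.Y 17 27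 (.D 3 17 33 9 49 (.C 9)) (.Y 23 63 (.D 3 23 64 4 24 (.C 4)) (.Y 30 40 (.D 6 40 33 9 49 (.C 9)) (.Y 46 66 (.D 6 46 64 4 24 (.C 4)) tr6_0_6)))))) (.Y 56 56 (.Y 59 69 (.D 34 69 56 33 53 (.C 33)) (.Y 42 42 (.T 13) tr6_0_8)) (.Y 57 57 (.S 57 57 56 56 (.C 56)) tr6_0_11)))) (.Y 42 42 (.Y 19 39 (.D 3 19 42 6 36 (.C 6)) (.Y 56 56 (.T 13) (.Y 44 54 (.D 54 42 44 56 56 (.C 56)) (.Y 57 57 (.S 57 57 56 56 (.C 56)) (.Y 20 50 (.Y 0 0 (.D 0 3 20 9 49 (.C 9)) (.Y 1 1 (.S 1 1 0 0 (.C 0)) (.Y 7 37 (.D 7 42 37 0 0 (.C 0)) (.Y 8 48 (.D 3 20 48 1 1 (.C 1)) tr6_0_13)))) (.Y 58 68 (.Y 5 25 (.D 5 34 68 9 49 (.C 9)) tr6_0_14) tr6_0_15)))))) (.Y 43 43 (.S 43 43 42 42 (.C 42)) tr6_0_28))))) tr6_0_65)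

theorem chk6_0 : chk2 6 dl6 pats6 true TM6 tr6_0 (orL [3, 13]) (outQ []) = true := by
  decide +kernel

end Pool.H3JG
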