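import Pool.Agent.Helper3.JG.Defs

/-!
# Jigsaw tiles on a lattice: algebra of labels, matrices and placements
-/

namespace Pool.H3JG

open Set

variable {n : ℕ}

theorem act_lmul (a b : Lab n) (i : ZMod n) : act (lmul a b) i = act a (act b i) := by
  obtain ⟨k, f⟩ := a
  obtain ⟨l, e⟩ := b
  cases f <;> cases e <;> simp [act, lmul, sg] <;> ring

theorem act_one (i : ZMod n) : act ((0, false) : Lab n) i = i := by
  simp [act, sg]

theorem lmul_assoc' (a b c : Lab n) : lmul (lmul a b) c = lmul a (lmul b c) := by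
  obtain ⟨k, f⟩ := a
  obtain ⟨l, e⟩ := b
  obtain ⟨m, g⟩ := c
  cases f <;> cases e <;> cases g <;> simp [lmul, sg] <;> ring

theorem one_lmul (a : Lab n) : lmul (0, false) a = a := by
  simp [lmul, sg]

theorem lmul_one (a : Lab n) : lmul a (0, false) = a := by
  obtain ⟨k, f⟩ := a
  cases f <;> simp [lmul, sg]

theorem lmul_linv (a : Lab n) : lmul a (linv a) = (0, false) := by
  obtain ⟨k, f⟩ := a
  cases f <;> simp [lmul, linv, sg]

theorem linv_lmul (a : Lab n) : lmul (linv a) a = (0, false) := by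
  obtain ⟨k, f⟩ := a
  cases f <;> simp [lmul, linv, sg]

theorem act_act_linv (a : Lab n) (i : ZMod n) : act a (act (linv a) i) = i := by
  rw [← act_lmul, lmul_linv, act_one]

theorem act_linv_act (a : Lab n) (i : ZMod n) : act (linv a) (act a i) = i := by
  rw [← act_lmul, linv_lmul, act_one]

theorem Mat.ap_mul (m k : Mat) (p : V) : (m.mul k).ap p = m.ap (k.ap p) := by
  simp only [Mat.ap, Mat.mul, Prod.mk.injEq]
  push_cast
  constructor <;> ring

theorem Mat.apZ_mul (m k : Mat) (p : Z2) : (m.mul k).apZ p = m.apZ (k.apZ p) := by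
  simp only [Mat.apZ, Mat.mul, Prod.mk.injEq]
  constructor <;> ring

theorem Mat.ap_one (p : V) : Mat.one.ap p = p := by
  simp [Mat.ap, Mat.one]

theorem Mat.apZ_one (p : Z2) : Mat.one.apZ p = p := by
  simp [Mat.apZ, Mat.one]

theorem Mat.ap_add (m : Mat) (p q : V) : m.ap (p + q) = m.ap p + m.ap q := by
  simp only [Mat.ap, Prod.fst_add, Prod.snd_add, Prod.mk_add_mk, Prod.mk.injEq]
  constructor <;> ring

theorem Mat.ap_sub (m : Mat) (p q : V) : m.ap (p - q) = m.ap p - m.ap q := by
  simp only [Mat.ap, Prod.fst_sub, Prod.snd_sub, Prod.mk_sub_mk, Prod.mk.injEq]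
  constructor <;> ring

theorem Mat.apZ_add (m : Mat) (p q : Z2) : m.apZ (p + q) = m.apZ p + m.apZ q := by
  simp only [Mat.apZ, Prod.fst_add, Prod.snd_add, Prod.mk_add_mk, Prod.mk.injEq]
  constructor <;> ring

theorem Mat.apZ_neg (m : Mat) (p : Z2) : m.apZ (-p) = -(m.apZ p) := by
  simp only [Mat.apZ, Prod.fst_neg, Prod.snd_neg, Prod.neg_mk, Prod.mk.injEq]
  constructor <;> ring

theorem Mat.apZ_zero (m : Mat) : m.apZ 0 = 0 := by
  simp [Mat.apZ]

theorem toV_apZ (m : Mat) (z : Z2) : toV (m.apZ z) = m.ap (toV z) := by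
  simp [Mat.apZ, Mat.ap, toV]

theorem toV_add (z w : Z2) : toV (z + w) = toV z + toV w := by
  simp [toV]

theorem toV_neg (z : Z2) : toV (-z) = -(toV z) := by
  simp [toV]

theorem toV_zero : toV 0 = 0 := by
  simp [toV]

theorem Mat.continuous_ap (m : Mat) : Continuous m.ap := by
  unfold Mat.ap
  fun_prop

namespace Grid

variable (G : Grid n)

theorem ap_linv_ap (a : Lab n) (p : V) : (G.mat (linv a)).ap ((G.mat a).ap p) = p := by
  rw [← Mat.ap_mul, ← G.mat_mul, linv_lmul, G.mat_one, Mat.ap_one]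

theorem ap_ap_linv (a : Lab n) (p : V) : (G.mat a).ap ((G.mat (linv a)).ap p) = p := by
  rw [← Mat.ap_mul, ← G.mat_mul, lmul_linv, G.mat_one, Mat.ap_one]

theorem apZ_linv_apZ (a : Lab n) (p : Z2) : (G.mat (linv a)).apZ ((G.mat a).apZ p) = p := by
  rw [← Mat.apZ_mul, ← G.mat_mul, linv_lmul, G.mat_one, Mat.apZ_one]

theorem apZ_apZ_linv (a : Lab n) (p : Z2) : (G.mat a).apZ ((G.mat (linv a)).apZ p) = p := by
  rw [← Mat.apZ_mul, ← G.mat_mul, lmul_linv, G.mat_one, Mat.apZ_one]

/-- The placement as a homeomorphism. -/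
def plH (z : Z2) (a : Lab n) : V ≃ₜ V where
  toFun := G.pl z a
  invFun x := (G.mat (linv a)).ap (x - toV z)
  left_inv x := by
    show (G.mat (linv a)).ap (toV z + (G.mat a).ap x - toV z) = x
    rw [add_sub_cancel_left, ap_linv_ap]
  right_inv x := by
    show toV z + (G.mat a).ap ((G.mat (linv a)).ap (x - toV z)) = x
    rw [ap_ap_linv, add_sub_cancel]
  continuous_toFun := by
    show Continuous fun x => toV z + (G.mat a).ap x
    exact continuous_const.add (G.mat a).continuous_ap
  continuous_invFun := by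
    exact (G.mat (linv a)).continuous_ap.comp (continuous_id.sub continuous_const)

theorem plH_coe (z : Z2) (a : Lab n) : ⇑(G.plH z a) = G.pl z a := rfl

theorem pl_pl (z w : Z2) (a b : Lab n) (x : V) :
    G.pl z a (G.pl w b x) = G.pl (mvR G.mat z a w) (lmul a b) x := by
  unfold pl mvR
  rw [G.mat_mul, Mat.ap_mul, toV_add, toV_apZ, Mat.ap_add, add_assoc]

theorem pl_tile (T : Set V) (z w : Z2) (a b : Lab n) :
    G.pl z a '' G.tile T w b = G.tile T (mvR G.mat z a w) (lmul a b) := by
  unfold tile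
  rw [image_image]
  exact image_congr fun x _ => G.pl_pl z w a b x

theorem pl_zero (a : Lab n) (x : V) : G.pl 0 a x = (G.mat a).ap x := by
  unfold pl
  rw [toV_zero, zero_add]

theorem pl_one (z : Z2) (x : V) : G.pl z (0, false) x = toV z + x := by
  unfold pl
  rw [G.mat_one, Mat.ap_one]

theorem mat_flip_U0 (f : Bool) : (G.mat (0, f)).ap '' G.U0 = G.U0 := by
  cases f
  · rw [G.mat_one]
    have : (Mat.one.ap : V → V) = id := funext Mat.ap_one
    rw [this, image_id]
  · apply Subset.antisymm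
    · rintro _ ⟨p, hp, rfl⟩
      exact G.U0_flip p hp
    · intro p hp
      refine ⟨(G.mat (0, true)).ap p, G.U0_flip p hp, ?_⟩
      have := G.ap_linv_ap (0, true) p
      simpa [linv] using this

theorem mat_U (a : Lab n) (d : ZMod n) : (G.mat a).ap '' G.U d = G.U (act a d) := by
  have key : lmul a (d, false) = lmul (act a d, false) (0, a.2) := by
    obtain ⟨k, f⟩ := a
    cases f <;> simp [lmul, act, sg]
  have h1 : (G.mat a).ap '' G.U d = (G.mat (lmul a (d, false))).ap '' G.U0 := by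
    unfold U
    rw [image_image]
    refine image_congr fun x _ => ?_
    rw [G.mat_mul, Mat.ap_mul]
  rw [h1, key]
  have h2 : (G.mat (lmul (act a d, false) (0, a.2))).ap '' G.U0
      = (G.mat (act a d, false)).ap '' ((G.mat (0, a.2)).ap '' G.U0) := by
    rw [image_image]
    refine image_congr fun x _ => ?_
    rw [G.mat_mul, Mat.ap_mul]
  rw [h2, mat_flip_U0]
  rfl

theorem isOpen_U (d : ZMod n) : IsOpen (G.U d) := by
  have h : G.U d = G.plH 0 (d, false) '' G.U0 := by
    unfold U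
    refine image_congr fun x _ => ?_
    rw [plH_coe, pl_zero]
  rw [h]
  exact (G.plH 0 (d, false)).isOpenMap _ G.U0_open

theorem sub_mem_U {d : ZMod n} {p : V} (hp : p ∈ G.U d) : p - toV (G.dir d) ∈ G.U (d + G.h) := by
  obtain ⟨q, hq, rfl⟩ := hp
  have h1 := G.U0_half q hq
  refine ⟨_, h1, ?_⟩
  have h2 : G.dir d = (G.mat (d, false)).apZ (G.dir 0) := by
    rw [G.mat_dir]
    simp [act, sg]
  rw [h2, toV_apZ, ← Mat.ap_sub, ← Mat.ap_mul, ← G.mat_mul]
  have h3 : lmul ((d + G.h, false) : Lab n) (G.h, false) = (d, false) := by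
    simp [lmul, sg, add_assoc, G.h_add]
  rw [h3]

theorem sub_U (d : ZMod n) : (fun p => p - toV (G.dir d)) '' G.U d = G.U (d + G.h) := by
  apply Subset.antisymm
  · rintro _ ⟨p, hp, rfl⟩
    exact G.sub_mem_U hp
  · intro p hp
    have h := G.sub_mem_U hp
    rw [add_assoc, G.h_add, add_zero, G.dir_h, toV_neg, sub_neg_eq_add] at h
    exact ⟨_, h, by simp⟩

end Grid

end Pool.H3JG
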