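import Pool.Agent.Helper3.JG.Lab

/-!
# Jigsaw tiles on a lattice: complementary copies and the matching relation
-/

namespace Pool.H3JG

open Set

variable {n : ℕ}

theorem fit_symm {U A B : Set V} (h : Fit U A B) : Fit U B A := ⟨h.2, h.1⟩

theorem fit_chain {U A B C D : Set V} (h1 : Fit U A B) (h2 : Fit U B C) (h3 : Fit U C D) :
    Fit U A D :=
  ⟨h3.1.trans (h2.2.symm.trans h1.1), h1.2.trans (h2.1.symm.trans h3.2)⟩

theorem fit_image (e : V ≃ₜ V) {U A B : Set V} : Fit (e '' U) (e '' A) (e '' B) ↔ Fit U A B := by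
  unfold Fit
  rw [← e.image_interior, ← e.image_interior, ← image_inter e.injective,
    ← image_inter e.injective, ← image_sdiff e.injective, ← image_sdiff e.injective,
    e.injective.image_injective.eq_iff, e.injective.image_injective.eq_iff]

namespace Grid

variable (G : Grid n) (T : Set V)

theorem fitAt_lmul (c : Lab n) (d : ZMod n) (a b : Lab n) :
    G.FitAt T (act c d) (lmul c a) (lmul c b) ↔ G.FitAt T d a b := by
  unfold FitAt
  rw [← fit_image (G.plH 0 c) (U := G.U d) (A := G.tile T 0 a), plH_coe, pl_tile, pl_tile]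
  have h1 : G.pl 0 c '' G.U d = G.U (act c d) := by
    rw [← mat_U]
    exact image_congr fun x _ => G.pl_zero c x
  have h2 : mvR G.mat 0 c 0 = 0 := by
    simp [mvR, Mat.apZ_zero]
  have h3 : mvR G.mat 0 c (G.dir d) = G.dir (act c d) := by
    simp [mvR, G.mat_dir]
  rw [h1, h2, h3]

theorem fitAt_swap (d : ZMod n) (a b : Lab n) :
    G.FitAt T (d + G.h) b a ↔ G.FitAt T d a b := by
  unfold FitAt
  rw [← fit_image (G.plH (-(G.dir d)) (0, false)) (U := G.U d), plH_coe, pl_tile, pl_tile]
  have h1 : G.pl (-(G.dir d)) (0, false) '' G.U d = G.U (d + G.h) := by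
    rw [← sub_U]
    refine image_congr fun x _ => ?_
    rw [G.pl_one, toV_neg]
    abel
  have h2 : mvR G.mat (-(G.dir d)) (0, false) 0 = G.dir (d + G.h) := by
    simp [mvR, Mat.apZ_zero, G.dir_h]
  have h3 : mvR G.mat (-(G.dir d)) (0, false) (G.dir d) = 0 := by
    simp [mvR, G.mat_one, Mat.apZ_one]
  rw [h1, h2, h3, one_lmul, one_lmul]
  exact ⟨fit_symm, fit_symm⟩

theorem fitAt_iff (d : ZMod n) (a b : Lab n) :
    G.FitAt T d a b ↔ Con G.h (G.rel T) d a b := by
  have h := G.fitAt_lmul T (lmul (-(act (linv a) d), false) (linv a)) d a b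
  rw [act_lmul] at h
  have h0 : act ((-(act (linv a) d), false) : Lab n) (act (linv a) d) = 0 := by
    simp [act, sg]
  rw [h0, lmul_assoc', linv_lmul, lmul_one] at h
  rw [← h]
  unfold Con rel
  have h1 : lmul (lmul (-(act (linv a) d), false) (linv a)) b
      = (G.h - sg (xor a.2 b.2) (act (linv b) (d + G.h)), xor a.2 b.2) := by
    obtain ⟨k, f⟩ := a
    obtain ⟨l, e⟩ := b
    have hh := G.h_add
    cases f <;> cases e <;> simp [lmul, linv, act, sg] <;>
      first
        | ring1
        | linear_combination (-1 : ZMod n) * hh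
  rw [h1]

/-- Every pair of local edges with a chirality bit is realized in direction `0`, the first tile
having any prescribed flip. -/
theorem fitAt_of_rel {i j : ZMod n} {t : Bool} (f : Bool) (h : G.rel T i j t) :
    G.FitAt T 0 (-(sg f i), f) (G.h - sg (xor f t) j, xor f t) := by
  rw [fitAt_iff]
  unfold Con
  have h1 : act (linv ((-(sg f i), f) : Lab n)) 0 = i := by
    cases f <;> simp [act, linv, sg]
  have h2 : act (linv ((G.h - sg (xor f t) j, xor f t) : Lab n)) (0 + G.h) = j := by
    cases f <;> cases t <;> simp [act, linv, sg]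
  have h3 : xor f (xor f t) = t := by
    cases f <;> cases t <;> rfl
  show G.rel T (act (linv ((-(sg f i), f) : Lab n)) 0)
    (act (linv ((G.h - sg (xor f t) j, xor f t) : Lab n)) (0 + G.h)) (xor f (xor f t))
  rw [h1, h2, h3]
  exact h

theorem rel_of_fitAt {i j : ZMod n} {t : Bool} (f : Bool)
    (h : G.FitAt T 0 (-(sg f i), f) (G.h - sg (xor f t) j, xor f t)) : G.rel T i j t := by
  rw [fitAt_iff] at h
  unfold Con at h
  have h1 : act (linv ((-(sg f i), f) : Lab n)) 0 = i := by
    cases f <;> simp [act, linv, sg]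
  have h2 : act (linv ((G.h - sg (xor f t) j, xor f t) : Lab n)) (0 + G.h) = j := by
    cases f <;> cases t <;> simp [act, linv, sg]
  have h3 : xor f (xor f t) = t := by
    cases f <;> cases t <;> rfl
  have h' : G.rel T (act (linv ((-(sg f i), f) : Lab n)) 0)
    (act (linv ((G.h - sg (xor f t) j, xor f t) : Lab n)) (0 + G.h)) (xor f (xor f t)) := h
  rw [h1, h2, h3] at h'
  exact h'

theorem rel_symm {i j : ZMod n} {t : Bool} (h : G.rel T i j t) : G.rel T j i t := by
  have h1 : G.FitAt T 0 (-i, false) (G.h - sg t j, t) := h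
  have h2 := (G.fitAt_swap T 0 _ _).2 h1
  rw [fitAt_iff] at h2
  unfold Con at h2
  have hh := G.h_add
  have e1 : act (linv ((G.h - sg t j, t) : Lab n)) (0 + G.h) = j := by
    cases t <;> simp [act, linv, sg]
  have e2 : act (linv ((-i, false) : Lab n)) (0 + G.h + G.h) = i := by
    simp [act, linv, sg, hh]
  have e3 : xor t false = t := by
    cases t <;> rfl
  have h3 : G.rel T (act (linv ((G.h - sg t j, t) : Lab n)) (0 + G.h))
    (act (linv ((-i, false) : Lab n)) (0 + G.h + G.h)) (xor t false) := h2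
  rw [e1, e2, e3] at h3
  exact h3

theorem rel_closed : Closed (G.rel T) where
  symm _ _ _ h := G.rel_symm T h
  chain i j k l s t u h1 h2 h3 := by
    have a1 : Fit (G.U 0) (G.tile T 0 (-(sg false i), false))
        (G.tile T (G.dir 0) (G.h - sg (xor false s) j, xor false s)) := G.fitAt_of_rel T false h1
    have a2 : Fit (G.U 0) (G.tile T 0 (-(sg (xor s t) k), xor s t))
        (G.tile T (G.dir 0) (G.h - sg (xor (xor s t) t) j, xor (xor s t) t)) :=
      G.fitAt_of_rel T (xor s t) (G.rel_symm T h2)
    have a3 : Fit (G.U 0) (G.tile T 0 (-(sg (xor s t) k), xor s t))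
        (G.tile T (G.dir 0) (G.h - sg (xor (xor s t) u) l, xor (xor s t) u)) :=
      G.fitAt_of_rel T (xor s t) h3
    have e1 : xor (xor s t) t = xor false s := by
      cases s <;> cases t <;> rfl
    rw [e1] at a2
    have a4 := fit_chain a1 (fit_symm a2) a3
    have e2 : xor (xor s t) u = xor false (xor (xor s t) u) := by
      simp
    rw [e2] at a4
    exact G.rel_of_fitAt T false a4

end Grid

end Pool.H3JG
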