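import Pool.Agent.Helper3.JG.Check

/-!
# Jigsaw tiles on a lattice: soundness of the certificate check
-/

namespace Pool.H3JG

variable {n : ℕ} [NeZero n] {h : ℕ} {R : ZMod n → ZMod n → Bool → Prop} {g : Z2 → Lab n}
  {dir : ZMod n → Z2} {dt : List (ℕ × ℕ × ℕ)} {out : ℕ}

/-- An assignment agrees with a labelling. -/
def Agree (g : Z2 → Lab n) (s : List (ℕ × ℕ × ℕ)) : Prop :=
  ∀ e ∈ s, g ((e.1 : ℤ), (e.2.1 : ℤ)) = labN n e.2.2 ∧ e.2.2 < 2 * n

theorem okE_true (hg : ∀ z d, Con (h : ZMod n) R d (g z) (g (z + dir d)))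
    (hout : ∀ b, out.testBit b = true → ¬ Rb R b) {x y a : ℕ} (ha : a < 2 * n)
    (hxy : g ((x : ℤ), (y : ℤ)) = labN n a) {e : ℕ × ℕ × ℕ}
    (he : g ((e.1 : ℤ), (e.2.1 : ℤ)) = labN n e.2.2) (he2 : e.2.2 < 2 * n) :
    ∀ dt : List (ℕ × ℕ × ℕ),
      (∀ e ∈ dt, e.1 < n ∧ dir (e.1 : ZMod n) = ((e.2.1 : ℤ) - 1, (e.2.2 : ℤ) - 1)) →
      okE n h out x y a e dt = true
  | [], _ => rfl
  | (d, p, q) :: l, hdt => by
    have ih := okE_true hg hout ha hxy he he2 l fun e he => hdt e (List.mem_cons_of_mem _ he)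
    obtain ⟨hd, hdir⟩ := hdt (d, p, q) List.mem_cons_self
    unfold okE
    rw [ih, Bool.and_true]
    by_cases hpq : e.1 + 1 = x + p ∧ e.2.1 + 1 = y + q
    · have hcell : (((x : ℤ), (y : ℤ)) : Z2) + dir (d : ZMod n) = ((e.1 : ℤ), (e.2.1 : ℤ)) := by
        rw [hdir]
        simp only [Prod.mk_add_mk, Prod.mk.injEq]
        omega
      have hc := hg ((x : ℤ), (y : ℤ)) (d : ZMod n)
      rw [hcell, hxy, he, con_iff_cbN R ha he2 hd] at hc
      have : out.testBit (cbN n h a e.2.2 d) = false := by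
        by_contra hcon
        exact hout _ (by simpa using hcon) hc
      simp [this]
    · have : (Nat.beq (e.1 + 1) (x + p) && Nat.beq (e.2.1 + 1) (y + q)) = false := by
        rw [Bool.and_eq_false_iff]
        by_contra hcon
        push Not at hcon
        simp only [ne_eq, Bool.not_eq_false, Nat.beq_eq] at hcon
        exact hpq hcon
      simp [this]

theorem okS_true (hg : ∀ z d, Con (h : ZMod n) R d (g z) (g (z + dir d)))
    (hout : ∀ b, out.testBit b = true → ¬ Rb R b)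
    (hdt : ∀ e ∈ dt, e.1 < n ∧ dir (e.1 : ZMod n) = ((e.2.1 : ℤ) - 1, (e.2.2 : ℤ) - 1))
    {x y a : ℕ} (ha : a < 2 * n) (hxy : g ((x : ℤ), (y : ℤ)) = labN n a) :
    ∀ s : List (ℕ × ℕ × ℕ), Agree g s → okS n h dt out x y a s = true
  | [], _ => rfl
  | e :: s, hs => by
    have ih := okS_true hg hout hdt ha hxy s fun e he => hs e (List.mem_cons_of_mem _ he)
    obtain ⟨h1, h2⟩ := hs e List.mem_cons_self
    unfold okS
    rw [ih, Bool.and_true]
    exact okE_true hg hout ha hxy h1 h2 dt hdt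

theorem mem_expandL {x y a : ℕ} {s : List (ℕ × ℕ × ℕ)} (hok : okS n h dt out x y a s = true) :
    ∀ k, a < k → ((x, y, a) :: s) ∈ expandL n h dt out x y s k
  | 0, hk => absurd hk (Nat.not_lt_zero _)
  | k + 1, hk => by
    unfold expandL
    by_cases hak : a = k
    · subst hak
      rw [hok]
      simp
    · have ih := mem_expandL hok k (by omega)
      cases okS n h dt out x y k s
      · simpa using ih
      · simp [ih]

theorem chkF_sound (hg : ∀ z d, Con (h : ZMod n) R d (g z) (g (z + dir d)))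
    (hout : ∀ b, out.testBit b = true → ¬ Rb R b)
    (hdt : ∀ e ∈ dt, e.1 < n ∧ dir (e.1 : ZMod n) = ((e.2.1 : ℤ) - 1, (e.2.2 : ℤ) - 1))
    (f : Fo) : ∀ ss, chkF n h dt out f ss = true → ∀ s ∈ ss, ¬ Agree g s := by
  induction f with
  | nil =>
    intro ss hss s hs
    cases ss with
    | nil => simp at hs
    | cons a l => simp [chkF] at hss
  | cons c ch rest ih1 ih2 =>
    intro ss hss s hs
    cases ss with
    | nil => simp at hs
    | cons a l =>
      unfold chkF at hss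
      rw [Bool.and_eq_true] at hss
      rcases List.mem_cons.1 hs with rfl | hs
      · intro hag
        obtain ⟨k, hk, hlab⟩ := labN_surj (g (((c / 64 : ℕ) : ℤ), ((c % 64 : ℕ) : ℤ)))
        have hok := okS_true hg hout hdt hk hlab.symm s hag
        have hmem := mem_expandL hok (2 * n) hk
        refine ih1 _ hss.1 _ hmem ?_
        intro e he
        rcases List.mem_cons.1 he with rfl | he
        · exact ⟨hlab.symm, hk⟩
        · exact hag e he
      · exact ih2 _ hss.2 s hs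

theorem rb_insert {inn b4 b5 : ℕ} (hinn : ∀ b, inn.testBit b = true → Rb R b) (h4 : Rb R b4)
    (h5 : Rb R b5) : ∀ b, (inn ||| 2 ^ b4 ||| 2 ^ b5).testBit b = true → Rb R b := by
  intro b hb
  rw [Nat.testBit_or, Nat.testBit_or, Nat.testBit_two_pow, Nat.testBit_two_pow] at hb
  simp only [Bool.or_eq_true, decide_eq_true_eq] at hb
  rcases hb with (hb | hb) | hb
  · exact hinn b hb
  · exact hb ▸ h4
  · exact hb ▸ h5

theorem rb_insert_not {b4 b5 : ℕ} (hout : ∀ b, out.testBit b = true → ¬ Rb R b) (h4 : ¬ Rb R b4)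
    (h5 : ¬ Rb R b5) : ∀ b, (out ||| 2 ^ b4 ||| 2 ^ b5).testBit b = true → ¬ Rb R b := by
  intro b hb
  rw [Nat.testBit_or, Nat.testBit_or, Nat.testBit_two_pow, Nat.testBit_two_pow] at hb
  simp only [Bool.or_eq_true, decide_eq_true_eq] at hb
  rcases hb with (hb | hb) | hb
  · exact hout b hb
  · exact hb ▸ h4
  · exact hb ▸ h5

theorem rb_mirror (hR : Closed R) {b b' : ℕ} (hM : okM n b b' = true) (hb : Rb R b) :
    Rb R b' := by
  unfold okM at hM
  simp only [Bool.and_eq_true, Nat.beq_eq] at hM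
  unfold Rb at *
  rw [hM.1.1, hM.1.2, hM.2]
  exact hR.symm _ _ _ hb

theorem okM_symm {b b' : ℕ} (hM : okM n b b' = true) : okM n b' b = true := by
  unfold okM at *
  simp only [Bool.and_eq_true, Nat.beq_eq] at *
  exact ⟨⟨hM.1.2.symm, hM.1.1.symm⟩, hM.2.symm⟩

theorem rb_chain (hR : Closed R) {b1 b2 b3 b4 b5 : ℕ} (h1 : Rb R b1) (h2 : Rb R b2)
    (h3 : Rb R b3) (hD : okD n b1 b2 b3 b4 b5 = true) : Rb R b4 ∧ Rb R b5 := by
  unfold okD at hD
  simp only [Bool.and_eq_true, Nat.beq_eq] at hD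
  obtain ⟨⟨⟨⟨⟨⟨⟨e1, e2⟩, e3⟩, e4⟩, e5⟩, e6⟩, e7⟩, e8⟩ := hD
  unfold Rb at *
  rw [e1] at h2
  rw [e2] at h3
  have h4 := hR.chain _ _ _ _ _ _ _ h1 h2 h3
  have hx : xor (xor (b1 % 2 == 1) (b2 % 2 == 1)) (b3 % 2 == 1) = (b4 % 2 == 1) := by
    rw [e5]
    rcases Nat.mod_two_eq_zero_or_one b1 with q1 | q1 <;>
      rcases Nat.mod_two_eq_zero_or_one b2 with q2 | q2 <;>
      rcases Nat.mod_two_eq_zero_or_one b3 with q3 | q3 <;> simp [q1, q2, q3]
  rw [hx, ← e3, ← e4] at h4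
  refine ⟨h4, ?_⟩
  rw [e6, e7, e8]
  exact hR.symm _ _ _ h4

theorem rb_str (hR : Closed R) (hS : Straight R) {b1 b2 b4 b5 : ℕ} (h1 : Rb R b1) (h2 : Rb R b2)
    (hD : okStr n b1 b2 b4 b5 = true) : Rb R b4 ∧ Rb R b5 := by
  unfold okStr at hD
  simp only [Bool.and_eq_true, Nat.beq_eq] at hD
  obtain ⟨⟨⟨⟨⟨⟨e1, e2⟩, e3⟩, e4⟩, e5⟩, e6⟩, e7⟩ := hD
  have h4 : Rb R b4 := by
    unfold Rb at *
    rw [e3, ← e1] at h1
    rw [e4, ← e2] at h2
    rw [e5, e6]
    exact hS _ _ _ h1 h2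
  exact ⟨h4, rb_mirror hR e7 h4⟩

theorem chk_sound (hR : Closed R) (str : Bool) (hS : str = true → Straight R) (TM : List ℕ)
    (hg : ∀ z d, Con (h : ZMod n) R d (g z) (g (z + dir d)))
    (hdt : ∀ e ∈ dt, e.1 < n ∧ dir (e.1 : ZMod n) = ((e.2.1 : ℤ) - 1, (e.2.2 : ℤ) - 1))
    (hroot : g (20, 20) = (0, false)) (x : Tr) :
    ∀ inn out : ℕ, chk n h dt str TM x inn out = true →
      (∀ b, inn.testBit b = true → Rb R b) → (∀ b, out.testBit b = true → ¬ Rb R b) →
      ∃ m ∈ TM, ∀ b, m.testBit b = true → Rb R b := by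
  induction x with
  | T k =>
    intro inn out hc hinn hout
    unfold chk at hc
    cases hm : TM[k]? with
    | none => simp [hm] at hc
    | some m =>
      simp only [hm, Nat.beq_eq] at hc
      refine ⟨m, List.mem_of_getElem? hm, fun b hb => hinn b ?_⟩
      rw [← hc, Nat.testBit_and, Bool.and_eq_true] at hb
      exact hb.2
  | D b1 b2 b3 b4 b5 x ih =>
    intro inn out hc hinn hout
    unfold chk at hc
    simp only [Bool.and_eq_true] at hc
    obtain ⟨⟨⟨⟨c1, c2⟩, c3⟩, c4⟩, c5⟩ := hc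
    obtain ⟨r4, r5⟩ := rb_chain hR (hinn _ c1) (hinn _ c2) (hinn _ c3) c4
    exact ih _ _ c5 (rb_insert hinn r4 r5) hout
  | S b1 b2 b4 b5 x ih =>
    intro inn out hc hinn hout
    unfold chk at hc
    simp only [Bool.and_eq_true] at hc
    obtain ⟨⟨⟨⟨c0, c1⟩, c2⟩, c4⟩, c5⟩ := hc
    obtain ⟨r4, r5⟩ := rb_str hR (hS c0) (hinn _ c1) (hinn _ c2) c4
    exact ih _ _ c5 (rb_insert hinn r4 r5) hout
  | C b =>
    intro inn out hc hinn hout
    unfold chk at hc
    rw [Bool.and_eq_true] at hc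
    exact absurd (hinn _ hc.1) (hout _ hc.2)
  | Y b b' x y ih1 ih2 =>
    intro inn out hc hinn hout
    unfold chk at hc
    simp only [Bool.and_eq_true] at hc
    obtain ⟨⟨c0, c1⟩, c2⟩ := hc
    by_cases hb : Rb R b
    · exact ih1 _ _ c1 (rb_insert hinn hb (rb_mirror hR c0 hb)) hout
    · exact ih2 _ _ c2 hinn
        (rb_insert_not hout hb fun hb' => hb (rb_mirror hR (okM_symm c0) hb'))
  | R f =>
    intro inn out hc hinn hout
    unfold chk at hc
    exfalso
    refine chkF_sound hg hout hdt f _ hc [(20, 20, 0)] List.mem_cons_self ?_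
    intro e he
    rw [List.mem_singleton] at he
    subst he
    have hn := NeZero.pos n
    refine ⟨?_, ?_⟩
    · simpa [labN] using hroot
    · show 0 < 2 * n
      omega

end Pool.H3JG
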