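import Pool.Agent.Helper3.JG.Place

/-!
# Jigsaw tiles on a lattice: in a tiling neighbouring tiles are complementary

Proof. Let `p ∈ U d` (open cell between `0` and `dir d`). By `B_sep` (transported with
`mat (d, false)` and `B_inv`) a copy at `w` contains `p` only if `w = 0` or `w = dir d`. By
translation the cell `toV z + U d` is covered by the two tiles at `z` and `z + dir d`. Put
`A = tile T 0 (g z)`, `B' = tile T (dir d) (g (z + dir d))`. Then `U d \ A` is open (`A` closed),
contained in `B'`, so in `interior B'`. Conversely if `p ∈ U d ∩ interior B'` and `p ∈ A`, then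
`A = closure (interior A)` (homeomorphic image of `T`), so the open set `interior B'` meets
`interior A`, which contradicts disjointness.
-/

namespace Pool.H3JG

open Set

variable {n : ℕ}

private theorem TileFit_fit {U A B : Set V} (hU : IsOpen U) (hA : closure (interior A) = A)
    (hB : closure (interior B) = B) (hcov : U ⊆ A ∪ B) (hd : Disjoint (interior A) (interior B)) :
    U ∩ interior B = U \ A := by
  have hAc : IsClosed A := by
    rw [← hA]
    exact isClosed_closure
  apply Subset.antisymm
  · rintro p ⟨hpU, hpB⟩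
    refine ⟨hpU, fun hpA => ?_⟩
    rw [← hA] at hpA
    obtain ⟨q, hq1, hq2⟩ := mem_closure_iff.1 hpA _ isOpen_interior hpB
    exact disjoint_left.1 hd hq2 hq1
  · intro p hp
    refine ⟨hp.1, ?_⟩
    refine interior_maximal (fun q hq => ?_) (hU.sdiff hAc) hp
    rcases hcov hq.1 with h | h
    · exact absurd h hq.2
    · exact h

/-- A copy of a subset of the star which meets the open cell of direction `d` sits at one of the two
ends of the lattice edge. -/
theorem Grid.sep (G : Grid n) {T : Set V} (hB : T ⊆ G.B) {d : ZMod n} {p : V} (hp : p ∈ G.U d)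
    {w : Z2} {a : Lab n} (hw : p ∈ G.tile T w a) : w = 0 ∨ w = G.dir d := by
  obtain ⟨q, hq, rfl⟩ := hp
  obtain ⟨x, hx, hxp⟩ := hw
  have h1 : (G.mat (d, false)).ap q - toV w ∈ G.B := by
    rw [← hxp]
    unfold Grid.pl
    rw [add_sub_cancel_left]
    exact G.B_inv a x (hB hx)
  have h2 := G.B_inv (linv (d, false)) _ h1
  rw [Mat.ap_sub, G.ap_linv_ap, ← toV_apZ] at h2
  have h3 := G.B_sep q hq _ h2
  rcases h3 with h3 | h3
  · left
    have h4 := G.apZ_apZ_linv (d, false) w
    rw [h3, Mat.apZ_zero] at h4
    exact h4.symm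
  · right
    have h4 := G.apZ_apZ_linv (d, false) w
    rw [h3, G.mat_dir] at h4
    rw [← h4]
    simp [act, sg]

theorem Grid.tile_regular (G : Grid n) {T : Set V} (hT : closure (interior T) = T) (w : Z2)
    (a : Lab n) : closure (interior (G.tile T w a)) = G.tile T w a := by
  unfold Grid.tile
  rw [← G.plH_coe, ← Homeomorph.image_interior, ← Homeomorph.image_closure, hT]

theorem Grid.fitAt_of_tiles (G : Grid n) {T : Set V} (hT : closure (interior T) = T)
    (hB : T ⊆ G.B) {g : Z2 → Lab n} (ht : G.Tiles T g) (z : Z2) (d : ZMod n) :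
    G.FitAt T d (g z) (g (z + G.dir d)) := by
  have hmv : ∀ (w : Z2) (b : Lab n),
      G.pl z (0, false) '' G.tile T w b = G.tile T (z + w) b := by
    intro w b
    rw [G.pl_tile, one_lmul]
    unfold mvR
    rw [G.mat_one, Mat.apZ_one]
  have hcov : G.U d ⊆ G.tile T 0 (g z) ∪ G.tile T (G.dir d) (g (z + G.dir d)) := by
    intro p hp
    obtain ⟨z', hz'⟩ := ht.1 (G.pl z (0, false) p)
    have h1 : G.tile T z' (g z') = G.pl z (0, false) '' G.tile T (z' - z) (g z') := by
      rw [hmv, add_sub_cancel]
    rw [h1] at hz'
    have h2 : p ∈ G.tile T (z' - z) (g z') := by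
      obtain ⟨p', hp', hpp⟩ := hz'
      have := (G.plH z (0, false)).injective hpp
      rw [← this]
      exact hp'
    rcases G.sep hB hp h2 with h3 | h3
    · left
      have h4 : z' = z := sub_eq_zero.1 h3
      rw [h3, h4] at h2
      exact h2
    · right
      have h4 : z' = z + G.dir d := by
        rw [← h3, add_sub_cancel]
      rw [h3, h4] at h2
      exact h2
  have hd : Disjoint (interior (G.tile T 0 (g z)))
      (interior (G.tile T (G.dir d) (g (z + G.dir d)))) := by
    have hne : z ≠ z + G.dir d := by
      intro h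
      exact G.dir_ne d (by simpa using h)
    have h1 := ht.2 z (z + G.dir d) hne
    have h2 : G.tile T z (g z) = G.plH z (0, false) '' G.tile T 0 (g z) := by
      rw [G.plH_coe, hmv, add_zero]
    have h3 : G.tile T (z + G.dir d) (g (z + G.dir d)) =
        G.plH z (0, false) '' G.tile T (G.dir d) (g (z + G.dir d)) := by
      rw [G.plH_coe, hmv]
    rw [h2, h3, ← Homeomorph.image_interior, ← Homeomorph.image_interior] at h1
    exact (disjoint_image_iff (G.plH z (0, false)).injective).1 h1
  have hU := G.isOpen_U d
  have hA := G.tile_regular hT 0 (g z)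
  have hB' := G.tile_regular hT (G.dir d) (g (z + G.dir d))
  refine ⟨TileFit_fit hU hA hB' hcov hd, TileFit_fit hU hB' hA ?_ hd.symm⟩
  rw [union_comm]
  exact hcov

end Pool.H3JG
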