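import Pool.Agent.Helper3.JG.Lab

/-!
# Jigsaw tiles on a lattice: periodic labellings given by tables

A bit `b` codes the triple `(b / 2 / n, b / 2 % n, b % 2)` of two local edges and a chirality.
-/

namespace Pool.H3JG

variable {n : ℕ}

/-- The number coding a triple. -/
def bitN (n i j t : ℕ) : ℕ := 2 * (i * n + j) + t

/-- The relation read at a bit. -/
def Rb (R : ZMod n → ZMod n → Bool → Prop) (b : ℕ) : Prop :=
  R ((b / 2 / n : ℕ) : ZMod n) ((b / 2 % n : ℕ) : ZMod n) (b % 2 == 1)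

theorem rb_bitN (R : ZMod n → ZMod n → Bool → Prop) {i j t : ℕ} (hj : j < n) (ht : t < 2) :
    Rb R (bitN n i j t) ↔ R (i : ZMod n) (j : ZMod n) (t == 1) := by
  have hn : 0 < n := by omega
  have h1 : bitN n i j t / 2 = i * n + j := by
    unfold bitN
    omega
  have h2 : bitN n i j t % 2 = t := by
    unfold bitN
    omega
  unfold Rb
  rw [h1, h2, Nat.mul_comm i n, Nat.mul_add_div hn, Nat.div_eq_of_lt hj, Nat.add_zero,
    Nat.mul_add_mod, Nat.mod_eq_of_lt hj]

/-- The label coded by a number. -/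
def labN (n : ℕ) (a : ℕ) : Lab n := (((a / 2 : ℕ) : ZMod n), a % 2 == 1)

/-- The contact bit of a pair of labels in direction `d`. -/
def cbit [NeZero n] (h : ZMod n) (d : ZMod n) (a b : Lab n) : ℕ :=
  bitN n (act (linv a) d).val (act (linv b) (d + h)).val (if xor a.2 b.2 then 1 else 0)

theorem con_iff_cbit [NeZero n] (h : ZMod n) (R : ZMod n → ZMod n → Bool → Prop) (d : ZMod n)
    (a b : Lab n) : Con h R d a b ↔ Rb R (cbit h d a b) := by
  unfold cbit Con
  rw [rb_bitN R (ZMod.val_lt _) (by split_ifs <;> omega), ZMod.natCast_zmod_val,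
    ZMod.natCast_zmod_val]
  cases xor a.2 b.2 <;> simp

section Table

variable (mat : Lab n → Mat) (N : ℕ) (tab : ZMod N → ZMod N → Lab n)

/-- Symmetry of a periodic table. -/
def SymT (x y : ZMod N) (a : Lab n) : Prop :=
  ∀ u v : ZMod N, tab (x + ((mat a).a : ZMod N) * u + ((mat a).b : ZMod N) * v)
    (y + ((mat a).c : ZMod N) * u + ((mat a).d : ZMod N) * v) = lmul a (tab u v)

instance [NeZero N] (x y : ZMod N) (a : Lab n) : Decidable (SymT mat N tab x y a) := by
  unfold SymT
  infer_instance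

/-- The labelling given by a table. -/
def gT (z : Z2) : Lab n := tab (z.1 : ZMod N) (z.2 : ZMod N)

theorem isSymR_iff (z : Z2) (a : Lab n) :
    IsSymR mat (gT N tab) z a ↔ SymT mat N tab (z.1 : ZMod N) (z.2 : ZMod N) a := by
  constructor
  · intro h u v
    obtain ⟨u, rfl⟩ := ZMod.intCast_surjective u
    obtain ⟨v, rfl⟩ := ZMod.intCast_surjective v
    have := h (u, v)
    simp only [gT, mvR, Mat.apZ, Prod.fst_add, Prod.snd_add] at this
    push_cast at this
    rw [← this]
    congr 1 <;> ring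
  · intro h w
    have := h (w.1 : ZMod N) (w.2 : ZMod N)
    simp only [gT, mvR, Mat.apZ, Prod.fst_add, Prod.snd_add]
    push_cast
    rw [← this]
    congr 1 <;> ring

/-- The label and the place of the symmetry which moves the cell `c` to the cell `(x, y)`. -/
def Mv (c : Z2) (x y : ZMod N) : Prop :=
  let a := lmul (tab x y) (linv (tab (c.1 : ZMod N) (c.2 : ZMod N)))
  SymT mat N tab (x - (((mat a).apZ c).1 : ZMod N)) (y - (((mat a).apZ c).2 : ZMod N)) a

instance [NeZero N] (c : Z2) (x y : ZMod N) : Decidable (Mv mat N tab c x y) := by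
  unfold Mv
  infer_instance

theorem exists_of_mv {c : Z2} {w : Z2} (h : Mv mat N tab c (w.1 : ZMod N) (w.2 : ZMod N)) :
    ∃ z a, IsSymR mat (gT N tab) z a ∧ mvR mat z a c = w := by
  refine ⟨w - (mat (lmul (gT N tab w) (linv (gT N tab c)))).apZ c,
    lmul (gT N tab w) (linv (gT N tab c)), ?_, ?_⟩
  · rw [isSymR_iff]
    unfold Mv at h
    simp only [Prod.fst_sub, Prod.snd_sub]
    push_cast
    exact h
  · unfold mvR
    abel

theorem mv_of_exists {c : Z2} {w : Z2} {z : Z2} {a : Lab n} (hs : IsSymR mat (gT N tab) z a)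
    (hw : mvR mat z a c = w) : Mv mat N tab c (w.1 : ZMod N) (w.2 : ZMod N) := by
  have h1 : gT N tab w = lmul a (gT N tab c) := by
    rw [← hw]
    exact hs c
  have h2 : lmul (gT N tab w) (linv (gT N tab c)) = a := by
    rw [h1, lmul_assoc', lmul_linv, lmul_one]
  have h3 : w - (mat a).apZ c = z := by
    rw [← hw]
    unfold mvR
    abel
  unfold Mv
  show SymT mat N tab ((w.1 : ZMod N) - (((mat (lmul (gT N tab w) (linv (gT N tab c)))).apZ c).1 : ZMod N))
    ((w.2 : ZMod N) - (((mat (lmul (gT N tab w) (linv (gT N tab c)))).apZ c).2 : ZMod N))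
    (lmul (gT N tab w) (linv (gT N tab c)))
  rw [h2]
  have hs' := (isSymR_iff mat N tab z a).1 hs
  rw [← h3] at hs'
  simp only [Prod.fst_sub, Prod.snd_sub] at hs'
  push_cast at hs'
  exact hs'

end Table

section Good

variable [NeZero n] (h : ZMod n) (mat : Lab n → Mat) (dir : ZMod n → Z2)
  (R : ZMod n → ZMod n → Bool → Prop) (N : ℕ) [NeZero N] (tab : ZMod N → ZMod N → Lab n)

/-- All contacts of a table are in a mask. -/
def ValT (mask : ℕ) : Prop :=
  ∀ x y : ZMod N, ∀ d : ZMod n,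
    mask.testBit (cbit h d (tab x y) (tab (x + ((dir d).1 : ZMod N)) (y + ((dir d).2 : ZMod N))))
      = true

instance (mask : ℕ) : Decidable (ValT h dir N tab mask) := by
  unfold ValT
  infer_instance

theorem con_of_valT {mask : ℕ} (hv : ValT h dir N tab mask)
    (hR : ∀ b, mask.testBit b = true → Rb R b) (z : Z2) (d : ZMod n) :
    Con h R d (gT N tab z) (gT N tab (z + dir d)) := by
  rw [con_iff_cbit]
  apply hR
  have := hv (z.1 : ZMod N) (z.2 : ZMod N) d
  simp only [gT, Prod.fst_add, Prod.snd_add]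
  push_cast
  exact this

theorem good_of_tab1 {mask : ℕ}
    (hc : ValT h dir N tab mask ∧ ∀ x y : ZMod N, Mv mat N tab 0 x y)
    (hR : ∀ b, mask.testBit b = true → Rb R b) : GoodR h mat dir R := by
  refine ⟨gT N tab, con_of_valT h dir R N tab hc.1 hR, 1, le_refl _, by omega, fun _ => 0, ?_, ?_⟩
  · intro w
    obtain ⟨z, a, h1, h2⟩ := exists_of_mv mat N tab (hc.2 (w.1 : ZMod N) (w.2 : ZMod N))
    exact ⟨z, a, 0, h1, h2⟩
  · intro i j _ _ _ _
    exact Subsingleton.elim i j

theorem good_of_tab2 {mask : ℕ} (c : Z2)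
    (hc : ValT h dir N tab mask ∧ (∀ x y : ZMod N, Mv mat N tab 0 x y ∨ Mv mat N tab c x y) ∧
      ¬ Mv mat N tab 0 (c.1 : ZMod N) (c.2 : ZMod N) ∧
      ¬ Mv mat N tab c ((0 : Z2).1 : ZMod N) ((0 : Z2).2 : ZMod N))
    (hR : ∀ b, mask.testBit b = true → Rb R b) : GoodR h mat dir R := by
  refine ⟨gT N tab, con_of_valT h dir R N tab hc.1 hR, 2, by omega, le_refl _, ![0, c], ?_, ?_⟩
  · intro w
    rcases hc.2.1 (w.1 : ZMod N) (w.2 : ZMod N) with h1 | h1
    · obtain ⟨z, a, h2, h3⟩ := exists_of_mv mat N tab h1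
      exact ⟨z, a, 0, h2, h3⟩
    · obtain ⟨z, a, h2, h3⟩ := exists_of_mv mat N tab h1
      exact ⟨z, a, 1, h2, h3⟩
  · intro i j z a hs hz
    fin_cases i <;> fin_cases j
    · rfl
    · exact absurd (mv_of_exists mat N tab hs hz) hc.2.2.1
    · exact absurd (mv_of_exists mat N tab hs hz) hc.2.2.2
    · rfl

end Good

end Pool.H3JG
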